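import Pool.Agent.TH796.AL.Stms
import Pool.Agent.TH796.AL.Lem

set_option autoImplicit false

/-!
# Project AL, task RING: the represented numbers form an algebra over the rationals
-/

namespace Pool.Agent.TH73.AL

open Filter Topology Pool.Agent.TH932.Abs Pool.Agent.TH932.Germs Pool.Agent.TH932.Chi
open Pool.Agent.TH796.AL

variable {m : ℕ} {B : Base m} {L : ℕ → ℝ}

lemma gm_sum {Z : Type} (s : Finset Z) (f : Z → ℕ → ℚ) :
    ∑ j ∈ s, gm (f j) = gm (fun n => ∑ j ∈ s, f j n) := by
  classical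
  induction s using Finset.induction_on with
  | empty => simp [gm_zero]
  | insert a s ha ih =>
    rw [Finset.sum_insert ha, ih, gm_add]
    congr 1
    funext n
    rw [Finset.sum_insert ha]

/-- rational constants -/
lemma rep_const (hL : Tendsto L atTop atTop) (c : ℚ) : Rep B hL (c : ℝ) := by
  refine ⟨Unit, inferInstance, fun _ => 1, 0, ?_, ?_, ?_⟩
  · intro v _
    rw [neg_zero]
    have := (filt_v (B := B) hL v).alg_mem (1 : KK L hL)
    simpa using this
  · intro _
    have := Sint.alg (B := B) hL (1 : KK L hL)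
    simpa using this
  · intro E
    refine ⟨fun _ => AddMonoidAlgebra.single 0 ((c : ℚ) : KK L hL), fun _ => c, ?_, ?_⟩
    · simp only [Finset.univ_unique, Finset.sum_singleton, mul_one]
      rw [ev_single, ch_zero, mul_one]
      have h1 : ((c : KK L hL) : GG) = (c : GG) := by push_cast; rfl
      rw [h1]
      have h2 : ∀ k : ℚ, (k : GG) = gm (fun _ => k) := by
        intro k
        exact (map_ratCast (⟨⟨⟨fun q : ℚ => gm (fun _ => q), rfl⟩, fun _ _ => rfl⟩, rfl, fun _ _ => rfl⟩ : ℚ →+* GG) k).symm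
      exact (h2 c).symm
    · refine Eventually.of_forall fun n => ?_
      rw [sub_self, abs_zero]
      exact (Real.exp_pos _).le

/-- sums -/
lemma rep_add (hL : Tendsto L atTop atTop) {x y : ℝ} (hx : Rep B hL x) (hy : Rep B hL y) :
    Rep B hL (x + y) := by
  obtain ⟨Z1, i1, z1, C1, h1, g1, r1⟩ := hx
  obtain ⟨Z2, i2, z2, C2, h2, g2, r2⟩ := hy
  refine ⟨Z1 ⊕ Z2, inferInstance, Sum.elim z1 z2, max C1 C2, ?_, ?_, ?_⟩
  · rintro v (j | j)
    · exact (filt_v (B := B) hL v).anti (neg_le_neg (le_max_left _ _)) (h1 v j)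
    · exact (filt_v (B := B) hL v).anti (neg_le_neg (le_max_right _ _)) (h2 v j)
  · rintro (j | j)
    · exact g1 j
    · exact g2 j
  · intro E
    obtain ⟨P1, s1, e1, a1⟩ := r1 (E + 1)
    obtain ⟨P2, s2, e2, a2⟩ := r2 (E + 1)
    refine ⟨Sum.elim P1 P2, fun n => s1 n + s2 n, ?_, ?_⟩
    · rw [Fintype.sum_sum_type, ← gm_add, e1, e2]
      rfl
    · filter_upwards [a1, a2, two_le_exp hL one_pos] with n b1 b2 b3
      have e : x + y - ((s1 n + s2 n : ℚ) : ℝ) = (x - s1 n) + (y - s2 n) := by push_cast; ring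
      rw [e]
      calc |(x - s1 n) + (y - s2 n)| ≤ |x - s1 n| + |y - s2 n| := abs_add_le _ _
        _ ≤ Real.exp (-((E + 1) * L n)) + Real.exp (-((E + 1) * L n)) := by gcongr
        _ = 2 * Real.exp (-((E + 1) * L n)) := by ring
        _ ≤ Real.exp (1 * L n) * Real.exp (-((E + 1) * L n)) := by gcongr
        _ = Real.exp (-(E * L n)) := by rw [← Real.exp_add]; ring_nf

/-- products -/
lemma rep_mul (hL : Tendsto L atTop atTop) {x y : ℝ} (hx : Rep B hL x) (hy : Rep B hL y) :
    Rep B hL (x * y) := by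
  obtain ⟨Z1, i1, z1, C1, h1, g1, r1⟩ := hx
  obtain ⟨Z2, i2, z2, C2, h2, g2, r2⟩ := hy
  refine ⟨Z1 × Z2, inferInstance, fun p => z1 p.1 * z2 p.2, C1 + C2, ?_, ?_, ?_⟩
  · rintro v ⟨i, j⟩
    have := (filt_v (B := B) hL v).mul_mem (h1 v i) (h2 v j)
    rw [← neg_add] at this
    exact this
  · rintro ⟨i, j⟩
    exact Sint.mul hL (g1 i) (g2 j)
  · intro E
    set E' : ℝ := |E| + 1 with hE'
    have hE0 : 0 < E' := by positivity
    obtain ⟨P1, s1, e1, a1⟩ := r1 E'
    obtain ⟨P2, s2, e2, a2⟩ := r2 E'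
    refine ⟨fun p => P1 p.1 * P2 p.2, fun n => s1 n * s2 n, ?_, ?_⟩
    · rw [Fintype.sum_prod_type, ← gm_mul, e1, e2, Finset.sum_mul_sum]
      refine Finset.sum_congr rfl fun i _ => Finset.sum_congr rfl fun j _ => ?_
      rw [map_mul]
      ring
    · have hev : ∀ᶠ n in (UU : Filter ℕ), Real.log (|x| + |y| + 1) ≤ L n :=
        ev_of_atTop (hL.eventually_ge_atTop _)
      filter_upwards [a1, a2, hev, L_nonneg hL] with n b1 b2 b3 b4
      have e : x * y - ((s1 n * s2 n : ℚ) : ℝ) = x * (y - s2 n) + s2 n * (x - s1 n) := by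
        push_cast; ring
      rw [e]
      have hexp : Real.exp (-(E' * L n)) ≤ 1 := by
        rw [Real.exp_le_one_iff]
        have : 0 ≤ E' * L n := by positivity
        linarith
      have hs2 : |(s2 n : ℝ)| ≤ |y| + 1 := by
        have h3 : (s2 n : ℝ) = y - (y - s2 n) := by ring
        rw [h3]
        refine (abs_sub _ _).trans ?_
        linarith
      have hpos : 0 < |x| + |y| + 1 := by positivity
      have hle : |x| + |y| + 1 ≤ Real.exp (L n) := by
        calc |x| + |y| + 1 = Real.exp (Real.log (|x| + |y| + 1)) := (Real.exp_log hpos).symm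
          _ ≤ _ := Real.exp_le_exp.2 b3
      calc |x * (y - s2 n) + s2 n * (x - s1 n)|
          ≤ |x * (y - s2 n)| + |(s2 n : ℝ) * (x - s1 n)| := abs_add_le _ _
        _ = |x| * |y - s2 n| + |(s2 n : ℝ)| * |x - s1 n| := by rw [abs_mul, abs_mul]
        _ ≤ |x| * Real.exp (-(E' * L n)) + (|y| + 1) * Real.exp (-(E' * L n)) := by gcongr
        _ = (|x| + |y| + 1) * Real.exp (-(E' * L n)) := by ring
        _ ≤ Real.exp (L n) * Real.exp (-(E' * L n)) := by gcongr
        _ = Real.exp (-(|E| * L n)) := by rw [← Real.exp_add, hE']; ring_nf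
        _ ≤ Real.exp (-(E * L n)) := by
          apply Real.exp_le_exp.2
          have := mul_le_mul_of_nonneg_right (le_abs_self E) b4
          linarith

theorem ring : RingStmt := by
  intro m B L hL σ x hx f
  induction f using MvPolynomial.induction_on with
  | C a =>
    rw [MvPolynomial.aeval_C]
    exact rep_const hL a
  | add p q hp hq =>
    rw [map_add]
    exact rep_add hL hp hq
  | mul_X p i hp =>
    rw [map_mul, MvPolynomial.aeval_X]
    exact rep_mul hL hp (hx i)

end Pool.Agent.TH73.AL
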