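import Pool.Agent.TH91.RF.Ex1

set_option autoImplicit false

namespace Pool.Agent.TH91.NB

open Finset Pool.Agent.TH91.RF

/-- strictly upper triangular -/
def SUp {N : ℕ} (M : Matrix (Fin N) (Fin N) ℝ) : Prop := ∀ i j, j ≤ i → M i j = 0

namespace J887

/-- the filtration of real matrices by superdiagonals, as real subspaces -/
def FR (N k : ℕ) : Submodule ℝ (Matrix (Fin N) (Fin N) ℝ) where
  carrier := {M | ∀ i j : Fin N, (j : ℕ) < i + k → M i j = 0}
  add_mem' := by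
    intro a b ha hb i j hij
    rw [Matrix.add_apply, ha i j hij, hb i j hij, add_zero]
  zero_mem' := by
    intro i j _
    rfl
  smul_mem' := by
    intro c x hx i j hij
    rw [Matrix.smul_apply, hx i j hij, smul_zero]

/-- the filtration of real matrices by superdiagonals -/
noncomputable def matFiltR (N : ℕ) : Filt (Matrix (Fin N) (Fin N) ℝ) N where
  F k := (FR N k).restrictScalars ℚ
  anti := by
    intro i j hij x hx a b hab
    exact hx a b (by omega)
  mul := by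
    intro i j x y hx hy a b hab
    rw [Matrix.mul_apply]
    refine sum_eq_zero fun c _ => ?_
    by_cases h : (c : ℕ) < a + i
    · rw [hx a c h, zero_mul]
    · rw [hy c b (by omega), mul_zero]
  bot := by
    intro x hx
    ext i j
    exact hx i j (by omega)

theorem mem_F {N k : ℕ} {x : Matrix (Fin N) (Fin N) ℝ} : x ∈ (matFiltR N).F k ↔ x ∈ FR N k :=
  Iff.rfl

theorem sup_iff {N : ℕ} {x : Matrix (Fin N) (Fin N) ℝ} : SUp x ↔ x ∈ (matFiltR N).F 1 := by
  constructor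
  · intro h i j hij
    refine h i j ?_
    rw [Fin.le_def]
    omega
  · intro h i j hij
    rw [Fin.le_def] at hij
    exact h i j (by omega)

section log

variable {N : ℕ}

/-- the exponential polynomial -/
noncomputable def Ex (N : ℕ) (z : Matrix (Fin N) (Fin N) ℝ) : Matrix (Fin N) (Fin N) ℝ :=
  ∑ i ∈ range (N + 1), (i.factorial : ℚ)⁻¹ • (z ^ i)

/-- approximations of the logarithm -/
noncomputable def Lg (N : ℕ) : ℕ → Matrix (Fin N) (Fin N) ℝ → Matrix (Fin N) (Fin N) ℝ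
  | 0 => fun _ => 0
  | (k + 1) => fun w => Lg N k w + (w - Ex N (Lg N k w))

theorem Ex_continuous : Continuous (Ex N) := by
  unfold Ex
  exact continuous_finsetSum _ fun i _ =>
    (continuous_const_smul ((i.factorial : ℚ)⁻¹)).comp (continuous_pow i)

theorem Lg_continuous (k : ℕ) : Continuous (Lg N k) := by
  induction k with
  | zero => exact continuous_const
  | succ k ih => exact ih.add (continuous_id.sub (Ex_continuous.comp ih))

theorem Lg_spec {w : Matrix (Fin N) (Fin N) ℝ} (hw : w - 1 ∈ (matFiltR N).F 1) (k : ℕ) :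
    Lg N k w ∈ (matFiltR N).F 1 ∧ w - IsNilpotent.exp (Lg N k w) ∈ (matFiltR N).F (k + 1) := by
  induction k with
  | zero =>
    refine ⟨Submodule.zero_mem _, ?_⟩
    show w - IsNilpotent.exp 0 ∈ _
    rw [IsNilpotent.exp_zero]
    exact hw
  | succ k ih =>
    obtain ⟨h1, h2⟩ := ih
    have e0 : Lg N (k + 1) w = Lg N k w + (w - IsNilpotent.exp (Lg N k w)) := by
      rw [(matFiltR N).exp_eq h1]
      rfl
    rw [e0]
    refine ⟨Submodule.add_mem _ h1 ((matFiltR N).anti (by omega) h2), ?_⟩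
    have h3 := (matFiltR N).exp_add_sub h1 h2 (by omega)
    have e : w - IsNilpotent.exp (Lg N k w + (w - IsNilpotent.exp (Lg N k w))) =
        -(IsNilpotent.exp (Lg N k w + (w - IsNilpotent.exp (Lg N k w))) -
          IsNilpotent.exp (Lg N k w) - (w - IsNilpotent.exp (Lg N k w))) := by abel
    rw [e]
    exact Submodule.neg_mem _ h3

theorem Lg_exp {z : Matrix (Fin N) (Fin N) ℝ} (hz : z ∈ (matFiltR N).F 1) :
    Lg N N (IsNilpotent.exp z) = z := by
  obtain ⟨h1, h2⟩ := Lg_spec ((matFiltR N).exp_sub_one_mem hz) N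
  have h3 := (matFiltR N).eq_zero_of_le (by omega) h2
  exact ((matFiltR N).exp_inj hz h1 (sub_eq_zero.1 h3)).symm

end log

theorem exp_sub_mem {A : Type*} [Ring A] [Algebra ℚ A] {N : ℕ} (Φ : Filt A N) {a b : A}
    (ha : a ∈ Φ.F 1) (hb : b ∈ Φ.F 1) {k : ℕ}
    (h : IsNilpotent.exp a - IsNilpotent.exp b ∈ Φ.F (k + 1)) : a - b ∈ Φ.F (k + 1) := by
  have key : ∀ j ≤ k, a - b ∈ Φ.F (j + 1) := by
    intro j
    induction j with
    | zero => intro _; exact Submodule.sub_mem _ ha hb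
    | succ j ih =>
      intro hj
      have h0 := ih (by omega)
      have h1 := Φ.exp_add_sub hb h0 (by omega)
      rw [add_sub_cancel] at h1
      have h2 := Submodule.sub_mem _ (Φ.anti (by omega : j + 1 + 1 ≤ k + 1) h) h1
      have e : IsNilpotent.exp a - IsNilpotent.exp b -
          (IsNilpotent.exp a - IsNilpotent.exp b - (a - b)) = a - b := by abel
      rwa [e] at h2
  exact key k le_rfl

section main

variable {N : ℕ} (Γ : Subgroup (Matrix (Fin N) (Fin N) ℝ)ˣ)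

/-- the logarithms of the elements of the group -/
def LG : Set (Matrix (Fin N) (Fin N) ℝ) := {y | SUp y ∧
      ∃ γ ∈ Γ, (γ : Matrix (Fin N) (Fin N) ℝ) = IsNilpotent.exp y}

/-- their real span -/
def Vs : Submodule ℝ (Matrix (Fin N) (Fin N) ℝ) := Submodule.span ℝ (LG Γ)

theorem Vs_le {x : Matrix (Fin N) (Fin N) ℝ} (hx : x ∈ Vs Γ) : x ∈ (matFiltR N).F 1 := by
  have h : Vs Γ ≤ FR N 1 := by
    unfold Vs
    rw [Submodule.span_le]
    intro y hy
    exact sup_iff.1 hy.1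
  exact h hx

theorem bracket_gen {w y : Matrix (Fin N) (Fin N) ℝ} (hw : w ∈ LG Γ) (hy : y ∈ LG Γ) :
    w * y - y * w ∈ Vs Γ := by
  rcases Nat.eq_zero_or_pos N with hN | hN
  · subst hN
    have : w * y - y * w = 0 := by
      ext i
      exact i.elim0
    rw [this]
    exact Submodule.zero_mem _
  obtain ⟨hw1, gw, hgw, hgw'⟩ := hw
  obtain ⟨hy1, gy, hgy, hgy'⟩ := hy
  rw [sup_iff] at hw1 hy1
  have hT := (matFiltR N).lieLat
  have hcon : ∀ t : ℕ, ∑ i ∈ range (N + 1), ((t ^ i : ℕ) : ℤ) •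
      (((i.factorial : ℚ))⁻¹ • (adr (-w))^[i] y) ∈ (Vs Γ).toAddSubgroup := by
    intro t
    have htw : t • w ∈ (matFiltR N).F 1 := ((matFiltR N).F 1).nsmul_mem hw1 t
    have hsum : ∑ i ∈ range (N + 1), ((t ^ i : ℕ) : ℤ) •
        (((i.factorial : ℚ))⁻¹ • (adr (-w))^[i] y) =
        ∑ i ∈ range (N + 1), ((i.factorial : ℚ))⁻¹ • (adr (-(t • w)))^[i] y := by
      refine sum_congr rfl fun i _ => ?_
      have e1 : (-(t • w)) = (t : ℚ) • (-w) := by
        rw [smul_neg, Nat.cast_smul_eq_nsmul]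
      rw [e1, adr_smul_iter, smul_comm, ← Int.cast_smul_eq_zsmul ℚ]
      push_cast
      rfl
    rw [hsum]
    set a : Matrix (Fin N) (Fin N) ℝ :=
      ∑ i ∈ range (N + 1), ((i.factorial : ℚ))⁻¹ • (adr (-(t • w)))^[i] y with ha
    have haT : a ∈ (matFiltR N).F 1 := Submodule.sum_mem _ fun i hi =>
      hT.fact_adr_mem hT.self htw hy1 i (mem_range.1 hi)
    have hexp := hT.exp_conj_eq htw hy1
    rw [← ha] at hexp
    refine Submodule.subset_span ⟨sup_iff.2 haT, gw ^ t * gy * (gw ^ t)⁻¹,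
      Γ.mul_mem (Γ.mul_mem (Γ.pow_mem hgw t) hgy) (Γ.inv_mem (Γ.pow_mem hgw t)), ?_⟩
    rw [← hexp, Units.val_mul, Units.val_mul, Units.val_pow_eq_pow_val, hgw', hgy',
      ← exp_nsmul hw1 t]
    congr 1
    have h1 : (gw ^ t)⁻¹ * gw ^ t = 1 := inv_mul_cancel _
    have h2 : ((gw ^ t : (Matrix (Fin N) (Fin N) ℝ)ˣ) : Matrix (Fin N) (Fin N) ℝ) =
        IsNilpotent.exp (t • w) := by
      rw [Units.val_pow_eq_pow_val, hgw', ← exp_nsmul hw1 t]
    have h3 := IsNilpotent.exp_mul_exp_neg_self ((matFiltR N).nilp htw)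
    rw [← h2] at h3
    calc (((gw ^ t)⁻¹ : (Matrix (Fin N) (Fin N) ℝ)ˣ) : Matrix (Fin N) (Fin N) ℝ)
        = (((gw ^ t)⁻¹ : (Matrix (Fin N) (Fin N) ℝ)ˣ) : Matrix (Fin N) (Fin N) ℝ) *
          (((gw ^ t : (Matrix (Fin N) (Fin N) ℝ)ˣ) : Matrix (Fin N) (Fin N) ℝ) *
            IsNilpotent.exp (-(t • w))) := by rw [h3, mul_one]
      _ = IsNilpotent.exp (-(t • w)) := by
          rw [← mul_assoc, ← Units.val_mul, h1, Units.val_one, one_mul]
  have h5 := vdm_mem N (Vs Γ).toAddSubgroup _ hcon 1 (by omega)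
  simp only [Nat.factorial_one, Nat.cast_one, inv_one, one_smul, Function.iterate_one] at h5
  have e1 : adr (-w) y = w * y - y * w := by
    unfold adr
    noncomm_ring
  rw [e1] at h5
  have h6 := (Vs Γ).smul_mem ((vdm N : ℤ) : ℝ)⁻¹ h5
  rwa [← Int.cast_smul_eq_zsmul ℝ, inv_smul_smul₀ (by exact_mod_cast vdm_ne_zero N)] at h6

theorem bracket {u v : Matrix (Fin N) (Fin N) ℝ} (hu : u ∈ Vs Γ) (hv : v ∈ Vs Γ) :
    u * v - v * u ∈ Vs Γ := by
  induction hu using Submodule.span_induction with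
  | mem w hw =>
    induction hv using Submodule.span_induction with
    | mem y hy => exact bracket_gen Γ hw hy
    | zero => simp
    | add a b _ _ ha hb =>
      have e : w * (a + b) - (a + b) * w = (w * a - a * w) + (w * b - b * w) := by noncomm_ring
      rw [e]
      exact Submodule.add_mem _ ha hb
    | smul c a _ ha =>
      rw [mul_smul_comm, smul_mul_assoc, ← smul_sub]
      exact Submodule.smul_mem _ _ ha
  | zero => simp
  | add a b _ _ ha hb =>
    have e : (a + b) * v - v * (a + b) = (a * v - v * a) + (b * v - v * b) := by noncomm_ring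
    rw [e]
    exact Submodule.add_mem _ ha hb
  | smul c a _ ha =>
    rw [mul_smul_comm, smul_mul_assoc, ← smul_sub]
    exact Submodule.smul_mem _ _ ha

theorem Vs_lat : LieLat (matFiltR N) (Vs Γ).toAddSubgroup := by
  refine ⟨fun x hx => Vs_le Γ hx, fun u hu v hv => ?_⟩
  rw [← Rat.cast_smul_eq_qsmul ℝ]
  exact (Vs Γ).smul_mem _ (bracket Γ hu hv)

/-- the step of the induction -/
theorem step (x : Matrix (Fin N) (Fin N) ℝ) (C : ℝ)
    (hΓ : ∀ γ ∈ Γ, ∃ y, SUp y ∧ (γ : Matrix (Fin N) (Fin N) ℝ) = IsNilpotent.exp y)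
    (hC : ∀ n : ℕ, ∃ γ ∈ Γ, ∀ i j,
      |(IsNilpotent.exp ((n : ℝ) • x) * (γ : Matrix (Fin N) (Fin N) ℝ)) i j| ≤ C)
    {k : ℕ} (hk : 1 ≤ k) {v f : Matrix (Fin N) (Fin N) ℝ} (hv : v ∈ Vs Γ)
    (hf : f ∈ (matFiltR N).F k) (hx : x = v + f) :
    ∃ v' ∈ Vs Γ, x - v' ∈ (matFiltR N).F (k + 1) := by
  by_contra hcon
  push Not at hcon
  have hnot : x ∉ Vs Γ ⊔ FR N (k + 1) := by
    intro h
    obtain ⟨v', hv', f', hf', h1⟩ := Submodule.mem_sup.1 h
    apply hcon v' hv'
    rw [← h1, add_sub_cancel_left]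
    exact hf'
  obtain ⟨χ, hχx, hχ⟩ := Submodule.exists_le_ker_of_notMem hnot
  have hχV : ∀ u ∈ Vs Γ, χ u = 0 := fun u hu => hχ (Submodule.mem_sup_left hu)
  have hχF : ∀ u ∈ (matFiltR N).F (k + 1), χ u = 0 := fun u hu => hχ (Submodule.mem_sup_right hu)
  have hχf : χ f ≠ 0 := by
    rw [hx, map_add, hχV v hv, zero_add] at hχx
    exact hχx
  -- boundedness of the logarithm
  have hcomp : IsCompact {w : Matrix (Fin N) (Fin N) ℝ | ∀ i j, |w i j| ≤ C} := by
    have h1 : IsCompact (Set.univ.pi fun _ : Fin N => Set.univ.pi fun _ : Fin N =>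
        Set.Icc (-C) C) :=
      isCompact_univ_pi fun _ => isCompact_univ_pi fun _ => isCompact_Icc
    have h2 : {w : Matrix (Fin N) (Fin N) ℝ | ∀ i j, |w i j| ≤ C} =
        (Set.univ.pi fun _ : Fin N => Set.univ.pi fun _ : Fin N => Set.Icc (-C) C) := by
      ext w
      constructor
      · intro h i _ j _
        exact abs_le.1 (h i j)
      · intro h i j
        exact abs_le.2 (h i trivial j trivial)
    rw [h2]
    exact h1
  have hcont : Continuous fun w => χ (Lg N N w) :=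
    (LinearMap.continuous_of_finiteDimensional χ).comp (Lg_continuous N)
  obtain ⟨B, hB⟩ := hcomp.exists_bound_of_continuousOn hcont.continuousOn
  have hv1 := Vs_le Γ hv
  have hx1 : x ∈ (matFiltR N).F 1 := by
    rw [hx]
    exact Submodule.add_mem _ hv1 ((matFiltR N).anti hk hf)
  have key : ∀ n : ℕ, (n : ℝ) * |χ f| ≤ B := by
    intro n
    obtain ⟨γ, hγ, hγC⟩ := hC n
    obtain ⟨y, hy, hγy⟩ := hΓ γ hγ
    have hyV : y ∈ Vs Γ := Submodule.subset_span ⟨hy, γ, hγ, hγy⟩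
    have hy1 := Vs_le Γ hyV
    have hnv : (n : ℝ) • v ∈ Vs Γ := Submodule.smul_mem _ _ hv
    have hnf : (n : ℝ) • f ∈ (matFiltR N).F k := (FR N k).smul_mem _ hf
    have hnx1 : (n : ℝ) • x ∈ (matFiltR N).F 1 := (FR N 1).smul_mem _ hx1
    obtain ⟨z, hz, hzz⟩ := (Vs_lat Γ).exp_mul hnv hyV
    have hz1 := Vs_le Γ hz
    have hnv1 := Vs_le Γ hnv
    have hsplit : (n : ℝ) • x = (n : ℝ) • v + (n : ℝ) • f := by rw [hx, smul_add]
    -- `κ = exp (n x) γ`
    set κ : Matrix (Fin N) (Fin N) ℝ :=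
      IsNilpotent.exp ((n : ℝ) • x) * (γ : Matrix (Fin N) (Fin N) ℝ) with hκ
    have hκ1 : κ - 1 ∈ (matFiltR N).F 1 := by
      rw [hκ, hγy]
      exact (matFiltR N).one_add_mul_mem ((matFiltR N).exp_sub_one_mem hnx1)
        ((matFiltR N).exp_sub_one_mem hy1)
    obtain ⟨l, hl, hlκ⟩ := (matFiltR N).exp_surj hκ1
    have hznf : z + (n : ℝ) • f ∈ (matFiltR N).F 1 :=
      Submodule.add_mem _ hz1 ((matFiltR N).anti hk hnf)
    have hdiff : IsNilpotent.exp l - IsNilpotent.exp (z + (n : ℝ) • f) ∈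
        (matFiltR N).F (k + 1) := by
      have h1 := (matFiltR N).exp_add_sub hnv1 hnf hk
      rw [← hsplit] at h1
      have h2 := (matFiltR N).exp_add_sub hz1 hnf hk
      have h3 : (IsNilpotent.exp ((n : ℝ) • x) - IsNilpotent.exp ((n : ℝ) • v) - (n : ℝ) • f) *
          IsNilpotent.exp y ∈ (matFiltR N).F (k + 1) := by
        have e : (IsNilpotent.exp ((n : ℝ) • x) - IsNilpotent.exp ((n : ℝ) • v) - (n : ℝ) • f) *
            IsNilpotent.exp y =
            (IsNilpotent.exp ((n : ℝ) • x) - IsNilpotent.exp ((n : ℝ) • v) - (n : ℝ) • f) +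
            (IsNilpotent.exp ((n : ℝ) • x) - IsNilpotent.exp ((n : ℝ) • v) - (n : ℝ) • f) *
              (IsNilpotent.exp y - 1) := by noncomm_ring
        rw [e]
        exact Submodule.add_mem _ h1 ((matFiltR N).anti (by omega)
          ((matFiltR N).mul h1 ((matFiltR N).exp_sub_one_mem hy1)))
      have h4 : ((n : ℝ) • f) * (IsNilpotent.exp y - 1) ∈ (matFiltR N).F (k + 1) :=
        (matFiltR N).mul hnf ((matFiltR N).exp_sub_one_mem hy1)
      have e : IsNilpotent.exp l - IsNilpotent.exp (z + (n : ℝ) • f) =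
          (IsNilpotent.exp ((n : ℝ) • x) - IsNilpotent.exp ((n : ℝ) • v) - (n : ℝ) • f) *
            IsNilpotent.exp y + ((n : ℝ) • f) * (IsNilpotent.exp y - 1) -
          (IsNilpotent.exp (z + (n : ℝ) • f) - IsNilpotent.exp z - (n : ℝ) • f) := by
        rw [hlκ, hκ, hγy, ← hzz]
        noncomm_ring
      rw [e]
      exact Submodule.sub_mem _ (Submodule.add_mem _ h3 h4) h2
    have hl2 := exp_sub_mem (matFiltR N) hl hznf hdiff
    have h5 := hχF _ hl2
    rw [map_sub, map_add, hχV z hz, zero_add, map_smul, smul_eq_mul, sub_eq_zero] at h5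
    have h6 := hB κ hγC
    rw [← hlκ, Lg_exp hl, h5, Real.norm_eq_abs, abs_mul, Nat.abs_cast] at h6
    exact h6
  obtain ⟨n, hn⟩ := exists_nat_gt (B / |χ f|)
  have hpos : 0 < |χ f| := abs_pos.2 hχf
  rw [div_lt_iff₀ hpos] at hn
  linarith [key n]

end main

end J887

open J887 in
theorem log_mem_span {N : ℕ} (Γ : Subgroup (Matrix (Fin N) (Fin N) ℝ)ˣ)
    (hΓ : ∀ γ ∈ Γ, ∃ y, SUp y ∧ (γ : Matrix (Fin N) (Fin N) ℝ) = IsNilpotent.exp y)
    (x : Matrix (Fin N) (Fin N) ℝ) (hx : SUp x) (C : ℝ)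
    (hC : ∀ n : ℕ, ∃ γ ∈ Γ, ∀ i j,
      |(IsNilpotent.exp ((n : ℝ) • x) * (γ : Matrix (Fin N) (Fin N) ℝ)) i j| ≤ C) :
    x ∈ Submodule.span ℝ {y | SUp y ∧
      ∃ γ ∈ Γ, (γ : Matrix (Fin N) (Fin N) ℝ) = IsNilpotent.exp y} := by
  have key : ∀ k : ℕ, ∃ v ∈ Vs Γ, x - v ∈ (matFiltR N).F (k + 1) := by
    intro k
    induction k with
    | zero => exact ⟨0, Submodule.zero_mem _, by rw [sub_zero]; exact sup_iff.1 hx⟩
    | succ k ih =>
      obtain ⟨v, hv, hf⟩ := ih
      exact step Γ x C hΓ hC (by omega) hv hf (by abel)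
  obtain ⟨v, hv, hf⟩ := key N
  have h1 := (matFiltR N).eq_zero_of_le (by omega) hf
  rw [sub_eq_zero] at h1
  rw [h1]
  exact hv

end Pool.Agent.TH91.NB
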