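import Mathlib
import Pool.Agent.H438R2.RZ.P1
import Pool.Agent.H438R2.RZ.P5
import Pool.Agent.TH278.Defs
set_option autoImplicit false

/-! # Vector valued bound for small annuli -/

namespace Pool.Agent.TH73.J637

open MeasureTheory Set Complex
open scoped ENNReal RealInnerProductSpace
open Pool.Agent.H438R2.RZ (e Good ft Pl Bump)
open Pool.Agent.H438R2.RZ.P1aux (Box decay cs_of_box norm_e ph_cont int_ph)
open Pool.Agent.H438R2.RZ.P5aux (cs Pl_conv lint_cauchy good_integrable)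
open Pool.Agent.TH278

/-- the majorant of the kernels -/
noncomputable def W (L : ℝ) (z : ℝ × ℝ) : ℝ :=
  1 / (L * (1 + (z.1 / L) ^ 2)) * (1 / (L * (1 + (z.2 / L) ^ 2)))

lemma W_meas (L : ℝ) : Measurable fun z : ℝ × ℝ => ENNReal.ofReal (W L z) := by
  unfold W
  fun_prop

lemma lint_W (L : ℝ) (hL : 0 < L) :
    ∫⁻ z : ℝ × ℝ, ENNReal.ofReal (W L z) = ENNReal.ofReal Real.pi ^ 2 := by
  rw [Measure.volume_eq_prod, lintegral_prod_symm _ (W_meas L).aemeasurable]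
  have h1 : ∀ x y : ℝ, ENNReal.ofReal (W L (x, y)) =
      ENNReal.ofReal (1 / (L * (1 + (x / L) ^ 2))) *
        ENNReal.ofReal (1 / (L * (1 + (y / L) ^ 2))) := by
    intro x y
    rw [← ENNReal.ofReal_mul (by positivity)]
    rfl
  have h2 : ∀ y : ℝ, ∫⁻ x : ℝ, ENNReal.ofReal (W L (x, y)) =
      ENNReal.ofReal Real.pi * ENNReal.ofReal (1 / (L * (1 + (y / L) ^ 2))) := by
    intro y
    simp only [h1]
    rw [lintegral_mul_const', lint_cauchy L hL]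
    exact ENNReal.ofReal_ne_top
  simp only [h2]
  rw [lintegral_const_mul', lint_cauchy L hL, sq]
  exact ENNReal.ofReal_ne_top

/-- the family of multipliers -/
noncomputable def FV (ψ : ℝ → ℝ) (q : ℝ × (ℝ × ℝ)) : ℂ :=
  ((ψ (q.1 - (q.2.1 ^ 2 + q.2.2 ^ 2)) : ℝ) : ℂ)

lemma FV_smooth {ψ : ℝ → ℝ} (hψ : ContDiff ℝ (⊤ : ℕ∞) ψ) : ContDiff ℝ (⊤ : ℕ∞) (FV ψ) := by
  unfold FV
  refine Complex.ofRealCLM.contDiff.comp ?_
  exact hψ.comp (by fun_prop)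

lemma mV_cont {ψ : ℝ → ℝ} (hψ : Bump ψ) (L v : ℝ) : Continuous (mV ψ L v) := by
  unfold mV
  have := hψ.1.continuous
  fun_prop

lemma mV_box {ψ : ℝ → ℝ} (hψ : Bump ψ) {L : ℝ} (hL : 0 < L) (v : ℝ) :
    ∀ ξ, mV ψ L v ξ ≠ 0 → ξ ∈ Box (|v| + 1) := by
  intro ξ hξ
  have h1 : ψ (L ^ 2 * (v - (ξ.1 ^ 2 + ξ.2 ^ 2))) ≠ 0 := by
    intro h
    apply hξ
    simp [mV, h]
  have h2 := (hψ.2 _ h1).1
  have h3 : 0 < v - (ξ.1 ^ 2 + ξ.2 ^ 2) := by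
    by_contra hcon
    push Not at hcon
    have : L ^ 2 * (v - (ξ.1 ^ 2 + ξ.2 ^ 2)) ≤ 0 :=
      mul_nonpos_of_nonneg_of_nonpos (by positivity) hcon
    linarith
  have h4 : v ≤ |v| := le_abs_self v
  have h5 : 0 ≤ |v| := abs_nonneg v
  rw [Box, mem_prod]
  refine ⟨abs_le.mp (abs_le_of_sq_le_sq ?_ (by linarith)),
    abs_le.mp (abs_le_of_sq_le_sq ?_ (by linarith))⟩
  · nlinarith [sq_nonneg ξ.2]
  · nlinarith [sq_nonneg ξ.1]

lemma mV_int {ψ : ℝ → ℝ} (hψ : Bump ψ) {L : ℝ} (hL : 0 < L) (v : ℝ) :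
    Integrable (mV ψ L v) :=
  (mV_cont hψ L v).integrable_of_hasCompactSupport (cs_of_box (mV_box hψ hL v))

lemma scale (f : ℝ × ℝ → ℂ) {L : ℝ} (hL : 0 < L) :
    ∫ ξ, f ξ = ((1 / L ^ 2 : ℝ) : ℂ) * ∫ x : ℝ × ℝ, f (L⁻¹ • x) := by
  rw [Measure.integral_comp_smul]
  have h1 : Module.finrank ℝ (ℝ × ℝ) = 2 := by
    rw [Module.finrank_prod, Module.finrank_self]
  rw [h1, Complex.real_smul, ← mul_assoc, ← Complex.ofReal_mul]
  have h2 : 1 / L ^ 2 * |(L⁻¹ ^ 2)⁻¹| = 1 := by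
    rw [abs_of_pos (by positivity)]
    field_simp
  rw [h2, Complex.ofReal_one, one_mul]

/-- the kernel bound -/
theorem kernel_bound (ψ : ℝ → ℝ) (hψ : Bump ψ) (κ : ℝ) (hκ : 0 < κ) :
    ∃ C : ℝ, 0 < C ∧ ∀ L : ℝ, 0 < L → ∀ v : ℝ, v ≤ κ / L ^ 2 → ∀ z : ℝ × ℝ,
      ‖∫ ξ : ℝ × ℝ, mV ψ L v ξ * e (z.1 * ξ.1 + z.2 * ξ.2)‖ ≤ C * W L z := by
  obtain ⟨C, hC, hdec⟩ := decay (FV ψ) (FV_smooth hψ.1) (Icc (0 : ℝ) κ) isCompact_Icc (κ + 1)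
  refine ⟨C, hC, fun L hL v hv z => ?_⟩
  set t : ℝ := L ^ 2 * v with ht
  have htκ : t ≤ κ := by
    rw [le_div_iff₀ (by positivity)] at hv
    linarith
  have hsc := scale (fun ξ : ℝ × ℝ => mV ψ L v ξ * e (z.1 * ξ.1 + z.2 * ξ.2)) hL
  have hcomp : ∀ x : ℝ × ℝ, mV ψ L v (L⁻¹ • x) * e (z.1 * (L⁻¹ • x).1 + z.2 * (L⁻¹ • x).2) =
      FV ψ (t, x) * e ((z.1 / L) * x.1 + (z.2 / L) * x.2) := by
    intro x
    unfold mV FV
    simp only [Prod.smul_fst, Prod.smul_snd, smul_eq_mul]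
    congr 2
    · congr 2
      rw [ht]
      field_simp
    · field_simp
  simp only [hcomp] at hsc
  rw [hsc, norm_mul, Complex.norm_real, Real.norm_of_nonneg (by positivity)]
  have hWe : C * W L z = 1 / L ^ 2 * (C / ((1 + (z.1 / L) ^ 2) * (1 + (z.2 / L) ^ 2))) := by
    unfold W
    field_simp
  rw [hWe]
  refine mul_le_mul_of_nonneg_left ?_ (by positivity)
  by_cases ht2 : t < 1 / 2
  · have h0 : ∀ x : ℝ × ℝ, FV ψ (t, x) = 0 := by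
      intro x
      by_contra h
      have h1 : ψ (t - (x.1 ^ 2 + x.2 ^ 2)) ≠ 0 := by
        intro h2
        apply h
        simp [FV, h2]
      have h2 := (hψ.2 _ h1).1
      nlinarith [sq_nonneg x.1, sq_nonneg x.2]
    simp only [h0, zero_mul, integral_zero, norm_zero]
    positivity
  · push Not at ht2
    refine hdec t ⟨by linarith, htκ⟩ ?_ _ _
    intro x hx
    have h1 : ψ (t - (x.1 ^ 2 + x.2 ^ 2)) ≠ 0 := by
      intro h2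
      apply hx
      simp [FV, h2]
    have h2 := (hψ.2 _ h1).1
    rw [Box, mem_prod]
    refine ⟨abs_le.mp (abs_le_of_sq_le_sq ?_ (by linarith)),
      abs_le.mp (abs_le_of_sq_le_sq ?_ (by linarith))⟩
    · nlinarith [sq_nonneg x.2]
    · nlinarith [sq_nonneg x.1]

lemma lint_W_left (L : ℝ) (hL : 0 < L) (z : ℝ × ℝ) :
    ∫⁻ z' : ℝ × ℝ, ENNReal.ofReal (W L (z - z')) = ENNReal.ofReal Real.pi ^ 2 := by
  rw [← lint_W L hL]
  exact lintegral_sub_left_eq_self (fun w : ℝ × ℝ => ENNReal.ofReal (W L w)) z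

lemma lint_W_right (L : ℝ) (hL : 0 < L) (z' : ℝ × ℝ) :
    ∫⁻ z : ℝ × ℝ, ENNReal.ofReal (W L (z - z')) = ENNReal.ofReal Real.pi ^ 2 := by
  rw [← lint_W L hL]
  exact lintegral_sub_right_eq_self (fun w : ℝ × ℝ => ENNReal.ofReal (W L w)) z'

/-- the pointwise bound -/
lemma pt {ψ : ℝ → ℝ} (hψ : Bump ψ) {κ C : ℝ} (hC : 0 < C)
    (hker : ∀ L : ℝ, 0 < L → ∀ v : ℝ, v ≤ κ / L ^ 2 → ∀ z : ℝ × ℝ,
      ‖∫ ξ : ℝ × ℝ, mV ψ L v ξ * e (z.1 * ξ.1 + z.2 * ξ.2)‖ ≤ C * W L z)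
    {L : ℝ} (hL : 0 < L) {v : ℝ} (hv : v ≤ κ / L ^ 2) {g : ℝ × ℝ → ℂ} (hg : Good g)
    (z : ℝ × ℝ) : ‖Pl (mV ψ L v) g z‖ₑ ^ 2 ≤ ENNReal.ofReal (C ^ 2 * Real.pi ^ 2) *
      ∫⁻ z', ENNReal.ofReal (W L (z - z')) * ‖g z'‖ₑ ^ 2 := by
  have hWm : Measurable fun z' : ℝ × ℝ => ENNReal.ofReal (W L (z - z')) :=
    (W_meas L).comp (measurable_const.sub measurable_id)
  have hPl : Pl (mV ψ L v) g z = ∫ z' : ℝ × ℝ,
      (∫ ξ : ℝ × ℝ, mV ψ L v ξ * e ((z - z').1 * ξ.1 + (z - z').2 * ξ.2)) * g z' :=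
    Pl_conv _ (mV_int hψ hL v) _ (good_integrable hg) z
  have hb : ‖Pl (mV ψ L v) g z‖ₑ ≤ ENNReal.ofReal C *
      ∫⁻ z' : ℝ × ℝ, ENNReal.ofReal (W L (z - z')) * ‖g z'‖ₑ := by
    have hmm : Measurable fun z' : ℝ × ℝ => ENNReal.ofReal (W L (z - z')) * ‖g z'‖ₑ :=
      hWm.mul hg.1.enorm
    rw [hPl, ← lintegral_const_mul _ hmm]
    refine (enorm_integral_le_lintegral_enorm _).trans ?_
    refine lintegral_mono fun z' => ?_
    simp only [enorm_mul]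
    rw [← mul_assoc, ← ENNReal.ofReal_mul hC.le]
    refine mul_le_mul_left ?_ _
    rw [← ofReal_norm]
    exact ENNReal.ofReal_le_ofReal (hker L hL v hv (z - z'))
  calc ‖Pl (mV ψ L v) g z‖ₑ ^ 2 ≤ (ENNReal.ofReal C *
        ∫⁻ z' : ℝ × ℝ, ENNReal.ofReal (W L (z - z')) * ‖g z'‖ₑ) ^ 2 := pow_le_pow_left' hb 2
    _ = ENNReal.ofReal C ^ 2 *
        (∫⁻ z' : ℝ × ℝ, ENNReal.ofReal (W L (z - z')) * ‖g z'‖ₑ) ^ 2 := by rw [mul_pow]
    _ ≤ ENNReal.ofReal C ^ 2 * ((∫⁻ z' : ℝ × ℝ, ENNReal.ofReal (W L (z - z'))) *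
        ∫⁻ z' : ℝ × ℝ, ENNReal.ofReal (W L (z - z')) * ‖g z'‖ₑ ^ 2) := by
        gcongr
        exact cs volume _ _ hWm.aemeasurable hg.1.enorm.aemeasurable
    _ = _ := by
        rw [lint_W_left L hL, ← mul_assoc, ENNReal.ofReal_mul (by positivity),
          ENNReal.ofReal_pow hC.le, ENNReal.ofReal_pow Real.pi_pos.le]

/-- the convolution with the majorant is bounded on `L^2` -/
lemma conv_sq {L : ℝ} (hL : 0 < L) {H : ℝ × ℝ → ℝ≥0∞} (hH : Measurable H) :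
    ∫⁻ z, (∫⁻ z', ENNReal.ofReal (W L (z - z')) * H z') ^ 2 ≤
      ENNReal.ofReal (Real.pi ^ 4) * ∫⁻ z, H z ^ 2 := by
  have hWm : ∀ z : ℝ × ℝ, Measurable fun z' : ℝ × ℝ => ENNReal.ofReal (W L (z - z')) := fun z =>
    (W_meas L).comp (measurable_const.sub measurable_id)
  have hjm : Measurable (fun p : (ℝ × ℝ) × (ℝ × ℝ) => ENNReal.ofReal (W L (p.1 - p.2)) *
      H p.2 ^ 2) :=
    ((W_meas L).comp (measurable_fst.sub measurable_snd)).mul ((hH.comp measurable_snd).pow_const 2)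
  calc ∫⁻ z, (∫⁻ z', ENNReal.ofReal (W L (z - z')) * H z') ^ 2
      ≤ ∫⁻ z, ENNReal.ofReal Real.pi ^ 2 * ∫⁻ z', ENNReal.ofReal (W L (z - z')) * H z' ^ 2 := by
        refine lintegral_mono fun z => ?_
        have h := cs volume (fun z' : ℝ × ℝ => ENNReal.ofReal (W L (z - z'))) H
          (hWm z).aemeasurable hH.aemeasurable
        rwa [lint_W_left L hL] at h
    _ = ENNReal.ofReal Real.pi ^ 2 *
        ∫⁻ z : ℝ × ℝ, ∫⁻ z' : ℝ × ℝ, ENNReal.ofReal (W L (z - z')) * H z' ^ 2 := by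
        rw [lintegral_const_mul _ hjm.lintegral_prod_right']
    _ = ENNReal.ofReal Real.pi ^ 2 *
        ∫⁻ z' : ℝ × ℝ, ∫⁻ z : ℝ × ℝ, ENNReal.ofReal (W L (z - z')) * H z' ^ 2 := by
        rw [lintegral_lintegral_swap hjm.aemeasurable]
    _ = ENNReal.ofReal Real.pi ^ 2 *
        ∫⁻ z' : ℝ × ℝ, ENNReal.ofReal Real.pi ^ 2 * H z' ^ 2 := by
        congr 1
        refine lintegral_congr fun z' => ?_
        have hmm : Measurable fun z : ℝ × ℝ => ENNReal.ofReal (W L (z - z')) :=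
          (W_meas L).comp (measurable_id.sub measurable_const)
        rw [lintegral_mul_const _ hmm, lint_W_right L hL]
    _ = _ := by
        rw [lintegral_const_mul _ (hH.pow_const 2), ← mul_assoc,
          ENNReal.ofReal_pow Real.pi_pos.le, ← pow_add]

theorem VVS_all (ψ : ℝ → ℝ) (hψ : Bump ψ) (κ : ℝ) (hκ : 0 < κ) :
    ∃ C : ℝ, 0 < C ∧ VVS ψ κ C := by
  obtain ⟨C, hC, hker⟩ := kernel_bound ψ hψ κ hκ
  refine ⟨(C ^ 2 * Real.pi ^ 2) ^ 2 * Real.pi ^ 4, by positivity, ?_⟩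
  intro L hL Z _ ν _ v _ hvκ G hG
  have hL0 : 0 < L := by linarith
  obtain ⟨hGm, ⟨M, hM⟩, ⟨B, hB⟩⟩ := hG
  have hGood : ∀ ζ, Good (G ζ) := fun ζ =>
    ⟨hGm.comp measurable_prodMk_left, ⟨M, hM ζ⟩, ⟨B, hB ζ⟩⟩
  have hGe : Measurable (fun p : Z × (ℝ × ℝ) => ‖G p.1 p.2‖ₑ ^ 2) := hGm.enorm.pow_const 2
  set H : ℝ × ℝ → ℝ≥0∞ := fun z => ∫⁻ ζ, ‖G ζ z‖ₑ ^ 2 ∂ν with hH
  have hHm : Measurable H := hGe.lintegral_prod_left'
  have hA0 : 0 ≤ C ^ 2 * Real.pi ^ 2 := by positivity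
  have hpt : ∀ z, ∫⁻ ζ, ‖Pl (mV ψ L (v ζ)) (G ζ) z‖ₑ ^ 2 ∂ν ≤
      ENNReal.ofReal (C ^ 2 * Real.pi ^ 2) * ∫⁻ z', ENNReal.ofReal (W L (z - z')) * H z' := by
    intro z
    have hWm : Measurable fun z' : ℝ × ℝ => ENNReal.ofReal (W L (z - z')) :=
      (W_meas L).comp (measurable_const.sub measurable_id)
    have hjm : Measurable (fun p : Z × (ℝ × ℝ) => ENNReal.ofReal (W L (z - p.2)) *
        ‖G p.1 p.2‖ₑ ^ 2) := (hWm.comp measurable_snd).mul hGe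
    calc ∫⁻ ζ, ‖Pl (mV ψ L (v ζ)) (G ζ) z‖ₑ ^ 2 ∂ν
        ≤ ∫⁻ ζ, ENNReal.ofReal (C ^ 2 * Real.pi ^ 2) *
            (∫⁻ z' : ℝ × ℝ, ENNReal.ofReal (W L (z - z')) * ‖G ζ z'‖ₑ ^ 2) ∂ν :=
          lintegral_mono fun ζ => pt hψ hC hker hL0 (hvκ ζ) (hGood ζ) z
      _ = ENNReal.ofReal (C ^ 2 * Real.pi ^ 2) *
            ∫⁻ ζ, (∫⁻ z' : ℝ × ℝ, ENNReal.ofReal (W L (z - z')) * ‖G ζ z'‖ₑ ^ 2) ∂ν := by
          rw [lintegral_const_mul _ hjm.lintegral_prod_right']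
      _ = ENNReal.ofReal (C ^ 2 * Real.pi ^ 2) *
            ∫⁻ z' : ℝ × ℝ, ∫⁻ ζ, ENNReal.ofReal (W L (z - z')) * ‖G ζ z'‖ₑ ^ 2 ∂ν := by
          rw [lintegral_lintegral_swap hjm.aemeasurable]
      _ = _ := by
          congr 1
          refine lintegral_congr fun z' => ?_
          have hmm : Measurable fun ζ : Z => ‖G ζ z'‖ₑ ^ 2 := hGe.comp measurable_prodMk_right
          rw [lintegral_const_mul _ hmm]
  calc ∫⁻ z, (∫⁻ ζ, ‖Pl (mV ψ L (v ζ)) (G ζ) z‖ₑ ^ 2 ∂ν) ^ 2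
      ≤ ∫⁻ z, (ENNReal.ofReal (C ^ 2 * Real.pi ^ 2) *
          ∫⁻ z', ENNReal.ofReal (W L (z - z')) * H z') ^ 2 :=
        lintegral_mono fun z => pow_le_pow_left' (hpt z) 2
    _ = ENNReal.ofReal (C ^ 2 * Real.pi ^ 2) ^ 2 *
          ∫⁻ z, (∫⁻ z', ENNReal.ofReal (W L (z - z')) * H z') ^ 2 := by
        have hjm : Measurable (fun p : (ℝ × ℝ) × (ℝ × ℝ) => ENNReal.ofReal (W L (p.1 - p.2)) *
            H p.2) :=
          ((W_meas L).comp (measurable_fst.sub measurable_snd)).mul (hHm.comp measurable_snd)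
        rw [← lintegral_const_mul _ (hjm.lintegral_prod_right'.pow_const 2)]
        refine lintegral_congr fun z => ?_
        rw [mul_pow]
    _ ≤ ENNReal.ofReal (C ^ 2 * Real.pi ^ 2) ^ 2 *
          (ENNReal.ofReal (Real.pi ^ 4) * ∫⁻ z, H z ^ 2) := by
        gcongr
        exact conv_sq hL0 hHm
    _ = _ := by
        rw [← mul_assoc, ← ENNReal.ofReal_pow hA0, ← ENNReal.ofReal_mul (by positivity)]

end Pool.Agent.TH73.J637
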