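import Pool.Agent.TH619.ResDefs
import Pool.Agent.Helper874.Odd.Jm0d
import Pool.Agent.Helper874.Odd.JdiscA

set_option autoImplicit false
namespace Pool.Agent.TH619
open Set Topology
open Pool.Agent.Helper874.Odd

namespace ResHex

/-- the segment from `a` to `b` -/
def pt (a b : ℝ × ℝ) (u : ℝ) : ℝ × ℝ := (a.1 + u * (b.1 - a.1), a.2 + u * (b.2 - a.2))

theorem pt_mem {K : Set (ℝ × ℝ)} (hK : Convex ℝ K) {a b : ℝ × ℝ} (ha : a ∈ K) (hb : b ∈ K)
    {u : ℝ} (hu : u ∈ Icc (0 : ℝ) 1) : pt a b u ∈ K := by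
  have h := hK ha hb (sub_nonneg.2 hu.2) hu.1 (by ring)
  have e : pt a b u = (1 - u) • a + u • b := by
    unfold pt
    ext
    · simp; ring
    · simp; ring
  rw [e]
  exact h

section
variable {X : Type} [TopologicalSpace X] {S : Set X} {A : Type} [AddCommGroup A] (μ : PF S A)

theorem L_const {x : X} (hx : x ∈ S) (a b : ℝ) : μ.L (fun _ => x) a b = 0 := μ.const' _ hx

/-- the triangle rule -/
theorem tri {h : ℝ × ℝ → X} {K : Set (ℝ × ℝ)} (hK : Convex ℝ K)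
    (hh : ContinuousOn h K) (hS : ∀ q ∈ K, h q ∈ S) {a b c : ℝ × ℝ} (ha : a ∈ K) (hb : b ∈ K)
    (hc : c ∈ K) :
    μ.L (fun u => h (pt a b u)) 0 1 + μ.L (fun u => h (pt b c u)) 0 1 =
      μ.L (fun u => h (pt a c u)) 0 1 := by
  have key := μ.L_rect (G := fun u v => h (pt (pt a b u) (pt a c u) v)) (I := Icc 0 1)
    (J := Icc 0 1) (a := 0) (b := 1) (c := 0) (d := 1) ordConnected_Icc ordConnected_Icc
    (by
      refine hh.comp (f := fun q : ℝ × ℝ => pt (pt a b q.1) (pt a c q.1) q.2) ?_ ?_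
      · unfold pt; fun_prop
      · rintro ⟨u, v⟩ ⟨hu, hv⟩
        exact pt_mem hK (pt_mem hK ha hb hu) (pt_mem hK ha hc hu) hv)
    (fun u hu v hv => hS _ (pt_mem hK (pt_mem hK ha hb hu) (pt_mem hK ha hc hu) hv))
    (by norm_num) (by norm_num) (by norm_num) (by norm_num)
  have e1 : (fun u => h (pt (pt a b u) (pt a c u) 0)) = fun u => h (pt a b u) := by
    funext u; congr 1; unfold pt; ext <;> simp
  have e2 : (fun v => h (pt (pt a b 1) (pt a c 1) v)) = fun u => h (pt b c u) := by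
    funext u; congr 1; unfold pt; ext <;> simp
  have e3 : (fun v => h (pt (pt a b 0) (pt a c 0) v)) = fun _ => h a := by
    funext u; congr 1; unfold pt; ext <;> simp
  have e4 : (fun u => h (pt (pt a b u) (pt a c u) 1)) = fun u => h (pt a c u) := by
    funext u; congr 1; unfold pt; ext <;> simp
  simp only [e1, e2, e3, e4] at key
  rw [L_const μ (hS a ha), zero_add] at key
  exact key

end

theorem Bf_side {q : ℝ × ℝ} (hq : q ∈ Hex) (h : q.1 = 1 ∨ q.2 = 1 ∨ q.1 + q.2 = -1) :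
    Bf q.1 q.2 = 1 := by
  have h1 := abs_le.mp hq.1
  have h2 := abs_le.mp hq.2.1
  have h3 := abs_le.mp hq.2.2
  unfold Bf
  rcases h with h | h | h
  · rw [bet_eq_zero (d := 1 - q.2) (by linarith), bet_eq_zero (d := 1 + q.1 + q.2) (by linarith), h,
      sub_self, bet_zero]
    norm_num
  · rw [bet_eq_zero (d := 1 - q.1) (by linarith), bet_eq_zero (d := 1 + q.1 + q.2) (by linarith), h,
      sub_self, bet_zero]
    norm_num
  · rw [bet_eq_zero (d := 1 - q.1) (by linarith), bet_eq_zero (d := 1 - q.2) (by linarith)]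
    have e : 1 + q.1 + q.2 = 0 := by linarith
    rw [e, bet_zero]
    norm_num

theorem Rf_side {q : ℝ × ℝ} (hq : q ∈ Hex) (h : q.1 = -1 ∨ q.2 = -1 ∨ q.1 + q.2 = 1) :
    Rf q.1 q.2 = 1 := by
  rw [← Bf_neg]
  refine Bf_side (q := -q) (Hex_neg hq) ?_
  rcases h with h | h | h
  · left; show -q.1 = 1; linarith
  · right; left; show -q.2 = 1; linarith
  · right; right; show -q.1 + -q.2 = -1; linarith

/-- the four sheets -/
noncomputable def sheet (s t : ℝ) (q : ℝ × ℝ) : V := (4 * (s * xp q), 4 * (t * yp q), q)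

theorem sheet_cont (s t : ℝ) : ContinuousOn (sheet s t) Hex := by
  unfold sheet
  exact (continuousOn_const.mul (continuousOn_const.mul xp_continuousOn)).prodMk
    ((continuousOn_const.mul (continuousOn_const.mul yp_continuousOn)).prodMk continuousOn_id)

theorem abs_sg {s : ℝ} (hs : s = 1 ∨ s = -1) : |s| = 1 := by
  rcases hs with rfl | rfl <;> norm_num

theorem big {s z : ℝ} (hs : s = 1 ∨ s = -1) (hz : 15 / 16 ≤ z) : 15 / 4 ≤ |4 * (s * z)| := by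
  rw [abs_mul, abs_mul, abs_sg hs, abs_of_nonneg (by norm_num : (0 : ℝ) ≤ 4),
    abs_of_nonneg (by linarith : (0 : ℝ) ≤ z)]
  linarith

theorem mem_sheet {s t : ℝ} (hs : s = 1 ∨ s = -1) (ht : t = 1 ∨ t = -1) {q : ℝ × ℝ} (hq : q ∈ Hex) :
    sheet s t q ∈ S1 := by
  refine ⟨?_, Or.inl (big hs (xp_mem hq).1)⟩
  show scl (sheet s t q) ∈ M0
  rw [M0_iff]
  have e1 : (scl (sheet s t q)).1 = s * xp q := by
    show 4 * (s * xp q) / 4 = _
    ring
  have e2 : (scl (sheet s t q)).2.1 = t * yp q := by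
    show 4 * (t * yp q) / 4 = _
    ring
  have e3 : (scl (sheet s t q)).2.2 = q := rfl
  rw [e1, e2, e3]
  refine ⟨hq, ?_, ?_⟩
  · rcases hs with rfl | rfl
    · left; ring
    · right; left; ring
  · rcases ht with rfl | rfl
    · left; ring
    · right; left; ring

theorem mem_blue {t : ℝ} (ht : t = 1 ∨ t = -1) {q : ℝ × ℝ} (hq : q ∈ Hex)
    (hB : Bf q.1 q.2 = 1) {x : ℝ} (hx : x ∈ Icc (-(15 / 4) : ℝ) (15 / 4)) :
    ((x, 4 * (t * yp q), q) : V) ∈ S1 := by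
  refine ⟨?_, Or.inr (big ht (yp_mem hq).1)⟩
  show scl ((x, 4 * (t * yp q), q) : V) ∈ M0
  rw [M0_iff]
  have e2 : (scl ((x, 4 * (t * yp q), q) : V)).2.1 = t * yp q := by
    show 4 * (t * yp q) / 4 = _
    ring
  have e3 : (scl ((x, 4 * (t * yp q), q) : V)).2.2 = q := rfl
  have e1 : (scl ((x, 4 * (t * yp q), q) : V)).1 = x / 4 := rfl
  rw [e1, e2, e3]
  refine ⟨hq, Or.inr (Or.inr ⟨hB, ?_⟩), ?_⟩
  · rw [abs_le]
    constructor <;> linarith [hx.1, hx.2]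
  · rcases ht with rfl | rfl
    · left; ring
    · right; left; ring

theorem mem_red {s : ℝ} (hs : s = 1 ∨ s = -1) {q : ℝ × ℝ} (hq : q ∈ Hex)
    (hR : Rf q.1 q.2 = 1) {y : ℝ} (hy : y ∈ Icc (-(15 / 4) : ℝ) (15 / 4)) :
    ((4 * (s * xp q), y, q) : V) ∈ S1 := by
  refine ⟨?_, Or.inl (big hs (xp_mem hq).1)⟩
  show scl ((4 * (s * xp q), y, q) : V) ∈ M0
  rw [M0_iff]
  have e2 : (scl ((4 * (s * xp q), y, q) : V)).2.1 = y / 4 := rfl
  have e3 : (scl ((4 * (s * xp q), y, q) : V)).2.2 = q := rfl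
  have e1 : (scl ((4 * (s * xp q), y, q) : V)).1 = s * xp q := by
    show 4 * (s * xp q) / 4 = _
    ring
  rw [e1, e2, e3]
  refine ⟨hq, ?_, Or.inr (Or.inr ⟨hR, ?_⟩)⟩
  · rcases hs with rfl | rfl
    · left; ring
    · right; left; ring
  · rw [abs_le]
    constructor <;> linarith [hy.1, hy.2]

variable {A : Type} [AddCommGroup A] (μ : PF S1 A)

noncomputable def Xw (t : ℝ) (w : ℝ × ℝ) : A :=
  μ.L (fun x => ((x, t, w) : V)) (-(15 / 4)) (15 / 4)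

noncomputable def Yw (s : ℝ) (w : ℝ × ℝ) : A :=
  μ.L (fun y => ((s, y, w) : V)) (-(15 / 4)) (15 / 4)

noncomputable def Tw (s t : ℝ) (a b : ℝ × ℝ) : A := μ.L (fun u => sheet s t (pt a b u)) 0 1

theorem Tw_tri {s t : ℝ} (hs : s = 1 ∨ s = -1) (ht : t = 1 ∨ t = -1) {a b c : ℝ × ℝ} (ha : a ∈ Hex)
    (hb : b ∈ Hex) (hc : c ∈ Hex) : Tw μ s t a b + Tw μ s t b c = Tw μ s t a c :=
  tri μ Hex_convex (sheet_cont s t) (fun _ hq => mem_sheet hs ht hq) ha hb hc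

theorem Tw_self {s t : ℝ} (hs : s = 1 ∨ s = -1) (ht : t = 1 ∨ t = -1) {a : ℝ × ℝ} (ha : a ∈ Hex) :
    Tw μ s t a a = 0 := by
  have h := Tw_tri μ hs ht ha ha ha
  exact left_eq_add.1 h.symm

theorem pt_zero (a b : ℝ × ℝ) : pt a b 0 = a := by
  unfold pt; ext <;> simp

theorem pt_one (a b : ℝ × ℝ) : pt a b 1 = b := by
  unfold pt; ext <;> simp

theorem pt_cont (a b : ℝ × ℝ) : Continuous (pt a b) := by
  unfold pt; fun_prop

/-- a blue side -/
theorem blue {t : ℝ} (ht : t = 1 ∨ t = -1) {a b : ℝ × ℝ} (ha : a ∈ Hex) (hb : b ∈ Hex)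
    (hB : ∀ u ∈ Icc (0 : ℝ) 1, Bf (pt a b u).1 (pt a b u).2 = 1)
    (hRa : Rf a.1 a.2 = 1) (hRb : Rf b.1 b.2 = 1) :
    Xw μ (t * (15 / 4)) a + Tw μ 1 t a b = Tw μ (-1) t a b + Xw μ (t * (15 / 4)) b := by
  have key := μ.L_rect (G := fun x u => ((x, 4 * (t * yp (pt a b u)), pt a b u) : V))
    (I := Icc (-(15 / 4)) (15 / 4))
    (J := Icc 0 1) (a := -(15 / 4)) (b := 15 / 4) (c := 0) (d := 1) ordConnected_Icc ordConnected_Icc
    (by
      have h1 : ContinuousOn (fun q : ℝ × ℝ => pt a b q.2)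
          (Icc (-(15 / 4) : ℝ) (15 / 4) ×ˢ Icc (0 : ℝ) 1) :=
        ((pt_cont a b).comp continuous_snd).continuousOn
      have h2 : ContinuousOn (fun q : ℝ × ℝ => yp (pt a b q.2))
          (Icc (-(15 / 4) : ℝ) (15 / 4) ×ˢ Icc (0 : ℝ) 1) :=
        yp_continuousOn.comp h1 (fun q hq => pt_mem Hex_convex ha hb hq.2)
      exact continuousOn_fst.prodMk ((continuousOn_const.mul (continuousOn_const.mul h2)).prodMk h1))
    (fun x hx u hu => mem_blue ht (pt_mem Hex_convex ha hb hu) (hB u hu) hx)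
    (by constructor <;> norm_num) (by constructor <;> norm_num) (by norm_num) (by norm_num)
  have e1 : μ.L (fun x => ((x, 4 * (t * yp (pt a b 0)), pt a b 0) : V)) (-(15 / 4)) (15 / 4) =
      Xw μ (t * (15 / 4)) a := by
    unfold Xw
    rw [pt_zero, yp_of_Rf_one hRa]
    have : 4 * (t * (15 / 16)) = t * (15 / 4) := by ring
    rw [this]
  have e4 : μ.L (fun x => ((x, 4 * (t * yp (pt a b 1)), pt a b 1) : V)) (-(15 / 4)) (15 / 4) =
      Xw μ (t * (15 / 4)) b := by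
    unfold Xw
    rw [pt_one, yp_of_Rf_one hRb]
    have : 4 * (t * (15 / 16)) = t * (15 / 4) := by ring
    rw [this]
  have e2 : μ.L (fun u => ((15 / 4, 4 * (t * yp (pt a b u)), pt a b u) : V)) 0 1 = Tw μ 1 t a b := by
    refine μ.L_congr fun u hu => ?_
    rw [uIcc_of_le (by norm_num)] at hu
    unfold sheet
    rw [xp_of_Bf_one (hB u hu)]
    norm_num
  have e3 : μ.L (fun u => ((-(15 / 4), 4 * (t * yp (pt a b u)), pt a b u) : V)) 0 1 =
      Tw μ (-1) t a b := by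
    refine μ.L_congr fun u hu => ?_
    rw [uIcc_of_le (by norm_num)] at hu
    unfold sheet
    rw [xp_of_Bf_one (hB u hu)]
    norm_num
  rw [e1, e2, e3, e4] at key
  exact key

/-- a red side -/
theorem red {s : ℝ} (hs : s = 1 ∨ s = -1) {a b : ℝ × ℝ} (ha : a ∈ Hex) (hb : b ∈ Hex)
    (hR : ∀ u ∈ Icc (0 : ℝ) 1, Rf (pt a b u).1 (pt a b u).2 = 1)
    (hBa : Bf a.1 a.2 = 1) (hBb : Bf b.1 b.2 = 1) :
    Yw μ (s * (15 / 4)) a + Tw μ s 1 a b = Tw μ s (-1) a b + Yw μ (s * (15 / 4)) b := by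
  have key := μ.L_rect (G := fun y u => ((4 * (s * xp (pt a b u)), y, pt a b u) : V))
    (I := Icc (-(15 / 4)) (15 / 4))
    (J := Icc 0 1) (a := -(15 / 4)) (b := 15 / 4) (c := 0) (d := 1) ordConnected_Icc ordConnected_Icc
    (by
      have h1 : ContinuousOn (fun q : ℝ × ℝ => pt a b q.2)
          (Icc (-(15 / 4) : ℝ) (15 / 4) ×ˢ Icc (0 : ℝ) 1) :=
        ((pt_cont a b).comp continuous_snd).continuousOn
      have h2 : ContinuousOn (fun q : ℝ × ℝ => xp (pt a b q.2))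
          (Icc (-(15 / 4) : ℝ) (15 / 4) ×ˢ Icc (0 : ℝ) 1) :=
        xp_continuousOn.comp h1 (fun q hq => pt_mem Hex_convex ha hb hq.2)
      exact (continuousOn_const.mul (continuousOn_const.mul h2)).prodMk (continuousOn_fst.prodMk h1))
    (fun x hx u hu => mem_red hs (pt_mem Hex_convex ha hb hu) (hR u hu) hx)
    (by constructor <;> norm_num) (by constructor <;> norm_num) (by norm_num) (by norm_num)
  have e1 : μ.L (fun y => ((4 * (s * xp (pt a b 0)), y, pt a b 0) : V)) (-(15 / 4)) (15 / 4) =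
      Yw μ (s * (15 / 4)) a := by
    unfold Yw
    rw [pt_zero, xp_of_Bf_one hBa]
    have : 4 * (s * (15 / 16)) = s * (15 / 4) := by ring
    rw [this]
  have e4 : μ.L (fun y => ((4 * (s * xp (pt a b 1)), y, pt a b 1) : V)) (-(15 / 4)) (15 / 4) =
      Yw μ (s * (15 / 4)) b := by
    unfold Yw
    rw [pt_one, xp_of_Bf_one hBb]
    have : 4 * (s * (15 / 16)) = s * (15 / 4) := by ring
    rw [this]
  have e2 : μ.L (fun u => ((4 * (s * xp (pt a b u)), 15 / 4, pt a b u) : V)) 0 1 = Tw μ s 1 a b := by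
    refine μ.L_congr fun u hu => ?_
    rw [uIcc_of_le (by norm_num)] at hu
    unfold sheet
    rw [yp_of_Rf_one (hR u hu)]
    norm_num
  have e3 : μ.L (fun u => ((4 * (s * xp (pt a b u)), -(15 / 4), pt a b u) : V)) 0 1 =
      Tw μ s (-1) a b := by
    refine μ.L_congr fun u hu => ?_
    rw [uIcc_of_le (by norm_num)] at hu
    unfold sheet
    rw [yp_of_Rf_one (hR u hu)]
    norm_num
  rw [e1, e2, e3, e4] at key
  exact key

/-- the boundary of a square -/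
theorem Dr_eq (w : ℝ × ℝ) :
    μ.Dr (fun x y => ((x, y, w) : V)) (-(15 / 4)) (15 / 4) (-(15 / 4)) (15 / 4) =
      Xw μ (-1 * (15 / 4)) w + Yw μ (1 * (15 / 4)) w - Xw μ (1 * (15 / 4)) w
        - Yw μ (-1 * (15 / 4)) w := by
  unfold PF.Dr Xw Yw
  rw [one_mul, neg_one_mul]

theorem T_sum {s t : ℝ} (hs : s = 1 ∨ s = -1) (ht : t = 1 ∨ t = -1) {a b c d e f : ℝ × ℝ}
    (ha : a ∈ Hex) (hb : b ∈ Hex) (hc : c ∈ Hex) (hd : d ∈ Hex) (he : e ∈ Hex) (hf : f ∈ Hex) :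
    Tw μ s t a b + Tw μ s t b c + Tw μ s t c d + Tw μ s t d e + Tw μ s t e f + Tw μ s t f a = 0 := by
  rw [Tw_tri μ hs ht ha hb hc, Tw_tri μ hs ht ha hc hd, Tw_tri μ hs ht ha hd he,
    Tw_tri μ hs ht ha he hf, Tw_tri μ hs ht ha hf ha, Tw_self μ hs ht ha]

end ResHex

open ResHex in
/-- the boundaries of the six squares, with alternating signs, bound the rest of the surface -/
theorem res_hex {A : Type} [AddCommGroup A] (μ : PF S1 A) :
    μ.Dr (fun x y => ((x, y, 1, 0) : V)) (-(15 / 4)) (15 / 4) (-(15 / 4)) (15 / 4)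
    - μ.Dr (fun x y => ((x, y, 0, 1) : V)) (-(15 / 4)) (15 / 4) (-(15 / 4)) (15 / 4)
    + μ.Dr (fun x y => ((x, y, -1, 1) : V)) (-(15 / 4)) (15 / 4) (-(15 / 4)) (15 / 4)
    - μ.Dr (fun x y => ((x, y, -1, 0) : V)) (-(15 / 4)) (15 / 4) (-(15 / 4)) (15 / 4)
    + μ.Dr (fun x y => ((x, y, 0, -1) : V)) (-(15 / 4)) (15 / 4) (-(15 / 4)) (15 / 4)
    - μ.Dr (fun x y => ((x, y, 1, -1) : V)) (-(15 / 4)) (15 / 4) (-(15 / 4)) (15 / 4) = 0 := by
  have m0 : ((1, 0) : ℝ × ℝ) ∈ Hex := by refine ⟨?_, ?_, ?_⟩ <;> norm_num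
  have m1 : ((0, 1) : ℝ × ℝ) ∈ Hex := by refine ⟨?_, ?_, ?_⟩ <;> norm_num
  have m2 : ((-1, 1) : ℝ × ℝ) ∈ Hex := by refine ⟨?_, ?_, ?_⟩ <;> norm_num
  have m3 : ((-1, 0) : ℝ × ℝ) ∈ Hex := by refine ⟨?_, ?_, ?_⟩ <;> norm_num
  have m4 : ((0, -1) : ℝ × ℝ) ∈ Hex := by refine ⟨?_, ?_, ?_⟩ <;> norm_num
  have m5 : ((1, -1) : ℝ × ℝ) ∈ Hex := by refine ⟨?_, ?_, ?_⟩ <;> norm_num
  have b0 := Bf_side m0 (by norm_num)
  have b1 := Bf_side m1 (by norm_num)
  have b2 := Bf_side m2 (by norm_num)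
  have b3 := Bf_side m3 (by norm_num)
  have b4 := Bf_side m4 (by norm_num)
  have b5 := Bf_side m5 (by norm_num)
  have r0 := Rf_side m0 (by norm_num)
  have r1 := Rf_side m1 (by norm_num)
  have r2 := Rf_side m2 (by norm_num)
  have r3 := Rf_side m3 (by norm_num)
  have r4 := Rf_side m4 (by norm_num)
  have r5 := Rf_side m5 (by norm_num)
  have hp : (1 : ℝ) = 1 ∨ (1 : ℝ) = -1 := Or.inl rfl
  have hn : (-1 : ℝ) = 1 ∨ (-1 : ℝ) = -1 := Or.inr rfl
  -- the sides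
  have s0 : ∀ u ∈ Icc (0 : ℝ) 1, Rf (pt (1, 0) (0, 1) u).1 (pt (1, 0) (0, 1) u).2 = 1 :=
    fun u hu => Rf_side (pt_mem Hex_convex m0 m1 hu) (by right; right; unfold pt; dsimp only; ring)
  have s1 : ∀ u ∈ Icc (0 : ℝ) 1, Bf (pt (0, 1) (-1, 1) u).1 (pt (0, 1) (-1, 1) u).2 = 1 :=
    fun u hu => Bf_side (pt_mem Hex_convex m1 m2 hu) (by right; left; unfold pt; dsimp only; ring)
  have s2 : ∀ u ∈ Icc (0 : ℝ) 1, Rf (pt (-1, 1) (-1, 0) u).1 (pt (-1, 1) (-1, 0) u).2 = 1 :=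
    fun u hu => Rf_side (pt_mem Hex_convex m2 m3 hu) (by left; unfold pt; dsimp only; ring)
  have s3 : ∀ u ∈ Icc (0 : ℝ) 1, Bf (pt (-1, 0) (0, -1) u).1 (pt (-1, 0) (0, -1) u).2 = 1 :=
    fun u hu => Bf_side (pt_mem Hex_convex m3 m4 hu) (by right; right; unfold pt; dsimp only; ring)
  have s4 : ∀ u ∈ Icc (0 : ℝ) 1, Rf (pt (0, -1) (1, -1) u).1 (pt (0, -1) (1, -1) u).2 = 1 :=
    fun u hu => Rf_side (pt_mem Hex_convex m4 m5 hu) (by right; left; unfold pt; dsimp only; ring)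
  have s5 : ∀ u ∈ Icc (0 : ℝ) 1, Bf (pt (1, -1) (1, 0) u).1 (pt (1, -1) (1, 0) u).2 = 1 :=
    fun u hu => Bf_side (pt_mem Hex_convex m5 m0 hu) (by left; unfold pt; dsimp only; ring)
  have R0p := red μ hp m0 m1 s0 b0 b1
  have R0n := red μ hn m0 m1 s0 b0 b1
  have B1p := blue μ hp m1 m2 s1 r1 r2
  have B1n := blue μ hn m1 m2 s1 r1 r2
  have R2p := red μ hp m2 m3 s2 b2 b3
  have R2n := red μ hn m2 m3 s2 b2 b3
  have B3p := blue μ hp m3 m4 s3 r3 r4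
  have B3n := blue μ hn m3 m4 s3 r3 r4
  have R4p := red μ hp m4 m5 s4 b4 b5
  have R4n := red μ hn m4 m5 s4 b4 b5
  have B5p := blue μ hp m5 m0 s5 r5 r0
  have B5n := blue μ hn m5 m0 s5 r5 r0
  have Tpp := T_sum μ hp hp m0 m1 m2 m3 m4 m5
  have Tpn := T_sum μ hp hn m0 m1 m2 m3 m4 m5
  have Tnp := T_sum μ hn hp m0 m1 m2 m3 m4 m5
  have Tnn := T_sum μ hn hn m0 m1 m2 m3 m4 m5
  rw [Dr_eq μ (1, 0), Dr_eq μ (0, 1), Dr_eq μ (-1, 1), Dr_eq μ (-1, 0), Dr_eq μ (0, -1),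
    Dr_eq μ (1, -1)]
  linear_combination (norm := abel) R0p - R0n + B1p - B1n + R2p - R2n + B3p - B3n + R4p - R4n + B5p - B5n - Tpp + Tpn + Tnp - Tnn

end Pool.Agent.TH619
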