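import Pool.Agent.TH280.LS.Stm
set_option autoImplicit false

/-! # LS4: the bilinear reduction -/

open MeasureTheory Set
open scoped ENNReal
open Pool.Agent.TH280.LS

namespace Pool.Agent.TH73.LS4

/-! ### Changes of variables -/

/-- a measure preserving linear map -/
noncomputable def T (p : ℝ × ℝ) : ℝ × ℝ := (p.1 + p.2 / 2, p.1 - p.2 / 2)

/-- another one -/
noncomputable def T' (p : ℝ × ℝ) : ℝ × ℝ := (p.1 + p.2 / 2, p.2 / 2 - p.1)

lemma mp_sub_left (x : ℝ) :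
    MeasurePreserving (fun v : ℝ => x - v) (volume : Measure ℝ) (volume : Measure ℝ) := by
  have h := (measurePreserving_add_left (volume : Measure ℝ) x).comp
    (Measure.measurePreserving_neg (volume : Measure ℝ))
  have e1 : (fun v : ℝ => x - v) = (fun y => x + y) ∘ Neg.neg := by
    funext v
    simp [sub_eq_add_neg]
  rw [e1]
  exact h

lemma mp_T : MeasurePreserving T ((volume : Measure ℝ).prod volume)
    ((volume : Measure ℝ).prod volume) := by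
  have h1 : MeasurePreserving (fun p : ℝ × ℝ => (p.1, p.2 + p.1 / 2))
      ((volume : Measure ℝ).prod volume) ((volume : Measure ℝ).prod volume) :=
    (MeasurePreserving.id volume).skew_product (g := fun v z : ℝ => z + v / 2) (by fun_prop)
      (Filter.Eventually.of_forall fun v =>
        (measurePreserving_add_right (volume : Measure ℝ) (v / 2)).map_eq)
  have h2 : MeasurePreserving (fun p : ℝ × ℝ => (p.1, p.1 - p.2))
      ((volume : Measure ℝ).prod volume) ((volume : Measure ℝ).prod volume) :=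
    (MeasurePreserving.id volume).skew_product (g := fun x v : ℝ => x - v) (by fun_prop)
      (Filter.Eventually.of_forall fun x =>
        (mp_sub_left x).map_eq)
  have hs : MeasurePreserving (Prod.swap : ℝ × ℝ → ℝ × ℝ) ((volume : Measure ℝ).prod volume)
      ((volume : Measure ℝ).prod volume) := Measure.measurePreserving_swap
  have h3 := h2.comp (hs.comp (h1.comp hs))
  convert h3 using 1
  funext p
  unfold T
  simp only [Function.comp_apply, Prod.swap, Prod.mk.injEq, true_and]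
  ring

lemma mp_T' : MeasurePreserving T' ((volume : Measure ℝ).prod volume)
    ((volume : Measure ℝ).prod volume) := by
  have h1 : MeasurePreserving (Prod.map (id : ℝ → ℝ) (Neg.neg : ℝ → ℝ))
      ((volume : Measure ℝ).prod volume) ((volume : Measure ℝ).prod volume) :=
    (MeasurePreserving.id volume).prod (Measure.measurePreserving_neg volume)
  have h3 := h1.comp mp_T
  convert h3 using 1
  funext p
  unfold T T'
  simp only [Function.comp_apply, Prod.map, id, Prod.mk.injEq, true_and]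
  ring

section conv

variable {f1 f2 : ℝ → ℂ} (h1 : Integrable f1) (h2 : Integrable f2)

include h1 h2

lemma int_T : Integrable (fun p : ℝ × ℝ => f1 (p.1 + p.2 / 2) * f2 (p.1 - p.2 / 2))
    ((volume : Measure ℝ).prod volume) :=
  mp_T.integrable_comp_of_integrable (h1.mul_prod h2)

lemma int_T' : Integrable (fun p : ℝ × ℝ => f1 (p.1 + p.2 / 2) * f2 (p.2 / 2 - p.1))
    ((volume : Measure ℝ).prod volume) :=
  mp_T'.integrable_comp_of_integrable (h1.mul_prod h2)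

lemma val_T : ∫ v : ℝ, ∫ z : ℝ, f1 (z + v / 2) * f2 (z - v / 2) =
    (∫ x, f1 x) * ∫ x, f2 x := by
  have e1 := integral_prod_symm _ (int_T h1 h2)
  rw [← e1, ← integral_prod_mul]
  have hm : AEStronglyMeasurable (fun p : ℝ × ℝ => f1 p.1 * f2 p.2)
      (Measure.map T ((volume : Measure ℝ).prod volume)) := by
    rw [mp_T.map_eq]; exact (h1.mul_prod h2).1
  have e2 := integral_map mp_T.measurable.aemeasurable hm
  rw [mp_T.map_eq] at e2
  exact e2.symm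

lemma val_T' : ∫ v : ℝ, ∫ z : ℝ, f1 (z + v / 2) * f2 (v / 2 - z) =
    (∫ x, f1 x) * ∫ x, f2 x := by
  have e1 := integral_prod_symm _ (int_T' h1 h2)
  rw [← e1, ← integral_prod_mul]
  have hm : AEStronglyMeasurable (fun p : ℝ × ℝ => f1 p.1 * f2 p.2)
      (Measure.map T' ((volume : Measure ℝ).prod volume)) := by
    rw [mp_T'.map_eq]; exact (h1.mul_prod h2).1
  have e2 := integral_map mp_T'.measurable.aemeasurable hm
  rw [mp_T'.map_eq] at e2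
  exact e2.symm

end conv

/-! ### The phase -/

lemma ra_pos {a : ℝ} (ha : 0 < a) (ξ : ℝ) : 0 < ra a ξ := by
  unfold ra; positivity

lemma ra_cont (a : ℝ) : Continuous (ra a) := by unfold ra; fun_prop

lemma ra_deriv {a : ℝ} (ha : 0 < a) (ξ : ℝ) : HasDerivAt (ra a) (ξ / ra a ξ) ξ := by
  have h1 : HasDerivAt (fun x : ℝ => x ^ 2 + a ^ 2) (2 * ξ) ξ := by
    have := (hasDerivAt_pow 2 ξ).add_const (a ^ 2)
    simpa using this
  have h2 := h1.sqrt (by positivity)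
  have e1 : 2 * ξ / (2 * Real.sqrt (ξ ^ 2 + a ^ 2)) = ξ / ra a ξ := by
    unfold ra
    rw [mul_div_mul_left _ _ (by norm_num : (2 : ℝ) ≠ 0)]
  rw [e1] at h2
  exact h2

lemma ra_sin {a : ℝ} (ha : 0 < a) (ξ : ℝ) : ξ / ra a ξ = Real.sin (Real.arctan (ξ / a)) := by
  rw [Real.sin_arctan]
  unfold ra
  have e1 : ξ ^ 2 + a ^ 2 = a ^ 2 * (1 + (ξ / a) ^ 2) := by field_simp; ring
  rw [e1, Real.sqrt_mul (by positivity), Real.sqrt_sq ha.le]
  field_simp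

lemma hp_mono {a : ℝ} (ha : 0 < a) : Monotone (fun ξ => ξ / ra a ξ) := by
  intro x y hxy
  simp only [ra_sin ha]
  apply Real.sin_le_sin_of_le_of_le_pi_div_two (Real.neg_pi_div_two_lt_arctan _).le
    (Real.arctan_lt_pi_div_two _).le
  apply Real.arctan_mono
  exact div_le_div_of_nonneg_right hxy ha.le

lemma hp_abs {a : ℝ} (ha : 0 < a) (ξ : ℝ) : |ξ / ra a ξ| ≤ 1 := by
  rw [ra_sin ha]; exact Real.abs_sin_le_one _

/-- the phase for the bilinear form -/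
noncomputable def gg (a ζ ξ : ℝ) : ℝ := ra a (ξ + ζ / 2) + ra a (ζ / 2 - ξ)

/-- its derivative -/
noncomputable def gg' (a ζ ξ : ℝ) : ℝ :=
  (ξ + ζ / 2) / ra a (ξ + ζ / 2) - (ζ / 2 - ξ) / ra a (ζ / 2 - ξ)

lemma ev_gg {a : ℝ} (ha : 0 < a) (ζ : ℝ) : Ev (gg a ζ) (gg' a ζ) := by
  refine ⟨fun ξ => ?_, ?_, fun ξ => ?_, fun ξ => ?_⟩
  · have h1 := (ra_deriv ha (ξ + ζ / 2)).comp_add_const ξ (ζ / 2)
    have h2 := (ra_deriv ha (ζ / 2 - ξ)).comp_const_sub (ζ / 2) ξ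
    have h3 := h1.add h2
    unfold gg'
    rw [sub_eq_add_neg]
    exact h3
  · intro x y hxy
    unfold gg'
    have h1 := hp_mono ha (show x + ζ / 2 ≤ y + ζ / 2 by linarith)
    have h2 := hp_mono ha (show ζ / 2 - y ≤ ζ / 2 - x by linarith)
    simp only at h1 h2
    linarith
  · unfold gg'
    have h1 := hp_abs ha (ξ + ζ / 2)
    have h2 := hp_abs ha (ζ / 2 - ξ)
    have h3 := abs_sub ((ξ + ζ / 2) / ra a (ξ + ζ / 2)) ((ζ / 2 - ξ) / ra a (ζ / 2 - ξ))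
    linarith
  · unfold gg
    have e1 : -ξ + ζ / 2 = ζ / 2 - ξ := by ring
    have e2 : ζ / 2 - -ξ = ξ + ζ / 2 := by ring
    rw [e1, e2, add_comm]

lemma cut_mul {N : ℝ} (hN : 1 ≤ N) {χ : ℝ → ℂ} (hχ : Cut 1 N χ) (ζ : ℝ) :
    Cut 2 N (fun ξ => χ (ξ + ζ / 2) * χ (ζ / 2 - ξ)) := by
  obtain ⟨h1, h2, h3⟩ := hχ
  refine ⟨fun ξ => ?_, fun ξ ξ' => ?_, fun ξ hξ => ?_⟩
  · rw [norm_mul]
    exact mul_le_one₀ (h1 _) (norm_nonneg _) (h1 _)
  · have e : χ (ξ + ζ / 2) * χ (ζ / 2 - ξ) - χ (ξ' + ζ / 2) * χ (ζ / 2 - ξ') =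
        (χ (ξ + ζ / 2) - χ (ξ' + ζ / 2)) * χ (ζ / 2 - ξ) +
        χ (ξ' + ζ / 2) * (χ (ζ / 2 - ξ) - χ (ζ / 2 - ξ')) := by ring
    rw [e]
    have a1 : ‖(χ (ξ + ζ / 2) - χ (ξ' + ζ / 2)) * χ (ζ / 2 - ξ)‖ ≤ 1 / N * |ξ - ξ'| := by
      rw [norm_mul]
      have b1 := h2 (ξ + ζ / 2) (ξ' + ζ / 2)
      have b2 : ξ + ζ / 2 - (ξ' + ζ / 2) = ξ - ξ' := by ring
      rw [b2] at b1
      calc ‖χ (ξ + ζ / 2) - χ (ξ' + ζ / 2)‖ * ‖χ (ζ / 2 - ξ)‖ ≤
            (1 / N * |ξ - ξ'|) * 1 :=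
            mul_le_mul b1 (h1 _) (norm_nonneg _) (by positivity)
        _ = _ := mul_one _
    have a2 : ‖χ (ξ' + ζ / 2) * (χ (ζ / 2 - ξ) - χ (ζ / 2 - ξ'))‖ ≤ 1 / N * |ξ - ξ'| := by
      rw [norm_mul]
      have b1 := h2 (ζ / 2 - ξ) (ζ / 2 - ξ')
      have b2 : ζ / 2 - ξ - (ζ / 2 - ξ') = -(ξ - ξ') := by ring
      rw [b2, abs_neg] at b1
      calc ‖χ (ξ' + ζ / 2)‖ * ‖χ (ζ / 2 - ξ) - χ (ζ / 2 - ξ')‖ ≤
            1 * (1 / N * |ξ - ξ'|) :=
            mul_le_mul (h1 _) b1 (norm_nonneg _) (by norm_num)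
        _ = _ := one_mul _
    calc _ ≤ ‖(χ (ξ + ζ / 2) - χ (ξ' + ζ / 2)) * χ (ζ / 2 - ξ)‖ +
          ‖χ (ξ' + ζ / 2) * (χ (ζ / 2 - ξ) - χ (ζ / 2 - ξ'))‖ := norm_add_le _ _
      _ ≤ 1 / N * |ξ - ξ'| + 1 / N * |ξ - ξ'| := add_le_add a1 a2
      _ = 2 / N * |ξ - ξ'| := by ring
  · by_cases c1 : 2 * N < |ξ + ζ / 2|
    · simp only
      rw [h3 _ c1, zero_mul]
    · have c2 : 2 * N < |ζ / 2 - ξ| := by
        by_contra c2
        push Not at c1 c2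
        have e : 2 * ξ = (ξ + ζ / 2) - (ζ / 2 - ξ) := by ring
        have h4 := abs_sub (ξ + ζ / 2) (ζ / 2 - ξ)
        rw [← e, abs_mul, abs_two] at h4
        linarith
      simp only
      rw [h3 _ c2, mul_zero]

/-- Lipschitz cutoffs are continuous -/
lemma cut_cont {L N : ℝ} {χ : ℝ → ℂ} (hN : 0 < N) (hL : 0 ≤ L) (hχ : Cut L N χ) :
    Continuous χ := by
  have h : LipschitzWith (Real.toNNReal (L / N)) χ := by
    apply LipschitzWith.of_dist_le_mul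
    intro x y
    rw [dist_eq_norm, Real.coe_toNNReal _ (by positivity), Real.dist_eq]
    exact hχ.2.1 x y
  exact h.continuous

/-! ### The bilinear expression -/

/-- the transform in the mean variable -/
noncomputable def bz (G : ℝ → ℂ) (ζ v : ℝ) : ℂ :=
  ∫ z : ℝ, (e (-(z * ζ)) * (G (z + v / 2) * G (z - v / 2)))

section bz

variable {G : ℝ → ℂ} (hG : Integrable G)

include hG

lemma int_e (c : ℝ) : Integrable (fun x => e (-(x * c)) * G x) := by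
  refine (hG.norm).mono' ?_ (Filter.Eventually.of_forall fun x => ?_)
  · have : Continuous fun x : ℝ => e (-(x * c)) := continuous_e.comp (by fun_prop)
    exact this.aestronglyMeasurable.mul hG.1
  · rw [norm_mul, norm_e, one_mul]

lemma ft_bz (ζ ξ : ℝ) : ft (bz G ζ) ξ = ft G (ξ + ζ / 2) * ft G (ζ / 2 - ξ) := by
  have h := val_T (int_e hG (ξ + ζ / 2)) (int_e hG (ζ / 2 - ξ))
  have e1 : ft (bz G ζ) ξ = ∫ v : ℝ, ∫ z : ℝ, (e (-((z + v / 2) * (ξ + ζ / 2))) * G (z + v / 2)) *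
      (e (-((z - v / 2) * (ζ / 2 - ξ))) * G (z - v / 2)) := by
    unfold ft bz
    refine integral_congr_ae (Filter.Eventually.of_forall fun v => ?_)
    simp only
    rw [← integral_const_mul]
    refine integral_congr_ae (Filter.Eventually.of_forall fun z => ?_)
    simp only
    have e2 : e (-((z + v / 2) * (ξ + ζ / 2))) * e (-((z - v / 2) * (ζ / 2 - ξ))) =
        e (-(v * ξ)) * e (-(z * ζ)) := by
      rw [← e_add, ← e_add]
      congr 1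
      ring
    calc e (-(v * ξ)) * (e (-(z * ζ)) * (G (z + v / 2) * G (z - v / 2))) =
          (e (-(v * ξ)) * e (-(z * ζ))) * (G (z + v / 2) * G (z - v / 2)) := by ring
      _ = _ := by rw [← e2]; ring
  rw [e1, h]
  rfl

lemma int_bz (ζ : ℝ) : Integrable (bz G ζ) := by
  have h := (int_T (int_e hG (ζ / 2)) (int_e hG (ζ / 2))).integral_prod_right
  refine h.congr (Filter.Eventually.of_forall fun v => ?_)
  unfold bz
  simp only
  refine integral_congr_ae (Filter.Eventually.of_forall fun z => ?_)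
  simp only
  have e2 : e (-((z + v / 2) * (ζ / 2))) * e (-((z - v / 2) * (ζ / 2))) = e (-(z * ζ)) := by
    rw [← e_add]
    congr 1
    ring
  rw [← e2]
  ring

end bz

lemma bz_eq_ft (G : ℝ → ℂ) (ζ v : ℝ) :
    bz G ζ v = ft (fun z => G (z + v / 2) * G (z - v / 2)) ζ := rfl

lemma amgm (x y : ℂ) : ‖x * y‖ₑ ^ 2 ≤ ‖x‖ₑ ^ 4 / 2 + ‖y‖ₑ ^ 4 / 2 := by
  have h : ‖x * y‖ ^ 2 ≤ ‖x‖ ^ 4 / 2 + ‖y‖ ^ 4 / 2 := by
    rw [norm_mul]
    nlinarith [sq_nonneg (‖x‖ ^ 2 - ‖y‖ ^ 2)]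
  have e2 : (2 : ℝ≥0∞) = ENNReal.ofReal 2 := by norm_num
  rw [← ofReal_norm, ← ofReal_norm, ← ofReal_norm, ← ENNReal.ofReal_pow (norm_nonneg _),
    ← ENNReal.ofReal_pow (norm_nonneg _), ← ENNReal.ofReal_pow (norm_nonneg _), e2,
    ← ENNReal.ofReal_div_of_pos (by norm_num), ← ENNReal.ofReal_div_of_pos (by norm_num),
    ← ENNReal.ofReal_add (by positivity) (by positivity)]
  exact ENNReal.ofReal_le_ofReal h

/-- the product is square integrable -/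
lemma sq_prod {G : ℝ → ℂ} (hm : Measurable G) (v : ℝ) :
    ∫⁻ z : ℝ, ‖G (z + v / 2) * G (z - v / 2)‖ₑ ^ 2 ≤ ∫⁻ x : ℝ, ‖G x‖ₑ ^ 4 := by
  have e1 : ∫⁻ z : ℝ, ‖G (z + v / 2)‖ₑ ^ 4 / 2 = (∫⁻ x : ℝ, ‖G x‖ₑ ^ 4) / 2 := by
    rw [lintegral_add_right_eq_self (fun x => ‖G x‖ₑ ^ 4 / 2) (v / 2)]
    simp only [div_eq_mul_inv]
    exact lintegral_mul_const _ (by fun_prop)
  have e2 : ∫⁻ z : ℝ, ‖G (z - v / 2)‖ₑ ^ 4 / 2 = (∫⁻ x : ℝ, ‖G x‖ₑ ^ 4) / 2 := by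
    simp only [sub_eq_add_neg]
    rw [lintegral_add_right_eq_self (fun x => ‖G x‖ₑ ^ 4 / 2) (-(v / 2))]
    simp only [div_eq_mul_inv]
    exact lintegral_mul_const _ (by fun_prop)
  calc ∫⁻ z : ℝ, ‖G (z + v / 2) * G (z - v / 2)‖ₑ ^ 2 ≤
        ∫⁻ z : ℝ, (‖G (z + v / 2)‖ₑ ^ 4 / 2 + ‖G (z - v / 2)‖ₑ ^ 4 / 2) :=
        lintegral_mono fun z => amgm _ _
    _ = (∫⁻ z : ℝ, ‖G (z + v / 2)‖ₑ ^ 4 / 2) + ∫⁻ z : ℝ, ‖G (z - v / 2)‖ₑ ^ 4 / 2 :=
        lintegral_add_left (by fun_prop) _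
    _ = ∫⁻ x : ℝ, ‖G x‖ₑ ^ 4 := by rw [e1, e2, ENNReal.add_halves]

/-! ### The localised data -/

/-- localised evolved data -/
noncomputable def qq (a : ℝ) (χ G : ℝ → ℂ) (t ξ : ℝ) : ℂ := e (t * ra a ξ) * (χ ξ * ft G ξ)

/-- its bilinear expression -/
noncomputable def QQ (a : ℝ) (χ G : ℝ → ℂ) (t ζ : ℝ) : ℂ :=
  ∫ ξ : ℝ, qq a χ G t (ξ + ζ / 2) * qq a χ G t (ζ / 2 - ξ)

lemma memLp_two {f : ℝ → ℂ} (h : Integrable f) (h2 : ∫⁻ x, ‖f x‖ₑ ^ 2 < ∞) : MemLp f 2 := by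
  refine ⟨h.1, ?_⟩
  rw [eLpNorm_lt_top_iff_lintegral_rpow_enorm_lt_top (by norm_num) (by norm_num)]
  simpa using h2

lemma memLp_two_of_bdd {f : ℝ → ℂ} {K : ℝ} (h : Integrable f) (h2 : ∀ x, ‖f x‖ ≤ K) :
    MemLp f 2 := by
  apply memLp_two h
  have hK : 0 ≤ K := (norm_nonneg _).trans (h2 0)
  calc ∫⁻ x, ‖f x‖ₑ ^ 2 ≤ ∫⁻ x, ENNReal.ofReal K * ‖f x‖ₑ := by
        refine lintegral_mono fun x => ?_
        simp only
        rw [sq, ← ofReal_norm (f x)]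
        gcongr
        exact h2 x
    _ = ENNReal.ofReal K * ∫⁻ x, ‖f x‖ₑ := lintegral_const_mul' _ _ ENNReal.ofReal_ne_top
    _ < ∞ := ENNReal.mul_lt_top ENNReal.ofReal_lt_top h.2

section data

variable {a N : ℝ} {χ G : ℝ → ℂ} (hN : 1 ≤ N) (hχ : Cut 1 N χ) (hG : Integrable G)

lemma qq_bdd (hχ : Cut 1 N χ) (t ξ : ℝ) : ‖qq a χ G t ξ‖ ≤ ∫ x, ‖G x‖ := by
  unfold qq
  rw [norm_mul, norm_e, one_mul, norm_mul]
  calc ‖χ ξ‖ * ‖ft G ξ‖ ≤ 1 * ∫ x, ‖G x‖ :=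
        mul_le_mul (hχ.1 _) (norm_ft_le _ _) (norm_nonneg _) (by norm_num)
    _ = _ := one_mul _

lemma qq_zero (hχ : Cut 1 N χ) (t : ℝ) {ξ : ℝ} (h : 2 * N < |ξ|) : qq a χ G t ξ = 0 := by
  unfold qq
  rw [hχ.2.2 ξ h]; ring

include hN hχ hG

lemma qq_cont : Continuous (fun p : ℝ × ℝ => qq a χ G p.1 p.2) := by
  unfold qq
  have h1 := cut_cont (by linarith) (by norm_num) hχ
  have h2 := continuous_ft hG
  have h3 := ra_cont a
  have h4 := continuous_e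
  fun_prop

lemma qq_int (t : ℝ) : Integrable (qq a χ G t) := by
  have hc : Continuous (qq a χ G t) := by
    have := qq_cont (a := a) hN hχ hG
    exact this.comp (Continuous.prodMk continuous_const continuous_id)
  apply hc.integrable_of_hasCompactSupport
  apply HasCompactSupport.of_support_subset_isCompact (isCompact_Icc (a := -(2 * N)) (b := 2 * N))
  intro ξ hξ
  rw [Function.mem_support] at hξ
  by_contra h
  apply hξ
  apply qq_zero hχ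
  rw [mem_Icc, ← abs_le] at h
  exact not_le.1 h

lemma QQ_int (t : ℝ) : Integrable (QQ a χ G t) :=
  (int_T' (qq_int (a := a) hN hχ hG t) (qq_int hN hχ hG t)).integral_prod_right

lemma QQ_bdd (t ζ : ℝ) : ‖QQ a χ G t ζ‖ ≤ (∫ x, ‖G x‖) * ∫ ξ, ‖qq a χ G t ξ‖ := by
  have h1 := (qq_int (a := a) hN hχ hG t).norm
  have e1 : ∫ ξ, ‖qq a χ G t ξ‖ = ∫ ξ, ‖qq a χ G t (ξ + ζ / 2)‖ :=
    (integral_add_right_eq_self (fun ξ => ‖qq a χ G t ξ‖) (ζ / 2)).symm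
  rw [e1, ← integral_const_mul]
  unfold QQ
  refine norm_integral_le_of_norm_le ((h1.comp_add_right (ζ / 2)).const_mul _)
    (Filter.Eventually.of_forall fun ξ => ?_)
  rw [norm_mul, mul_comm]
  exact mul_le_mul_of_nonneg_right (qq_bdd hχ _ _) (norm_nonneg _)

lemma Vx_sq (t x : ℝ) : Vx a χ G t x ^ 2 = ∫ ζ : ℝ, e (x * ζ) * QQ a χ G t ζ := by
  have hi : Integrable (fun ξ => e (x * ξ) * qq a χ G t ξ) := by
    have h := (qq_int (a := a) hN hχ hG t)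
    refine (h.norm).mono' ?_ (Filter.Eventually.of_forall fun ξ => ?_)
    · have : Continuous fun ξ : ℝ => e (x * ξ) := continuous_e.comp (by fun_prop)
      exact this.aestronglyMeasurable.mul h.1
    · rw [norm_mul, norm_e, one_mul]
  have h := val_T' hi hi
  have e0 : Vx a χ G t x = ∫ ξ, e (x * ξ) * qq a χ G t ξ := rfl
  rw [e0, sq, ← h]
  refine integral_congr_ae (Filter.Eventually.of_forall fun v => ?_)
  simp only
  unfold QQ
  rw [← integral_const_mul]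
  refine integral_congr_ae (Filter.Eventually.of_forall fun z => ?_)
  simp only
  have e2 : e (x * (z + v / 2)) * e (x * (v / 2 - z)) = e (x * v) := by
    rw [← e_add]
    congr 1
    ring
  rw [← e2]
  ring

lemma Vx_four (t : ℝ) : ∫⁻ x : ℝ, ‖Vx a χ G t x‖ₑ ^ 4 = ∫⁻ ζ : ℝ, ‖QQ a χ G t ζ‖ₑ ^ 2 := by
  rw [← ift_planch (QQ a χ G t) (QQ_int hN hχ hG t)
    (memLp_two_of_bdd (QQ_int hN hχ hG t) (QQ_bdd hN hχ hG t))]
  refine lintegral_congr fun x => ?_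
  rw [← Vx_sq hN hχ hG t x, enorm_pow, ← pow_mul]

omit hN hχ in
lemma QQ_eq (t ζ : ℝ) : QQ a χ G t ζ =
    ∫ ξ : ℝ, e (t * gg a ζ ξ) * ((χ (ξ + ζ / 2) * χ (ζ / 2 - ξ)) * ft (bz G ζ) ξ) := by
  unfold QQ
  refine integral_congr_ae (Filter.Eventually.of_forall fun ξ => ?_)
  simp only
  rw [ft_bz hG]
  unfold qq gg
  rw [mul_add, e_add]
  ring

lemma QQ_meas : Measurable (Function.uncurry (QQ a χ G)) := by
  have hc : Continuous (fun p : (ℝ × ℝ) × ℝ =>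
      qq a χ G p.1.1 (p.2 + p.1.2 / 2) * qq a χ G p.1.1 (p.1.2 / 2 - p.2)) := by
    have := qq_cont (a := a) hN hχ hG
    have h1 : Continuous (fun p : (ℝ × ℝ) × ℝ => qq a χ G p.1.1 (p.2 + p.1.2 / 2)) :=
      this.comp (g := fun p : ℝ × ℝ => qq a χ G p.1 p.2)
        (f := fun p : (ℝ × ℝ) × ℝ => (p.1.1, p.2 + p.1.2 / 2)) (by fun_prop)
    have h2 : Continuous (fun p : (ℝ × ℝ) × ℝ => qq a χ G p.1.1 (p.1.2 / 2 - p.2)) :=
      this.comp (g := fun p : ℝ × ℝ => qq a χ G p.1 p.2)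
        (f := fun p : (ℝ × ℝ) × ℝ => (p.1.1, p.1.2 / 2 - p.2)) (by fun_prop)
    exact h1.mul h2
  have hs : StronglyMeasurable (fun p : ℝ × ℝ => QQ a χ G p.1 p.2) :=
    StronglyMeasurable.integral_prod_right (ν := (volume : Measure ℝ))
      (f := fun (p : ℝ × ℝ) (ξ : ℝ) => qq a χ G p.1 (ξ + p.2 / 2) * qq a χ G p.1 (p.2 / 2 - ξ))
      hc.stronglyMeasurable
  exact hs.measurable

end data

lemma bz_meas {G : ℝ → ℂ} (hm : Measurable G) : Measurable (Function.uncurry (bz G)) := by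
  have hc : Measurable (fun p : (ℝ × ℝ) × ℝ =>
      e (-(p.2 * p.1.1)) * (G (p.2 + p.1.2 / 2) * G (p.2 - p.1.2 / 2))) := by
    have h0 := measurable_e
    fun_prop
  have hs : StronglyMeasurable (fun p : ℝ × ℝ => bz G p.1 p.2) :=
    StronglyMeasurable.integral_prod_right (ν := (volume : Measure ℝ))
      (f := fun (p : ℝ × ℝ) (z : ℝ) => e (-(z * p.1)) * (G (z + p.2 / 2) * G (z - p.2 / 2)))
      hc.stronglyMeasurable
  exact hs.measurable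

lemma Wt_meas (N : ℝ) : Measurable (Wt N) := by
  unfold Wt
  refine Measurable.ite ?_ (by fun_prop) (by fun_prop)
  exact measurableSet_le (by fun_prop) (by fun_prop)

/-- the statement for measurable functions -/
lemma main_meas {C1 C2 : ℝ} (hC1 : 0 < C1) (hC2 : 0 < C2)
    (hD : ∀ (N : ℝ) (g g' : ℝ → ℝ) (χ b : ℝ → ℂ), 1 ≤ N → Ev g g' →
      Cut 2 N χ → Integrable b →
      ∫⁻ t in Icc (-2 : ℝ) 2, ‖∫ ξ : ℝ, e (t * g ξ) * (χ ξ * ft b ξ)‖ₑ ^ 2 ≤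
      ENNReal.ofReal (C1 * (1 + Real.log N)) *
      ∫⁻ v : ℝ, (ENNReal.ofReal (Wt N v))⁻¹ * ‖b v‖ₑ ^ 2)
    (hW : ∀ N : ℝ, 1 ≤ N →
      ∫⁻ v : ℝ, (ENNReal.ofReal (Wt N v))⁻¹ ≤ ENNReal.ofReal (C2 * (1 + Real.log N)))
    {N a : ℝ} {χ G : ℝ → ℂ} (hN : 1 ≤ N) (ha : 0 < a) (hχ : Cut 1 N χ) (hG : Integrable G)
    (hm : Measurable G) :
    ∫⁻ t in Icc (-2 : ℝ) 2, ∫⁻ x : ℝ, ‖Vx a χ G t x‖ₑ ^ 4 ≤
      ENNReal.ofReal (C1 * C2 * (1 + Real.log N) ^ 2) * ∫⁻ x : ℝ, ‖G x‖ₑ ^ 4 := by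
  have hlog : 0 ≤ Real.log N := Real.log_nonneg hN
  by_cases hfin : ∫⁻ x : ℝ, ‖G x‖ₑ ^ 4 = ∞
  · have hpos : 0 < C1 * C2 * (1 + Real.log N) ^ 2 := by positivity
    rw [hfin, ENNReal.mul_top (ENNReal.ofReal_pos.2 hpos).ne']
    exact le_top
  have hJ : ∀ᵐ v : ℝ, ∫⁻ ζ, ‖bz G ζ v‖ₑ ^ 2 ≤ ∫⁻ x, ‖G x‖ₑ ^ 4 := by
    filter_upwards [(int_T hG hG).prod_left_ae] with v hv
    have h2 : MemLp (fun z => G (z + v / 2) * G (z - v / 2)) 2 :=
      memLp_two hv ((sq_prod hm v).trans_lt (lt_top_iff_ne_top.2 hfin))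
    have h3 := ft_planch _ hv h2
    simp only [bz_eq_ft]
    rw [h3]
    exact sq_prod hm v
  have hbm := bz_meas hm
  have hWm : Measurable (fun v => (ENNReal.ofReal (Wt N v))⁻¹) :=
    ((Wt_meas N).ennreal_ofReal).inv
  calc ∫⁻ t in Icc (-2 : ℝ) 2, ∫⁻ x : ℝ, ‖Vx a χ G t x‖ₑ ^ 4 =
        ∫⁻ t in Icc (-2 : ℝ) 2, ∫⁻ ζ : ℝ, ‖QQ a χ G t ζ‖ₑ ^ 2 :=
        lintegral_congr fun t => Vx_four hN hχ hG t
    _ = ∫⁻ ζ : ℝ, ∫⁻ t in Icc (-2 : ℝ) 2, ‖QQ a χ G t ζ‖ₑ ^ 2 := by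
        apply lintegral_lintegral_swap
        exact ((QQ_meas hN hχ hG).enorm.pow_const 2).aemeasurable
    _ ≤ ∫⁻ ζ : ℝ, ENNReal.ofReal (C1 * (1 + Real.log N)) *
          ∫⁻ v : ℝ, (ENNReal.ofReal (Wt N v))⁻¹ * ‖bz G ζ v‖ₑ ^ 2 := by
        refine lintegral_mono fun ζ => ?_
        simp only [QQ_eq hG]
        exact hD N _ _ _ _ hN (ev_gg ha ζ) (cut_mul hN hχ ζ) (int_bz hG ζ)
    _ = ENNReal.ofReal (C1 * (1 + Real.log N)) *
          ∫⁻ ζ : ℝ, ∫⁻ v : ℝ, (ENNReal.ofReal (Wt N v))⁻¹ * ‖bz G ζ v‖ₑ ^ 2 :=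
        lintegral_const_mul' _ _ ENNReal.ofReal_ne_top
    _ = ENNReal.ofReal (C1 * (1 + Real.log N)) *
          ∫⁻ v : ℝ, ∫⁻ ζ : ℝ, (ENNReal.ofReal (Wt N v))⁻¹ * ‖bz G ζ v‖ₑ ^ 2 := by
        congr 1
        apply lintegral_lintegral_swap
        exact ((hWm.comp measurable_snd).mul (hbm.enorm.pow_const 2)).aemeasurable
    _ = ENNReal.ofReal (C1 * (1 + Real.log N)) *
          ∫⁻ v : ℝ, (ENNReal.ofReal (Wt N v))⁻¹ * ∫⁻ ζ : ℝ, ‖bz G ζ v‖ₑ ^ 2 := by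
        congr 1
        refine lintegral_congr fun v => ?_
        apply lintegral_const_mul
        have h5 : Measurable (fun ζ => bz G ζ v) := hbm.comp (measurable_id.prodMk measurable_const)
        exact h5.enorm.pow_const 2
    _ ≤ ENNReal.ofReal (C1 * (1 + Real.log N)) *
          ∫⁻ v : ℝ, (ENNReal.ofReal (Wt N v))⁻¹ * ∫⁻ x : ℝ, ‖G x‖ₑ ^ 4 := by
        refine mul_le_mul' le_rfl (lintegral_mono_ae (hJ.mono fun v hv => ?_))
        exact mul_le_mul' le_rfl hv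
    _ = ENNReal.ofReal (C1 * (1 + Real.log N)) *
          ((∫⁻ v : ℝ, (ENNReal.ofReal (Wt N v))⁻¹) * ∫⁻ x : ℝ, ‖G x‖ₑ ^ 4) := by
        congr 1
        exact lintegral_mul_const _ hWm
    _ ≤ ENNReal.ofReal (C1 * (1 + Real.log N)) *
          (ENNReal.ofReal (C2 * (1 + Real.log N)) * ∫⁻ x : ℝ, ‖G x‖ₑ ^ 4) := by
        gcongr
        exact hW N hN
    _ = ENNReal.ofReal (C1 * C2 * (1 + Real.log N) ^ 2) * ∫⁻ x : ℝ, ‖G x‖ₑ ^ 4 := by
        rw [← mul_assoc, ← ENNReal.ofReal_mul (by positivity)]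
        congr 2
        ring

/-- the reduction -/
theorem ls4_thm : S_DUAL → S_W → S_LS4 := by
  rintro ⟨C1, hC1, hD⟩ ⟨C2, hC2, hW⟩
  refine ⟨C1 * C2, by positivity, fun N a χ G hN ha hχ hG => ?_⟩
  obtain ⟨G', hG'⟩ : ∃ G', G' = hG.1.mk G := ⟨_, rfl⟩
  have hae : G =ᵐ[volume] G' := by rw [hG']; exact hG.1.ae_eq_mk
  have hm : Measurable G' := by rw [hG']; exact hG.1.stronglyMeasurable_mk.measurable
  have e1 : ft G = ft G' := funext fun ξ => integral_congr_ae (hae.mono fun x hx => by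
    simp only
    rw [hx])
  have e2 : ∀ t x, Vx a χ G t x = Vx a χ G' t x := by
    intro t x
    unfold Vx
    rw [e1]
  have e3 : ∫⁻ x, ‖G x‖ₑ ^ 4 = ∫⁻ x, ‖G' x‖ₑ ^ 4 := lintegral_congr_ae (hae.mono fun x hx => by
    simp only
    rw [hx])
  simp only [e2, e3]
  exact main_meas hC1 hC2 hD (fun N hN => (hW N hN).1) hN ha hχ (hG.congr hae) hm

end Pool.Agent.TH73.LS4
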