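import Pool.Agent.TH43.AB.Ext

/-!
# AB43: pigeonhole for rational resolutions with bounded ranks
-/

set_option autoImplicit false

namespace Pool.Agent.TH73.J574

open Pool.Agent.TH43.AB

variable {k : Type} [Field k]

/-- the elements with coordinates in `F` -/
def SF (F : Subfield k) : Type := {s : SR k // s.Mem F}

instance (F : Subfield k) [Finite F] : Finite (SF F) := by
  have h : Set.Finite {s : SR k | s.Mem F} := by
    refine (Set.finite_range (fun t : Fin 14 → F => (⟨t 0, t 1, t 2, t 3, t 4, t 5, t 6, t 7, t 8,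
      t 9, t 10, t 11, t 12, t 13⟩ : SR k))).subset ?_
    rintro s ⟨h0, h1, h2, h3, h4, h5, h6, h7, h8, h9, h10, h11, h12, h13⟩
    exact ⟨![⟨s.u, h0⟩, ⟨s.a, h1⟩, ⟨s.x, h2⟩, ⟨s.y, h3⟩, ⟨s.v, h4⟩, ⟨s.w, h5⟩, ⟨s.z, h6⟩,
      ⟨s.o, h7⟩, ⟨s.ax, h8⟩, ⟨s.ay, h9⟩, ⟨s.av, h10⟩, ⟨s.aw, h11⟩, ⟨s.az, h12⟩, ⟨s.ao, h13⟩], rfl⟩
  exact h.to_subtype

/-- the columns -/
def cols {b n : ℕ} (P : Matrix (Fin b) (Fin n) (SR k)) : Set (Fin b → SR k) :=
  Set.range fun q p => P p q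

/-- the columns, with values in `F` -/
def codeSet (F : Subfield k) {b n : ℕ} (P : Matrix (Fin b) (Fin n) (SR k)) :
    Set (Fin b → SF F) := {c | (fun p => (c p).1) ∈ cols P}

lemma image_codeSet (F : Subfield k) {b n : ℕ} (P : Matrix (Fin b) (Fin n) (SR k))
    (hP : ∀ p q, (P p q).Mem F) :
    (fun (c : Fin b → SF F) p => (c p).1) '' codeSet F P = cols P := by
  ext u
  constructor
  · rintro ⟨c, hc, rfl⟩
    exact hc
  · rintro ⟨q, rfl⟩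
    exact ⟨fun p => ⟨P p q, hP p q⟩, ⟨q, rfl⟩, rfl⟩

lemma range_eq {b n : ℕ} (P : Matrix (Fin b) (Fin n) (SR k)) :
    LinearMap.range P.mulVecLin = Submodule.span (SR k) (cols P) := by
  rw [Matrix.range_mulVecLin]
  rfl

lemma mem_ker_iff {b n : ℕ} (P : Matrix (Fin b) (Fin n) (SR k)) (c : Fin b → SR k) :
    c ∈ LinearMap.ker P.transpose.mulVecLin ↔ ∀ u ∈ cols P, u ⬝ᵥ c = 0 := by
  rw [LinearMap.mem_ker, Matrix.mulVecLin_apply, funext_iff]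
  constructor
  · rintro h _ ⟨q, rfl⟩
    exact h q
  · intro h q
    exact h _ ⟨q, rfl⟩

lemma key (F : Subfield k) {B b b' n n' : ℕ} (P : Matrix (Fin b) (Fin n) (SR k))
    (P' : Matrix (Fin b') (Fin n') (SR k)) (hP : ∀ p q, (P p q).Mem F)
    (hP' : ∀ p q, (P' p q).Mem F) (hb : b < B) (hb' : b' < B)
    (h : (⟨⟨b, hb⟩, codeSet F P⟩ : Σ b : Fin B, Set (Fin b → SF F)) =
      ⟨⟨b', hb'⟩, codeSet F P'⟩) :
    Nonempty (((Fin b → SR k) ⧸ LinearMap.range P.mulVecLin) ≃ₗ[SR k]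
      ((Fin b' → SR k) ⧸ LinearMap.range P'.mulVecLin)) ∧
    Nonempty (LinearMap.ker P.transpose.mulVecLin ≃ₗ[SR k]
      LinearMap.ker P'.transpose.mulVecLin) := by
  have h1 : b = b' := congrArg (fun z : Σ b : Fin B, Set (Fin b → SF F) => (z.1 : ℕ)) h
  subst h1
  have h2 : codeSet F P = codeSet F P' := eq_of_heq (Sigma.mk.inj h).2
  have h3 : cols P = cols P' := by
    rw [← image_codeSet F P hP, ← image_codeSet F P' hP', h2]
  refine ⟨⟨Submodule.quotEquivOfEq _ _ (by rw [range_eq, range_eq, h3])⟩,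
    ⟨LinearEquiv.ofEq _ _ ?_⟩⟩
  ext c
  rw [mem_ker_iff, mem_ker_iff, h3]

theorem pigeon {k : Type} [Field k] (X : Res k) (F : Subfield k) [Finite F]
    (hF : ∀ i p q, (X.P i p q).Mem F) (B : ℕ) (hB : ∀ i, X.b i ≤ B) :
    ∃ i j, i < j ∧ Nonempty (X.M i ≃ₗ[SR k] X.M j) ∧ Nonempty (X.N i ≃ₗ[SR k] X.N j) := by
  let code : ℕ → Σ b : Fin (B + 1), Set (Fin b → SF F) := fun i =>
    ⟨⟨X.b i, Nat.lt_succ_of_le (hB i)⟩, codeSet F (X.P i)⟩
  obtain ⟨i, j, hij, h⟩ := Finite.exists_ne_map_eq_of_infinite code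
  rcases lt_or_gt_of_ne hij with h1 | h1
  · exact ⟨i, j, h1, key F (X.P i) (X.P j) (hF i) (hF j) _ _ h⟩
  · exact ⟨j, i, h1, key F (X.P j) (X.P i) (hF j) (hF i) _ _ h.symm⟩

end Pool.Agent.TH73.J574
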