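import Pool.Agent.TH60.LR.Defs

/-!
# LR-13: split data from Fox derivatives
-/

set_option autoImplicit false

namespace Pool.Agent.TH73.J563

open Pool.Agent.TH60.LR

noncomputable section

/-- the edges -/
structure Edg {ι : Type} (T : Set ι) (N : Type) where
  i : {i : ι // i ∉ T}
  g : N

variable {N ι : Type} [Group N] (T : Set ι)

instance actE : MulAction N (Edg T N) where
  smul n e := ⟨e.i, n * e.g⟩
  one_smul e := by
    change (⟨e.i, 1 * e.g⟩ : Edg T N) = e
    rw [one_mul]
  mul_smul a b e := by
    change (⟨e.i, a * b * e.g⟩ : Edg T N) = ⟨e.i, a * (b * e.g)⟩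
    rw [mul_assoc]

lemma smul_edg (n : N) (e : Edg T N) : n • e = ⟨e.i, n * e.g⟩ := rfl

/-- the linear action on chains -/
def lin {X : Type} [MulAction N X] (n : N) : (X →₀ ℤ) ≃+ (X →₀ ℤ) :=
  Finsupp.domCongr (MulAction.toPerm n)

lemma lin_single {X : Type} [MulAction N X] (n : N) (x : X) (c : ℤ) :
    lin n (Finsupp.single x c) = Finsupp.single (n • x) c := by
  unfold lin
  rw [Finsupp.domCongr_apply, Finsupp.equivMapDomain_single]
  rfl

lemma lin_apply {X : Type} [MulAction N X] (n : N) (f : X →₀ ℤ) (x : X) :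
    lin n f (n • x) = f x := by
  unfold lin
  rw [Finsupp.domCongr_apply, Finsupp.equivMapDomain_apply]
  congr 1
  exact inv_smul_smul n x

lemma lin_mul {X : Type} [MulAction N X] (n m : N) (f : X →₀ ℤ) :
    lin (n * m) f = lin n (lin m f) := by
  ext x
  obtain ⟨y, rfl⟩ : ∃ y, x = n • m • y := ⟨m⁻¹ • n⁻¹ • x, by rw [smul_inv_smul, smul_inv_smul]⟩
  rw [lin_apply, lin_apply, ← mul_smul, lin_apply]

/-- the action as a homomorphism -/
def phi : N →* MulAut (Multiplicative (Edg T N →₀ ℤ)) where
  toFun n := AddEquiv.toMultiplicative (lin n)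
  map_one' := MulEquiv.ext fun f => by
    have : lin (1 : N) (Multiplicative.toAdd f) = Multiplicative.toAdd f := by
      ext x
      have := lin_apply (1 : N) (Multiplicative.toAdd f) x
      rwa [one_smul] at this
    exact congrArg Multiplicative.ofAdd this
  map_mul' n m := MulEquiv.ext fun f =>
    congrArg Multiplicative.ofAdd (lin_mul n m (Multiplicative.toAdd f))

open Classical in
/-- the values on the basis -/
def dg (i : ι) : Edg T N →₀ ℤ :=
  if h : i ∈ T then 0 else Finsupp.single ⟨⟨i, h⟩, 1⟩ 1

variable (b : FreeGroupBasis ι N)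

/-- the homomorphism to the semidirect product -/
def FF : N →* (Multiplicative (Edg T N →₀ ℤ)) ⋊[phi T] N :=
  b.lift (fun i => ⟨Multiplicative.ofAdd (dg T i), b i⟩)

lemma FF_right (n : N) : (FF T b n).right = n := by
  have h : SemidirectProduct.rightHom.comp (FF T b) = MonoidHom.id N := by
    apply b.ext_hom
    intro i
    rw [MonoidHom.comp_apply, FF, FreeGroupBasis.lift_apply_apply, FreeGroupBasis.repr_apply_coe,
      FreeGroup.lift_apply_of]
    rfl
  exact DFunLike.congr_fun h n

/-- the Fox derivative -/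
def fox (n : N) : Edg T N →₀ ℤ := Multiplicative.toAdd (FF T b n).left

lemma fox_mul (n m : N) : fox T b (n * m) = fox T b n + lin n (fox T b m) := by
  unfold fox
  rw [map_mul, SemidirectProduct.mul_left, FF_right]
  rfl

lemma fox_gen (i : ι) : fox T b (b i) = dg T i := by
  unfold fox
  rw [FF, FreeGroupBasis.lift_apply_apply, FreeGroupBasis.repr_apply_coe, FreeGroup.lift_apply_of]
  rfl

lemma fox_one : fox T b 1 = 0 := by
  unfold fox
  rw [map_one]
  rfl

lemma fox_inv (n : N) : fox T b n⁻¹ = - lin n⁻¹ (fox T b n) := by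
  have h := fox_mul T b n⁻¹ n
  rw [inv_mul_cancel, fox_one] at h
  exact eq_neg_of_add_eq_zero_left h.symm

lemma fox_D {n : N} (hn : n ∈ Subgroup.closure (b '' T)) : fox T b n = 0 := by
  induction hn using Subgroup.closure_induction with
  | mem x hx =>
    obtain ⟨i, hi, rfl⟩ := hx
    rw [fox_gen, dg, dif_pos hi]
  | one => exact fox_one T b
  | mul x y _ _ hx hy => rw [fox_mul, hx, hy, map_zero, add_zero]
  | inv x _ hx => rw [fox_inv, hx, map_zero, neg_zero]

/-- the Fox derivative on cosets -/
def foxq : N ⧸ Subgroup.closure (b '' T) → (Edg T N →₀ ℤ) :=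
  Quotient.lift (fox T b) (by
    intro x y h
    have h1 : x⁻¹ * y ∈ Subgroup.closure (b '' T) := QuotientGroup.leftRel_apply.1 h
    have h2 := fox_mul T b x (x⁻¹ * y)
    rw [mul_inv_cancel_left, fox_D T b h1, map_zero, add_zero] at h2
    exact h2.symm)

lemma foxq_mk (n : N) : foxq T b (n : N ⧸ Subgroup.closure (b '' T)) = fox T b n := rfl

/-- the boundary -/
def bdh {E V : Type} (o t : E → V) : (E →₀ ℤ) →+ (V →₀ ℤ) :=
  Finsupp.liftAddHom (fun e => Finsupp.singleAddHom (t e) - Finsupp.singleAddHom (o e))

lemma bdh_apply {E V : Type} (o t : E → V) (f : E →₀ ℤ) :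
    bdh o t f = f.sum fun e c => Finsupp.single (t e) c - Finsupp.single (o e) c := rfl

lemma bdh_single {E V : Type} (o t : E → V) (e : E) (c : ℤ) :
    bdh o t (Finsupp.single e c) = Finsupp.single (t e) c - Finsupp.single (o e) c := by
  rw [bdh_apply, Finsupp.sum_single_index]
  simp

lemma bdh_lin {E V : Type} [MulAction N E] [MulAction N V] (o t : E → V)
    (ho : ∀ (n : N) e, o (n • e) = n • o e) (ht : ∀ (n : N) e, t (n • e) = n • t e)
    (n : N) (f : E →₀ ℤ) : bdh o t (lin n f) = lin n (bdh o t f) := by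
  have h : (bdh o t).comp (lin n : (E →₀ ℤ) ≃+ (E →₀ ℤ)).toAddMonoidHom =
      (lin n : (V →₀ ℤ) ≃+ (V →₀ ℤ)).toAddMonoidHom.comp (bdh o t) := by
    apply Finsupp.addHom_ext
    intro e c
    change bdh o t (lin n (Finsupp.single e c)) = lin n (bdh o t (Finsupp.single e c))
    rw [lin_single, bdh_single, bdh_single, map_sub, lin_single, lin_single, ho, ht]
  exact DFunLike.congr_fun h f

/-- origin of an edge -/
def org (e : Edg T N) : N ⧸ Subgroup.closure (b '' T) := (e.g : N)

/-- end of an edge -/
def tgt (e : Edg T N) : N ⧸ Subgroup.closure (b '' T) := ((e.g * b e.i : N) : N ⧸ _)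

lemma org_smul (n : N) (e : Edg T N) : org T b (n • e) = n • org T b e := rfl

lemma tgt_smul (n : N) (e : Edg T N) : tgt T b (n • e) = n • tgt T b e := by
  unfold tgt
  rw [smul_edg, mul_assoc]
  rfl

lemma bd_fox (n : N) : bdh (org T b) (tgt T b) (fox T b n) =
    Finsupp.single (n : N ⧸ Subgroup.closure (b '' T)) (1 : ℤ) -
      Finsupp.single ((1 : N) : N ⧸ Subgroup.closure (b '' T)) (1 : ℤ) := by
  let S : Subgroup N :=
    { carrier := {n | bdh (org T b) (tgt T b) (fox T b n) =
        Finsupp.single (n : N ⧸ Subgroup.closure (b '' T)) (1 : ℤ) -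
          Finsupp.single ((1 : N) : N ⧸ Subgroup.closure (b '' T)) (1 : ℤ)}
      one_mem' := by
        change _ = _
        rw [fox_one, map_zero, sub_self]
      mul_mem' := by
        intro x y hx hy
        change _ = _ at hx hy ⊢
        rw [fox_mul, map_add, bdh_lin _ _ (org_smul T b) (tgt_smul T b), hx, hy, map_sub,
          lin_single, lin_single]
        have e1 : x • (y : N ⧸ Subgroup.closure (b '' T)) = ((x * y : N) : N ⧸ _) := rfl
        have e2 : x • ((1 : N) : N ⧸ Subgroup.closure (b '' T)) = (x : N ⧸ _) :=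
          congrArg QuotientGroup.mk (mul_one x)
        rw [e1, e2]
        abel
      inv_mem' := by
        intro x hx
        change _ = _ at hx ⊢
        rw [fox_inv, map_neg, bdh_lin _ _ (org_smul T b) (tgt_smul T b), hx, map_sub,
          lin_single, lin_single]
        have e1 : x⁻¹ • (x : N ⧸ Subgroup.closure (b '' T)) = ((1 : N) : N ⧸ _) :=
          congrArg QuotientGroup.mk (inv_mul_cancel x)
        have e2 : x⁻¹ • ((1 : N) : N ⧸ Subgroup.closure (b '' T)) = ((x⁻¹ : N) : N ⧸ _) :=
          congrArg QuotientGroup.mk (mul_one x⁻¹)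
        rw [e1, e2]
        abel }
  have hgen : ∀ i, b i ∈ S := by
    intro i
    change _ = _
    rw [fox_gen, dg]
    split_ifs with h
    · rw [map_zero]
      have : ((b i : N) : N ⧸ Subgroup.closure (b '' T)) = ((1 : N) : N ⧸ _) := by
        apply QuotientGroup.eq.2
        rw [mul_one]
        exact Subgroup.inv_mem _ (Subgroup.subset_closure ⟨i, h, rfl⟩)
      rw [this, sub_self]
    · rw [bdh_single, tgt, org, one_mul]
  have hall : ∀ n : N, n ∈ S := by
    intro n
    obtain ⟨w, rfl⟩ := b.repr.symm.surjective n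
    induction w using FreeGroup.induction_on with
    | C1 => rw [map_one]; exact S.one_mem
    | of i => exact hgen i
    | inv_of i h => rw [map_inv]; exact S.inv_mem h
    | mul x y hx hy => rw [map_mul]; exact S.mul_mem hx hy
  exact hall n

theorem splitOfBasis : SplitOfBasis := by
  intro N ι _ b T
  exact ⟨{
    E := Edg T N
    act := actE T
    o := org T b
    t := tgt T b
    D := fun u v => foxq T b u - foxq T b v
    free := by
      intro n e h
      have h1 : n * e.g = e.g := congrArg Edg.g h
      exact mul_eq_right.1 h1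
    o_smul := org_smul T b
    t_smul := tgt_smul T b
    D_add := by
      intro u v w
      abel
    D_smul := by
      intro n u v e
      obtain ⟨x, rfl⟩ := QuotientGroup.mk_surjective u
      obtain ⟨y, rfl⟩ := QuotientGroup.mk_surjective v
      change (fox T b (n * x) - fox T b (n * y)) (n • e) = (fox T b x - fox T b y) e
      rw [fox_mul, fox_mul, add_sub_add_left_eq_sub, ← map_sub, lin_apply]
    bd := by
      intro u v
      obtain ⟨x, rfl⟩ := QuotientGroup.mk_surjective u
      obtain ⟨y, rfl⟩ := QuotientGroup.mk_surjective v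
      rw [foxq_mk, foxq_mk, ← bdh_apply, map_sub, bd_fox, bd_fox]
      abel }⟩

/-- transport along an equivariant bijection -/
theorem hasSplit_congr {N V V' : Type} [Group N] [MulAction N V] [MulAction N V']
    (e : V ≃ V') (he : ∀ (n : N) v, e (n • v) = n • e v) (h : HasSplit N V) : HasSplit N V' := by
  obtain ⟨d⟩ := h
  have he' : ∀ (n : N) v, e.symm (n • v) = n • e.symm v := by
    intro n v
    rw [Equiv.symm_apply_eq, he, Equiv.apply_symm_apply]
  exact ⟨{
    E := d.E
    act := d.act
    o := fun x => e (d.o x)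
    t := fun x => e (d.t x)
    D := fun u v => d.D (e.symm u) (e.symm v)
    free := d.free
    o_smul := fun n x => by rw [d.o_smul, he]
    t_smul := fun n x => by rw [d.t_smul, he]
    D_add := fun u v w => d.D_add _ _ _
    D_smul := fun n u v x => by rw [he', he', d.D_smul]
    bd := fun u v => by
      have h1 := congrArg (Finsupp.domCongr e : (V →₀ ℤ) ≃+ (V' →₀ ℤ)) (d.bd (e.symm u) (e.symm v))
      rw [map_sub] at h1
      have h2 : ∀ x (c : ℤ), (Finsupp.domCongr e : (V →₀ ℤ) ≃+ (V' →₀ ℤ)) (Finsupp.single x c) =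
          Finsupp.single (e x) c := by
        intro x c
        rw [Finsupp.domCongr_apply, Finsupp.equivMapDomain_single]
      rw [h2, h2, Equiv.apply_symm_apply, Equiv.apply_symm_apply] at h1
      rw [← h1, Finsupp.sum, Finsupp.sum, map_sum]
      refine Finset.sum_congr rfl fun x _ => ?_
      rw [map_sub, h2, h2] }⟩

theorem split_bot {N : Type} [Group N] (D : Subgroup N) (hD : D = ⊥) (h : HasSplit N (N ⧸ D)) :
    HasSplit N N := by
  subst hD
  refine hasSplit_congr (V := N ⧸ (⊥ : Subgroup N)) ?_ ?_ h
  · exact (QuotientGroup.quotientBot (G := N)).toEquiv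
  · intro n v
    obtain ⟨x, rfl⟩ := QuotientGroup.mk_surjective v
    rfl

theorem splitSelf : SplitSelf := by
  intro N _ _
  have h := splitOfBasis N (IsFreeGroup.Generators N) (IsFreeGroup.basis N) ∅
  refine split_bot _ ?_ h
  rw [Set.image_empty, Subgroup.closure_empty]

end

end Pool.Agent.TH73.J563
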