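import Pool.Agent.TH313.HI.Space3
import Pool.Agent.H812R2.AP.NoAP

/-!
# HI-B: Davie's approximate traces on the space `ZT`
-/

set_option autoImplicit false

open Set Filter Topology

namespace Pool.Agent.TH73.HB

open Pool.Agent.TH313.HI

noncomputable section

/-- the coordinates as continuous functionals -/
def coL (k g : ℕ) : WT →L[ℂ] ℂ :=
  LinearMap.mkContinuous
    { toFun := fun w => cw w k g
      map_add' := fun w w' => by rw [map_add]; rfl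
      map_smul' := fun c w => by rw [map_smul]; rfl } 1
    (fun w => by rw [one_mul]; exact norm_cw_le w k g)

lemma coL_apply (k g : ℕ) (w : WT) : coL k g w = cw w k g := rfl

lemma coL_inc (k g : ℕ) (z : ZT) : coL k g (inc z) = cz z k g := rfl

/-- the functional with coefficients `c` on level `k` -/
def fuL (c : ℕ → ℝ) (k : ℕ) : WT →L[ℂ] ℂ :=
  (1 / 2 ^ (k + 2) : ℂ) • ∑ g ∈ Finset.range (2 ^ (k + 2)), ((c g : ℝ) : ℂ) • coL k g

lemma fuL_apply (c : ℕ → ℝ) (k : ℕ) (w : WT) : fuL c k w =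
    (1 / 2 ^ (k + 2) : ℂ) * ∑ g ∈ Finset.range (2 ^ (k + 2)), ((c g : ℝ) : ℂ) * cw w k g := by
  unfold fuL
  rw [smul_apply, sum_apply, smul_eq_mul]
  congr 1

lemma norm_fuL_le (c : ℕ → ℝ) (hc : ∀ g, |c g| ≤ 1) (k : ℕ) (w : WT) : ‖fuL c k w‖ ≤ ‖w‖ := by
  rw [fuL_apply, norm_mul]
  have h1 : ‖(1 / 2 ^ (k + 2) : ℂ)‖ = 1 / 2 ^ (k + 2) := by simp
  rw [h1]
  have h2 : ‖∑ g ∈ Finset.range (2 ^ (k + 2)), ((c g : ℝ) : ℂ) * cw w k g‖ ≤ 2 ^ (k + 2) * ‖w‖ := by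
    refine (norm_sum_le _ _).trans ?_
    have h3 : ∑ g ∈ Finset.range (2 ^ (k + 2)), ‖((c g : ℝ) : ℂ) * cw w k g‖ ≤
        ∑ g ∈ Finset.range (2 ^ (k + 2)), ‖w‖ := by
      refine Finset.sum_le_sum fun g _ => ?_
      rw [norm_mul, Complex.norm_real]
      calc ‖c g‖ * ‖cw w k g‖ ≤ 1 * ‖w‖ :=
            mul_le_mul (hc g) (norm_cw_le w k g) (norm_nonneg _) zero_le_one
        _ = ‖w‖ := one_mul _
    refine h3.trans (le_of_eq ?_)
    rw [Finset.sum_const, Finset.card_range, nsmul_eq_mul]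
    push_cast
    ring
  calc (1 / 2 ^ (k + 2) : ℝ) * ‖∑ g ∈ Finset.range (2 ^ (k + 2)), ((c g : ℝ) : ℂ) * cw w k g‖
      ≤ (1 / 2 ^ (k + 2)) * (2 ^ (k + 2) * ‖w‖) := by gcongr
    _ = ‖w‖ := by field_simp

lemma aV_cw (k j : ℕ) (w : WT) : aV k j (cw w) = fuL (sys.sg k j) k w := (fuL_apply _ _ _).symm

lemma sg_gen (k j m i : ℕ) (hj : j < 2 ^ k) (hi : i < 2 ^ m) :
    fuL (sys.sg k j) k (gen m i) = if m = k ∧ i = j then 1 else 0 := by
  rw [fuL_apply, cw_gen]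
  exact sys.al_E (𝕜 := ℂ) k j m i hj hi

lemma tt_gen (k j m i : ℕ) (hj : j < 2 ^ (k + 1)) (hi : i < 2 ^ m) :
    fuL (sys.tt k j) k (gen m i) = if m = k + 1 ∧ i = j then 1 else 0 := by
  rw [fuL_apply, cw_gen]
  exact sys.al'_E (𝕜 := ℂ) k j m i hj hi

/-- the two forms of the biorthogonal functionals agree on `Z` -/
lemma sg_eq_tt (k j : ℕ) (hj : j < 2 ^ (k + 1)) {w : WT} (hw : w ∈ Z) :
    fuL (sys.sg (k + 1) j) (k + 1) w = fuL (sys.tt k j) k w := by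
  set D : WT →L[ℂ] ℂ := fuL (sys.sg (k + 1) j) (k + 1) - fuL (sys.tt k j) k with hD
  have h1 : Zf ≤ LinearMap.ker (D : WT →ₗ[ℂ] ℂ) := by
    unfold Zf
    rw [Submodule.span_le]
    rintro _ ⟨m, i, hi, rfl⟩
    show D (gen m i) = 0
    rw [hD, sub_apply, sg_gen _ _ _ _ hj hi, tt_gen _ _ _ _ hj hi, sub_self]
  have h2 : IsClosed ((LinearMap.ker (D : WT →ₗ[ℂ] ℂ) : Submodule ℂ WT) : Set WT) :=
    isClosed_eq D.continuous continuous_const
  have h3 : Z ≤ LinearMap.ker (D : WT →ₗ[ℂ] ℂ) := Submodule.topologicalClosure_minimal _ h1 h2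
  have h4 : D w = 0 := h3 hw
  rw [hD, sub_apply] at h4
  exact sub_eq_zero.1 h4

/-- the vectors of the compact set -/
def PhiZ (k g : ℕ) : ZT :=
  (1 / 2 ^ (k + 1) : ℂ) • (∑ j ∈ Finset.range (2 ^ (k + 1)), ((sys.tt k j g : ℝ) : ℂ) • gz (k + 1) j) -
    (1 / 2 ^ k : ℂ) • (∑ j ∈ Finset.range (2 ^ k), ((sys.sg k j g : ℝ) : ℂ) • gz k j)

lemma map_PhiZ (f : ZT →L[ℂ] ℂ) (k g : ℕ) : f (PhiZ k g) =
    (1 / 2 ^ (k + 1) : ℂ) * (∑ j ∈ Finset.range (2 ^ (k + 1)), ((sys.tt k j g : ℝ) : ℂ) * f (gz (k + 1) j)) -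
    (1 / 2 ^ k : ℂ) * (∑ j ∈ Finset.range (2 ^ k), ((sys.sg k j g : ℝ) : ℂ) * f (gz k j)) := by
  unfold PhiZ
  rw [map_sub, map_smul, map_smul, map_sum, map_sum]
  simp only [map_smul, smul_eq_mul]

lemma be_succ (k : ℕ) (T : ZT →L[ℂ] ZT) : be (k + 1) (inc.comp T) - be k (inc.comp T) =
    (1 / 2 ^ (k + 2) : ℂ) * ∑ g ∈ Finset.range (2 ^ (k + 2)), cz (T (PhiZ k g)) k g := by
  have h1 : ∀ g, cz (T (PhiZ k g)) k g =
      (1 / 2 ^ (k + 1) : ℂ) * (∑ j ∈ Finset.range (2 ^ (k + 1)),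
        ((sys.tt k j g : ℝ) : ℂ) * cz (T (gz (k + 1) j)) k g) -
      (1 / 2 ^ k : ℂ) * (∑ j ∈ Finset.range (2 ^ k),
        ((sys.sg k j g : ℝ) : ℂ) * cz (T (gz k j)) k g) := by
    intro g
    exact map_PhiZ (((coL k g).comp inc).comp T) k g
  have h2 : be (k + 1) (inc.comp T) = (1 / 2 ^ (k + 1) : ℂ) * ∑ j ∈ Finset.range (2 ^ (k + 1)),
      ((1 / 2 ^ (k + 2) : ℂ) * ∑ g ∈ Finset.range (2 ^ (k + 2)),
        ((sys.tt k j g : ℝ) : ℂ) * cz (T (gz (k + 1) j)) k g) := by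
    unfold be
    congr 1
    refine Finset.sum_congr rfl fun j hj => ?_
    rw [aV_cw, ContinuousLinearMap.comp_apply, sg_eq_tt k j (Finset.mem_range.1 hj) (inc_mem _),
      fuL_apply]
    rfl
  have h3 : be k (inc.comp T) = (1 / 2 ^ k : ℂ) * ∑ j ∈ Finset.range (2 ^ k),
      ((1 / 2 ^ (k + 2) : ℂ) * ∑ g ∈ Finset.range (2 ^ (k + 2)),
        ((sys.sg k j g : ℝ) : ℂ) * cz (T (gz k j)) k g) := rfl
  rw [h2, h3]
  simp only [h1]
  rw [Finset.sum_sub_distrib, mul_sub]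
  congr 1
  · rw [← Finset.mul_sum, ← Finset.mul_sum, mul_left_comm]
    congr 2
    rw [Finset.sum_comm]
  · rw [← Finset.mul_sum, ← Finset.mul_sum, mul_left_comm]
    congr 2
    rw [Finset.sum_comm]

open Pool.Agent.H812R2.AP in
lemma cc_nonneg (k : ℕ) : 0 ≤ Sys.cc k := by
  unfold Sys.cc
  positivity

open Pool.Agent.H812R2.AP in
lemma cz_PhiZ_bound (k g : ℕ) (hg : g < 2 ^ (k + 2)) (l h : ℕ) : ‖cz (PhiZ k g) l h‖ ≤ Sys.cc k := by
  have h1 : cz (PhiZ k g) l h =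
      (((1 / 2 ^ (k + 1) : ℝ) * (∑ j ∈ Finset.range (2 ^ (k + 1)),
        sys.tt k j g * Pool.Agent.BAPp.ee sys.sg sys.tt (k + 1) j (l, h)) -
      (1 / 2 ^ k : ℝ) * (∑ j ∈ Finset.range (2 ^ k),
        sys.sg k j g * Pool.Agent.BAPp.ee sys.sg sys.tt k j (l, h)) : ℝ) : ℂ) := by
    have h2 := map_PhiZ ((coL l h).comp inc) k g
    have h3 : ((coL l h).comp inc) (PhiZ k g) = cz (PhiZ k g) l h := rfl
    rw [h3] at h2
    rw [h2]
    push_cast
    congr 2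
    · refine Finset.sum_congr rfl fun j hj => ?_
      congr 1
      show cz (gz (k + 1) j) l h = _
      rw [cz_gz (Finset.mem_range.1 hj)]
      rfl
    · refine Finset.sum_congr rfl fun j hj => ?_
      congr 1
      show cz (gz k j) l h = _
      rw [cz_gz (Finset.mem_range.1 hj)]
      rfl
  have h2 := sys.Phi_apply ℂ k g (l, h)
  have h3 : ‖cz (PhiZ k g) l h‖ = ‖sys.val ℂ (sys.Phi ℂ k g) (l, h)‖ := by
    rw [h1, h2]
    rfl
  rw [h3]
  refine ((sys.val ℂ (sys.Phi ℂ k g)).norm_coe_le_norm _).trans ?_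
  rw [sys.norm_val ℂ]
  exact sys.norm_Phi_le ℂ k g hg

lemma PhiZ_lv (k g : ℕ) : OnLv (k - 1) (k + 1) (cz (PhiZ k g)) := by
  intro l h hl
  have h2 := map_PhiZ ((coL l h).comp inc) k g
  have h3 : ((coL l h).comp inc) (PhiZ k g) = cz (PhiZ k g) l h := rfl
  rw [h3] at h2
  rw [h2]
  have h4 : ∀ j ∈ Finset.range (2 ^ (k + 1)),
      ((sys.tt k j g : ℝ) : ℂ) * ((coL l h).comp inc) (gz (k + 1) j) = 0 := by
    intro j hj
    have : ((coL l h).comp inc) (gz (k + 1) j) = gf (k + 1) j l h := by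
      show cz (gz (k + 1) j) l h = _
      rw [cz_gz (Finset.mem_range.1 hj)]
    rw [this, gf_lv (k + 1) j l h (by omega), mul_zero]
  have h5 : ∀ j ∈ Finset.range (2 ^ k),
      ((sys.sg k j g : ℝ) : ℂ) * ((coL l h).comp inc) (gz k j) = 0 := by
    intro j hj
    have : ((coL l h).comp inc) (gz k j) = gf k j l h := by
      show cz (gz k j) l h = _
      rw [cz_gz (Finset.mem_range.1 hj)]
    rw [this, gf_lv k j l h (by omega), mul_zero]
  rw [Finset.sum_eq_zero h4, Finset.sum_eq_zero h5, mul_zero, mul_zero, sub_zero]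

open Pool.Agent.H812R2.AP in
lemma norm_PhiZ_le (k g : ℕ) (hg : g < 2 ^ (k + 2)) : ‖PhiZ k g‖ ≤ 3 * Sys.cc k := by
  refine ZT.norm_le (mul_nonneg (by norm_num) (cc_nonneg k)) ?_
  intro t hw a b
  refine (ev_le_sum (PhiZ_lv k g) (fun _ => Sys.cc k) (fun _ => cc_nonneg k)
    (fun l h _ => cz_PhiZ_bound k g hg l h) t hw a b).trans ?_
  rw [Finset.sum_const, nsmul_eq_mul]
  refine mul_le_mul_of_nonneg_right ?_ (cc_nonneg k)
  rw [Nat.card_Icc]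
  have : k + 1 + 1 - (k - 1) ≤ 3 := by omega
  exact_mod_cast this

open Pool.Agent.H812R2.AP in
lemma norm_be_succ (k : ℕ) (T : ZT →L[ℂ] ZT) :
    ‖be (k + 1) (inc.comp T) - be k (inc.comp T)‖ ≤ ‖T‖ * (3 * Sys.cc k) := by
  rw [be_succ, norm_mul]
  have h1 : ‖(1 / 2 ^ (k + 2) : ℂ)‖ = 1 / 2 ^ (k + 2) := by simp
  rw [h1]
  have h2 : ‖∑ g ∈ Finset.range (2 ^ (k + 2)), cz (T (PhiZ k g)) k g‖ ≤
      2 ^ (k + 2) * (‖T‖ * (3 * Sys.cc k)) := by
    refine (norm_sum_le _ _).trans ?_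
    have h3 : ∑ g ∈ Finset.range (2 ^ (k + 2)), ‖cz (T (PhiZ k g)) k g‖ ≤
        ∑ g ∈ Finset.range (2 ^ (k + 2)), ‖T‖ * (3 * Sys.cc k) := by
      refine Finset.sum_le_sum fun g hg => ?_
      calc ‖cz (T (PhiZ k g)) k g‖ ≤ ‖T (PhiZ k g)‖ := norm_cw_le (inc (T (PhiZ k g))) k g
        _ ≤ ‖T‖ * ‖PhiZ k g‖ := T.le_opNorm _
        _ ≤ ‖T‖ * (3 * Sys.cc k) :=
            mul_le_mul_of_nonneg_left (norm_PhiZ_le k g (Finset.mem_range.1 hg)) (norm_nonneg _)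
    refine h3.trans (le_of_eq ?_)
    rw [Finset.sum_const, Finset.card_range, nsmul_eq_mul]
    push_cast
    ring
  calc (1 / 2 ^ (k + 2) : ℝ) * ‖∑ g ∈ Finset.range (2 ^ (k + 2)), cz (T (PhiZ k g)) k g‖
      ≤ (1 / 2 ^ (k + 2)) * (2 ^ (k + 2) * (‖T‖ * (3 * Sys.cc k))) := by gcongr
    _ = ‖T‖ * (3 * Sys.cc k) := by field_simp

open Pool.Agent.H812R2.AP in
lemma summable_cc : Summable Sys.cc := by
  obtain ⟨C, hC⟩ := Sys.tendsto_cc.bddAbove_range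
  have h1 : ∀ k, Sys.cc k ≤ C * (3 / 4 : ℝ) ^ k := by
    intro k
    have h2 : (4 / 3 : ℝ) ^ k * Sys.cc k ≤ C := hC ⟨k, rfl⟩
    have h3 : (3 / 4 : ℝ) ^ k * (4 / 3 : ℝ) ^ k = 1 := by
      rw [← mul_pow]; norm_num
    calc Sys.cc k = (3 / 4 : ℝ) ^ k * ((4 / 3 : ℝ) ^ k * Sys.cc k) := by
          rw [← mul_assoc, h3, one_mul]
      _ ≤ (3 / 4 : ℝ) ^ k * C := mul_le_mul_of_nonneg_left h2 (by positivity)
      _ = C * (3 / 4 : ℝ) ^ k := mul_comm _ _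
  exact Summable.of_nonneg_of_le cc_nonneg h1
    ((summable_geometric_of_lt_one (by norm_num) (by norm_num)).mul_left C)

/-- the approximate traces of an operator which is nearly a multiple of the identity on the generators -/
theorem be_tendsto (T : ZT →L[ℂ] WT) (lam : ℂ)
    (h : ∀ ε > 0, ∃ K, ∀ k ≥ K, ∀ j < 2 ^ k, ‖T (gz k j) - lam • inc (gz k j)‖ ≤ ε) :
    Tendsto (fun k => be k T) atTop (𝓝 lam) := by
  rw [Metric.tendsto_atTop]
  intro ε hε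
  obtain ⟨K, hK⟩ := h (ε / 2) (by positivity)
  refine ⟨K, fun k hk => ?_⟩
  rw [dist_eq_norm]
  have h1 : ∀ j ∈ Finset.range (2 ^ k), ‖aV k j (cw (T (gz k j))) - lam‖ ≤ ε / 2 := by
    intro j hj
    have hj' := Finset.mem_range.1 hj
    have h2 : aV k j (cw (T (gz k j))) - lam =
        fuL (sys.sg k j) k (T (gz k j) - lam • inc (gz k j)) := by
      have h3 : inc (gz k j) = gen k j := by
        unfold gz
        rw [dif_pos hj']
        rfl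
      rw [aV_cw, map_sub, map_smul, h3, sg_gen k j k j hj' hj', if_pos ⟨rfl, rfl⟩, smul_eq_mul,
        mul_one]
    rw [h2]
    exact (norm_fuL_le _ (sys.sg_le k j) _ _).trans (hK k hk j hj')
  have h2 : be k T - lam =
      (1 / 2 ^ k : ℂ) * ∑ j ∈ Finset.range (2 ^ k), (aV k j (cw (T (gz k j))) - lam) := by
    unfold be
    rw [Finset.sum_sub_distrib, mul_sub, Finset.sum_const, Finset.card_range, nsmul_eq_mul,
      ← mul_assoc]
    have : (1 / 2 ^ k : ℂ) * ((2 ^ k : ℕ) : ℂ) = 1 := by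
      push_cast
      rw [one_div, inv_mul_cancel₀]
      exact pow_ne_zero _ two_ne_zero
    rw [this, one_mul]
  rw [h2, norm_mul]
  have h3 : ‖(1 / 2 ^ k : ℂ)‖ = 1 / 2 ^ k := by simp
  rw [h3]
  have h4 : ‖∑ j ∈ Finset.range (2 ^ k), (aV k j (cw (T (gz k j))) - lam)‖ ≤ 2 ^ k * (ε / 2) := by
    refine (norm_sum_le _ _).trans ((Finset.sum_le_sum h1).trans (le_of_eq ?_))
    rw [Finset.sum_const, Finset.card_range, nsmul_eq_mul]
    push_cast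
    ring
  have h5 : (1 / 2 ^ k : ℝ) * ‖∑ j ∈ Finset.range (2 ^ k), (aV k j (cw (T (gz k j))) - lam)‖ ≤
      ε / 2 := by
    calc (1 / 2 ^ k : ℝ) * ‖∑ j ∈ Finset.range (2 ^ k), (aV k j (cw (T (gz k j))) - lam)‖
        ≤ (1 / 2 ^ k) * (2 ^ k * (ε / 2)) := by gcongr
      _ = ε / 2 := by field_simp
  linarith

open Pool.Agent.H812R2.AP in
/-- Davie's approximate traces converge uniformly on bounded sets of operators. -/
theorem trace_bound : ∃ c : ℕ → ℝ, Tendsto c atTop (𝓝 0) ∧ ∀ (T : ZT →L[ℂ] ZT) (lam : ℂ),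
    (∀ ε > 0, ∃ K, ∀ k ≥ K, ∀ j < 2 ^ k, ‖T (gz k j) - lam • gz k j‖ ≤ ε) →
    ∀ k, ‖be k (inc.comp T) - lam‖ ≤ ‖T‖ * c k := by
  refine ⟨fun k => ∑' i, 3 * Sys.cc (i + k), ?_, ?_⟩
  · exact tendsto_sum_nat_add (fun k => 3 * Sys.cc k)
  · intro T lam hT k
    have h1 : Tendsto (fun k => be k (inc.comp T)) atTop (𝓝 lam) := by
      refine be_tendsto _ lam fun ε hε => ?_
      obtain ⟨K, hK⟩ := hT ε hε
      refine ⟨K, fun k hk j hj => ?_⟩
      have h2 : (inc.comp T) (gz k j) - lam • inc (gz k j) = inc (T (gz k j) - lam • gz k j) := by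
        rw [map_sub, map_smul]
        rfl
      rw [h2, norm_inc]
      exact hK k hk j hj
    have h2 := dist_le_tsum_of_dist_le_of_tendsto (f := fun k => be k (inc.comp T))
      (fun n => ‖T‖ * (3 * Sys.cc n)) (fun n => by
        rw [dist_comm, dist_eq_norm]
        exact norm_be_succ n T) ((summable_cc.mul_left 3).mul_left ‖T‖) h1 k
    rw [dist_eq_norm] at h2
    refine h2.trans (le_of_eq ?_)
    rw [tsum_mul_left]
    simp only [add_comm k]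

end

end Pool.Agent.TH73.HB
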