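import Pool.Agent.TH313.SC.Lad
set_option autoImplicit false
namespace Pool.Agent.TH73.SC3
open Set Filter Topology Pool.Agent.TH313.SC

lemma ex_a {I : Type} [LinearOrder I] (hc : ∀ a : I, (Set.Iio a).Countable) (α : I) : ∃ a : ℕ → I,
    ((∃ β, β < α) → ∀ i, a i < α) ∧ ∀ β, β < α → ∀ᶠ i in atTop, β ≤ a i := by
  by_cases h : ∃ β, β < α
  · obtain ⟨f, hf⟩ := (hc α).exists_eq_range (show (Set.Iio α).Nonempty from h)
    let a : ℕ → I := fun i => Nat.rec (f 0) (fun i x => max x (f (i + 1))) i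
    have hfl : ∀ i, f i < α := fun i => by
      have : f i ∈ Set.Iio α := by rw [hf]; exact mem_range_self i
      exact this
    have ha0 : a 0 = f 0 := rfl
    have has : ∀ i, a (i + 1) = max (a i) (f (i + 1)) := fun i => rfl
    have hmono : Monotone a := monotone_nat_of_le_succ fun i => by rw [has]; exact le_max_left _ _
    have hfa : ∀ i, f i ≤ a i := by
      intro i
      cases i with
      | zero => exact le_of_eq ha0.symm
      | succ i => rw [has]; exact le_max_right _ _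
    refine ⟨a, fun _ i => ?_, fun β hβ => ?_⟩
    · induction i with
      | zero => rw [ha0]; exact hfl 0
      | succ i ih => rw [has]; exact max_lt ih (hfl _)
    · have : β ∈ Set.range f := by rw [← hf]; exact hβ
      obtain ⟨j, rfl⟩ := this
      filter_upwards [eventually_ge_atTop j] with i hi
      exact (hfa j).trans (hmono hi)
  · exact ⟨fun _ => α, fun h' => absurd h' h, fun β hβ => absurd ⟨β, hβ⟩ h⟩

lemma ex_q : ∃ q : ℕ → ℝ, (∀ n, q n ∈ Icc (0 : ℝ) 1) ∧ ∀ x ∈ Ioo (0 : ℝ) 1, ∃ n : ℕ → ℕ, StrictMono n ∧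
    (∀ i, 0 < n i) ∧ Tendsto (fun i => q (n i)) atTop (𝓝 x) := by
  have : Nonempty (Icc (0:ℝ) 1) := ⟨⟨0, by simp⟩⟩
  let d := TopologicalSpace.denseSeq (Icc (0:ℝ) 1)
  have hd := TopologicalSpace.denseRange_denseSeq (Icc (0:ℝ) 1)
  refine ⟨fun m => (d (Nat.unpair m).1 : ℝ), fun n => (d (Nat.unpair n).1).2, ?_⟩
  intro x hx
  have h1 : ∀ i : ℕ, ∃ᶠ k in atTop, 0 < k ∧ |((d (Nat.unpair k).1 : ℝ)) - x| < 1 / ((i : ℝ) + 1) := by
    intro i
    obtain ⟨j, hj⟩ := hd.exists_dist_lt (⟨x, Ioo_subset_Icc_self hx⟩ : Icc (0:ℝ) 1)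
      (show (0:ℝ) < 1 / ((i : ℝ) + 1) by positivity)
    rw [frequently_atTop]
    intro a
    refine ⟨Nat.pair j (a + 1), ?_, ?_, ?_⟩
    · have := Nat.right_le_pair j (a + 1)
      omega
    · have := Nat.right_le_pair j (a + 1)
      omega
    · rw [Nat.unpair_pair]
      have h2 : dist x (d j : ℝ) < 1 / ((i : ℝ) + 1) := hj
      rw [dist_comm, Real.dist_eq] at h2
      exact h2
  obtain ⟨φ, hφ, hP⟩ := Filter.extraction_forall_of_frequently h1
  refine ⟨φ, hφ, fun i => (hP i).1, ?_⟩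
  rw [tendsto_iff_dist_tendsto_zero]
  refine squeeze_zero (fun _ => dist_nonneg) (fun i => ?_) (tendsto_one_div_add_atTop_nhds_zero_nat (𝕜 := ℝ))
  rw [Real.dist_eq]
  exact (hP i).2.le

theorem exists_lad : ∃ (I : Type) (_ : LinearOrder I) (_ : WellFoundedLT I) (_ : OrderBot I),
    (∀ a : I, (Set.Iio a).Countable) ∧ (∀ s : Set I, s.Countable → ∃ a, ∀ b ∈ s, b < a) ∧ Nonempty (Lad I) := by
  let I : Type := (Cardinal.aleph.{0} 1).ord.ToType
  have hcard : Cardinal.mk I = Cardinal.aleph 1 := by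
    rw [Cardinal.mk_toType, Cardinal.card_ord]
  have hlt : Cardinal.aleph0 < Cardinal.mk I := by
    rw [hcard]; exact Cardinal.aleph0_lt_aleph_one
  have hne : Nonempty I := by
    rw [← Cardinal.mk_ne_zero_iff]
    exact (lt_trans Cardinal.aleph0_pos hlt).ne'
  have hwf : WellFoundedLT I := inferInstance
  let bot : I := hwf.wf.min Set.univ (Set.univ_nonempty)
  have hbot : ∀ a, bot ≤ a := fun a => not_lt.1 (hwf.wf.not_lt_min Set.univ (Set.mem_univ a))
  have hc : ∀ a : I, (Set.Iio a).Countable := by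
    intro a
    have h1 : Cardinal.mk (Set.Iio a) < Cardinal.aleph 1 := Cardinal.mk_Iio_toType_ord_lt a
    rw [← Cardinal.le_aleph0_iff_set_countable]
    have h2 : Cardinal.aleph.{0} 1 = Order.succ Cardinal.aleph0 := Cardinal.succ_aleph0.symm
    exact Order.lt_succ_iff.1 (lt_of_lt_of_eq h1 h2)
  refine ⟨I, inferInstance, hwf, { bot := bot, bot_le := hbot }, hc, ?_, ?_⟩
  · intro s hs
    by_contra hcon
    push Not at hcon
    have h1 : (Set.univ : Set I) ⊆ ⋃ b ∈ s, Set.Iic b := by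
      intro a _
      obtain ⟨b, hb, hab⟩ := hcon a
      exact Set.mem_biUnion hb hab
    have h2 : (⋃ b ∈ s, Set.Iic b).Countable := by
      refine hs.biUnion fun b _ => ?_
      rw [← Set.Iio_insert]
      exact (hc b).insert b
    have h3 : (Set.univ : Set I).Countable := h2.mono h1
    have h4 : Countable I := Set.countable_univ_iff.1 h3
    exact absurd (Cardinal.mk_le_aleph0_iff.2 h4) (not_le.2 hlt)
  · have h1 : Cardinal.mk I ≤ Cardinal.mk (Ioo (0:ℝ) 1) := by
      rw [hcard, Cardinal.mk_Ioo_real one_pos]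
      exact Cardinal.aleph_one_le_continuum
    obtain ⟨c⟩ := (Cardinal.le_def _ _).1 h1
    obtain ⟨q, hq, hn⟩ := ex_q
    choose a ha1 ha2 using ex_a hc
    choose n hn1 hn2 hn3 using hn
    exact ⟨{
      c := fun α => c α
      c_inj := fun x y h => c.injective (Subtype.ext h)
      c_mem := fun α => (c α).2
      q := q
      q_mem := hq
      a := a
      n := fun α => n (c α) (c α).2
      a_lt := ha1
      cof := ha2
      n_mono := fun α => hn1 _ _
      n_pos := fun α => hn2 _ _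
      lim := fun α => hn3 _ _ }⟩

end Pool.Agent.TH73.SC3
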