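import Mathlib

set_option autoImplicit false

namespace Pool.Agent.TH73.J946

open Set Filter Topology MeasureTheory

theorem mono_of_local (K A P : ℝ → ℝ) (t₁ t₂ C : ℝ) (h12 : t₁ ≤ t₂) (hC : 0 ≤ C)
    (hA : ContinuousOn A (Icc t₁ t₂)) (hP : ContinuousOn P (Icc t₁ t₂))
    (hm : MonotoneOn P (Icc t₁ t₂))
    (hl : ∀ s t, t₁ ≤ s → s ≤ t → t ≤ t₂ →
      (t - s) * A t - C * ((t - s) + (P t - P s)) ^ 2 ≤ K t - K s) :
    (∫ r in t₁..t₂, A r) ≤ K t₂ - K t₁ := by
  have hPm : P t₁ ≤ P t₂ := hm (left_mem_Icc.2 h12) (right_mem_Icc.2 h12) h12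
  set D : ℝ := (t₂ - t₁) + 2 * C * ((t₂ - t₁) + (P t₂ - P t₁)) with hD
  have hD0 : 0 ≤ D := by
    have h1 : 0 ≤ t₂ - t₁ := by linarith
    have h2 : 0 ≤ P t₂ - P t₁ := by linarith
    positivity
  have key : ∀ ε : ℝ, 0 < ε → (∫ r in t₁..t₂, A r) ≤ K t₂ - K t₁ + ε * D := by
    intro ε hε
    have huA : UniformContinuousOn A (Icc t₁ t₂) :=
      isCompact_Icc.uniformContinuousOn_of_continuous hA
    have huP : UniformContinuousOn P (Icc t₁ t₂) :=
      isCompact_Icc.uniformContinuousOn_of_continuous hP
    rw [Metric.uniformContinuousOn_iff] at huA huP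
    obtain ⟨η₁, hη₁, hA1⟩ := huA ε hε
    obtain ⟨η₂, hη₂, hP1⟩ := huP ε hε
    set η := min (min η₁ η₂) ε with hη
    have hη0 : 0 < η := lt_min (lt_min hη₁ hη₂) hε
    obtain ⟨N, hN⟩ := exists_nat_gt ((t₂ - t₁) / η)
    have hN0 : (0 : ℝ) < N := lt_of_le_of_lt (div_nonneg (by linarith) hη0.le) hN
    set h : ℝ := (t₂ - t₁) / N with hh
    have hh0 : 0 ≤ h := div_nonneg (by linarith) hN0.le
    have hhη : h < η := by
      rw [hh, div_lt_iff₀ hN0]
      rw [div_lt_iff₀ hη0] at hN
      linarith
    have hhη₁ : h < η₁ := lt_of_lt_of_le hhη ((min_le_left _ _).trans (min_le_left _ _))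
    have hhη₂ : h < η₂ := lt_of_lt_of_le hhη ((min_le_left _ _).trans (min_le_right _ _))
    have hhε : h < ε := lt_of_lt_of_le hhη (min_le_right _ _)
    set x : ℕ → ℝ := fun i => t₁ + i * h with hx
    have hx0 : x 0 = t₁ := by simp [hx]
    have hxN : x N = t₂ := by
      simp only [hx, hh]
      field_simp
      ring
    have hxs : ∀ i, x (i + 1) = x i + h := by
      intro i
      simp only [hx]
      push_cast
      ring
    have hxm : Monotone x := by
      apply monotone_nat_of_le_succ
      intro i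
      rw [hxs]
      linarith
    have hxmem : ∀ i, i ≤ N → x i ∈ Icc t₁ t₂ := by
      intro i hi
      constructor
      · rw [← hx0]; exact hxm (Nat.zero_le i)
      · rw [← hxN]; exact hxm hi
    have hint : ∀ u v, u ∈ Icc t₁ t₂ → v ∈ Icc t₁ t₂ → u ≤ v →
        IntervalIntegrable A volume u v := by
      intro u v hu hv huv
      apply ContinuousOn.intervalIntegrable
      apply hA.mono
      rw [uIcc_of_le huv]
      exact Icc_subset_Icc hu.1 hv.2
    have hstep : ∀ i ∈ Finset.range N, (∫ r in x i..x (i + 1), A r) ≤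
        (K (x (i + 1)) - K (x i)) + (ε * (x (i + 1) - x i) +
          2 * ε * C * ((x (i + 1) - x i) + (P (x (i + 1)) - P (x i)))) := by
      intro i hi
      have hi' : i < N := Finset.mem_range.1 hi
      have hm1 := hxmem i hi'.le
      have hm2 := hxmem (i + 1) hi'
      have hle : x i ≤ x (i + 1) := hxm (Nat.le_succ i)
      have hb : (∫ r in x i..x (i + 1), A r) ≤ ∫ r in x i..x (i + 1), (A (x (i + 1)) + ε) := by
        apply intervalIntegral.integral_mono_on hle (hint _ _ hm1 hm2 hle)
          intervalIntegrable_const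
        intro r hr
        have hr1 : r ∈ Icc t₁ t₂ := ⟨hm1.1.trans hr.1, hr.2.trans hm2.2⟩
        have hd : dist r (x (i + 1)) < η₁ := by
          rw [Real.dist_eq, abs_of_nonpos (by linarith [hr.2])]
          have := hxs i
          linarith [hr.1]
        have := hA1 r hr1 _ hm2 hd
        rw [Real.dist_eq] at this
        have := (abs_lt.1 this).2
        linarith
      rw [intervalIntegral.integral_const, smul_eq_mul] at hb
      have hl' := hl (x i) (x (i + 1)) hm1.1 hle hm2.2
      have hPle : P (x i) ≤ P (x (i + 1)) := hm hm1 hm2 hle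
      have hPd : P (x (i + 1)) - P (x i) < ε := by
        have hd : dist (x (i + 1)) (x i) < η₂ := by
          rw [Real.dist_eq, abs_of_nonneg (by linarith)]
          have := hxs i
          linarith
        have := hP1 _ hm2 _ hm1 hd
        rw [Real.dist_eq] at this
        exact (abs_lt.1 this).2
      set d : ℝ := (x (i + 1) - x i) + (P (x (i + 1)) - P (x i)) with hd
      have hd0 : 0 ≤ d := by linarith
      have hd2 : d ≤ 2 * ε := by
        have := hxs i
        linarith
      have hq : C * d ^ 2 ≤ 2 * ε * C * d := by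
        have h1 : d * d ≤ 2 * ε * d := mul_le_mul_of_nonneg_right hd2 hd0
        have h2 := mul_le_mul_of_nonneg_left h1 hC
        calc C * d ^ 2 = C * (d * d) := by ring
          _ ≤ C * (2 * ε * d) := h2
          _ = 2 * ε * C * d := by ring
      have he : (x (i + 1) - x i) * (A (x (i + 1)) + ε) =
          (x (i + 1) - x i) * A (x (i + 1)) + ε * (x (i + 1) - x i) := by ring
      rw [he] at hb
      linarith
    have hsum := Finset.sum_le_sum hstep
    rw [intervalIntegral.sum_integral_adjacent_intervals (f := A) (μ := volume) (a := x) (n := N)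
      (fun k hk => hint _ _ (hxmem k hk.le) (hxmem (k + 1) hk) (hxm (Nat.le_succ k)))] at hsum
    rw [Finset.sum_add_distrib, Finset.sum_add_distrib, ← Finset.mul_sum, ← Finset.mul_sum,
      Finset.sum_add_distrib, Finset.sum_range_sub x, Finset.sum_range_sub (fun i => K (x i)),
      Finset.sum_range_sub (fun i => P (x i)), hx0, hxN] at hsum
    have he : ε * D = ε * (t₂ - t₁) + 2 * ε * C * (t₂ - t₁ + (P t₂ - P t₁)) := by
      rw [hD]; ring
    rw [he]
    linarith
  apply le_of_forall_pos_le_add
  intro ε hε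
  have h1 := key (ε / (D + 1)) (by positivity)
  have h2 : ε / (D + 1) * D ≤ ε := by
    rw [div_mul_eq_mul_div, div_le_iff₀ (by linarith)]
    nlinarith
  linarith

end Pool.Agent.TH73.J946
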