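import Pool.Agent.TH605.AP.WF

/-! Matrices of words (job 2838). -/

set_option autoImplicit false

open Set Topology Filter

open Pool.Agent.TH605.AP

namespace Pool.Agent.TH73.J2838

lemma cj_smul (g : Matrix.GeneralLinearGroup (Fin 2) ℂ) (z : OnePoint ℂ) :
    cj (g • z) = cjG g • cj z :=
  OnePoint.map_smul (starRingEnd ℂ) g z

lemma cj_cj (z : OnePoint ℂ) : cj (cj z) = z := by
  unfold cj
  induction z using OnePoint.rec with
  | infty => rfl
  | coe z => simp

lemma cjG_smul (g : Matrix.GeneralLinearGroup (Fin 2) ℂ) (z : OnePoint ℂ) :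
    cjG g • z = cj (g • cj z) := by
  rw [cj_smul, cj_cj]

lemma mW_cons (i : Fin 4) (w : List (Fin 4)) (z : OnePoint ℂ) :
    mW (i :: w) • z = s i (mW w • cj z) := by
  show (M i * cjG (mW w)) • z = M i • cj (mW w • cj z)
  rw [mul_smul, cjG_smul]

lemma mW_both (w : List (Fin 4)) : (Even w.length → ∀ z : OnePoint ℂ, mW w • z = sg w z) ∧
    (Odd w.length → ∀ z : OnePoint ℂ, mW w • z = sg w (cj z)) := by
  induction w with
  | nil =>
    refine ⟨fun _ z => one_smul _ z, fun h => ?_⟩
    simp at h
  | cons i w ih =>
    constructor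
    · intro h z
      have h1 : Odd w.length := by
        rw [List.length_cons, Nat.even_add_one] at h
        exact Nat.not_even_iff_odd.mp h
      rw [mW_cons, ih.2 h1, cj_cj]
      rfl
    · intro h z
      have h1 : Even w.length := by
        rw [List.length_cons, Nat.odd_add_one] at h
        exact Nat.not_odd_iff_even.mp h
      rw [mW_cons, ih.1 h1]
      rfl

lemma even_gen (t : Option (List (Fin 4))) :
    Even (pw t ++ (mw t).dropLast.reverse).length := by
  cases t with
  | none => exact ⟨2, rfl⟩
  | some v =>
    refine ⟨v.length + 1, ?_⟩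
    simp only [pw, mw, List.length_append, List.length_reverse, List.dropLast_concat,
      List.length_cons, List.length_nil]
    ring

lemma gen_sm (t : Option (List (Fin 4))) (z : OnePoint ℂ) :
    gen t • z = sg (pw t ++ (mw t).dropLast.reverse) z :=
  (mW_both _).1 (even_gen t) z

theorem mf (B : BF) (W : WF) : MF := by
  refine ⟨fun w hw z => (mW_both w).1 hw z, fun w hw z => (mW_both w).2 hw z, gen_sm, ?_⟩
  intro t z
  rw [inv_smul_eq_iff, gen_sm]
  have h := W.sg_reverse (pw t ++ (mw t).dropLast.reverse).reverse z
  rw [List.reverse_reverse] at h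
  have h2 : (pw t ++ (mw t).dropLast.reverse).reverse = (mw t).dropLast ++ (pw t).reverse := by
    rw [List.reverse_append, List.reverse_reverse]
  rw [← h2]
  exact h.symm

end Pool.Agent.TH73.J2838
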