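import Pool.Agent.TH331.RZ.Defs
import Pool.Agent.Helper88.SE.P_conv

/-!
# The limit of the minimal Riesz energy in the cube
-/

set_option autoImplicit false

open MeasureTheory Set Filter Topology
open scoped ENNReal Real FourierTransform

namespace Pool.Agent.TH73.J238

open Pool.Agent.Helper88.SE Pool.Agent.TH331.RZ

theorem summable_int (d : ℕ) (s : ℝ) (hs : (d : ℝ) < s) :
    Summable fun v : Fin d → ℤ => ‖v‖ ^ (-s) := by
  set b := Pi.basisFun ℝ (Fin d) with hb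
  set L : Submodule ℤ (Fin d → ℝ) := Submodule.span ℤ (Set.range b) with hL
  have hrank : Module.finrank ℤ L = d := by
    rw [ZLattice.rank ℝ L]; simp
  have h1 : Summable fun z : L => ‖z‖ ^ (-s) :=
    ZLattice.summable_norm_rpow L (-s) (by rw [hrank]; linarith)
  have hmem : ∀ v : Fin d → ℤ, (fun i => (v i : ℝ)) ∈ L := by
    intro v
    have : (fun i => (v i : ℝ)) = ∑ i, v i • b i := by
      ext j
      simp [hb, Pi.basisFun_apply, Finset.sum_apply, Pi.single_apply]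
    rw [this]
    exact Submodule.sum_mem _ fun i _ => Submodule.smul_mem _ _ (Submodule.subset_span ⟨i, rfl⟩)
  have h2 := h1.comp_injective (i := fun v : Fin d → ℤ => (⟨fun i => (v i : ℝ), hmem v⟩ : L)) (by
    intro v w h
    have h3 := congrArg Subtype.val h
    ext i
    have := congrFun h3 i
    simpa using this)
  refine h2.congr fun v => ?_
  have h4 : ‖(fun i => (v i : ℝ))‖ = ‖v‖ := by
    apply le_antisymm
    · refine (pi_norm_le_iff_of_nonneg (norm_nonneg _)).mpr fun i => ?_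
      have := norm_le_pi_norm v i
      rwa [← Int.norm_cast_real] at this
    · refine (pi_norm_le_iff_of_nonneg (norm_nonneg _)).mpr fun i => ?_
      have := norm_le_pi_norm (fun i => (v i : ℝ)) i
      rwa [Int.norm_cast_real] at this
  simp only [Function.comp]
  rw [← h4]
  rfl

/-- Euclidean distance in coordinates. -/
noncomputable def ds {d : ℕ} (u v : Fin d → ℝ) : ℝ := Real.sqrt (∑ k, (u k - v k) ^ 2)

theorem ds_nonneg {d : ℕ} (u v : Fin d → ℝ) : 0 ≤ ds u v := Real.sqrt_nonneg _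

theorem le_ds {d : ℕ} (u v : Fin d → ℝ) (k : Fin d) : |u k - v k| ≤ ds u v := by
  refine Real.abs_le_sqrt ?_
  exact Finset.single_le_sum (f := fun k => (u k - v k) ^ 2) (fun _ _ => sq_nonneg _)
    (Finset.mem_univ k)

theorem ds_scale {d : ℕ} (c : ℝ) (hc : 0 ≤ c) (u v u' v' : Fin d → ℝ)
    (h : ∀ k, u' k - v' k = c * (u k - v k)) : ds u' v' = c * ds u v := by
  unfold ds
  have : ∑ k, (u' k - v' k) ^ 2 = c ^ 2 * ∑ k, (u k - v k) ^ 2 := by
    rw [Finset.mul_sum]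
    exact Finset.sum_congr rfl fun k _ => by rw [h k]; ring
  rw [this, Real.sqrt_mul (sq_nonneg _), Real.sqrt_sq hc]

/-- Energy kernel, zero on the diagonal. -/
noncomputable def GG {ι : Type} [DecidableEq ι] {d : ℕ} (s : ℝ) (x : ι → Fin d → ℝ) (a b : ι) : ℝ :=
  if b = a then 0 else ds (x a) (x b) ^ (-s)

theorem GG_nonneg {ι : Type} [DecidableEq ι] {d : ℕ} (s : ℝ) (x : ι → Fin d → ℝ) (a b : ι) :
    0 ≤ GG s x a b := by
  unfold GG
  split_ifs
  · exact le_rfl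
  · exact Real.rpow_nonneg (ds_nonneg _ _) _

theorem EnC_eq (d : ℕ) (s : ℝ) {N : ℕ} (x : Fin N → Fin d → ℝ) :
    EnC d s x = ∑ i, ∑ j, GG s x i j := by
  unfold EnC
  refine Finset.sum_congr rfl fun i _ => ?_
  rw [← Finset.sum_erase_add Finset.univ _ (Finset.mem_univ i)]
  have h1 : GG s x i i = 0 := by simp [GG]
  rw [h1, add_zero]
  refine Finset.sum_congr rfl fun j hj => ?_
  have : j ≠ i := Finset.ne_of_mem_erase hj
  simp [GG, this, ds]

theorem EnC_nonneg (d : ℕ) (s : ℝ) {N : ℕ} (x : Fin N → Fin d → ℝ) : 0 ≤ EnC d s x := by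
  rw [EnC_eq]
  exact Finset.sum_nonneg fun i _ => Finset.sum_nonneg fun j _ => GG_nonneg _ _ _ _

theorem eC_bdd (d : ℕ) (s : ℝ) (N : ℕ) : BddBelow (Set.range
    fun x : {x : Fin N → Fin d → ℝ // Function.Injective x ∧ ∀ i k, 0 ≤ x i k ∧ x i k ≤ 1} =>
    EnC d s x.1) := by
  refine ⟨0, ?_⟩
  rintro _ ⟨x, rfl⟩
  exact EnC_nonneg d s x.1

theorem eC_nonneg (d : ℕ) (s : ℝ) (N : ℕ) : 0 ≤ eC d s N :=
  Real.iInf_nonneg fun x => EnC_nonneg d s x.1

/-- Comparison with an arbitrary finite configuration. -/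
theorem eC_le {ι : Type} [Fintype ι] [DecidableEq ι] (d : ℕ) (s : ℝ) (N : ℕ)
    (hN : N ≤ Fintype.card ι) (x : ι → Fin d → ℝ) (hx : Function.Injective x)
    (hx1 : ∀ i k, 0 ≤ x i k ∧ x i k ≤ 1) : eC d s N ≤ ∑ i, ∑ j, GG s x i j := by
  obtain ⟨e⟩ : Nonempty (Fin N ↪ ι) := by
    rw [Function.Embedding.nonempty_iff_card_le, Fintype.card_fin]; exact hN
  have h1 : eC d s N ≤ EnC d s (fun i => x (e i)) :=
    ciInf_le (eC_bdd d s N) ⟨fun i => x (e i), hx.comp e.injective, fun i k => hx1 _ _⟩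
  refine h1.trans ?_
  rw [EnC_eq]
  have h2 : ∀ i j, GG s (fun i => x (e i)) i j = GG s x (e i) (e j) := by
    intro i j
    unfold GG
    by_cases h : j = i
    · simp [h]
    · simp [h, e.injective.eq_iff]
  have hmap : ∀ h : ι → ℝ, (∀ a, 0 ≤ h a) → ∑ i, h (e i) ≤ ∑ a, h a := by
    intro h hh
    rw [← Finset.sum_map Finset.univ e h]
    exact Finset.sum_le_univ_sum_of_nonneg hh
  calc ∑ i, ∑ j, GG s (fun i => x (e i)) i j = ∑ i, ∑ j, GG s x (e i) (e j) := by simp_rw [h2]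
    _ ≤ ∑ i, ∑ b, GG s x (e i) b :=
        Finset.sum_le_sum fun i _ => hmap _ fun b => GG_nonneg _ _ _ _
    _ ≤ ∑ a, ∑ b, GG s x a b :=
        hmap (fun a => ∑ b, GG s x a b) fun a => Finset.sum_nonneg fun b _ => GG_nonneg _ _ _ _

/-- The subdivision estimate. -/
theorem subdiv (d : ℕ) (s : ℝ) (hs : (d : ℝ) < s) (hs0 : 0 < s) (γ : ℝ) (h0 : 0 < γ) (h1 : γ < 1) :
    ∃ C : ℝ, 0 ≤ C ∧ ∀ (N n m : ℕ), 0 < m → n ≤ m ^ d * N → ∀ x : Fin N → Fin d → ℝ,
      Function.Injective x → (∀ i k, 0 ≤ x i k ∧ x i k ≤ 1) →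
      eC d s n ≤ (m : ℝ) ^ d * (m : ℝ) ^ s * (γ ^ (-s) * EnC d s x + C * (N : ℝ) ^ 2) := by
  classical
  set S := ∑' v : Fin d → ℤ, ‖v‖ ^ (-s) with hS
  have hsum := summable_int d s hs
  have hS0 : 0 ≤ S := tsum_nonneg fun v => by positivity
  refine ⟨(1 - γ) ^ (-s) * S, mul_nonneg (Real.rpow_nonneg (by linarith) _) hS0, ?_⟩
  intro N n m hm hn x hx hx1
  have hm' : (0 : ℝ) < m := by exact_mod_cast hm
  -- the configuration
  set z : (Fin d → Fin m) × Fin N → Fin d → ℝ := fun p k =>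
    (((p.1 k : ℕ) : ℝ) + (1 - γ) / 2 + γ * x p.2 k) / m with hz
  have hzdiff : ∀ p q k, z p k - z q k =
      ((((p.1 k : ℕ) : ℝ) - ((q.1 k : ℕ) : ℝ)) + γ * (x p.2 k - x q.2 k)) / m := by
    intro p q k
    simp only [hz]
    ring
  have hxd : ∀ i j k, |x i k - x j k| ≤ 1 := by
    intro i j k
    rw [abs_le]
    constructor <;> linarith [(hx1 i k).1, (hx1 i k).2, (hx1 j k).1, (hx1 j k).2]
  -- separation
  set V : (Fin d → Fin m) → (Fin d → Fin m) → Fin d → ℤ := fun l l' k =>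
    ((l k : ℕ) : ℤ) - ((l' k : ℕ) : ℤ) with hV
  have hsep : ∀ p q, (1 - γ) / m * ‖V p.1 q.1‖ ≤ ds (z p) (z q) := by
    intro p q
    have h2 : ‖V p.1 q.1‖ ≤ ds (z p) (z q) * (m / (1 - γ)) := by
      refine (pi_norm_le_iff_of_nonneg (mul_nonneg (ds_nonneg _ _)
        (div_nonneg hm'.le (by linarith)))).mpr fun k => ?_
      have h3 := le_ds (z p) (z q) k
      rw [hzdiff, abs_div, abs_of_pos hm', div_le_iff₀ hm'] at h3
      rw [← mul_div_assoc, le_div_iff₀ (by linarith)]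
      refine le_trans ?_ h3
      have h4 : ‖V p.1 q.1 k‖ = |(((p.1 k : ℕ) : ℝ) - ((q.1 k : ℕ) : ℝ))| := by
        rw [← Int.norm_cast_real, Real.norm_eq_abs]
        simp [hV]
      rw [h4]
      by_cases hkk : (p.1 k : ℕ) = (q.1 k : ℕ)
      · rw [hkk]; simp; positivity
      · have h5 : (1 : ℝ) ≤ |(((p.1 k : ℕ) : ℝ) - ((q.1 k : ℕ) : ℝ))| := by
          have h6 : (1 : ℤ) ≤ |((p.1 k : ℕ) : ℤ) - ((q.1 k : ℕ) : ℤ)| := by
            apply Int.one_le_abs
            intro h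
            apply hkk
            have := sub_eq_zero.mp h
            exact_mod_cast this
          exact_mod_cast h6
        have h7 : |γ * (x p.2 k - x q.2 k)| ≤ γ := by
          rw [abs_mul, abs_of_pos h0]
          have := hxd p.2 q.2 k
          nlinarith
        have h8 := abs_sub_abs_le_abs_sub (((p.1 k : ℕ) : ℝ) - ((q.1 k : ℕ) : ℝ))
          (-(γ * (x p.2 k - x q.2 k)))
        rw [abs_neg, sub_neg_eq_add] at h8
        nlinarith
    rw [← mul_div_assoc, le_div_iff₀ (by linarith)] at h2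
    rw [div_mul_eq_mul_div, div_le_iff₀ hm']
    linarith
  have hVne : ∀ l l', l ≠ l' → 0 < ‖V l l'‖ := by
    intro l l' h
    rw [norm_pos_iff]
    intro h2
    apply h
    ext k
    have := congrFun h2 k
    simp only [hV, Pi.zero_apply] at this
    omega
  have hsame : ∀ l i j, ds (z (l, i)) (z (l, j)) = γ / m * ds (x i) (x j) := by
    intro l i j
    refine ds_scale _ (by positivity) _ _ _ _ fun k => ?_
    rw [hzdiff]
    simp only
    ring
  have hinj : Function.Injective z := by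
    intro p q h
    have h2 : ds (z p) (z q) = 0 := by
      rw [h]; simp [ds]
    have h3 : p.1 = q.1 := by
      by_contra hne
      have h4 := hsep p q
      rw [h2] at h4
      have h5 := hVne _ _ hne
      have h6 : 0 < (1 - γ) / m * ‖V p.1 q.1‖ := by
        have : 0 < 1 - γ := by linarith
        positivity
      linarith
    have h4 : p.2 = q.2 := by
      apply hx
      ext k
      have h5 := hzdiff p q k
      rw [h, sub_self, h3, sub_self, zero_add] at h5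
      have h6 : γ * (x p.2 k - x q.2 k) = 0 := by
        rcases div_eq_zero_iff.mp h5.symm with h | h
        · exact h
        · exact absurd h hm'.ne'
      rcases mul_eq_zero.mp h6 with h | h
      · exact absurd h h0.ne'
      · linarith
    exact Prod.ext h3 h4
  have hz1 : ∀ p k, 0 ≤ z p k ∧ z p k ≤ 1 := by
    intro p k
    have h2 := hx1 p.2 k
    have h3 : ((p.1 k : ℕ) : ℝ) + 1 ≤ m := by exact_mod_cast (p.1 k).2
    have h4 : (0 : ℝ) ≤ ((p.1 k : ℕ) : ℝ) := Nat.cast_nonneg _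
    simp only [hz]
    constructor
    · apply div_nonneg _ hm'.le
      nlinarith [h2.1]
    · rw [div_le_one hm']
      nlinarith [h2.2]
  have hcard : n ≤ Fintype.card ((Fin d → Fin m) × Fin N) := by
    rw [Fintype.card_prod, Fintype.card_fun, Fintype.card_fin, Fintype.card_fin, Fintype.card_fin]
    exact hn
  refine (eC_le d s n hcard z hinj hz1).trans ?_
  -- pointwise bound
  have hG : ∀ l i l' j, GG s z (l, i) (l', j) ≤
      (if l' = l then (γ / m) ^ (-s) * GG s x i j else 0) +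
        ((1 - γ) / m) ^ (-s) * ‖V l l'‖ ^ (-s) := by
    intro l i l' j
    have h1γ : 0 < 1 - γ := by linarith
    by_cases hl : l' = l
    · subst hl
      rw [if_pos rfl]
      have h2 : 0 ≤ ((1 - γ) / m) ^ (-s) * ‖V l' l'‖ ^ (-s) := by positivity
      have h3 : GG s z (l', i) (l', j) = (γ / m) ^ (-s) * GG s x i j := by
        unfold GG
        by_cases hj : j = i
        · simp [hj]
        · have : ((l', j) : (Fin d → Fin m) × Fin N) ≠ (l', i) := by
            intro h; exact hj (Prod.ext_iff.mp h).2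
          rw [if_neg this, if_neg hj, hsame, Real.mul_rpow (by positivity) (ds_nonneg _ _)]
      linarith
    · rw [if_neg hl, zero_add]
      have : ((l', j) : (Fin d → Fin m) × Fin N) ≠ (l, i) := by
        intro h; exact hl (Prod.ext_iff.mp h).1
      unfold GG
      rw [if_neg this, ← Real.mul_rpow (by positivity) (norm_nonneg _)]
      have h5 := hVne l l' (Ne.symm hl)
      exact Real.rpow_le_rpow_of_nonpos (by positivity) (hsep (l, i) (l', j)) (by linarith)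
  have hrow : ∀ l : Fin d → Fin m, ∑ l', ‖V l l'‖ ^ (-s) ≤ S := by
    intro l
    have hVinj : Function.Injective (V l) := by
      intro l' l'' h
      ext k
      have := congrFun h k
      simp only [hV] at this
      omega
    have h2 := hsum.comp_injective hVinj
    have h3 : ∑ l', ‖V l l'‖ ^ (-s) = ∑' l', ‖V l l'‖ ^ (-s) := (tsum_fintype _).symm
    rw [h3]
    exact tsum_comp_le_tsum_of_inj hsum (fun v => by positivity) hVinj
  calc ∑ p, ∑ q, GG s z p q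
      = ∑ l, ∑ i, ∑ l', ∑ j, GG s z (l, i) (l', j) := by
        rw [Fintype.sum_prod_type]
        refine Finset.sum_congr rfl fun l _ => Finset.sum_congr rfl fun i _ => ?_
        rw [Fintype.sum_prod_type]
    _ ≤ ∑ l, ∑ i, ∑ l', ∑ j, ((if l' = l then (γ / m) ^ (-s) * GG s x i j else 0) +
        ((1 - γ) / m) ^ (-s) * ‖V l l'‖ ^ (-s)) :=
        Finset.sum_le_sum fun l _ => Finset.sum_le_sum fun i _ => Finset.sum_le_sum fun l' _ =>
          Finset.sum_le_sum fun j _ => hG l i l' j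
    _ = ∑ l : Fin d → Fin m, ∑ i, ((∑ j, (γ / m) ^ (-s) * GG s x i j) +
        N * (((1 - γ) / m) ^ (-s) * ∑ l', ‖V l l'‖ ^ (-s))) := by
        refine Finset.sum_congr rfl fun l _ => Finset.sum_congr rfl fun i _ => ?_
        simp_rw [Finset.sum_add_distrib]
        congr 1
        · rw [Finset.sum_comm]
          refine Finset.sum_congr rfl fun j _ => ?_
          simp
        · simp only [Finset.sum_const, Finset.card_univ, Fintype.card_fin, nsmul_eq_mul]
          rw [← Finset.mul_sum, ← Finset.mul_sum]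
    _ ≤ ∑ l : Fin d → Fin m, ∑ i : Fin N, ((∑ j, (γ / m) ^ (-s) * GG s x i j) +
        N * (((1 - γ) / m) ^ (-s) * S)) := by
        have : 0 < 1 - γ := by linarith
        gcongr with l _ i _
        exact hrow l
    _ = (m : ℝ) ^ d * ((γ / m) ^ (-s) * EnC d s x + N ^ 2 * (((1 - γ) / m) ^ (-s) * S)) := by
        rw [Finset.sum_const, Finset.card_univ, Fintype.card_fun, Fintype.card_fin,
          Fintype.card_fin, nsmul_eq_mul, Finset.sum_add_distrib, Finset.sum_const,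
          Finset.card_univ, Fintype.card_fin, nsmul_eq_mul, EnC_eq]
        simp_rw [← Finset.mul_sum]
        push_cast
        ring
    _ = _ := by
        have e1 : (γ / m) ^ (-s) = (m : ℝ) ^ s * γ ^ (-s) := by
          rw [Real.div_rpow h0.le hm'.le, Real.rpow_neg hm'.le, div_inv_eq_mul, mul_comm]
        have e2 : ((1 - γ) / m) ^ (-s) = (m : ℝ) ^ s * (1 - γ) ^ (-s) := by
          rw [Real.div_rpow (by linarith) hm'.le, Real.rpow_neg hm'.le, div_inv_eq_mul, mul_comm]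
        rw [e1, e2]
        ring

theorem nonempty_conf (d : ℕ) (hd : 1 ≤ d) (N : ℕ) :
    Nonempty {x : Fin N → Fin d → ℝ // Function.Injective x ∧ ∀ i k, 0 ≤ x i k ∧ x i k ≤ 1} := by
  refine ⟨⟨fun i _ => (i : ℕ) / (N : ℝ), ?_, ?_⟩⟩
  · intro i j h
    have h1 := congrFun h ⟨0, hd⟩
    have hN : (0 : ℝ) < N := by
      have := i.pos
      exact_mod_cast this
    simp only at h1
    rw [div_left_inj' hN.ne'] at h1
    ext
    exact_mod_cast h1
  · intro i k
    have hN : (0 : ℝ) < N := by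
      have := i.pos
      exact_mod_cast this
    constructor
    · positivity
    · rw [div_le_one hN]
      exact_mod_cast i.2.le

theorem subdiv' (d : ℕ) (hd : 1 ≤ d) (s : ℝ) (hs : (d : ℝ) < s) (hs0 : 0 < s) (γ : ℝ) (h0 : 0 < γ)
    (h1 : γ < 1) :
    ∃ C : ℝ, 0 ≤ C ∧ ∀ (N n m : ℕ), 0 < m → n ≤ m ^ d * N →
      eC d s n ≤ (m : ℝ) ^ d * (m : ℝ) ^ s * (γ ^ (-s) * eC d s N + C * (N : ℝ) ^ 2) := by
  obtain ⟨C, hC, h⟩ := subdiv d s hs hs0 γ h0 h1
  refine ⟨C, hC, fun N n m hm hn => ?_⟩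
  have hm' : (0 : ℝ) < m := by exact_mod_cast hm
  set A : ℝ := (m : ℝ) ^ d * (m : ℝ) ^ s with hA
  have hA0 : 0 < A := by positivity
  have hg : 0 < γ ^ (-s) := by positivity
  by_contra hcon
  push Not at hcon
  have h2 : eC d s N < (eC d s n / A - C * (N : ℝ) ^ 2) / γ ^ (-s) := by
    rw [lt_div_iff₀ hg, lt_sub_iff_add_lt, lt_div_iff₀ hA0]
    linarith
  have hne := nonempty_conf d hd N
  obtain ⟨x, hx⟩ := exists_lt_of_ciInf_lt h2
  have h3 := h N n m hm hn x.1 x.2.1 x.2.2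
  rw [lt_div_iff₀ hg, lt_sub_iff_add_lt, lt_div_iff₀ hA0] at hx
  linarith

/-- the normalised energies -/
noncomputable def aa (d : ℕ) (s : ℝ) (N : ℕ) : ℝ := (N : ℝ) ^ (-1 - s / (d : ℝ)) * eC d s N

theorem aa_nonneg (d : ℕ) (s : ℝ) (N : ℕ) : 0 ≤ aa d s N :=
  mul_nonneg (by positivity) (eC_nonneg d s N)

theorem limsup_est (d : ℕ) (hd : 1 ≤ d) (s : ℝ) (hs : (d : ℝ) < s) (γ : ℝ) (h0 : 0 < γ)
    (h1 : γ < 1) :
    ∃ C : ℝ, 0 ≤ C ∧ ∀ N : ℕ, 1 ≤ N → ∀ δ : ℝ, 0 < δ → ∀ᶠ n : ℕ in atTop,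
      aa d s n ≤ γ ^ (-s) * aa d s N + C * (N : ℝ) ^ (1 - s / (d : ℝ)) + δ := by
  have hd' : (0 : ℝ) < d := by exact_mod_cast hd
  have hs0 : 0 < s := lt_trans hd' hs
  obtain ⟨C, hC, h⟩ := subdiv' d hd s hs hs0 γ h0 h1
  refine ⟨C, hC, fun N hN δ hδ => ?_⟩
  have hN' : (0 : ℝ) < N := by exact_mod_cast hN
  set K : ℝ := γ ^ (-s) * aa d s N + C * (N : ℝ) ^ (1 - s / (d : ℝ)) with hK
  have hK0 : 0 ≤ K := add_nonneg (mul_nonneg (by positivity) (aa_nonneg _ _ _)) (by positivity)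
  -- the scale
  set t : ℕ → ℝ := fun n => ((n : ℝ) / N) ^ ((1 : ℝ) / d) with ht
  have ht_top : Tendsto t atTop atTop := by
    refine (tendsto_rpow_atTop (by positivity)).comp ?_
    exact tendsto_natCast_atTop_atTop.atTop_div_const hN'
  have hlim : Tendsto (fun n => (1 + 1 / t n) ^ ((d : ℝ) + s) * K) atTop (𝓝 K) := by
    have h2 : Tendsto (fun n => 1 + 1 / t n) atTop (𝓝 (1 + 0)) :=
      tendsto_const_nhds.add (tendsto_const_nhds.div_atTop ht_top)
    rw [add_zero] at h2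
    have h3 : Tendsto (fun n => (1 + 1 / t n) ^ ((d : ℝ) + s)) atTop (𝓝 (1 ^ ((d : ℝ) + s))) :=
      h2.rpow_const (Or.inl one_ne_zero)
    rw [Real.one_rpow] at h3
    simpa using h3.mul_const K
  have hev : ∀ᶠ n in atTop, (1 + 1 / t n) ^ ((d : ℝ) + s) * K < K + δ :=
    hlim.eventually (gt_mem_nhds (by linarith))
  filter_upwards [hev, Filter.eventually_ge_atTop 1] with n hn hn1
  refine le_trans ?_ hn.le
  have hn' : (0 : ℝ) < n := by exact_mod_cast hn1
  have htn : 0 < t n := by simp only [ht]; positivity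
  set m : ℕ := ⌈t n⌉₊ with hm
  have hm0 : 0 < m := Nat.ceil_pos.mpr htn
  have hmt : t n ≤ m := Nat.le_ceil _
  have hmt1 : (m : ℝ) ≤ t n + 1 := (Nat.ceil_lt_add_one htn.le).le
  have htd : t n ^ d = (n : ℝ) / N := by
    simp only [ht]
    rw [← Real.rpow_natCast, ← Real.rpow_mul (by positivity), one_div, inv_mul_cancel₀ hd'.ne',
      Real.rpow_one]
  have hnm : n ≤ m ^ d * N := by
    have h2 : (n : ℝ) / N ≤ (m : ℝ) ^ d := by
      rw [← htd]; exact pow_le_pow_left₀ htn.le hmt d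
    rw [div_le_iff₀ hN'] at h2
    exact_mod_cast h2
  have h2 := h N n m hm0 hnm
  have hm' : (0 : ℝ) < m := by exact_mod_cast hm0
  have h3 : (m : ℝ) ^ d * (m : ℝ) ^ s ≤ (t n + 1) ^ ((d : ℝ) + s) := by
    rw [← Real.rpow_natCast, ← Real.rpow_add hm']
    exact Real.rpow_le_rpow hm'.le hmt1 (by positivity)
  have h4 : (t n + 1) ^ ((d : ℝ) + s) = (1 + 1 / t n) ^ ((d : ℝ) + s) *
      ((n : ℝ) ^ (1 + s / (d : ℝ)) * (N : ℝ) ^ (-1 - s / (d : ℝ))) := by
    have h5 : t n + 1 = (1 + 1 / t n) * t n := by field_simp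
    have h6 : t n ^ ((d : ℝ) + s) = (n : ℝ) ^ (1 + s / (d : ℝ)) * (N : ℝ) ^ (-1 - s / (d : ℝ)) := by
      simp only [ht]
      rw [← Real.rpow_mul (by positivity)]
      have h7 : 1 / (d : ℝ) * ((d : ℝ) + s) = 1 + s / (d : ℝ) := by field_simp
      rw [h7, Real.div_rpow hn'.le hN'.le, show -1 - s / (d : ℝ) = -(1 + s / (d : ℝ)) by ring,
        Real.rpow_neg hN'.le, div_eq_mul_inv]
    rw [← h6]
    conv_lhs => rw [h5]
    rw [Real.mul_rpow (by positivity) htn.le]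
  have hE0 : 0 ≤ γ ^ (-s) * eC d s N + C * (N : ℝ) ^ 2 :=
    add_nonneg (mul_nonneg (by positivity) (eC_nonneg _ _ _)) (by positivity)
  have h8 : (n : ℝ) ^ (-1 - s / (d : ℝ)) * (n : ℝ) ^ (1 + s / (d : ℝ)) = 1 := by
    rw [← Real.rpow_add hn']; ring_nf; exact Real.rpow_zero _
  have h9 : (N : ℝ) ^ (-1 - s / (d : ℝ)) * (N : ℝ) ^ 2 = (N : ℝ) ^ (1 - s / (d : ℝ)) := by
    rw [← Real.rpow_natCast (N : ℝ) 2, ← Real.rpow_add hN']
    congr 1
    push_cast
    ring
  calc aa d s n = (n : ℝ) ^ (-1 - s / (d : ℝ)) * eC d s n := rfl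
    _ ≤ (n : ℝ) ^ (-1 - s / (d : ℝ)) * ((t n + 1) ^ ((d : ℝ) + s) *
        (γ ^ (-s) * eC d s N + C * (N : ℝ) ^ 2)) := by
        refine mul_le_mul_of_nonneg_left (h2.trans ?_) (by positivity)
        exact mul_le_mul_of_nonneg_right h3 hE0
    _ = ((n : ℝ) ^ (-1 - s / (d : ℝ)) * (n : ℝ) ^ (1 + s / (d : ℝ))) *
        ((1 + 1 / t n) ^ ((d : ℝ) + s) *
          (γ ^ (-s) * ((N : ℝ) ^ (-1 - s / (d : ℝ)) * eC d s N) +
            C * ((N : ℝ) ^ (-1 - s / (d : ℝ)) * (N : ℝ) ^ 2))) := by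
        rw [h4]; ring
    _ = (1 + 1 / t n) ^ ((d : ℝ) + s) * K := by
        rw [h8, h9, one_mul, hK]; rfl

theorem cube_limit (d : ℕ) (hd : 1 ≤ d) (s : ℝ) (hs : (d:ℝ) < s) :
    ∃ C : ℝ, Tendsto (fun N : ℕ => (N:ℝ) ^ (-1 - s / (d:ℝ)) * eC d s N) atTop (𝓝 C) := by
  have hd' : (0 : ℝ) < d := by exact_mod_cast hd
  have hs0 : 0 < s := lt_trans hd' hs
  -- an upper bound
  obtain ⟨C1, hC1, hb⟩ := limsup_est d hd s hs (1 / 2) (by norm_num) (by norm_num)
  set hi : ℝ := (1 / 2 : ℝ) ^ (-s) * aa d s 1 + C1 * ((1 : ℕ) : ℝ) ^ (1 - s / (d : ℝ)) + 1 with hhi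
  have hup : ∀ᶠ n : ℕ in atTop, aa d s n ≤ hi := hb 1 le_rfl 1 one_pos
  have hhi1 : 1 ≤ hi := by
    have : 0 ≤ (1 / 2 : ℝ) ^ (-s) * aa d s 1 := mul_nonneg (by positivity) (aa_nonneg _ _ _)
    have h2 : 0 ≤ C1 * ((1 : ℕ) : ℝ) ^ (1 - s / (d : ℝ)) := by positivity
    linarith
  refine conv (fun N => aa d s N) 0 hi (Filter.Eventually.of_forall fun n => aa_nonneg d s n)
    hup fun ε hε => ?_
  -- choose `γ`
  have hcont : Tendsto (fun γ : ℝ => (γ ^ (-s) - 1) * hi) (𝓝 1) (𝓝 0) := by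
    have h2 : Tendsto (fun γ : ℝ => γ ^ (-s)) (𝓝 1) (𝓝 (1 ^ (-s))) :=
      (Real.continuousAt_rpow_const 1 (-s) (Or.inl one_ne_zero))
    rw [Real.one_rpow] at h2
    have h3 := (h2.sub_const 1).mul_const hi
    simpa using h3
  have hev : ∀ᶠ γ : ℝ in 𝓝 1, (γ ^ (-s) - 1) * hi < ε / 3 :=
    hcont.eventually (gt_mem_nhds (by linarith))
  obtain ⟨γ, hγ, hγ0, hγ1⟩ : ∃ γ : ℝ, (γ ^ (-s) - 1) * hi < ε / 3 ∧ 0 < γ ∧ γ < 1 := by
    have h2 : ∀ᶠ γ : ℝ in 𝓝[<] 1, (γ ^ (-s) - 1) * hi < ε / 3 := nhdsWithin_le_nhds hev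
    have h3 : ∀ᶠ γ : ℝ in 𝓝[<] 1, 0 < γ :=
      nhdsWithin_le_nhds (lt_mem_nhds (by norm_num : (0 : ℝ) < 1))
    have h4 : ∀ᶠ γ : ℝ in 𝓝[<] 1, γ < 1 := self_mem_nhdsWithin
    exact (h2.and (h3.and h4)).exists
  obtain ⟨C, hC, hest⟩ := limsup_est d hd s hs γ hγ0 hγ1
  have hsm : Tendsto (fun N : ℕ => C * (N : ℝ) ^ (1 - s / (d : ℝ))) atTop (𝓝 0) := by
    have h2 : Tendsto (fun x : ℝ => x ^ (-(s / (d : ℝ) - 1))) atTop (𝓝 0) := by
      refine tendsto_rpow_neg_atTop ?_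
      rw [sub_pos, one_lt_div hd']; exact hs
    have h3 := (h2.comp tendsto_natCast_atTop_atTop).const_mul C
    rw [mul_zero] at h3
    refine h3.congr fun N => ?_
    simp only [Function.comp]
    congr 2
    ring
  have hsm' : ∀ᶠ N : ℕ in atTop, C * (N : ℝ) ^ (1 - s / (d : ℝ)) < ε / 3 :=
    hsm.eventually (gt_mem_nhds (by linarith))
  obtain ⟨N₀, hN₀⟩ := Filter.eventually_atTop.mp (hsm'.and (hup.and (Filter.eventually_ge_atTop 1)))
  refine ⟨N₀, fun N hN => ?_⟩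
  obtain ⟨hN1, hN2, hN3⟩ := hN₀ N hN
  filter_upwards [hest N hN3 (ε / 3) (by linarith)] with n hn
  refine hn.trans ?_
  have hg1 : 1 ≤ γ ^ (-s) := Real.one_le_rpow_of_pos_of_le_one_of_nonpos hγ0 hγ1.le (by linarith)
  have h5 : (γ ^ (-s) - 1) * aa d s N ≤ (γ ^ (-s) - 1) * hi :=
    mul_le_mul_of_nonneg_left hN2 (by linarith)
  nlinarith

end Pool.Agent.TH73.J238
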