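import Pool.Agent.TH451.BK.Defs

set_option autoImplicit false

namespace Pool.Agent.TH73.BK

open Finset Pool.Agent.TH451.BK
open scoped Classical

variable {V : Type} [Fintype V]

/-- greedy extension of a proper colouring -/
theorem greedy (G : SimpleGraph V) (k : ℕ) (W : Finset V) (ψ : V → Fin k) (hψ : PropOn G W ψ)
    (R : Finset V) :
    Disjoint W R →
    (∀ u ∈ R, ((nb G u ∩ W).image ψ).card + (nb G u ∩ R).card < k) →
    ∃ φ : V → Fin k, (∀ x ∈ W, φ x = ψ x) ∧ PropOn G (W ∪ R) φ := by
  induction R using Finset.induction_on with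
  | empty => intro _ _; exact ⟨ψ, fun x _ => rfl, by simpa using hψ⟩
  | insert a R ha ih =>
    intro hd h
    have hd' : Disjoint W R := hd.mono_right (Finset.subset_insert a R)
    have haW : a ∉ W := fun h' => (Finset.disjoint_left.mp hd h') (Finset.mem_insert_self a R)
    obtain ⟨φ, hφ, hφp⟩ := ih hd' (by
      intro u hu
      have h1 := h u (Finset.mem_insert_of_mem hu)
      have h2 : (nb G u ∩ R).card ≤ (nb G u ∩ insert a R).card :=
        Finset.card_le_card (Finset.inter_subset_inter_left (Finset.subset_insert a R))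
      omega)
    have hcard : ((nb G a ∩ (W ∪ R)).image φ).card < k := by
      have h1 := h a (Finset.mem_insert_self a R)
      have h2 : (nb G a ∩ R).card ≤ (nb G a ∩ insert a R).card :=
        Finset.card_le_card (Finset.inter_subset_inter_left (Finset.subset_insert a R))
      have h3 : (nb G a ∩ (W ∪ R)).image φ ⊆
          (nb G a ∩ W).image ψ ∪ (nb G a ∩ R).image φ := by
        intro c hc
        obtain ⟨x, hx, rfl⟩ := Finset.mem_image.mp hc
        rw [Finset.mem_inter, Finset.mem_union] at hx
        rcases hx with ⟨hx1, hx2 | hx2⟩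
        · rw [hφ x hx2]
          exact Finset.mem_union_left _ (Finset.mem_image_of_mem _ (Finset.mem_inter.mpr ⟨hx1, hx2⟩))
        · exact Finset.mem_union_right _ (Finset.mem_image_of_mem _ (Finset.mem_inter.mpr ⟨hx1, hx2⟩))
      have h4 := (Finset.card_le_card h3).trans (Finset.card_union_le _ _)
      have h5 : ((nb G a ∩ R).image φ).card ≤ (nb G a ∩ R).card := Finset.card_image_le
      omega
    obtain ⟨c, hc⟩ : ∃ c : Fin k, c ∉ (nb G a ∩ (W ∪ R)).image φ := by
      by_contra hcon
      push Not at hcon
      have : (univ : Finset (Fin k)) ⊆ (nb G a ∩ (W ∪ R)).image φ := fun x _ => hcon x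
      have := Finset.card_le_card this
      rw [Finset.card_univ, Fintype.card_fin] at this
      omega
    refine ⟨Function.update φ a c, ?_, ?_⟩
    · intro x hx
      have : x ≠ a := fun h' => haW (h' ▸ hx)
      rw [Function.update_of_ne this]
      exact hφ x hx
    · intro x hx y hy hxy
      have hne : x ≠ y := hxy.ne
      have key : ∀ z ∈ W ∪ insert a R, z ≠ a → z ∈ W ∪ R := by
        intro z hz hza
        rw [Finset.mem_union] at hz ⊢
        rcases hz with hz | hz
        · exact Or.inl hz
        · rcases Finset.mem_insert.mp hz with h' | h'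
          · exact absurd h' hza
          · exact Or.inr h'
      by_cases hxa : x = a
      · subst hxa
        have hya : y ≠ x := fun h' => hne h'.symm
        rw [Function.update_self, Function.update_of_ne hya]
        intro hcy
        apply hc
        rw [hcy]
        apply Finset.mem_image_of_mem
        rw [Finset.mem_inter]
        exact ⟨by simp [nb, hxy], key y hy hya⟩
      · by_cases hya : y = a
        · subst hya
          rw [Function.update_self, Function.update_of_ne hxa]
          intro hcy
          apply hc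
          rw [← hcy]
          apply Finset.mem_image_of_mem
          rw [Finset.mem_inter]
          exact ⟨by simp [nb, hxy.symm], key x hx hxa⟩
        · rw [Function.update_of_ne hxa, Function.update_of_ne hya]
          exact hφp x (key x hx hxa) y (key y hy hya) hxy

/-- two repeated colours save two -/
theorem image_card_two {A : Type} {K : Type} [DecidableEq K] (s : Finset A) (f : A → K)
    {x₁ y₁ x₂ y₂ : A} (hx₁ : x₁ ∈ s) (hy₁ : y₁ ∈ s) (hx₂ : x₂ ∈ s) (hy₂ : y₂ ∈ s)
    (h1 : x₁ ≠ y₁) (h2 : x₂ ≠ y₂) (e1 : f x₁ = f y₁) (e2 : f x₂ = f y₂) (hne : f x₁ ≠ f x₂) :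
    (s.image f).card + 2 ≤ s.card := by
  have hx : x₁ ≠ x₂ := fun h => hne (h ▸ rfl)
  have hsub : s.image f ⊆ (s \ {x₁, x₂}).image f := by
    intro c hc
    obtain ⟨z, hz, rfl⟩ := Finset.mem_image.mp hc
    by_cases h : z = x₁
    · subst h
      rw [e1]
      apply Finset.mem_image_of_mem
      rw [Finset.mem_sdiff, Finset.mem_insert, Finset.mem_singleton]
      refine ⟨hy₁, ?_⟩
      rintro (h | h)
      · exact h1 h.symm
      · exact hne (by rw [e1, h])
    · by_cases h' : z = x₂
      · subst h'
        rw [e2]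
        apply Finset.mem_image_of_mem
        rw [Finset.mem_sdiff, Finset.mem_insert, Finset.mem_singleton]
        refine ⟨hy₂, ?_⟩
        rintro (h | h)
        · exact hne (by rw [e2, h])
        · exact h2 h.symm
      · apply Finset.mem_image_of_mem
        rw [Finset.mem_sdiff, Finset.mem_insert, Finset.mem_singleton]
        exact ⟨hz, by rintro (h'' | h''); exacts [h h'', h' h'']⟩
  have hcard : (s \ {x₁, x₂}).card + 2 = s.card := by
    have hss : ({x₁, x₂} : Finset A) ⊆ s := by
      intro z hz
      rw [Finset.mem_insert, Finset.mem_singleton] at hz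
      rcases hz with rfl | rfl <;> assumption
    have := Finset.card_sdiff_add_card_eq_card hss
    rw [Finset.card_pair hx] at this
    exact this
  have := (Finset.card_le_card hsub).trans Finset.card_image_le
  omega

theorem mem_nb (G : SimpleGraph V) (v w : V) : w ∈ nb G v ↔ G.Adj v w := by
  simp [nb]

/-- one clique -/
theorem clique_step (G : SimpleGraph V) (k t B : ℕ) (hG : MinCex k G)
    (col : V → Option (Fin k)) (C : Finset V) (hCl : G.IsClique (C : Set V))
    (hbig : k + 1 ≤ C.card + t)
    (W : Finset V) (hWC : W ∩ C = C.filter (fun v => col v ≠ none))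
    (hWcd : ∀ v, col v ≠ none → v ∈ W)
    (ψ : V → Fin k) (hψ : PropOn G W ψ) (hψc : ∀ x c, col x = some c → ψ x = c)
    {m : ℕ} {u y y' : Fin m → V} (hSp : Spread G C u y y')
    (hB : ∀ c : Fin k, (univ.filter (fun j : Fin m =>
        col (y j) = some c ∨ col (y' j) = some c)).card ≤ B)
    (hJ : B * (t + 1) + 1 < (univ.filter (fun j : Fin m =>
        col (u j) = none ∧ col (y j) ≠ none ∧ col (y' j) ≠ none)).card) :
    ∃ φ : V → Fin k, (∀ x c, col x = some c → φ x = c) ∧ PropOn G (W ∪ C) φ := by
  set Cu := C.filter (fun v => col v = none) with hCu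
  have hCcard : (C.filter (fun v => col v ≠ none)).card + Cu.card = C.card := by
    rw [hCu, add_comm]
    exact Finset.card_filter_add_card_filter_not (s := C) (p := fun v => col v = none)
  have hClt : C.card < k := hG.clq C hCl
  -- lists
  let L : {x // x ∈ Cu} → Finset (Fin k) := fun x => univ \ ((nb G x.1 ∩ W).image ψ)
  have hHall : ∃ f : {x // x ∈ Cu} → Fin k, Function.Injective f ∧ ∀ x, f x ∈ L x := by
    rw [← Finset.all_card_le_biUnion_card_iff_exists_injective]
    by_contra hcon
    push Not at hcon
    obtain ⟨D, hD⟩ := hcon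
    have hDne : D.Nonempty := by
      rw [Finset.nonempty_iff_ne_empty]
      rintro rfl
      simp at hD
    set Kp : Finset (Fin k) := univ \ ((C.filter (fun v => col v ≠ none)).image ψ) with hKp
    set Gam := Kp \ D.biUnion L with hGam
    have hKpc : k ≤ Kp.card + (C.filter (fun v => col v ≠ none)).card := by
      have h1 := Finset.card_sdiff_add_card_eq_card
        (Finset.subset_univ ((C.filter (fun v => col v ≠ none)).image ψ))
      rw [Finset.card_univ, Fintype.card_fin] at h1
      have h2 : ((C.filter (fun v => col v ≠ none)).image ψ).card ≤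
        (C.filter (fun v => col v ≠ none)).card := Finset.card_image_le
      rw [hKp]
      omega
    have hGc : Kp.card ≤ Gam.card + (D.biUnion L).card := by
      have := Finset.card_le_card_sdiff_add_card (s := Kp) (t := D.biUnion L)
      rw [hGam]; omega
    have hDle : D.card ≤ Cu.card := by
      have := Finset.card_le_univ D
      rwa [Fintype.card_coe] at this
    -- neighbours outside the clique
    have hout : ∀ v ∈ C, (nb G v \ C).card + C.card ≤ k + 2 := by
      intro v hv
      have h1 : C.erase v ⊆ nb G v ∩ C := by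
        intro w hw
        rw [Finset.mem_erase] at hw
        rw [Finset.mem_inter, mem_nb]
        exact ⟨hCl hv hw.2 (Ne.symm hw.1), hw.2⟩
      have h2 := Finset.card_le_card h1
      rw [Finset.card_erase_of_mem hv] at h2
      have h3 := Finset.card_sdiff_add_card_inter (nb G v) C
      have h4 := hG.deg v
      have h5 : 0 < C.card := Finset.card_pos.mpr ⟨v, hv⟩
      omega
    have hGsub : ∀ x ∈ D, Gam ⊆ ((nb G x.1 \ C) ∩ W).image ψ := by
      intro x hx c hc
      rw [hGam, Finset.mem_sdiff, Finset.mem_biUnion] at hc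
      obtain ⟨hc1, hc2⟩ := hc
      have hcL : c ∉ L x := fun h => hc2 ⟨x, hx, h⟩
      have hc3 : c ∈ (nb G x.1 ∩ W).image ψ := by
        by_contra h
        exact hcL (by simp only [L]; rw [Finset.mem_sdiff]; exact ⟨Finset.mem_univ _, h⟩)
      obtain ⟨z, hz, hzc⟩ := Finset.mem_image.mp hc3
      rw [Finset.mem_inter] at hz
      rw [Finset.mem_image]
      refine ⟨z, ?_, hzc⟩
      rw [Finset.mem_inter, Finset.mem_sdiff]
      refine ⟨⟨hz.1, ?_⟩, hz.2⟩
      intro hzC
      rw [hKp, Finset.mem_sdiff] at hc1
      apply hc1.2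
      rw [← hzc]
      apply Finset.mem_image_of_mem
      rw [← hWC, Finset.mem_inter]
      exact ⟨hz.2, hzC⟩
    have hCuC : ∀ x : {x // x ∈ Cu}, x.1 ∈ C := fun x => (Finset.mem_filter.mp x.2).1
    obtain ⟨x0, hx0⟩ := hDne
    have hG1 : Gam.card + C.card ≤ k + 2 := by
      have h1 := (Finset.card_le_card (hGsub x0 hx0)).trans Finset.card_image_le
      have h2 : ((nb G x0.1 \ C) ∩ W).card ≤ (nb G x0.1 \ C).card :=
        Finset.card_le_card Finset.inter_subset_left
      have h3 := hout x0.1 (hCuC x0)
      omega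
    have hG2 : k + 1 ≤ Gam.card + C.card := by omega
    have hG3 : Cu.card ≤ D.card + 1 := by omega
    -- the triples
    set J := univ.filter (fun j : Fin m =>
        col (u j) = none ∧ col (y j) ≠ none ∧ col (y' j) ≠ none) with hJdef
    set D' : Finset V := D.image Subtype.val with hD'
    have hD'card : D'.card = D.card := by
      rw [hD']
      exact Finset.card_image_of_injective _ Subtype.val_injective
    have hD'sub : D' ⊆ Cu := by
      intro v hv
      rw [hD', Finset.mem_image] at hv
      obtain ⟨x, _, rfl⟩ := hv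
      exact x.2
    have hJ1 : (J.filter (fun j => u j ∉ D')).card ≤ 1 := by
      have h1 : (J.filter (fun j => u j ∉ D')).image u ⊆ Cu \ D' := by
        intro v hv
        obtain ⟨j, hj, rfl⟩ := Finset.mem_image.mp hv
        rw [Finset.mem_filter, hJdef, Finset.mem_filter] at hj
        rw [Finset.mem_sdiff, hCu, Finset.mem_filter]
        exact ⟨⟨hSp.uC j, hj.1.2.1⟩, hj.2⟩
      have h2 := Finset.card_le_card h1
      rw [Finset.card_image_of_injective _ hSp.injU] at h2
      have h3 := Finset.card_sdiff_add_card_eq_card hD'sub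
      omega
    have hJ2 : (J.filter (fun j => u j ∈ D')).card ≤ B * Gam.card := by
      have h1 : J.filter (fun j => u j ∈ D') ⊆ Gam.biUnion (fun c => univ.filter (fun j : Fin m =>
          col (y j) = some c ∨ col (y' j) = some c)) := by
        intro j hj
        rw [Finset.mem_filter, hJdef, Finset.mem_filter] at hj
        obtain ⟨⟨_, hj1, hj2, hj3⟩, hj4⟩ := hj
        rw [hD', Finset.mem_image] at hj4
        obtain ⟨x, hx, hxu⟩ := hj4
        obtain ⟨a, ha⟩ := Option.ne_none_iff_exists'.mp hj2
        obtain ⟨b, hb⟩ := Option.ne_none_iff_exists'.mp hj3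
        have hψa := hψc _ _ ha
        have hψb := hψc _ _ hb
        rw [Finset.mem_biUnion]
        by_contra hcon
        push Not at hcon
        have haG : a ∉ Gam := fun h => hcon a h (by
          rw [Finset.mem_filter]; exact ⟨Finset.mem_univ _, Or.inl ha⟩)
        have hbG : b ∉ Gam := fun h => hcon b h (by
          rw [Finset.mem_filter]; exact ⟨Finset.mem_univ _, Or.inr hb⟩)
        have h2 : Gam ⊆ ((nb G x.1 \ C) \ {y j, y' j}).image ψ := by
          intro c hc
          obtain ⟨z, hz, hzc⟩ := Finset.mem_image.mp (hGsub x hx hc)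
          rw [Finset.mem_image]
          refine ⟨z, ?_, hzc⟩
          rw [Finset.mem_sdiff]
          refine ⟨(Finset.mem_inter.mp hz).1, ?_⟩
          rw [Finset.mem_insert, Finset.mem_singleton]
          rintro (h | h)
          · apply haG; rw [← hψa, ← h, hzc]; exact hc
          · apply hbG; rw [← hψb, ← h, hzc]; exact hc
        have h3 := (Finset.card_le_card h2).trans Finset.card_image_le
        have h4 : ({y j, y' j} : Finset V) ⊆ nb G x.1 \ C := by
          intro z hz
          rw [Finset.mem_insert, Finset.mem_singleton] at hz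
          rw [Finset.mem_sdiff, mem_nb, hxu]
          rcases hz with rfl | rfl
          · exact ⟨hSp.adj j, hSp.yC j⟩
          · exact ⟨hSp.adj' j, hSp.yC' j⟩
        have h5 := Finset.card_sdiff_add_card_eq_card h4
        rw [Finset.card_pair (hSp.yy j j)] at h5
        have h6 := hout x.1 (hCuC x)
        omega
      refine (Finset.card_le_card h1).trans (Finset.card_biUnion_le.trans ?_)
      calc ∑ c ∈ Gam, (univ.filter (fun j : Fin m =>
          col (y j) = some c ∨ col (y' j) = some c)).card ≤ ∑ _c ∈ Gam, B :=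
            Finset.sum_le_sum (fun c _ => hB c)
        _ = B * Gam.card := by rw [Finset.sum_const, smul_eq_mul, mul_comm]
    have hJ3 : J.card = (J.filter (fun j => u j ∈ D')).card +
        (J.filter (fun j => u j ∉ D')).card :=
      (Finset.card_filter_add_card_filter_not (s := J) (p := fun j => u j ∈ D')).symm
    have hG4 : Gam.card ≤ t + 1 := by omega
    have hG5 : B * Gam.card ≤ B * (t + 1) := Nat.mul_le_mul_left B hG4
    omega
  obtain ⟨f, hfinj, hfL⟩ := hHall
  have hfL' : ∀ (x : {x // x ∈ Cu}), ∀ z ∈ W, G.Adj x.1 z → f x ≠ ψ z := by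
    intro x z hz hxz heq
    have := hfL x
    simp only [L] at this
    rw [Finset.mem_sdiff] at this
    apply this.2
    rw [heq]
    apply Finset.mem_image_of_mem
    rw [Finset.mem_inter, mem_nb]
    exact ⟨hxz, hz⟩
  have hW : ∀ z ∈ W ∪ C, z ∉ Cu → z ∈ W := by
    intro z hz hzu
    rcases Finset.mem_union.mp hz with h | h
    · exact h
    · apply hWcd
      intro h'
      exact hzu (by rw [hCu, Finset.mem_filter]; exact ⟨h, h'⟩)
  refine ⟨fun x => if h : x ∈ Cu then f ⟨x, h⟩ else ψ x, ?_, ?_⟩
  · intro x c hxc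
    have : x ∉ Cu := by
      rw [hCu, Finset.mem_filter]
      rintro ⟨_, h⟩
      rw [h] at hxc
      exact absurd hxc (by simp)
    simp only [this, dite_false]
    exact hψc x c hxc
  · intro x hx z hz hxz
    by_cases hxu : x ∈ Cu
    · by_cases hzu : z ∈ Cu
      · simp only [hxu, hzu, dite_true]
        intro h
        have := hfinj h
        rw [Subtype.mk.injEq] at this
        exact hxz.ne this
      · simp only [hxu, hzu, dite_true, dite_false]
        exact hfL' ⟨x, hxu⟩ z (hW z hz hzu) hxz
    · by_cases hzu : z ∈ Cu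
      · simp only [hxu, hzu, dite_true, dite_false]
        exact (hfL' ⟨z, hzu⟩ x (hW x hx hxu) hxz.symm).symm
      · simp only [hxu, hzu, dite_false]
        exact hψ x (hW x hx hxu) z (hW z hz hzu) hxz

/-- JOB COMPLETION -/
theorem completion (G : SimpleGraph V) (k t B : ℕ) (hG : MinCex k G) (hk : 100 * (t + 1) ≤ k)
    (F : Finset (Finset V)) (hF : Fam k t G F) (col : V → Option (Fin k))
    (hprop : ∀ x y, G.Adj x y → ∀ c, col x = some c → col y ≠ some c)
    (hS : ∀ v, v ∉ F.biUnion id → col v = none →
      (1 < (univ.filter (fun c : Fin k => ∃ x ∈ nb G v, ∃ y ∈ nb G v, x ≠ y ∧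
        col x = some c ∧ col y = some c)).card) ∨
      (1 < ((nb G v ∩ F.biUnion id).filter (fun x => col x = none)).card))
    (hC : ∀ C ∈ F, ∃ (m : ℕ) (u y y' : Fin m → V), Spread G C u y y' ∧
      (∀ c : Fin k, (univ.filter (fun j : Fin m =>
        col (y j) = some c ∨ col (y' j) = some c)).card ≤ B) ∧
      B * (t + 1) + 1 < (univ.filter (fun j : Fin m =>
        col (u j) = none ∧ col (y j) ≠ none ∧ col (y' j) ≠ none)).card) :
    False := by
  have hk0 : 0 < k := by omega
  let ψ₀ : V → Fin k := fun v => (col v).getD ⟨0, hk0⟩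
  have hψ₀ : ∀ x c, col x = some c → ψ₀ x = c := by
    intro x c h
    simp only [ψ₀, h, Option.getD_some]
  set U := F.biUnion id with hU
  set Cd := univ.filter (fun v : V => col v ≠ none) with hCd
  have hCdm : ∀ v, v ∈ Cd ↔ col v ≠ none := by
    intro v; rw [hCd, Finset.mem_filter]; simp
  set R := univ.filter (fun v : V => v ∉ U ∧ col v = none) with hR
  have hRm : ∀ v, v ∈ R ↔ v ∉ U ∧ col v = none := by
    intro v; rw [hR, Finset.mem_filter]; simp
  have hP0 : PropOn G Cd ψ₀ := by
    intro x hx y hy hxy
    obtain ⟨a, ha⟩ := Option.ne_none_iff_exists'.mp ((hCdm x).mp hx)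
    obtain ⟨b, hb⟩ := Option.ne_none_iff_exists'.mp ((hCdm y).mp hy)
    rw [hψ₀ x a ha, hψ₀ y b hb]
    intro h
    subst h
    exact hprop x y hxy a ha hb
  have hdisj : Disjoint Cd R := by
    rw [Finset.disjoint_left]
    intro v hv hv'
    exact ((hCdm v).mp hv) ((hRm v).mp hv').2
  obtain ⟨ψ₁, hψ₁, hP1⟩ := greedy G k Cd ψ₀ hP0 R hdisj (by
    intro u hu
    have hu' := (hRm u).mp hu
    have hdeg := hG.deg u
    have hsum : (nb G u ∩ Cd).card + (nb G u ∩ R).card ≤ (nb G u).card := by
      rw [← Finset.card_union_of_disjoint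
        (hdisj.mono Finset.inter_subset_right Finset.inter_subset_right)]
      exact Finset.card_le_card (Finset.union_subset Finset.inter_subset_left
        Finset.inter_subset_left)
    rcases hS u hu'.1 hu'.2 with h1 | h1
    · rw [Finset.one_lt_card] at h1
      obtain ⟨a, ha, b, hb, hab⟩ := h1
      rw [Finset.mem_filter] at ha hb
      obtain ⟨_, x₁, hx₁, y₁, hy₁, hn1, ex1, ey1⟩ := ha
      obtain ⟨_, x₂, hx₂, y₂, hy₂, hn2, ex2, ey2⟩ := hb
      have hmem : ∀ z c, z ∈ nb G u → col z = some c → z ∈ nb G u ∩ Cd := by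
        intro z c hz hzc
        rw [Finset.mem_inter, hCdm, hzc]
        exact ⟨hz, by simp⟩
      have := image_card_two (nb G u ∩ Cd) ψ₀ (hmem _ _ hx₁ ex1) (hmem _ _ hy₁ ey1)
        (hmem _ _ hx₂ ex2) (hmem _ _ hy₂ ey2) hn1 hn2 (by rw [hψ₀ _ _ ex1, hψ₀ _ _ ey1])
        (by rw [hψ₀ _ _ ex2, hψ₀ _ _ ey2]) (by rw [hψ₀ _ _ ex1, hψ₀ _ _ ex2]; exact hab)
      omega
    · have h2 : ((nb G u ∩ Cd).image ψ₀).card ≤ (nb G u ∩ Cd).card := Finset.card_image_le
      have h3 : (nb G u ∩ Cd).card + (nb G u ∩ R).card +
          ((nb G u ∩ U).filter (fun x => col x = none)).card ≤ (nb G u).card := by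
        rw [← Finset.card_union_of_disjoint
          (hdisj.mono Finset.inter_subset_right Finset.inter_subset_right),
          ← Finset.card_union_of_disjoint]
        · apply Finset.card_le_card
          intro z hz
          simp only [Finset.mem_union, Finset.mem_inter, Finset.mem_filter] at hz
          tauto
        · rw [Finset.disjoint_left]
          intro z hz hz'
          simp only [Finset.mem_union, Finset.mem_inter, Finset.mem_filter, hCdm, hRm] at hz hz'
          tauto
      omega)
  have hψ₁c : ∀ x c, col x = some c → ψ₁ x = c := by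
    intro x c h
    rw [hψ₁ x ((hCdm x).mpr (by rw [h]; simp))]
    exact hψ₀ x c h
  have main : ∀ F0 : Finset (Finset V), F0 ⊆ F → ∃ ψ : V → Fin k,
      (∀ x c, col x = some c → ψ x = c) ∧ PropOn G ((Cd ∪ R) ∪ F0.biUnion id) ψ := by
    intro F0
    induction F0 using Finset.induction_on with
    | empty => intro _; exact ⟨ψ₁, hψ₁c, by simpa using hP1⟩
    | insert C F0 hCF0 ih =>
      intro hsub
      obtain ⟨ψ, hψc, hψp⟩ := ih ((Finset.subset_insert C F0).trans hsub)
      have hCF : C ∈ F := hsub (Finset.mem_insert_self C F0)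
      obtain ⟨m, u, y, y', hSp, hB, hJ⟩ := hC C hCF
      have hWC : ((Cd ∪ R) ∪ F0.biUnion id) ∩ C = C.filter (fun v => col v ≠ none) := by
        ext v
        rw [Finset.mem_inter, Finset.mem_filter, Finset.mem_union, Finset.mem_union, hCdm, hRm]
        constructor
        · rintro ⟨(h | h) | h, hv⟩
          · exact ⟨hv, h⟩
          · exfalso
            exact h.1 (Finset.mem_biUnion.mpr ⟨C, hCF, hv⟩)
          · exfalso
            obtain ⟨C', hC', hv'⟩ := Finset.mem_biUnion.mp h
            have hne : C ≠ C' := fun h => hCF0 (h ▸ hC')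
            exact (Finset.disjoint_left.mp
              (hF.disj C hCF C' (hsub (Finset.mem_insert_of_mem hC')) hne) hv) hv'
        · rintro ⟨hv, h⟩
          exact ⟨Or.inl (Or.inl h), hv⟩
      obtain ⟨φ, hφc, hφp⟩ := clique_step G k t B hG col C (hF.clq C hCF) (hF.big C hCF)
        ((Cd ∪ R) ∪ F0.biUnion id) hWC
        (fun v hv => Finset.mem_union_left _ (Finset.mem_union_left _ ((hCdm v).mpr hv)))
        ψ hψp hψc hSp hB hJ
      refine ⟨φ, hφc, ?_⟩
      have : (Cd ∪ R) ∪ (insert C F0).biUnion id = ((Cd ∪ R) ∪ F0.biUnion id) ∪ C := by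
        rw [Finset.biUnion_insert, id, Finset.union_comm C, Finset.union_assoc (Cd ∪ R)]
      rw [this]
      exact hφp
  obtain ⟨ψ, _, hψ⟩ := main F (Finset.Subset.refl F)
  apply hG.nocol
  refine ⟨ψ, ?_⟩
  intro x _ z _ hxz
  have hall : ∀ v, v ∈ (Cd ∪ R) ∪ F.biUnion id := by
    intro v
    rw [Finset.mem_union, Finset.mem_union, hCdm, hRm]
    by_cases h : v ∈ U
    · exact Or.inr h
    · by_cases h' : col v = none
      · exact Or.inl (Or.inr ⟨h, h'⟩)
      · exact Or.inl (Or.inl h')
  exact hψ x (hall x) z (hall z) hxz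

end Pool.Agent.TH73.BK
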