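import Pool.Agent.TH490.StmP

set_option autoImplicit false

namespace Pool.Agent.TH490

open Finset Classical

/-- permutations fixing a set pointwise -/
theorem p2b_fix {X ι : Type} [Fintype X] [DecidableEq X] [Fintype ι] (τ : ι → X) (hτ : Function.Injective τ) :
    (univ.filter (fun π : Equiv.Perm X => ∀ j, π (τ j) = τ j)).card
      = (Fintype.card X - Fintype.card ι).factorial := by
  have e := Equiv.Perm.subtypeEquivSubtypePerm (fun a : X => a ∉ Set.range τ)
  have h1 : Fintype.card (Equiv.Perm {a : X // a ∉ Set.range τ})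
      = (Fintype.card X - Fintype.card ι).factorial := by
    rw [Fintype.card_perm]
    congr 1
    have h2 : Fintype.card {a : X // a ∈ Set.range τ} = Fintype.card ι := by
      rw [← Fintype.card_congr (Equiv.ofInjective τ hτ)]
    have h3 := Fintype.card_subtype_compl (fun a : X => a ∈ Set.range τ)
    rw [h2] at h3
    exact h3
  rw [← h1, Fintype.card_congr e, Fintype.card_subtype]
  congr 1
  ext π
  simp only [mem_filter, mem_univ, true_and, not_not, Set.mem_range]
  constructor
  · rintro h a ⟨j, rfl⟩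
    exact h j
  · intro h j
    exact h _ ⟨j, rfl⟩

/-- permutations with prescribed values at given distinct points -/
theorem p2b_ext {X ι : Type} [Fintype X] [DecidableEq X] [Fintype ι] (τ : ι → X) (hτ : Function.Injective τ)
    (g : ι → X) :
    (univ.filter (fun π : Equiv.Perm X => ∀ j, π (τ j) = g j)).card
      ≤ (Fintype.card X - Fintype.card ι).factorial := by
  rcases (univ.filter (fun π : Equiv.Perm X => ∀ j, π (τ j) = g j)).eq_empty_or_nonempty with h | h
  · rw [h]; simp
  · obtain ⟨π₀, h0⟩ := h
    rw [mem_filter] at h0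
    rw [← p2b_fix τ hτ]
    refine Finset.card_le_card_of_injOn (fun π => π₀⁻¹ * π) ?_ ?_
    · intro π hπ
      simp only [coe_filter, mem_univ, true_and, Set.mem_ofPred_eq] at hπ ⊢
      intro j
      rw [Equiv.Perm.mul_apply, hπ j, ← h0.2 j]
      exact Equiv.symm_apply_apply π₀ (τ j)
    · intro a _ b _ hab
      exact mul_left_cancel hab

/-- star event -/
theorem p2b_star {X : Type} [Fintype X] [DecidableEq X] (W : X → X → Prop) (Q : ℕ)
    (hW : ∀ x, (univ.filter (fun y => W y x)).card ≤ Q) (p : X) (q : Fin 6 → X)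
    (hq : Function.Injective q) (hp : ∀ j, q j ≠ p) :
    (univ.filter (fun π : Equiv.Perm X => ∀ j, W (π (q j)) (π p))).card
      ≤ Fintype.card X * Q ^ 6 * (Fintype.card X - 7).factorial := by
  have hsub : (univ.filter (fun π : Equiv.Perm X => ∀ j, W (π (q j)) (π p)))
      ⊆ (univ : Finset X).biUnion (fun x =>
        (Fintype.piFinset (fun _ : Fin 6 => univ.filter (fun y => W y x))).biUnion (fun h =>
          univ.filter (fun π : Equiv.Perm X => ∀ j : Option (Fin 6),
            π (Option.elim j p q) = Option.elim j x h))) := by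
    intro π hπ
    rw [mem_filter] at hπ
    rw [mem_biUnion]
    refine ⟨π p, mem_univ _, ?_⟩
    rw [mem_biUnion]
    refine ⟨fun j => π (q j), ?_, ?_⟩
    · rw [Fintype.mem_piFinset]
      intro j
      rw [mem_filter]
      exact ⟨mem_univ _, hπ.2 j⟩
    · rw [mem_filter]
      refine ⟨mem_univ _, ?_⟩
      rintro (_ | j) <;> rfl
  have hinj : Function.Injective (fun j : Option (Fin 6) => Option.elim j p q) := by
    rintro (_ | a) (_ | b) hab
    · rfl
    · exact absurd hab.symm (hp b)
    · exact absurd hab (hp a)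
    · exact congrArg some (hq hab)
  have hc : Fintype.card (Option (Fin 6)) = 7 := by simp
  calc (univ.filter (fun π : Equiv.Perm X => ∀ j, W (π (q j)) (π p))).card
      ≤ _ := card_le_card hsub
    _ ≤ (univ : Finset X).card * (Q ^ 6 * (Fintype.card X - 7).factorial) := by
        refine card_biUnion_le_card_mul _ _ _ ?_
        intro x _
        refine (card_biUnion_le_card_mul _ _ (Fintype.card X - 7).factorial ?_).trans ?_
        · intro h _
          have := p2b_ext (fun j : Option (Fin 6) => Option.elim j p q) hinj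
            (fun j => Option.elim j x h)
          rw [hc] at this
          exact this
        · refine Nat.mul_le_mul_right _ ?_
          rw [Fintype.card_piFinset]
          rw [prod_const, card_univ, Fintype.card_fin]
          exact Nat.pow_le_pow_left (hW x) 6
    _ = _ := by rw [card_univ]; ring

/-- matching event -/
theorem p2b_match {X : Type} [Fintype X] [DecidableEq X] (W : X → X → Prop) (Q : ℕ)
    (hW : ∀ x, (univ.filter (fun y => W y x)).card ≤ Q) (p q : Fin 6 → X)
    (hp : Function.Injective p) (hq : Function.Injective q) (hpq : ∀ i j, p i ≠ q j) :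
    (univ.filter (fun π : Equiv.Perm X => ∀ j, W (π (p j)) (π (q j)))).card
      ≤ (Fintype.card X * Q) ^ 6 * (Fintype.card X - 12).factorial := by
  have hsub : (univ.filter (fun π : Equiv.Perm X => ∀ j, W (π (p j)) (π (q j))))
      ⊆ (Fintype.piFinset (fun _ : Fin 6 =>
          (univ : Finset (X × X)).filter (fun z => W z.1 z.2))).biUnion (fun h =>
          univ.filter (fun π : Equiv.Perm X => ∀ j : Fin 6 ⊕ Fin 6,
            π (Sum.elim p q j) = Sum.elim (fun j => (h j).1) (fun j => (h j).2) j)) := by
    intro π hπ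
    rw [mem_filter] at hπ
    rw [mem_biUnion]
    refine ⟨fun j => (π (p j), π (q j)), ?_, ?_⟩
    · rw [Fintype.mem_piFinset]
      intro j
      rw [mem_filter]
      exact ⟨mem_univ _, hπ.2 j⟩
    · rw [mem_filter]
      refine ⟨mem_univ _, ?_⟩
      rintro (j | j) <;> rfl
  have hinj : Function.Injective (Sum.elim p q) := by
    rintro (a | a) (b | b) hab
    · exact congrArg Sum.inl (hp hab)
    · exact absurd hab (hpq a b)
    · exact absurd hab.symm (hpq b a)
    · exact congrArg Sum.inr (hq hab)
  have hc : Fintype.card (Fin 6 ⊕ Fin 6) = 12 := by simp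
  have hz : ((univ : Finset (X × X)).filter (fun z => W z.1 z.2)).card ≤ Fintype.card X * Q := by
    have : ((univ : Finset (X × X)).filter (fun z => W z.1 z.2))
        ⊆ (univ : Finset X).biUnion (fun x => (univ.filter (fun y => W y x)).image
          (fun y => (y, x))) := by
      rintro ⟨y, x⟩ h
      rw [mem_filter] at h
      rw [mem_biUnion]
      refine ⟨x, mem_univ _, ?_⟩
      rw [mem_image]
      exact ⟨y, by rw [mem_filter]; exact ⟨mem_univ _, h.2⟩, rfl⟩
    refine (card_le_card this).trans ?_
    rw [← card_univ]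
    refine card_biUnion_le_card_mul _ _ _ ?_
    intro x _
    exact card_image_le.trans (hW x)
  calc (univ.filter (fun π : Equiv.Perm X => ∀ j, W (π (p j)) (π (q j)))).card
      ≤ _ := card_le_card hsub
    _ ≤ (Fintype.piFinset (fun _ : Fin 6 =>
          (univ : Finset (X × X)).filter (fun z => W z.1 z.2))).card
            * (Fintype.card X - 12).factorial := by
        refine card_biUnion_le_card_mul _ _ _ ?_
        intro h _
        have := p2b_ext (Sum.elim p q) hinj
            (Sum.elim (fun j => (h j).1) (fun j => (h j).2))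
        rw [hc] at this
        exact this
    _ ≤ _ := by
        refine Nat.mul_le_mul_right _ ?_
        rw [Fintype.card_piFinset, prod_const, card_univ, Fintype.card_fin]
        exact Nat.pow_le_pow_left hz 6

/-- six elements of a large finset -/
theorem p2b_six {α : Type} (S : Finset α) (h : 6 ≤ S.card) :
    ∃ σ : Fin 6 → α, Function.Injective σ ∧ ∀ j, σ j ∈ S := by
  obtain ⟨T, hT, hc⟩ := exists_subset_card_eq h
  let e := T.equivFinOfCardEq hc
  exact ⟨fun j => (e.symm j : α), fun a b hab => e.symm.injective (Subtype.ext hab),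
    fun j => hT (e.symm j).2⟩

/-- the dichotomy -/
theorem p2b_dich {r : ℕ} (V : Fin r → Fin r → Prop)
    (h : 30 < (univ.filter (fun s : Fin r => ∃ s' : Fin r, V s s')).card) :
    (∃ s', ∃ σ : Fin 6 → Fin r, Function.Injective σ ∧ ∀ j, V (σ j) s') ∨
    (∃ σ σ' : Fin 6 → Fin r, Function.Injective σ ∧ Function.Injective σ' ∧
      ∀ j, V (σ j) (σ' j)) := by
  set S := univ.filter (fun s : Fin r => ∃ s' : Fin r, V s s') with hS
  have hex : ∀ s : Fin r, ∃ s' : Fin r, s ∈ S → V s s' := by
    intro s
    by_cases hs : s ∈ S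
    · have := (mem_filter.mp hs).2
      obtain ⟨s', h'⟩ := this
      exact ⟨s', fun _ => h'⟩
    · exact ⟨s, fun h => absurd h hs⟩
  choose f hf using hex
  by_cases h6 : 6 ≤ (S.image f).card
  · right
    obtain ⟨σ', hσ', hm⟩ := p2b_six _ h6
    have : ∀ j, ∃ s, s ∈ S ∧ f s = σ' j := fun j => by
      have := hm j
      rw [mem_image] at this
      exact this
    choose σ h1 h2 using this
    refine ⟨σ, σ', ?_, hσ', ?_⟩
    · intro a b hab
      apply hσ'
      rw [← h2 a, ← h2 b, hab]
    · intro j
      rw [← h2 j]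
      exact hf _ (h1 j)
  · left
    have h5 : (S.image f).card ≤ 5 := by omega
    have : ∃ y ∈ S.image f, 5 < (S.filter (fun x => f x = y)).card := by
      apply exists_lt_card_fiber_of_mul_lt_card_of_maps_to
      · intro x hx
        exact mem_image_of_mem f hx
      · calc (S.image f).card * 5 ≤ 5 * 5 := Nat.mul_le_mul_right _ h5
          _ < S.card := by omega
    obtain ⟨y, _, hy⟩ := this
    obtain ⟨σ, hσ, hm⟩ := p2b_six _ (show 6 ≤ _ from hy)
    refine ⟨y, σ, hσ, ?_⟩
    intro j
    have := mem_filter.mp (hm j)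
    rw [← this.2]
    exact hf _ this.1

theorem p2b : P2_near := by
  intro n r Q W hsym hdeg hQ hr hn
  by_cases hr30 : r ≤ 30
  · have : (univ.filter (fun π : Equiv.Perm (Fin n × Fin r) => ∃ i t, i ≠ t ∧
      30 < (univ.filter (fun s : Fin r => ∃ s' : Fin r,
        W (π (i, s)) (π (t, s')))).card)) = ∅ := by
      rw [filter_eq_empty_iff]
      rintro π _ ⟨i, t, _, h⟩
      have h2 := card_filter_le (univ : Finset (Fin r))
        (fun s : Fin r => ∃ s' : Fin r, W (π (i, s)) (π (t, s')))
      rw [card_univ, Fintype.card_fin] at h2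
      omega
    rw [this]
    simp
  · have hr31 : 31 ≤ r := by omega
    have hcard : Fintype.card (Fin n × Fin r) = n * r := by simp
    have hdeg' : ∀ x, (univ.filter (fun y => W y x)).card ≤ Q := by
      intro x
      have : univ.filter (fun y => W y x) = univ.filter (fun y => W x y) := by
        ext y
        simp only [mem_filter, mem_univ, true_and]
        exact ⟨hsym _ _, hsym _ _⟩
      rw [this]
      exact hdeg x
    set m := n * r with hm
    -- the star events
    set A := (univ : Finset ((Fin n × Fin r) × Fin n × (Fin 6 → Fin r))).biUnion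
      (fun c => univ.filter (fun π : Equiv.Perm (Fin n × Fin r) =>
        (Function.Injective c.2.2 ∧ c.2.1 ≠ c.1.1) ∧
          ∀ j, W (π (c.2.1, c.2.2 j)) (π c.1))) with hA
    set B := (univ : Finset (Fin n × Fin n × (Fin 6 → Fin r) × (Fin 6 → Fin r))).biUnion
      (fun c => univ.filter (fun π : Equiv.Perm (Fin n × Fin r) =>
        (Function.Injective c.2.2.1 ∧ Function.Injective c.2.2.2 ∧ c.1 ≠ c.2.1) ∧
          ∀ j, W (π (c.1, c.2.2.1 j)) (π (c.2.1, c.2.2.2 j)))) with hB
    have hsub : (univ.filter (fun π : Equiv.Perm (Fin n × Fin r) => ∃ i t, i ≠ t ∧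
      30 < (univ.filter (fun s : Fin r => ∃ s' : Fin r,
        W (π (i, s)) (π (t, s')))).card)) ⊆ A ∪ B := by
      intro π hπ
      rw [mem_filter] at hπ
      obtain ⟨_, i, t, hit, h30⟩ := hπ
      rw [mem_union]
      rcases p2b_dich _ h30 with ⟨s', σ, hσ, hW⟩ | ⟨σ, σ', hσ, hσ', hW⟩
      · left
        rw [hA, mem_biUnion]
        refine ⟨((t, s'), i, σ), mem_univ _, ?_⟩
        rw [mem_filter]
        exact ⟨mem_univ _, ⟨hσ, hit⟩, hW⟩
      · right
        rw [hB, mem_biUnion]
        refine ⟨(i, t, σ, σ'), mem_univ _, ?_⟩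
        rw [mem_filter]
        exact ⟨mem_univ _, ⟨hσ, hσ', hit⟩, hW⟩
    have hAc : A.card ≤ (m * (n * r ^ 6)) * (m * Q ^ 6 * (m - 7).factorial) := by
      have h1 : A.card ≤ (univ : Finset ((Fin n × Fin r) × Fin n × (Fin 6 → Fin r))).card *
          (m * Q ^ 6 * (m - 7).factorial) := by
        refine card_biUnion_le_card_mul _ _ _ ?_
        rintro ⟨p, i, σ⟩ _
        by_cases hc : Function.Injective σ ∧ i ≠ p.1
        · have := p2b_star W Q hdeg' p (fun j => (i, σ j))
            (fun a b hab => hc.1 (by simpa using hab))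
            (fun j h => hc.2 (by rw [← h]))
          rw [hcard] at this
          refine le_trans (card_le_card ?_) this
          intro π hπ
          rw [mem_filter] at hπ ⊢
          exact ⟨mem_univ _, hπ.2.2⟩
        · rw [filter_false_of_mem]
          · simp
          · intro π _ h
            exact hc h.1
      have h2 : (univ : Finset ((Fin n × Fin r) × Fin n × (Fin 6 → Fin r))).card
          = m * (n * r ^ 6) := by
        rw [card_univ]
        simp [hm]
      rw [h2] at h1
      exact h1
    have hBc : B.card ≤ (n * (n * (r ^ 6 * r ^ 6))) * ((m * Q) ^ 6 * (m - 12).factorial) := by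
      have h1 : B.card ≤ (univ : Finset (Fin n × Fin n × (Fin 6 → Fin r) × (Fin 6 → Fin r))).card *
          ((m * Q) ^ 6 * (m - 12).factorial) := by
        refine card_biUnion_le_card_mul _ _ _ ?_
        rintro ⟨i, t, σ, σ'⟩ _
        by_cases hc : Function.Injective σ ∧ Function.Injective σ' ∧ i ≠ t
        · have := p2b_match W Q hdeg' (fun j => (i, σ j)) (fun j => (t, σ' j))
            (fun a b hab => hc.1 (by simpa using hab))
            (fun a b hab => hc.2.1 (by simpa using hab))
            (fun a b h => hc.2.2 (congrArg Prod.fst h))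
          rw [hcard] at this
          refine le_trans (card_le_card ?_) this
          intro π hπ
          rw [mem_filter] at hπ ⊢
          exact ⟨mem_univ _, hπ.2.2⟩
        · rw [filter_false_of_mem]
          · simp
          · intro π _ h
            exact hc h.1
      have h2 : (univ : Finset (Fin n × Fin n × (Fin 6 → Fin r) × (Fin 6 → Fin r))).card
          = n * (n * (r ^ 6 * r ^ 6)) := by
        rw [card_univ]
        simp
      rw [h2] at h1
      exact h1
    -- arithmetic
    have hn16 : 16 ≤ n := by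
      have : 4 * 1 * 1 ≤ 4 * Q * r := Nat.mul_le_mul (Nat.mul_le_mul_left 4 hQ) hr
      have h2 : (4 : ℕ) ^ 2 ≤ (4 * Q * r) ^ 2 := Nat.pow_le_pow_left (by simpa using this) 2
      omega
    have hm24 : 24 ≤ m := by
      have : 16 * 31 ≤ n * r := Nat.mul_le_mul hn16 hr31
      omega
    have hf7 : m ^ 7 * (m - 7).factorial ≤ 2 ^ 7 * m.factorial := by
      have h1 := Nat.pow_sub_le_descFactorial m 7
      have h2 := Nat.factorial_mul_descFactorial (show 7 ≤ m by omega)
      have h3 : m ^ 7 ≤ 2 ^ 7 * (m + 1 - 7) ^ 7 := by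
        rw [← mul_pow]
        exact Nat.pow_le_pow_left (by omega) 7
      calc m ^ 7 * (m - 7).factorial ≤ (2 ^ 7 * (m + 1 - 7) ^ 7) * (m - 7).factorial :=
            Nat.mul_le_mul_right _ h3
        _ ≤ (2 ^ 7 * m.descFactorial 7) * (m - 7).factorial :=
            Nat.mul_le_mul_right _ (Nat.mul_le_mul_left _ h1)
        _ = 2 ^ 7 * ((m - 7).factorial * m.descFactorial 7) := by ring
        _ = _ := by rw [h2]
    have hf12 : m ^ 12 * (m - 12).factorial ≤ 2 ^ 12 * m.factorial := by
      have h1 := Nat.pow_sub_le_descFactorial m 12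
      have h2 := Nat.factorial_mul_descFactorial (show 12 ≤ m by omega)
      have h3 : m ^ 12 ≤ 2 ^ 12 * (m + 1 - 12) ^ 12 := by
        rw [← mul_pow]
        exact Nat.pow_le_pow_left (by omega) 12
      calc m ^ 12 * (m - 12).factorial ≤ (2 ^ 12 * (m + 1 - 12) ^ 12) * (m - 12).factorial :=
            Nat.mul_le_mul_right _ h3
        _ ≤ (2 ^ 12 * m.descFactorial 12) * (m - 12).factorial :=
            Nat.mul_le_mul_right _ (Nat.mul_le_mul_left _ h1)
        _ = 2 ^ 12 * ((m - 12).factorial * m.descFactorial 12) := by ring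
        _ = _ := by rw [h2]
    have hn4 : 2 ^ 16 * (Q * r) ^ 8 ≤ n ^ 4 := by
      calc 2 ^ 16 * (Q * r) ^ 8 = ((4 * Q * r) ^ 2) ^ 4 := by ring
        _ ≤ n ^ 4 := Nat.pow_le_pow_left hn 4
    have hQr : 31 ≤ Q * r := by
      calc 31 = 1 * 31 := by norm_num
        _ ≤ Q * r := Nat.mul_le_mul hQ hr31
    have hA64 : 64 * A.card ≤ m.factorial := by
      have h1 : 64 * (n ^ 2 * r ^ 7 * Q ^ 6) * 2 ^ 7 ≤ m ^ 6 := by
        calc 64 * (n ^ 2 * r ^ 7 * Q ^ 6) * 2 ^ 7
            = n ^ 2 * (2 ^ 13 * (Q ^ 6 * r) * r ^ 6) := by ring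
          _ ≤ n ^ 2 * (2 ^ 16 * (Q * r) ^ 8 * r ^ 6) := by
              refine Nat.mul_le_mul_left _ (Nat.mul_le_mul_right _ ?_)
              refine Nat.mul_le_mul (by norm_num) ?_
              calc Q ^ 6 * r = Q ^ 6 * r ^ 1 := by ring
                _ ≤ Q ^ 8 * r ^ 8 := Nat.mul_le_mul (Nat.pow_le_pow_right hQ (by norm_num))
                    (Nat.pow_le_pow_right hr (by norm_num))
                _ = (Q * r) ^ 8 := by ring
          _ ≤ n ^ 2 * (n ^ 4 * r ^ 6) :=
              Nat.mul_le_mul_left _ (Nat.mul_le_mul_right _ hn4)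
          _ = m ^ 6 := by rw [hm]; ring
      have h2 : 2 ^ 7 * (64 * A.card) ≤ 2 ^ 7 * m.factorial := by
        calc 2 ^ 7 * (64 * A.card)
            ≤ 2 ^ 7 * (64 * ((m * (n * r ^ 6)) * (m * Q ^ 6 * (m - 7).factorial))) :=
              Nat.mul_le_mul_left _ (Nat.mul_le_mul_left _ hAc)
          _ = (64 * (n ^ 2 * r ^ 7 * Q ^ 6) * 2 ^ 7) * (m * (m - 7).factorial) := by
              rw [hm]; ring
          _ ≤ m ^ 6 * (m * (m - 7).factorial) := Nat.mul_le_mul_right _ h1
          _ = m ^ 7 * (m - 7).factorial := by ring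
          _ ≤ _ := hf7
      exact Nat.le_of_mul_le_mul_left h2 (by norm_num)
    have hB64 : 64 * B.card ≤ m.factorial := by
      have h1 : 64 * (n ^ 2 * r ^ 12 * Q ^ 6) * 2 ^ 12 ≤ m ^ 6 := by
        calc 64 * (n ^ 2 * r ^ 12 * Q ^ 6) * 2 ^ 12
            = n ^ 2 * (2 ^ 16 * (2 ^ 2 * (Q * r) ^ 6) * r ^ 6) := by ring
          _ ≤ n ^ 2 * (2 ^ 16 * (Q * r) ^ 8 * r ^ 6) := by
              refine Nat.mul_le_mul_left _ (Nat.mul_le_mul_right _ ?_)
              refine Nat.mul_le_mul_left _ ?_
              calc 2 ^ 2 * (Q * r) ^ 6 ≤ (Q * r) ^ 2 * (Q * r) ^ 6 :=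
                    Nat.mul_le_mul_right _ (Nat.pow_le_pow_left (by omega) 2)
                _ = (Q * r) ^ 8 := by ring
          _ ≤ n ^ 2 * (n ^ 4 * r ^ 6) :=
              Nat.mul_le_mul_left _ (Nat.mul_le_mul_right _ hn4)
          _ = m ^ 6 := by rw [hm]; ring
      have h2 : 2 ^ 12 * (64 * B.card) ≤ 2 ^ 12 * m.factorial := by
        calc 2 ^ 12 * (64 * B.card)
            ≤ 2 ^ 12 * (64 * ((n * (n * (r ^ 6 * r ^ 6))) *
                ((m * Q) ^ 6 * (m - 12).factorial))) :=
              Nat.mul_le_mul_left _ (Nat.mul_le_mul_left _ hBc)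
          _ = (64 * (n ^ 2 * r ^ 12 * Q ^ 6) * 2 ^ 12) * (m ^ 6 * (m - 12).factorial) := by
              ring
          _ ≤ m ^ 6 * (m ^ 6 * (m - 12).factorial) := Nat.mul_le_mul_right _ h1
          _ = m ^ 12 * (m - 12).factorial := by ring
          _ ≤ _ := hf12
      exact Nat.le_of_mul_le_mul_left h2 (by norm_num)
    have hfin := card_le_card hsub
    have hun := card_union_le A B
    omega

end Pool.Agent.TH490
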