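import Pool.Agent.TH843.PY.Stm

/-!
# Robinson-type polynomials over a totally real field, from the rounding lemma
-/

set_option autoImplicit false
open Polynomial NumberField

namespace Pool.Agent.TH73.J208

open Pool.Agent.TH843.PY

section E

variable {F : Type} [Field F]

/-- The iterated polynomials: `EE y r` is the Dickson polynomial of degree `2 ^ r` with
parameter `y / 4`. -/
noncomputable def EE (y : F) : ℕ → F[X]
  | 0 => X
  | r + 1 => (EE y r) ^ 2 - C (2 * (y / 4) ^ (2 ^ r))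

theorem EE_natDegree_monic (y : F) (r : ℕ) : (EE y r).natDegree = 2 ^ r ∧ (EE y r).Monic := by
  induction r with
  | zero => exact ⟨by simp [EE], by simp [EE]⟩
  | succ r ih =>
    obtain ⟨h1, h2⟩ := ih
    have h3 : ((EE y r) ^ 2).natDegree = 2 ^ (r + 1) := by
      rw [h2.natDegree_pow, h1]; ring
    constructor
    · rw [EE, natDegree_sub_C, h3]
    · rw [EE]
      refine (h2.pow 2).sub_of_left ?_
      refine lt_of_le_of_lt degree_C_le ?_
      rw [degree_eq_natDegree (h2.pow 2).ne_zero, h3]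
      exact_mod_cast Nat.two_pow_pos (r + 1)

/-- Elements which are integral after multiplication with a power of two. -/
def Dy (z : F) : Prop := ∃ a : ℕ, IsIntegral ℤ ((2 : F) ^ a * z)

theorem isIntegral_two : IsIntegral ℤ (2 : F) := by
  have : (2 : F) = algebraMap ℤ F 2 := by simp
  rw [this]; exact isIntegral_algebraMap

theorem Dy.of_int {z : F} (h : IsIntegral ℤ z) : Dy z := ⟨0, by simpa using h⟩

theorem Dy.add {z w : F} (hz : Dy z) (hw : Dy w) : Dy (z + w) := by
  obtain ⟨a, ha⟩ := hz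
  obtain ⟨b, hb⟩ := hw
  refine ⟨a + b, ?_⟩
  have : (2 : F) ^ (a + b) * (z + w) = 2 ^ b * (2 ^ a * z) + 2 ^ a * (2 ^ b * w) := by ring
  rw [this]
  exact ((isIntegral_two.pow b).mul ha).add ((isIntegral_two.pow a).mul hb)

theorem Dy.neg {z : F} (hz : Dy z) : Dy (-z) := by
  obtain ⟨a, ha⟩ := hz
  refine ⟨a, ?_⟩
  rw [mul_neg]; exact ha.neg

theorem Dy.mul {z w : F} (hz : Dy z) (hw : Dy w) : Dy (z * w) := by
  obtain ⟨a, ha⟩ := hz
  obtain ⟨b, hb⟩ := hw
  refine ⟨a + b, ?_⟩
  have : (2 : F) ^ (a + b) * (z * w) = (2 ^ a * z) * (2 ^ b * w) := by ring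
  rw [this]
  exact ha.mul hb

theorem Dy.zero : Dy (0 : F) := Dy.of_int isIntegral_zero

theorem Dy.one : Dy (1 : F) := Dy.of_int isIntegral_one

theorem Dy.pow {z : F} (hz : Dy z) (n : ℕ) : Dy (z ^ n) := by
  induction n with
  | zero => simpa using Dy.one
  | succ n ih => rw [pow_succ]; exact ih.mul hz

theorem Dy.sum {ι : Type} (s : Finset ι) (f : ι → F) (h : ∀ i ∈ s, Dy (f i)) :
    Dy (∑ i ∈ s, f i) := by
  classical
  induction s using Finset.induction_on with
  | empty => simpa using Dy.zero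
  | insert a s ha ih =>
    rw [Finset.sum_insert ha]
    exact (h a (Finset.mem_insert_self _ _)).add
      (ih (fun i hi => h i (Finset.mem_insert_of_mem hi)))

variable [CharZero F]

theorem EE_dy {y : F} (hy : IsIntegral ℤ y) (r i : ℕ) : Dy ((EE y r).coeff i) := by
  induction r generalizing i with
  | zero =>
    simp only [EE, coeff_X]
    split_ifs
    · exact Dy.one
    · exact Dy.zero
  | succ r ih =>
    rw [EE, coeff_sub, sub_eq_add_neg]
    refine Dy.add ?_ (Dy.neg ?_)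
    · rw [pow_two, coeff_mul]
      exact Dy.sum _ _ fun x _ => (ih _).mul (ih _)
    · rw [coeff_C]
      split_ifs
      · refine (Dy.of_int isIntegral_two).mul (Dy.pow ?_ _)
        refine ⟨2, ?_⟩
        have : (2 : F) ^ 2 * (y / 4) = y := by
          have h4 : (4 : F) ≠ 0 := by norm_num
          field_simp
          ring
        rw [this]; exact hy
      · exact Dy.zero

/-- The reversed polynomials. -/
noncomputable def PP (y : F) (r : ℕ) : F[X] := reflect (2 ^ r) (EE y r)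

omit [CharZero F] in
theorem PP_coeff (y : F) (r j : ℕ) (hj : j ≤ 2 ^ r) :
    (PP y r).coeff j = (EE y r).coeff (2 ^ r - j) := by
  rw [PP, coeff_reflect, revAt_le hj]

omit [CharZero F] in
theorem PP_coeff_zero (y : F) (r : ℕ) : (PP y r).coeff 0 = 1 := by
  rw [PP_coeff y r 0 (Nat.zero_le _), Nat.sub_zero]
  obtain ⟨h1, h2⟩ := EE_natDegree_monic y r
  rw [← h1]; exact h2

omit [CharZero F] in
theorem PP_succ_coeff (y : F) (r j : ℕ) (hj : j < 2 ^ (r + 1)) :
    (PP y (r + 1)).coeff j = ((PP y r) ^ 2).coeff j := by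
  have h1 := (EE_natDegree_monic y r).1
  have h2 : reflect (2 ^ (r + 1)) ((EE y r) ^ 2) = (PP y r) ^ 2 := by
    rw [pow_succ 2 r, mul_two, pow_two, reflect_mul _ _ h1.le h1.le, ← pow_two, PP]
  rw [PP, EE, reflect_sub, coeff_sub, h2, reflect_C, coeff_C_mul_X_pow, if_neg hj.ne, sub_zero]

omit [CharZero F] in
/-- Convolution squares of a sequence starting with `1`. -/
theorem conv_sq (a : ℕ → F) (h0 : a 0 = 1) (m : ℕ) (hm : 0 < m)
    (hi : ∀ j < m, IsIntegral ℤ (a j)) :
    IsIntegral ℤ (∑ x ∈ Finset.HasAntidiagonal.antidiagonal m, a x.1 * a x.2 - 2 * a m) := by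
  classical
  set b : ℕ → F := fun i => if i < m then a i else 0 with hb
  have hbi : ∀ i, IsIntegral ℤ (b i) := by
    intro i
    rw [hb]
    dsimp only
    split_ifs with h
    · exact hi i h
    · exact isIntegral_zero
  have key : ∀ x ∈ Finset.HasAntidiagonal.antidiagonal m, a x.1 * a x.2 =
      b x.1 * b x.2 + (if x = (0, m) then a m else 0) + (if x = (m, 0) then a m else 0) := by
    rintro ⟨i, j⟩ hx
    rw [Finset.HasAntidiagonal.mem_antidiagonal] at hx
    simp only at hx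
    simp only [hb, Prod.mk.injEq]
    by_cases h1 : i = 0
    · subst h1
      have h2 : j = m := by omega
      subst h2
      simp [h0, hm.ne, hm.ne']
    · by_cases h2 : j = 0
      · subst h2
        have h3 : i = m := by omega
        subst h3
        simp [h0, h1]
      · have h3 : i < m := by omega
        have h4 : j < m := by omega
        simp [h1, h2, h3, h4]
  rw [Finset.sum_congr rfl key, Finset.sum_add_distrib, Finset.sum_add_distrib,
    Finset.sum_ite_eq', Finset.sum_ite_eq', if_pos (by simp), if_pos (by simp)]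
  have : ∑ x ∈ Finset.HasAntidiagonal.antidiagonal m, b x.1 * b x.2 + a m + a m - 2 * a m =
      ∑ x ∈ Finset.HasAntidiagonal.antidiagonal m, b x.1 * b x.2 := by ring
  rw [this]
  exact IsIntegral.sum _ fun x _ => (hbi _).mul (hbi _)

theorem PP_integral {y : F} (hy : IsIntegral ℤ y) (m : ℕ) :
    ∃ r0 : ℕ, ∀ r, r0 ≤ r → ∀ j < m, IsIntegral ℤ ((PP y r).coeff j) := by
  induction m with
  | zero => exact ⟨0, fun r _ j hj => absurd hj (Nat.not_lt_zero _)⟩
  | succ m ih =>
    obtain ⟨r0, h0⟩ := ih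
    rcases Nat.eq_zero_or_pos m with hm | hm
    · subst hm
      refine ⟨0, fun r _ j hj => ?_⟩
      have : j = 0 := by omega
      subst this
      rw [PP_coeff_zero]; exact isIntegral_one
    -- the start
    set r1 := max r0 m with hr1
    have hmr : ∀ r, r1 ≤ r → m < 2 ^ r := fun r hr =>
      lt_of_lt_of_le Nat.lt_two_pow_self
        (Nat.pow_le_pow_right (by norm_num) (le_trans (le_max_right _ _) hr))
    have step : ∀ r, r1 ≤ r →
        IsIntegral ℤ ((PP y (r + 1)).coeff m - 2 * (PP y r).coeff m) := by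
      intro r hr
      rw [PP_succ_coeff y r m (lt_trans (hmr r hr)
        (Nat.pow_lt_pow_right (by norm_num) (Nat.lt_succ_self r))), pow_two, coeff_mul]
      exact conv_sq _ (PP_coeff_zero y r) m hm (h0 r (le_trans (le_max_left _ _) hr))
    have down : ∀ b : ℕ, ∀ r, r1 ≤ r → IsIntegral ℤ ((2 : F) ^ b * (PP y r).coeff m) →
        IsIntegral ℤ ((PP y (r + b)).coeff m) := by
      intro b
      induction b with
      | zero => intro r _ h; simpa using h
      | succ b ihb =>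
        intro r hr h
        have h1 : IsIntegral ℤ ((2 : F) ^ b * (PP y (r + 1)).coeff m) := by
          have : (2 : F) ^ b * (PP y (r + 1)).coeff m =
              2 ^ b * ((PP y (r + 1)).coeff m - 2 * (PP y r).coeff m) +
                2 ^ (b + 1) * (PP y r).coeff m := by ring
          rw [this]
          exact ((isIntegral_two.pow b).mul (step r hr)).add h
        have h2 := ihb (r + 1) (by omega) h1
        rwa [show r + 1 + b = r + (b + 1) by ring] at h2
    obtain ⟨a, ha⟩ : Dy ((PP y r1).coeff m) := by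
      rw [PP_coeff y r1 m (hmr r1 le_rfl).le]
      exact EE_dy hy _ _
    refine ⟨r1 + a, fun r hr j hj => ?_⟩
    rcases Nat.lt_succ_iff_lt_or_eq.mp hj with h | h
    · exact h0 r (by have := le_max_left r0 m; omega) j h
    · subst h
      obtain ⟨c, rfl⟩ := Nat.exists_eq_add_of_le hr
      rw [add_assoc]
      refine down (a + c) r1 le_rfl ?_
      have : (2 : F) ^ (a + c) * (PP y r1).coeff j = 2 ^ c * (2 ^ a * (PP y r1).coeff j) := by ring
      rw [this]
      exact (isIntegral_two.pow c).mul ha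

/-- The top coefficients of `EE y r` are integral for `r` large. -/
theorem EE_top {y : F} (hy : IsIntegral ℤ y) (m : ℕ) :
    ∃ r0 : ℕ, ∀ r, r0 ≤ r → ∀ i, 2 ^ r < i + m → IsIntegral ℤ ((EE y r).coeff i) := by
  obtain ⟨r0, h⟩ := PP_integral hy m
  refine ⟨r0, fun r hr i hi => ?_⟩
  by_cases h1 : 2 ^ r < i
  · rw [coeff_eq_zero_of_natDegree_lt (by rw [(EE_natDegree_monic y r).1]; exact h1)]
    exact isIntegral_zero
  · push Not at h1
    have h2 := h r hr (2 ^ r - i) (by omega)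
    rw [PP_coeff y r _ (Nat.sub_le _ _), Nat.sub_sub_self h1] at h2
    exact h2

omit [CharZero F] in
theorem EE_eval (y : F) (φ : F →+* ℝ) (s : ℝ) (hs : s ^ 2 = φ y / 4) (r : ℕ) (θ : ℝ) :
    ((EE y r).map φ).eval (2 * s * Real.cos θ) = 2 * s ^ (2 ^ r) * Real.cos (2 ^ r * θ) := by
  induction r with
  | zero => simp [EE]
  | succ r ih =>
    rw [EE, Polynomial.map_sub, Polynomial.map_pow, eval_sub, eval_pow, ih, map_C, eval_C]
    have h1 : φ (2 * (y / 4) ^ 2 ^ r) = 2 * (s ^ 2) ^ (2 ^ r) := by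
      have h4 : φ 4 = 4 := map_ofNat φ 4
      have h2' : φ 2 = 2 := map_ofNat φ 2
      rw [hs, map_mul, map_pow, map_div₀, h4, h2']
    have h2 : Real.cos (2 ^ (r + 1) * θ) = 2 * Real.cos (2 ^ r * θ) ^ 2 - 1 := by
      rw [← Real.cos_two_mul]; congr 1; ring
    rw [h1, h2, ← pow_mul, pow_succ 2 r, pow_mul s, ← pow_mul s 2]
    ring

end E

/-- Monic polynomials of small sup norm. -/
theorem exists_small (s : ℝ) (hs : 0 < s) (i : ℕ) :
    ∃ D : ℝ[X], D.natDegree = i ∧ D.coeff i = 1 ∧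
      ∀ x : ℝ, |x| ≤ 2 * s → |D.eval x| ≤ 2 * s ^ i := by
  rcases Nat.eq_zero_or_pos i with hi | hi
  · subst hi
    exact ⟨1, by simp, by simp, fun x _ => by simp⟩
  set T := Chebyshev.T ℝ (i : ℤ) with hT
  have hTd : T.natDegree = i := by rw [hT, Chebyshev.natDegree_T]; simp
  have hTl : T.leadingCoeff = 2 ^ (i - 1) := by rw [hT, Chebyshev.leadingCoeff_T]; simp
  have hs2 : (2 * s)⁻¹ ≠ 0 := by positivity
  have hc : (C (2 * s ^ i) * T.comp (C (2 * s)⁻¹ * X)).leadingCoeff = 1 := by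
    rw [leadingCoeff_mul, leadingCoeff_C, leadingCoeff_comp (by
      rw [natDegree_C_mul_X _ hs2]; exact one_ne_zero), hTl, hTd]
    rw [leadingCoeff_C_mul_X, inv_pow, mul_pow]
    have h2 : (2 : ℝ) ^ i = 2 * 2 ^ (i - 1) := by
      rw [← pow_succ']; congr 1; omega
    rw [h2]
    field_simp
  have hd : (C (2 * s ^ i) * T.comp (C (2 * s)⁻¹ * X)).natDegree = i := by
    rw [natDegree_C_mul (by positivity), natDegree_comp, natDegree_C_mul_X _ hs2, mul_one, hTd]
  refine ⟨C (2 * s ^ i) * T.comp (C (2 * s)⁻¹ * X), hd, ?_, ?_⟩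
  · have := hc
    rw [leadingCoeff, hd] at this
    exact this
  · intro x hx
    rw [eval_mul, eval_C, eval_comp, eval_mul, eval_C, eval_X, abs_mul, abs_of_pos (by positivity)]
    have h1 : |(2 * s)⁻¹ * x| ≤ 1 := by
      rw [abs_mul, abs_of_pos (by positivity)]
      rw [inv_mul_le_iff₀ (by positivity)]
      linarith
    obtain ⟨h2, h3⟩ := abs_le.mp h1
    have h4 : (2 * s)⁻¹ * x = Real.cos (Real.arccos ((2 * s)⁻¹ * x)) :=
      (Real.cos_arccos h2 h3).symm
    rw [h4, hT, Chebyshev.T_real_cos]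
    have := Real.abs_cos_le_one (((i : ℤ) : ℝ) * Real.arccos ((2 * s)⁻¹ * x))
    have h5 : (0 : ℝ) < 2 * s ^ i := by positivity
    nlinarith

section Round

variable {F : Type} [Field F] [NumberField F]

/-- Rounding of the lowest `N` coefficients. -/
theorem rounding (c0 : ℝ) (s : (F →+* ℝ) → ℝ) (hs : ∀ φ, 0 < s φ) (g : ℝ) (hg : 0 < g)
    (hprod : ∏ φ, s φ = g ^ Fintype.card (F →+* ℝ))
    (hC : ∀ s : (F →+* ℝ) → ℝ, (∀ φ, 0 < s φ) → ∏ φ, s φ = 1 →
      ∀ r : (F →+* ℝ) → ℝ, ∃ c : 𝓞 F, ∀ φ : F →+* ℝ, |φ c - r φ| ≤ c0 * s φ)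
    (N : ℕ) (P : (F →+* ℝ) → ℝ[X]) :
    ∃ Q : (F →+* ℝ) → ℝ[X], (∀ i, N ≤ i → ∀ φ, (Q φ).coeff i = (P φ).coeff i) ∧
      (∀ i < N, ∃ c : 𝓞 F, ∀ φ, (Q φ).coeff i = φ c) ∧
      ∀ φ, ∀ x : ℝ, |x| ≤ 2 * s φ →
        |(Q φ).eval x - (P φ).eval x| ≤ 2 * c0 * ∑ i ∈ Finset.range N, g ^ i := by
  induction N generalizing P with
  | zero => exact ⟨P, fun _ _ _ => rfl, fun i hi => absurd hi (Nat.not_lt_zero _), fun φ x _ => by simp⟩
  | succ N ih =>
    have hp1 : ∏ φ : F →+* ℝ, (g / s φ) ^ N = 1 := by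
      rw [Finset.prod_pow, Finset.prod_div_distrib, hprod, Finset.prod_const, Finset.card_univ,
        div_self (by positivity), one_pow]
    obtain ⟨c, hc⟩ := hC (fun φ => (g / s φ) ^ N) (fun φ => by have := hs φ; positivity) hp1
      (fun φ => (P φ).coeff N)
    choose D hD1 hD2 hD3 using fun φ => exists_small (s φ) (hs φ) N
    obtain ⟨Q, hQ1, hQ2, hQ3⟩ := ih (fun φ => P φ + C (φ c - (P φ).coeff N) * D φ)
    have hN : ∀ φ, (P φ + C (φ c - (P φ).coeff N) * D φ).coeff N = φ c := by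
      intro φ
      rw [coeff_add, coeff_C_mul, hD2, mul_one]; ring
    refine ⟨Q, ?_, ?_, ?_⟩
    · intro i hi φ
      rw [hQ1 i (by omega) φ, coeff_add, coeff_C_mul,
        coeff_eq_zero_of_natDegree_lt (p := D φ) (by rw [hD1]; omega), mul_zero, add_zero]
    · intro i hi
      rcases Nat.lt_succ_iff_lt_or_eq.mp hi with h | h
      · exact hQ2 i h
      · subst h
        exact ⟨c, fun φ => by rw [hQ1 i le_rfl φ, hN φ]⟩
    · intro φ x hx
      have h1 := hQ3 φ x hx
      rw [Finset.sum_range_succ]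
      have h2 : |(P φ + C (φ c - (P φ).coeff N) * D φ).eval x - (P φ).eval x| ≤
          2 * c0 * g ^ N := by
        rw [eval_add, add_sub_cancel_left, eval_mul, eval_C, abs_mul]
        have h3 := hc φ
        have h4 := hD3 φ x hx
        have h5 := hs φ
        calc |φ c - (P φ).coeff N| * |(D φ).eval x|
            ≤ (c0 * (g / s φ) ^ N) * (2 * s φ ^ N) :=
              mul_le_mul h3 h4 (abs_nonneg _) (le_trans (abs_nonneg _) h3)
          _ = 2 * c0 * g ^ N := by
              rw [div_pow]; field_simp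
      calc |(Q φ).eval x - (P φ).eval x|
          ≤ |(Q φ).eval x - (P φ + C (φ c - (P φ).coeff N) * D φ).eval x| +
            |(P φ + C (φ c - (P φ).coeff N) * D φ).eval x - (P φ).eval x| := abs_sub_le _ _ _
        _ ≤ 2 * c0 * (∑ i ∈ Finset.range N, g ^ i) + 2 * c0 * g ^ N := add_le_add h1 h2
        _ = _ := by ring

end Round

/-- Roots from alternation. -/
theorem alternation (f : ℝ → ℝ) (hf : Continuous f) (s : ℝ) (hs : 0 < s) (k : ℕ) (hk : 0 < k)
    (A : ℝ) (e : ℝ) (hA : 4 ≤ |A| - e)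
    (hfA : ∀ θ : ℝ, |f (2 * s * Real.cos θ) - A * Real.cos (k * θ)| ≤ e) (t : ℝ) (ht : |t| < 4) :
    ∃ S : Finset ℝ, S.card = k ∧ ∀ w ∈ S, w ^ 2 < 4 * s ^ 2 ∧ f w = t := by
  have hk' : (0 : ℝ) < k := by exact_mod_cast hk
  have hpi := Real.pi_pos
  -- values at the nodes
  have hnode : ∀ j : ℕ, |f (2 * s * Real.cos (j * Real.pi / k)) - A * (-1) ^ j| ≤ e := by
    intro j
    have := hfA (j * Real.pi / k)
    rwa [mul_div_cancel₀ _ hk'.ne', Real.cos_nat_mul_pi] at this
  have hroot : ∀ j : ℕ, ∃ θ : ℝ, j * Real.pi / k < θ ∧ θ < (j + 1 : ℕ) * Real.pi / k ∧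
      f (2 * s * Real.cos θ) = t := by
    intro j
    have hle : (j : ℝ) * Real.pi / k ≤ (j + 1 : ℕ) * Real.pi / k := by
      push_cast
      gcongr
      linarith
    set h : ℝ → ℝ := fun θ => f (2 * s * Real.cos θ) with hh
    have hcont : Continuous h := hf.comp (by fun_prop)
    have h0 := hnode j
    have h1 := hnode (j + 1)
    rw [abs_le] at h0 h1
    rw [pow_succ] at h1
    obtain ⟨ht1, ht2⟩ := abs_lt.mp ht
    have hpow : ((-1 : ℝ) ^ j = 1 ∨ (-1 : ℝ) ^ j = -1) := neg_one_pow_eq_or ℝ j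
    have hcases : (h (j * Real.pi / k) < t ∧ t < h ((j + 1 : ℕ) * Real.pi / k)) ∨
        (t < h (j * Real.pi / k) ∧ h ((j + 1 : ℕ) * Real.pi / k) < t) := by
      rcases hpow with hp | hp <;> rw [hp] at h0 h1 <;> rcases abs_cases A with ⟨hA1, _⟩ | ⟨hA1, _⟩ <;>
        rw [hA1] at hA <;> simp only [hh]
      · right; constructor <;> linarith [h0.1, h0.2, h1.1, h1.2]
      · left; constructor <;> linarith [h0.1, h0.2, h1.1, h1.2]
      · left; constructor <;> linarith [h0.1, h0.2, h1.1, h1.2]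
      · right; constructor <;> linarith [h0.1, h0.2, h1.1, h1.2]
    rcases hcases with ⟨ha, hb⟩ | ⟨ha, hb⟩
    · obtain ⟨θ, hθ, hθ2⟩ := intermediate_value_Ioo hle hcont.continuousOn ⟨ha, hb⟩
      exact ⟨θ, hθ.1, hθ.2, hθ2⟩
    · obtain ⟨θ, hθ, hθ2⟩ := intermediate_value_Ioo' hle hcont.continuousOn ⟨hb, ha⟩
      exact ⟨θ, hθ.1, hθ.2, hθ2⟩
  choose θ hθ1 hθ2 hθ3 using hroot
  have hθmem : ∀ j < k, 0 < θ j ∧ θ j < Real.pi := by
    intro j hj
    constructor
    · refine lt_of_le_of_lt ?_ (hθ1 j)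
      positivity
    · refine lt_of_lt_of_le (hθ2 j) ?_
      rw [div_le_iff₀ hk']
      have : ((j + 1 : ℕ) : ℝ) ≤ k := by exact_mod_cast hj
      nlinarith
  have hmono : StrictMono θ := by
    refine strictMono_nat_of_lt_succ fun j => ?_
    exact lt_trans (hθ2 j) (hθ1 (j + 1))
  refine ⟨(Finset.range k).image fun j => 2 * s * Real.cos (θ j), ?_, ?_⟩
  · rw [Finset.card_image_of_injOn, Finset.card_range]
    intro i hi j hj hij
    simp only [Finset.coe_range, Set.mem_Iio] at hi hj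
    have h1 : Real.cos (θ i) = Real.cos (θ j) := by
      have : (2 * s) ≠ 0 := by positivity
      exact mul_left_cancel₀ this hij
    have h2 := Real.injOn_cos ⟨(hθmem i hi).1.le, (hθmem i hi).2.le⟩
      ⟨(hθmem j hj).1.le, (hθmem j hj).2.le⟩ h1
    exact hmono.injective h2
  · intro w hw
    obtain ⟨j, hj, rfl⟩ := Finset.mem_image.mp hw
    rw [Finset.mem_range] at hj
    refine ⟨?_, hθ3 j⟩
    obtain ⟨h1, h2⟩ := hθmem j hj
    have h3 : 0 < Real.sin (θ j) := Real.sin_pos_of_pos_of_lt_pi h1 h2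
    have h4 := Real.sin_sq_add_cos_sq (θ j)
    have h5 : Real.cos (θ j) ^ 2 < 1 := by nlinarith
    have h6 : (2 * s * Real.cos (θ j)) ^ 2 = 4 * s ^ 2 * Real.cos (θ j) ^ 2 := by ring
    rw [h6]
    have h7 : 0 < 4 * s ^ 2 := by positivity
    nlinarith

theorem stmB_of_B1 : StmB1 → StmB := by
  intro hB1 F _ _ hreal y hy hy4
  obtain ⟨c0, hc0, hC⟩ := hB1 F hreal
  classical
  -- the numbers `s φ`
  set s : (F →+* ℝ) → ℝ := fun φ => Real.sqrt (φ y) / 2 with hs_def
  have hs : ∀ φ, 0 < s φ := fun φ => by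
    have := Real.sqrt_pos.mpr (hy φ)
    simp only [hs_def]; positivity
  have hs2 : ∀ φ, s φ ^ 2 = φ y / 4 := fun φ => by
    simp only [hs_def]
    rw [div_pow, Real.sq_sqrt (hy φ).le]; norm_num
  set d := Fintype.card (F →+* ℝ) with hd
  have hdle : d ≤ Module.finrank ℚ F := by
    rw [← NumberField.Embeddings.card F ℂ]
    refine Fintype.card_le_of_injective (fun φ => (Complex.ofRealHom).comp φ) ?_
    intro φ ψ h
    ext x
    have := congrArg (fun f : F →+* ℂ => f x) h
    simpa using this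
  have hd0 : d ≠ 0 := by
    intro h
    have : IsEmpty (F →+* ℝ) := Fintype.card_eq_zero_iff.mp h
    rw [Finset.univ_eq_empty, Finset.prod_empty] at hy4
    have : (1 : ℝ) ≤ 4 ^ Module.finrank ℚ F := one_le_pow₀ (by norm_num)
    linarith
  have hps : 1 < ∏ φ, s φ := by
    have h1 : (∏ φ, s φ) ^ 2 = (∏ φ : F →+* ℝ, φ y) / 4 ^ d := by
      rw [← Finset.prod_pow, Finset.prod_congr rfl (fun φ _ => hs2 φ), Finset.prod_div_distrib,
        Finset.prod_const, Finset.card_univ]
    have h2 : (4 : ℝ) ^ d ≤ 4 ^ Module.finrank ℚ F := pow_le_pow_right₀ (by norm_num) hdle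
    have h3 : 1 < (∏ φ, s φ) ^ 2 := by
      rw [h1, one_lt_div (by positivity)]
      linarith
    have h4 : 0 ≤ ∏ φ, s φ := Finset.prod_nonneg fun φ _ => (hs φ).le
    by_contra hcon
    push Not at hcon
    nlinarith
  set g : ℝ := (∏ φ, s φ) ^ ((d : ℝ)⁻¹) with hg_def
  have hg1 : 1 < g := Real.one_lt_rpow hps (by positivity)
  have hg0 : 0 < g := by linarith
  have hprod : ∏ φ, s φ = g ^ d := by
    rw [hg_def, Real.rpow_inv_natCast_pow (by linarith) hd0]
  -- the parameters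
  obtain ⟨m, hm⟩ := pow_unbounded_of_one_lt (2 * c0 ^ 2 * g / (g - 1)) hg1
  have hyint : IsIntegral ℤ (y : F) := RingOfIntegers.isIntegral_coe y
  obtain ⟨r0, hr0⟩ := EE_top hyint m
  obtain ⟨r1, hr1⟩ := pow_unbounded_of_one_lt (4 * c0) hg1
  set r := max r0 (max r1 m) with hr
  set k := 2 ^ r with hk
  have hkr : r < k := Nat.lt_two_pow_self
  have hkm : m ≤ k := by
    have : m ≤ r := le_trans (le_max_right r1 m) (le_max_right _ _)
    omega
  have hkr1 : r1 ≤ k := by
    have : r1 ≤ r := le_trans (le_max_left r1 m) (le_max_right _ _)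
    omega
  have hk0 : 0 < k := Nat.two_pow_pos r
  have hgk : 4 * c0 ≤ g ^ k := le_trans hr1.le (pow_le_pow_right₀ hg1.le hkr1)
  -- the unit
  have hp1 : ∏ φ : F →+* ℝ, (g / s φ) ^ k = 1 := by
    rw [Finset.prod_pow, Finset.prod_div_distrib, hprod, Finset.prod_const, Finset.card_univ,
      div_self (by positivity), one_pow]
  obtain ⟨⟨u, hu⟩, -⟩ := hC (fun φ => (g / s φ) ^ k) (fun φ => by have := hs φ; positivity) hp1
  -- rounding
  have hN : k - m + 1 + m = k + 1 := by omega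
  obtain ⟨Q, hQ1, hQ2, hQ3⟩ := rounding c0 s hs g hg0 hprod (fun s' hs' hp' => (hC s' hs' hp').2)
    (k - m + 1) (fun φ => (C ((u : 𝓞 F) : F) * EE (y : F) r).map φ)
  have hint : ∀ i, ∃ c : 𝓞 F, ∀ φ, (Q φ).coeff i = φ c := by
    intro i
    by_cases hi : i < k - m + 1
    · exact hQ2 i hi
    · push Not at hi
      have h1 : IsIntegral ℤ ((EE (y : F) r).coeff i) :=
        hr0 r (le_max_left _ _) i (by omega)
      have h2 : IsIntegral ℤ (((u : 𝓞 F) : F) * (EE (y : F) r).coeff i) :=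
        (RingOfIntegers.isIntegral_coe _).mul h1
      refine ⟨⟨_, h2⟩, fun φ => ?_⟩
      rw [hQ1 i hi φ, coeff_map, coeff_C_mul]
      rfl
  choose c hc using hint
  have hEd := EE_natDegree_monic (y : F) r
  have hck : c k = (u : 𝓞 F) := by
    obtain ⟨φ⟩ : Nonempty (F →+* ℝ) := by
      rw [← Fintype.card_pos_iff]; exact Nat.pos_of_ne_zero hd0
    apply RingOfIntegers.ext
    apply φ.injective
    rw [← hc k φ]
    by_cases hkN : k < k - m + 1
    · -- then `m = 0`, impossible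
      exfalso
      have hm0 : m = 0 := by omega
      rw [hm0, pow_zero] at hm
      have : (1 : ℝ) ≤ 2 * c0 ^ 2 * g / (g - 1) := by
        rw [le_div_iff₀ (by linarith)]
        have h1 : (1 : ℝ) ≤ c0 ^ 2 := one_le_pow₀ hc0
        have h2 : 2 * 1 * g ≤ 2 * c0 ^ 2 * g := by gcongr
        linarith
      linarith
    · rw [hQ1 k (by omega) φ, coeff_map, coeff_C_mul]
      have : (EE (y : F) r).coeff k = 1 := by
        have h1 := hEd.2
        rw [Monic, leadingCoeff, hEd.1] at h1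
        exact h1
      rw [this, mul_one]
  set R : (𝓞 F)[X] := ∑ i ∈ Finset.range (k + 1), monomial i (c i) with hR
  have hRcoeff : ∀ i, R.coeff i = if i ≤ k then c i else 0 := by
    intro i
    rw [hR, finsetSum_coeff]
    simp only [coeff_monomial]
    rw [Finset.sum_ite_eq']
    simp
  have hRd : R.natDegree = k := by
    apply natDegree_eq_of_le_of_coeff_ne_zero
    · rw [natDegree_le_iff_coeff_eq_zero]
      intro i hi
      rw [hRcoeff, if_neg (by omega)]
    · rw [hRcoeff, if_pos le_rfl, hck]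
      exact u.ne_zero
  have hRmap : ∀ φ : F →+* ℝ, R.map (φ.comp (algebraMap (𝓞 F) F)) = Q φ := by
    intro φ
    ext i
    rw [coeff_map, hRcoeff]
    by_cases hi : i ≤ k
    · rw [if_pos hi, hc i φ]; rfl
    · rw [if_neg hi, map_zero, hQ1 i (by omega) φ, coeff_map, coeff_C_mul,
        coeff_eq_zero_of_natDegree_lt (by rw [hEd.1]; omega), mul_zero, map_zero]
  refine ⟨R, ?_, by omega, ?_⟩
  · rw [leadingCoeff, hRd, hRcoeff, if_pos le_rfl, hck]
    exact u.isUnit
  intro φ t ht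
  rw [hRd, hRmap φ]
  have hsφ := hs φ
  have hamp : 4 ≤ |φ (u : 𝓞 F) * (2 * s φ ^ k)| -
      2 * c0 * ∑ i ∈ Finset.range (k - m + 1), g ^ i := by
    have h1 : |φ (u : 𝓞 F) * (2 * s φ ^ k)| = 2 * (|φ (u : 𝓞 F)| * s φ ^ k) := by
      rw [abs_mul, abs_of_pos (show (0 : ℝ) < 2 * s φ ^ k by positivity)]; ring
    have h2 : g ^ k / c0 ≤ |φ (u : 𝓞 F)| * s φ ^ k := by
      have := (hu φ).1
      rw [div_pow] at this
      calc g ^ k / c0 = (g ^ k / s φ ^ k / c0) * s φ ^ k := by field_simp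
        _ ≤ _ := mul_le_mul_of_nonneg_right this (by positivity)
    have h3 : ∑ i ∈ Finset.range (k - m + 1), g ^ i ≤ g ^ (k - m + 1) / (g - 1) := by
      rw [geom_sum_eq hg1.ne']
      gcongr
      · linarith
    have h4 : 2 * c0 * (g ^ (k - m + 1) / (g - 1)) ≤ g ^ k / c0 := by
      rw [div_lt_iff₀ (by linarith)] at hm
      rw [le_div_iff₀ (by linarith), mul_div_assoc', div_mul_eq_mul_div, div_le_iff₀ (by linarith)]
      have h5 : g ^ k = g ^ (k - m) * g ^ m := by rw [← pow_add]; congr 1; omega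
      rw [h5, pow_succ]
      have h6 : 0 < g ^ (k - m) := by positivity
      nlinarith [mul_le_mul_of_nonneg_left hm.le h6.le]
    have h5 : 4 ≤ g ^ k / c0 := by
      rw [le_div_iff₀ (by linarith)]; exact hgk
    have h6 : 2 * c0 * ∑ i ∈ Finset.range (k - m + 1), g ^ i ≤ g ^ k / c0 :=
      le_trans (mul_le_mul_of_nonneg_left h3 (by linarith)) h4
    rw [h1]
    linarith
  have happ : ∀ θ : ℝ, |(Q φ).eval (2 * s φ * Real.cos θ) -
      φ (u : 𝓞 F) * (2 * s φ ^ k) * Real.cos (k * θ)| ≤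
      2 * c0 * ∑ i ∈ Finset.range (k - m + 1), g ^ i := by
    intro θ
    have h1 := hQ3 φ (2 * s φ * Real.cos θ) (by
      rw [abs_mul, abs_of_pos (by positivity)]
      have := Real.abs_cos_le_one θ
      nlinarith)
    rw [Polynomial.map_mul, map_C, eval_mul, eval_C, EE_eval (y : F) φ (s φ) (hs2 φ) r θ] at h1
    have h2 : ((k : ℕ) : ℝ) = 2 ^ r := by rw [hk]; push_cast; rfl
    rw [h2, hk]
    have h3 : φ (u : 𝓞 F) * (2 * s φ ^ 2 ^ r) * Real.cos (2 ^ r * θ) =
        φ (u : 𝓞 F) * (2 * s φ ^ 2 ^ r * Real.cos (2 ^ r * θ)) := by ring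
    rw [h3]
    exact h1
  obtain ⟨S, hS1, hS2⟩ := alternation (fun x => (Q φ).eval x) (Q φ).continuous (s φ) hsφ k hk0
    (φ (u : 𝓞 F) * (2 * s φ ^ k)) (2 * c0 * ∑ i ∈ Finset.range (k - m + 1), g ^ i) hamp happ t ht
  refine ⟨S, hS1, fun w hw => ⟨?_, (hS2 w hw).2⟩⟩
  have h1 := (hS2 w hw).1
  rw [hs2 φ] at h1
  linarith

end Pool.Agent.TH73.J208
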