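import Pool.Agent.TH182.NC.Defs
set_option autoImplicit false
open Pool.Agent.TH215.TM
namespace Pool.Agent.TH73.NCchain

section
variable {S A : Type} [CommRing S] [Ring A] [Algebra S A]

def T (φ : A) (u : S) (a : A) : A := φ * a - u • (a * φ)

def Q (φ : A) (u : S) (a : A) : A :=
  φ ^ 3 * a + u • (φ ^ 2 * a * φ) + u ^ 2 • (φ * a * φ ^ 2) + u ^ 3 • (a * φ ^ 3)

theorem TTT (φ : A) (a b c : S) (x : A) : T φ a (T φ b (T φ c x)) =
    φ ^ 3 * x - (a + b + c) • (φ ^ 2 * x * φ) + (a * b + b * c + a * c) • (φ * x * φ ^ 2)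
      - (a * b * c) • (x * φ ^ 3) := by
  unfold T
  simp only [mul_sub, sub_mul, smul_mul_assoc, mul_smul_comm, smul_sub, smul_smul, pow_succ,
    pow_zero, one_mul, mul_assoc]
  module

theorem Q_eq (φ : A) (u a b c : S) (x : A) (h1 : u = -(a + b + c)) (h2 : u ^ 2 = a * b + b * c + a * c)
    (h3 : u ^ 3 = -(a * b * c)) : Q φ u x = T φ a (T φ b (T φ c x)) := by
  rw [TTT, Q, h2, h3, h1]
  module

theorem T_smul (φ : A) (u s : S) (x : A) : T φ u (s • x) = s • T φ u x := by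
  unfold T
  simp only [mul_smul_comm, smul_mul_assoc, smul_sub, smul_smul, mul_comm]

theorem T_zero (φ : A) (u : S) : T φ u 0 = 0 := by simp [T]

theorem T_one (φ : A) : T φ (1 : S) 1 = 0 := by simp [T]

theorem Q_tau (φ τ : A) (c z : S) (hτ : τ * φ = z • (φ * τ)) (u : A) :
    Q φ c (u * τ) = Q φ (c * z) u * τ := by
  have h2 : τ * φ ^ 2 = z ^ 2 • (φ ^ 2 * τ) := by
    rw [pow_two, ← mul_assoc, hτ, smul_mul_assoc, mul_assoc, hτ, mul_smul_comm, smul_smul,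
      ← mul_assoc, pow_two]
  have h3 : τ * φ ^ 3 = z ^ 3 • (φ ^ 3 * τ) := by
    rw [pow_succ φ 2, ← mul_assoc, h2, smul_mul_assoc, mul_assoc, hτ, mul_smul_comm, smul_smul,
      ← mul_assoc, ← pow_succ, ← pow_succ]
  unfold Q
  have e1 : φ ^ 2 * (u * τ) * φ = z • (φ ^ 2 * u * φ * τ) := by
    rw [mul_assoc, mul_assoc u, hτ, mul_smul_comm, mul_smul_comm]
    congr 1
    simp only [mul_assoc]
  have e2 : φ * (u * τ) * φ ^ 2 = z ^ 2 • (φ * u * φ ^ 2 * τ) := by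
    rw [mul_assoc, mul_assoc u, h2, mul_smul_comm, mul_smul_comm]
    congr 1
    simp only [mul_assoc]
  have e3 : (u * τ) * φ ^ 3 = z ^ 3 • (u * φ ^ 3 * τ) := by
    rw [mul_assoc u, h3, mul_smul_comm]
    congr 1
    simp only [mul_assoc]
  rw [e1, e2, e3]
  simp only [add_mul, smul_mul_assoc, smul_smul, mul_pow, mul_assoc]

theorem T_rho (φ ρ : A) (c z w : S) (hzw : z * w = 1) (hρ : ρ * φ = w • (φ * ρ)) (b : A) :
    T φ (c * z) (b * ρ) = T φ c b * ρ := by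
  unfold T
  rw [mul_assoc b ρ φ, hρ, mul_smul_comm, smul_smul, mul_assoc c z w, hzw, mul_one, sub_mul,
    smul_mul_assoc]
  simp only [mul_assoc]

theorem chain_gen (z w : S) (hz : z ^ 2 = -1) (hzw : z * w = 1) (φ : A) (W : Submonoid S)
    (hrig : ∃ s ∈ W, ∀ u : A, Q φ (1 : S) u = 0 → ∃ b : A, s • u = T φ (1 : S) b)
    (τ ρ : A) (s' : S) (hs' : s' ∈ W) (hτ : τ * φ = z • (φ * τ)) (hρ : ρ * φ = w • (φ * ρ))
    (hτρ : τ * ρ = s' • (1 : A)) : ∃ s ∈ W, ∃ a : A, Q φ (1 : S) a = s • (1 : A) := by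
  have step : ∀ c : S, (∃ s ∈ W, ∀ u : A, Q φ c u = 0 → ∃ b : A, s • u = T φ c b) →
      (∃ s ∈ W, ∀ u : A, Q φ (c * z) u = 0 → ∃ b : A, s • u = T φ (c * z) b) := by
    rintro c ⟨s, hs, h⟩
    refine ⟨s * s', W.mul_mem hs hs', fun u hu => ?_⟩
    obtain ⟨b, hb⟩ := h (u * τ) (by rw [Q_tau φ τ c z hτ, hu, zero_mul])
    refine ⟨b * ρ, ?_⟩
    rw [T_rho φ ρ c z w hzw hρ, ← hb, smul_mul_assoc, mul_assoc, hτρ, mul_smul_comm, mul_one,
      smul_smul]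
  obtain ⟨s1, hs1, E1⟩ := step 1 hrig
  obtain ⟨s2, hs2, E2⟩ := step _ ⟨s1, hs1, E1⟩
  obtain ⟨s3, hs3, E3⟩ := step _ ⟨s2, hs2, E2⟩
  have c1 : (1 : S) * z = z := one_mul z
  have c2 : z * z = -1 := by rw [← pow_two, hz]
  have c3 : (-1 : S) * z = -z := by ring
  have hz3 : z ^ 3 = -z := by rw [pow_succ, hz]; ring
  rw [c1] at E1 E2 E3
  rw [c2] at E2 E3
  rw [c3] at E3
  obtain ⟨u1, hu1⟩ := E1 1 (by
    rw [Q_eq φ z (-1) (-z) 1 1 (by ring) (by rw [hz]; ring) (by rw [hz3]; ring), T_one, T_zero,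
      T_zero])
  obtain ⟨u2, hu2⟩ := E2 u1 (by
    rw [Q_eq φ (-1) (-z) 1 z u1 (by ring) (by linear_combination hz)
      (by linear_combination (-1 : S) * hz), ← hu1, T_smul, T_one, smul_zero, T_zero])
  obtain ⟨u3, hu3⟩ := E3 u2 (by
    rw [Q_eq φ (-z) 1 z (-1) u2 (by ring) (by linear_combination hz)
      (by linear_combination (-1 : S) * hz3), ← hu2, T_smul, ← hu1, T_smul, T_smul, T_one,
      smul_zero, smul_zero])
  refine ⟨s3 * (s2 * s1), W.mul_mem hs3 (W.mul_mem hs2 hs1), u3, ?_⟩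
  rw [Q_eq φ 1 z (-1) (-z) u3 (by ring) (by linear_combination hz)
    (by linear_combination hz), ← hu3, T_smul, ← hu2, T_smul, T_smul, ← hu1,
    smul_smul, smul_smul, mul_assoc]

end

theorem chain' (F : Type) [AddCommGroup F] [Module S3 F] (φ : Module.End S3 F)
    (hφ : φ ^ 4 = - (g3 • (1 : Module.End S3 F))) (W : Submonoid S3)
    (hrig : ∃ s ∈ W, ∀ u : Module.End S3 F, tr4 φ u = 0 →
      ∃ b : Module.End S3 F, s • u = φ * b - b * φ)
    (τ ρ : Module.End S3 F) (s' : S3) (hs' : s' ∈ W)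
    (hτ : τ * φ = (MvPolynomial.C (-Complex.I) : S3) • (φ * τ))
    (hρ : ρ * φ = (MvPolynomial.C Complex.I : S3) • (φ * ρ))
    (hτρ : τ * ρ = s' • (1 : Module.End S3 F)) :
    ∃ s ∈ W, ∃ a : Module.End S3 F, tr4 φ a = s • (1 : Module.End S3 F) := by
  have _ := hφ
  have htr : ∀ a : Module.End S3 F, tr4 φ a = Q φ (1 : S3) a := by
    intro a
    simp only [tr4, Q, Finset.sum_range_succ, Finset.sum_range_zero, one_pow, one_smul,
      pow_zero, pow_one, one_mul, mul_one, Nat.sub_zero, Nat.reduceSub]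
    abel
  obtain ⟨s, hs, hrig'⟩ := hrig
  obtain ⟨t, ht, a, ha⟩ := chain_gen (MvPolynomial.C (-Complex.I) : S3)
    (MvPolynomial.C Complex.I : S3) (by
      rw [← map_pow, neg_sq, Complex.I_sq, map_neg, map_one]) (by
      rw [← map_mul, neg_mul, Complex.I_mul_I, neg_neg, map_one]) φ W
    ⟨s, hs, fun u hu => by
      obtain ⟨b, hb⟩ := hrig' u (by rw [htr, hu])
      exact ⟨b, by rw [hb, T, one_smul]⟩⟩ τ ρ s' hs' hτ hρ hτρ
  exact ⟨t, ht, a, by rw [htr, ha]⟩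

end Pool.Agent.TH73.NCchain
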