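import Pool.Agent.H314.BK.C3
import Pool.Agent.W767.HL.Poi

/-!
# Quotients of entire functions of exponential type in several variables
-/

set_option autoImplicit false

open MeasureTheory Complex Filter Topology Metric
open scoped ContDiff ComplexConjugate

namespace Pool.Agent.TH73.J214

open BK

/-- Jensen's inequality on the unit circle. -/
theorem jensen_le {f : ℂ → ℂ} (hf : Differentiable ℂ f) (h0 : f 0 ≠ 0) :
    Real.log ‖f 0‖ ≤ Real.circleAverage (fun z => Real.log ‖f z‖) 0 1 := by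
  have hA : AnalyticOnNhd ℂ f (closedBall 0 |1|) := fun z _ => hf.analyticAt z
  rw [hA.circleAverage_log_norm one_ne_zero h0]
  have : 0 ≤ ∑ᶠ u, MeromorphicOn.divisor f (closedBall 0 |1|) u * Real.log (1 * ‖0 - u‖⁻¹) := by
    refine finsum_nonneg fun u => ?_
    by_cases hu : u ∈ closedBall (0 : ℂ) |1|
    · refine mul_nonneg (mod_cast (MeromorphicOn.AnalyticOnNhd.divisor_nonneg hA) u) ?_
      rw [one_mul, zero_sub, norm_neg]
      rw [mem_closedBall_zero_iff, abs_one] at hu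
      by_cases hu0 : ‖u‖ = 0
      · rw [hu0]; simp
      · refine Real.log_nonneg ?_
        exact (one_le_inv₀ (lt_of_le_of_ne (norm_nonneg _) (Ne.symm hu0))).mpr hu
    · rw [Function.locallyFinsuppWithin.apply_eq_zero_of_notMem _ hu]; simp
  linarith

/-- The one variable estimate. -/
theorem key {f q : ℂ → ℂ} (hf : Differentiable ℂ f) (hq : Differentiable ℂ q) (h0 : f 0 ≠ 0)
    {M : ℝ} (hM : 1 ≤ M) (hfM : ∀ z : ℂ, ‖z‖ = 1 → ‖f z‖ ≤ M)
    (hg : ∀ z : ℂ, ‖z‖ = 1 → ‖f z * q z‖ ≤ M) :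
    ‖q (1 / 2)‖ ≤ Real.exp (4 * (Real.log M - Real.log ‖f 0‖)) := by
  classical
  have hw : ‖(1 / 2 : ℂ)‖ < 1 := by norm_num
  set F : ℂ → ℝ := fun z => Real.log (max 1 (‖q z‖ ^ 2)) with hF
  have hmax : ∀ z, 1 ≤ max 1 (‖q z‖ ^ 2) := fun z => le_max_left _ _
  have hFc : Continuous F := by
    refine Continuous.log (continuous_const.max (hq.continuous.norm.pow 2)) fun z => ?_
    have := hmax z
    linarith
  have hF0 : ∀ z, 0 ≤ F z := fun z => Real.log_nonneg (hmax z)
  have hzc := W767.HL.continuous_ze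
  have h1 := W767.HL.jensen hq (v := fun θ => max 1 (‖q (W767.HL.ze θ)‖ ^ 2))
    (continuous_const.max ((hq.continuous.comp hzc).norm.pow 2))
    (fun θ => lt_of_lt_of_le one_pos (hmax _)) (fun θ => le_max_right _ _) hw
  have h2 : ∫ θ, W767.HL.P (1 / 2) θ * Real.log (max 1 (‖q (W767.HL.ze θ)‖ ^ 2)) ∂W767.HL.mu ≤
      4 * Real.circleAverage F 0 1 := by
    rw [← W767.HL.integral_ze, ← integral_const_mul]
    refine integral_mono
      (W767.HL.integrable_of_cont ((W767.HL.continuous_P hw).mul (hFc.comp hzc)))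
      (W767.HL.integrable_of_cont (continuous_const.mul (hFc.comp hzc))) fun θ => ?_
    refine mul_le_mul_of_nonneg_right ?_ (hF0 _)
    refine (W767.HL.P_le hw θ).trans ?_
    norm_num
  -- the average of `F`
  have hA : AnalyticOnNhd ℂ f Set.univ := fun z _ => hf.analyticAt z
  have hcod : ∀ᶠ z in codiscreteWithin (sphere (0 : ℂ) |1|), f z ≠ 0 := by
    rcases hA.eqOn_zero_or_eventually_ne_zero_of_preconnected isPreconnected_univ with h | h
    · exact absurd (h (Set.mem_univ 0)) h0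
    · exact h.filter_mono (Filter.codiscreteWithin_mono (Set.subset_univ _))
  set F' : ℂ → ℝ := fun z => if f z = 0 then 0 else F z with hF'
  have hFF' : F =ᶠ[codiscreteWithin (sphere (0 : ℂ) |1|)] F' := by
    filter_upwards [hcod] with z hz
    simp only [hF', if_neg hz]
  have hFi : CircleIntegrable F 0 1 := hFc.continuousOn.circleIntegrable zero_le_one
  have hF'i : CircleIntegrable F' 0 1 := (circleIntegrable_congr_codiscreteWithin hFF').mp hFi
  have hli : CircleIntegrable (fun z => Real.log ‖f z‖) 0 1 :=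
    MeromorphicOn.circleIntegrable_log_norm fun z _ => (hf.analyticAt z).meromorphicAt
  have h3 : Real.circleAverage F 0 1 ≤ 2 * (Real.log M - Real.log ‖f 0‖) := by
    rw [Real.circleAverage_congr_codiscreteWithin hFF' one_ne_zero]
    have h4 : Real.circleAverage F' 0 1 ≤
        Real.circleAverage (fun z => 2 * Real.log M + (-2) * Real.log ‖f z‖) 0 1 := by
      refine Real.circleAverage_mono hF'i ((circleIntegrable_const _ _ _).add
        (hli.const_fun_smul (a := (-2 : ℝ)))) fun z hz => ?_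
      have hz1 : ‖z‖ = 1 := by simpa using hz
      simp only [hF']
      split_ifs with hfz
      · rw [hfz, norm_zero, Real.log_zero, mul_zero, add_zero]
        have := Real.log_nonneg hM
        linarith
      · have hpos : 0 < ‖f z‖ := norm_pos_iff.mpr hfz
        have h5 : ‖q z‖ ≤ M / ‖f z‖ := by
          rw [le_div_iff₀ hpos, mul_comm, ← norm_mul]; exact hg z hz1
        have h6 : 1 ≤ M / ‖f z‖ := by
          rw [le_div_iff₀ hpos, one_mul]; exact hfM z hz1
        have h7 : max 1 (‖q z‖ ^ 2) ≤ (M / ‖f z‖) ^ 2 :=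
          max_le (one_le_pow₀ h6) (pow_le_pow_left₀ (norm_nonneg _) h5 2)
        calc F z ≤ Real.log ((M / ‖f z‖) ^ 2) :=
              Real.log_le_log (lt_of_lt_of_le one_pos (hmax z)) h7
          _ = 2 * Real.log M + (-2) * Real.log ‖f z‖ := by
              rw [Real.log_pow, Real.log_div (by linarith) hpos.ne']; push_cast; ring
    refine h4.trans ?_
    have hli2 : CircleIntegrable (fun z => (-2) * Real.log ‖f z‖) 0 1 :=
      hli.const_fun_smul (a := (-2 : ℝ))
    rw [Real.circleAverage_fun_add (circleIntegrable_const _ _ _) hli2, Real.circleAverage_const]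
    have h8 : Real.circleAverage (fun z => (-2) * Real.log ‖f z‖) 0 1 =
        (-2) * Real.circleAverage (fun z => Real.log ‖f z‖) 0 1 :=
      Real.circleAverage_fun_smul (a := (-2 : ℝ))
    rw [h8]
    have := jensen_le hf h0
    linarith
  have h9 : ‖q (1 / 2)‖ ^ 2 ≤ Real.exp (4 * (Real.log M - Real.log ‖f 0‖)) ^ 2 := by
    refine h1.trans ?_
    rw [← Real.exp_nat_mul]
    refine Real.exp_le_exp.mpr ?_
    refine h2.trans ?_
    push_cast
    linarith
  exact le_of_sq_le_sq h9 (Real.exp_pos _).le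

theorem quot_exp {n : ℕ} (φ χ : En n → ℂ) (hφ : Differentiable ℂ φ) (hχ : Differentiable ℂ χ)
    (h0 : ∃ z, φ z ≠ 0) (C A : ℝ) (hφb : ∀ z, ‖φ z‖ ≤ C * Real.exp (A * ‖z‖))
    (hψb : ∀ z, ‖φ z * χ z‖ ≤ C * Real.exp (A * ‖z‖)) :
    ∃ C' A' : ℝ, 0 ≤ A' ∧ ∀ z, ‖χ z‖ ≤ C' * Real.exp (A' * ‖z‖) := by
  obtain ⟨z0, hz0⟩ := h0
  refine ⟨Real.exp (4 * (Real.log (1 + |C|) + 3 * |A| * ‖z0‖ - Real.log ‖φ z0‖)), 8 * |A|,
    by positivity, fun z => ?_⟩
  set ζ : En n := z - z0 with hζ
  set B : ℝ := ‖z0‖ + 2 * ‖ζ‖ with hB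
  have hB0 : 0 ≤ B := by positivity
  set M : ℝ := (1 + |C|) * Real.exp (|A| * B) with hM
  have hC1 : 1 ≤ 1 + |C| := by linarith [abs_nonneg C]
  have hE1 : 1 ≤ Real.exp (|A| * B) := Real.one_le_exp (by positivity)
  have hM1 : 1 ≤ M := by nlinarith
  have hline : Differentiable ℂ fun l : ℂ => z0 + (2 * l) • ζ := by fun_prop
  have hbd : ∀ w : En n, ‖w‖ ≤ B → C * Real.exp (A * ‖w‖) ≤ M := by
    intro w hw
    have h1 : A * ‖w‖ ≤ |A| * B :=
      (mul_le_mul_of_nonneg_right (le_abs_self A) (norm_nonneg _)).trans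
        (mul_le_mul_of_nonneg_left hw (abs_nonneg A))
    calc C * Real.exp (A * ‖w‖) ≤ (1 + |C|) * Real.exp (A * ‖w‖) :=
          mul_le_mul_of_nonneg_right (by linarith [le_abs_self C]) (Real.exp_pos _).le
      _ ≤ M := mul_le_mul_of_nonneg_left (Real.exp_le_exp.mpr h1) (by linarith)
  have hnorm : ∀ l : ℂ, ‖l‖ = 1 → ‖z0 + (2 * l) • ζ‖ ≤ B := by
    intro l hl
    refine (norm_add_le _ _).trans ?_
    rw [norm_smul, norm_mul, hl]
    simp [hB]
  have hk := key (f := fun l => φ (z0 + (2 * l) • ζ)) (q := fun l => χ (z0 + (2 * l) • ζ))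
    (hφ.comp hline) (hχ.comp hline) (by simpa using hz0) hM1
    (fun l hl => (hφb _).trans (hbd _ (hnorm l hl)))
    (fun l hl => (hψb _).trans (hbd _ (hnorm l hl)))
  have e1 : z0 + (2 * (1 / 2 : ℂ)) • ζ = z := by
    rw [show (2 * (1 / 2 : ℂ)) = 1 by norm_num, one_smul, hζ]; abel
  simp only [e1, mul_zero, zero_smul, add_zero] at hk
  refine hk.trans ?_
  rw [← Real.exp_add]
  refine Real.exp_le_exp.mpr ?_
  have hlogM : Real.log M = Real.log (1 + |C|) + |A| * B := by
    rw [hM, Real.log_mul (by linarith) (Real.exp_pos _).ne', Real.log_exp]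
  have hζn : ‖ζ‖ ≤ ‖z‖ + ‖z0‖ := norm_sub_le _ _
  have hB' : B ≤ 3 * ‖z0‖ + 2 * ‖z‖ := by rw [hB]; linarith
  have h5 : |A| * B ≤ |A| * (3 * ‖z0‖ + 2 * ‖z‖) := mul_le_mul_of_nonneg_left hB' (abs_nonneg A)
  rw [hlogM]
  nlinarith

end Pool.Agent.TH73.J214
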