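import Pool.Agent.TH28.FL.Dat

/-!
# Centralisers of semisimple elements are reductive (job FL2-LEVI)
-/

set_option autoImplicit false

universe u v

namespace Pool.Agent.TH73.J1774

open Module Pool.Agent.TH28.FL

variable {K : Type u} [Field K] {L : Type v} [LieRing L] [LieAlgebra K L]

/-- invariance of the Killing form -/
theorem kinv (x y z : L) : killingForm K L ⁅x, y⁆ z = killingForm K L x ⁅y, z⁆ :=
  LieModule.traceForm_apply_lie_apply K L L x y z

theorem ksymm (x y : L) : killingForm K L x y = killingForm K L y x :=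
  LieModule.traceForm_comm K L L x y

theorem kzero [FiniteDimensional K L] [LieAlgebra.IsKilling K L] (y : L)
    (h : ∀ x : L, killingForm K L y x = 0) : y = 0 :=
  (LieAlgebra.IsKilling.killingForm_nondegenerate K L).1 y h

/-- (1) the Killing form is nondegenerate on the centraliser -/
theorem nondeg [IsAlgClosed K] [FiniteDimensional K L] [LieAlgebra.IsKilling K L] (s : L)
    (hs : (LieAlgebra.ad K L s).IsSemisimple) (y : L) (hy : ⁅s, y⁆ = 0)
    (h : ∀ a : L, ⁅s, a⁆ = 0 → killingForm K L y a = 0) : y = 0 := by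
  apply kzero (K := K)
  intro x
  have hx : x ∈ ⨆ μ : K, (LieAlgebra.ad K L s).eigenspace μ := by
    rw [hs.iSup_eigenspace_eq_top]; exact Submodule.mem_top
  induction hx using Submodule.iSup_induction' with
  | mem μ x hx =>
    rw [Module.End.mem_eigenspace_iff, LieAlgebra.ad_apply] at hx
    by_cases hμ : μ = 0
    · subst hμ
      exact h x (by rw [hx, zero_smul])
    · have h1 : killingForm K L y ⁅s, x⁆ = 0 := by
        rw [← kinv, ← lie_skew, hy, neg_zero, map_zero, LinearMap.zero_apply]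
      rw [hx, map_smul, smul_eq_mul] at h1
      exact (mul_eq_zero.1 h1).resolve_left hμ
  | zero => exact map_zero _
  | add x x' _ _ h1 h2 => rw [map_add, h1, h2, add_zero]

/-- the span of the brackets of the centraliser -/
def dd (K : Type u) [Field K] {L : Type v} [LieRing L] [LieAlgebra K L] (s : L) :
    Submodule K L :=
  Submodule.span K {z : L | ∃ a b : L, ⁅s, a⁆ = 0 ∧ ⁅s, b⁆ = 0 ∧ z = ⁅a, b⁆}

theorem comm_br (s a b : L) (ha : ⁅s, a⁆ = 0) (hb : ⁅s, b⁆ = 0) : ⁅s, ⁅a, b⁆⁆ = 0 := by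
  rw [leibniz_lie, ha, hb, zero_lie, lie_zero, add_zero]

theorem dd_comm (s y : L) (hy : y ∈ dd K s) : ⁅s, y⁆ = 0 := by
  unfold dd at hy
  induction hy using Submodule.span_induction with
  | mem x hx =>
    obtain ⟨a, b, ha, hb, rfl⟩ := hx
    exact comm_br s a b ha hb
  | zero => exact lie_zero _
  | add x y _ _ h1 h2 => rw [lie_add, h1, h2, add_zero]
  | smul c x _ h1 => rw [lie_smul, h1, smul_zero]

/-- the trace of `ad y` on a common stable subspace vanishes -/
theorem trace_dd [FiniteDimensional K L] (s : L) (V : Submodule K L)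
    (hV : ∀ a : L, ⁅s, a⁆ = 0 → ∀ x ∈ V, ⁅a, x⁆ ∈ V) (y : L) (hy : y ∈ dd K s)
    (h : ∀ x ∈ V, (LieAlgebra.ad K L y) x ∈ V) :
    LinearMap.trace K V ((LieAlgebra.ad K L y).restrict h) = 0 := by
  suffices H : ∃ h : ∀ x ∈ V, (LieAlgebra.ad K L y) x ∈ V,
      LinearMap.trace K V ((LieAlgebra.ad K L y).restrict h) = 0 by
    obtain ⟨h', e⟩ := H
    exact e
  clear h
  unfold dd at hy
  induction hy using Submodule.span_induction with
  | mem x hx =>
    obtain ⟨a, b, ha, hb, rfl⟩ := hx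
    refine ⟨fun x hx => hV _ (comm_br s a b ha hb) x hx, ?_⟩
    have h1 : (LieAlgebra.ad K L ⁅a, b⁆).restrict
        (fun x hx => hV _ (comm_br s a b ha hb) x hx : ∀ x ∈ V, (LieAlgebra.ad K L ⁅a, b⁆) x ∈ V) =
        ((LieAlgebra.ad K L a).restrict (fun x hx => hV a ha x hx :
          ∀ x ∈ V, (LieAlgebra.ad K L a) x ∈ V)) *
        ((LieAlgebra.ad K L b).restrict (fun x hx => hV b hb x hx :
          ∀ x ∈ V, (LieAlgebra.ad K L b) x ∈ V)) -
        ((LieAlgebra.ad K L b).restrict (fun x hx => hV b hb x hx :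
          ∀ x ∈ V, (LieAlgebra.ad K L b) x ∈ V)) *
        ((LieAlgebra.ad K L a).restrict (fun x hx => hV a ha x hx :
          ∀ x ∈ V, (LieAlgebra.ad K L a) x ∈ V)) := by
      ext x
      change ⁅⁅a, b⁆, (x : L)⁆ = ⁅a, ⁅b, (x : L)⁆⁆ - ⁅b, ⁅a, (x : L)⁆⁆
      rw [lie_lie]
    rw [h1, map_sub, LinearMap.trace_mul_comm, sub_self]
  | zero =>
    refine ⟨fun x _ => by simp, ?_⟩
    have h1 : (LieAlgebra.ad K L (0 : L)).restrict
        (fun x _ => by simp : ∀ x ∈ V, (LieAlgebra.ad K L (0 : L)) x ∈ V) = 0 := by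
      ext x
      simp
    rw [h1, map_zero]
  | add x y _ _ h1 h2 =>
    obtain ⟨p1, e1⟩ := h1
    obtain ⟨p2, e2⟩ := h2
    refine ⟨fun z hz => by
      have := V.add_mem (p1 z hz) (p2 z hz)
      simpa only [map_add, LinearMap.add_apply] using this, ?_⟩
    rw [show (LieAlgebra.ad K L (x + y)).restrict _ =
      (LieAlgebra.ad K L x).restrict p1 + (LieAlgebra.ad K L y).restrict p2 from by
        ext z
        simp, map_add, e1, e2, add_zero]
  | smul c x _ h1 =>
    obtain ⟨p1, e1⟩ := h1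
    refine ⟨fun z hz => by
      have := V.smul_mem c (p1 z hz)
      simpa only [map_smul, LinearMap.smul_apply] using this, ?_⟩
    rw [show (LieAlgebra.ad K L (c • x)).restrict _ =
      c • (LieAlgebra.ad K L x).restrict p1 from by
        ext z
        simp, map_smul, e1, smul_zero]

/-- (3) the derived algebra of the centraliser meets its centre in zero -/
theorem dd_centre [CharZero K] [IsAlgClosed K] [FiniteDimensional K L]
    [LieAlgebra.IsKilling K L] (hJ : S_JORD.{u, v}) (s : L)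
    (hs : (LieAlgebra.ad K L s).IsSemisimple) (y : L) (hy : y ∈ dd K s)
    (hc : ∀ a : L, ⁅s, a⁆ = 0 → ⁅y, a⁆ = 0) : y = 0 := by
  obtain ⟨ys, yn, e, -, hss, hn, hj⟩ := hJ K L y
  have hsa : ∀ a : L, ⁅s, a⁆ = 0 → ⁅ys, a⁆ = 0 := by
    intro a ha
    have := hj a 0 (by rw [hc a ha, zero_smul])
    rwa [zero_smul] at this
  have hna : ∀ a : L, ⁅s, a⁆ = 0 → ⁅yn, a⁆ = 0 := by
    intro a ha
    have h1 := hc a ha
    rw [e, add_lie, hsa a ha, zero_add] at h1
    exact h1
  have hyn : ⁅s, yn⁆ = 0 := by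
    rw [← lie_skew, hna s (lie_self s), neg_zero]
  have hn0 : yn = 0 := by
    apply nondeg s hs yn hyn
    intro a ha
    have hcomm : Commute (LieAlgebra.ad K L yn) (LieAlgebra.ad K L a) := by
      refine LinearMap.ext fun x => ?_
      have h2 : ⁅⁅yn, a⁆, x⁆ = 0 := by rw [hna a ha, zero_lie]
      rw [lie_lie, sub_eq_zero] at h2
      exact h2
    have hnil : IsNilpotent (LieAlgebra.ad K L yn * LieAlgebra.ad K L a) :=
      hcomm.isNilpotent_mul_right hn
    have h2 : IsNilpotent (killingForm K L yn a) :=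
      LinearMap.isNilpotent_trace_of_isNilpotent hnil
    exact h2.eq_zero
  rw [hn0, add_zero] at e
  subst e
  have h0 : LieAlgebra.ad K L y = 0 := by
    rw [hss.eq_zero_iff_forall_eigenvalue]
    intro μ hμ
    have hV : ∀ a : L, ⁅s, a⁆ = 0 → ∀ x ∈ (LieAlgebra.ad K L y).eigenspace μ,
        ⁅a, x⁆ ∈ (LieAlgebra.ad K L y).eigenspace μ := by
      intro a ha x hx
      rw [Module.End.mem_eigenspace_iff, LieAlgebra.ad_apply] at hx ⊢
      rw [leibniz_lie, hc a ha, zero_lie, zero_add, hx, lie_smul]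
    have hst : ∀ x ∈ (LieAlgebra.ad K L y).eigenspace μ,
        (LieAlgebra.ad K L y) x ∈ (LieAlgebra.ad K L y).eigenspace μ := by
      intro x hx
      rw [Module.End.mem_eigenspace_iff.1 hx]
      exact Submodule.smul_mem _ _ hx
    have ht := trace_dd (K := K) s _ hV y hy hst
    have h1 : (LieAlgebra.ad K L y).restrict hst =
        μ • (LinearMap.id : (LieAlgebra.ad K L y).eigenspace μ →ₗ[K]
          (LieAlgebra.ad K L y).eigenspace μ) := by
      ext x
      rw [LinearMap.coe_restrict_apply, Module.End.mem_eigenspace_iff.1 x.2]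
      simp
    rw [h1, map_smul, LinearMap.trace_id, smul_eq_mul] at ht
    have hnt : Nontrivial ((LieAlgebra.ad K L y).eigenspace μ) :=
      Submodule.nontrivial_iff_ne_bot.mpr (Module.End.hasEigenvalue_iff.mp hμ)
    have hp : (finrank K ((LieAlgebra.ad K L y).eigenspace μ) : K) ≠ 0 :=
      Nat.cast_ne_zero.2 (Nat.ne_of_gt finrank_pos)
    exact (mul_eq_zero.1 ht).resolve_right hp
  apply kzero (K := K)
  intro x
  have : killingForm K L y x = LinearMap.trace K L (LieAlgebra.ad K L y ∘ₗ LieAlgebra.ad K L x) :=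
    rfl
  rw [this, h0, LinearMap.zero_comp, map_zero]

/-- (2) an element of the centraliser that is orthogonal to the brackets is central -/
theorem orth_centre [IsAlgClosed K] [FiniteDimensional K L] [LieAlgebra.IsKilling K L] (s : L)
    (hs : (LieAlgebra.ad K L s).IsSemisimple) (y : L) (hy : ⁅s, y⁆ = 0)
    (h : ∀ a b : L, ⁅s, a⁆ = 0 → ⁅s, b⁆ = 0 → killingForm K L y ⁅a, b⁆ = 0) :
    ∀ a : L, ⁅s, a⁆ = 0 → ⁅y, a⁆ = 0 := by
  intro a ha
  apply nondeg (K := K) s hs _ (comm_br s y a hy ha)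
  intro b hb
  rw [kinv]
  exact h a b ha hb

theorem levi (hJ : Pool.Agent.TH28.FL.S_JORD.{u,v}) : Pool.Agent.TH28.FL.S_LEVI.{u,v} := by
  intro K _ _ _ L _ _ _ _ s hs
  have h5 : ∀ y ∈ dd K s, (∀ a b : L, ⁅s, a⁆ = 0 → ⁅s, b⁆ = 0 → killingForm K L y ⁅a, b⁆ = 0) →
      y = 0 := fun y hy h =>
    dd_centre hJ s hs y hy (orth_centre s hs y (dd_comm s y hy) h)
  refine ⟨fun y hy h => nondeg s hs y hy h, h5, ?_⟩
  intro y hy
  have hrefl : (killingForm K L).IsRefl := (LieModule.traceForm_isSymm K L L).isRefl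
  have hdis : Disjoint (dd K s) ((killingForm K L).orthogonal (dd K s)) := by
    rw [Submodule.disjoint_def]
    intro x hx hx'
    apply h5 x hx
    intro a b ha hb
    rw [ksymm]
    exact hx' ⁅a, b⁆ (Submodule.subset_span ⟨a, b, ha, hb, rfl⟩)
  have hcompl := (LinearMap.BilinForm.isCompl_orthogonal_iff_disjoint hrefl).2 hdis
  have hy' : y ∈ dd K s ⊔ (killingForm K L).orthogonal (dd K s) := by
    rw [hcompl.sup_eq_top]; exact Submodule.mem_top
  obtain ⟨p, hp, q, hq, rfl⟩ := Submodule.mem_sup.1 hy'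
  have hqs : ⁅s, q⁆ = 0 := by
    rw [lie_add, dd_comm s p hp, zero_add] at hy
    exact hy
  refine ⟨q, hqs, ?_, ?_⟩
  · apply orth_centre (K := K) s hs q hqs
    intro a b ha hb
    rw [ksymm]
    exact hq ⁅a, b⁆ (Submodule.subset_span ⟨a, b, ha, hb, rfl⟩)
  · rw [add_sub_cancel_right]
    exact hp

end Pool.Agent.TH73.J1774
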