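import Pool.Agent.TH28.FL.DatK

/-!
# Vanishing of `Lam` on the orthogonal of `r` (job FL3-P4F)
-/

set_option autoImplicit false

universe u v

namespace Pool.Agent.TH73.J1849

open Module TensorProduct Pool.Agent.TH28.FL

section A

variable {k : Type u} [Field k] {s : Type v} [LieRing s] [LieAlgebra k s] {d : ℕ}
  (e : Basis (Fin d) k s) (K : Type u) [Field K] [Algebra k K]

/-- the matrix of `ad y` -/
noncomputable def ph : (K ⊗[k] s) →ₗ[K] Matrix (Fin d) (Fin d) K where
  toFun y := LinearMap.toMatrix (e.baseChange K) (e.baseChange K)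
    (LieAlgebra.ad K (K ⊗[k] s) y)
  map_add' := by intro x y; rw [map_add, map_add]
  map_smul' := by intro c x; rw [map_smul, map_smul]; rfl

theorem ph_apply (y : K ⊗[k] s) : ph e K y =
    LinearMap.toMatrix (e.baseChange K) (e.baseChange K) (LieAlgebra.ad K (K ⊗[k] s) y) := rfl

theorem ph_one (v : s) : ph e K (1 ⊗ₜ[k] v) = adR e K v := by
  rw [ph_apply]
  have h : LieAlgebra.ad K (K ⊗[k] s) (1 ⊗ₜ[k] v) = (LieAlgebra.ad k s v).baseChange K :=
    LieModule.toEnd_baseChange k K s s v
  rw [h]
  unfold adR adM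
  ext i j
  rw [LinearMap.toMatrix_apply, Basis.baseChange_apply, LinearMap.baseChange_tmul,
    Basis.baseChange_repr_tmul, Matrix.map_apply, LinearMap.toMatrix_apply,
    Algebra.algebraMap_eq_smul_one]

theorem ph_tmul (c : K) (v : s) : ph e K (c ⊗ₜ[k] v) = c • adR e K v := by
  have h : c ⊗ₜ[k] v = c • ((1 : K) ⊗ₜ[k] v) := by
    rw [TensorProduct.smul_tmul', smul_eq_mul, mul_one]
  rw [h, map_smul, ph_one]

theorem exists_ph (X : Matrix (Fin d) (Fin d) K) (hX : X ∈ aK e K) : ∃ y, ph e K y = X := by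
  unfold aK at hX
  induction hX using Submodule.span_induction with
  | mem a ha =>
    obtain ⟨v, rfl⟩ := ha
    exact ⟨_, ph_one e K v⟩
  | zero => exact ⟨0, map_zero _⟩
  | add a b _ _ ha hb =>
    obtain ⟨y, rfl⟩ := ha
    obtain ⟨z, rfl⟩ := hb
    exact ⟨y + z, map_add _ _ _⟩
  | smul c a _ ha =>
    obtain ⟨y, rfl⟩ := ha
    exact ⟨c • y, map_smul _ _ _⟩

theorem kf_ph (y z : K ⊗[k] s) :
    killingForm K (K ⊗[k] s) y z = (ph e K y * ph e K z).trace := by
  rw [killingForm_apply_apply, LinearMap.trace_eq_matrix_trace K (e.baseChange K), ph_apply,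
    ph_apply, ← LinearMap.toMatrix_mul]
  rfl

theorem nil_iff (y : K ⊗[k] s) (h : IsNilpotent (ph e K y)) :
    IsNilpotent (LieAlgebra.ad K (K ⊗[k] s) y) := by
  have h1 := h.map (LinearMap.toMatrixAlgEquiv (e.baseChange K)).symm
  have e1 : (LinearMap.toMatrixAlgEquiv (e.baseChange K)).symm (ph e K y) =
      LieAlgebra.ad K (K ⊗[k] s) y := by
    rw [AlgEquiv.symm_apply_eq]
    rfl
  rwa [e1] at h1

theorem killing [FiniteDimensional k s] [LieAlgebra.IsKilling k s] :
    LieAlgebra.IsKilling K (K ⊗[k] s) := by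
  classical
  have e' : Basis (Fin (finrank k s)) k s := finBasis k s
  have hk : ∀ x : K ⊗[k] s, (∀ y, killingForm K (K ⊗[k] s) y x = 0) → x = 0 := by
    intro x hx
    have hrep := (e'.baseChange K).sum_repr x
    have h0 : ∀ j, (e'.baseChange K).repr x j = 0 := by
      intro j
      have h1 := hx (1 ⊗ₜ[k] dualE e' j)
      rw [← hrep, map_sum] at h1
      have h2 : ∀ i, killingForm K (K ⊗[k] s) (1 ⊗ₜ[k] dualE e' j)
          ((e'.baseChange K).repr x i • (e'.baseChange K) i) =
          if i = j then (e'.baseChange K).repr x i else 0 := by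
        intro i
        rw [map_smul, Basis.baseChange_apply, kf_ph e' K, ph_one, ph_one, adR_trace,
          dualE_left, smul_eq_mul]
        split_ifs <;> simp
      simp only [h2] at h1
      simpa using h1
    rw [← hrep]
    exact Finset.sum_eq_zero fun i _ => by rw [h0 i, zero_smul]
  constructor
  rw [eq_bot_iff]
  intro x hx
  rw [LieIdeal.mem_killingCompl] at hx
  rw [LieSubmodule.mem_bot]
  exact hk x (fun y => hx y (LieSubmodule.mem_top y))

end A

section B

variable {k : Type u} [Field k] {s : Type v} [LieRing s] [LieAlgebra k s] {d : ℕ}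
  (e : Basis (Fin d) k s) (K : Type u) [Field K] [Algebra k K]
  (K₁ : Type u) [Field K₁] [Algebra k K₁] [Algebra K K₁] [IsScalarTower k K K₁]

theorem adR_map (v : s) : (adR e K v).map (algebraMap K K₁) = adR e K₁ v := by
  unfold adR
  ext i j
  simp only [Matrix.map_apply]
  rw [← IsScalarTower.algebraMap_apply]

theorem ph_io (y : K ⊗[k] s) :
    ph e K₁ (io k s K K₁ y) = (ph e K y).map (algebraMap K K₁) := by
  induction y using TensorProduct.induction_on with
  | zero =>
    rw [map_zero, map_zero, map_zero]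
    ext i j; simp
  | tmul c v =>
    have h : io k s K K₁ (c ⊗ₜ[k] v) = (algebraMap K K₁ c) ⊗ₜ[k] v := by
      unfold io
      rw [LinearMap.rTensor_tmul]
      rfl
    rw [h, ph_tmul, ph_tmul, ← adR_map e K K₁ v]
    ext i j
    simp
  | add y z hy hz =>
    rw [map_add, map_add, hy, hz, map_add]
    ext i j; simp

theorem Lam_map (δ : Derivation k K K) (δ₁ : Derivation k K₁ K₁)
    (h : ∀ a, δ₁ (algebraMap K K₁ a) = algebraMap K K₁ (δ a)) {X : Matrix (Fin d) (Fin d) K}
    {v : K} (hv : Lam δ X v) : Lam δ₁ (X.map (algebraMap K K₁)) (algebraMap K K₁ v) := by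
  obtain ⟨P, Q, hT, rfl⟩ := hv
  refine ⟨P.map (algebraMap K K₁), Q.map (algebraMap K K₁), ⟨?_, ?_, ?_⟩, ?_⟩
  · rw [← Matrix.map_mul, hT.pq]
    exact Matrix.map_one _ (map_zero _) (map_one _)
  · rw [← Matrix.map_mul, hT.qp]
    exact Matrix.map_one _ (map_zero _) (map_one _)
  · intro i j hij
    rw [← Matrix.map_mul, ← Matrix.map_mul, Matrix.map_apply, hT.tri i j hij, map_zero]
  · have h1 : (P.map (algebraMap K K₁)).map δ₁ = (P.map δ).map (algebraMap K K₁) := by
      ext i j
      simp only [Matrix.map_apply]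
      exact h _
    rw [h1, ← Matrix.map_mul, ← Matrix.map_mul]
    simp only [Matrix.trace, Matrix.diag_apply, Matrix.map_apply, map_sum]

end B

section C

variable {k : Type u} [Field k] [CharZero k] {s : Type v} [LieRing s] [LieAlgebra k s]
  {K : Type u} [Field K] [Algebra k K]

theorem dL_tmul' (δ : Derivation k K K) (c : K) (v : s) :
    dL s δ (c ⊗ₜ[k] v) = δ c ⊗ₜ[k] v := by
  unfold dL
  rw [LinearMap.rTensor_tmul]
  rfl

theorem dL_smul' (δ : Derivation k K K) (c : K) (x : K ⊗[k] s) :
    dL s δ (c • x) = δ c • x + c • dL s δ x := by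
  induction x using TensorProduct.induction_on with
  | zero => simp
  | tmul a v =>
    rw [TensorProduct.smul_tmul', dL_tmul', dL_tmul', TensorProduct.smul_tmul',
      TensorProduct.smul_tmul', smul_eq_mul, Derivation.leibniz, TensorProduct.add_tmul,
      smul_eq_mul, smul_eq_mul, smul_eq_mul, add_comm, mul_comm a]
  | add y z hy hz =>
    rw [smul_add, map_add, hy, hz, map_add, smul_add, smul_add]
    abel

theorem dL_lie' (δ : Derivation k K K) (x y : K ⊗[k] s) :
    dL s δ ⁅x, y⁆ = ⁅dL s δ x, y⁆ + ⁅x, dL s δ y⁆ := by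
  induction x using TensorProduct.induction_on with
  | zero => simp
  | tmul a v =>
    induction y using TensorProduct.induction_on with
    | zero => simp
    | tmul b w =>
      rw [dL_tmul', dL_tmul', LieAlgebra.ExtendScalars.bracket_tmul,
        LieAlgebra.ExtendScalars.bracket_tmul, LieAlgebra.ExtendScalars.bracket_tmul, dL_tmul',
        Derivation.leibniz, TensorProduct.add_tmul, smul_eq_mul, smul_eq_mul, add_comm, mul_comm b]
    | add y z hy hz =>
      rw [lie_add, map_add, hy, hz, lie_add, map_add, lie_add]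
      abel
  | add x z hx hz =>
    rw [add_lie, map_add, hx, hz, map_add, add_lie, add_lie]
    abel

theorem exa' [FiniteDimensional k s] [LieAlgebra.IsKilling k s] (δ : Derivation k K K)
    {w : K ⊗[k] s} (ht : ⨆ j : ℤ, dg K w j = ⊤) :
    ∃ A : K ⊗[k] s, dL s δ w = ⁅A, w⁆ := by
  classical
  have hK : CharZero K := charZero_of_injective_algebraMap (algebraMap k K).injective
  have hkil : LieAlgebra.IsKilling K (K ⊗[k] s) := killing K
  obtain ⟨S, f, hf, hS⟩ := exists_sum_of_top ht (dL s δ w)
  -- the component of degree zero is central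
  have hu : ∀ j : ℤ, ∀ x ∈ dg K w j, (if (0 : ℤ) ∈ S then ⁅f 0, x⁆ else 0) = 0 := by
    intro j x hx
    obtain ⟨T, g, hg, hT⟩ := exists_sum_of_top ht (dL s δ x)
    have h1 : dL s δ ⁅w, x⁆ = dL s δ ((j : K) • x) := by rw [mem_dg.1 hx]
    have hj0 : δ (j : K) = 0 := by
      have := δ.map_algebraMap (j : k)
      rwa [map_intCast] at this
    rw [dL_lie', dL_smul', hj0, zero_smul, zero_add, hS, hT, sum_lie, lie_sum, Finset.smul_sum]
      at h1
    -- collect degrees
    by_cases h0 : (0 : ℤ) ∈ S
    · rw [if_pos h0]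
      set F : ℤ → K ⊗[k] s := fun m =>
        (if m - j ∈ S then ⁅f (m - j), x⁆ else 0) +
          ((if m ∈ T then (((m : ℤ) : K) • g m - (j : K) • g m) else 0)) with hF
      have hFm : ∀ m, F m ∈ dg K w m := by
        intro m
        rw [hF]
        refine add_mem ?_ ?_
        · split_ifs
          · have := lie_dg (hf (m - j)) hx
            rwa [sub_add_cancel] at this
          · exact zero_mem _
        · split_ifs
          · exact sub_mem (Submodule.smul_mem _ _ (hg m)) (Submodule.smul_mem _ _ (hg m))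
          · exact zero_mem _
      set R : Finset ℤ := (S.image (fun i => i + j)) ∪ T ∪ {j} with hR
      have hsum : ∑ m ∈ R, F m = 0 := by
        rw [hF, Finset.sum_add_distrib]
        have e1 : ∑ m ∈ R, (if m - j ∈ S then ⁅f (m - j), x⁆ else 0) = ∑ i ∈ S, ⁅f i, x⁆ := by
          rw [← Finset.sum_filter]
          refine Finset.sum_bij' (fun m _ => m - j) (fun i _ => i + j) ?_ ?_ ?_ ?_ ?_
          · intro m hm
            exact (Finset.mem_filter.1 hm).2
          · intro i hi
            rw [Finset.mem_filter]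
            refine ⟨?_, by rwa [add_sub_cancel_right]⟩
            rw [hR]
            simp only [Finset.mem_union, Finset.mem_image]
            exact Or.inl (Or.inl ⟨i, hi, rfl⟩)
          · intro m _; ring
          · intro i _; ring
          · intro m _; rfl
        have e2 : ∑ m ∈ R, (if m ∈ T then (((m : ℤ) : K) • g m - (j : K) • g m) else 0) =
            ∑ m ∈ T, (((m : ℤ) : K) • g m - (j : K) • g m) := by
          rw [← Finset.sum_filter]
          congr 1
          ext m
          rw [Finset.mem_filter]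
          refine ⟨fun h => h.2, fun h => ⟨?_, h⟩⟩
          rw [hR]
          simp only [Finset.mem_union]
          exact Or.inl (Or.inr h)
        rw [e1, e2, Finset.sum_sub_distrib]
        have e3 : ∑ m ∈ T, ((m : ℤ) : K) • g m = ∑ m ∈ T, ⁅w, g m⁆ :=
          Finset.sum_congr rfl fun m _ => (mem_dg.1 (hg m)).symm
        rw [e3, ← add_sub_assoc, h1, sub_self]
      have h2 := dg_sum_zero R F (fun m _ => hFm m) hsum j (by rw [hR]; simp)
      rw [hF] at h2
      simp only [sub_self, if_pos h0, ite_self, add_zero] at h2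
      exact h2
    · rw [if_neg h0]
  have hz : (if (0 : ℤ) ∈ S then f 0 else 0) = 0 := by
    by_cases h0 : (0 : ℤ) ∈ S
    · rw [if_pos h0]
      have hu' : ∀ x : K ⊗[k] s, ⁅f 0, x⁆ = 0 := by
        intro x
        obtain ⟨T, g, hg, rfl⟩ := exists_sum_of_top ht x
        rw [lie_sum]
        refine Finset.sum_eq_zero fun j _ => ?_
        have := hu j (g j) (hg j)
        rwa [if_pos h0] at this
      apply kf_nondeg (K := K)
      intro y
      rw [killingForm_apply_apply]
      have : LieAlgebra.ad K (K ⊗[k] s) (f 0) = 0 := by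
        refine LinearMap.ext fun x => ?_
        rw [LieAlgebra.ad_apply, hu']
        rfl
      rw [this]
      simp
    · rw [if_neg h0]
  refine ⟨- ∑ j ∈ S.erase 0, ((j : K)⁻¹) • f j, ?_⟩
  rw [← lie_skew, lie_neg, neg_neg, lie_sum, hS]
  have h3 : ∑ j ∈ S, f j = ∑ j ∈ S.erase 0, f j := by
    by_cases h0 : (0 : ℤ) ∈ S
    · rw [if_pos h0] at hz
      rw [← Finset.add_sum_erase S f h0, hz, zero_add]
    · rw [Finset.erase_eq_of_notMem h0]
  rw [h3]
  refine Finset.sum_congr rfl fun j hj => ?_
  have hj0 : (j : K) ≠ 0 := by exact_mod_cast (Finset.ne_of_mem_erase hj)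
  rw [lie_smul, mem_dg.1 (hf j), smul_smul, inv_mul_cancel₀ hj0, one_smul]

end C

theorem p4f (hE : Pool.Agent.TH28.FL.S_EXT.{u}) (h2 : Pool.Agent.TH28.FL.S_DAT2.{u, max u v})
    (hL : Pool.Agent.TH28.FL.S_LAMD.{u,v}) (hC : Pool.Agent.TH28.FL.S_CCL.{u,v}) :
    Pool.Agent.TH28.FL.S_P4F.{u,v} := by
  intro k _ _ s _ _ _ _ d e r hHS K _ _ δ X hXa hXr hXn
  have hK : CharZero K := charZero_of_injective_algebraMap (algebraMap k K).injective
  have hKb : CharZero (AlgebraicClosure K) :=
    charZero_of_injective_algebraMap (algebraMap K (AlgebraicClosure K)).injective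
  obtain ⟨δb, hδb⟩ := hE k K (AlgebraicClosure K) δ
  obtain ⟨y, rfl⟩ := exists_ph e K X hXa
  have hkil : LieAlgebra.IsKilling (AlgebraicClosure K) (AlgebraicClosure K ⊗[k] s) :=
    killing (AlgebraicClosure K)
  set yb := io k s K (AlgebraicClosure K) y with hyb
  have hph := ph_io e K (AlgebraicClosure K) y
  have hnil : IsNilpotent (ph e (AlgebraicClosure K) yb) := by
    rw [hph]
    obtain ⟨m, hm⟩ := hXn
    refine ⟨m, ?_⟩
    have h0 := congrArg (fun M => (algebraMap K (AlgebraicClosure K)).mapMatrix M) hm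
    simp only [map_pow, map_zero] at h0
    exact h0
  obtain ⟨w, M, hD, hyn⟩ := h2 (AlgebraicClosure K) (AlgebraicClosure K ⊗[k] s) yb
    (nil_iff e _ yb hnil)
  obtain ⟨A, hA⟩ := exa' δb hD.top
  have hAm := hC k s r hHS (AlgebraicClosure K) w M hD δb A hA
  have hκ : killingForm (AlgebraicClosure K) (AlgebraicClosure K ⊗[k] s) yb A = 0 := by
    obtain ⟨a, ha, b, hb, hab⟩ := Submodule.mem_sup.1 hAm
    rw [← hab, map_add]
    have hb0 : killingForm (AlgebraicClosure K) (AlgebraicClosure K ⊗[k] s) yb b = 0 := by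
      rw [kf_comm]; exact kf_bb_nn hb hyn
    have ha0 : killingForm (AlgebraicClosure K) (AlgebraicClosure K ⊗[k] s) yb a = 0 := by
      clear hab
      unfold rK at ha
      rw [Submodule.baseChange_eq_span] at ha
      induction ha using Submodule.span_induction with
      | mem a ha =>
        obtain ⟨v, hv, rfl⟩ := ha
        change killingForm (AlgebraicClosure K) (AlgebraicClosure K ⊗[k] s) yb (1 ⊗ₜ[k] v) = 0
        rw [kf_ph e, ph_one, hph, ← adR_map e K (AlgebraicClosure K) v, ← Matrix.map_mul]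
        have h0 := hXr v hv
        have h1 := congrArg (algebraMap K (AlgebraicClosure K)) h0
        rw [map_zero] at h1
        rw [← h1]
        simp only [Matrix.trace, Matrix.diag_apply, Matrix.map_apply, map_sum]
      | zero => exact map_zero _
      | add x z _ _ hx hz => rw [map_add, hx, hz, add_zero]
      | smul c x _ hx => rw [map_smul, hx, smul_zero]
    rw [ha0, hb0, add_zero]
  have hlam := hL k s d e (AlgebraicClosure K) δb w A yb hD.top hA hyn
  rw [hκ, ← ph_apply, hph] at hlam
  obtain ⟨v, hv⟩ := Lam.exists δ hXn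
  have hv' := Lam_map K (AlgebraicClosure K) δ δb hδb hv
  have h0 := hv'.unique hlam
  rw [map_eq_zero] at h0
  rw [h0] at hv
  exact hv

end Pool.Agent.TH73.J1849
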