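import Pool.Agent.TH331.RZ.Defs2
import Pool.Agent.Helper88.SE.P_chart_int
import Pool.Agent.Helper88.SE.P_chart_dist
import Pool.Agent.Helper88.SE.P_cap_scale
import Pool.Agent.Helper88.SE.P_ball_in_cap

/-!
# RZ-G1: the gnomonic contraction is close to a similarity; domination of the mean measure of a cell
-/

set_option autoImplicit false

open MeasureTheory Set Filter Topology
open scoped ENNReal Real FourierTransform

namespace Pool.Agent.TH73.J499

open Pool.Agent.Helper88.SE Pool.Agent.TH331.RZ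

lemma psi_reals (A B r α ρ : ℝ) (hr : 0 < r) (hr1 : r ≤ 1) (hρ0 : 0 ≤ ρ) (hρ : ρ ≤ 1 / 2)
    (hA : 0 < A) (hB : 0 < B) (hα : 0 ≤ α) (hA2 : A ^ 2 = 1 + α ^ 2) (hB2 : B ^ 2 = 1 + (r * α) ^ 2)
    (hs2 : 1 - A⁻¹ ≤ ρ ^ 2 / 2) :
    0 ≤ B⁻¹ - A⁻¹ ∧ r * (B⁻¹ - A⁻¹) * α + |B⁻¹ - 1 + r * (1 - A⁻¹)| ≤ 2 * r * ρ ^ 2 := by
  have hrho2 : ρ ^ 2 ≤ 1 / 4 := by nlinarith
  have hA1 : 1 ≤ A := by nlinarith [sq_nonneg α]
  have hB1 : 1 ≤ B := by nlinarith [sq_nonneg (r * α)]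
  have hAi : 7 / 8 ≤ A⁻¹ := by linarith
  have hAi1 : A⁻¹ ≤ 1 := inv_le_one_of_one_le₀ hA1
  have hBi1 : B⁻¹ ≤ 1 := inv_le_one_of_one_le₀ hB1
  have hAu : A ≤ 8 / 7 := by
    have := mul_inv_cancel₀ hA.ne'
    nlinarith
  have hα1 : α ≤ 1 := by nlinarith
  have hrα : r * α ≤ α := mul_le_of_le_one_left hα hr1
  have hrα0 : 0 ≤ r * α := mul_nonneg hr.le hα
  have hBA : B ≤ A := by
    refine le_of_sq_le_sq ?_ hA.le
    rw [hA2, hB2]
    have := pow_le_pow_left₀ hrα0 hrα 2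
    linarith
  have hBAi : A⁻¹ ≤ B⁻¹ := inv_anti₀ hB hBA
  have ha2 : α ^ 2 ≤ 5 / 4 * ρ ^ 2 := by
    have e1 : α ^ 2 = A * (A + 1) * (1 - A⁻¹) := by
      have := mul_inv_cancel₀ hA.ne'
      have e : A * (A + 1) * (1 - A⁻¹) = A ^ 2 + A - (A * A⁻¹) * (A + 1) := by ring
      rw [e, this, hA2]
      ring
    rw [e1]
    have e2 : A * (A + 1) ≤ 5 / 2 := by nlinarith
    have e3 : 0 ≤ 1 - A⁻¹ := by linarith
    calc A * (A + 1) * (1 - A⁻¹) ≤ 5 / 2 * (ρ ^ 2 / 2) := by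
          apply mul_le_mul e2 hs2 e3 (by norm_num)
      _ = 5 / 4 * ρ ^ 2 := by ring
  have hw0 : 0 ≤ r * ρ ^ 2 := by positivity
  have hBu : 1 - B⁻¹ ≤ r * ρ ^ 2 := by
    have e1 : B ≤ 1 + r * ρ ^ 2 := by
      refine le_of_sq_le_sq ?_ (by positivity)
      rw [hB2]
      have e2 : (r * α) ^ 2 ≤ r * (5 / 4 * ρ ^ 2) := by
        have e3 : r ^ 2 ≤ r := by nlinarith
        calc (r * α) ^ 2 = r ^ 2 * α ^ 2 := by ring
          _ ≤ r * (5 / 4 * ρ ^ 2) := by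
            apply mul_le_mul e3 ha2 (by positivity) hr.le
      have e4 : (1 + r * ρ ^ 2) ^ 2 = 1 + 2 * (r * ρ ^ 2) + (r * ρ ^ 2) ^ 2 := by ring
      rw [e4]
      have e5 := sq_nonneg (r * ρ ^ 2)
      linarith
    have e4 : 0 ≤ (B - 1) ^ 2 * B⁻¹ := by positivity
    have e5 : (B - 1) ^ 2 * B⁻¹ = B - 2 + B⁻¹ := by
      field_simp
      ring
    linarith
  refine ⟨by linarith, ?_⟩
  have t1 : r * (B⁻¹ - A⁻¹) * α ≤ r * ρ ^ 2 / 2 := by
    have e1 : r * (B⁻¹ - A⁻¹) ≤ r * (ρ ^ 2 / 2) :=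
      mul_le_mul_of_nonneg_left (by linarith) hr.le
    have e2 : 0 ≤ r * (B⁻¹ - A⁻¹) := mul_nonneg hr.le (by linarith)
    calc r * (B⁻¹ - A⁻¹) * α ≤ r * (B⁻¹ - A⁻¹) * 1 := mul_le_mul_of_nonneg_left hα1 e2
      _ ≤ r * ρ ^ 2 / 2 := by linarith
  have t2 : |B⁻¹ - 1 + r * (1 - A⁻¹)| ≤ r * ρ ^ 2 := by
    have e1 : r * (1 - A⁻¹) ≤ r * (ρ ^ 2 / 2) := mul_le_mul_of_nonneg_left hs2 hr.le
    have e2 : 0 ≤ r * (1 - A⁻¹) := mul_nonneg hr.le (by linarith)
    rw [abs_le]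
    constructor <;> linarith
  linarith

theorem psi_close (d : ℕ) (q u : S d) (r ρ : ℝ) (hr : 0 < r) (hr1 : r ≤ 1) (hρ : ρ ≤ 1 / 2)
    (hu : dist u q ≤ ρ) :
    ‖(psi q r u : E d) - ((q : E d) + r • ((u : E d) - (q : E d)))‖ ≤ 2 * r * ρ ^ 2 := by
  have hρ0 : 0 ≤ ρ := dist_nonneg.trans hu
  have hcap : u ∈ cap q 1 := ball_in_cap d q 1 one_pos le_rfl u (by linarith)
  obtain ⟨a, hqa, -, h1, h2⟩ := cap_rep d q r 1 hr u hcap
  have hq1 : ‖(q : E d)‖ = 1 := by simp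
  have hu1 : ‖(u : E d)‖ = 1 := by simp
  obtain ⟨A, hA, hA2⟩ : ∃ A : ℝ, 0 < A ∧ A ^ 2 = 1 + ‖a‖ ^ 2 :=
    ⟨Real.sqrt (1 + ‖a‖ ^ 2), Real.sqrt_pos.2 (by positivity), Real.sq_sqrt (by positivity)⟩
  obtain ⟨B, hB, hB2⟩ : ∃ B : ℝ, 0 < B ∧ B ^ 2 = 1 + ‖r • a‖ ^ 2 :=
    ⟨Real.sqrt (1 + ‖r • a‖ ^ 2), Real.sqrt_pos.2 (by positivity), Real.sq_sqrt (by positivity)⟩
  have eu := h1 A hA hA2
  have ep := h2 B hB hB2
  have hz : inner ℝ (q : E d) (u : E d) = A⁻¹ := by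
    rw [eu, inner_smul_right, inner_add_right, hqa, real_inner_self_eq_norm_sq, hq1]
    ring
  have hs : dist u q ^ 2 = 2 - 2 * A⁻¹ := by
    rw [Subtype.dist_eq, dist_eq_norm, @norm_sub_sq_real, hq1, hu1, real_inner_comm, hz]
    ring
  have hs2 : 1 - A⁻¹ ≤ ρ ^ 2 / 2 := by
    have : dist u q ^ 2 ≤ ρ ^ 2 := pow_le_pow_left₀ dist_nonneg hu 2
    linarith
  have hra : ‖r • a‖ = r * ‖a‖ := by rw [norm_smul, Real.norm_eq_abs, abs_of_pos hr]
  rw [hra] at hB2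
  obtain ⟨hR1, hR2⟩ := psi_reals A B r ‖a‖ ρ hr hr1 hρ0 hρ hA hB (norm_nonneg a) hA2 hB2 hs2
  have key : (psi q r u : E d) - ((q : E d) + r • ((u : E d) - (q : E d))) =
      (r * (B⁻¹ - A⁻¹)) • a + (B⁻¹ - 1 + r * (1 - A⁻¹)) • (q : E d) := by
    rw [ep, eu]
    module
  rw [key]
  refine (norm_add_le _ _).trans ?_
  rw [norm_smul, norm_smul, hq1, mul_one, Real.norm_eq_abs, Real.norm_eq_abs,
    abs_of_nonneg (mul_nonneg hr.le hR1)]
  exact hR2

lemma Q_meas (d : ℕ) (c : ℝ) (t : E d) :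
    MeasurableSet {v : S d | ∀ i, |c * (v : E d) i - t i| < 1 / 2} := by
  apply IsOpen.measurableSet
  have h : {v : S d | ∀ i, |c * (v : E d) i - t i| < 1 / 2} =
      ⋂ i, {v : S d | |c * (v : E d) i - t i| < 1 / 2} := by
    ext v
    simp
  rw [h]
  apply isOpen_iInter_of_finite
  intro i
  apply isOpen_lt _ continuous_const
  have h1 : Continuous (fun v : S d => (v : E d) i) :=
    (EuclideanSpace.proj (𝕜 := ℝ) i).continuous.comp continuous_subtype_val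
  exact ((continuous_const.mul h1).sub continuous_const).abs

/-- the pointwise estimates -/
lemma cell_pt (d : ℕ) (l r δ : ℝ) (hδ : 0 < δ) (hr : 0 < r) (hr1 : r ≤ 1)
    (hl1 : 8 * ((d : ℝ) + 1) / δ ≤ l) (hl2 : 8 * Real.sqrt ((d : ℝ) + 1) ≤ l) (t : E d)
    (ht : |‖t‖ - l / r| ≤ Real.sqrt ((d : ℝ) + 1)) (u : S d)
    (hu : ∀ i, |(l • (u : E d) - zsh l (l / r) t) i| < 1 / 2 - δ) :
    dist u (nrm t) ≤ 2 * Real.sqrt ((d : ℝ) + 1) / l ∧
      ∀ i, |(l / r) * (psi (nrm t) r u : E d) i - t i| < 1 / 2 := by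
  set D : ℝ := (d : ℝ) + 1 with hD
  have hD1 : 1 ≤ D := by rw [hD]; linarith [Nat.cast_nonneg (α := ℝ) d]
  set w := Real.sqrt D with hw
  have hw1 : 1 ≤ w := by rw [hw]; exact Real.one_le_sqrt.2 hD1
  have hw2 : w ^ 2 = D := Real.sq_sqrt (by linarith)
  have hl0 : 0 < l := by linarith
  have hlr : l ≤ l / r := by
    rw [le_div_iff₀ hr]
    nlinarith
  have ht0 : 0 < ‖t‖ := by
    have := (abs_le.1 ht).1
    linarith
  have htne : t ≠ 0 := norm_pos_iff.1 ht0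
  have hq : (nrm t : E d) = ‖t‖⁻¹ • t := by
    rw [nrm, dif_neg htne]
  set q := nrm t with hqdef
  have hq1 : ‖(q : E d)‖ = 1 := by simp
  have hu1 : ‖(u : E d)‖ = 1 := by simp
  have htq : t = ‖t‖ • (q : E d) := by
    rw [hq, smul_smul, mul_inv_cancel₀ ht0.ne', one_smul]
  have hz : zsh l (l / r) t = (‖t‖ - l / r + l) • (q : E d) := by
    rw [zsh]
    have e : ((l / r - l) / ‖t‖) • t = (l / r - l) • (q : E d) := by
      rw [hq, smul_smul]
      congr 1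
    rw [e]
    nth_rw 1 [htq]
    module
  have hnorm : ‖l • (u : E d) - zsh l (l / r) t‖ ≤ w := by
    refine le_of_sq_le_sq ?_ (by linarith)
    rw [EuclideanSpace.norm_sq_eq, hw2]
    calc ∑ i, ‖(l • (u : E d) - zsh l (l / r) t) i‖ ^ 2 ≤ ∑ i : Fin (d + 1), (1 : ℝ) := by
          apply Finset.sum_le_sum
          intro i _
          rw [Real.norm_eq_abs]
          have := hu i
          have h0 := abs_nonneg ((l • (u : E d) - zsh l (l / r) t) i)
          nlinarith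
      _ = D := by simp [hD]
  have hdist : dist u q ≤ 2 * w / l := by
    rw [le_div_iff₀ hl0, Subtype.dist_eq, dist_eq_norm]
    have e1 : l • ((u : E d) - (q : E d)) = (l • (u : E d) - zsh l (l / r) t) +
        (‖t‖ - l / r) • (q : E d) := by
      rw [hz]
      module
    have e2 : ‖(u : E d) - (q : E d)‖ * l = ‖l • ((u : E d) - (q : E d))‖ := by
      rw [norm_smul, Real.norm_eq_abs, abs_of_pos hl0, mul_comm]
    rw [e2, e1]
    refine (norm_add_le _ _).trans ?_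
    rw [norm_smul, hq1, mul_one, Real.norm_eq_abs]
    linarith
  refine ⟨hdist, fun i => ?_⟩
  have hρ : 2 * w / l ≤ 1 / 2 := by
    rw [div_le_iff₀ hl0]
    linarith
  have hc := psi_close d q u r (2 * w / l) hr hr1 hρ hdist
  set v : E d := (psi q r u : E d) - ((q : E d) + r • ((u : E d) - (q : E d))) with hv
  have e1 : (l / r) • (psi q r u : E d) - t = (l / r) • v + (l • (u : E d) - zsh l (l / r) t) := by
    rw [hz, hv]
    nth_rw 1 [htq]
    have h3 : (l / r) * r = l := by field_simp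
    have h4 : (l / r) • ((psi q r u : E d) - ((q : E d) + r • ((u : E d) - (q : E d)))) =
      (l / r) • (psi q r u : E d) - (l / r) • (q : E d) -
        ((l / r) * r) • ((u : E d) - (q : E d)) := by module
    rw [h4, h3]
    module
  have e2 : (l / r) * (psi q r u : E d) i - t i =
      (l / r) * v i + (l • (u : E d) - zsh l (l / r) t) i := by
    have := congrArg (fun x : E d => x i) e1
    simpa using this
  rw [e2]
  refine (abs_add_le _ _).trans_lt ?_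
  have e3 : |(l / r) * v i| ≤ δ := by
    rw [abs_mul, abs_of_pos (by positivity)]
    have e4 : |v i| ≤ ‖v‖ := by
      have := EuclideanSpace.norm_eq v
      rw [← Real.norm_eq_abs]
      exact PiLp.norm_apply_le v i
    have e5 : (l / r) * |v i| ≤ (l / r) * (2 * r * (2 * w / l) ^ 2) :=
      mul_le_mul_of_nonneg_left (e4.trans hc) (by positivity)
    have e6 : (l / r) * (2 * r * (2 * w / l) ^ 2) = 8 * D / l := by
      rw [← hw2]
      field_simp
      ring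
    rw [e6] at e5
    refine e5.trans ?_
    rw [div_le_iff₀ hl0]
    rw [div_le_iff₀ hδ] at hl1
    linarith
  linarith [hu i]

theorem mcell_le (d : ℕ) (hd : 1 ≤ d) (f : E d → ℝ) (hf : Continuous f) (hf0 : ∀ x, 0 ≤ f x)
    (hf1 : ∀ x, f x ≤ 1) (δ : ℝ) (hδ : 0 < δ)
    (hfδ : ∀ x : E d, (∃ i, 1 / 2 - δ ≤ |x i|) → f x = 0) :
    ∃ l1 : ℝ, 0 < l1 ∧ ∀ (N : ℕ) (l r : ℝ), l1 ≤ l → 0 < r → r ≤ 1 → ∀ t : E d,
      |‖t‖ - l / r| ≤ Real.sqrt ((d:ℝ) + 1) →
      mcell d N f l r t ≤ ENNReal.ofReal (N * r ^ (-(d:ℝ))) •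
        (sg d).restrict {v : S d | ∀ i, |(l / r) * (v : E d) i - t i| < 1 / 2} := by
  have hD1 : (1 : ℝ) ≤ (d : ℝ) + 1 := by linarith [Nat.cast_nonneg (α := ℝ) d]
  have hw1 : 1 ≤ Real.sqrt ((d : ℝ) + 1) := Real.one_le_sqrt.2 hD1
  refine ⟨8 * ((d : ℝ) + 1) / δ + 8 * Real.sqrt ((d : ℝ) + 1), by positivity, ?_⟩
  intro N l r hl hr hr1 t ht
  have hl1 : 8 * ((d : ℝ) + 1) / δ ≤ l := by linarith
  have hl2 : 8 * Real.sqrt ((d : ℝ) + 1) ≤ l := by
    have : 0 ≤ 8 * ((d : ℝ) + 1) / δ := by positivity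
    linarith
  have hl0 : 0 < l := by linarith
  set q := nrm t with hq
  set Q : Set (S d) := {v : S d | ∀ i, |(l / r) * (v : E d) i - t i| < 1 / 2} with hQ
  have hQm : MeasurableSet Q := Q_meas d (l / r) t
  set ρ := 2 * Real.sqrt ((d : ℝ) + 1) / l with hρdef
  have hρ0 : 0 < ρ := by positivity
  have hρ1 : 2 * ρ ≤ 1 := by
    rw [hρdef, ← mul_div_assoc, div_le_one hl0]
    linarith
  have hpsi : Measurable (psi q r) := (chart_meas d q r 1 hr).1
  rw [Measure.le_iff]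
  intro B hB
  have hg : Measurable (fun u : S d => ENNReal.ofReal (f (l • (u : E d) - zsh l (l / r) t))) := by
    apply ENNReal.measurable_ofReal.comp
    exact (hf.comp ((continuous_subtype_val.const_smul l).sub continuous_const)).measurable
  rw [mcell, Measure.smul_apply, Measure.map_apply hpsi hB, withDensity_apply _ (hpsi hB),
    Measure.smul_apply, Measure.restrict_apply hB, smul_eq_mul, smul_eq_mul,
    ENNReal.ofReal_mul (by positivity), ENNReal.ofReal_natCast, mul_assoc]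
  refine mul_le_mul_of_nonneg_left ?_ (by positivity)
  have hcap : MeasurableSet (cap q (2 * ρ)) := (chart_meas d q r (2 * ρ) hr).2.2
  have hint := chart_int d q r (2 * ρ) hr (by positivity) ((B ∩ Q).indicator (fun _ => 1))
    (measurable_const.indicator (hB.inter hQm))
  calc ∫⁻ u in psi q r ⁻¹' B, ENNReal.ofReal (f (l • (u : E d) - zsh l (l / r) t)) ∂(sg d)
      ≤ ∫⁻ x in cap q (2 * ρ), (B ∩ Q).indicator (fun _ => 1) (psi q r x) *
          ENNReal.ofReal (‖Amap q r (x : E d)‖ ^ (-((d : ℝ) + 1))) ∂(sg d) := by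
        rw [← lintegral_indicator (hpsi hB), ← lintegral_indicator hcap]
        apply lintegral_mono
        intro u
        by_cases hu : u ∈ psi q r ⁻¹' B
        · rw [Set.indicator_of_mem hu]
          by_cases hfu : f (l • (u : E d) - zsh l (l / r) t) = 0
          · rw [hfu]
            simp
          · have hlt : ∀ i, |(l • (u : E d) - zsh l (l / r) t) i| < 1 / 2 - δ := by
              intro i
              by_contra hcon
              exact hfu (hfδ _ ⟨i, not_lt.1 hcon⟩)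
            obtain ⟨h1, h2⟩ := cell_pt d l r δ hδ hr hr1 hl1 hl2 t ht u hlt
            have hucap : u ∈ cap q (2 * ρ) := ball_in_cap d q (2 * ρ) (by positivity) hρ1 u
              (by rw [mul_div_cancel_left₀ ρ two_ne_zero]; exact h1)
            rw [Set.indicator_of_mem hucap, Set.indicator_of_mem (show psi q r u ∈ B ∩ Q from
              ⟨hu, h2⟩), one_mul]
            apply ENNReal.ofReal_le_ofReal
            obtain ⟨c1, c2, c3⟩ := cs_norm q u r (2 * ρ) hr hr1 hucap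
            exact (hf1 _).trans (cs_pow d c1 c2 c3).1
        · rw [Set.indicator_of_notMem hu]
          exact zero_le
    _ = ENNReal.ofReal (r ^ (-(d : ℝ))) *
          ∫⁻ x in cap q (r * (2 * ρ)), (B ∩ Q).indicator (fun _ => 1) x ∂(sg d) := hint
    _ ≤ ENNReal.ofReal (r ^ (-(d : ℝ))) * sg d (B ∩ Q) := by
        refine mul_le_mul_of_nonneg_left ?_ (by positivity)
        refine (setLIntegral_le_lintegral _ _).trans ?_
        rw [lintegral_indicator (hB.inter hQm), setLIntegral_one]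

end Pool.Agent.TH73.J499
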