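import Pool.Agent.TH313.HI.Space3

/-!
# HI-A1: from a bounded sequence without convergent subsequences to normalized successive vectors
-/

set_option autoImplicit false

open Set Filter Topology

namespace Pool.Agent.TH73.HA1

open Pool.Agent.TH313.HI

lemma norm_cz_le (z : ZT) (k g : ℕ) : ‖cz z k g‖ ≤ ‖z‖ := by
  rw [← norm_inc, ← cw_inc]
  exact norm_cw_le _ _ _

/-- differences of members of a bounded sequence without convergent subsequences -/
lemma exists_diff (T : ZT →L[ℂ] WT) (x : ℕ → ZT) (M : ℝ) (hx : ∀ n, ‖x n‖ ≤ M)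
    (h0 : Tendsto (fun n => T (x n)) atTop (𝓝 0))
    (hno : ¬ ∃ φ : ℕ → ℕ, StrictMono φ ∧ ∃ y, Tendsto (fun n => x (φ n)) atTop (𝓝 y)) :
    ∃ (d : ℕ → ZT) (δ : ℝ), 0 < δ ∧ (∀ i, δ ≤ ‖d i‖) ∧ Tendsto (fun i => T (d i)) atTop (𝓝 0) ∧
      ∀ k g, Tendsto (fun i => cz (d i) k g) atTop (𝓝 0) := by
  have hcomp : IsCompact (Set.pi univ fun _ : ℕ => Set.pi univ fun _ : ℕ =>
      Metric.closedBall (0 : ℂ) M) :=
    isCompact_univ_pi fun _ => isCompact_univ_pi fun _ => isCompact_closedBall _ _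
  obtain ⟨v, -, φ, hφ, hv⟩ := hcomp.tendsto_subseq (x := fun n => cz (x n)) (by
    intro n k _ g _
    rw [mem_closedBall_zero_iff]
    exact (norm_cz_le _ _ _).trans (hx n))
  have hv' : ∀ k g, Tendsto (fun n => cz (x (φ n)) k g) atTop (𝓝 (v k g)) := by
    intro k g
    exact (tendsto_pi_nhds.1 ((tendsto_pi_nhds.1 hv) k)) g
  have hnc : ¬ CauchySeq fun n => x (φ n) := by
    intro h
    obtain ⟨y, hy⟩ := cauchySeq_tendsto_of_complete h
    exact hno ⟨φ, hφ, y, hy⟩
  rw [Metric.cauchySeq_iff] at hnc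
  push Not at hnc
  obtain ⟨δ, hδ, h1⟩ := hnc
  choose m hm n hn hmn using h1
  have hmt : Tendsto m atTop atTop := tendsto_atTop_mono hm tendsto_id
  have hnt : Tendsto n atTop atTop := tendsto_atTop_mono hn tendsto_id
  refine ⟨fun i => x (φ (m i)) - x (φ (n i)), δ, hδ, fun i => ?_, ?_, fun k g => ?_⟩
  · have := hmn i
    rwa [dist_eq_norm] at this
  · have h2 : Tendsto (fun i => T (x (φ (m i)))) atTop (𝓝 0) :=
      h0.comp (hφ.tendsto_atTop.comp hmt)
    have h3 : Tendsto (fun i => T (x (φ (n i)))) atTop (𝓝 0) :=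
      h0.comp (hφ.tendsto_atTop.comp hnt)
    have h4 := h2.sub h3
    rw [sub_zero] at h4
    refine h4.congr fun i => ?_
    rw [map_sub]
  · have h2 := (hv' k g).comp hmt
    have h3 := (hv' k g).comp hnt
    have h4 := h2.sub h3
    rw [sub_self] at h4
    refine h4.congr fun i => ?_
    rw [map_sub]
    rfl

/-- the heads tend to zero -/
lemma head_tendsto (d : ℕ → ZT) (hd : ∀ k g, Tendsto (fun i => cz (d i) k g) atTop (𝓝 0))
    (N : ℕ) {ε : ℝ} (hε : 0 < ε) : ∀ᶠ i in atTop, ‖res 0 N (inc (d i))‖ ≤ ε := by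
  set η : ℝ := ε / ((N : ℝ) + 1) with hη
  have hη0 : 0 < η := by positivity
  have h1 : ∀ᶠ i in atTop, ∀ k ∈ Finset.range (N + 1), ∀ g ∈ Finset.range (2 ^ (N + 2)),
      ‖cz (d i) k g‖ ≤ η := by
    rw [Filter.eventually_all_finset]
    intro k _
    rw [Filter.eventually_all_finset]
    intro g _
    have h2 := (hd k g).norm
    rw [norm_zero] at h2
    exact h2.eventually (ge_mem_nhds hη0)
  filter_upwards [h1] with i hi
  refine WT.norm_le hε.le ?_
  rw [cw_res]
  have h2 : Bd (((N : ℝ) + 1) * η) (cut 0 N (cw (inc (d i)))) := by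
    refine bd_of_coord (A := 0) (B := N) ?_ hη0.le ?_
    · intro k g hk
      rw [cut_apply, if_neg]
      omega
    · intro k _ hk g hg
      rw [cut_apply, if_pos ⟨Nat.zero_le _, hk⟩, cw_inc]
      refine hi k (Finset.mem_range.2 (by omega)) g (Finset.mem_range.2 ?_)
      exact lt_of_lt_of_le hg (Nat.pow_le_pow_right (by norm_num) (by omega))
  have h3 : ((N : ℝ) + 1) * η = ε := by
    rw [hη]
    field_simp
  rwa [h3] at h2

/-- approximation by vectors supported far out -/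
lemma far_approx (d : ℕ → ZT) (hd : ∀ k g, Tendsto (fun i => cz (d i) k g) atTop (𝓝 0))
    (N l : ℕ) {η : ℝ} (hη : 0 < η) : ∃ (i : ℕ) (v : ZT) (B : ℕ), l ≤ i ∧ N + 1 ≤ B ∧
      OnLv (N + 1) B (cz v) ∧ ‖d i - v‖ ≤ η := by
  obtain ⟨K, hK, hap⟩ := approx N
  have h1 := head_tendsto d hd N (ε := η / (2 * (K + 1))) (by positivity)
  obtain ⟨i, hi, hil⟩ := (h1.and (eventually_ge_atTop l)).exists
  obtain ⟨z', hz', hcut, hn⟩ := hap (inc (d i)) (inc_mem _) (η / 2) (by positivity)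
  obtain ⟨B, hB⟩ := Zf_lv hz'
  refine ⟨i, ZT.mk z' (Zf_le hz'), max B (N + 1), hil, le_max_right _ _, ?_, ?_⟩
  · intro k g hk
    rw [← cw_inc, inc_mk]
    rcases Nat.lt_or_ge k (N + 1) with h | h
    · have h2 := congrFun (congrFun hcut k) g
      rw [cut_apply, if_pos ⟨Nat.zero_le _, by omega⟩] at h2
      exact h2
    · exact hB k g (by have := le_max_left B (N + 1); omega)
  · rw [← norm_inc, map_sub, inc_mk]
    refine hn.trans ?_
    have h2 : K * ‖res 0 N (inc (d i))‖ ≤ K * (η / (2 * (K + 1))) :=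
      mul_le_mul_of_nonneg_left hi hK
    have h3 : K * (η / (2 * (K + 1))) ≤ η / 2 := by
      rw [← mul_div_assoc, div_le_div_iff₀ (by positivity) (by norm_num)]
      nlinarith
    linarith

/-- From a bounded sequence without convergent subsequences to normalized successive vectors. -/
theorem exists_blocks (T : ZT →L[ℂ] WT) (x : ℕ → ZT) (M : ℝ) (hx : ∀ n, ‖x n‖ ≤ M)
    (h0 : Tendsto (fun n => T (x n)) atTop (𝓝 0))
    (hno : ¬ ∃ φ : ℕ → ℕ, StrictMono φ ∧ ∃ y, Tendsto (fun n => x (φ n)) atTop (𝓝 y)) :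
    ∃ (u : ℕ → ZT) (A B : ℕ → ℕ), Succ (fun i => cz (u i)) A B ∧ (∀ i, ‖u i‖ = 1) ∧
      Tendsto (fun i => T (u i)) atTop (𝓝 0) := by
  obtain ⟨d, δ, hδ, hdn, hdT, hdc⟩ := exists_diff T x M hx h0 hno
  have hstep : ∀ N l : ℕ, ∃ (i : ℕ) (v : ZT) (B : ℕ), l ≤ i ∧ N + 1 ≤ B ∧
      OnLv (N + 1) B (cz v) ∧ ‖d i - v‖ ≤ min (δ / 2) (1 / ((l : ℝ) + 1)) := fun N l =>
    far_approx d hdc N l (lt_min (by positivity) (by positivity))
  choose ii vv BB hii hBB hlv happ using hstep
  let NN : ℕ → ℕ := fun l => Nat.rec 0 (fun l N => BB N l) l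
  have hNs : ∀ l, NN (l + 1) = BB (NN l) l := fun l => rfl
  have hNlt : ∀ l, NN l + 1 ≤ NN (l + 1) := fun l => by
    rw [hNs]
    exact hBB _ _
  have hNm : Monotone NN := monotone_nat_of_le_succ fun l => by
    have := hNlt l
    omega
  set v : ℕ → ZT := fun l => vv (NN l) l with hv
  have hvn : ∀ l, δ / 2 ≤ ‖v l‖ := by
    intro l
    have h1 := hdn (ii (NN l) l)
    have h2 := (happ (NN l) l).trans (min_le_left _ _)
    have h3 : ‖d (ii (NN l) l)‖ ≤ ‖d (ii (NN l) l) - v l‖ + ‖v l‖ := by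
      have := norm_add_le (d (ii (NN l) l) - v l) (v l)
      rwa [sub_add_cancel] at this
    linarith
  have hv0 : ∀ l, 0 < ‖v l‖ := fun l => lt_of_lt_of_le (by positivity) (hvn l)
  have hTv : Tendsto (fun l => T (v l)) atTop (𝓝 0) := by
    have hit : Tendsto (fun l => ii (NN l) l) atTop atTop :=
      tendsto_atTop_mono (fun l => hii (NN l) l) tendsto_id
    have h1 : Tendsto (fun l => T (d (ii (NN l) l))) atTop (𝓝 0) := hdT.comp hit
    have h2 : Tendsto (fun l => T (d (ii (NN l) l) - v l)) atTop (𝓝 0) := by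
      rw [tendsto_zero_iff_norm_tendsto_zero]
      refine squeeze_zero (g := fun l : ℕ => ‖T‖ * (1 / ((l : ℝ) + 1)))
        (fun l => norm_nonneg _) (fun l => ?_) ?_
      · refine (T.le_opNorm _).trans ?_
        exact mul_le_mul_of_nonneg_left ((happ (NN l) l).trans (min_le_right _ _))
          T.opNorm_nonneg
      · have := (tendsto_one_div_add_atTop_nhds_zero_nat (𝕜 := ℝ)).const_mul ‖T‖
        rwa [mul_zero] at this
    have h3 := h1.sub h2
    rw [sub_zero] at h3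
    refine h3.congr fun l => ?_
    rw [← map_sub]
    congr 1
    abel
  refine ⟨fun l => ((‖v l‖⁻¹ : ℝ) : ℂ) • v l, fun l => NN l + 1, fun l => NN (l + 1),
    ⟨fun l => ?_, hNlt, fun l l' hl => ?_⟩, fun l => ?_, ?_⟩
  · intro k g hk
    change cz (((‖v l‖⁻¹ : ℝ) : ℂ) • v l) k g = 0
    rw [map_smul]
    change ((‖v l‖⁻¹ : ℝ) : ℂ) • cz (v l) k g = 0
    rw [hlv (NN l) l k g hk, smul_zero]
  · have := hNm (show l + 1 ≤ l' from hl)
    change NN (l + 1) < NN l' + 1
    omega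
  · rw [norm_smul, Complex.norm_real, Real.norm_of_nonneg (by positivity),
      inv_mul_cancel₀ (hv0 l).ne']
  · rw [tendsto_zero_iff_norm_tendsto_zero]
    refine squeeze_zero (g := fun l : ℕ => (2 / δ) * ‖T (v l)‖) (fun l => norm_nonneg _)
      (fun l => ?_) ?_
    · rw [map_smul, norm_smul, Complex.norm_real, Real.norm_of_nonneg (by positivity)]
      refine mul_le_mul_of_nonneg_right ?_ (norm_nonneg _)
      have h1 := inv_anti₀ (by positivity : 0 < δ / 2) (hvn l)
      rwa [inv_div] at h1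
    · have h1 := hTv.norm.const_mul (2 / δ)
      rw [norm_zero, mul_zero] at h1
      exact h1

end Pool.Agent.TH73.HA1
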