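import Mathlib

/-!
# HI-C: a space with few operators is not isomorphic to a Hilbert space
-/

set_option autoImplicit false

open Set Filter Topology

namespace Pool.Agent.TH73.HC

/-- an orthonormal sequence in an infinite dimensional Hilbert space -/
lemma exists_orthonormal {H : Type*} [NormedAddCommGroup H] [InnerProductSpace ℂ H]
    [CompleteSpace H] (hinf : ¬ FiniteDimensional ℂ H) : ∃ e : ℕ → H, Orthonormal ℂ e := by
  obtain ⟨w, b, -⟩ := exists_hilbertBasis ℂ H
  have hw : Infinite w := by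
    rw [← not_finite_iff_infinite]
    intro hfin
    apply hinf
    have := Fintype.ofFinite w
    exact b.toOrthonormalBasis.toBasis.finiteDimensional_of_finite
  exact ⟨fun n => b (Infinite.natEmbedding w n),
    b.orthonormal.comp _ (Infinite.natEmbedding w).injective⟩

lemma norm_sub_orthonormal {H : Type*} [NormedAddCommGroup H] [InnerProductSpace ℂ H]
    {e : ℕ → H} (he : Orthonormal ℂ e) {m n : ℕ} (h : m ≠ n) : 1 ≤ ‖e m - e n‖ := by
  have h1 : ‖e m - e n‖ ^ 2 = 2 := by
    rw [@norm_sub_sq ℂ, he.1 m, he.1 n, he.2 h]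
    norm_num
  nlinarith [norm_nonneg (e m - e n)]

/-- the contradiction -/
lemma no_kernel {X : Type*} [NormedAddCommGroup X] [NormedSpace ℂ X]
    (lam : (X →L[ℂ] X) →ₐ[ℂ] ℂ)
    (hprop : ∀ T : X →L[ℂ] X, lam T ≠ 0 → ∀ x : ℕ → X, (∃ M : ℝ, ∀ n, ‖x n‖ ≤ M) →
      Tendsto (fun n => T (x n)) atTop (𝓝 0) →
      ∃ φ : ℕ → ℕ, StrictMono φ ∧ ∃ y, Tendsto (fun n => x (φ n)) atTop (𝓝 y))
    {H : Type*} [NormedAddCommGroup H] [InnerProductSpace ℂ H] (Φ : X ≃L[ℂ] H)
    {e : ℕ → H} (he : Orthonormal ℂ e) (T : X →L[ℂ] X) (hT : lam T ≠ 0)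
    (h0 : ∀ n, T (Φ.symm (e n)) = 0) : False := by
  obtain ⟨φ, hφ, y, hy⟩ := hprop T hT (fun n => Φ.symm (e n))
    ⟨‖(Φ.symm : H →L[ℂ] X)‖, fun n => by
      have := (Φ.symm : H →L[ℂ] X).le_opNorm (e n)
      rw [he.1 n, mul_one] at this
      exact this⟩
    (by simp only [h0]; exact tendsto_const_nhds)
  have h1 : Tendsto (fun n => e (φ n)) atTop (𝓝 (Φ y)) := by
    have := (Φ.continuous.tendsto y).comp hy
    refine this.congr fun n => ?_
    simp
  have h2 := h1.cauchySeq
  rw [Metric.cauchySeq_iff'] at h2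
  obtain ⟨N, hN⟩ := h2 1 one_pos
  have h3 := hN (N + 1) (Nat.le_succ N)
  rw [dist_eq_norm] at h3
  have h4 := norm_sub_orthonormal he (m := φ (N + 1)) (n := φ N)
    (hφ.injective.ne (Nat.succ_ne_self N))
  linarith

/-- A space with few operators is not isomorphic to a Hilbert space. -/
theorem not_hilbert {X : Type*} [NormedAddCommGroup X] [NormedSpace ℂ X] [CompleteSpace X]
    (lam : (X →L[ℂ] X) →ₐ[ℂ] ℂ)
    (hprop : ∀ T : X →L[ℂ] X, lam T ≠ 0 → ∀ x : ℕ → X, (∃ M : ℝ, ∀ n, ‖x n‖ ≤ M) →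
      Tendsto (fun n => T (x n)) atTop (𝓝 0) →
      ∃ φ : ℕ → ℕ, StrictMono φ ∧ ∃ y, Tendsto (fun n => x (φ n)) atTop (𝓝 y))
    (hinf : ¬ FiniteDimensional ℂ X)
    {H : Type*} [NormedAddCommGroup H] [InnerProductSpace ℂ H] [CompleteSpace H] :
    IsEmpty (X ≃L[ℂ] H) := by
  refine ⟨fun Φ => ?_⟩
  have hH : ¬ FiniteDimensional ℂ H := fun h =>
    hinf (LinearEquiv.finiteDimensional (Φ.symm : H ≃L[ℂ] X).toLinearEquiv)
  obtain ⟨e, he⟩ := exists_orthonormal hH
  set K : Submodule ℂ H := (Submodule.span ℂ (range fun n => e (2 * n))).topologicalClosure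
    with hK
  have hKc : CompleteSpace K := (Submodule.isClosed_topologicalClosure _).completeSpace_coe
  have hKp : K.HasOrthogonalProjection := inferInstance
  have hmem : ∀ n, e (2 * n) ∈ K := fun n =>
    Submodule.le_topologicalClosure _ (Submodule.subset_span ⟨n, rfl⟩)
  have horth : ∀ n, e (2 * n + 1) ∈ Kᗮ := by
    intro n
    rw [hK, Submodule.orthogonal_closure, Submodule.mem_orthogonal]
    intro u hu
    induction hu using Submodule.span_induction with
    | mem x hx =>
      obtain ⟨m, rfl⟩ := hx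
      exact he.2 (by omega)
    | zero => exact inner_zero_left _
    | add x y _ _ hx hy => rw [inner_add_left, hx, hy, add_zero]
    | smul a x _ hx => rw [inner_smul_left, hx, mul_zero]
  have hP1 : ∀ n, K.starProjection (e (2 * n)) = e (2 * n) := fun n =>
    Submodule.starProjection_eq_self_iff.2 (hmem n)
  have hP0 : ∀ n, K.starProjection (e (2 * n + 1)) = 0 := by
    intro n
    have h1 : e (2 * n + 1) ∈ K.starProjection.ker := by
      rw [Submodule.ker_starProjection]
      exact horth n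
    exact h1
  set Q : X →L[ℂ] X := (Φ.symm : H →L[ℂ] X).comp (K.starProjection.comp (Φ : X →L[ℂ] H)) with hQ
  have hQapp : ∀ x, Q x = Φ.symm (K.starProjection (Φ x)) := fun x => rfl
  have hQQ : Q * Q = Q := by
    ext x
    change Q (Q x) = Q x
    rw [hQapp, hQapp, ContinuousLinearEquiv.apply_symm_apply]
    congr 1
    exact congr($(Submodule.isIdempotentElem_starProjection (K := K)) (Φ x))
  have hlam : lam Q * lam Q = lam Q := by rw [← map_mul, hQQ]
  rcases eq_or_ne (lam Q) 0 with h0 | h0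
  · refine no_kernel lam hprop Φ (e := fun n => e (2 * n))
      (he.comp _ (fun a b h => by simpa using h)) (1 - Q) ?_ ?_
    · rw [map_sub, map_one, h0, sub_zero]
      exact one_ne_zero
    · intro n
      rw [_root_.sub_apply, hQapp, ContinuousLinearEquiv.apply_symm_apply, hP1]
      exact sub_self _
  · refine no_kernel lam hprop Φ (e := fun n => e (2 * n + 1))
      (he.comp _ (fun a b h => by simpa using h)) Q h0 ?_
    intro n
    rw [hQapp, ContinuousLinearEquiv.apply_symm_apply, hP0, map_zero]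

end Pool.Agent.TH73.HC
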