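import Pool.Agent.TH313.HI.Space3

/-!
# HI-D: limit of a bounded sequence of operators along an ultrafilter
-/

set_option autoImplicit false

open Set Filter Topology

namespace Pool.Agent.TH73.HD

open Pool.Agent.TH313.HI

/-- values of tree functionals are continuous in the coordinates -/
lemma continuous_evV (t : Tr) : ∀ a b : ℕ, Continuous fun x : V => ev t (cut a b x) := by
  induction t with
  | base k g =>
    intro a b
    simp only [ev_base, cut_apply]
    by_cases h : a ≤ k ∧ k ≤ b
    · simp only [if_pos h]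
      exact (continuous_apply g).comp (continuous_apply k)
    · simp only [if_neg h]
      exact continuous_const
  | node j d c a' b' t ih =>
    intro a b
    simp only [ev_node, cut_cut]
    exact continuous_const.mul (continuous_finsetSum _ fun i _ => continuous_const.mul (ih i _ _))

/-- bounded sequences have limits along the ultrafilter -/
lemma exists_lim (u : ℕ → ℂ) (R : ℝ) (h : ∀ n, ‖u n‖ ≤ R) :
    ∃ l, Tendsto u (hyperfilter ℕ : Filter ℕ) (𝓝 l) := by
  obtain ⟨l, -, hl⟩ := (isCompact_closedBall (0 : ℂ) R).ultrafilter_le_nhds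
    ((hyperfilter ℕ).map u) (by
      rw [Ultrafilter.coe_map, le_principal_iff, mem_map]
      refine Filter.mem_of_superset Filter.univ_mem fun n _ => ?_
      simpa using h n)
  exact ⟨l, hl⟩

/-- The limit of a bounded sequence of operators along an ultrafilter, in the topology of pointwise convergence of
the coordinates. -/
theorem exists_limit (T : ℕ → ZT →L[ℂ] WT) (M : ℝ) (hM : ∀ n, ‖T n‖ ≤ M) :
    ∃ S : ZT →L[ℂ] WT, ∀ (x : ZT) (k g : ℕ),
      Tendsto (fun n => cw (T n x) k g) (hyperfilter ℕ : Filter ℕ) (𝓝 (cw (S x) k g)) := by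
  have hM0 : 0 ≤ M := (norm_nonneg _).trans (hM 0)
  have hTx : ∀ n x, ‖T n x‖ ≤ M * ‖x‖ := fun n x =>
    ((T n).le_opNorm x).trans (mul_le_mul_of_nonneg_right (hM n) (norm_nonneg _))
  have hex : ∀ (x : ZT) (k g : ℕ), ∃ l : ℂ,
      Tendsto (fun n => cw (T n x) k g) (hyperfilter ℕ : Filter ℕ) (𝓝 l) := fun x k g =>
    exists_lim _ (M * ‖x‖) fun n => (norm_cw_le _ _ _).trans (hTx n x)
  choose L hL using hex
  have hLV : ∀ x : ZT, Tendsto (fun n => cw (T n x)) (hyperfilter ℕ : Filter ℕ) (𝓝 (L x)) := by
    intro x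
    rw [tendsto_pi_nhds]
    intro k
    rw [tendsto_pi_nhds]
    intro g
    exact hL x k g
  have hbd : ∀ x : ZT, Bd (M * ‖x‖) (L x) := by
    intro x t ht a b
    have h1 : Tendsto (fun n => ev t (cut a b (cw (T n x)))) (hyperfilter ℕ : Filter ℕ)
        (𝓝 (ev t (cut a b (L x)))) := ((continuous_evV t a b).tendsto (L x)).comp (hLV x)
    refine le_of_tendsto h1.norm (Eventually.of_forall fun n => ?_)
    exact ((T n x).bd t ht a b).trans (hTx n x)
  have hadm : ∀ x : ZT, Adm (L x) := by
    intro x k g hk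
    refine tendsto_nhds_unique (hL x k g) ?_
    have h1 : (fun n => cw (T n x) k g) = fun _ => 0 := by
      funext n
      exact adm_cw _ k g hk
    rw [h1]
    exact tendsto_const_nhds
  let S0 : ZT → WT := fun x => ofV (L x) (M * ‖x‖) (hbd x) (hadm x)
  have hS0 : ∀ x, cw (S0 x) = L x := fun x => cw_ofV _ _ _ _
  have hadd : ∀ x y, S0 (x + y) = S0 x + S0 y := by
    intro x y
    apply cw_injective
    rw [map_add, hS0, hS0, hS0]
    refine tendsto_nhds_unique (hLV (x + y)) ?_
    refine ((hLV x).add (hLV y)).congr fun n => ?_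
    rw [map_add, map_add]
  have hsmul : ∀ (c : ℂ) x, S0 (c • x) = c • S0 x := by
    intro c x
    apply cw_injective
    rw [map_smul, hS0, hS0]
    refine tendsto_nhds_unique (hLV (c • x)) ?_
    refine ((hLV x).const_smul c).congr fun n => ?_
    rw [map_smul, map_smul]
  let S1 : ZT →ₗ[ℂ] WT := { toFun := S0, map_add' := hadd, map_smul' := hsmul }
  refine ⟨S1.mkContinuous M fun x => ?_, fun x k g => ?_⟩
  · refine WT.norm_le (mul_nonneg hM0 (norm_nonneg _)) ?_
    change Bd (M * ‖x‖) (cw (S0 x))
    rw [hS0]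
    exact hbd x
  · change Tendsto _ _ (𝓝 (cw (S0 x) k g))
    rw [hS0]
    exact hL x k g

end Pool.Agent.TH73.HD
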