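import Pool.Agent.TH598.GV.Defs

set_option autoImplicit false

/-!
# Task GV-I: normal form of a Hermitian tensor with positive definite block
-/

namespace Pool.Agent.TH73.J3420

open Finset MeasureTheory
open scoped ComplexConjugate ComplexOrder
open Pool.Agent.TH598 Pool.Agent.TH598.GV

variable {k : ℕ}

lemma em_inj {a b : K k} (h : GV.em a = GV.em b) : a = b := by
  unfold GV.em at h
  obtain ⟨h1, h2⟩ := Prod.mk.inj h
  exact Prod.ext (Fin.succ_injective _ h1) h2

lemma em_ne_e0 (a : K k) : GV.em a ≠ e0 := by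
  intro h
  unfold GV.em e0 at h
  exact Fin.succ_ne_zero _ (Prod.mk.inj h).1

lemma em_ne_e1 (a : K k) : GV.em a ≠ e1 := by
  intro h
  unfold GV.em e1 at h
  exact Fin.succ_ne_zero _ (Prod.mk.inj h).1

lemma e1_ne_e0 : (e1 : Ix k) ≠ e0 := by
  intro h
  unfold e1 e0 at h
  exact absurd (Prod.mk.inj h).2 (by decide)

lemma cover (i : Ix k) : i = e0 ∨ i = e1 ∨ ∃ j, i = GV.em j := by
  obtain ⟨a, b⟩ := i
  rcases Fin.eq_zero_or_eq_succ a with rfl | ⟨c, rfl⟩
  · cases b
    · left; rfl
    · right; left; rfl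
  · right; right; exact ⟨(c, b), rfl⟩

lemma ps_inj {a b : K k} (h : ps a = ps b) : a = b := by
  obtain ⟨a1, a2⟩ := a
  obtain ⟨b1, b2⟩ := b
  unfold ps at h
  simp only at h
  have h2 : a2 = b2 := by
    cases a2 <;> cases b2 <;> simp at h ⊢ <;> omega
  subst h2
  have h1 : (a1 : ℕ) = b1 := by omega
  rw [Fin.ext h1]

lemma pr_fst_ne (s : Sx k) : (pr s).1 ≠ e0 := by
  rcases s with j | p
  · exact e1_ne_e0
  · exact em_ne_e0 _

lemma pr_snd_ne (s : Sx k) : (pr s).2 ≠ e0 := by
  rcases s with j | p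
  · exact em_ne_e0 _
  · exact em_ne_e0 _

lemma pr_inj {s t : Sx k} (h : pr s = pr t) : s = t := by
  rcases s with j | p <;> rcases t with j' | p'
  · simp only [pr] at h
    rw [em_inj (Prod.mk.inj h).2]
  · simp only [pr] at h
    exact absurd (Prod.mk.inj h).1.symm (em_ne_e1 _)
  · simp only [pr] at h
    exact absurd (Prod.mk.inj h).1 (em_ne_e1 _)
  · simp only [pr] at h
    have h1 := em_inj (Prod.mk.inj h).1
    have h2 := em_inj (Prod.mk.inj h).2
    congr 1
    exact Subtype.ext (Prod.ext h1 h2)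

lemma pr_swap (s t : Sx k) : ((pr s).2, (pr s).1) ≠ pr t := by
  intro h
  rcases s with j | p <;> rcases t with j' | p'
  · simp only [pr] at h
    exact absurd (Prod.mk.inj h).1 (em_ne_e1 _)
  · simp only [pr] at h
    exact absurd (Prod.mk.inj h).2.symm (em_ne_e1 _)
  · simp only [pr] at h
    exact absurd (Prod.mk.inj h).1 (em_ne_e1 _)
  · simp only [pr] at h
    have h1 := em_inj (Prod.mk.inj h).1
    have h2 := em_inj (Prod.mk.inj h).2
    have h3 := p.2
    have h4 := p'.2
    rw [← h1, ← h2] at h4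
    omega

lemma cov {i j : Ix k} (hi : i ≠ e0) (hj : j ≠ e0) (hij : i ≠ j) :
    (∃ s, pr s = (i, j)) ∨ (∃ s, pr s = (j, i)) := by
  rcases cover i with h | rfl | ⟨a, rfl⟩
  · exact absurd h hi
  · rcases cover j with h | h | ⟨b, rfl⟩
    · exact absurd h hj
    · exact absurd h.symm hij
    · exact Or.inl ⟨Sum.inl b, rfl⟩
  · rcases cover j with h | rfl | ⟨b, rfl⟩
    · exact absurd h hj
    · exact Or.inr ⟨Sum.inl a, rfl⟩
    · rcases lt_trichotomy (ps a) (ps b) with h | h | h
      · exact Or.inl ⟨Sum.inr ⟨(a, b), h⟩, rfl⟩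
      · exact absurd (by rw [ps_inj h]) hij
      · exact Or.inr ⟨Sum.inr ⟨(b, a), h⟩, rfl⟩

lemma E_pr (s t : Sx k) : E s (pr t).1 (pr t).2 = if s = t then 1 else 0 := by
  unfold E
  rw [if_neg (show ¬ ((pr t).2, (pr t).1) = pr s from pr_swap t s), sub_zero]
  by_cases h : s = t
  · subst h
    rw [if_pos rfl, if_pos rfl]
  · rw [if_neg h, if_neg]
    intro h1
    exact h (pr_inj h1.symm)

lemma E_swap (s : Sx k) (i j : Ix k) : E s j i = - E s i j := by
  unfold E
  ring

lemma E_e0 (s : Sx k) (j : Ix k) : E s e0 j = 0 := by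
  unfold E
  rw [if_neg, if_neg, sub_zero]
  · intro h
    exact pr_snd_ne s (by rw [← h])
  · intro h
    exact pr_fst_ne s (by rw [← h])

/-- alternating matrices in coordinates -/
lemma dec2 (M : Ix k → Ix k → ℂ) (hM : ∀ i j, M j i = - M i j) (i j : Ix k) :
    M i j = ∑ p, M e0 p * W p i j + ∑ s : Sx k, M (pr s).1 (pr s).2 * E s i j := by
  have hd : ∀ i, M i i = 0 := by
    intro i
    have h := hM i i
    have h2 : (2 : ℂ) * M i i = 0 := by linear_combination h
    rcases mul_eq_zero.1 h2 with h3 | h3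
    · norm_num at h3
    · exact h3
  have hW : ∑ p, M e0 p * W p i j
      = (if i = e0 then M e0 j else 0) - (if j = e0 then M e0 i else 0) := by
    unfold W
    have h1 : ∀ p, M e0 p * ((if i = e0 then 1 else 0) * (if j = p then 1 else 0) -
        (if i = p then 1 else 0) * (if j = e0 then 1 else 0))
        = (if j = p then (if i = e0 then M e0 p else 0) else 0)
          - (if i = p then (if j = e0 then M e0 p else 0) else 0) := by
      intro p
      split_ifs <;> ring
    rw [Finset.sum_congr rfl fun p _ => h1 p, Finset.sum_sub_distrib, Finset.sum_ite_eq,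
      Finset.sum_ite_eq]
    simp only [Finset.mem_univ, if_true]
  rw [hW]
  by_cases hi : i = e0
  · subst hi
    have h0 : ∑ s : Sx k, M (pr s).1 (pr s).2 * E s e0 j = 0 :=
      Finset.sum_eq_zero fun s _ => by rw [E_e0, mul_zero]
    rw [h0, if_pos rfl, hd]
    simp
  by_cases hj : j = e0
  · subst hj
    have h0 : ∑ s : Sx k, M (pr s).1 (pr s).2 * E s i e0 = 0 :=
      Finset.sum_eq_zero fun s _ => by rw [E_swap, E_e0, neg_zero, mul_zero]
    rw [h0, if_neg hi, if_pos rfl, hM e0 i]
    ring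
  rw [if_neg hi, if_neg hj, sub_zero, zero_add]
  by_cases hij : i = j
  · subst hij
    rw [hd]
    symm
    refine Finset.sum_eq_zero fun s _ => ?_
    have h : E s i i = 0 := by unfold E; ring
    rw [h, mul_zero]
  rcases cov hi hj hij with ⟨t, ht⟩ | ⟨t, ht⟩
  · have e1 : i = (pr t).1 := by rw [ht]
    have e2 : j = (pr t).2 := by rw [ht]
    rw [e1, e2]
    rw [Finset.sum_congr rfl fun s _ => by rw [E_pr]]
    simp
  · have e1 : j = (pr t).1 := by rw [ht]
    have e2 : i = (pr t).2 := by rw [ht]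
    rw [e1, e2]
    rw [Finset.sum_congr rfl fun s _ => by rw [E_swap, E_pr]]
    simp only [mul_neg, Finset.sum_neg_distrib, mul_ite, mul_one, mul_zero, Finset.sum_ite_eq',
      Finset.mem_univ, if_true]
    rw [hM]

lemma E_real (s : Sx k) (i j : Ix k) : conj (E s i j) = E s i j := by
  unfold E
  rw [map_sub]
  congr 1 <;> split_ifs <;> simp

lemma W_real (p : Ix k) (i j : Ix k) : conj (W p i j) = W p i j := by
  unfold W
  rw [map_sub, map_mul, map_mul]
  congr 1 <;> (congr 1 <;> split_ifs <;> simp)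

lemma bil {A S T : Type} [Fintype A] [Fintype S] [Fintype T] (u : S → A → ℂ) (v : T → A → ℂ)
    (x : S → ℂ) (y : T → ℂ) :
    ∑ a, (∑ s, u s a * x s) * (∑ t, v t a * y t) = ∑ s, ∑ t, (∑ a, u s a * v t a) * x s * y t := by
  have h : ∀ a, (∑ s, u s a * x s) * (∑ t, v t a * y t)
      = ∑ s, ∑ t, u s a * v t a * x s * y t := by
    intro a
    rw [Finset.sum_mul_sum]
    refine Finset.sum_congr rfl fun s _ => Finset.sum_congr rfl fun t _ => by ring
  rw [Finset.sum_congr rfl fun a _ => h a, Finset.sum_comm]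
  refine Finset.sum_congr rfl fun s _ => ?_
  rw [Finset.sum_comm]
  refine Finset.sum_congr rfl fun t _ => ?_
  rw [Finset.sum_mul, Finset.sum_mul]

section
open scoped MatrixOrder

lemma exists_sq {n : Type} [Fintype n] [DecidableEq n] {A : Matrix n n ℂ} (hA : A.PosSemidef) :
    ∃ B : Matrix n n ℂ, A = B.conjTranspose * B := by
  obtain ⟨B, hB⟩ := CStarAlgebra.nonneg_iff_eq_star_mul_self.mp hA.nonneg
  exact ⟨B, hB⟩

end

/-- J10: normal form -/
theorem dec {k : ℕ} (H : Ix k → Ix k → Ix k → Ix k → ℂ) (hH : HS H) (hB : (BB H).PosDef) :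
    ∃ (L : Matrix (Sx k) (Sx k) ℂ) (g : Sx k → Ix k → ℂ) (Γ : Matrix (Ix k) (Ix k) ℂ),
      IsUnit L.det ∧ H = HH L g Γ := by
  classical
  obtain ⟨Bm, hBm⟩ := exists_sq hB.posSemidef
  set L : Matrix (Sx k) (Sx k) ℂ := Bm.conjTranspose with hLdef
  have hLL : BB H = L * L.conjTranspose := by
    rw [hLdef, Matrix.conjTranspose_conjTranspose]
    exact hBm
  have hdet : IsUnit L.det := by
    have h1 : IsUnit (BB H).det := by
      rw [← Matrix.isUnit_iff_isUnit_det]
      exact hB.isUnit
    rw [hLL, Matrix.det_mul] at h1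
    exact isUnit_of_mul_isUnit_left h1
  have hdet' : IsUnit L.conjTranspose.det := by
    rw [Matrix.det_conjTranspose]
    exact hdet.star
  set C : Matrix (Ix k) (Sx k) ℂ := fun p t => H e0 p (pr t).1 (pr t).2 with hC
  set G : Matrix (Ix k) (Sx k) ℂ := C * (L.conjTranspose)⁻¹ with hG
  have hGC : G * L.conjTranspose = C := by
    rw [hG, Matrix.mul_assoc, Matrix.nonsing_inv_mul _ hdet', Matrix.mul_one]
  have hg : ∀ p t, ∑ a, G p a * conj (L t a) = H e0 p (pr t).1 (pr t).2 := by
    intro p t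
    have := congrFun (congrFun hGC p) t
    rw [Matrix.mul_apply] at this
    exact this
  have hLs : ∀ s t, ∑ a, L s a * conj (L t a) = H (pr s).1 (pr s).2 (pr t).1 (pr t).2 := by
    intro s t
    have := congrFun (congrFun hLL s) t
    rw [Matrix.mul_apply] at this
    exact this.symm
  have hg' : ∀ s q, ∑ a, L s a * conj (G q a) = H (pr s).1 (pr s).2 e0 q := by
    intro s q
    rw [hH.herm e0 q (pr s).1 (pr s).2, ← hg q s, map_sum]
    refine Finset.sum_congr rfl fun a _ => ?_
    rw [map_mul, Complex.conj_conj]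
    ring
  refine ⟨L, fun a p => G p a, fun p q => H e0 p e0 q - ∑ a, G p a * conj (G q a), hdet, ?_⟩
  funext i j i' j'
  have hcl : ∀ x y i' j', H x y i' j' = ∑ q, H x y e0 q * W q i' j'
      + ∑ t : Sx k, H x y (pr t).1 (pr t).2 * E t i' j' := by
    intro x y i' j'
    refine dec2 (fun i' j' => H x y i' j') ?_ i' j'
    intro i j
    change H x y j i = - H x y i j
    rw [hH.herm j i x y, hH.herm i j x y, hH.alt i j x y, map_neg]
  have hcr : H i j i' j' = ∑ p, H e0 p i' j' * W p i j
      + ∑ s : Sx k, H (pr s).1 (pr s).2 i' j' * E s i j :=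
    dec2 (fun i j => H i j i' j') (fun i j => hH.alt i j i' j') i j
  have hh1 : ∀ a, hh L (fun a p => G p a) a i j
      = ∑ s, L s a * E s i j + ∑ p, G p a * W p i j := fun a => rfl
  have hh2 : ∀ a, conj (hh L (fun a p => G p a) a i' j')
      = ∑ s, conj (L s a) * E s i' j' + ∑ p, conj (G p a) * W p i' j' := by
    intro a
    change conj (∑ s, L s a * E s i' j' + ∑ p, G p a * W p i' j') = _
    rw [map_add, map_sum, map_sum]
    congr 1
    · refine Finset.sum_congr rfl fun s _ => by rw [map_mul, E_real]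
    · refine Finset.sum_congr rfl fun s _ => by rw [map_mul, W_real]
  unfold HH
  rw [hcr]
  have hsum : ∑ a, hh L (fun a p => G p a) a i j * conj (hh L (fun a p => G p a) a i' j')
      = ∑ s, ∑ t, H (pr s).1 (pr s).2 (pr t).1 (pr t).2 * E s i j * E t i' j'
        + ∑ s, ∑ q, H (pr s).1 (pr s).2 e0 q * E s i j * W q i' j'
        + ∑ p, ∑ t, H e0 p (pr t).1 (pr t).2 * W p i j * E t i' j'
        + ∑ p, ∑ q, (∑ a, G p a * conj (G q a)) * W p i j * W q i' j' := by
    have h1 : ∀ a, hh L (fun a p => G p a) a i j * conj (hh L (fun a p => G p a) a i' j')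
        = (∑ s, L s a * E s i j) * (∑ t, conj (L t a) * E t i' j')
          + (∑ s, L s a * E s i j) * (∑ q, conj (G q a) * W q i' j')
          + (∑ p, G p a * W p i j) * (∑ t, conj (L t a) * E t i' j')
          + (∑ p, G p a * W p i j) * (∑ q, conj (G q a) * W q i' j') := by
      intro a
      rw [hh1, hh2]
      ring
    rw [Finset.sum_congr rfl fun a _ => h1 a, Finset.sum_add_distrib, Finset.sum_add_distrib,
      Finset.sum_add_distrib, bil (fun s a => L s a) (fun t a => conj (L t a)),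
      bil (fun s a => L s a) (fun q a => conj (G q a)),
      bil (fun p a => G p a) (fun t a => conj (L t a)),
      bil (fun p a => G p a) (fun q a => conj (G q a))]
    congr 1
    congr 1
    congr 1
    · exact Finset.sum_congr rfl fun s _ => Finset.sum_congr rfl fun t _ => by rw [hLs]
    · exact Finset.sum_congr rfl fun s _ => Finset.sum_congr rfl fun t _ => by rw [hg']
    · exact Finset.sum_congr rfl fun s _ => Finset.sum_congr rfl fun t _ => by rw [hg]
  rw [hsum]
  have e1 : ∑ p, H e0 p i' j' * W p i j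
      = ∑ p, ∑ q, H e0 p e0 q * W p i j * W q i' j'
        + ∑ p, ∑ t, H e0 p (pr t).1 (pr t).2 * W p i j * E t i' j' := by
    rw [← Finset.sum_add_distrib]
    refine Finset.sum_congr rfl fun p _ => ?_
    rw [hcl e0 p i' j', add_mul, Finset.sum_mul, Finset.sum_mul]
    congr 1
    · exact Finset.sum_congr rfl fun q _ => by ring
    · exact Finset.sum_congr rfl fun q _ => by ring
  have e2 : ∑ s : Sx k, H (pr s).1 (pr s).2 i' j' * E s i j
      = ∑ s, ∑ q, H (pr s).1 (pr s).2 e0 q * E s i j * W q i' j'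
        + ∑ s, ∑ t, H (pr s).1 (pr s).2 (pr t).1 (pr t).2 * E s i j * E t i' j' := by
    rw [← Finset.sum_add_distrib]
    refine Finset.sum_congr rfl fun p _ => ?_
    rw [hcl (pr p).1 (pr p).2 i' j', add_mul, Finset.sum_mul, Finset.sum_mul]
    congr 1
    · exact Finset.sum_congr rfl fun q _ => by ring
    · exact Finset.sum_congr rfl fun q _ => by ring
  have e3 : ∑ p, ∑ q, (H e0 p e0 q - ∑ a, G p a * conj (G q a)) * W p i j * W q i' j'
      = ∑ p, ∑ q, H e0 p e0 q * W p i j * W q i' j'
        - ∑ p, ∑ q, (∑ a, G p a * conj (G q a)) * W p i j * W q i' j' := by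
    rw [← Finset.sum_sub_distrib]
    refine Finset.sum_congr rfl fun p _ => ?_
    rw [← Finset.sum_sub_distrib]
    exact Finset.sum_congr rfl fun q _ => by ring
  rw [e1, e2, e3]
  ring

end Pool.Agent.TH73.J3420
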