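import Pool.Agent.TH37.RZ.Defs

set_option autoImplicit false

namespace Pool.Agent.TH73.RZCUTFG

open Pool.Agent.TH37.RF (commIdeal NilpId TT zword wd)
open Pool.Agent.TH37.RZ

variable {C Q : Type} [Ring C] [Ring Q]

/-- the ideal `ker φ ∩ ker ε` as an additive subgroup -/
def JJ (ε : C →+* ℤ) (φ : C →+* Q) : AddSubgroup C where
  carrier := {x | φ x = 0 ∧ ε x = 0}
  zero_mem' := ⟨map_zero _, map_zero _⟩
  add_mem' := by
    rintro x y ⟨h1, h2⟩ ⟨h3, h4⟩
    exact ⟨by rw [map_add, h1, h3, add_zero], by rw [map_add, h2, h4, add_zero]⟩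
  neg_mem' := by
    rintro x ⟨h1, h2⟩
    exact ⟨by rw [map_neg, h1, neg_zero], by rw [map_neg, h2, neg_zero]⟩

theorem mem_JJ {ε : C →+* ℤ} {φ : C →+* Q} {x : C} : x ∈ JJ ε φ ↔ φ x = 0 ∧ ε x = 0 := Iff.rfl

theorem mem_Cut_of {ε : C →+* ℤ} {φ : C →+* Q} {x : C} (h : x ∈ JJ ε φ) : x ∈ Cut ε φ := by
  rw [mem_JJ] at h
  show φ x = ((Int.castRingHom Q).comp ε) x
  simp [h.1, h.2]

theorem mul_mem_JJ {ε : C →+* ℤ} {φ : C →+* Q} (u : C) {x : C} (h : x ∈ JJ ε φ) :
    u * x ∈ JJ ε φ := by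
  rw [mem_JJ] at h ⊢
  simp [h.1, h.2]

theorem mem_mul_JJ {ε : C →+* ℤ} {φ : C →+* Q} (u : C) {x : C} (h : x ∈ JJ ε φ) :
    x * u ∈ JJ ε φ := by
  rw [mem_JJ] at h ⊢
  simp [h.1, h.2]

/-- an additive subgroup containing `1` and stable under left multiplication by generators is
everything -/
theorem stable_top {r : ℕ} (b : Fin r → C) (hb : Subring.closure (Set.range b) = ⊤)
    (M : AddSubgroup C) (h1 : (1 : C) ∈ M) (hM : ∀ j, ∀ x ∈ M, b j * x ∈ M) : M = ⊤ := by
  let T : Subring C :=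
    { carrier := {c | ∀ x ∈ M, c * x ∈ M}
      mul_mem' := by
        intro u v hu hv x hx
        rw [mul_assoc]
        exact hu _ (hv _ hx)
      one_mem' := by
        intro x hx
        simpa using hx
      add_mem' := by
        intro u v hu hv x hx
        rw [add_mul]
        exact M.add_mem (hu _ hx) (hv _ hx)
      zero_mem' := by
        intro x hx
        rw [zero_mul]
        exact M.zero_mem
      neg_mem' := by
        intro u hu x hx
        rw [neg_mul]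
        exact M.neg_mem (hu _ hx) }
  have hT : T = ⊤ := by
    rw [eq_top_iff, ← hb, Subring.closure_le]
    rintro _ ⟨j, rfl⟩
    exact fun x hx => hM j x hx
  rw [eq_top_iff]
  intro c _
  have hc : c ∈ T := by rw [hT]; trivial
  have := hc 1 h1
  simpa using this

/-- JOB Z-CUTFG -/
theorem cut_fg {C Q : Type} [Ring C] [Ring Q] [Finite Q] (ε : C →+* ℤ) (hfg : FGen ε)
    (φ : C →+* Q) : FGen (cutε ε φ) := by
  classical
  obtain ⟨r, b, hb0, hb⟩ := hfg
  -- coset representatives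
  have hex : ∀ q : Q, ∃ c : C, ε c = 0 ∧ ∀ c', ε c' = 0 → φ c' = q → φ c = q := by
    intro q
    by_cases h : ∃ c, ε c = 0 ∧ φ c = q
    · obtain ⟨c, hc, hq⟩ := h
      exact ⟨c, hc, fun _ _ _ => hq⟩
    · exact ⟨0, map_zero _, fun c' h1 h2 => absurd ⟨c', h1, h2⟩ h⟩
  choose out hout0 hout1 using hex
  have hout : ∀ c : C, ε c = 0 → c - out (φ c) ∈ JJ ε φ := by
    intro c hc
    refine ⟨?_, ?_⟩
    · rw [map_sub, hout1 (φ c) c hc rfl, sub_self]
    · rw [map_sub, hout0, hc, sub_zero]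
  let T : Set C := Set.range out
  have hTfin : T.Finite := Set.finite_range out
  have hT0 : ∀ t ∈ T, ε t = 0 := by
    rintro _ ⟨q, rfl⟩
    exact hout0 q
  let R : Set C := insert 1 T
  have hRfin : R.Finite := hTfin.insert 1
  let F1 : Set C := (Set.image2 (fun (j : Fin r) (v : C) => b j * v) Set.univ R ∪
    Set.image2 (· + ·) T T) ∪ ((fun t => -t) '' T ∪ insert 0 T)
  have hF1fin : F1.Finite :=
    ((Set.Finite.image2 _ Set.finite_univ hRfin).union (Set.Finite.image2 _ hTfin hTfin)).union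
      ((hTfin.image _).union (hTfin.insert 0))
  have hF10 : ∀ c ∈ F1, ε c = 0 := by
    rintro c ((⟨j, _, v, _, rfl⟩ | ⟨t, ht, t', ht', rfl⟩) | (⟨t, ht, rfl⟩ | (rfl | ht)))
    · show ε (b j * v) = 0
      rw [map_mul, hb0, zero_mul]
    · show ε (t + t') = 0
      rw [map_add, hT0 t ht, hT0 t' ht', add_zero]
    · show ε (-t) = 0
      rw [map_neg, hT0 t ht, neg_zero]
    · exact map_zero _
    · exact hT0 c ht
  let G : Set C := (fun c => c - out (φ c)) '' F1
  have hGfin : G.Finite := hF1fin.image _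
  have hGJ : ∀ g ∈ G, g ∈ JJ ε φ := by
    rintro _ ⟨c, hc, rfl⟩
    exact hout c (hF10 c hc)
  let G1 : Set C := Set.image2 (· * ·) R G
  have hG1fin : G1.Finite := Set.Finite.image2 _ hRfin hGfin
  have hG1J : ∀ g ∈ G1, g ∈ JJ ε φ := by
    rintro _ ⟨v, _, g, hg, rfl⟩
    exact mul_mem_JJ v (hGJ g hg)
  let A : Subring C := Subring.closure G1
  have hGA : ∀ g ∈ G, g ∈ A := by
    intro g hg
    exact Subring.subset_closure ⟨1, Set.mem_insert _ _, g, hg, one_mul _⟩
  let S : AddSubgroup C := AddSubgroup.closure (Set.image2 (· * ·) G1 (A : Set C))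
  have hSmem : ∀ v ∈ R, ∀ g ∈ G, ∀ a ∈ A, v * g * a ∈ S := by
    intro v hv g hg a ha
    exact AddSubgroup.subset_closure ⟨v * g, ⟨v, hv, g, hg, rfl⟩, a, ha, rfl⟩
  have hSmem1 : ∀ g ∈ G, ∀ a ∈ A, g * a ∈ S := by
    intro g hg a ha
    have := hSmem 1 (Set.mem_insert _ _) g hg a ha
    simpa using this
  have hSmem2 : ∀ g ∈ G, g ∈ S := by
    intro g hg
    have := hSmem1 g hg 1 A.one_mem
    simpa using this
  have hSA : ∀ s ∈ S, s ∈ A := by
    have : S ≤ A.toAddSubgroup := by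
      rw [AddSubgroup.closure_le]
      rintro _ ⟨g, hg, a, ha, rfl⟩
      exact A.mul_mem (Subring.subset_closure hg) ha
    exact this
  have hSJ : S ≤ JJ ε φ := by
    rw [AddSubgroup.closure_le]
    rintro _ ⟨g, hg, a, ha, rfl⟩
    exact mem_mul_JJ a (hG1J g hg)
  have hdec : ∀ j, ∀ v ∈ R, ∃ v' ∈ T, ∃ g ∈ G, b j * v = v' + g := by
    intro j v hv
    refine ⟨out (φ (b j * v)), ⟨_, rfl⟩, b j * v - out (φ (b j * v)),
      ⟨_, Or.inl (Or.inl ⟨j, trivial, v, hv, rfl⟩), rfl⟩, ?_⟩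
    abel
  have h0T : out 0 ∈ T := ⟨0, rfl⟩
  have h0S : out 0 ∈ S := by
    have h1 : (0 : C) - out (φ 0) ∈ G := ⟨0, Or.inr (Or.inr (Or.inl rfl)), rfl⟩
    rw [map_zero, zero_sub] at h1
    have := S.neg_mem (hSmem2 _ h1)
    simpa using this
  -- the additive group `ℤ + T + S`
  let X : AddSubgroup C :=
    { carrier := {x | ∃ n : ℤ, ∃ t ∈ T, ∃ s ∈ S, x = (n : C) + t + s}
      zero_mem' := ⟨0, out 0, h0T, -out 0, S.neg_mem h0S, by simp⟩
      add_mem' := by
        rintro _ _ ⟨n, t, ht, s, hs, rfl⟩ ⟨n', t', ht', s', hs', rfl⟩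
        have h1 : (t + t') - out (φ (t + t')) ∈ G :=
          ⟨t + t', Or.inl (Or.inr ⟨t, ht, t', ht', rfl⟩), rfl⟩
        refine ⟨n + n', out (φ (t + t')), ⟨_, rfl⟩, s + s' + ((t + t') - out (φ (t + t'))),
          S.add_mem (S.add_mem hs hs') (hSmem2 _ h1), ?_⟩
        push_cast
        abel
      neg_mem' := by
        rintro _ ⟨n, t, ht, s, hs, rfl⟩
        have h1 : (-t) - out (φ (-t)) ∈ G := ⟨-t, Or.inr (Or.inl ⟨t, ht, rfl⟩), rfl⟩
        refine ⟨-n, out (φ (-t)), ⟨_, rfl⟩, -s + ((-t) - out (φ (-t))),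
          S.add_mem (S.neg_mem hs) (hSmem2 _ h1), ?_⟩
        push_cast
        abel }
  have hTX : ∀ t ∈ T, t ∈ X := fun t ht => ⟨0, t, ht, 0, S.zero_mem, by simp⟩
  have hSX : ∀ s ∈ S, s ∈ X := fun s hs =>
    ⟨0, out 0, h0T, s - out 0, S.sub_mem hs h0S, by simp⟩
  have h1X : (1 : C) ∈ X := ⟨1, out 0, h0T, -out 0, S.neg_mem h0S, by simp⟩
  have hbR : ∀ j, ∀ v ∈ R, b j * v ∈ X := by
    intro j v hv
    obtain ⟨v', hv', g, hg, h⟩ := hdec j v hv
    rw [h]
    exact X.add_mem (hTX v' hv') (hSX g (hSmem2 g hg))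
  have htop : X = ⊤ := by
    refine stable_top b hb _ h1X ?_
    rintro j _ ⟨n, t, ht, s, hs, rfl⟩
    rw [mul_add, mul_add]
    refine X.add_mem (X.add_mem ?_ (hbR j t (Set.mem_insert_of_mem _ ht))) (hSX _ ?_)
    · have h1 := X.zsmul_mem (hbR j 1 (Set.mem_insert _ _)) n
      have h2 : b j * (n : C) = n • (b j * 1) := by
        rw [mul_one, zsmul_eq_mul, Int.cast_comm]
      rw [h2]
      exact h1
    · have : S ≤ S.comap (AddMonoidHom.mulLeft (b j)) := by
        rw [AddSubgroup.closure_le]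
        rintro _ ⟨_, ⟨v, hv, g, hg, rfl⟩, a, ha, rfl⟩
        obtain ⟨v', hv', g', hg', h⟩ := hdec j v hv
        show b j * (v * g * a) ∈ S
        have h2 : b j * (v * g * a) = v' * g * a + g' * (g * a) := by
          rw [show b j * (v * g * a) = (b j * v) * g * a by noncomm_ring, h]
          noncomm_ring
        rw [h2]
        exact S.add_mem (hSmem v' (Set.mem_insert_of_mem _ hv') g hg a ha)
          (hSmem1 g' hg' _ (A.mul_mem (hGA g hg) ha))
      exact this hs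
  have hJA : ∀ x ∈ JJ ε φ, x ∈ A := by
    intro x hx
    have hx' : x ∈ X := by rw [htop]; trivial
    obtain ⟨n, t, ht, s, hs, rfl⟩ := hx'
    have hn : n = 0 := by
      have h1 := hx.2
      rw [map_add, map_add, map_intCast, hT0 t ht, (hSJ hs).2, add_zero, add_zero] at h1
      simpa using h1
    subst hn
    rw [Int.cast_zero, zero_add] at hx ⊢
    have htJ : t ∈ JJ ε φ := by
      have := (JJ ε φ).sub_mem hx (hSJ hs)
      simpa using this
    have h1 : t - out (φ t) ∈ G := ⟨t, Or.inr (Or.inr (Or.inr ht)), rfl⟩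
    rw [htJ.1] at h1
    have h2 := A.add_mem (hGA _ h1) (hSA _ h0S)
    rw [sub_add_cancel] at h2
    exact A.add_mem h2 (hSA s hs)
  have hCA : Cut ε φ = A := by
    apply le_antisymm
    · intro x hx
      have hx' : φ x = ((Int.castRingHom Q).comp ε) x := hx
      have h3 : x - (ε x : C) ∈ JJ ε φ := by
        rw [mem_JJ]
        constructor
        · rw [map_sub, hx']
          simp
        · simp
      have h4 := A.add_mem (hJA _ h3) (intCast_mem A (ε x))
      simpa using h4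
    · rw [Subring.closure_le]
      intro g hg
      exact mem_Cut_of (hG1J g hg)
  -- conclusion
  have : Finite G1 := hG1fin
  obtain ⟨n, ⟨e⟩⟩ := Finite.exists_equiv_fin G1
  let b' : Fin n → Cut ε φ := fun i => ⟨(e.symm i).1, mem_Cut_of (hG1J _ (e.symm i).2)⟩
  refine ⟨n, b', ?_, ?_⟩
  · intro i
    exact (mem_JJ.1 (hG1J _ (e.symm i).2)).2
  · have h5 : (Cut ε φ).subtype '' Set.range b' = G1 := by
      ext x
      constructor
      · rintro ⟨_, ⟨i, rfl⟩, rfl⟩
        exact (e.symm i).2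
      · intro hx
        refine ⟨b' (e ⟨x, hx⟩), ⟨_, rfl⟩, ?_⟩
        show ((e.symm (e ⟨x, hx⟩) : G1) : C) = x
        rw [Equiv.symm_apply_apply]
    have h6 : (Subring.closure (Set.range b')).map (Cut ε φ).subtype = A := by
      rw [RingHom.map_closure, h5]
    rw [eq_top_iff]
    rintro ⟨x, hx⟩ _
    have h7 : x ∈ A := by rw [← hCA]; exact hx
    rw [← h6] at h7
    obtain ⟨y, hy, hyx⟩ := h7
    have h8 : y = ⟨x, hx⟩ := Subtype.ext hyx
    rw [← h8]
    exact hy

end Pool.Agent.TH73.RZCUTFG
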