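import Pool.Agent.TH387.EI.Defs

set_option autoImplicit false

open scoped ComplexOrder InnerProductSpace

noncomputable section

namespace TH73.EI4a

open scoped ComplexConjugate

universe u v

/-- Weak limits of bounded nets of operators along ultrafilters (copied from `prove_wlim` of
`H847R2/Kad5/Wlim.lean`). -/
theorem wlim {H : Type u} [NormedAddCommGroup H] [InnerProductSpace ℂ H] [CompleteSpace H]
    {I : Type v} (U : Ultrafilter I) (T : I → H →L[ℂ] H) (r : ℝ) (hr : 0 ≤ r)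
    (hT : ∀ i, ‖T i‖ ≤ r) :
    ∃ E : H →L[ℂ] H, ‖E‖ ≤ r ∧
      ∀ ξ η : H, Filter.Tendsto (fun i => ⟪η, T i ξ⟫_ℂ) U (nhds ⟪η, E ξ⟫_ℂ) := by
  have hb : ∀ (η ξ : H) (i : I), ‖⟪η, T i ξ⟫_ℂ‖ ≤ r * ‖η‖ * ‖ξ‖ := by
    intro η ξ i
    calc ‖⟪η, T i ξ⟫_ℂ‖ ≤ ‖η‖ * ‖T i ξ‖ := norm_inner_le_norm _ _
      _ ≤ ‖η‖ * (r * ‖ξ‖) := by
          gcongr
          exact (T i).le_of_opNorm_le (hT i) ξ
      _ = r * ‖η‖ * ‖ξ‖ := by ring
  have hex : ∀ η ξ : H, ∃ z : ℂ, ‖z‖ ≤ r * ‖η‖ * ‖ξ‖ ∧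
      Filter.Tendsto (fun i => ⟪η, T i ξ⟫_ℂ) U (nhds z) := by
    intro η ξ
    obtain ⟨z, hz, hl⟩ := (isCompact_closedBall (0 : ℂ) (r * ‖η‖ * ‖ξ‖)).ultrafilter_le_nhds
      (U.map fun i => ⟪η, T i ξ⟫_ℂ) (by
        rw [Ultrafilter.coe_map, Filter.le_principal_iff, Filter.mem_map]
        exact Filter.univ_mem' fun i => by
          rw [Set.mem_preimage, mem_closedBall_zero_iff]
          exact hb η ξ i)
    exact ⟨z, mem_closedBall_zero_iff.mp hz, hl⟩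
  choose B hB1 hB2 using hex
  have huniq : ∀ (η ξ : H) (z : ℂ), Filter.Tendsto (fun i => ⟪η, T i ξ⟫_ℂ) U (nhds z) →
      B η ξ = z := fun η ξ z h => tendsto_nhds_unique (hB2 η ξ) h
  let f : H →ₗ⋆[ℂ] H →ₗ[ℂ] ℂ := LinearMap.mk₂'ₛₗ (starRingEnd ℂ) (RingHom.id ℂ) B
    (fun η η' ξ => huniq _ _ _ (by
      simpa only [inner_add_left] using (hB2 η ξ).add (hB2 η' ξ)))
    (fun c η ξ => huniq _ _ _ (by
      simpa only [inner_smul_left, smul_eq_mul] using (hB2 η ξ).const_mul (conj c)))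
    (fun η ξ ξ' => huniq _ _ _ (by
      simpa only [map_add, inner_add_right] using (hB2 η ξ).add (hB2 η ξ')))
    (fun c η ξ => huniq _ _ _ (by
      simpa only [map_smul, inner_smul_right, smul_eq_mul, RingHom.id_apply] using
        (hB2 η ξ).const_mul c))
  have hf : ∀ η ξ, f η ξ = B η ξ := fun η ξ => rfl
  let g : H →L⋆[ℂ] H →L[ℂ] ℂ := LinearMap.mkContinuous₂ f r (fun η ξ => by
    rw [hf]
    exact hB1 η ξ)
  have hg : ∀ η ξ, g η ξ = B η ξ := fun η ξ => rfl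
  let F : H →L[ℂ] H := InnerProductSpace.continuousLinearMapOfBilin g
  have hF : ∀ η ξ, ⟪F η, ξ⟫_ℂ = B η ξ := fun η ξ =>
    InnerProductSpace.continuousLinearMapOfBilin_apply g η ξ
  refine ⟨ContinuousLinearMap.adjoint F, ?_, fun ξ η => ?_⟩
  · rw [LinearIsometryEquiv.norm_map]
    refine ContinuousLinearMap.opNorm_le_bound _ hr fun η => ?_
    by_cases h0 : ‖F η‖ = 0
    · rw [h0]
      positivity
    · have h1 : ‖F η‖ * ‖F η‖ ≤ (r * ‖η‖) * ‖F η‖ := by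
        have h2 : ‖⟪F η, F η⟫_ℂ‖ = ‖F η‖ * ‖F η‖ := by
          rw [inner_self_eq_norm_sq_to_K, ← sq]
          simp
        rw [← h2, hF]
        exact hB1 η (F η)
      have h3 : 0 < ‖F η‖ := lt_of_le_of_ne (norm_nonneg _) (Ne.symm h0)
      exact le_of_mul_le_mul_right h1 h3
  · rw [ContinuousLinearMap.adjoint_inner_right, hF]
    exact hB2 η ξ

/-- A star homomorphism into bounded operators is contractive. -/
theorem rep_norm {A : Type u} [NonUnitalCStarAlgebra A] {H : Type u} [NormedAddCommGroup H]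
    [InnerProductSpace ℂ H] [CompleteSpace H] (ρ : A →⋆ₙₐ[ℂ] (H →L[ℂ] H)) (a : A) :
    ‖ρ a‖ ≤ ‖a‖ :=
  NonUnitalStarAlgHom.norm_apply_le ρ a

theorem rep_apply {A : Type u} [NonUnitalCStarAlgebra A] {H : Type u} [NormedAddCommGroup H]
    [InnerProductSpace ℂ H] [CompleteSpace H] (ρ : A →⋆ₙₐ[ℂ] (H →L[ℂ] H)) (a : A) (v : H) :
    ‖ρ a v‖ ≤ ‖a‖ * ‖v‖ :=
  (ρ a).le_of_opNorm_le (rep_norm ρ a) v

theorem fun_bound {A : Type u} [NonUnitalCStarAlgebra A] {H : Type u} [NormedAddCommGroup H]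
    [InnerProductSpace ℂ H] [CompleteSpace H] (ρ : A →⋆ₙₐ[ℂ] (H →L[ℂ] H)) (ξ : H) (a : A) :
    ‖⟪ξ, ρ a ξ⟫_ℂ‖ ≤ ‖a‖ * ‖ξ‖ ^ 2 := by
  calc ‖⟪ξ, ρ a ξ⟫_ℂ‖ ≤ ‖ξ‖ * ‖ρ a ξ‖ := norm_inner_le_norm _ _
    _ ≤ ‖ξ‖ * (‖a‖ * ‖ξ‖) := by
        gcongr
        exact rep_apply ρ a ξ
    _ = ‖a‖ * ‖ξ‖ ^ 2 := by ring

theorem fun_bound' {A : Type u} [NonUnitalCStarAlgebra A] {H : Type u} [NormedAddCommGroup H]
    [InnerProductSpace ℂ H] [CompleteSpace H] (ρ : A →⋆ₙₐ[ℂ] (H →L[ℂ] H)) (ξ : H)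
    (hξ : ‖ξ‖ ≤ 1) (a : A) :
    ‖⟪ξ, ρ a ξ⟫_ℂ‖ ≤ ‖a‖ := by
  have h := fun_bound ρ ξ a
  have h1 : ‖ξ‖ ^ 2 ≤ 1 := pow_le_one₀ (norm_nonneg _) hξ
  nlinarith [norm_nonneg a]

theorem fun_sub {A : Type u} [NonUnitalCStarAlgebra A] {H : Type u} [NormedAddCommGroup H]
    [InnerProductSpace ℂ H] [CompleteSpace H] (ρ : A →⋆ₙₐ[ℂ] (H →L[ℂ] H)) (ξ : H)
    (hξ : ‖ξ‖ ≤ 1) (a b : A) :
    ‖⟪ξ, ρ a ξ⟫_ℂ - ⟪ξ, ρ b ξ⟫_ℂ‖ ≤ ‖a - b‖ := by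
  have h := fun_bound' ρ ξ hξ (a - b)
  rw [map_sub, ContinuousLinearMap.sub_apply, inner_sub_right] at h
  exact h

/-- The square of the norm of `ρ u ξ - c ξ`. -/
theorem sq_expand {A : Type u} [NonUnitalCStarAlgebra A] {H : Type u} [NormedAddCommGroup H]
    [InnerProductSpace ℂ H] [CompleteSpace H] (ρ : A →⋆ₙₐ[ℂ] (H →L[ℂ] H)) (ξ : H)
    (u : A) (c : ℂ) :
    ‖ρ u ξ - c • ξ‖ ^ 2 = (⟪ξ, ρ (star u * u) ξ⟫_ℂ).re - 2 * (conj c * ⟪ξ, ρ u ξ⟫_ℂ).re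
      + ‖c‖ ^ 2 * ‖ξ‖ ^ 2 := by
  have h1 := @norm_sub_sq ℂ H _ _ _ (ρ u ξ) (c • ξ)
  rw [h1, norm_smul, mul_pow]
  have h2 : ‖ρ u ξ‖ ^ 2 = (⟪ξ, ρ (star u * u) ξ⟫_ℂ).re := by
    rw [map_mul, map_star, ContinuousLinearMap.mul_apply, ContinuousLinearMap.star_eq_adjoint,
      ContinuousLinearMap.adjoint_inner_right]
    rw [inner_self_eq_norm_sq_to_K]
    norm_cast
  have h3 : RCLike.re ⟪ρ u ξ, c • ξ⟫_ℂ = (conj c * ⟪ξ, ρ u ξ⟫_ℂ).re := by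
    rw [inner_smul_right, ← inner_conj_symm]
    have h4 : c * conj ⟪ξ, ρ u ξ⟫_ℂ = conj (conj c * ⟪ξ, ρ u ξ⟫_ℂ) := by
      rw [map_mul, Complex.conj_conj]
    rw [h4]
    exact Complex.conj_re _
  rw [h2, h3]

/-- The comparison of the three terms of `sq_expand`. -/
theorem compare (g f g1 f1 : ℂ) (G F s ε δ τ : ℝ) (hε : 0 ≤ ε) (hδ : 0 ≤ δ)
    (hs : s ≤ 1)
    (hg1 : ‖g1‖ ≤ 1) (hf : ‖f‖ ≤ 1) (hg : ‖g‖ ≤ 1) (h0 : ‖g - f‖ ≤ δ)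
    (h1 : ‖g1 - f1‖ ≤ δ + 5 * ε) (h2 : |G - F| ≤ 12 * ε + δ)
    (h3 : F - 2 * (conj f * f1).re + ‖f‖ ^ 2 ≤ 4 * τ ^ 2) (hτ : 4 * τ ^ 2 ≤ ε) :
    G - 2 * (conj g * g1).re + ‖g‖ ^ 2 * s ≤ 25 * (ε + δ) := by
  have e1 : ‖conj g * g1 - conj f * f1‖ ≤ 2 * δ + 5 * ε := by
    have e2 : conj g * g1 - conj f * f1 = conj (g - f) * g1 + conj f * (g1 - f1) := by
      rw [map_sub]; ring
    rw [e2]
    refine (norm_add_le _ _).trans ?_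
    rw [norm_mul, norm_mul, RCLike.norm_conj, RCLike.norm_conj]
    have e3 : ‖g - f‖ * ‖g1‖ ≤ δ * 1 := by gcongr
    have e4 : ‖f‖ * ‖g1 - f1‖ ≤ 1 * (δ + 5 * ε) := by gcongr
    linarith
  have e5 : |(conj g * g1).re - (conj f * f1).re| ≤ 2 * δ + 5 * ε := by
    rw [← Complex.sub_re]
    exact (Complex.abs_re_le_norm _).trans e1
  have e6 : ‖g‖ ^ 2 * s ≤ ‖g‖ ^ 2 := by
    have := sq_nonneg ‖g‖
    nlinarith
  have e7 : ‖g‖ ^ 2 - ‖f‖ ^ 2 ≤ 2 * δ := by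
    have e8 : ‖g‖ - ‖f‖ ≤ δ := (norm_sub_norm_le _ _).trans h0
    have e9 : ‖g‖ ^ 2 - ‖f‖ ^ 2 = (‖g‖ - ‖f‖) * (‖g‖ + ‖f‖) := by ring
    rw [e9]
    have e10 : (‖g‖ - ‖f‖) * (‖g‖ + ‖f‖) ≤ δ * (‖g‖ + ‖f‖) :=
      mul_le_mul_of_nonneg_right e8 (by positivity)
    have e11 : δ * (‖g‖ + ‖f‖) ≤ δ * 2 := mul_le_mul_of_nonneg_left (by linarith) hδ
    linarith
  have a1 := (abs_le.mp e5).1
  have a2 := (abs_le.mp e5).2
  have a3 := (abs_le.mp h2).2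
  linarith

section

variable {A B : Type u} [NonUnitalCStarAlgebra A] [NonUnitalCStarAlgebra B]
  {H K : Type u} [NormedAddCommGroup H] [InnerProductSpace ℂ H] [CompleteSpace H]
  [NormedAddCommGroup K] [InnerProductSpace ℂ K] [CompleteSpace K]

open Pool.Agent.TH387.EI

theorem mul_le_one' {A : Type u} [NonUnitalCStarAlgebra A] {x y : A} (hx : ‖x‖ ≤ 1)
    (hy : ‖y‖ ≤ 1) : ‖x * y‖ ≤ 1 :=
  (norm_mul_le _ _).trans (mul_le_one₀ hx (norm_nonneg _) hy)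

/-- Products of perturbed contractions. -/
theorem mul_sub {A : Type u} [NonUnitalCStarAlgebra A] {x y x' y' : A} {s t : ℝ}
    (hx : ‖x‖ ≤ 1) (hy' : ‖y'‖ ≤ 1) (h1 : ‖x - x'‖ ≤ s) (h2 : ‖y - y'‖ ≤ t) :
    ‖x * y - x' * y'‖ ≤ s + t := by
  have e : x * y - x' * y' = x * (y - y') + (x - x') * y' := by
    rw [_root_.mul_sub, _root_.sub_mul]; abel
  rw [e]
  refine (norm_add_le _ _).trans ?_
  have a1 : ‖x * (y - y')‖ ≤ 1 * t :=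
    (norm_mul_le _ _).trans (mul_le_mul hx h2 (norm_nonneg _) zero_le_one)
  have hs : 0 ≤ s := (norm_nonneg _).trans h1
  have a2 : ‖(x - x') * y'‖ ≤ s * 1 :=
    (norm_mul_le _ _).trans (mul_le_mul h1 hy' (norm_nonneg _) hs)
  linarith

theorem star_mul_near {φ : A → B} {ε : ℝ} (hφ : AI φ ε) {u : A} (hu : ‖u‖ ≤ 1) {w : B}
    (hw : ‖w‖ ≤ 1) {s : ℝ} (h : ‖φ u - w‖ ≤ s) :
    ‖φ (star u * u) - star w * w‖ ≤ 2 * ε + 2 * s := by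
  have hu' : ‖star u‖ ≤ 1 := by rwa [norm_star]
  have hφu := hφ.norm u hu
  have hφu' := hφ.norm (star u) hu'
  have a1 := hφ.mul (star u) u hu' hu
  have a2 := hφ.star u hu
  have a3 : ‖φ (star u) - star w‖ ≤ ε + s := by
    have e : φ (star u) - star w = (φ (star u) - star (φ u)) + star (φ u - w) := by
      rw [star_sub]; abel
    rw [e]
    refine (norm_add_le _ _).trans ?_
    rw [norm_star]
    linarith
  have a4 := mul_sub hφu' hw a3 h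
  have e : φ (star u * u) - star w * w = (φ (star u * u) - φ (star u) * φ u) +
      (φ (star u) * φ u - star w * w) := by abel
  rw [e]
  refine (norm_add_le _ _).trans ?_
  linarith

/-- The finite stage. -/
theorem fin_stage (φ : A → B) (ε δ : ℝ) (hε : 0 < ε) (hδ : 0 ≤ δ)
    (hφ : AI φ ε)
    (ρ : A →⋆ₙₐ[ℂ] (H →L[ℂ] H)) (ξ : H) (hξ : ‖ξ‖ ≤ 1)
    (π : B →⋆ₙₐ[ℂ] (K →L[ℂ] K)) (hπ : Kap π) (κ : K) (hκ : ‖κ‖ = 1)
    (h : Near φ ρ π ξ κ δ) (F : Finset A) :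
    ∃ y : A, ‖y‖ ≤ 1 ∧ ∀ a ∈ F, ‖a‖ ≤ 1 →
      ‖ρ (star y * y) (ρ a ξ) - ⟪ξ, ρ a ξ⟫_ℂ • ξ‖ ≤ 5 * √(ε + δ) := by
  classical
  have hκ1 : ‖κ‖ ≤ 1 := hκ.le
  set τ : ℝ := √ε / 2 with hτ
  have hτ0 : 0 < τ := by positivity
  have hτ2 : 4 * τ ^ 2 ≤ ε := by
    rw [hτ, div_pow, Real.sq_sqrt hε.le]
    linarith
  set P : K →L[ℂ] K := (ℂ ∙ κ).starProjection with hP
  have hPsa : IsSelfAdjoint P := isSelfAdjoint_starProjection _
  have hP1 : ‖P‖ ≤ 1 := Submodule.starProjection_norm_le _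
  have hPv : ∀ v : K, P v = ⟪κ, v⟫_ℂ • κ := fun v => Submodule.starProjection_unit_singleton ℂ hκ v
  obtain ⟨b, hb, hb1, hbF⟩ := hπ P hPsa hP1 (insert κ (F.image fun a => π (φ a) κ)) τ hτ0
  have hbκ : ‖π b κ - κ‖ ≤ τ := by
    have h1 := hbF κ (Finset.mem_insert_self _ _)
    rw [hPv, inner_self_eq_norm_sq_to_K, hκ] at h1
    simpa using h1
  have hba : ∀ a ∈ F, ‖π b (π (φ a) κ) - ⟪κ, π (φ a) κ⟫_ℂ • κ‖ ≤ τ := by
    intro a ha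
    have h1 := hbF (π (φ a) κ) (Finset.mem_insert_of_mem (Finset.mem_image_of_mem _ ha))
    rwa [hPv] at h1
  obtain ⟨y, hy1, hy⟩ := hφ.surj b hb1
  refine ⟨y, hy1, fun a haF ha => ?_⟩
  have hxy : ‖φ (star y * y) - b * b‖ ≤ 4 * ε := by
    have h1 := star_mul_near hφ hy1 hb1 (s := ε) (by rw [norm_sub_rev]; exact hy)
    rw [hb.star_eq] at h1
    linarith
  have hx1 : ‖star y * y‖ ≤ 1 := mul_le_one' (by rwa [norm_star]) hy1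
  set x := star y * y with hx
  have hu1 : ‖x * a‖ ≤ 1 := mul_le_one' hx1 ha
  have hp1 := hφ.norm a ha
  have hbb : ‖b * b‖ ≤ 1 := mul_le_one' hb1 hb1
  have hw1 : ‖b * b * φ a‖ ≤ 1 := mul_le_one' hbb hp1
  have huw : ‖φ (x * a) - b * b * φ a‖ ≤ 5 * ε := by
    have h1 := hφ.mul x a hx1 ha
    have h2 : ‖φ x * φ a - b * b * φ a‖ ≤ 4 * ε + 0 :=
      mul_sub (hφ.norm x hx1) hp1 hxy (by simp)
    have e : φ (x * a) - b * b * φ a = (φ (x * a) - φ x * φ a) + (φ x * φ a - b * b * φ a) := by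
      abel
    rw [e]
    refine (norm_add_le _ _).trans ?_
    linarith
  set u := x * a with hu
  set w := b * b * φ a with hw
  set p := φ a with hp
  -- the inequality in `K`
  have hK : ‖π w κ - ⟪κ, π p κ⟫_ℂ • κ‖ ≤ 2 * τ := by
    have e : π w κ - ⟪κ, π p κ⟫_ℂ • κ = π b (π b (π p κ) - ⟪κ, π p κ⟫_ℂ • κ) +
        ⟪κ, π p κ⟫_ℂ • (π b κ - κ) := by
      rw [hw, map_mul, map_mul, map_sub, map_smul, smul_sub]
      simp only [ContinuousLinearMap.mul_def, ContinuousLinearMap.comp_apply]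
      abel
    rw [e]
    refine (norm_add_le _ _).trans ?_
    rw [norm_smul]
    have a1 : ‖π b (π b (π p κ) - ⟪κ, π p κ⟫_ℂ • κ)‖ ≤ 1 * τ := by
      refine (rep_apply π b _).trans ?_
      exact mul_le_mul hb1 (hba a haF) (norm_nonneg _) zero_le_one
    have a2 : ‖⟪κ, π p κ⟫_ℂ‖ * ‖π b κ - κ‖ ≤ 1 * τ :=
      mul_le_mul ((fun_bound' π κ hκ1 p).trans hp1) hbκ (norm_nonneg _) zero_le_one
    linarith
  have hK2 : ‖π w κ - ⟪κ, π p κ⟫_ℂ • κ‖ ^ 2 ≤ 4 * τ ^ 2 := by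
    have := pow_le_pow_left₀ (norm_nonneg _) hK 2
    linarith
  rw [sq_expand, hκ, one_pow, mul_one] at hK2
  -- the inequality in `H`
  have e : ρ x (ρ a ξ) = ρ u ξ := by
    rw [hu, map_mul ρ x a]
    rfl
  rw [e]
  have hu' : ‖star u * u‖ ≤ 1 := mul_le_one' (by rwa [norm_star]) hu1
  have hH := sq_expand ρ ξ u ⟪ξ, ρ a ξ⟫_ℂ
  have hfin := compare ⟪ξ, ρ a ξ⟫_ℂ ⟪κ, π p κ⟫_ℂ ⟪ξ, ρ u ξ⟫_ℂ ⟪κ, π w κ⟫_ℂ
    (⟪ξ, ρ (star u * u) ξ⟫_ℂ).re (⟪κ, π (star w * w) κ⟫_ℂ).re (‖ξ‖ ^ 2) ε δ τ hε.le hδ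
    (pow_le_one₀ (norm_nonneg _) hξ)
    ((fun_bound' ρ ξ hξ u).trans hu1) ((fun_bound' π κ hκ1 p).trans hp1)
    ((fun_bound' ρ ξ hξ a).trans ha) (h a ha)
    (by
      have a1 := h u hu1
      have a2 := fun_sub π κ hκ1 (φ u) w
      have e : ⟪ξ, ρ u ξ⟫_ℂ - ⟪κ, π w κ⟫_ℂ = (⟪ξ, ρ u ξ⟫_ℂ - ⟪κ, π (φ u) κ⟫_ℂ) +
        (⟪κ, π (φ u) κ⟫_ℂ - ⟪κ, π w κ⟫_ℂ) := by ring
      rw [e]
      refine (norm_add_le _ _).trans ?_
      linarith)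
    (by
      rw [← Complex.sub_re]
      refine (Complex.abs_re_le_norm _).trans ?_
      have a1 := h (star u * u) hu'
      have a2 := fun_sub π κ hκ1 (φ (star u * u)) (star w * w)
      have a3 := star_mul_near hφ hu1 hw1 huw
      have e : ⟪ξ, ρ (star u * u) ξ⟫_ℂ - ⟪κ, π (star w * w) κ⟫_ℂ =
        (⟪ξ, ρ (star u * u) ξ⟫_ℂ - ⟪κ, π (φ (star u * u)) κ⟫_ℂ) +
        (⟪κ, π (φ (star u * u)) κ⟫_ℂ - ⟪κ, π (star w * w) κ⟫_ℂ) := by ring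
      rw [e]
      refine (norm_add_le _ _).trans ?_
      linarith)
    hK2 hτ2
  rw [← hH] at hfin
  have hs : (5 * √(ε + δ)) ^ 2 = 25 * (ε + δ) := by
    rw [mul_pow, Real.sq_sqrt (by linarith)]
    norm_num
  rw [← hs] at hfin
  exact (sq_le_sq₀ (norm_nonneg _) (by positivity)).mp hfin

end

end TH73.EI4a

namespace Pool.Agent.TH387.EI
universe u

variable {A B : Type u} [NonUnitalCStarAlgebra A] [NonUnitalCStarAlgebra B]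
  {H K : Type u} [NormedAddCommGroup H] [InnerProductSpace ℂ H] [CompleteSpace H]
  [NormedAddCommGroup K] [InnerProductSpace ℂ K] [CompleteSpace K]

theorem exists_x (φ : A → B) (ε δ : ℝ) (hε : 0 < ε) (hε1 : ε ≤ 1) (hδ : 0 ≤ δ) (hδ1 : δ ≤ 1)
    (hφ : AI φ ε)
    (ρ : A →⋆ₙₐ[ℂ] (H →L[ℂ] H)) (ξ : H) (hξ : ‖ξ‖ ≤ 1)
    (π : B →⋆ₙₐ[ℂ] (K →L[ℂ] K)) (hπ : Kap π) (κ : K) (hκ : ‖κ‖ = 1)
    (h : Near φ ρ π ξ κ δ) :
    1 - (ε + δ) ≤ ‖ξ‖ ^ 2 ∧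
    ∃ x : H →L[ℂ] H, x.IsPositive ∧ ‖x‖ ≤ 1 ∧ Bic ρ x ∧
      ∀ a : A, ‖a‖ ≤ 1 → ‖x (ρ a ξ) - ⟪ξ, ρ a ξ⟫_ℂ • ξ‖ ≤ 10 * √(ε + δ) := by
  classical
  refine ⟨?_, ?_⟩
  · refine le_of_forall_pos_le_add fun τ hτ => ?_
    obtain ⟨b, hb, hb1, hbF⟩ := hπ 1 (IsSelfAdjoint.one _) ContinuousLinearMap.norm_id_le
      {κ} τ hτ
    have h1 := hbF κ (Finset.mem_singleton_self _)
    rw [ContinuousLinearMap.one_apply] at h1
    obtain ⟨y, hy1, hy⟩ := hφ.surj b hb1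
    have a1 : ‖⟪κ, π b κ⟫_ℂ - 1‖ ≤ τ := by
      have e : ⟪κ, π b κ⟫_ℂ - 1 = ⟪κ, π b κ - κ⟫_ℂ := by
        rw [inner_sub_right, inner_self_eq_norm_sq_to_K, hκ]
        simp
      rw [e]
      refine (norm_inner_le_norm _ _).trans ?_
      rw [hκ, one_mul]
      exact h1
    have a2 := (TH73.EI4a.fun_sub π κ hκ.le b (φ y)).trans hy
    have a3 := h y hy1
    have a4 := TH73.EI4a.fun_bound ρ ξ y
    have a5 : ‖y‖ * ‖ξ‖ ^ 2 ≤ 1 * ‖ξ‖ ^ 2 := by gcongr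
    have e : (1 : ℂ) = -(⟪κ, π b κ⟫_ℂ - 1) + (⟪κ, π b κ⟫_ℂ - ⟪κ, π (φ y) κ⟫_ℂ) +
      (-(⟪ξ, ρ y ξ⟫_ℂ - ⟪κ, π (φ y) κ⟫_ℂ)) + ⟪ξ, ρ y ξ⟫_ℂ := by ring
    have e2 : (1 : ℝ) ≤ τ + ε + δ + ‖ξ‖ ^ 2 := by
      calc (1 : ℝ) = ‖(1 : ℂ)‖ := by simp
        _ ≤ ‖⟪κ, π b κ⟫_ℂ - 1‖ + ‖⟪κ, π b κ⟫_ℂ - ⟪κ, π (φ y) κ⟫_ℂ‖ +
            ‖⟪ξ, ρ y ξ⟫_ℂ - ⟪κ, π (φ y) κ⟫_ℂ‖ + ‖⟪ξ, ρ y ξ⟫_ℂ‖ := by
            conv_lhs => rw [e]
            refine (norm_add_le _ _).trans ?_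
            gcongr
            refine (norm_add_le _ _).trans ?_
            rw [norm_neg]
            gcongr
            refine (norm_add_le _ _).trans ?_
            rw [norm_neg]
        _ ≤ τ + ε + δ + ‖ξ‖ ^ 2 := by linarith
    linarith
  · choose y hy1 hy using fun F : Finset A =>
      TH73.EI4a.fin_stage φ ε δ hε hδ hφ ρ ξ hξ π hπ κ hκ h F
    have hyy : ∀ F, ‖star (y F) * y F‖ ≤ 1 := fun F =>
      TH73.EI4a.mul_le_one' (by rw [norm_star]; exact hy1 F) (hy1 F)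
    let U : Ultrafilter (Finset A) := Ultrafilter.of Filter.atTop
    have hU : (U : Filter (Finset A)) ≤ Filter.atTop := Ultrafilter.of_le _
    obtain ⟨x, hx1, hx⟩ := TH73.EI4a.wlim U (fun F => ρ (star (y F) * y F)) 1 zero_le_one
      (fun F => (TH73.EI4a.rep_norm ρ _).trans (hyy F))
    refine ⟨x, ?_, hx1, ?_, ?_⟩
    · have hT : ∀ F (v : H), ⟪v, ρ (star (y F) * y F) v⟫_ℂ = ((‖ρ (y F) v‖ ^ 2 : ℝ) : ℂ) := by
        intro F v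
        rw [map_mul, map_star]
        have e : (star (ρ (y F)) * ρ (y F)) v = ContinuousLinearMap.adjoint (ρ (y F))
          (ρ (y F) v) := rfl
        rw [e, ContinuousLinearMap.adjoint_inner_right, inner_self_eq_norm_sq_to_K]
        norm_cast
      have him : ∀ v : H, (⟪v, x v⟫_ℂ).im = 0 := by
        intro v
        have h1 := (Complex.continuous_im.tendsto _).comp (hx v v)
        have h2 : Filter.Tendsto (fun _ : Finset A => (0 : ℝ)) U (nhds (⟪v, x v⟫_ℂ).im) := by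
          refine h1.congr fun F => ?_
          simp only [Function.comp_apply, hT, Complex.ofReal_im]
        exact tendsto_nhds_unique h2 tendsto_const_nhds |>.symm ▸ rfl
      have hre : ∀ v : H, 0 ≤ (⟪v, x v⟫_ℂ).re := by
        intro v
        have h1 := (Complex.continuous_re.tendsto _).comp (hx v v)
        refine ge_of_tendsto' h1 fun F => ?_
        simp only [Function.comp_apply, hT, Complex.ofReal_re]
        positivity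
      rw [ContinuousLinearMap.isPositive_iff_complex]
      intro v
      have e : ⟪x v, v⟫_ℂ = ⟪v, x v⟫_ℂ := by
        rw [← inner_conj_symm, Complex.conj_eq_iff_im]
        exact him v
      rw [e]
      refine ⟨?_, hre v⟩
      apply Complex.ext
      · simp
      · simp [him v]
    · intro z hz
      have key : ∀ v w : H, ⟪w, z (x v)⟫_ℂ = ⟪w, x (z v)⟫_ℂ := by
        intro v w
        have h1 := hx (z v) w
        have h2 := hx v (ContinuousLinearMap.adjoint z w)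
        rw [ContinuousLinearMap.adjoint_inner_left] at h2
        refine tendsto_nhds_unique h2 (h1.congr fun F => ?_)
        rw [ContinuousLinearMap.adjoint_inner_left]
        have h3 := congrArg (fun T : H →L[ℂ] H => T v) (hz (star (y F) * y F))
        have h4 : z (ρ (star (y F) * y F) v) = ρ (star (y F) * y F) (z v) := h3
        rw [h4]
      ext v
      exact ext_inner_left ℂ fun w => key v w
    · intro a ha
      have hev : ∀ᶠ F in (U : Filter (Finset A)),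
          ‖ρ (star (y F) * y F) (ρ a ξ) - ⟪ξ, ρ a ξ⟫_ℂ • ξ‖ ≤ 5 * √(ε + δ) := by
        refine hU ?_
        filter_upwards [Filter.eventually_ge_atTop ({a} : Finset A)] with F hF
        exact hy F a (hF (Finset.mem_singleton_self _)) ha
      set r := 5 * √(ε + δ) with hr
      set v := x (ρ a ξ) - ⟪ξ, ρ a ξ⟫_ℂ • ξ with hv
      have hlim : Filter.Tendsto (fun F => ⟪v, ρ (star (y F) * y F) (ρ a ξ) -
          ⟪ξ, ρ a ξ⟫_ℂ • ξ⟫_ℂ) U (nhds ⟪v, v⟫_ℂ) := by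
        have h1 := (hx (ρ a ξ) v).sub_const ⟪v, ⟪ξ, ρ a ξ⟫_ℂ • ξ⟫_ℂ
        have e : ⟪v, v⟫_ℂ = ⟪v, x (ρ a ξ)⟫_ℂ - ⟪v, ⟪ξ, ρ a ξ⟫_ℂ • ξ⟫_ℂ := by
          rw [← inner_sub_right, ← hv]
        rw [e]
        refine h1.congr fun F => ?_
        rw [inner_sub_right]
      have hle : ‖⟪v, v⟫_ℂ‖ ≤ ‖v‖ * r := by
        refine le_of_tendsto hlim.norm ?_
        filter_upwards [hev] with F hF
        refine (norm_inner_le_norm _ _).trans ?_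
        gcongr
      have h2 : ‖⟪v, v⟫_ℂ‖ = ‖v‖ * ‖v‖ := by
        rw [inner_self_eq_norm_sq_to_K, ← sq]
        simp
      rw [h2] at hle
      have hr0 : 0 ≤ √(ε + δ) := Real.sqrt_nonneg _
      rcases eq_or_lt_of_le (norm_nonneg v) with h0 | h0
      · rw [← h0]
        positivity
      · have := le_of_mul_le_mul_left hle h0
        linarith

end Pool.Agent.TH387.EI
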