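import Pool.Agent.TH716.TW.Defs

set_option autoImplicit false

/-! TW3: rank of apparition and the law of repetition for `y² = x³ - 3x + 1`. -/

namespace Pool.Agent.TH73.J1407

open Pool.Agent.TH716.TW

noncomputable def tt (n : ℤ) : ℚ := -(zz n / yy n)
noncomputable def wf (n : ℤ) : ℚ := -(1 / yy n)

section norm
variable {s : ℕ} [hs : Fact s.Prime]

lemma N_add_le {x y D : ℚ} (hx : padicNorm s x ≤ D) (hy : padicNorm s y ≤ D) :
    padicNorm s (x + y) ≤ D :=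
  (padicNorm.nonarchimedean).trans (max_le hx hy)

lemma N_neg_le {x D : ℚ} (hx : padicNorm s x ≤ D) : padicNorm s (-x) ≤ D := by
  rwa [padicNorm.neg]

lemma N_sub_le {x y D : ℚ} (hx : padicNorm s x ≤ D) (hy : padicNorm s y ≤ D) :
    padicNorm s (x - y) ≤ D := by
  rw [sub_eq_add_neg]
  exact N_add_le hx (by rwa [padicNorm.neg])

lemma N_unit {x : ℚ} (hx : padicNorm s x < 1) : padicNorm s (1 + x) = 1 := by
  rw [padicNorm.add_eq_max_of_ne, padicNorm.one]
  · exact max_eq_left hx.le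
  · rw [padicNorm.one]; exact hx.ne'

lemma N_unit' {x : ℚ} (hx : padicNorm s x < 1) : 1 + x ≠ 0 := by
  intro h
  have := N_unit hx
  rw [h, padicNorm.zero] at this
  exact zero_ne_one this

lemma N_int_mul_le (n : ℤ) {x D : ℚ} (hx : padicNorm s x ≤ D) : padicNorm s ((n : ℚ) * x) ≤ D := by
  rw [padicNorm.mul]
  have h1 := padicNorm.of_int (p := s) n
  have h2 := padicNorm.nonneg (p := s) x
  nlinarith [padicNorm.nonneg (p := s) (n : ℚ)]

lemma N_mul_le {x y A B : ℚ} (hx : padicNorm s x ≤ A) (hy : padicNorm s y ≤ B) :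
    padicNorm s (x * y) ≤ A * B := by
  rw [padicNorm.mul]
  exact mul_le_mul hx hy (padicNorm.nonneg _) ((padicNorm.nonneg _).trans hx)

lemma N_pow_le {x A : ℚ} (hx : padicNorm s x ≤ A) (n : ℕ) :
    padicNorm s (x ^ n) ≤ A ^ n := by
  induction n with
  | zero => simp
  | succ n ih => rw [pow_succ, pow_succ]; exact N_mul_le ih hx

/-- `w = z³ - 3 z w² + w³`, with `|z| ≤ D`, `|w| ≤ D³` -/
structure ZW (s : ℕ) [Fact s.Prime] (D z w : ℚ) : Prop where
  hz : padicNorm s z ≤ D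
  hw : padicNorm s w ≤ D ^ 3
  eqn : w = z ^ 3 - 3 * z * w ^ 2 + w ^ 3

lemma D_pow_le {D : ℚ} (h0 : 0 ≤ D) (h1 : D ≤ 1) {a b : ℕ} (h : a ≤ b) : D ^ b ≤ D ^ a :=
  pow_le_pow_of_le_one h0 h1 h

/-- the chord in the `(z, w)` plane -/
lemma chord {D z1 w1 z2 w2 : ℚ} (hD0 : 0 ≤ D) (hD1 : D < 1) (h1 : ZW s D z1 w1)
    (h2 : ZW s D z2 w2) :
    ∃ lam : ℚ, padicNorm s lam ≤ D ^ 2 ∧ w2 - w1 = lam * (z2 - z1) := by
  have hD1' := hD1.le
  set U : ℚ := 3 * (z1 * (w1 + w2)) - (w1 ^ 2 + w1 * w2 + w2 ^ 2) with hU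
  set V : ℚ := z1 ^ 2 + z1 * z2 + z2 ^ 2 - 3 * w2 ^ 2 with hV
  have p4 : D * D ^ 3 ≤ D ^ 2 := by
    calc D * D ^ 3 = D ^ 4 := by ring
      _ ≤ _ := D_pow_le hD0 hD1' (by norm_num)
  have p6 : D ^ 3 * D ^ 3 ≤ D ^ 2 := by
    calc D ^ 3 * D ^ 3 = D ^ 6 := by ring
      _ ≤ _ := D_pow_le hD0 hD1' (by norm_num)
  have p21 : D ^ 2 ≤ D := by nlinarith
  have e3 : ∀ x : ℚ, padicNorm s x ≤ D ^ 2 → padicNorm s (3 * x) ≤ D ^ 2 := fun x hx => by
    exact_mod_cast N_int_mul_le (s := s) 3 hx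
  have hww : ∀ a b : ℚ, padicNorm s a ≤ D ^ 3 → padicNorm s b ≤ D ^ 3 → padicNorm s (a * b) ≤ D ^ 2 :=
    fun a b ha hb => (N_mul_le ha hb).trans p6
  have hzz : ∀ a b : ℚ, padicNorm s a ≤ D → padicNorm s b ≤ D → padicNorm s (a * b) ≤ D ^ 2 :=
    fun a b ha hb => (N_mul_le ha hb).trans (le_of_eq (by ring))
  have NU : padicNorm s U ≤ D ^ 2 := by
    rw [hU]
    refine N_sub_le (e3 _ ((N_mul_le h1.hz (N_add_le h1.hw h2.hw)).trans p4)) ?_
    rw [pow_two w1, pow_two w2]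
    exact N_add_le (N_add_le (hww _ _ h1.hw h1.hw) (hww _ _ h1.hw h2.hw)) (hww _ _ h2.hw h2.hw)
  have NV : padicNorm s V ≤ D ^ 2 := by
    rw [hV, pow_two z1, pow_two z2, pow_two w2]
    exact N_sub_le (N_add_le (N_add_le (hzz _ _ h1.hz h1.hz) (hzz _ _ h1.hz h2.hz))
      (hzz _ _ h2.hz h2.hz)) (e3 _ (hww _ _ h2.hw h2.hw))
  have hU1 : padicNorm s U < 1 := lt_of_le_of_lt (NU.trans p21) hD1
  have hne := N_unit' hU1
  refine ⟨V / (1 + U), ?_, ?_⟩
  · rw [padicNorm.div, N_unit hU1, div_one]; exact NV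
  · rw [div_mul_eq_mul_div, eq_div_iff hne, hU, hV]
    linear_combination h2.eqn - h1.eqn

/-- the tangent in the `(z, w)` plane -/
lemma tangent {D z w : ℚ} (hD0 : 0 ≤ D) (hD1 : D < 1) (h : ZW s D z w) :
    padicNorm s (6 * (z * w) - 3 * w ^ 2) < 1 ∧ padicNorm s (3 * z ^ 2 - 3 * w ^ 2) ≤ D ^ 2 := by
  have hD1' := hD1.le
  have p21 : D ^ 2 ≤ D := by nlinarith
  have hzw : padicNorm s (z * w) ≤ D ^ 2 := by
    refine (N_mul_le h.hz h.hw).trans ?_
    calc D * D ^ 3 = D ^ 4 := by ring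
      _ ≤ _ := D_pow_le hD0 hD1' (by norm_num)
  have hzz : padicNorm s (z ^ 2) ≤ D ^ 2 := N_pow_le h.hz 2
  have hww : padicNorm s (w ^ 2) ≤ D ^ 2 := by
    refine (N_pow_le h.hw 2).trans ?_
    calc (D ^ 3) ^ 2 = D ^ 6 := by ring
      _ ≤ _ := D_pow_le hD0 hD1' (by norm_num)
  have h3w : padicNorm s (3 * w ^ 2) ≤ D ^ 2 := by exact_mod_cast N_int_mul_le (s := s) 3 hww
  constructor
  · refine lt_of_le_of_lt (b := D ^ 2) ?_ (lt_of_le_of_lt p21 hD1)
    exact N_sub_le (by exact_mod_cast N_int_mul_le (s := s) 6 hzw) h3w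
  · exact N_sub_le (by exact_mod_cast N_int_mul_le (s := s) 3 hzz) h3w

/-- the third point on the line `Y = l X + m` -/
lemma third {D X1 X2 X3 l m : ℚ} (hD0 : 0 ≤ D) (hD1 : D < 1)
    (e1 : X1 + X2 + X3 = l ^ 2)
    (e2 : X1 * X2 + X1 * X3 + X2 * X3 = -3 - 2 * l * m) (e3 : X1 * X2 * X3 = m ^ 2 - 1)
    (hm : m ≠ 0) (hl : padicNorm s (l / m) ≤ D ^ 2) (hm1 : padicNorm s (1 / m) ≤ D ^ 3)
    (h1 : l * X1 + m ≠ 0) (h2 : l * X2 + m ≠ 0) (h3 : l * X3 + m ≠ 0) :
    padicNorm s (X3 / (l * X3 + m) + X1 / (l * X1 + m) + X2 / (l * X2 + m)) ≤ D ^ 3 := by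
  have hD1' := hD1.le
  have p21 : D ^ 2 ≤ D := by nlinarith
  set L : ℚ := l / m with hL
  have hLL : padicNorm s (L ^ 2) ≤ D ^ 2 := by
    refine (N_pow_le hl 2).trans ?_
    calc (D ^ 2) ^ 2 = D ^ 4 := by ring
      _ ≤ _ := D_pow_le hD0 hD1' (by norm_num)
  have hL3 : padicNorm s (L ^ 3) ≤ D ^ 2 := by
    refine (N_pow_le hl 3).trans ?_
    calc (D ^ 2) ^ 3 = D ^ 6 := by ring
      _ ≤ _ := D_pow_le hD0 hD1' (by norm_num)
  have h3L : padicNorm s (3 * L ^ 2) ≤ D ^ 2 := by exact_mod_cast N_int_mul_le (s := s) 3 hLL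
  have hL1 : padicNorm s (-(3 * L ^ 2) - L ^ 3) < 1 := by
    refine lt_of_le_of_lt (b := D ^ 2) ?_ (lt_of_le_of_lt p21 hD1)
    exact N_sub_le (N_neg_le h3L) hL3
  have hne := N_unit' hL1
  have key : X3 / (l * X3 + m) + X1 / (l * X1 + m) + X2 / (l * X2 + m)
      = (1 / m) * (-(6 * L + 3 * L ^ 2) / (1 + (-(3 * L ^ 2) - L ^ 3))) := by
    have hden : (l * X3 + m) * (l * X1 + m) * (l * X2 + m)
        = m ^ 3 * (1 + (-(3 * L ^ 2) - L ^ 3)) := by
      rw [hL]
      field_simp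
      linear_combination (l ^ 3) * e3 + (l ^ 2 * m) * e2 + (l * m ^ 2) * e1
    have hnum : X3 * (l * X1 + m) * (l * X2 + m) + X1 * (l * X3 + m) * (l * X2 + m)
        + X2 * (l * X3 + m) * (l * X1 + m) = m ^ 2 * (-(6 * L + 3 * L ^ 2)) := by
      rw [hL]
      field_simp
      linear_combination (3 * l ^ 2) * e3 + (2 * l * m) * e2 + (m ^ 2) * e1
    have hsum : X3 / (l * X3 + m) + X1 / (l * X1 + m) + X2 / (l * X2 + m)
        = (X3 * (l * X1 + m) * (l * X2 + m) + X1 * (l * X3 + m) * (l * X2 + m)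
        + X2 * (l * X3 + m) * (l * X1 + m)) / ((l * X3 + m) * (l * X1 + m) * (l * X2 + m)) := by
      rw [div_add_div _ _ h3 h1, div_add_div _ _ (mul_ne_zero h3 h1) h2]
      congr 1
      ring
    rw [hsum, hnum, hden]
    field_simp
  have h7 : padicNorm s (-(6 * L + 3 * L ^ 2) / (1 + (-(3 * L ^ 2) - L ^ 3))) =
      padicNorm s (-(6 * L + 3 * L ^ 2)) := by
    rw [padicNorm.div, N_unit hL1, div_one]
  rw [key, padicNorm.mul, h7]
  have h5 : padicNorm s (-(6 * L + 3 * L ^ 2)) ≤ 1 := by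
    refine N_neg_le (N_add_le ?_ (h3L.trans (p21.trans hD1')))
    exact_mod_cast N_int_mul_le (s := s) 6 (hl.trans (p21.trans hD1'))
  calc padicNorm s (1 / m) * padicNorm s (-(6 * L + 3 * L ^ 2)) ≤ D ^ 3 * 1 :=
        mul_le_mul hm1 h5 (padicNorm.nonneg _) (by positivity)
    _ = _ := mul_one _

/-! ### points -/

variable (G : GrpFacts) (hv : S_val)

include G hv

lemma pole_facts {n : ℤ} (hn : n ≠ 0) (h : 0 < dd s n) :
    zz n ≠ 0 ∧ yy n ≠ 0 ∧ tt n ≠ 0 ∧ padicValRat s (tt n) = dd s n ∧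
      padicNorm s (wf n) = padicNorm s (tt n) ^ 3 := by
  obtain ⟨hX, hY⟩ := (hv s hs.out n hn).2 h
  have hX0 : zz n ≠ 0 := by
    intro h; rw [h, padicValRat.zero] at hX; omega
  have hY0 : yy n ≠ 0 := G.y_ne n hn
  have hz0 : tt n ≠ 0 := by
    unfold tt; exact neg_ne_zero.mpr (div_ne_zero hX0 hY0)
  have hw0 : wf n ≠ 0 := by
    unfold wf; exact neg_ne_zero.mpr (one_div_ne_zero hY0)
  have hvz : padicValRat s (tt n) = dd s n := by
    unfold tt
    rw [padicValRat.neg, padicValRat.div hX0 hY0, hX, hY]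
    ring
  have hvw : padicValRat s (wf n) = 3 * dd s n := by
    unfold wf
    rw [padicValRat.neg, one_div, padicValRat.inv, hY]
    ring
  refine ⟨hX0, hY0, hz0, hvz, ?_⟩
  rw [padicNorm.eq_zpow_of_nonzero hz0, padicNorm.eq_zpow_of_nonzero hw0, hvz, hvw,
      ← zpow_natCast, ← zpow_mul]
  congr 1
  push_cast; ring

lemma tt_norm_le {n : ℤ} (hn : n ≠ 0) (h : 0 < dd s n) :
    padicNorm s (tt n) ≤ (s : ℚ)⁻¹ := by
  obtain ⟨_, _, hz0, hvz, _⟩ := pole_facts G hv hn h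
  rw [padicNorm.eq_zpow_of_nonzero hz0, ← zpow_neg_one]
  have h1 : (1 : ℚ) < s := by exact_mod_cast hs.out.one_lt
  exact zpow_le_zpow_right₀ h1.le (by omega)

lemma pole_zw {n : ℤ} (hn : n ≠ 0) (h : 0 < dd s n) {D : ℚ} (hD : padicNorm s (tt n) ≤ D) :
    ZW s D (tt n) (wf n) := by
  obtain ⟨_, hY0, hz0, _, hw⟩ := pole_facts G hv hn h
  refine ⟨hD, ?_, ?_⟩
  · rw [hw]
    exact pow_le_pow_left₀ (padicNorm.nonneg _) hD 3
  · have h := G.on n hn
    unfold tt wf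
    field_simp
    linear_combination -h

/-- a point with small parameters has a pole -/
lemma pole_of_small {n : ℤ} (hn : n ≠ 0) (h : padicNorm s (wf n) < 1) : 0 < dd s n := by
  by_contra hcon
  have h0 : dd s n = 0 := by omega
  obtain ⟨-, hy⟩ := (hv s hs.out n hn).1 h0
  have hY0 : yy n ≠ 0 := G.y_ne n hn
  have hw0 : wf n ≠ 0 := by
    unfold wf; exact neg_ne_zero.mpr (one_div_ne_zero hY0)
  have hvw : padicValRat s (wf n) = - padicValRat s (yy n) := by
    unfold wf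
    rw [padicValRat.neg, one_div, padicValRat.inv]
  rw [padicNorm.eq_zpow_of_nonzero hw0, hvw, neg_neg] at h
  have h1 : (1 : ℚ) ≤ s := by exact_mod_cast hs.out.one_lt.le
  exact absurd h (not_lt.2 (one_le_zpow₀ h1 hy))

/-- addition in the formal group, the generic step: a line `Y = l X + m` through the points -/
lemma z_add_of_line {a b : ℤ} {D l : ℚ} (hD0 : 0 ≤ D) (hD1 : D < 1)
    (ha : a ≠ 0) (hb : b ≠ 0) (hab : a + b ≠ 0) (hda : 0 < dd s a) (hdb : 0 < dd s b)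
    (hDa : padicNorm s (tt a) ≤ D) (hDb : padicNorm s (tt b) ≤ D)
    (hm : yy a - l * zz a ≠ 0)
    (hl : padicNorm s (l / (yy a - l * zz a)) ≤ D ^ 2)
    (hm1 : padicNorm s (1 / (yy a - l * zz a)) ≤ D ^ 3)
    (hQl : yy b = l * zz b + (yy a - l * zz a))
    (hx : zz (a + b) = l ^ 2 - zz a - zz b)
    (hy : yy (a + b) = - (l * (zz (a + b) - zz a) + yy a))
    (e2 : zz a * zz b + zz a * zz (a + b) + zz b * zz (a + b)
      = -3 - 2 * l * (yy a - l * zz a)) :
    0 < dd s (a + b) ∧ padicNorm s (tt (a + b) - tt a - tt b) ≤ D ^ 3 := by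
  obtain ⟨hX1, hY1, -⟩ := pole_facts G hv ha hda
  obtain ⟨hX2, hY2, -⟩ := pole_facts G hv hb hdb
  have hY3 := G.y_ne (a + b) hab
  have eqP := G.on a ha
  have htt : tt (a + b) = -(zz (a + b) / yy (a + b)) := rfl
  have hwf : wf (a + b) = -(1 / yy (a + b)) := rfl
  have htta : tt a = -(zz a / yy a) := rfl
  have httb : tt b = -(zz b / yy b) := rfl
  set X1 := zz a
  set X2 := zz b
  set X3 := zz (a + b)
  set Y1 := yy a
  set Y2 := yy b
  set Y3 := yy (a + b)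
  set m := Y1 - l * X1 with hmdef
  have hY1' : l * X1 + m = Y1 := by rw [hmdef]; ring
  have hY3' : l * X3 + m = -Y3 := by rw [hy, hmdef]; ring
  have e1 : X1 + X2 + X3 = l ^ 2 := by rw [hx]; ring
  have e3 : X1 * X2 * X3 = m ^ 2 - 1 := by
    have h1 : (l * X1 + m) ^ 2 = X1 ^ 3 - 3 * X1 + 1 := by rw [hY1']; exact eqP
    linear_combination (-1) * h1 + X1 ^ 2 * (-1) * e1 + X1 * e2
  have h := third (s := s) hD0 hD1 e1 e2 e3 hm hl hm1 (by rw [hY1']; exact hY1)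
    (by rw [← hQl]; exact hY2) (by rw [hY3']; exact neg_ne_zero.mpr hY3)
  rw [hY1', ← hQl, hY3'] at h
  have h2 : tt (a + b) - tt a - tt b = X3 / -Y3 + X1 / Y1 + X2 / Y2 := by
    rw [htt, htta, httb, div_neg]; ring
  rw [← h2] at h
  refine ⟨?_, h⟩
  have hD3 : D ^ 3 ≤ D := by
    calc D ^ 3 ≤ D ^ 1 := D_pow_le hD0 hD1.le (by norm_num)
      _ = D := pow_one D
  have h3 : padicNorm s (tt (a + b)) ≤ D := by
    have e : tt (a + b) = (tt (a + b) - tt a - tt b) + tt a + tt b := by ring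
    rw [e]
    exact N_add_le (N_add_le (h.trans hD3) hDa) hDb
  apply pole_of_small G hv hab
  have h4 : wf (a + b) = 1 / m - (l / m) * tt (a + b) := by
    have hY3'' : Y3 = -(l * X3 + m) := by rw [hY3']; ring
    rw [hwf, htt]
    have h5 : l * X3 + m ≠ 0 := by rw [hY3']; exact neg_ne_zero.mpr hY3
    rw [hY3'']
    field_simp
    ring
  rw [h4]
  refine lt_of_le_of_lt (N_sub_le (D := D ^ 3) hm1 ?_) (lt_of_le_of_lt hD3 hD1)
  refine (N_mul_le hl h3).trans (le_of_eq ?_)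
  ring

/-- addition of two distinct points -/
lemma z_add_ne {a b : ℤ} {D : ℚ} (hD0 : 0 ≤ D) (hD1 : D < 1)
    (ha : a ≠ 0) (hb : b ≠ 0) (hab : a + b ≠ 0) (hda : 0 < dd s a) (hdb : 0 < dd s b)
    (hDa : padicNorm s (tt a) ≤ D) (hDb : padicNorm s (tt b) ≤ D) (hne : zz a ≠ zz b) :
    0 < dd s (a + b) ∧ padicNorm s (tt (a + b) - tt a - tt b) ≤ D ^ 3 := by
  obtain ⟨hx, hy⟩ := G.add a b ha hb hne
  obtain ⟨hX1, hY1, hz1, -⟩ := pole_facts G hv ha hda
  obtain ⟨hX2, hY2, hz2, -⟩ := pole_facts G hv hb hdb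
  have eqP := G.on a ha
  have eqQ := G.on b hb
  have zwP := pole_zw G hv ha hda hDa
  have zwQ := pole_zw G hv hb hdb hDb
  obtain ⟨lam, hlam, hch⟩ := chord hD0 hD1 zwP zwQ
  set l := (yy a - yy b) / (zz a - zz b) with hl
  have hsub : zz a - zz b ≠ 0 := sub_ne_zero.mpr hne
  have hl' : l * (zz a - zz b) = yy a - yy b := by rw [hl]; field_simp
  set m := yy a - l * zz a with hm
  have hQl : yy b = l * zz b + m := by rw [hm]; linear_combination hl'
  have hPl : yy a = l * zz a + m := by rw [hm]; ring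
  -- z1 ≠ z2
  have hzz : tt b - tt a ≠ 0 := by
    intro h0
    rw [h0, mul_zero] at hch
    have hw : wf b = wf a := by linarith
    have hz : tt b = tt a := by linarith
    have hY : yy b = yy a := by
      unfold wf at hw
      field_simp at hw
      linarith
    apply hne
    unfold tt at hz
    rw [hY] at hz
    field_simp at hz
    linarith
  have hm0 : m ≠ 0 := by
    intro h0
    apply hzz
    rw [h0, add_zero] at hPl hQl
    have hl0 : l ≠ 0 := by
      intro h1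
      rw [h1, zero_mul] at hPl
      exact hY1 hPl
    unfold tt
    rw [hPl, hQl]
    field_simp
    ring
  have hlm : lam = -(l / m) := by
    have h1 : wf b - wf a = -(l / m) * (tt b - tt a) := by
      unfold wf tt
      rw [hPl] at hY1
      rw [hQl] at hY2
      rw [hPl, hQl]
      field_simp
      ring
    rw [hch] at h1
    exact mul_right_cancel₀ hzz h1
  have hN1 : padicNorm s (l / m) ≤ D ^ 2 := by
    rw [← padicNorm.neg, ← hlm]; exact hlam
  have hN2 : padicNorm s (1 / m) ≤ D ^ 3 := by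
    have h1 : 1 / m = -(wf a + (l / m) * tt a) := by
      unfold wf tt
      rw [hPl] at hY1
      rw [hPl]
      field_simp
      ring
    rw [h1, padicNorm.neg]
    refine N_add_le zwP.hw ?_
    refine (N_mul_le hN1 hDa).trans (le_of_eq ?_)
    ring
  have e1 : zz a + zz b + zz (a + b) = l ^ 2 := by rw [hx]; ring
  refine z_add_of_line G hv (l := l) hD0 hD1 ha hb hab hda hdb hDa hDb hm0 hN1 hN2 hQl hx hy ?_
  have h3 : (zz a - zz b) * (zz a * zz b + zz a * zz (a + b) + zz b * zz (a + b)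
      - (-3 - 2 * l * m)) = 0 := by
    rw [hPl] at eqP
    rw [hQl] at eqQ
    linear_combination (zz a - zz b) * (zz a + zz b) * e1 + eqP - eqQ
  have h4 := (mul_eq_zero.mp h3).resolve_left hsub
  linarith

/-- doubling -/
lemma z_add_self {a : ℤ} {D : ℚ} (hD0 : 0 ≤ D) (hD1 : D < 1)
    (ha : a ≠ 0) (hda : 0 < dd s a) (hDa : padicNorm s (tt a) ≤ D) :
    0 < dd s (a + a) ∧ padicNorm s (tt (a + a) - tt a - tt a) ≤ D ^ 3 := by
  obtain ⟨hX1, hY1, hz1, -⟩ := pole_facts G hv ha hda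
  obtain ⟨hx, hy⟩ := G.dbl a ha
  rw [two_mul a] at hx hy
  have eqP := G.on a ha
  have zwP := pole_zw G hv ha hda hDa
  obtain ⟨hu, hvv⟩ := tangent hD0 hD1 zwP
  have hne := N_unit' hu
  set l := (3 * zz a ^ 2 - 3) / (2 * yy a) with hl
  have hl' : 2 * yy a * l = 3 * zz a ^ 2 - 3 := by rw [hl]; field_simp
  set m := yy a - l * zz a with hm
  have hPl : yy a = l * zz a + m := by rw [hm]; ring
  have hX : zz a = tt a / wf a := by unfold tt wf; field_simp
  have hY : yy a = -(1 / wf a) := by unfold wf; field_simp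
  have hw0 : wf a ≠ 0 := by unfold wf; exact neg_ne_zero.mpr (one_div_ne_zero hY1)
  have h2 : l * (2 * wf a) = -(3 * tt a ^ 2 - 3 * wf a ^ 2) := by
    have h3 : 2 * -(1 / wf a) * l = 3 * (tt a / wf a) ^ 2 - 3 := by rw [← hX, ← hY]; exact hl'
    field_simp at h3
    linear_combination -h3
  have hmu : m * (2 * wf a) = 1 + (6 * (tt a * wf a) - 3 * wf a ^ 2) := by
    have h5 : m * (2 * wf a) * wf a = (1 + (6 * (tt a * wf a) - 3 * wf a ^ 2)) * wf a := by
      have h6 : m * (2 * wf a) * wf a = - 2 * wf a - (l * (2 * wf a)) * tt a := by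
        have hm' : m = -(1 / wf a) - l * (tt a / wf a) := by rw [← hX, ← hY]
        rw [hm']
        field_simp
      rw [h6, h2]
      linear_combination (-3) * zwP.eqn
    exact mul_right_cancel₀ hw0 h5
  have hm0 : m ≠ 0 := by
    intro h0
    rw [h0, zero_mul] at hmu
    exact hne hmu.symm
  have hN1 : padicNorm s (l / m) ≤ D ^ 2 := by
    have h1 : l / m = -(3 * tt a ^ 2 - 3 * wf a ^ 2)
        / (1 + (6 * (tt a * wf a) - 3 * wf a ^ 2)) := by
      rw [← hmu, ← h2]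
      field_simp
    rw [h1, padicNorm.div, N_unit hu, div_one, padicNorm.neg]
    exact hvv
  have hN2 : padicNorm s (1 / m) ≤ D ^ 3 := by
    have h1 : 1 / m = (2 : ℤ) * wf a / (1 + (6 * (tt a * wf a) - 3 * wf a ^ 2)) := by
      rw [← hmu]
      field_simp
      push_cast; ring
    rw [h1, padicNorm.div, N_unit hu, div_one]
    exact N_int_mul_le 2 zwP.hw
  have e1 : zz a + zz a + zz (a + a) = l ^ 2 := by rw [hx]; ring
  refine z_add_of_line G hv (l := l) hD0 hD1 ha ha (by omega) hda hda hDa hDa hm0 hN1 hN2 hPl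
    (by rw [hx]; ring) hy ?_
  linear_combination (2 * zz a) * e1 + hl' + 2 * l * hPl

lemma z_add {a b : ℤ} {D : ℚ} (hD0 : 0 ≤ D) (hD1 : D < 1)
    (ha : a ≠ 0) (hb : b ≠ 0) (hab : a + b ≠ 0) (hda : 0 < dd s a) (hdb : 0 < dd s b)
    (hDa : padicNorm s (tt a) ≤ D) (hDb : padicNorm s (tt b) ≤ D) :
    0 < dd s (a + b) ∧ padicNorm s (tt (a + b) - tt a - tt b) ≤ D ^ 3 := by
  by_cases hne : zz a = zz b
  · rcases (G.inj a b ha hb).1 hne with h | h
    · subst h
      exact z_add_self G hv hD0 hD1 ha hda hDa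
    · exfalso; omega
  · exact z_add_ne G hv hD0 hD1 ha hb hab hda hdb hDa hDb hne

lemma dd_neg (n : ℤ) : dd s (-n) = dd s n := by
  unfold dd; rw [(G.neg n).1]

/-- the subgroup property -/
lemma pole_add {a b : ℤ} (ha : a ≠ 0) (hb : b ≠ 0) (hab : a + b ≠ 0) (hda : 0 < dd s a)
    (hdb : 0 < dd s b) : 0 < dd s (a + b) := by
  have hs1 : (1 : ℚ) < s := by exact_mod_cast hs.out.one_lt
  have h1 := tt_norm_le G hv ha hda
  have h2 := tt_norm_le G hv hb hdb
  exact (z_add G hv (by positivity) (inv_lt_one_of_one_lt₀ hs1) ha hb hab hda hdb h1 h2).1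

lemma nsmul_aux {a : ℤ} (ha : a ≠ 0) (hda : 0 < dd s a) (n : ℕ) :
    0 < dd s ((n + 1 : ℕ) * a) ∧
      padicNorm s (tt ((n + 1 : ℕ) * a) - (n + 1 : ℕ) * tt a) ≤ padicNorm s (tt a) ^ 3 := by
  set D := padicNorm s (tt a) with hD
  have hD0 : 0 ≤ D := padicNorm.nonneg _
  have hs1 : (1 : ℚ) < s := by exact_mod_cast hs.out.one_lt
  have hD1 : D < 1 := (tt_norm_le G hv ha hda).trans_lt (inv_lt_one_of_one_lt₀ hs1)
  have hD3 : D ^ 3 ≤ D := by
    calc D ^ 3 ≤ D ^ 1 := D_pow_le hD0 hD1.le (by norm_num)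
      _ = D := pow_one D
  induction n with
  | zero =>
    refine ⟨by simpa using hda, ?_⟩
    simp; positivity
  | succ n ih =>
    obtain ⟨h1, h2⟩ := ih
    have hna : ((n + 1 : ℕ) : ℤ) * a ≠ 0 := mul_ne_zero (by positivity) ha
    have hn : padicNorm s (tt ((n + 1 : ℕ) * a)) ≤ D := by
      have h3 : tt ((n + 1 : ℕ) * a) = (tt ((n + 1 : ℕ) * a) - (n + 1 : ℕ) * tt a) +
        (((n + 1 : ℕ) : ℤ) : ℚ) * tt a := by push_cast; ring
      rw [h3]
      exact N_add_le (h2.trans hD3) (N_int_mul_le _ le_rfl)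
    have e : (((n + 1 + 1 : ℕ) : ℤ)) * a = ((n + 1 : ℕ) : ℤ) * a + a := by push_cast; ring
    rw [e]
    have hne : ((n + 1 : ℕ) : ℤ) * a + a ≠ 0 := by
      rw [← e]; exact mul_ne_zero (by positivity) ha
    obtain ⟨h4, h5⟩ := z_add G hv hD0 hD1 hna ha hne h1 hda hn le_rfl
    refine ⟨h4, ?_⟩
    have h6 : tt (((n + 1 : ℕ) : ℤ) * a + a) - ((n + 1 + 1 : ℕ) : ℚ) * tt a
        = (tt (((n + 1 : ℕ) : ℤ) * a + a) - tt (((n + 1 : ℕ) : ℤ) * a) - tt a) +
          (tt ((n + 1 : ℕ) * a) - (n + 1 : ℕ) * tt a) := by push_cast; ring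
    rw [h6]
    exact N_add_le h5 h2

lemma prime_smul {a : ℤ} (ha : a ≠ 0) (hda : 0 < dd s a) {p : ℕ} (hp : p.Prime) :
    0 < dd s (p * a) ∧ dd s (p * a) = dd s a + padicValNat s p := by
  obtain ⟨q, rfl⟩ : ∃ q, p = q + 1 := ⟨p - 1, by have := hp.pos; omega⟩
  obtain ⟨hK, hN⟩ := nsmul_aux G hv ha hda q
  obtain ⟨_, _, hz0, hvz, _⟩ := pole_facts G hv ha hda
  set D := padicNorm s (tt a) with hD
  have hs1 : (1 : ℚ) < s := by exact_mod_cast hs.out.one_lt
  have hD0 : 0 < D := lt_of_le_of_ne (padicNorm.nonneg _) (Ne.symm (padicNorm.nonzero hz0))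
  have hDs : D ≤ (s : ℚ)⁻¹ := tt_norm_le G hv ha hda
  have hD1 : D < 1 := hDs.trans_lt (inv_lt_one_of_one_lt₀ hs1)
  have hp0 : ((q + 1 : ℕ) : ℚ) ≠ 0 := by exact_mod_cast hp.ne_zero
  -- norm of p
  have hpn : (s : ℚ)⁻¹ ≤ padicNorm s ((q + 1 : ℕ) : ℚ) := by
    by_cases h : s = q + 1
    · rw [← h, padicNorm.padicNorm_p hs.out.one_lt]
    · haveI : Fact (q + 1).Prime := ⟨hp⟩
      rw [padicNorm.padicNorm_of_prime_of_ne h]
      exact (inv_lt_one_of_one_lt₀ hs1).le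
  have hlt : D ^ 3 < padicNorm s (((q + 1 : ℕ) : ℚ) * tt a) := by
    rw [padicNorm.mul, ← hD]
    have : D ^ 2 < (s : ℚ)⁻¹ := by nlinarith
    calc D ^ 3 = D ^ 2 * D := by ring
      _ < (s : ℚ)⁻¹ * D := by nlinarith
      _ ≤ padicNorm s ((q + 1 : ℕ) : ℚ) * D := by nlinarith
  have hEq : padicNorm s (tt ((q + 1 : ℕ) * a)) = padicNorm s (((q + 1 : ℕ) : ℚ) * tt a) := by
    have h1 : tt ((q + 1 : ℕ) * a) = (tt ((q + 1 : ℕ) * a) - (q + 1 : ℕ) * tt a) + (q + 1 : ℕ) * tt a := by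
      ring
    rw [h1, padicNorm.add_eq_max_of_ne (ne_of_lt (lt_of_le_of_lt hN hlt))]
    exact max_eq_right ((lt_of_le_of_lt hN hlt).le)
  have hna : ((q + 1 : ℕ) : ℤ) * a ≠ 0 := mul_ne_zero (by exact_mod_cast hp.ne_zero) ha
  obtain ⟨_, _, hz0', hvz', _⟩ := pole_facts G hv hna hK
  refine ⟨hK, ?_⟩
  have hval : padicValRat s (tt ((q + 1 : ℕ) * a)) = padicValRat s (((q + 1 : ℕ) : ℚ) * tt a) := by
    rw [padicNorm.eq_zpow_of_nonzero hz0', padicNorm.eq_zpow_of_nonzero (mul_ne_zero hp0 hz0)] at hEq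
    have := zpow_right_injective₀ (by positivity) hs1.ne' hEq
    linarith
  rw [hvz', padicValRat.mul hp0 hz0, padicValRat.of_nat, hvz] at hval
  omega

lemma nat_smul {a : ℤ} (ha : a ≠ 0) (hda : 0 < dd s a) {n : ℕ} (hn : n ≠ 0) :
    0 < dd s (n * a) ∧ dd s (n * a) = dd s a + padicValNat s n := by
  induction n using induction_on_primes generalizing a with
  | zero => exact absurd rfl hn
  | one => simp only [Nat.cast_one, one_mul]; exact ⟨hda, by simp⟩
  | prime_mul p k hp ih =>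
    have hk : k ≠ 0 := by rintro rfl; exact hn (mul_zero _)
    obtain ⟨h1, h2⟩ := prime_smul G hv ha hda hp
    have hpa : ((p : ℕ) : ℤ) * a ≠ 0 := mul_ne_zero (by exact_mod_cast hp.ne_zero) ha
    obtain ⟨h3, h4⟩ := ih hpa h1 hk
    have e : (((p * k : ℕ) : ℤ)) * a = (k : ℤ) * ((p : ℤ) * a) := by push_cast; ring
    rw [e]
    refine ⟨h3, ?_⟩
    rw [h4, h2, padicValNat.mul hp.ne_zero hk]
    ring

lemma int_smul {a : ℤ} (ha : a ≠ 0) (hda : 0 < dd s a) {k : ℤ} (hk : k ≠ 0) :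
    0 < dd s (k * a) ∧ dd s (k * a) = dd s a + padicValInt s k := by
  obtain ⟨n, rfl | rfl⟩ := k.eq_nat_or_neg
  · have hn : n ≠ 0 := by rintro rfl; exact hk rfl
    obtain ⟨h1, h2⟩ := nat_smul G hv ha hda hn
    exact ⟨h1, by rw [h2]; simp⟩
  · have hn : n ≠ 0 := by rintro rfl; exact hk rfl
    obtain ⟨h1, h2⟩ := nat_smul G hv ha hda hn
    rw [neg_mul, dd_neg G hv]
    exact ⟨h1, by rw [h2]; simp [padicValInt]⟩

/-- there is a pole -/
lemma exists_pole (hdiff : S_diff) : ∃ n : ℕ, 0 < n ∧ 0 < dd s n := by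
  by_contra hcon
  push Not at hcon
  have h0 : ∀ n : ℤ, n ≠ 0 → dd s n = 0 := by
    intro n hn
    obtain ⟨k, rfl | rfl⟩ := n.eq_nat_or_neg
    · have := hcon k (Nat.pos_of_ne_zero (by rintro rfl; exact hn rfl)); omega
    · have := hcon k (Nat.pos_of_ne_zero (by rintro rfl; exact hn rfl))
      rw [dd_neg G hv]; omega
  have hden : ∀ n : ℤ, n ≠ 0 → ¬ s ∣ (zz n).den := by
    intro n hn hdvd
    have h1 := ((hv s hs.out n hn).1 (h0 n hn)).1
    have hc : ¬ (s : ℤ) ∣ (zz n).num := by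
      intro h2
      have h4 : s ∣ (zz n).num.natAbs := Int.natCast_dvd.1 h2
      have h5 := Nat.dvd_gcd h4 hdvd
      have h6 : Nat.gcd (zz n).num.natAbs (zz n).den = 1 := (zz n).reduced
      rw [h6] at h5
      exact hs.out.one_lt.ne' (Nat.dvd_one.1 h5)
    rcases h1 with h1 | h1
    · rw [h1] at hdvd
      simp at hdvd
      exact hs.out.one_lt.ne' hdvd
    · rw [padicValRat_def, padicValInt.eq_zero_of_not_dvd hc] at h1
      have h7 : 0 < padicValNat s (zz n).den := by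
        rw [Nat.pos_iff_ne_zero]
        exact (dvd_iff_padicValNat_ne_zero (zz n).den_nz).1 hdvd
      omega
  -- pigeonhole
  let f : ℕ → ZMod s := fun n => ((zz ((n : ℤ) + 1)).num : ZMod s) * ((zz ((n : ℤ) + 1)).den : ZMod s)⁻¹
  have hfin : (Set.univ : Set (ZMod s)).Finite := Set.finite_univ
  obtain ⟨i, -, j, -, hij, hf⟩ : ∃ i ∈ (Set.univ : Set ℕ), ∃ j ∈ (Set.univ : Set ℕ), i ≠ j ∧ f i = f j :=
    Set.infinite_univ.exists_ne_map_eq_of_mapsTo (fun _ _ => Set.mem_univ _) hfin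
  set m : ℤ := (i : ℤ) + 1 with hm
  set n : ℤ := (j : ℤ) + 1 with hn
  have hm0 : m ≠ 0 := by omega
  have hn0 : n ≠ 0 := by omega
  have hmn : m + n ≠ 0 := by omega
  have hnm : n - m ≠ 0 := by omega
  have hd := hdiff s hs.out m n hm0 hn0 hmn hnm
  rw [h0 _ hmn, h0 _ hnm, h0 _ hn0, h0 _ hm0] at hd
  have hdm : ((zz m).den : ZMod s) ≠ 0 := by
    rw [Ne, ZMod.natCast_eq_zero_iff]; exact hden m hm0
  have hdn : ((zz n).den : ZMod s) ≠ 0 := by
    rw [Ne, ZMod.natCast_eq_zero_iff]; exact hden n hn0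
  have hf' : ((zz m).num : ZMod s) * ((zz n).den : ZMod s) = ((zz n).num : ZMod s) * ((zz m).den : ZMod s) := by
    have h1 : ((zz m).num : ZMod s) * ((zz m).den : ZMod s)⁻¹ =
      ((zz n).num : ZMod s) * ((zz n).den : ZMod s)⁻¹ := hf
    field_simp at h1
    linear_combination h1
  set A : ℤ := (zz n).num * (zz m).den - (zz m).num * (zz n).den with hA
  have hAd : (s : ℤ) ∣ A := by
    rw [← ZMod.intCast_zmod_eq_zero_iff_dvd, hA]
    push_cast
    rw [hf', sub_self]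
  have hzz : zz n - zz m = (A : ℚ) / (((zz m).den * (zz n).den : ℕ) : ℚ) := by
    have e1 := Rat.num_div_den (zz n)
    have e2 := Rat.num_div_den (zz m)
    have d1 : ((zz n).den : ℚ) ≠ 0 := by exact_mod_cast (zz n).den_nz
    have d2 : ((zz m).den : ℚ) ≠ 0 := by exact_mod_cast (zz m).den_nz
    rw [hA]
    conv_lhs => rw [← e1, ← e2]
    push_cast
    field_simp
  have hne : zz n - zz m ≠ 0 := by
    intro h
    rcases (G.inj n m hn0 hm0).1 (sub_eq_zero.1 h) with h | h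
    · exact hnm (by omega)
    · exact hmn (by omega)
  have hA0 : A ≠ 0 := by
    intro h
    rw [hzz, h] at hne
    simp at hne
  have hdd0 : (((zz m).den * (zz n).den : ℕ) : ℚ) ≠ 0 := by
    exact_mod_cast mul_ne_zero (zz m).den_nz (zz n).den_nz
  have hv0 : padicValNat s ((zz m).den * (zz n).den) = 0 := by
    apply padicValNat.eq_zero_of_not_dvd
    rw [hs.out.dvd_mul]
    exact not_or.2 ⟨hden m hm0, hden n hn0⟩
  rw [hzz, padicValRat.div (by exact_mod_cast hA0) hdd0, padicValRat.of_nat, hv0, padicValRat.of_int] at hd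
  have h8 : padicValInt s A ≠ 0 := by
    intro h9
    have : ¬ (s : ℤ) ∣ A := by
      rw [padicValInt.eq_zero_iff] at h9
      rcases h9 with h9 | h9 | h9
      · exact absurd h9 hs.out.one_lt.ne'
      · exact absurd h9 hA0
      · exact h9
    exact this hAd
  push_cast at hd
  omega

end norm

theorem result (G : GrpFacts) (hv : S_val) (hd : S_diff) : S_rk := by
  intro s hs
  have := Fact.mk hs
  have hex := exists_pole (s := s) G hv hd
  classical
  set r := Nat.find hex with hr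
  obtain ⟨hr0, hrd⟩ := Nat.find_spec hex
  rw [← hr] at hr0 hrd
  have hmin : ∀ k : ℕ, k < r → 0 < k → dd s k = 0 := by
    intro k hk hk0
    have := Nat.find_min hex hk
    by_contra h
    exact this ⟨hk0, Nat.pos_of_ne_zero h⟩
  have hrz : (r : ℤ) ≠ 0 := by exact_mod_cast hr0.ne'
  refine ⟨r, dd s r, hr0, hrd, fun n hn => ?_⟩
  split_ifs with hdvd
  · obtain ⟨k, rfl⟩ := hdvd
    have hk : k ≠ 0 := by rintro rfl; simp at hn
    have h1 := (int_smul G hv hrz hrd hk).2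
    rw [Int.mul_ediv_cancel_left k hrz, mul_comm (r : ℤ) k]
    exact h1
  · by_contra hcon
    have hpos : 0 < dd s n := Nat.pos_of_ne_zero hcon
    have hr' : (0 : ℤ) < r := by exact_mod_cast hr0
    have hmod0 : n % r ≠ 0 := fun h => hdvd (Int.dvd_of_emod_eq_zero h)
    have hmod1 := Int.emod_nonneg n hr'.ne'
    have hmod2 := Int.emod_lt_of_pos n hr'
    have hpole : 0 < dd s (n % r) := by
      by_cases hq : n / r = 0
      · have : n % r = n := by
          have := Int.emod_add_mul_ediv n r; rw [hq] at this; simpa using this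
        rw [this]; exact hpos
      · have h1 := (int_smul G hv hrz hrd (neg_ne_zero.2 hq)).1
        have h2 : n % r = n + -(n / r) * r := by
          rw [Int.emod_def]; ring
        rw [h2]
        refine pole_add G hv hn (mul_ne_zero (neg_ne_zero.2 hq) hrz) ?_ hpos h1
        rw [← h2]; exact hmod0
    have h3 : (((n % r).toNat : ℕ) : ℤ) = n % r := by omega
    rw [← h3] at hpole
    have := hmin (n % r).toNat (by omega) (by omega)
    omega

end Pool.Agent.TH73.J1407
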