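import Pool.Agent.TH981.SD.Stm

set_option autoImplicit false

open Pool.Agent.TH981.SD
open Finset Set Filter
open scoped BigOperators Topology Classical

namespace Pool.Agent.TH73.J2221

/-- comparison with `0` for right derivatives -/
lemma gron {a b P : ℝ} {g g' : ℝ → ℝ} (hc : ContinuousOn g (Set.Icc a b))
    (hd : ∀ x ∈ Set.Ico a b, HasDerivWithinAt g (g' x) (Set.Ici x) x) (ha : g a ≤ 0)
    (hb : ∀ x ∈ Set.Ico a b, 0 < g x → g' x ≤ P * g x) : ∀ x ∈ Set.Icc a b, g x ≤ 0 := by
  intro x hx
  have key : ∀ ε : ℝ, 0 < ε → g x ≤ ε * Real.exp ((P + 1) * (x - a)) := by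
    intro ε hε
    have hB : ∀ y : ℝ, HasDerivAt (fun y => ε * Real.exp ((P + 1) * (y - a)))
        (ε * (Real.exp ((P + 1) * (y - a)) * (P + 1))) y := by
      intro y
      have h1 : HasDerivAt (fun y : ℝ => (P + 1) * (y - a)) ((P + 1) * 1) y :=
        ((hasDerivAt_id y).sub_const a).const_mul (P + 1)
      rw [mul_one] at h1
      exact (h1.exp).const_mul ε
    refine image_le_of_deriv_right_lt_deriv_boundary hc hd ?_ hB ?_ hx
    · simp only [sub_self, mul_zero, Real.exp_zero, mul_one]
      linarith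
    · intro y hy he
      have hpos : 0 < ε * Real.exp ((P + 1) * (y - a)) := by positivity
      have h1 := hb y hy (by rw [he]; exact hpos)
      rw [he] at h1
      nlinarith [h1, hpos]
  have hE : 0 < Real.exp ((P + 1) * (x - a)) := Real.exp_pos _
  by_contra hcon
  push Not at hcon
  have h1 := key (g x / (2 * Real.exp ((P + 1) * (x - a)))) (by positivity)
  have h2 : g x / (2 * Real.exp ((P + 1) * (x - a))) * Real.exp ((P + 1) * (x - a)) = g x / 2 := by
    field_simp
  rw [h2] at h1
  linarith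

/-- the coefficients of the barrier -/
noncomputable def cf (α P B C : ℝ) (n d r : ℕ) : ℝ :=
  B * C ^ (d + r + 2 * n) * (2 * P) ^ n * (∏ i ∈ Finset.range n, lam α (d + 1 + i)) / (n.factorial : ℝ)

lemma lam_nonneg (α : ℝ) (d : ℕ) : 0 ≤ lam α d := by
  unfold lam; positivity

lemma cf_nonneg {α P B C : ℝ} (hP : 0 ≤ P) (hB : 0 ≤ B) (hC : 1 ≤ C) (n d r : ℕ) :
    0 ≤ cf α P B C n d r := by
  unfold cf
  have h1 : 0 ≤ ∏ i ∈ Finset.range n, lam α (d + 1 + i) :=
    Finset.prod_nonneg fun i _ => lam_nonneg _ _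
  have h2 : 0 ≤ C := by linarith
  positivity

/-- the barrier -/
noncomputable def bar (α P B C a : ℝ) (n d r : ℕ) (t : ℝ) : ℝ :=
  Real.exp (P * (t - a)) * (cf α P B C n d r * (t - a) ^ n)

lemma bar_nonneg {α P B C a : ℝ} (hP : 0 ≤ P) (hB : 0 ≤ B) (hC : 1 ≤ C) (n d r : ℕ) {t : ℝ}
    (ht : a ≤ t) : 0 ≤ bar α P B C a n d r t := by
  unfold bar
  have h1 := cf_nonneg (α := α) hP hB hC n d r
  have h2 : 0 ≤ t - a := by linarith
  positivity

lemma bar_deriv (α P B C a : ℝ) (n d r : ℕ) (t : ℝ) :
    HasDerivAt (bar α P B C a (n + 1) d r) (P * bar α P B C a (n + 1) d r t +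
      Real.exp (P * (t - a)) * (cf α P B C (n + 1) d r * ((n + 1 : ℝ) * (t - a) ^ n))) t := by
  have h1 : HasDerivAt (fun t : ℝ => Real.exp (P * (t - a))) (Real.exp (P * (t - a)) * (P * 1)) t :=
    (((hasDerivAt_id t).sub_const a).const_mul P).exp
  have h2 : HasDerivAt (fun t : ℝ => cf α P B C (n + 1) d r * (t - a) ^ (n + 1))
      (cf α P B C (n + 1) d r * (((n + 1 : ℕ) : ℝ) * (t - a) ^ n * 1)) t :=
    (((hasDerivAt_id t).sub_const a).pow (n + 1)).const_mul _
  have h3 := h1.mul h2
  refine h3.congr_deriv ?_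
  unfold bar
  push_cast
  ring

lemma cf_succ {α P B C : ℝ} (n d r : ℕ) :
    cf α P B C (n + 1) d r * (n + 1 : ℝ) =
      2 * P * lam α (d + 1) * (B * C ^ (d + r + 2 * (n + 1)) * (2 * P) ^ n *
        (∏ i ∈ Finset.range n, lam α (d + 2 + i)) / (n.factorial : ℝ)) := by
  unfold cf
  rw [Finset.prod_range_succ', Nat.factorial_succ]
  have e1 : ∀ i, d + 1 + (i + 1) = d + 2 + i := fun i => by ring
  simp only [e1, add_zero]
  have h1 : (n.factorial : ℝ) ≠ 0 := by positivity
  have h2 : ((n : ℝ) + 1) ≠ 0 := by positivity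
  push_cast
  field_simp
  ring

lemma cf_le1 {α P B C : ℝ} (hP : 0 ≤ P) (hB : 0 ≤ B) (hC : 1 ≤ C) (n d r : ℕ) :
    cf α P B C n (d + 1) r ≤ B * C ^ (d + r + 2 * (n + 1)) * (2 * P) ^ n *
        (∏ i ∈ Finset.range n, lam α (d + 2 + i)) / (n.factorial : ℝ) := by
  unfold cf
  have h1 : 0 ≤ ∏ i ∈ Finset.range n, lam α (d + 2 + i) :=
    Finset.prod_nonneg fun i _ => lam_nonneg _ _
  have h2 : C ^ (d + 1 + r + 2 * n) ≤ C ^ (d + r + 2 * (n + 1)) :=
    pow_le_pow_right₀ hC (by omega)
  have e1 : ∀ i, d + 1 + 1 + i = d + 2 + i := fun i => by ring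
  simp only [e1]
  gcongr

lemma cf_le2 {α P B C : ℝ} (n d r : ℕ) :
    cf α P B C n (d + 1) (r + 1) = B * C ^ (d + r + 2 * (n + 1)) * (2 * P) ^ n *
        (∏ i ∈ Finset.range n, lam α (d + 2 + i)) / (n.factorial : ℝ) := by
  unfold cf
  have e1 : ∀ i, d + 1 + 1 + i = d + 2 + i := fun i => by ring
  have e2 : d + 1 + (r + 1) + 2 * n = d + r + 2 * (n + 1) := by ring
  simp only [e1, e2]

/-- the barrier tends to zero -/
lemma bar_tendsto {α P B C a : ℝ} (h1 : α < 1) (h0 : 0 < α) (hP : 0 ≤ P) (hC : 1 ≤ C)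
    (d r : ℕ) {t : ℝ} (ht : a ≤ t) :
    Tendsto (fun n => bar α P B C a n d r t) atTop (𝓝 0) := by
  have hx : 0 ≤ t - a := by linarith
  have hC0 : 0 ≤ C := by linarith
  set x : ℝ := C ^ 2 * (2 * P) * (t - a) with hxdef
  have hx0 : 0 ≤ x := by positivity
  set f : ℕ → ℝ := fun n => x ^ n * (∏ i ∈ Finset.range n, lam α (d + 1 + i)) / (n.factorial : ℝ)
    with hf
  have hfn : ∀ n, 0 ≤ f n := fun n => by
    have : 0 ≤ ∏ i ∈ Finset.range n, lam α (d + 1 + i) :=
      Finset.prod_nonneg fun i _ => lam_nonneg _ _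
    simp only [hf]
    positivity
  have e1 : ∀ n, bar α P B C a n d r t = Real.exp (P * (t - a)) * (B * C ^ (d + r)) * f n := by
    intro n
    simp only [bar, cf, hf, hxdef, mul_pow, pow_add, pow_mul]
    ring
  have hfz : Tendsto f atTop (𝓝 0) := by
    have hsum : Summable f := by
      refine summable_of_ratio_norm_eventually_le (r := 1 / 2) (by norm_num) ?_
      have hlim : Tendsto (fun n : ℕ => x * ((d + 1 : ℝ) ^ α * ((n : ℝ) + 1) ^ (-(1 - α))))
          atTop (𝓝 (x * ((d + 1 : ℝ) ^ α * 0))) := by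
        have h3 : Tendsto (fun n : ℕ => ((n : ℝ) + 1)) atTop atTop :=
          tendsto_atTop_add_const_right _ _ tendsto_natCast_atTop_atTop
        have h4 := (tendsto_rpow_neg_atTop (show 0 < 1 - α by linarith)).comp h3
        exact (h4.const_mul _).const_mul _
      rw [mul_zero, mul_zero] at hlim
      have h5 := hlim.eventually (ge_mem_nhds (show (0 : ℝ) < 1 / 2 by norm_num))
      filter_upwards [h5] with n hn
      rw [Real.norm_of_nonneg (hfn _), Real.norm_of_nonneg (hfn _)]
      have hn1 : (0 : ℝ) < (n : ℝ) + 1 := by positivity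
      have e2 : f (n + 1) = (x * (lam α (d + 1 + n) / ((n : ℝ) + 1))) * f n := by
        simp only [hf]
        rw [Finset.prod_range_succ, Nat.factorial_succ, pow_succ]
        have h6 : (n.factorial : ℝ) ≠ 0 := by positivity
        push_cast
        field_simp
      rw [e2]
      refine mul_le_mul_of_nonneg_right ?_ (hfn n)
      refine le_trans ?_ hn
      refine mul_le_mul_of_nonneg_left ?_ hx0
      rw [div_le_iff₀ hn1]
      have e3 : ((n : ℝ) + 1) ^ (-(1 - α)) * ((n : ℝ) + 1) = ((n : ℝ) + 1) ^ α := by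
        nth_rewrite 2 [← Real.rpow_one ((n : ℝ) + 1)]
        rw [← Real.rpow_add hn1]
        congr 1
        ring
      rw [mul_assoc, e3, ← Real.mul_rpow (by positivity) (by positivity)]
      unfold lam
      refine Real.rpow_le_rpow (by positivity) ?_ h0.le
      push_cast
      nlinarith [mul_nonneg (Nat.cast_nonneg (α := ℝ) d) (Nat.cast_nonneg (α := ℝ) n)]
    exact hsum.tendsto_atTop_zero
  have e2 : (fun n => bar α P B C a n d r t) =
      fun n => Real.exp (P * (t - a)) * (B * C ^ (d + r)) * f n := funext e1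
  rw [e2]
  have := hfz.const_mul (Real.exp (P * (t - a)) * (B * C ^ (d + r)))
  rwa [mul_zero] at this

theorem pos : S_POS := by
  intro α a b P B C h0 h1 hab hP hB hC W W' p q s hc hd hineq hpq ha hbd
  have key : ∀ n d r, ∀ t ∈ Set.Icc a b, -(W d r t) ≤ bar α P B C a n d r t := by
    intro n
    induction n with
    | zero =>
      intro d r t ht
      have h2 := (neg_le_abs (W d r t)).trans (hbd d r t ht)
      have h3 : (1 : ℝ) ≤ Real.exp (P * (t - a)) := Real.one_le_exp (by
        have : 0 ≤ t - a := by linarith [ht.1]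
        positivity)
      have h4 : 0 ≤ B * C ^ (d + r) := by
        have : 0 ≤ C := by linarith
        positivity
      have e1 : bar α P B C a 0 d r t = Real.exp (P * (t - a)) * (B * C ^ (d + r)) := by
        simp [bar, cf]
      rw [e1]
      nlinarith
    | succ n ih =>
      intro d r
      have hg := gron (a := a) (b := b) (P := P)
        (g := fun t => -(W d r t) - bar α P B C a (n + 1) d r t)
        (g' := fun t => -(W' d r t) - (P * bar α P B C a (n + 1) d r t +
          Real.exp (P * (t - a)) * (cf α P B C (n + 1) d r * ((n + 1 : ℝ) * (t - a) ^ n))))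
        ?_ ?_ ?_ ?_
      · intro t ht
        have := hg t ht
        linarith
      · refine ContinuousOn.sub (hc d r).neg ?_
        have : Continuous (bar α P B C a (n + 1) d r) :=
          continuous_iff_continuousAt.2 fun t => (bar_deriv α P B C a n d r t).continuousAt
        exact this.continuousOn
      · intro t ht
        exact (hd d r t ht).neg.sub (bar_deriv α P B C a n d r t).hasDerivWithinAt
      · have h2 : bar α P B C a (n + 1) d r a = 0 := by simp [bar]
        simp only [h2]
        linarith [ha d r]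
      · intro t ht hpos
        have htI : t ∈ Set.Icc a b := ⟨ht.1, ht.2.le⟩
        have hta : 0 ≤ t - a := by linarith [ht.1]
        have hbn := bar_nonneg (α := α) hP hB hC (n + 1) d r ht.1
        have hWneg : W d r t < 0 := by
          linarith
        obtain ⟨hp0, hp1, hq0, hq1, hs⟩ := hpq d r t ht
        have hi := hineq d r t ht
        have i1 := ih (d + 1) r t htI
        have i2 := ih (d + 1) (r + 1) t htI
        have b1 := bar_nonneg (α := α) hP hB hC n (d + 1) r ht.1
        have b2 := bar_nonneg (α := α) hP hB hC n (d + 1) (r + 1) ht.1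
        have hE : 0 < Real.exp (P * (t - a)) := Real.exp_pos _
        have hpn : 0 ≤ (t - a) ^ n := by positivity
        set Q : ℝ := B * C ^ (d + r + 2 * (n + 1)) * (2 * P) ^ n *
          (∏ i ∈ Finset.range n, lam α (d + 2 + i)) / (n.factorial : ℝ) with hQ
        set Z : ℝ := Real.exp (P * (t - a)) * (Q * (t - a) ^ n) with hZ
        have c1 : bar α P B C a n (d + 1) r t ≤ Z := by
          unfold bar
          rw [hZ]
          have := cf_le1 (α := α) hP hB hC n d r
          gcongr
        have c2 : bar α P B C a n (d + 1) (r + 1) t = Z := by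
          unfold bar
          rw [hZ, cf_le2]
        have hZ0 : 0 ≤ Z := by rw [← c2]; exact b2
        have c3 : Real.exp (P * (t - a)) * (cf α P B C (n + 1) d r * ((n + 1 : ℝ) * (t - a) ^ n)) =
            2 * P * lam α (d + 1) * Z := by
          rw [hZ, ← mul_assoc (cf α P B C (n + 1) d r), cf_succ]
          ring
        have d1 : p d r t * -(W (d + 1) r t) ≤ P * lam α (d + 1) * Z :=
          (mul_le_mul_of_nonneg_left (i1.trans c1) hp0).trans
            (mul_le_mul_of_nonneg_right hp1 hZ0)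
        have d2 : q d r t * -(W (d + 1) (r + 1) t) ≤ P * lam α (d + 1) * Z :=
          (mul_le_mul_of_nonneg_left (i2.trans c2.le) hq0).trans
            (mul_le_mul_of_nonneg_right hq1 hZ0)
        have d3 : s d r t * W d r t ≤ P * -(W d r t) := by nlinarith
        rw [c3]
        nlinarith
  intro d r t ht
  have h2 := bar_tendsto (B := B) h1 h0 hP hC d r (a := a) ht.1
  have h3 : -(W d r t) ≤ 0 := ge_of_tendsto' h2 fun n => key n d r t ht
  linarith

theorem pos1 : S_POS1 := by
  intro α a b P B C h0 h1 hab hP hB hC W W' p s hc hd hineq hps ha hbd d t ht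
  refine pos α a b P B C h0 h1 hab hP hB hC (fun d _ => W d) (fun d _ => W' d) (fun d _ => p d)
    (fun _ _ _ => 0) (fun d _ => s d) (fun d _ => hc d) (fun d _ => hd d) ?_ ?_ (fun d _ => ha d)
    ?_ d 0 t ht
  · intro d r t ht
    have := hineq d t ht
    linarith
  · intro d r t ht
    obtain ⟨h2, h3, h4⟩ := hps d t ht
    exact ⟨h2, h3, le_rfl, mul_nonneg hP (lam_nonneg _ _), h4⟩
  · intro d r t ht
    refine (hbd d t ht).trans ?_
    exact mul_le_mul_of_nonneg_left (pow_le_pow_right₀ hC (by omega)) hB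

end Pool.Agent.TH73.J2221
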