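import Pool.Agent.TH981.SD.Stm

set_option autoImplicit false

/-!
# SD/HK: lower bounds for the ratios at small degrees
-/

open Pool.Agent.TH981.SD
open Finset Set Filter
open scoped BigOperators Topology Classical

namespace Pool.Agent.TH73.J2243

lemma lam_one (α : ℝ) : lam α 1 = 1 := by simp [lam]

lemma lam_nonneg (α : ℝ) (d : ℕ) : 0 ≤ lam α d := Real.rpow_nonneg (Nat.cast_nonneg d) α

lemma one_le_lam {α : ℝ} (h : 0 < α) {d : ℕ} (hd : 1 ≤ d) : 1 ≤ lam α d :=
  Real.one_le_rpow (by exact_mod_cast hd) h.le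

lemma lam_succ_le {α : ℝ} (h0 : 0 < α) (h1 : α < 1) (d : ℕ) : lam α (d + 1) ≤ lam α d + 1 := by
  unfold lam
  have h := Real.rpow_add_le_add_rpow (Nat.cast_nonneg d) zero_le_one h0.le h1.le
  rw [Real.one_rpow] at h
  push_cast
  exact h

/-- the gaps of `lam` tend to zero -/
lemma exists_gap {α e : ℝ} (h0 : 0 < α) (h1 : α < 1) (he : 0 < e) (N : ℕ) :
    ∃ m : ℕ, 1 ≤ m ∧ N ≤ m ∧ lam α (m + 1) - lam α m ≤ e := by
  have ht : Tendsto (fun d : ℕ => α * (d : ℝ) ^ (-(1 - α))) atTop (𝓝 (α * 0)) :=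
    ((tendsto_rpow_neg_atTop (by linarith : 0 < 1 - α)).comp
      tendsto_natCast_atTop_atTop).const_mul α
  rw [mul_zero] at ht
  obtain ⟨m, hm⟩ := ((ht.eventually_lt_const he).and (eventually_ge_atTop (max N 1))).exists
  refine ⟨m, le_of_max_le_right hm.2, le_of_max_le_left hm.2, ?_⟩
  have hm1 : 1 ≤ m := le_of_max_le_right hm.2
  have hmp : (0 : ℝ) < m := by exact_mod_cast hm1
  have hb : (1 + 1 / (m : ℝ)) ^ α ≤ 1 + α * (1 / (m : ℝ)) :=
    rpow_one_add_le_one_add_mul_self (by
      have : (0 : ℝ) ≤ 1 / m := by positivity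
      linarith) h0.le h1.le
  have e1 : lam α (m + 1) = (m : ℝ) ^ α * (1 + 1 / (m : ℝ)) ^ α := by
    unfold lam
    rw [← Real.mul_rpow hmp.le (by positivity)]
    congr 1
    push_cast
    field_simp
  have e2 : (m : ℝ) ^ (-(1 - α)) = (m : ℝ) ^ α * (1 / m) := by
    rw [show -(1 - α) = α - 1 by ring, Real.rpow_sub hmp, Real.rpow_one]
    ring
  have h3 := hm.1
  rw [e2] at h3
  rw [e1]
  have h4 : (m : ℝ) ^ α * (1 + 1 / (m : ℝ)) ^ α ≤ (m : ℝ) ^ α * (1 + α * (1 / (m : ℝ))) :=
    mul_le_mul_of_nonneg_left hb (Real.rpow_nonneg hmp.le _)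
  have h5 : lam α m = (m : ℝ) ^ α := rfl
  rw [h5]
  nlinarith

/-- the derivative of `cc` -/
noncomputable def cd (α : ℝ) (Y : ℕ → ℝ → ℝ) (K t : ℝ) : ℝ :=
  lam α 1 * (Y 1 t * Y 2 t - Y 1 t) + K * (lam α 1 * (Y 1 t * Y 2 t - Y 1 t) * (1 - Y 2 t) +
    Y 1 t * -(lam α 2 * (Y 1 t * Y 3 t - Y 2 t)))

lemma cd_deriv {α z K : ℝ} {Y : ℕ → ℝ → ℝ} (h : IsY α z Y) {t : ℝ} (ht : 0 ≤ t) :
    HasDerivWithinAt (cc Y K) (cd α Y K t) (Set.Ici 0) t := by
  have d1 := h.deriv 1 t ht
  have d2 := h.deriv 2 t ht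
  exact d1.add ((d1.mul (d2.const_sub 1)).const_mul K)

lemma cd_ge {α z K : ℝ} {Y : ℕ → ℝ → ℝ} (hYF : S_YF) (h0 : 0 < α) (h1 : α < 1) (hz : 0 < z)
    (hz1 : z < 1) (hK : 0 ≤ K) (h : IsY α z Y) {t : ℝ} (ht : 0 ≤ t) :
    -(cc Y K t) ≤ cd α Y K t := by
  obtain ⟨hm, -, -, -, -, -, -⟩ := hYF α z Y h0 h1 hz hz1 h
  have y1 := h.pos 1 t ht
  have y2 := h.pos 2 t ht
  have y3 := h.pos 3 t ht
  have l1 := (h.le 1 t ht).trans hz1.le
  have l2 := (h.le 2 t ht).trans hz1.le
  have l32 := hm 2 t ht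
  unfold cc cd m1
  rw [lam_one]
  have hl := lam_nonneg α 2
  have a1 : 0 ≤ K * (Y 1 t * (1 - Y 2 t) * Y 2 t) := by
    have : 0 ≤ 1 - Y 2 t := by linarith
    positivity
  have a2 : 0 ≤ K * (Y 1 t * (lam α 2 * (Y 2 t - Y 1 t * Y 3 t))) := by
    have : 0 ≤ Y 2 t - Y 1 t * Y 3 t := by nlinarith
    positivity
  have a3 : 0 ≤ Y 1 t * Y 2 t := by positivity
  nlinarith

lemma cc_pos {α z K : ℝ} {Y : ℕ → ℝ → ℝ} (hz1 : z < 1) (hK : 0 ≤ K) (h : IsY α z Y) {t : ℝ}
    (ht : 0 ≤ t) : 0 < cc Y K t := by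
  have y1 := h.pos 1 t ht
  have l2 := (h.le 2 t ht).trans hz1.le
  unfold cc m1
  have : 0 ≤ 1 - Y 2 t := by linarith
  positivity

/-- the comparison lemma -/
lemma barrier {α z K : ℝ} {Y V : ℕ → ℝ → ℝ} (hYF : S_YF) (h0 : 0 < α) (h1 : α < 1) (hz : 0 < z)
    (hz1 : z < 1) (hK : 0 ≤ K) (h : IsY α z Y) (hV : IsV α Y K V) {k : ℕ} (hk : 1 ≤ k)
    {a b β : ℝ} (ha : 0 ≤ a)
    (hβ : ∀ t ∈ Set.Ico a b, β * V (k + 1) t ≤ lam α (k + 1) * cc Y K t * V (k + 2) t)
    {p p' : ℝ → ℝ} (hp : ContinuousOn p (Set.Icc a b))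
    (hp' : ∀ t ∈ Set.Ico a b, HasDerivWithinAt p (p' t) (Set.Ici t) t)
    (p0 : ∀ t ∈ Set.Icc a b, 0 < p t)
    (hcond : ∀ t ∈ Set.Ico a b, 1 - p' t + (2 - β) * p t < 0)
    (hinit : V k a ≤ p a * (lam α k * cc Y K a * V (k + 1) a)) :
    ∀ t ∈ Set.Icc a b, V k t ≤ p t * (lam α k * cc Y K t * V (k + 1) t) := by
  have cV : ∀ d, ContinuousOn (V d) (Set.Icc a b) := fun d t ht =>
    ((hV.deriv d t (ha.trans ht.1)).continuousWithinAt).mono fun s hs => ha.trans hs.1
  have cC : ContinuousOn (cc Y K) (Set.Icc a b) := fun t ht =>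
    ((cd_deriv (K := K) h (ha.trans ht.1)).continuousWithinAt).mono fun s hs => ha.trans hs.1
  set f : ℝ → ℝ := fun t => V k t - p t * (lam α k * cc Y K t * V (k + 1) t) with hf
  set f' : ℝ → ℝ := fun t => lam α k * (cc Y K t * V (k + 1) t - V k t) -
    (p' t * (lam α k * cc Y K t * V (k + 1) t) + p t * (lam α k * cd α Y K t * V (k + 1) t +
      lam α k * cc Y K t * (lam α (k + 1) * (cc Y K t * V (k + 2) t - V (k + 1) t)))) with hf'
  have key := image_le_of_deriv_right_lt_deriv_boundary' (f := f) (f' := f') (a := a) (b := b)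
    (B := fun _ => 0) (B' := fun _ => 0) ?_ ?_ ?_ continuousOn_const
    (fun x _ => hasDerivWithinAt_const _ _ _) ?_
  · intro t ht
    have := key ht
    simp only [hf] at this
    linarith
  · exact (cV k).sub (hp.mul ((continuousOn_const.mul cC).mul (cV (k + 1))))
  · intro t ht
    have ht0 : 0 ≤ t := ha.trans ht.1
    have hsub : Set.Ici t ⊆ Set.Ici 0 := Set.Ici_subset_Ici.mpr ht0
    have dk := (hV.deriv k t ht0).mono hsub
    have dk1 := (hV.deriv (k + 1) t ht0).mono hsub
    have dc := (cd_deriv (K := K) h ht0).mono hsub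
    exact dk.sub ((hp' t ht).mul ((dc.const_mul (lam α k)).mul dk1))
  · simp only [hf]
    linarith
  · intro t ht hft
    have ht0 : 0 ≤ t := ha.trans ht.1
    have htc : t ∈ Set.Icc a b := ⟨ht.1, ht.2.le⟩
    simp only [hf, hf'] at hft ⊢
    have hc := cc_pos hz1 hK h ht0
    have hcd := cd_ge hYF h0 h1 hz hz1 hK h ht0
    have v0 := hV.pos k t ht0
    have v1 := hV.pos (k + 1) t ht0
    have v2 := hV.pos (k + 2) t ht0
    have hl := one_le_lam h0 hk
    have hl1 := lam_succ_le h0 h1 k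
    have hl1' := lam_nonneg α (k + 1)
    have hpt := p0 t htc
    have hcd' := hcond t ht
    have hb := hβ t ht
    set c := cc Y K t
    set C := cd α Y K t
    set l := lam α k
    set l1 := lam α (k + 1)
    set w0 := V k t
    set w1 := V (k + 1) t
    set w2 := V (k + 2) t
    set P := p t
    have lpos : 0 < l := by linarith
    have H : 0 < l * c * w1 := by positivity
    have hw0 : w0 = P * (l * c * w1) := by linarith
    have s1 : -(P * (l * C * w1)) ≤ P * (l * c * w1) := by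
      have : 0 ≤ P * l * w1 * (C + c) := by
        have : 0 ≤ C + c := by linarith
        positivity
      nlinarith
    have s2 : P * (l * c) * (β * w1) ≤ P * (l * c) * (l1 * c * w2) :=
      mul_le_mul_of_nonneg_left hb (by positivity)
    have s3 : P * (l * c * w1) * (l1 - l) ≤ P * (l * c * w1) * 1 :=
      mul_le_mul_of_nonneg_left (by linarith) (by positivity)
    have s4 : (l * c * w1) * (1 - p' t + (2 - β) * P) < 0 := mul_neg_of_pos_of_neg H hcd'
    calc l * (c * w1 - w0) - (p' t * (l * c * w1) + P * (l * C * w1 + l * c * (l1 * (c * w2 - w1))))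
        = l * c * w1 - l * w0 - p' t * (l * c * w1) + -(P * (l * C * w1)) -
            P * (l * c) * (l1 * c * w2) + P * (l * c * w1) * l1 := by ring
      _ ≤ l * c * w1 - l * w0 - p' t * (l * c * w1) + P * (l * c * w1) -
            P * (l * c) * (β * w1) + P * (l * c * w1) * l1 := by linarith
      _ = (l * c * w1) * (1 - p' t + (1 - β) * P) + P * (l * c * w1) * (l1 - l) := by
          rw [hw0]; ring
      _ ≤ (l * c * w1) * (1 - p' t + (1 - β) * P) + P * (l * c * w1) * 1 := by linarith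
      _ = (l * c * w1) * (1 - p' t + (2 - β) * P) := by ring
      _ < 0 := s4

set_option linter.unusedVariables false in
theorem hk (h1 : S_HM) (h2 : S_MONO) (h3 : S_YF) (h4 : S_TM) : S_HK := by
  intro α e N a0 a1 he0 he1
  obtain ⟨m, hm1, hNm, hgap⟩ := exists_gap (e := e / 6) a0 a1 (by linarith) N
  have ha : 0 < 1 - α := by linarith
  set e1 : ℝ := min (e / 6) (1 - α) / 2 with he1d
  have e1pos : 0 < e1 := by
    have : 0 < min (e / 6) (1 - α) := lt_min (by linarith) ha
    positivity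
  refine ⟨e1, e1pos, ?_⟩
  obtain ⟨K0, hK0, hHM⟩ := h1 α (e / 6) m a0 a1 (by linarith) (by linarith) hm1 hgap
  have htend : Tendsto (fun K : ℝ => K ^ (e1 / (1 - α))) atTop atTop :=
    tendsto_rpow_atTop (by positivity)
  obtain ⟨K1, hK1⟩ := eventually_atTop.mp (htend.eventually_ge_atTop (12 * (m : ℝ) + 8))
  refine ⟨max K0 K1, hK0.trans (le_max_left _ _), ?_⟩
  intro K hK
  have hKK0 : K0 ≤ K := (le_max_left _ _).trans hK
  have hKK1 : K1 ≤ K := (le_max_right _ _).trans hK
  have hK2 : 2 ≤ K := hK0.trans hKK0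
  have hKp : 0 < K := by linarith
  obtain ⟨z0, hz0, hz01, hz⟩ := hHM K hKK0
  refine ⟨z0, hz0, hz01, ?_⟩
  intro z Y V tM hzz hz1 hY hV htM hYM
  have hzp : 0 < z := by linarith
  -- `D` and `L`
  have hlogK : 0 < Real.log K := Real.log_pos (by linarith)
  have hL : 0 < LK α K := div_pos hlogK ha
  have hD : DK α K = Real.exp (LK α K) := by
    unfold DK LK
    rw [Real.rpow_def_of_pos hKp]
    congr 1
    ring
  have hDp : ∀ x : ℝ, DK α K ^ x = Real.exp (LK α K * x) := by
    intro x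
    rw [hD, ← Real.exp_mul]
  set x : ℝ := DK α K ^ e1 with hx
  have hxK : x = K ^ (e1 / (1 - α)) := by
    rw [hx, DK, ← Real.rpow_mul hKp.le]
    congr 1
    ring
  have hxbig : 12 * (m : ℝ) + 8 ≤ x := by
    rw [hxK]; exact hK1 K hKK1
  have hmp : (1 : ℝ) ≤ m := by exact_mod_cast hm1
  have hxx : x ^ 2 = Real.exp (LK α K * (2 * e1)) := by
    rw [hx, hDp, ← Real.exp_nat_mul]
    congr 1
    push_cast
    ring
  have hx2K : x ^ 2 ≤ K := by
    have : K = Real.exp (LK α K * (1 - α)) := by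
      unfold LK
      rw [div_mul_cancel₀ _ ha.ne', Real.exp_log hKp]
    rw [this, hxx]
    apply Real.exp_le_exp.mpr
    apply mul_le_mul_of_nonneg_left _ hL.le
    have : min (e / 6) (1 - α) ≤ 1 - α := min_le_right _ _
    rw [he1d]; linarith
  have hx2D : x ^ 2 ≤ Real.exp (LK α K * (e / 6)) := by
    rw [hxx]
    apply Real.exp_le_exp.mpr
    apply mul_le_mul_of_nonneg_left _ hL.le
    have : min (e / 6) (1 - α) ≤ e / 6 := min_le_left _ _
    rw [he1d]; linarith
  -- the ratios at the median time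
  have hcM : K / 4 ≤ cc Y K tM := by
    obtain ⟨-, -, -, hm1', -, -, -⟩ := h3 α z Y a0 a1 hzp hz1 hY
    have h5 := (hm1' tM htM).1
    rw [hYM] at h5
    unfold cc
    rw [hYM]
    nlinarith
  have hini : ∀ k, 1 ≤ k → x ^ 2 / 4 * V k tM ≤ lam α k * cc Y K tM * V (k + 1) tM := by
    intro k hk
    obtain ⟨-, hmono⟩ := h2 α z K Y V a0 a1 hzp hz1 (by linarith) hY hV tM htM
      (by rw [hYM]; linarith) tM htM le_rfl
    have hv := (hmono k hk).1
    have hvp := hV.pos k tM htM
    have hvp1 := hV.pos (k + 1) tM htM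
    have hl := one_le_lam a0 hk
    have hcp : 0 < cc Y K tM := by linarith
    calc x ^ 2 / 4 * V k tM ≤ cc Y K tM * V k tM :=
          mul_le_mul_of_nonneg_right (by linarith) hvp.le
      _ ≤ cc Y K tM * V (k + 1) tM := mul_le_mul_of_nonneg_left hv hcp.le
      _ ≤ lam α k * (cc Y K tM * V (k + 1) tM) := le_mul_of_one_le_left (by positivity) hl
      _ = lam α k * cc Y K tM * V (k + 1) tM := by ring
  set s : ℝ := tM + (1 - e) * LK α K with hs
  have hsM : tM ≤ s := by
    have : 0 ≤ (1 - e) * LK α K := by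
      have : 0 ≤ 1 - e := by linarith
      positivity
    linarith
  -- part 1, downward induction
  have part1 : ∀ j : ℕ, j + 1 ≤ m → ∀ t ∈ Set.Icc tM s, (x ^ 2 / 4 - 3 * j) * V (m - j) t ≤
      lam α (m - j) * cc Y K t * V (m - j + 1) t := by
    intro j
    induction j with
    | zero =>
      intro _ t ht
      have hb := hz z Y V tM hzz hz1 hY hV htM hYM t ht.1 (by
        have := ht.2
        have h6 : (1 - e) * LK α K ≤ 2 * LK α K := mul_le_mul_of_nonneg_right (by linarith) hL.le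
        linarith)
      have ht0 : 0 ≤ t := htM.trans ht.1
      have hvp := hV.pos m t ht0
      have hexp : x ^ 2 / 4 ≤ DK α K ^ (1 - 4 * (e / 6)) *
          Real.exp (-((1 + e / 6) * (t - tM))) := by
        rw [hDp, ← Real.exp_add]
        have h7 : Real.exp (LK α K * (e / 6)) ≤ Real.exp (LK α K * (1 - 4 * (e / 6)) +
            -((1 + e / 6) * (t - tM))) := by
          apply Real.exp_le_exp.mpr
          have h8 : t - tM ≤ (1 - e) * LK α K := by have := ht.2; linarith
          have h9 : (1 + e / 6) * (t - tM) ≤ (1 + e / 6) * ((1 - e) * LK α K) :=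
            mul_le_mul_of_nonneg_left h8 (by linarith)
          have h10 : 0 ≤ LK α K * (e * e) := by positivity
          nlinarith
        have h11 : 0 ≤ x ^ 2 := by positivity
        linarith
      simp only [Nat.cast_zero, mul_zero, sub_zero, Nat.sub_zero]
      exact (mul_le_mul_of_nonneg_right hexp hvp.le).trans hb
    | succ j ih =>
      intro hj t ht
      have ihj := ih (by omega)
      have hkk : m - (j + 1) + 1 = m - j := by omega
      have hk1 : 1 ≤ m - (j + 1) := by omega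
      set k := m - (j + 1) with hkd
      have hq : 0 < x ^ 2 / 4 - 3 * ((j + 1 : ℕ) : ℝ) := by
        have : ((j + 1 : ℕ) : ℝ) ≤ m := by exact_mod_cast (by omega : j + 1 ≤ m)
        nlinarith
      set q : ℝ := x ^ 2 / 4 - 3 * ((j + 1 : ℕ) : ℝ) with hqd
      have hqj : x ^ 2 / 4 - 3 * (j : ℝ) = q + 3 := by
        rw [hqd]; push_cast; ring
      have hbar := barrier h3 a0 a1 hzp hz1 hKp.le hY hV (k := k) hk1 (a := tM) (b := s)
        (β := q + 3) htM (by
          intro t ht
          have := ihj t ⟨ht.1, ht.2.le⟩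
          rw [hqj, ← hkk] at this
          exact this) (p := fun _ => q⁻¹) (p' := fun _ => 0) continuousOn_const
        (fun t _ => hasDerivWithinAt_const _ _ _) (fun t _ => inv_pos.mpr hq) (by
          intro t _
          have : (2 - (q + 3)) * q⁻¹ = -1 - q⁻¹ := by
            field_simp
            ring
          have hqi : 0 < q⁻¹ := inv_pos.mpr hq
          simp only [sub_zero]
          rw [this]
          linarith) (by
          have h12 := hini k hk1
          have hvp := hV.pos k tM htM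
          rw [inv_mul_eq_div, le_div_iff₀ hq]
          have : q ≤ x ^ 2 / 4 := by
            rw [hqd]
            have : (0 : ℝ) ≤ ((j + 1 : ℕ) : ℝ) := Nat.cast_nonneg _
            linarith
          nlinarith) t ht
      rw [inv_mul_eq_div, le_div_iff₀ hq] at hbar
      linarith
  have part1' : ∀ k, 1 ≤ k → k ≤ m → ∀ t ∈ Set.Icc tM s, x * V k t ≤
      lam α k * cc Y K t * V (k + 1) t := by
    intro k hk hkm t ht
    have := part1 (m - k) (by omega) t ht
    have hkk : m - (m - k) = k := by omega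
    rw [hkk] at this
    refine le_trans (mul_le_mul_of_nonneg_right ?_ (hV.pos k t (htM.trans ht.1)).le) this
    have : ((m - k : ℕ) : ℝ) ≤ m := by exact_mod_cast (by omega : m - k ≤ m)
    nlinarith
  intro k hk hkN
  have hkm : k ≤ m := hkN.trans hNm
  refine ⟨fun t ht ht' => part1' k hk hkm t ⟨ht, ht'⟩, ?_⟩
  intro t ht
  have hs0 : 0 ≤ s := htM.trans hsM
  have hbar := barrier h3 a0 a1 hzp hz1 hKp.le hY hV (k := k) hk (a := s) (b := t)
    (β := 0) hs0 (by
      intro r hr
      have hr0 : 0 ≤ r := hs0.trans hr.1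
      have hc := cc_pos hz1 hKp.le hY hr0
      have hv := hV.pos (k + 2) r hr0
      have hl := lam_nonneg α (k + 1)
      rw [zero_mul]
      positivity) (p := fun r => 3 / 2 * Real.exp (2 * (r - s)) - 1)
    (p' := fun r => 3 * Real.exp (2 * (r - s))) (by fun_prop)
    (fun r _ => by
      have hd : HasDerivAt (fun r : ℝ => 3 / 2 * Real.exp (2 * (r - s)) - 1)
          (3 / 2 * (Real.exp (2 * (r - s)) * (2 * 1))) r :=
        (((((hasDerivAt_id r).sub_const s).const_mul 2).exp).const_mul (3 / 2)).sub_const 1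
      have he : 3 / 2 * (Real.exp (2 * (r - s)) * (2 * 1)) = 3 * Real.exp (2 * (r - s)) := by
        ring
      rw [he] at hd
      exact hd.hasDerivWithinAt) (by
      intro r hr
      have : 1 ≤ Real.exp (2 * (r - s)) := Real.one_le_exp (by linarith [hr.1])
      linarith) (by
      intro r hr
      have := Real.exp_pos (2 * (r - s))
      linarith) (by
      have h13 := part1' k hk hkm s ⟨hsM, le_rfl⟩
      have hvp := hV.pos k s hs0
      simp only [sub_self, mul_zero, Real.exp_zero]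
      nlinarith) t ⟨ht, le_rfl⟩
  have ht0 : 0 ≤ t := hs0.trans ht
  have hc := cc_pos hz1 hKp.le hY ht0
  have hv1 := hV.pos (k + 1) t ht0
  have hl := one_le_lam a0 hk
  have hH : 0 < lam α k * cc Y K t * V (k + 1) t := by positivity
  have hE := Real.exp_pos (2 * (t - s))
  have hEi : Real.exp (-2 * (t - s)) * Real.exp (2 * (t - s)) = 1 := by
    rw [← Real.exp_add]
    have : -2 * (t - s) + 2 * (t - s) = 0 := by ring
    rw [this, Real.exp_zero]
  have hEp := Real.exp_pos (-2 * (t - s))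
  calc 2 / 3 * Real.exp (-2 * (t - s)) * V k t
      ≤ 2 / 3 * Real.exp (-2 * (t - s)) * (3 / 2 * Real.exp (2 * (t - s)) *
          (lam α k * cc Y K t * V (k + 1) t)) := by
        apply mul_le_mul_of_nonneg_left _ (by positivity)
        nlinarith
    _ = (Real.exp (-2 * (t - s)) * Real.exp (2 * (t - s))) *
          (lam α k * cc Y K t * V (k + 1) t) := by ring
    _ = lam α k * cc Y K t * V (k + 1) t := by rw [hEi, one_mul]

end Pool.Agent.TH73.J2243
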