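import Pool.Agent.TH896.RC.Stm

/-!
# `B` as an integral: the finite identity
-/

set_option autoImplicit false

namespace Pool.Agent.TH73.J311

open MeasureTheory Filter Topology Set
open Pool.Agent.TH896.RC

/-- `ψ(x)` as a sum from `2`. -/
theorem psi_eq_sum (x : ℝ) :
    Chebyshev.psi x = ∑ n ∈ Finset.Icc 2 ⌊x⌋₊, ArithmeticFunction.vonMangoldt n := by
  rw [Chebyshev.psi]
  symm
  refine Finset.sum_subset ?_ ?_
  · intro n hn
    rw [Finset.mem_Icc] at hn
    rw [Finset.mem_Ioc]
    omega
  · intro n hn hn2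
    rw [Finset.mem_Ioc] at hn
    rw [Finset.mem_Icc] at hn2
    have : n = 1 := by omega
    rw [this]
    simp

/-- The antiderivative. -/
noncomputable def HH (y : ℝ) : ℝ := -(Real.exp (-y) / y)

theorem HH_deriv {y : ℝ} (hy : 0 < y) : HasDerivAt HH (Real.exp (-y) * lam y) y := by
  have h1 : HasDerivAt (fun y : ℝ => Real.exp (-y)) (Real.exp (-y) * (-1)) y :=
    (Real.hasDerivAt_exp (-y)).comp y (hasDerivAt_neg y)
  have h2 := (h1.div (hasDerivAt_id y) hy.ne').neg
  refine h2.congr_deriv ?_
  unfold lam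
  simp only [id]
  field_simp
  ring

theorem cont_lam {a b : ℝ} (ha : 0 < a) : ContinuousOn (fun y => Real.exp (-y) * lam y) (Icc a b) := by
  unfold lam
  refine ContinuousOn.mul (by fun_prop) (ContinuousOn.add ?_ ?_)
  · exact continuousOn_const.div continuousOn_id fun x hx => (lt_of_lt_of_le ha hx.1).ne'
  · exact continuousOn_const.div (by fun_prop) fun x hx => by
      have := lt_of_lt_of_le ha hx.1
      positivity

theorem int_lam {a b : ℝ} (ha : 0 < a) (hab : a ≤ b) :
    ∫ y in Ioc a b, Real.exp (-y) * lam y = HH b - HH a := by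
  rw [← intervalIntegral.integral_of_le hab]
  refine intervalIntegral.integral_eq_sub_of_hasDerivAt (fun x hx => HH_deriv ?_) ?_
  · rw [uIcc_of_le hab] at hx; exact lt_of_lt_of_le ha hx.1
  · apply ContinuousOn.intervalIntegrable
    rw [uIcc_of_le hab]; exact cont_lam ha

theorem intOn {a b : ℝ} (ha : 0 < a) : IntegrableOn (fun y => Real.exp (-y) * lam y) (Ioc a b) :=
  ((cont_lam ha).integrableOn_compact isCompact_Icc).mono_set Ioc_subset_Icc_self

theorem int_ind {a b c : ℝ} (ha : 0 < a) (hab : a ≤ b) (hc : c ≤ b) :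
    ∫ y in Ioc a b, (Ici c).indicator (fun y => Real.exp (-y) * lam y) y = HH b - HH (max a c) := by
  rw [setIntegral_indicator measurableSet_Ici]
  rcases le_or_gt c a with h | h
  · rw [max_eq_left h]
    have : Ioc a b ∩ Ici c = Ioc a b := by
      ext x
      simp only [mem_inter_iff, mem_Ioc, mem_Ici]
      constructor
      · exact fun hx => hx.1
      · intro hx; exact ⟨hx, by linarith [hx.1]⟩
    rw [this, int_lam ha hab]
  · rw [max_eq_right h.le]
    have : Ioc a b ∩ Ici c = Icc c b := by
      ext x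
      simp only [mem_inter_iff, mem_Ioc, mem_Ici, mem_Icc]
      constructor
      · exact fun hx => ⟨hx.2, hx.1.2⟩
      · intro hx; exact ⟨⟨by linarith [hx.1], hx.2⟩, hx.1⟩
    rw [this, integral_Icc_eq_integral_Ioc, int_lam (lt_trans ha h) hc]

/-- The integral of `ψ(e^y) e^{-y} lam y`. -/
theorem int_psi {a b : ℝ} (ha : 0 < a) (hab : a ≤ b) :
    IntegrableOn (fun y => Chebyshev.psi (Real.exp y) * (Real.exp (-y) * lam y)) (Ioc a b) ∧
    ∫ y in Ioc a b, Chebyshev.psi (Real.exp y) * (Real.exp (-y) * lam y) =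
      (∑ n ∈ Finset.Icc 2 ⌊Real.exp b⌋₊, ArithmeticFunction.vonMangoldt n / (n * Real.log n) -
        Chebyshev.psi (Real.exp b) / (Real.exp b * b)) -
      (∑ n ∈ Finset.Icc 2 ⌊Real.exp a⌋₊, ArithmeticFunction.vonMangoldt n / (n * Real.log n) -
        Chebyshev.psi (Real.exp a) / (Real.exp a * a)) := by
  set M := ⌊Real.exp b⌋₊ with hM
  have hb : 0 < b := lt_of_lt_of_le ha hab
  have hpt : ∀ y ∈ Ioc a b, Chebyshev.psi (Real.exp y) * (Real.exp (-y) * lam y) =
      ∑ n ∈ Finset.Icc 2 M, ArithmeticFunction.vonMangoldt n *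
        (Ici (Real.log n)).indicator (fun y => Real.exp (-y) * lam y) y := by
    intro y hy
    rw [psi_eq_sum, Finset.sum_mul]
    have hsub : Finset.Icc 2 ⌊Real.exp y⌋₊ ⊆ Finset.Icc 2 M :=
      Finset.Icc_subset_Icc le_rfl (Nat.floor_mono (Real.exp_le_exp.mpr hy.2))
    rw [← Finset.sum_subset hsub]
    · refine Finset.sum_congr rfl fun n hn => ?_
      rw [Finset.mem_Icc] at hn
      have hn0 : (0 : ℝ) < n := by
        have : 0 < n := by omega
        exact_mod_cast this
      have : Real.log n ≤ y := by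
        rw [Real.log_le_iff_le_exp hn0]
        exact (Nat.le_floor_iff (Real.exp_pos y).le).mp hn.2
      rw [indicator_of_mem (mem_Ici.mpr this)]
    · intro n hn hn2
      rw [Finset.mem_Icc] at hn hn2
      have hn0 : (0 : ℝ) < n := by
        have : 0 < n := by omega
        exact_mod_cast this
      have : ¬ Real.log n ≤ y := by
        rw [Real.log_le_iff_le_exp hn0]
        intro h
        exact hn2 ⟨hn.1, Nat.le_floor h⟩
      rw [indicator_of_notMem (fun h => this (mem_Ici.mp h)), mul_zero]
  have hint : ∀ n : ℕ, IntegrableOn (fun y => ArithmeticFunction.vonMangoldt n *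
      (Ici (Real.log n)).indicator (fun y => Real.exp (-y) * lam y) y) (Ioc a b) := fun n =>
    ((intOn ha).indicator measurableSet_Ici).const_mul _
  constructor
  · refine (integrableOn_congr_fun hpt measurableSet_Ioc).mpr ?_
    exact integrable_finsetSum _ fun n _ => hint n
  rw [setIntegral_congr_fun measurableSet_Ioc hpt, integral_finsetSum _ fun n _ => hint n]
  have h1 : ∀ n ∈ Finset.Icc 2 M, ∫ y in Ioc a b, ArithmeticFunction.vonMangoldt n *
      (Ici (Real.log n)).indicator (fun y => Real.exp (-y) * lam y) y =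
      ArithmeticFunction.vonMangoldt n * HH b - ArithmeticFunction.vonMangoldt n *
        HH (max a (Real.log n)) := by
    intro n hn
    rw [Finset.mem_Icc] at hn
    have hn0 : (0 : ℝ) < n := by
      have : 0 < n := by omega
      exact_mod_cast this
    have hlog : Real.log n ≤ b := by
      rw [Real.log_le_iff_le_exp hn0]
      exact (Nat.le_floor_iff (Real.exp_pos b).le).mp hn.2
    rw [integral_const_mul, int_ind ha hab hlog]
    ring
  rw [Finset.sum_congr rfl h1, Finset.sum_sub_distrib, ← Finset.sum_mul, ← psi_eq_sum]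
  -- the second sum
  have hsub : Finset.Icc 2 ⌊Real.exp a⌋₊ ⊆ Finset.Icc 2 M :=
    Finset.Icc_subset_Icc le_rfl (Nat.floor_mono (Real.exp_le_exp.mpr hab))
  have h2 : ∑ n ∈ Finset.Icc 2 M, ArithmeticFunction.vonMangoldt n * HH (max a (Real.log n)) =
      -(∑ n ∈ Finset.Icc 2 M, ArithmeticFunction.vonMangoldt n / (n * Real.log n)) +
      ∑ n ∈ Finset.Icc 2 ⌊Real.exp a⌋₊, ArithmeticFunction.vonMangoldt n / (n * Real.log n) +
      Chebyshev.psi (Real.exp a) * HH a := by
    rw [psi_eq_sum (Real.exp a), Finset.sum_mul, add_assoc, ← Finset.sum_add_distrib,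
      ← Finset.sum_sdiff hsub, ← Finset.sum_sdiff hsub (f := fun n : ℕ =>
        ArithmeticFunction.vonMangoldt n / ((n : ℝ) * Real.log n))]
    have h3 : ∑ n ∈ Finset.Icc 2 M \ Finset.Icc 2 ⌊Real.exp a⌋₊,
        ArithmeticFunction.vonMangoldt n * HH (max a (Real.log n)) =
        -∑ n ∈ Finset.Icc 2 M \ Finset.Icc 2 ⌊Real.exp a⌋₊,
          ArithmeticFunction.vonMangoldt n / ((n : ℝ) * Real.log n) := by
      rw [← Finset.sum_neg_distrib]
      refine Finset.sum_congr rfl fun n hn => ?_
      rw [Finset.mem_sdiff, Finset.mem_Icc, Finset.mem_Icc] at hn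
      have hn0 : (0 : ℝ) < n := by
        have : 0 < n := by omega
        exact_mod_cast this
      have : a < Real.log n := by
        rw [Real.lt_log_iff_exp_lt hn0]
        by_contra h
        push Not at h
        exact hn.2 ⟨hn.1.1, Nat.le_floor h⟩
      rw [max_eq_right this.le, HH, Real.exp_neg, Real.exp_log hn0]
      field_simp
    have h4 : ∑ n ∈ Finset.Icc 2 ⌊Real.exp a⌋₊,
        ArithmeticFunction.vonMangoldt n * HH (max a (Real.log n)) =
        ∑ n ∈ Finset.Icc 2 ⌊Real.exp a⌋₊, ArithmeticFunction.vonMangoldt n * HH a := by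
      refine Finset.sum_congr rfl fun n hn => ?_
      rw [Finset.mem_Icc] at hn
      have hn0 : (0 : ℝ) < n := by
        have : 0 < n := by omega
        exact_mod_cast this
      have : Real.log n ≤ a := by
        rw [Real.log_le_iff_le_exp hn0]
        exact (Nat.le_floor_iff (Real.exp_pos a).le).mp hn.2
      rw [max_eq_left this]
    rw [h3, h4, Finset.sum_add_distrib]
    ring
  rw [h2]
  unfold HH
  rw [Real.exp_neg, Real.exp_neg]
  have ea := (Real.exp_pos a).ne'
  have eb := (Real.exp_pos b).ne'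
  field_simp
  ring

/-- Integral of `lam`. -/
theorem int_lam0 {a b : ℝ} (ha : 0 < a) (hab : a ≤ b) :
    IntegrableOn lam (Ioc a b) ∧
    ∫ y in Ioc a b, lam y = (Real.log b - 1 / b) - (Real.log a - 1 / a) := by
  have hc : ContinuousOn lam (Icc a b) := by
    unfold lam
    refine ContinuousOn.add ?_ ?_
    · exact continuousOn_const.div continuousOn_id fun x hx => (lt_of_lt_of_le ha hx.1).ne'
    · exact continuousOn_const.div (by fun_prop) fun x hx => by
        have := lt_of_lt_of_le ha hx.1
        positivity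
  refine ⟨(hc.integrableOn_compact isCompact_Icc).mono_set Ioc_subset_Icc_self, ?_⟩
  rw [← intervalIntegral.integral_of_le hab]
  refine intervalIntegral.integral_eq_sub_of_hasDerivAt (f := fun y => Real.log y - 1 / y)
    (fun x hx => ?_) ?_
  · rw [uIcc_of_le hab] at hx
    have hx0 : 0 < x := lt_of_lt_of_le ha hx.1
    have h2 : HasDerivAt (fun y : ℝ => 1 / y) (-1 / x ^ 2) x := by
      have := (hasDerivAt_const x (1 : ℝ)).div (hasDerivAt_id x) hx0.ne'
      refine this.congr_deriv ?_
      simp
    refine ((Real.hasDerivAt_log hx0.ne').sub h2).congr_deriv ?_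
    unfold lam
    field_simp
    ring
  · apply ContinuousOn.intervalIntegrable
    rw [uIcc_of_le hab]; exact hc

/-- The finite identity. -/
theorem B_sub {a b : ℝ} (ha : 0 < a) (hab : a ≤ b) :
    IntegrableOn (fun y => E y * Real.exp (-y) * lam y) (Ioc a b) ∧
    ∫ y in Ioc a b, E y * Real.exp (-y) * lam y = B b - B a := by
  have hb : 0 < b := lt_of_lt_of_le ha hab
  obtain ⟨h1, h2⟩ := int_psi ha hab
  obtain ⟨h3, h4⟩ := int_lam0 ha hab
  have he : (fun y => E y * Real.exp (-y) * lam y) =
      fun y => Chebyshev.psi (Real.exp y) * (Real.exp (-y) * lam y) - lam y := by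
    funext y
    unfold E
    have : Real.exp y * Real.exp (-y) = 1 := by rw [← Real.exp_add]; simp
    linear_combination (-lam y) * this
  rw [he]
  refine ⟨h1.sub h3, ?_⟩
  rw [integral_sub h1 h3, h2, h4]
  unfold B E
  have ea := (Real.exp_pos a).ne'
  have eb := (Real.exp_pos b).ne'
  field_simp
  ring

end Pool.Agent.TH73.J311
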