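import Pool.Agent.TH896.RC.Stm
import Pool.Agent.H305R2.MertensE

/-!
# `B v → 0` from the third theorem of Mertens
-/

set_option autoImplicit false

namespace Pool.Agent.TH73.J311

open MeasureTheory Filter Topology Set
open Pool.Agent.TH896.RC

/-- the term at a prime power which is not a prime -/
noncomputable def F2 (n : ℕ) : ℝ :=
  if n.Prime then 0 else ArithmeticFunction.vonMangoldt n / (n * Real.log n)

/-- the correction at a prime -/
noncomputable def cN (n : ℕ) : ℝ :=
  if n.Prime then -Real.log (1 - (n : ℝ)⁻¹) - 1 / (n : ℝ) else 0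

theorem cN_eq (n : ℕ) : cN n = Pool.Agent.H305R2.kk 0 n := by
  unfold cN Pool.Agent.H305R2.kk
  split_ifs with h
  · have : (n : ℝ) ^ (-(1 + 0) : ℝ) = (n : ℝ)⁻¹ := by
      rw [add_zero, Real.rpow_neg_one]
    rw [this, one_div]
  · rfl

theorem F2_nonneg (n : ℕ) : 0 ≤ F2 n := by
  unfold F2
  split_ifs
  · exact le_rfl
  · have := ArithmeticFunction.vonMangoldt_nonneg (n := n)
    have h2 : 0 ≤ Real.log n := Real.log_natCast_nonneg n
    positivity

theorem summable_cN : Summable cN := by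
  have h : cN = Pool.Agent.H305R2.kk 0 := funext cN_eq
  rw [h]; exact Pool.Agent.H305R2.summable_kk le_rfl

theorem inner_sum (p : ℕ) (hp : p.Prime) :
    HasSum (fun k : ℕ => F2 (p ^ (k + 1))) (cN p) := by
  have hp1 : (1 : ℝ) < p := by exact_mod_cast hp.one_lt
  have hp0 : (0 : ℝ) < p := by linarith
  have hl : 0 < Real.log p := Real.log_pos hp1
  have hx : |(p : ℝ)⁻¹| < 1 := by
    rw [abs_of_pos (by positivity)]
    exact inv_lt_one_of_one_lt₀ hp1
  have h1 := Real.hasSum_pow_div_log_of_abs_lt_one hx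
  have h2 : HasSum (fun k : ℕ => if k = 0 then (p : ℝ)⁻¹ else 0) (p : ℝ)⁻¹ := hasSum_ite_eq 0 _
  have h3 := h1.sub h2
  rw [cN, if_pos hp, one_div]
  have h4 : (fun k : ℕ => F2 (p ^ (k + 1))) =
      fun k : ℕ => (p : ℝ)⁻¹ ^ (k + 1) / ((k : ℝ) + 1) - if k = 0 then (p : ℝ)⁻¹ else 0 := by
    funext k
    by_cases hk : k = 0
    · subst hk
      simp [F2, hp]
    · have hnp : ¬ (p ^ (k + 1)).Prime := Nat.Prime.not_prime_pow (by omega)
      rw [F2, if_neg hnp, if_neg hk, sub_zero, ArithmeticFunction.vonMangoldt_apply_pow (by omega),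
        ArithmeticFunction.vonMangoldt_apply_prime hp]
      push_cast
      rw [Real.log_pow]
      push_cast
      rw [inv_pow]
      field_simp
  rw [h4]
  exact h3

theorem hasSum_F2 : HasSum F2 (∑' n, cN n) := by
  -- over the primes
  have hsupp : Function.support cN ⊆ {p : ℕ | p.Prime} := by
    intro n hn
    by_contra h
    apply hn
    simp only [mem_setOf_eq] at h
    simp [cN, h]
  have hP : HasSum (fun p : Nat.Primes => cN p) (∑' n, cN n) :=
    (hasSum_subtype_iff_of_support_subset hsupp).mpr summable_cN.hasSum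
  have hnn : (0 : Nat.Primes × ℕ → ℝ) ≤ fun x => F2 ((x.1 : ℕ) ^ (x.2 + 1)) :=
    fun x => F2_nonneg _
  have hin : ∀ p : Nat.Primes, HasSum (fun k : ℕ => F2 ((p : ℕ) ^ (k + 1))) (cN p) :=
    fun p => inner_sum p p.2
  have hS : Summable (fun x : Nat.Primes × ℕ => F2 ((x.1 : ℕ) ^ (x.2 + 1))) := by
    rw [summable_prod_of_nonneg hnn]
    refine ⟨fun p => (hin p).summable, ?_⟩
    have : (fun p : Nat.Primes => ∑' k : ℕ, F2 ((p : ℕ) ^ (k + 1))) = fun p : Nat.Primes => cN p :=
      funext fun p => (hin p).tsum_eq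
    simp only
    rw [this]
    exact hP.summable
  have hG : HasSum (fun x : Nat.Primes × ℕ => F2 ((x.1 : ℕ) ^ (x.2 + 1))) (∑' n, cN n) := by
    have h1 := hS.hasSum
    have h2 := h1.prod_fiberwise hin
    rwa [h2.unique hP] at h1
  have h3 : HasSum (F2 ∘ ((↑) : {n : ℕ // IsPrimePow n} → ℕ)) (∑' n, cN n) := by
    rw [← Nat.Primes.prodNatEquiv.hasSum_iff]
    exact hG
  have hs2 : Function.support F2 ⊆ {n : ℕ | IsPrimePow n} := by
    intro n hn
    by_contra h
    apply hn
    have h4 : ArithmeticFunction.vonMangoldt n = 0 :=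
      ArithmeticFunction.vonMangoldt_eq_zero_iff.mpr h
    simp [F2, h4]
  exact (hasSum_subtype_iff_of_support_subset hs2).mp h3

/-- the sum in the definition of `B` -/
noncomputable def SS (N : ℕ) : ℝ :=
  ∑ n ∈ Finset.Icc 2 N, ArithmeticFunction.vonMangoldt n / (n * Real.log n)

theorem SS_eq (N : ℕ) : SS N =
    (∑ n ∈ Finset.range (N + 1), F2 n) - (∑ n ∈ Finset.range (N + 1), cN n) +
      Real.log (∏ p ∈ (Finset.Icc 1 N).filter Nat.Prime, (1 - (p : ℝ)⁻¹)⁻¹) := by
  have h1 : ∑ n ∈ Finset.range (N + 1), ArithmeticFunction.vonMangoldt n / (n * Real.log n) =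
      SS N := by
    unfold SS
    symm
    refine Finset.sum_subset ?_ ?_
    · intro n hn
      rw [Finset.mem_Icc] at hn
      rw [Finset.mem_range]
      omega
    · intro n hn hn2
      rw [Finset.mem_range] at hn
      rw [Finset.mem_Icc] at hn2
      have : n = 0 ∨ n = 1 := by omega
      rcases this with rfl | rfl <;> simp
  have h2 : Real.log (∏ p ∈ (Finset.Icc 1 N).filter Nat.Prime, (1 - (p : ℝ)⁻¹)⁻¹) =
      ∑ n ∈ Finset.range (N + 1), if n.Prime then -Real.log (1 - (n : ℝ)⁻¹) else 0 := by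
    rw [Real.log_prod]
    · rw [← Finset.sum_filter]
      have h3 : (Finset.Icc 1 N).filter Nat.Prime = (Finset.range (N + 1)).filter Nat.Prime := by
        ext n
        simp only [Finset.mem_filter, Finset.mem_Icc, Finset.mem_range]
        constructor
        · rintro ⟨⟨_, h⟩, hp⟩; exact ⟨by omega, hp⟩
        · rintro ⟨h, hp⟩; exact ⟨⟨hp.one_lt.le, by omega⟩, hp⟩
      rw [h3]
      exact Finset.sum_congr rfl fun p _ => by rw [Real.log_inv]
    · intro p hp
      have hp2 : (1 : ℝ) < p := by exact_mod_cast (Finset.mem_filter.mp hp).2.one_lt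
      have : (p : ℝ)⁻¹ < 1 := inv_lt_one_of_one_lt₀ hp2
      have h4 : 0 < 1 - (p : ℝ)⁻¹ := by linarith
      positivity
  rw [← h1, h2, ← Finset.sum_sub_distrib, ← Finset.sum_add_distrib]
  refine Finset.sum_congr rfl fun n _ => ?_
  unfold F2 cN
  by_cases hn : n.Prime
  · simp only [hn, if_true]
    have hn1 : (1 : ℝ) < n := by exact_mod_cast hn.one_lt
    have hl : 0 < Real.log n := Real.log_pos hn1
    rw [ArithmeticFunction.vonMangoldt_apply_prime hn]
    field_simp
    ring
  · simp only [hn, if_false]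
    ring

theorem SS_tendsto : Tendsto (fun N : ℕ => SS N - Real.log (Real.log N)) atTop
    (𝓝 Real.eulerMascheroniConstant) := by
  have h1 := hasSum_F2.tendsto_sum_nat.comp (tendsto_add_atTop_nat 1)
  have h2 := summable_cN.hasSum.tendsto_sum_nat.comp (tendsto_add_atTop_nat 1)
  have h3 := (Real.continuousAt_log (Real.exp_pos Real.eulerMascheroniConstant).ne').tendsto.comp
    Pool.Agent.H305R2.mertens_three
  rw [Real.log_exp] at h3
  have h4 := (h1.sub h2).add h3
  rw [sub_self, zero_add] at h4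
  refine h4.congr' ?_
  filter_upwards [eventually_ge_atTop 2] with N hN
  have hN1 : (1 : ℝ) < N := by exact_mod_cast hN
  have hl : 0 < Real.log N := Real.log_pos hN1
  simp only [Function.comp]
  have hprod : (0 : ℝ) < ∏ p ∈ (Finset.Icc 1 N).filter Nat.Prime, (1 - (p : ℝ)⁻¹)⁻¹ := by
    refine Finset.prod_pos fun p hp => ?_
    have hp2 : (1 : ℝ) < p := by exact_mod_cast (Finset.mem_filter.mp hp).2.one_lt
    have : (p : ℝ)⁻¹ < 1 := inv_lt_one_of_one_lt₀ hp2
    have h4 : 0 < 1 - (p : ℝ)⁻¹ := by linarith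
    positivity
  rw [Real.log_div hprod.ne' hl.ne', SS_eq]
  ring

/-- `log ⌊e^v⌋ - v → 0` and `loglog ⌊e^v⌋ - log v → 0`. -/
theorem loglog_floor : Tendsto (fun v : ℝ => Real.log (Real.log (⌊Real.exp v⌋₊ : ℝ)) - Real.log v)
    atTop (𝓝 0) := by
  have h1 : Tendsto (fun v : ℝ => (⌊Real.exp v⌋₊ : ℝ) / Real.exp v) atTop (𝓝 1) :=
    (tendsto_nat_floor_div_atTop (R := ℝ)).comp Real.tendsto_exp_atTop
  have h2 : Tendsto (fun v : ℝ => Real.log ((⌊Real.exp v⌋₊ : ℝ) / Real.exp v)) atTop (𝓝 0) := by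
    have := (Real.continuousAt_log one_ne_zero).tendsto.comp h1
    rwa [Real.log_one] at this
  have h3 : Tendsto (fun v : ℝ => 1 + Real.log ((⌊Real.exp v⌋₊ : ℝ) / Real.exp v) / v) atTop
      (𝓝 1) := by
    have := (h2.div_atTop tendsto_id).const_add 1
    simpa using this
  have h4 : Tendsto (fun v : ℝ => Real.log (1 + Real.log ((⌊Real.exp v⌋₊ : ℝ) / Real.exp v) / v))
      atTop (𝓝 0) := by
    have := (Real.continuousAt_log one_ne_zero).tendsto.comp h3
    rwa [Real.log_one] at this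
  refine h4.congr' ?_
  filter_upwards [eventually_ge_atTop 1] with v hv
  have hv0 : 0 < v := by linarith
  have he : (2 : ℝ) ≤ Real.exp v := by
    have := Real.add_one_le_exp v; linarith
  have hfl : 2 ≤ ⌊Real.exp v⌋₊ := Nat.le_floor (by exact_mod_cast he)
  have hfl' : (2 : ℝ) ≤ (⌊Real.exp v⌋₊ : ℝ) := by exact_mod_cast hfl
  have hlf : 0 < Real.log (⌊Real.exp v⌋₊ : ℝ) := Real.log_pos (by linarith)
  rw [Real.log_div (by linarith) (Real.exp_pos v).ne', Real.log_exp,
    show 1 + (Real.log (⌊Real.exp v⌋₊ : ℝ) - v) / v = Real.log (⌊Real.exp v⌋₊ : ℝ) / v by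
      field_simp; ring, Real.log_div hlf.ne' hv0.ne']

theorem SS_floor : Tendsto (fun v : ℝ => SS ⌊Real.exp v⌋₊ - Real.log v) atTop
    (𝓝 Real.eulerMascheroniConstant) := by
  have h1 := SS_tendsto.comp (tendsto_nat_floor_atTop.comp Real.tendsto_exp_atTop)
  have h2 := h1.add loglog_floor
  rw [add_zero] at h2
  refine h2.congr fun v => ?_
  simp only [Function.comp]
  ring

end Pool.Agent.TH73.J311
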