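import Pool.Agent.TH73.J311a
import Pool.Agent.TH73.J311b
import Pool.Agent.H381R2.HR.A1

/-!
# `B` as an integral; the power saving bound
-/

set_option autoImplicit false

namespace Pool.Agent.TH73.J311

open MeasureTheory Filter Topology Set
open Pool.Agent.TH896.RC

theorem psi_floor (x : ℝ) : Chebyshev.psi x = Chebyshev.psi ((⌊x⌋₊ : ℕ) : ℝ) := by
  rw [Chebyshev.psi, Chebyshev.psi, Nat.floor_natCast]

theorem measurable_E : Measurable E :=
  (Chebyshev.psi_mono.measurable.comp Real.measurable_exp).sub Real.measurable_exp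

theorem measurable_lam : Measurable lam := by
  unfold lam
  fun_prop

theorem E_bound : ∃ C : ℝ, 0 < C ∧ ∀ y : ℝ, 1 ≤ y → |E y| ≤ C * (Real.exp y / y) := by
  obtain ⟨C, hC, h⟩ := Pool.Agent.H381R2.HR.A1
  refine ⟨2 * C + 1, by positivity, fun y hy => ?_⟩
  have hy0 : 0 < y := by linarith
  have he : (2 : ℝ) ≤ Real.exp y := by
    have := Real.add_one_le_exp y; linarith
  set N := ⌊Real.exp y⌋₊ with hN
  have hN2 : 2 ≤ N := Nat.le_floor (by exact_mod_cast he)
  have hN2' : (2 : ℝ) ≤ N := by exact_mod_cast hN2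
  have hle : (N : ℝ) ≤ Real.exp y := Nat.floor_le (Real.exp_pos y).le
  have hlt : Real.exp y < N + 1 := Nat.lt_floor_add_one _
  have h1 := h N hN2
  have hlN : y / 2 ≤ Real.log N := by
    have h2 : Real.exp y ≤ 3 / 2 * N := by linarith
    have h3 : y ≤ Real.log (3 / 2) + Real.log N := by
      rw [← Real.log_mul (by norm_num) (by linarith), ← Real.log_exp y]
      exact Real.log_le_log (Real.exp_pos y) h2
    have h4 : Real.log (3 / 2) ≤ 1 / 2 := by
      have := Real.log_le_sub_one_of_pos (show (0 : ℝ) < 3 / 2 by norm_num)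
      linarith
    linarith
  have h5 : (N : ℝ) / Real.log N ≤ 2 * (Real.exp y / y) := by
    calc (N : ℝ) / Real.log N ≤ Real.exp y / (y / 2) := by
          gcongr
      _ = 2 * (Real.exp y / y) := by field_simp
  have h6 : 1 ≤ Real.exp y / y := by
    rw [le_div_iff₀ hy0]
    have := Real.add_one_le_exp y; linarith
  have h7 : |E y| ≤ |Chebyshev.psi (N : ℝ) - N| + |(N : ℝ) - Real.exp y| := by
    unfold E
    rw [psi_floor (Real.exp y), ← hN]
    exact abs_sub_le _ _ _
  have h8 : |(N : ℝ) - Real.exp y| ≤ 1 := by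
    rw [abs_le]; constructor <;> linarith
  have h9 : C * ((N : ℝ) / Real.log N) ≤ C * (2 * (Real.exp y / y)) :=
    mul_le_mul_of_nonneg_left h5 hC.le
  linarith

theorem B_tendsto : Tendsto B atTop (𝓝 0) := by
  obtain ⟨C, hC, hE⟩ := E_bound
  have h1 : Tendsto (fun v : ℝ => E v / (Real.exp v * v)) atTop (𝓝 0) := by
    have h2 : Tendsto (fun v : ℝ => C / v) atTop (𝓝 0) := tendsto_const_nhds.div_atTop tendsto_id
    refine squeeze_zero_norm' ?_ h2
    filter_upwards [eventually_ge_atTop 1] with v hv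
    have hv0 : 0 < v := by linarith
    rw [Real.norm_eq_abs, abs_div, abs_of_pos (show 0 < Real.exp v * v by positivity),
      div_le_div_iff₀ (by positivity) hv0]
    have h3 := hE v hv
    have h4 : C * (Real.exp v / v) ≤ C * Real.exp v := by
      refine mul_le_mul_of_nonneg_left ?_ hC.le
      exact div_le_self (Real.exp_pos v).le hv
    nlinarith
  have h2 := (SS_floor.sub_const Real.eulerMascheroniConstant).sub h1
  rw [sub_self, sub_zero] at h2
  refine h2.congr fun v => ?_
  unfold B SS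
  ring

theorem bk : S_BK := by
  intro v hv
  obtain ⟨C, hC, hE⟩ := E_bound
  set b := max v 1 with hb
  have hb1 : 1 ≤ b := le_max_right _ _
  have hb0 : 0 < b := by linarith
  have hvb : v ≤ b := le_max_left _ _
  have hint : IntegrableOn (fun y : ℝ => E y * Real.exp (-y) * lam y) (Ioi v) := by
    rw [← Ioc_union_Ioi_eq_Ioi hvb]
    refine (B_sub hv hvb).1.union ?_
    have hdom : IntegrableOn (fun y : ℝ => 2 * C * y ^ (-2 : ℝ)) (Ioi b) :=
      (integrableOn_Ioi_rpow_of_lt (by norm_num) hb0).const_mul _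
    refine hdom.mono' ?_ ?_
    · exact ((measurable_E.mul (by fun_prop)).mul measurable_lam).aestronglyMeasurable
    · refine (ae_restrict_iff' measurableSet_Ioi).mpr (Eventually.of_forall fun y hy => ?_)
      have hy1 : 1 ≤ y := hb1.trans (le_of_lt hy)
      have hy0 : 0 < y := by linarith
      have h1 := hE y hy1
      have hlam : lam y ≤ 2 / y := by
        unfold lam
        have : 1 / y ^ 2 ≤ 1 / y := by
          apply one_div_le_one_div_of_le hy0
          nlinarith
        have h2 : 2 / y = 1 / y + 1 / y := by ring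
        linarith
      have hlam0 : 0 ≤ lam y := by unfold lam; positivity
      rw [Real.norm_eq_abs, abs_mul, abs_mul, abs_of_pos (Real.exp_pos _), abs_of_nonneg hlam0]
      calc |E y| * Real.exp (-y) * lam y ≤ (C * (Real.exp y / y)) * Real.exp (-y) * (2 / y) := by
            gcongr
        _ = 2 * C * y ^ (-2 : ℝ) := by
            rw [Real.exp_neg, Real.rpow_neg hy0.le, Real.rpow_two]
            have := (Real.exp_pos y).ne'
            field_simp
  refine ⟨hint, ?_⟩
  have h1 := intervalIntegral_tendsto_integral_Ioi v hint tendsto_id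
  have h2 : Tendsto (fun b : ℝ => B b - B v) atTop (𝓝 (0 - B v)) := B_tendsto.sub_const _
  have h3 : Tendsto (fun b : ℝ => B b - B v) atTop
      (𝓝 (∫ y in Ioi v, E y * Real.exp (-y) * lam y)) := by
    refine h1.congr' ?_
    filter_upwards [eventually_ge_atTop v] with b hb
    simp only [id]
    rw [intervalIntegral.integral_of_le hb, (B_sub hv hb).2]
  have h4 := tendsto_nhds_unique h2 h3
  linarith

theorem lam_le_two {y : ℝ} (hy : 1 ≤ y) : 0 ≤ lam y ∧ lam y ≤ 2 := by
  unfold lam
  have hy0 : 0 < y := by linarith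
  constructor
  · positivity
  · have h1 : 1 / y ≤ 1 := by rw [div_le_one hy0]; exact hy
    have h2 : 1 / y ^ 2 ≤ 1 := by rw [div_le_one (by positivity)]; nlinarith
    linarith

theorem bup1 (C θ : ℝ) (hθ : θ < 1) (hE : ∀ v : ℝ, 0 ≤ v → |E v| ≤ C * Real.exp (θ * v)) :
    ∃ C' : ℝ, ∀ v : ℝ, 1 ≤ v → |B v| ≤ C' * Real.exp ((θ - 1) * v) := by
  refine ⟨2 * |C| / (1 - θ), fun v hv => ?_⟩
  have hv0 : 0 < v := by linarith
  obtain ⟨h1, h2⟩ := bk v hv0
  have hneg : θ - 1 < 0 := by linarith
  have hdom : IntegrableOn (fun y : ℝ => 2 * |C| * Real.exp ((θ - 1) * y)) (Ioi v) :=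
    (integrableOn_exp_mul_Ioi hneg v).const_mul _
  rw [h2, abs_neg]
  have h3 : ‖∫ y in Ioi v, E y * Real.exp (-y) * lam y‖ ≤
      ∫ y in Ioi v, 2 * |C| * Real.exp ((θ - 1) * y) := by
    refine norm_integral_le_of_norm_le hdom ?_
    refine (ae_restrict_iff' measurableSet_Ioi).mpr (Eventually.of_forall fun y hy => ?_)
    have hy1 : 1 ≤ y := hv.trans (le_of_lt hy)
    have hy0 : 0 ≤ y := by linarith
    obtain ⟨l0, l2⟩ := lam_le_two hy1
    rw [Real.norm_eq_abs, abs_mul, abs_mul, abs_of_pos (Real.exp_pos _), abs_of_nonneg l0]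
    have h4 : |E y| ≤ |C| * Real.exp (θ * y) :=
      (hE y hy0).trans (mul_le_mul_of_nonneg_right (le_abs_self C) (Real.exp_pos _).le)
    calc |E y| * Real.exp (-y) * lam y ≤ (|C| * Real.exp (θ * y)) * Real.exp (-y) * 2 := by
          gcongr
      _ = 2 * |C| * Real.exp ((θ - 1) * y) := by
          rw [show (θ - 1) * y = θ * y + -y by ring, Real.exp_add]; ring
  rw [Real.norm_eq_abs] at h3
  refine h3.trans (le_of_eq ?_)
  rw [integral_const_mul, integral_exp_mul_Ioi hneg]
  have : (1 - θ) ≠ 0 := by linarith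
  have h5 : θ - 1 ≠ 0 := by linarith
  field_simp
  ring

end Pool.Agent.TH73.J311
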