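import Pool.Agent.TH73.J311c
import Pool.Agent.W762.EC.PntA
import Pool.Agent.W66.ZC
import Pool.Agent.TH949.J305

/-!
# The Fourier transform of the first primitive of the error term
-/

set_option autoImplicit false

namespace Pool.Agent.TH73.J311

open MeasureTheory Filter Topology Set
open Pool.Agent.TH896.RC
open Pool.Agent.W66 (Z1 DD ell)

theorem E_bound2 : ∃ C : ℝ, 0 < C ∧ ∀ y : ℝ, 0 ≤ y → |E y| ≤ C * (Real.exp y / (1 + y) ^ 2) := by
  obtain ⟨C0, hC0⟩ := Pool.Agent.TH949.J305.E_bound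
  obtain ⟨N₁, h⟩ := Pool.Agent.W762.EC.PntA.large 2 (by norm_num)
  set C : ℝ := 35 + 16 * 8 ^ 2 with hC
  have hC1 : (0 : ℝ) < C := by rw [hC]; norm_num
  set Y0 : ℝ := N₁ + 1 with hY0
  have hY01 : 1 ≤ Y0 := by
    have : (0 : ℝ) ≤ N₁ := Nat.cast_nonneg _
    linarith
  set C2 : ℝ := (4 * C + 2) * 4 + |C0| * (1 + Y0) ^ 2 with hC2
  have hC2' : 0 < C2 := by positivity
  refine ⟨C2, hC2', fun y hy => ?_⟩
  have hex : 0 < Real.exp y := Real.exp_pos y
  rcases le_or_gt y Y0 with hyY | hyY
  · have h1 := hC0 y hy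
    have h2 : |C0| * Real.exp y ≤ |C0| * (1 + Y0) ^ 2 * (Real.exp y / (1 + y) ^ 2) := by
      rw [mul_div_assoc', le_div_iff₀ (by positivity)]
      have h3 : (1 + y) ^ 2 ≤ (1 + Y0) ^ 2 := pow_le_pow_left₀ (by linarith) (by linarith) 2
      have h4 : 0 ≤ |C0| * Real.exp y := by positivity
      nlinarith
    have h5 : C0 * Real.exp y ≤ |C0| * Real.exp y :=
      mul_le_mul_of_nonneg_right (le_abs_self _) hex.le
    have h6 : |C0| * (1 + Y0) ^ 2 * (Real.exp y / (1 + y) ^ 2) ≤ C2 * (Real.exp y / (1 + y) ^ 2) := by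
      refine mul_le_mul_of_nonneg_right ?_ (by positivity)
      rw [hC2]; linarith
    linarith
  · have hy1 : 1 ≤ y := by linarith
    have hy0 : 0 < y := by linarith
    have he : (2 : ℝ) ≤ Real.exp y := by
      have := Real.add_one_le_exp y; linarith
    set N := ⌊Real.exp y⌋₊ with hN
    have hN2 : 2 ≤ N := Nat.le_floor (by exact_mod_cast he)
    have hN2' : (2 : ℝ) ≤ N := by exact_mod_cast hN2
    have hle : (N : ℝ) ≤ Real.exp y := Nat.floor_le hex.le
    have hlt : Real.exp y < N + 1 := Nat.lt_floor_add_one _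
    have hNN : N₁ ≤ N := by
      apply Nat.le_floor
      have := Real.add_one_le_exp y
      linarith
    have h1 := h N hNN
    have hlN : y / 2 ≤ Real.log N := by
      have h2 : Real.exp y ≤ 3 / 2 * N := by linarith
      have h3 : y ≤ Real.log (3 / 2) + Real.log N := by
        rw [← Real.log_mul (by norm_num) (by linarith), ← Real.log_exp y]
        exact Real.log_le_log (Real.exp_pos y) h2
      have h4 : Real.log (3 / 2) ≤ 1 / 2 := by
        have := Real.log_le_sub_one_of_pos (show (0 : ℝ) < 3 / 2 by norm_num)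
        linarith
      linarith
    have h5 : (N : ℝ) / Real.log N ^ 2 ≤ 4 * (Real.exp y / y ^ 2) := by
      calc (N : ℝ) / Real.log N ^ 2 ≤ Real.exp y / (y / 2) ^ 2 := by gcongr
        _ = 4 * (Real.exp y / y ^ 2) := by field_simp; ring
    have h6 : 1 ≤ 2 * (Real.exp y / y ^ 2) := by
      rw [mul_div_assoc', le_div_iff₀ (by positivity)]
      have := Real.quadratic_le_exp_of_nonneg hy
      linarith
    have h7 : |E y| ≤ |Chebyshev.psi (N : ℝ) - N| + |(N : ℝ) - Real.exp y| := by
      unfold E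
      rw [psi_floor (Real.exp y), ← hN]
      exact abs_sub_le _ _ _
    have h8 : |(N : ℝ) - Real.exp y| ≤ 1 := by
      rw [abs_le]; constructor <;> linarith
    have h9 : C * ((N : ℝ) / Real.log N ^ 2) ≤ C * (4 * (Real.exp y / y ^ 2)) :=
      mul_le_mul_of_nonneg_left h5 hC1.le
    have h10 : Real.exp y / y ^ 2 ≤ 4 * (Real.exp y / (1 + y) ^ 2) := by
      rw [mul_div_assoc', div_le_div_iff₀ (by positivity) (by positivity)]
      have : (1 + y) ^ 2 ≤ 4 * y ^ 2 := by nlinarith
      nlinarith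
    have h11 : 0 ≤ |C0| * (1 + Y0) ^ 2 * (Real.exp y / (1 + y) ^ 2) := by positivity
    calc |E y| ≤ (4 * C + 2) * (Real.exp y / y ^ 2) := by linarith
      _ ≤ (4 * C + 2) * (4 * (Real.exp y / (1 + y) ^ 2)) :=
          mul_le_mul_of_nonneg_left h10 (by positivity)
      _ ≤ C2 * (Real.exp y / (1 + y) ^ 2) := by rw [hC2]; linarith

/-- `E y e^{-y}` on the half-line -/
noncomputable def e1 : ℝ → ℂ := (Ioi 0).indicator fun y => ((E y * Real.exp (-y) : ℝ) : ℂ)

/-- `e^{-y}` on the half-line -/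
noncomputable def k1 : ℝ → ℂ := (Ioi 0).indicator fun y => ((Real.exp (-y) : ℝ) : ℂ)

theorem dom_int : IntegrableOn (fun y : ℝ => (1 + y) ^ (-2 : ℝ)) (Ioi 0) := by
  have h := (integrable_one_add_norm (E := ℝ) (μ := volume) (r := 2) (by simp)).integrableOn
    (s := Ioi 0)
  refine (integrableOn_congr_fun (fun y hy => ?_) measurableSet_Ioi).mp h
  rw [Real.norm_of_nonneg (le_of_lt hy)]

theorem e_bound_int : ∃ C : ℝ, 0 < C ∧ ∀ y ∈ Ioi (0 : ℝ), |E y| * Real.exp (-y) ≤
    C * (1 + y) ^ (-2 : ℝ) := by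
  obtain ⟨C, hC, h⟩ := E_bound2
  refine ⟨C, hC, fun y hy => ?_⟩
  have hy0 : (0 : ℝ) < y := hy
  have h1 := h y hy0.le
  have h2 : (1 + y) ^ (-2 : ℝ) = 1 / (1 + y) ^ 2 := by
    rw [Real.rpow_neg (by linarith), Real.rpow_two, one_div]
  rw [h2]
  calc |E y| * Real.exp (-y) ≤ (C * (Real.exp y / (1 + y) ^ 2)) * Real.exp (-y) :=
        mul_le_mul_of_nonneg_right h1 (Real.exp_pos _).le
    _ = C * (1 / (1 + y) ^ 2) * (Real.exp y * Real.exp (-y)) := by ring
    _ = C * (1 / (1 + y) ^ 2) := by rw [← Real.exp_add]; simp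

theorem e1_integrable : Integrable e1 := by
  obtain ⟨C, hC, h⟩ := e_bound_int
  rw [e1, integrable_indicator_iff measurableSet_Ioi]
  refine (dom_int.const_mul C).mono' ?_ ?_
  · exact (Complex.measurable_ofReal.comp (measurable_E.mul (by fun_prop))).aestronglyMeasurable
  · refine (ae_restrict_iff' measurableSet_Ioi).mpr (Eventually.of_forall fun y hy => ?_)
    rw [Complex.norm_real, Real.norm_eq_abs, abs_mul, abs_of_pos (Real.exp_pos _)]
    exact h y hy

theorem k1_integrable : Integrable k1 := by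
  rw [k1, integrable_indicator_iff measurableSet_Ioi]
  have h := (integrableOn_exp_mul_Ioi (a := -1) (by norm_num) 0)
  have h2 : IntegrableOn (fun y : ℝ => Real.exp (-y)) (Ioi 0) := by simpa using h
  exact h2.ofReal

theorem DD_cont {s : ℂ} (hs : 1 ≤ s.re) : ContinuousAt DD s := by
  have h1 : ContinuousAt (deriv Z1) s :=
    ((Pool.Agent.W66.Z1_diff.analyticAt s).deriv).continuousAt
  exact h1.div Pool.Agent.W66.Z1_diff.continuous.continuousAt (Pool.Agent.W66.Z1_ne_zero hs)

/-- The Laplace transform on the closed half-plane. -/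
theorem lap_e (s : ℂ) (hs : 1 ≤ s.re) :
    ∫ y in Ioi (0 : ℝ), Complex.exp (-(s * y)) * (E y : ℂ) = -(1 + DD s) / s := by
  -- for `Re s > 1`
  have hgt : ∀ s : ℂ, 1 < s.re →
      ∫ y in Ioi (0 : ℝ), Complex.exp (-(s * y)) * (E y : ℂ) = -(1 + DD s) / s := by
    intro s hs
    have h1 := (Pool.Agent.TH949.J305.lape.2.2 s hs).2
    unfold TH896.RC.Lp at h1
    rw [h1]
    have hs1 : s ≠ 1 := by
      rintro rfl; simp at hs
    have hs0 : s ≠ 0 := by
      rintro rfl; simp at hs; linarith
    rw [Pool.Agent.W66.DD_eq hs1 (riemannZeta_ne_zero_of_one_lt_re hs)]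
    have h3 : s - 1 ≠ 0 := sub_ne_zero.mpr hs1
    have h4 := riemannZeta_ne_zero_of_one_lt_re hs
    field_simp
    ring
  -- limit
  obtain ⟨C, hC, hb⟩ := e_bound_int
  have hl1 : Tendsto (fun δ : ℝ => ∫ y in Ioi (0 : ℝ), Complex.exp (-((s + δ) * y)) * (E y : ℂ))
      (𝓝[>] 0) (𝓝 (∫ y in Ioi (0 : ℝ), Complex.exp (-(s * y)) * (E y : ℂ))) := by
    refine tendsto_integral_filter_of_dominated_convergence
      (fun y => C * (1 + y) ^ (-2 : ℝ)) ?_ ?_ (dom_int.const_mul C) ?_
    · refine Eventually.of_forall fun δ => Measurable.aestronglyMeasurable ?_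
      exact (by fun_prop : Measurable fun y : ℝ => Complex.exp (-((s + δ) * y))).mul
        (Complex.measurable_ofReal.comp measurable_E)
    · filter_upwards [self_mem_nhdsWithin] with δ hδ
      have hδ0 : (0 : ℝ) < δ := hδ
      refine (ae_restrict_iff' measurableSet_Ioi).mpr (Eventually.of_forall fun y hy => ?_)
      have hy0 : (0 : ℝ) < y := hy
      refine le_trans ?_ (hb y hy)
      rw [norm_mul, Complex.norm_exp, Complex.norm_real, Real.norm_eq_abs, mul_comm]
      refine mul_le_mul_of_nonneg_left (Real.exp_le_exp.mpr ?_) (abs_nonneg _)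
      have : (-((s + δ) * y) : ℂ).re = -((s.re + δ) * y) := by simp
      rw [this]
      nlinarith
    · refine Eventually.of_forall fun y => ?_
      have hc : Continuous fun δ : ℝ => Complex.exp (-((s + δ) * y)) * (E y : ℂ) := by fun_prop
      have := (hc.tendsto 0).mono_left (nhdsWithin_le_nhds (s := Ioi 0))
      simpa using this
  have hl2 : Tendsto (fun δ : ℝ => -(1 + DD (s + δ)) / (s + δ)) (𝓝[>] 0) (𝓝 (-(1 + DD s) / s)) := by
    have hs0 : s ≠ 0 := by
      rintro rfl; simp at hs; linarith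
    have hc : ContinuousAt (fun δ : ℝ => -(1 + DD (s + δ)) / (s + δ)) 0 := by
      have h1 : ContinuousAt (fun δ : ℝ => s + (δ : ℂ)) 0 := by fun_prop
      have h2 : ContinuousAt (fun δ : ℝ => DD (s + (δ : ℂ))) 0 := by
        refine ContinuousAt.comp (g := DD) ?_ h1
        simpa using DD_cont hs
      exact (continuousAt_const.add h2).neg.div h1 (by simpa using hs0)
    have := hc.tendsto.mono_left (nhdsWithin_le_nhds (s := Ioi 0))
    simpa using this
  refine tendsto_nhds_unique hl1 (hl2.congr' ?_)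
  filter_upwards [self_mem_nhdsWithin] with δ hδ
  have hδ0 : (0 : ℝ) < δ := hδ
  rw [hgt (s + δ) (by simp; linarith)]

/-- the transform as a function of a complex variable -/
noncomputable def FC (z : ℂ) : ℂ :=
  -(1 + DD (1 + 2 * Real.pi * Complex.I * z)) / (1 + 2 * Real.pi * Complex.I * z) ^ 2

open FourierTransform Convolution

theorem re_line (ξ : ℝ) : (1 + 2 * Real.pi * Complex.I * ξ : ℂ).re = 1 := by simp

theorem fourier_e1 (ξ : ℝ) : 𝓕 e1 ξ =
    -(1 + DD (1 + 2 * Real.pi * Complex.I * ξ)) / (1 + 2 * Real.pi * Complex.I * ξ) := by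
  rw [Real.fourier_real_eq_integral_exp_smul,
    ← lap_e (1 + 2 * Real.pi * Complex.I * ξ) (by rw [re_line])]
  rw [← integral_indicator measurableSet_Ioi]
  refine integral_congr_ae (Eventually.of_forall fun y => ?_)
  simp only [e1, indicator]
  split_ifs with h
  · rw [smul_eq_mul]
    push_cast
    rw [mul_comm (E y : ℂ), ← mul_assoc, ← Complex.exp_add]
    congr 2
    ring
  · simp

theorem fourier_k1 (ξ : ℝ) : 𝓕 k1 ξ = 1 / (1 + 2 * Real.pi * Complex.I * ξ) := by
  rw [Real.fourier_real_eq_integral_exp_smul]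
  have hneg : (-(1 + 2 * Real.pi * Complex.I * ξ) : ℂ).re < 0 := by
    rw [Complex.neg_re, re_line]; norm_num
  have h1 := integral_exp_mul_complex_Ioi hneg 0
  have h2 : ∫ v : ℝ, Complex.exp (↑(-2 * Real.pi * v * ξ) * Complex.I) • k1 v =
      ∫ v in Ioi (0 : ℝ), Complex.exp (-(1 + 2 * Real.pi * Complex.I * ξ) * v) := by
    rw [← integral_indicator measurableSet_Ioi]
    refine integral_congr_ae (Eventually.of_forall fun y => ?_)
    simp only [k1, indicator]
    split_ifs with h
    · rw [smul_eq_mul]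
      push_cast
      rw [← Complex.exp_add]
      congr 1
      ring
    · simp
  rw [h2, h1, Complex.ofReal_zero, mul_zero, Complex.exp_zero, neg_div_neg_eq]

/-- the convolution -/
noncomputable def uu : ℝ → ℂ := e1 ⋆[ContinuousLinearMap.mul ℂ ℂ] k1

theorem uu_integrable : Integrable uu :=
  e1_integrable.integrable_convolution _ k1_integrable

theorem fourier_uu (ξ : ℝ) : 𝓕 uu ξ = FC ξ := by
  rw [uu, Real.fourier_mul_convolution_eq e1_integrable k1_integrable, fourier_e1, fourier_k1, FC]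
  rw [div_mul_div_comm, mul_one, pow_two]

/-- `∫_0^v E` -/
noncomputable def PP (v : ℝ) : ℝ := ∫ y in (0 : ℝ)..v, E y

theorem uu_eq {v : ℝ} (hv : 0 < v) : uu v = ((Real.exp (-v) * PP v : ℝ) : ℂ) := by
  rw [uu, convolution_def]
  have h1 : (fun t => ((ContinuousLinearMap.mul ℂ ℂ) (e1 t)) (k1 (v - t))) =
      (Ioo 0 v).indicator fun t => ((Real.exp (-v) * E t : ℝ) : ℂ) := by
    funext t
    simp only [ContinuousLinearMap.mul_apply', e1, k1, indicator, mem_Ioi, mem_Ioo, sub_pos]
    by_cases h0 : 0 < t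
    · by_cases h2 : t < v
      · rw [if_pos h0, if_pos h2, if_pos ⟨h0, h2⟩]
        rw [← Complex.ofReal_mul]
        congr 1
        have : Real.exp (-t) * Real.exp (-(v - t)) = Real.exp (-v) := by
          rw [← Real.exp_add]; congr 1; ring
        rw [mul_assoc, this, mul_comm]
      · have h3 : ¬ (0 < t ∧ t < v) := fun h => h2 h.2
        rw [if_neg h2, if_neg h3, mul_zero]
    · have h3 : ¬ (0 < t ∧ t < v) := fun h => h0 h.1
      rw [if_neg h0, if_neg h3, zero_mul]
  rw [h1, integral_indicator measurableSet_Ioo, ← integral_Ioc_eq_integral_Ioo,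
    integral_complex_ofReal, integral_const_mul, PP, intervalIntegral.integral_of_le hv.le]

theorem E_intervalIntegrable (a b : ℝ) : IntervalIntegrable E volume a b := by
  have h1 : IntervalIntegrable (fun y => Chebyshev.psi (Real.exp y)) volume a b :=
    (Chebyshev.psi_mono.comp Real.exp_monotone).intervalIntegrable
  exact h1.sub (Real.continuous_exp.intervalIntegrable a b)

theorem uu_cont {v : ℝ} (hv : 0 < v) : ContinuousAt uu v := by
  have h1 : Continuous PP := intervalIntegral.continuous_primitive E_intervalIntegrable 0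
  have h2 : Continuous fun v : ℝ => ((Real.exp (-v) * PP v : ℝ) : ℂ) := by fun_prop
  refine h2.continuousAt.congr ?_
  filter_upwards [lt_mem_nhds hv] with w hw
  exact (uu_eq hw).symm

end Pool.Agent.TH73.J311
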