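import Pool.Agent.TH73.J311d

/-!
# Bounds for the derivatives of the transform
-/

set_option autoImplicit false

namespace Pool.Agent.TH73.J311

open MeasureTheory Filter Topology Set
open Pool.Agent.TH896.RC
open Pool.Agent.W66 (Z1 DD ell)

/-- logarithmic size -/
noncomputable def La (ξ : ℝ) : ℝ := Real.log (10 + 10 * |ξ|)

theorem one_le_La (ξ : ℝ) : 1 ≤ La ξ := by
  unfold La
  rw [Real.le_log_iff_exp_le (by positivity)]
  have := Real.exp_one_lt_d9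
  have := abs_nonneg ξ
  linarith

theorem DD_diff {s : ℂ} (hs : Z1 s ≠ 0) : DifferentiableAt ℂ DD s := by
  have h1 : DifferentiableAt ℂ (deriv Z1) s :=
    ((Pool.Agent.W66.Z1_diff.analyticAt s).deriv).differentiableAt
  exact h1.div (Pool.Agent.W66.Z1_diff s) hs

theorem geom (ξ a b ρ : ℝ) (hρs : ρ ≤ 1 / 56) (h1 : 1 / 2 ≤ 1 - 2 * Real.pi * b)
    (hre : |a - ξ| ≤ ρ) : (1 + ξ ^ 2) / 8 ≤
      (1 - 2 * Real.pi * b) * (1 - 2 * Real.pi * b) + 2 * Real.pi * a * (2 * Real.pi * a) := by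
  have hpi := Real.pi_gt_three
  have h2 : 1 / 4 ≤ (1 - 2 * Real.pi * b) * (1 - 2 * Real.pi * b) := by nlinarith
  have h8 : 2 * Real.pi * a * (2 * Real.pi * a) = 4 * Real.pi ^ 2 * a ^ 2 := by ring
  have h9 : 9 ≤ Real.pi ^ 2 := by nlinarith
  have h10 : 36 * a ^ 2 ≤ 4 * Real.pi ^ 2 * a ^ 2 :=
    mul_le_mul_of_nonneg_right (by linarith) (sq_nonneg a)
  rw [h8]
  rcases le_or_gt |ξ| 1 with h3 | h3
  · have h4 : ξ ^ 2 ≤ 1 := by
      rw [← sq_abs]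
      exact pow_le_one₀ (abs_nonneg ξ) h3
    have := sq_nonneg a
    linarith
  · have h5 : |ξ| - ρ ≤ |a| := by
      have h1 := abs_sub_abs_le_abs_sub ξ a
      have h2 : |ξ - a| ≤ ρ := by rw [abs_sub_comm]; exact hre
      linarith
    have h6 : |ξ| / 2 ≤ |a| := by linarith
    have h7 : (|ξ| / 2) ^ 2 ≤ |a| ^ 2 := pow_le_pow_left₀ (by positivity) h6 2
    rw [div_pow, sq_abs, sq_abs] at h7
    have := sq_nonneg ξ
    linarith

theorem FC_ball : ∃ c C₁ : ℝ, 0 < c ∧ c ≤ 1 / 8 ∧ 0 < C₁ ∧ ∀ (ξ : ℝ) (z : ℂ),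
    ‖z - ξ‖ ≤ c / (7 * La ξ) →
      DifferentiableAt ℂ FC z ∧ ‖FC z‖ ≤ C₁ * La ξ ^ 2 / (1 + ξ ^ 2) := by
  obtain ⟨c, C, hc, hc8, hC, h⟩ := Pool.Agent.W66.zf_bound
  refine ⟨c, 8 * (1 + C), hc, hc8, by positivity, fun ξ z hz => ?_⟩
  have hL := one_le_La ξ
  have hL0 : 0 < La ξ := by linarith
  have hpi := Real.pi_gt_three
  have hpi2 : Real.pi < 3.15 := Real.pi_lt_d2
  set ρ := c / (7 * La ξ) with hρ
  have hρ0 : 0 < ρ := by positivity
  have hρ1 : 7 * ρ = c / La ξ := by rw [hρ]; field_simp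
  have hρ2 : c / La ξ ≤ c := div_le_self hc.le hL
  have him : |z.im| ≤ ρ := by
    have := Complex.abs_im_le_norm (z - ξ)
    simp at this
    linarith
  have hre : |z.re - ξ| ≤ ρ := by
    have := Complex.abs_re_le_norm (z - ξ)
    simp at this
    linarith
  set s : ℂ := 1 + 2 * Real.pi * Complex.I * z with hs
  have hsre : s.re = 1 - 2 * Real.pi * z.im := by simp [hs]; ring
  have hsim : s.im = 2 * Real.pi * z.re := by simp [hs]
  rw [abs_le] at him hre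
  have h2pi : 2 * Real.pi * ρ ≤ c / La ξ := by
    rw [← hρ1]; exact mul_le_mul_of_nonneg_right (by linarith) hρ0.le
  have hre1 : |2 * Real.pi * z.im| ≤ c / La ξ := by
    rw [abs_mul, abs_of_pos (by positivity : (0 : ℝ) < 2 * Real.pi)]
    exact (mul_le_mul_of_nonneg_left (abs_le.mpr him) (by positivity)).trans h2pi
  rw [abs_le] at hre1
  have hzre : |z.re| ≤ |ξ| + ρ := by
    have h1 := abs_sub_abs_le_abs_sub z.re ξ
    have h2 : |z.re - ξ| ≤ ρ := abs_le.mpr hre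
    linarith
  have himb : |s.im| ≤ 7 * |ξ| + 1 := by
    rw [hsim, abs_mul, abs_of_pos (by positivity : (0 : ℝ) < 2 * Real.pi)]
    have h0 := abs_nonneg ξ
    calc 2 * Real.pi * |z.re| ≤ 7 * (|ξ| + ρ) :=
          mul_le_mul (by linarith) hzre (abs_nonneg _) (by norm_num)
      _ ≤ 7 * |ξ| + 1 := by linarith
  have hell : ell s.im ≤ La ξ := by
    unfold ell La
    apply Real.log_le_log (by positivity)
    have := abs_nonneg ξ
    linarith
  have hell1 := Pool.Agent.W66.one_le_ell s.im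
  have hdiv : c / La ξ ≤ c / ell s.im := by
    apply div_le_div_of_nonneg_left hc.le (by linarith) hell
  obtain ⟨hZ, hDD⟩ := h s (by rw [hsre]; linarith) (by rw [hsre]; linarith)
  have hs2 : (1 + ξ ^ 2) / 8 ≤ ‖s‖ ^ 2 := by
    rw [← Complex.normSq_eq_norm_sq, Complex.normSq_apply, hsre, hsim]
    exact geom ξ z.re z.im ρ (by linarith) (by linarith) (abs_le.mpr hre)
  have hspos : 0 < ‖s‖ ^ 2 := lt_of_lt_of_le (by positivity) hs2
  have hs0 : s ≠ 0 := by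
    intro h0
    rw [h0] at hspos
    simp at hspos
  constructor
  · have hd : DifferentiableAt ℂ (fun z : ℂ => 1 + 2 * Real.pi * Complex.I * z) z := by fun_prop
    have hd2 : DifferentiableAt ℂ (fun z : ℂ => DD (1 + 2 * Real.pi * Complex.I * z)) z :=
      DifferentiableAt.comp (g := DD) z (DD_diff hZ) hd
    exact ((differentiableAt_const _).add hd2).neg.div (hd.pow 2) (pow_ne_zero 2 hs0)
  · unfold FC
    rw [norm_div, norm_neg, norm_pow, ← hs]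
    rw [div_le_div_iff₀ hspos (by positivity)]
    have h1 : ‖1 + DD s‖ ≤ 1 + C * La ξ ^ 2 := by
      refine (norm_add_le _ _).trans ?_
      rw [norm_one]
      have h2 : ell s.im ^ 2 ≤ La ξ ^ 2 := pow_le_pow_left₀ (by linarith) hell 2
      have h3 := mul_le_mul_of_nonneg_left h2 hC.le
      linarith
    have h4 : 1 + C * La ξ ^ 2 ≤ (1 + C) * La ξ ^ 2 := by nlinarith
    have h5 : 0 ≤ 1 + ξ ^ 2 := by positivity
    calc ‖1 + DD s‖ * (1 + ξ ^ 2) ≤ ((1 + C) * La ξ ^ 2) * (8 * ‖s‖ ^ 2) := by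
          apply mul_le_mul (h1.trans h4) (by linarith) h5 (by positivity)
      _ = 8 * (1 + C) * La ξ ^ 2 * ‖s‖ ^ 2 := by ring

/-- the transform on the real line -/
noncomputable def FR (ξ : ℝ) : ℂ := FC ξ

theorem FC_analytic (ξ : ℝ) : AnalyticAt ℂ FC (ξ : ℂ) := by
  obtain ⟨c, C₁, hc, hc8, hC, h⟩ := FC_ball
  have hL := one_le_La ξ
  have hρ0 : 0 < c / (7 * La ξ) := by positivity
  have hd : DifferentiableOn ℂ FC (Metric.ball (ξ : ℂ) (c / (7 * La ξ))) := fun z hz => by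
    rw [mem_ball_iff_norm] at hz
    exact (h ξ z hz.le).1.differentiableWithinAt
  exact hd.analyticAt (Metric.ball_mem_nhds _ hρ0)

theorem iter_analytic (n : ℕ) (ξ : ℝ) : AnalyticAt ℂ (iteratedDeriv n FC) (ξ : ℂ) := by
  induction n with
  | zero => rw [iteratedDeriv_zero]; exact FC_analytic ξ
  | succ n ih => rw [iteratedDeriv_succ]; exact ih.deriv

theorem iter_eq (n : ℕ) : iteratedDeriv n FR = fun ξ : ℝ => iteratedDeriv n FC (ξ : ℂ) := by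
  induction n with
  | zero => simp only [iteratedDeriv_zero]; rfl
  | succ n ih =>
    funext ξ
    rw [iteratedDeriv_succ, iteratedDeriv_succ, ih]
    exact ((iter_analytic n ξ).differentiableAt.hasDerivAt.comp_ofReal).deriv

theorem FR_contDiff : ContDiff ℝ (⊤ : ℕ∞) FR := by
  rw [contDiff_iff_contDiffAt]
  intro ξ
  have h1 : ContDiffAt ℂ (⊤ : ℕ∞) FC (ξ : ℂ) := (FC_analytic ξ).contDiffAt
  have h2 : ContDiffAt ℝ (⊤ : ℕ∞) FC (ξ : ℂ) := h1.restrict_scalars ℝ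
  exact h2.comp ξ (Complex.ofRealCLM.contDiff.contDiffAt)

theorem pow_La (ξ : ℝ) (m : ℕ) : La ξ ^ m ≤ 2 ^ m * m.factorial * (10 + 10 * |ξ|) ^ (1 / 2 : ℝ) := by
  have hL := one_le_La ξ
  have h1 := Real.pow_div_factorial_le_exp (La ξ / 2) (by linarith) m
  have h2 : Real.exp (La ξ / 2) = (10 + 10 * |ξ|) ^ (1 / 2 : ℝ) := by
    rw [Real.rpow_def_of_pos (by positivity), La]
    congr 1
    ring
  rw [h2, div_le_iff₀ (by positivity), div_pow, div_le_iff₀ (by positivity)] at h1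
  linarith

theorem weight (ξ : ℝ) : (10 + 10 * |ξ|) ^ (1 / 2 : ℝ) / (1 + ξ ^ 2) ≤
    8 * (1 + |ξ|) ^ (-(3 / 2 : ℝ)) := by
  have h0 := abs_nonneg ξ
  have h1 : (10 + 10 * |ξ|) ^ (1 / 2 : ℝ) ≤ 4 * (1 + |ξ|) ^ (1 / 2 : ℝ) := by
    have e : (10 + 10 * |ξ|) ≤ 16 * (1 + |ξ|) := by linarith
    calc (10 + 10 * |ξ|) ^ (1 / 2 : ℝ) ≤ (16 * (1 + |ξ|)) ^ (1 / 2 : ℝ) :=
          Real.rpow_le_rpow (by positivity) e (by norm_num)
      _ = 4 * (1 + |ξ|) ^ (1 / 2 : ℝ) := by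
          rw [Real.mul_rpow (by norm_num) (by positivity)]
          congr 1
          rw [show (16 : ℝ) = 4 ^ (2 : ℝ) by norm_num, ← Real.rpow_mul (by norm_num)]
          norm_num
  have h2 : (1 + |ξ|) ^ (2 : ℝ) ≤ 2 * (1 + ξ ^ 2) := by
    rw [Real.rpow_two, ← sq_abs ξ]
    nlinarith [sq_nonneg (1 - |ξ|)]
  rw [div_le_iff₀ (by positivity)]
  have h3 : (1 + |ξ|) ^ (1 / 2 : ℝ) = (1 + |ξ|) ^ (-(3 / 2 : ℝ)) * (1 + |ξ|) ^ (2 : ℝ) := by
    rw [← Real.rpow_add (by positivity)]; norm_num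
  have h4 : 0 ≤ (1 + |ξ|) ^ (-(3 / 2 : ℝ)) := by positivity
  calc (10 + 10 * |ξ|) ^ (1 / 2 : ℝ) ≤ 4 * (1 + |ξ|) ^ (1 / 2 : ℝ) := h1
    _ = 4 * ((1 + |ξ|) ^ (-(3 / 2 : ℝ)) * (1 + |ξ|) ^ (2 : ℝ)) := by rw [h3]
    _ ≤ 4 * ((1 + |ξ|) ^ (-(3 / 2 : ℝ)) * (2 * (1 + ξ ^ 2))) := by gcongr
    _ = 8 * (1 + |ξ|) ^ (-(3 / 2 : ℝ)) * (1 + ξ ^ 2) := by ring

theorem fact_le (n : ℕ) : ((n.factorial : ℝ) * ((n + 2).factorial : ℝ)) ≤ 2 * 3 ^ n * (n : ℝ) ^ (2 * n) := by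
  have h1 : ((n.factorial : ℕ) : ℝ) ≤ (n : ℝ) ^ n := by exact_mod_cast Nat.factorial_le_pow n
  have h2 : ((n : ℝ) + 2) * (n + 1) ≤ 2 * 3 ^ n := by
    induction n with
    | zero => norm_num
    | succ n ih =>
      have h1' : ((n.factorial : ℕ) : ℝ) ≤ (n : ℝ) ^ n := by exact_mod_cast Nat.factorial_le_pow n
      have := ih h1'
      push_cast
      rw [pow_succ]
      have hn : (0 : ℝ) ≤ n := Nat.cast_nonneg n
      nlinarith
  have h3 : ((n + 2).factorial : ℝ) = ((n : ℝ) + 2) * (n + 1) * n.factorial := by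
    rw [Nat.factorial_succ, Nat.factorial_succ]; push_cast; ring
  have hf : (0 : ℝ) ≤ n.factorial := Nat.cast_nonneg _
  rw [h3]
  calc (n.factorial : ℝ) * (((n : ℝ) + 2) * (n + 1) * n.factorial)
      = (((n : ℝ) + 2) * (n + 1)) * ((n.factorial : ℝ) * n.factorial) := by ring
    _ ≤ (2 * 3 ^ n) * ((n : ℝ) ^ n * (n : ℝ) ^ n) := by
        apply mul_le_mul h2 (mul_le_mul h1 h1 hf (by positivity)) (by positivity) (by positivity)
    _ = 2 * 3 ^ n * (n : ℝ) ^ (2 * n) := by rw [two_mul n, pow_add]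

theorem iter_bound : ∃ c A : ℝ, 0 < c ∧ 0 < A ∧ ∀ (n : ℕ) (ξ : ℝ),
    ‖iteratedDeriv n FR ξ‖ ≤ A * ((c⁻¹) ^ n * (n : ℝ) ^ (2 * n)) * (1 + |ξ|) ^ (-(3 / 2 : ℝ)) := by
  obtain ⟨c, C₁, hc, hc8, hC, h⟩ := FC_ball
  refine ⟨c / 42, 64 * C₁, by positivity, by positivity, fun n ξ => ?_⟩
  rw [iter_eq]
  have hL := one_le_La ξ
  have hL0 : 0 < La ξ := by linarith
  set ρ := c / (7 * La ξ) with hρ
  have hρ0 : 0 < ρ := by positivity
  have hd : DiffContOnCl ℂ FC (Metric.ball (ξ : ℂ) ρ) := by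
    refine DifferentiableOn.diffContOnCl fun z hz => ?_
    rw [closure_ball _ hρ0.ne', mem_closedBall_iff_norm] at hz
    exact (h ξ z hz).1.differentiableWithinAt
  have h1 := Complex.norm_iteratedDeriv_le_of_forall_mem_sphere_norm_le n hρ0 hd
    (C := C₁ * La ξ ^ 2 / (1 + ξ ^ 2)) (fun z hz => by
      rw [mem_sphere_iff_norm] at hz
      exact (h ξ z hz.le).2)
  refine h1.trans ?_
  have h2 : (n.factorial : ℝ) * (C₁ * La ξ ^ 2 / (1 + ξ ^ 2)) / ρ ^ n =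
      C₁ * n.factorial * (7 / c) ^ n * (La ξ ^ (n + 2) / (1 + ξ ^ 2)) := by
    rw [hρ, div_pow, div_pow, mul_pow, pow_add]
    field_simp
  rw [h2]
  have h3 := pow_La ξ (n + 2)
  have h4 := weight ξ
  have h5 : La ξ ^ (n + 2) / (1 + ξ ^ 2) ≤
      2 ^ (n + 2) * (n + 2).factorial * (8 * (1 + |ξ|) ^ (-(3 / 2 : ℝ))) := by
    calc La ξ ^ (n + 2) / (1 + ξ ^ 2) ≤
          (2 ^ (n + 2) * (n + 2).factorial * (10 + 10 * |ξ|) ^ (1 / 2 : ℝ)) / (1 + ξ ^ 2) := by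
          gcongr
      _ = 2 ^ (n + 2) * (n + 2).factorial * ((10 + 10 * |ξ|) ^ (1 / 2 : ℝ) / (1 + ξ ^ 2)) := by ring
      _ ≤ _ := by gcongr
  have h6 := fact_le n
  have hw : 0 ≤ (1 + |ξ|) ^ (-(3 / 2 : ℝ)) := by positivity
  calc C₁ * n.factorial * (7 / c) ^ n * (La ξ ^ (n + 2) / (1 + ξ ^ 2))
      ≤ C₁ * n.factorial * (7 / c) ^ n *
        (2 ^ (n + 2) * (n + 2).factorial * (8 * (1 + |ξ|) ^ (-(3 / 2 : ℝ)))) := by gcongr
    _ = (32 * C₁ * (14 / c) ^ n * (1 + |ξ|) ^ (-(3 / 2 : ℝ))) *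
        ((n.factorial : ℝ) * ((n + 2).factorial : ℝ)) := by
        rw [pow_add 2 n 2, div_pow, div_pow, show (14 : ℝ) = 2 * 7 by norm_num, mul_pow]; ring
    _ ≤ (32 * C₁ * (14 / c) ^ n * (1 + |ξ|) ^ (-(3 / 2 : ℝ))) *
        (2 * 3 ^ n * (n : ℝ) ^ (2 * n)) := by gcongr
    _ = _ := by
        rw [inv_div, div_pow, div_pow, show (42 : ℝ) = 14 * 3 by norm_num, mul_pow]; ring

theorem integrable_J : Integrable (fun ξ : ℝ => (1 + |ξ|) ^ (-(3 / 2 : ℝ))) := by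
  have h := integrable_one_add_norm (E := ℝ) (μ := volume) (r := 3 / 2) (by simp; norm_num)
  simpa [Real.norm_eq_abs] using h

theorem iter_integrable (n : ℕ) : Integrable (iteratedDeriv n FR) := by
  obtain ⟨c, A, hc, hA, h⟩ := iter_bound
  refine (integrable_J.const_mul (A * ((c⁻¹) ^ n * (n : ℝ) ^ (2 * n)))).mono' ?_ ?_
  · exact (FR_contDiff.continuous_iteratedDeriv n (by exact_mod_cast le_top)).aestronglyMeasurable
  · exact Eventually.of_forall fun ξ => h n ξ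

open FourierTransform

theorem fourier_uu' : 𝓕 uu = FR := funext fun ξ => fourier_uu ξ

theorem uu_bound : ∃ b A : ℝ, 0 < b ∧ 0 < A ∧ ∀ (v : ℝ), 0 < v → ∀ n : ℕ,
    ‖uu v‖ ≤ A * ((n : ℝ) ^ 2 / (b * v)) ^ n := by
  obtain ⟨c, A, hc, hA, h⟩ := iter_bound
  set J := ∫ ξ : ℝ, (1 + |ξ|) ^ (-(3 / 2 : ℝ)) with hJ
  have hJ0 : 0 ≤ J := integral_nonneg fun ξ => by positivity
  refine ⟨2 * Real.pi * c, A * (J + 1), by positivity, by positivity, fun v hv n => ?_⟩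
  have hFR0 : Integrable FR := by simpa using iter_integrable 0
  have h1 : uu v = 𝓕 FR (-v) := by
    have h2 := uu_integrable.fourierInv_fourier_eq (by rw [fourier_uu']; exact hFR0) (uu_cont hv)
    rw [fourier_uu', Real.fourierInv_eq_fourier_neg] at h2
    exact h2.symm
  have h3 := Real.fourier_iteratedDeriv (N := ⊤) (n := n) (f := FR) FR_contDiff
    (fun m _ => iter_integrable m) (by exact_mod_cast le_top)
  have h4 := congrFun h3 (-v)
  have h5 : ‖𝓕 (iteratedDeriv n FR) (-v)‖ ≤ ∫ ξ, ‖iteratedDeriv n FR ξ‖ := by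
    rw [Real.fourier_real_eq]
    refine (norm_integral_le_integral_norm _).trans (le_of_eq ?_)
    refine integral_congr_ae (Eventually.of_forall fun ξ => ?_)
    simp
  have h6 : ∫ ξ, ‖iteratedDeriv n FR ξ‖ ≤ A * ((c⁻¹) ^ n * (n : ℝ) ^ (2 * n)) * J := by
    rw [hJ, ← integral_const_mul]
    exact integral_mono (iter_integrable n).norm (integrable_J.const_mul _) fun ξ => h n ξ
  rw [h4] at h5
  have h7 : ‖(2 * Real.pi * Complex.I * ((-v : ℝ) : ℂ)) ^ n • 𝓕 FR (-v)‖ =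
      (2 * Real.pi * v) ^ n * ‖uu v‖ := by
    rw [norm_smul, norm_pow, h1]
    congr 2
    simp [abs_of_pos Real.pi_pos, abs_of_pos hv]
  rw [h7] at h5
  have hpv : 0 < (2 * Real.pi * v) ^ n := by positivity
  have h8 : ‖uu v‖ ≤ A * ((c⁻¹) ^ n * (n : ℝ) ^ (2 * n)) * J / (2 * Real.pi * v) ^ n := by
    rw [le_div_iff₀ hpv]; linarith
  refine h8.trans ?_
  have h9 : A * ((c⁻¹) ^ n * (n : ℝ) ^ (2 * n)) * J / (2 * Real.pi * v) ^ n =
      A * J * ((n : ℝ) ^ 2 / (2 * Real.pi * c * v)) ^ n := by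
    rw [div_pow, pow_mul, show 2 * Real.pi * c * v = (2 * Real.pi * v) * c by ring,
      mul_pow (2 * Real.pi * v) c, inv_pow]
    have h11 : c ^ n ≠ 0 := by positivity
    field_simp
  rw [h9]
  have h10 : 0 ≤ ((n : ℝ) ^ 2 / (2 * Real.pi * c * v)) ^ n := by positivity
  nlinarith

theorem uu_decay : ∃ c C : ℝ, 0 < c ∧ 0 < C ∧ ∀ v : ℝ, 0 < v →
    ‖uu v‖ ≤ C * Real.exp (-(c * Real.sqrt v)) := by
  obtain ⟨b, A, hb, hA, h⟩ := uu_bound
  refine ⟨Real.sqrt (b / Real.exp 1), A * Real.exp 1, by positivity, by positivity,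
    fun v hv => ?_⟩
  have he := Real.exp_pos 1
  rw [← Real.sqrt_mul (by positivity)]
  set x := Real.sqrt (b / Real.exp 1 * v) with hx
  have hx0 : 0 ≤ x := Real.sqrt_nonneg _
  have hx2 : x ^ 2 = b / Real.exp 1 * v := Real.sq_sqrt (by positivity)
  set n := ⌊x⌋₊ with hn
  have hn1 : (n : ℝ) ≤ x := Nat.floor_le hx0
  have hn2 : x < n + 1 := Nat.lt_floor_add_one x
  have h1 := h v hv n
  have h2 : (n : ℝ) ^ 2 / (b * v) ≤ Real.exp (-1) := by
    rw [div_le_iff₀ (by positivity), Real.exp_neg]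
    calc (n : ℝ) ^ 2 ≤ x ^ 2 := pow_le_pow_left₀ (Nat.cast_nonneg _) hn1 2
      _ = (Real.exp 1)⁻¹ * (b * v) := by rw [hx2]; field_simp
  have h3 : ((n : ℝ) ^ 2 / (b * v)) ^ n ≤ Real.exp 1 * Real.exp (-x) := by
    calc ((n : ℝ) ^ 2 / (b * v)) ^ n ≤ Real.exp (-1) ^ n :=
          pow_le_pow_left₀ (by positivity) h2 n
      _ = Real.exp (-n) := by rw [← Real.exp_nat_mul]; congr 1; ring
      _ ≤ Real.exp (1 + -x) := Real.exp_le_exp.mpr (by linarith)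
      _ = _ := by rw [Real.exp_add]
  calc ‖uu v‖ ≤ A * ((n : ℝ) ^ 2 / (b * v)) ^ n := h1
    _ ≤ A * (Real.exp 1 * Real.exp (-x)) := mul_le_mul_of_nonneg_left h3 hA.le
    _ = _ := by ring

end Pool.Agent.TH73.J311
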