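import Pool.Agent.TH73.J311e
import Pool.Agent.TH896.RC.Stm

/-!
# The prime number theorem with the classical error term, and the bounds for `B`
-/

set_option autoImplicit false

namespace Pool.Agent.TH73.J311

open MeasureTheory Filter Topology Set
open Pool.Agent.TH896.RC

theorem PP_bound : ∃ c C : ℝ, 0 < c ∧ 0 < C ∧ ∀ v : ℝ, 0 < v →
    |PP v| ≤ C * (Real.exp v * Real.exp (-(c * Real.sqrt v))) := by
  obtain ⟨c, C, hc, hC, h⟩ := uu_decay
  refine ⟨c, C, hc, hC, fun v hv => ?_⟩
  have h1 := h v hv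
  rw [uu_eq hv, Complex.norm_real, Real.norm_eq_abs, abs_mul, abs_of_pos (Real.exp_pos _)] at h1
  have h2 : |PP v| = Real.exp v * (Real.exp (-v) * |PP v|) := by
    rw [← mul_assoc, ← Real.exp_add]; simp
  rw [h2]
  calc Real.exp v * (Real.exp (-v) * |PP v|) ≤ Real.exp v * (C * Real.exp (-(c * Real.sqrt v))) :=
        mul_le_mul_of_nonneg_left h1 (Real.exp_pos v).le
    _ = _ := by ring

theorem PP_sub (a b : ℝ) : PP b - PP a = ∫ y in a..b, E y := by
  unfold PP
  have := intervalIntegral.integral_add_adjacent_intervals (E_intervalIntegrable 0 a)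
    (E_intervalIntegrable a b)
  linarith

/-- Bounds for `E v * h` from both sides by differences of `PP`. -/
theorem E_upper (v h : ℝ) (hh : 0 ≤ h) :
    h * E v ≤ PP (v + h) - PP v + (Real.exp (v + h) - Real.exp v - h * Real.exp v) := by
  rw [PP_sub]
  have h1 : ∫ y in v..(v + h), (Chebyshev.psi (Real.exp v) - Real.exp y) ≤
      ∫ y in v..(v + h), E y := by
    refine intervalIntegral.integral_mono_on (by linarith) ?_ (E_intervalIntegrable _ _) ?_
    · exact (intervalIntegrable_const).sub (Real.continuous_exp.intervalIntegrable _ _)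
    · intro y hy
      unfold E
      have := Chebyshev.psi_mono (Real.exp_le_exp.mpr hy.1)
      linarith
  rw [intervalIntegral.integral_sub intervalIntegrable_const
    (Real.continuous_exp.intervalIntegrable _ _), intervalIntegral.integral_const,
    integral_exp, smul_eq_mul] at h1
  unfold E at h1 ⊢
  have e : (v + h - v) = h := by ring
  rw [e] at h1
  linarith

theorem E_lower (v h : ℝ) (hh : 0 ≤ h) :
    PP v - PP (v - h) + (Real.exp v - Real.exp (v - h) - h * Real.exp v) ≤ h * E v := by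
  rw [PP_sub]
  have h1 : ∫ y in (v - h)..v, E y ≤
      ∫ y in (v - h)..v, (Chebyshev.psi (Real.exp v) - Real.exp y) := by
    refine intervalIntegral.integral_mono_on (by linarith) (E_intervalIntegrable _ _) ?_ ?_
    · exact (intervalIntegrable_const).sub (Real.continuous_exp.intervalIntegrable _ _)
    · intro y hy
      unfold E
      have := Chebyshev.psi_mono (Real.exp_le_exp.mpr hy.2)
      linarith
  rw [intervalIntegral.integral_sub intervalIntegrable_const
    (Real.continuous_exp.intervalIntegrable _ _), intervalIntegral.integral_const,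
    integral_exp, smul_eq_mul] at h1
  unfold E at h1 ⊢
  have e : (v - (v - h)) = h := by ring
  rw [e] at h1
  linarith

/-- **Prime number theorem with the classical error term.** -/
theorem E_classical : ∃ c C : ℝ, 0 < c ∧ 0 < C ∧ ∀ v : ℝ, 0 ≤ v →
    |E v| ≤ C * (Real.exp v * Real.exp (-(c * Real.sqrt v))) := by
  obtain ⟨c, C, hc, hC, hP⟩ := PP_bound
  obtain ⟨C0, hC0⟩ := Pool.Agent.TH949.J305.E_bound
  -- WLOG a small constant
  set d := c / 4 with hd
  have hd0 : 0 < d := by positivity
  refine ⟨d, 8 * C + 2 + |C0| * Real.exp (2 * d), hd0, by positivity, fun v hv => ?_⟩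
  have hexv := Real.exp_pos v
  set X := Real.exp v * Real.exp (-(d * Real.sqrt v)) with hX
  have hX0 : 0 < X := by positivity
  rcases le_or_gt v 4 with hv4 | hv4
  · -- small `v`
    have h1 := hC0 v hv
    have hs : Real.sqrt v ≤ 2 := by
      rw [show (2 : ℝ) = Real.sqrt 4 by
        rw [show (4 : ℝ) = 2 ^ 2 by norm_num, Real.sqrt_sq (by norm_num)]]
      exact Real.sqrt_le_sqrt hv4
    have h2 : Real.exp v ≤ Real.exp (2 * d) * X := by
      rw [hX, ← Real.exp_add, ← Real.exp_add]
      refine Real.exp_le_exp.mpr ?_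
      nlinarith
    calc |E v| ≤ |C0| * Real.exp v := h1.trans (mul_le_mul_of_nonneg_right (le_abs_self _) hexv.le)
      _ ≤ |C0| * (Real.exp (2 * d) * X) := mul_le_mul_of_nonneg_left h2 (abs_nonneg _)
      _ ≤ (8 * C + 2 + |C0| * Real.exp (2 * d)) * X := by
          have : 0 ≤ (8 * C + 2) * X := by positivity
          linarith
  -- large `v`
  set h := Real.exp (-(d * Real.sqrt v)) with hh
  have hh0 : 0 < h := Real.exp_pos _
  have hh1 : h ≤ 1 := by
    rw [hh, Real.exp_le_one_iff]
    have : 0 ≤ d * Real.sqrt v := by positivity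
    linarith
  have hXh : X = Real.exp v * h := rfl
  -- sizes of `PP` near `v`
  have hsize : ∀ w : ℝ, v - 1 ≤ w → w ≤ v + 1 → |PP w| ≤ 4 * C * (Real.exp v * h ^ 2) := by
    intro w hw1 hw2
    have hw0 : 0 < w := by linarith
    have h1 := hP w hw0
    have h2 : Real.exp w ≤ 4 * Real.exp v := by
      calc Real.exp w ≤ Real.exp (1 + v) := Real.exp_le_exp.mpr (by linarith)
        _ = Real.exp 1 * Real.exp v := Real.exp_add _ _
        _ ≤ 4 * Real.exp v := by
            have := Real.exp_one_lt_d9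
            nlinarith
    have hs : Real.sqrt v ≤ 2 * Real.sqrt w := by
      have : (2 : ℝ) * Real.sqrt w = Real.sqrt (4 * w) := by
        rw [Real.sqrt_mul (by norm_num), show (4 : ℝ) = 2 ^ 2 by norm_num,
          Real.sqrt_sq (by norm_num)]
      rw [this]
      exact Real.sqrt_le_sqrt (by linarith)
    have h3 : Real.exp (-(c * Real.sqrt w)) ≤ h ^ 2 := by
      rw [hh, ← Real.exp_nat_mul]
      refine Real.exp_le_exp.mpr ?_
      rw [hd]
      push_cast
      nlinarith
    calc |PP w| ≤ C * (Real.exp w * Real.exp (-(c * Real.sqrt w))) := h1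
      _ ≤ C * ((4 * Real.exp v) * h ^ 2) := by gcongr
      _ = _ := by ring
  have hmain : h * |E v| ≤ h * ((8 * C + 2) * X) := by
    have hq : Real.exp h - 1 - h ≤ h ^ 2 := by
      have := Real.abs_exp_sub_one_sub_id_le (x := h) (by rw [abs_of_pos hh0]; exact hh1)
      exact (le_abs_self _).trans this
    have hq2 : Real.exp (-h) - 1 + h ≤ h ^ 2 := by
      have := Real.abs_exp_sub_one_sub_id_le (x := -h) (by rw [abs_neg, abs_of_pos hh0]; exact hh1)
      have h2 := (le_abs_self _).trans this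
      rw [neg_sq] at h2
      linarith
    have p0 := hsize v (by linarith) (by linarith)
    have p1 := hsize (v + h) (by linarith) (by linarith)
    have p2 := hsize (v - h) (by linarith) (by linarith)
    have u := E_upper v h hh0.le
    have l := E_lower v h hh0.le
    have e1 : Real.exp (v + h) = Real.exp v * Real.exp h := Real.exp_add _ _
    have e2 : Real.exp (v - h) = Real.exp v * Real.exp (-h) := by
      rw [sub_eq_add_neg, Real.exp_add]
    rw [e1] at u
    rw [e2] at l
    rw [abs_le] at p0 p1 p2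
    have f1 := mul_le_mul_of_nonneg_left hq hexv.le
    have f2 := mul_le_mul_of_nonneg_left hq2 hexv.le
    have hE : h * |E v| = |h * E v| := by rw [abs_mul, abs_of_pos hh0]
    rw [hE, abs_le, hXh]
    have hsq : h * ((8 * C + 2) * (Real.exp v * h)) = (8 * C + 2) * (Real.exp v * h ^ 2) := by ring
    rw [hsq]
    have hpos : 0 ≤ Real.exp v * h ^ 2 := by positivity
    constructor <;> nlinarith
  have h5 := le_of_mul_le_mul_left hmain hh0
  have h6 : 0 ≤ |C0| * Real.exp (2 * d) * X := by positivity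
  linarith

/-- `√` type exponentials are integrable. -/
theorem sqrt_exp_int (c : ℝ) (hc : 0 < c) :
    IntegrableOn (fun y : ℝ => Real.exp (-(c * Real.sqrt y))) (Ioi 1) := by
  -- `exp (-c √y) ≤ (4! / c^4) / y^2`
  have hdom : IntegrableOn (fun y : ℝ => 24 / c ^ 4 * y ^ (-2 : ℝ)) (Ioi 1) :=
    (integrableOn_Ioi_rpow_of_lt (by norm_num) one_pos).const_mul _
  refine hdom.mono' (by fun_prop) ?_
  refine (ae_restrict_iff' measurableSet_Ioi).mpr (Eventually.of_forall fun y hy => ?_)
  have hy0 : (0 : ℝ) < y := lt_trans one_pos hy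
  rw [Real.norm_of_nonneg (Real.exp_pos _).le]
  have h1 := Real.pow_div_factorial_le_exp (c * Real.sqrt y) (by positivity) 4
  have h2 : (c * Real.sqrt y) ^ 4 = c ^ 4 * y ^ 2 := by
    rw [mul_pow, show (4 : ℕ) = 2 * 2 by norm_num, pow_mul (Real.sqrt y), Real.sq_sqrt hy0.le]
  have h3 : ((Nat.factorial 4 : ℕ) : ℝ) = 24 := by norm_num [Nat.factorial]
  rw [h2, h3] at h1
  rw [Real.exp_neg, Real.rpow_neg hy0.le, Real.rpow_two]
  calc (Real.exp (c * Real.sqrt y))⁻¹ ≤ (c ^ 4 * y ^ 2 / 24)⁻¹ := inv_anti₀ (by positivity) h1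
    _ = 24 / c ^ 4 * (y ^ 2)⁻¹ := by field_simp

theorem bup2 : ∃ c C : ℝ, 0 < c ∧ ∀ v : ℝ, 1 ≤ v → |B v| ≤ C * Real.exp (-(c * Real.sqrt v)) := by
  obtain ⟨c, C, hc, hC, hE⟩ := E_classical
  set c' := c / 2 with hc'
  have hc0 : 0 < c' := by positivity
  have hint := sqrt_exp_int c' hc0
  set J := ∫ y in Ioi (1 : ℝ), Real.exp (-(c' * Real.sqrt y)) with hJ
  refine ⟨c', 2 * C * J, hc0, fun v hv => ?_⟩
  have hv0 : 0 < v := by linarith
  obtain ⟨h1, h2⟩ := bk v hv0
  rw [h2, abs_neg]
  have hsub : Ioi v ⊆ Ioi (1 : ℝ) := Ioi_subset_Ioi hv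
  have hdom : IntegrableOn (fun y : ℝ => 2 * C * Real.exp (-(c' * Real.sqrt v)) *
      Real.exp (-(c' * Real.sqrt y))) (Ioi v) := (hint.mono_set hsub).const_mul _
  have h3 : ‖∫ y in Ioi v, E y * Real.exp (-y) * lam y‖ ≤
      ∫ y in Ioi v, 2 * C * Real.exp (-(c' * Real.sqrt v)) * Real.exp (-(c' * Real.sqrt y)) := by
    refine norm_integral_le_of_norm_le hdom ?_
    refine (ae_restrict_iff' measurableSet_Ioi).mpr (Eventually.of_forall fun y hy => ?_)
    have hy1 : 1 ≤ y := hv.trans (le_of_lt hy)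
    have hy0 : 0 ≤ y := by linarith
    obtain ⟨l0, l2⟩ := lam_le_two hy1
    rw [Real.norm_eq_abs, abs_mul, abs_mul, abs_of_pos (Real.exp_pos _), abs_of_nonneg l0]
    have hs : Real.sqrt v ≤ Real.sqrt y := Real.sqrt_le_sqrt (le_of_lt hy)
    calc |E y| * Real.exp (-y) * lam y
        ≤ (C * (Real.exp y * Real.exp (-(c * Real.sqrt y)))) * Real.exp (-y) * 2 := by
          gcongr
          exact hE y hy0
      _ = 2 * C * Real.exp (-(c * Real.sqrt y)) * (Real.exp y * Real.exp (-y)) := by ring
      _ = 2 * C * Real.exp (-(c * Real.sqrt y)) := by rw [← Real.exp_add y (-y)]; simp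
      _ ≤ 2 * C * (Real.exp (-(c' * Real.sqrt v)) * Real.exp (-(c' * Real.sqrt y))) := by
          rw [← Real.exp_add (-(c' * Real.sqrt v))]
          gcongr
          rw [hc']
          nlinarith
      _ = _ := by ring
  rw [Real.norm_eq_abs] at h3
  refine h3.trans ?_
  rw [integral_const_mul]
  have h4 : ∫ y in Ioi v, Real.exp (-(c' * Real.sqrt y)) ≤ J :=
    setIntegral_mono_set hint (Eventually.of_forall fun y => (Real.exp_pos _).le)
      (Eventually.of_forall hsub)
  calc 2 * C * Real.exp (-(c' * Real.sqrt v)) * ∫ y in Ioi v, Real.exp (-(c' * Real.sqrt y))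
      ≤ 2 * C * Real.exp (-(c' * Real.sqrt v)) * J := by gcongr
    _ = _ := by ring

/-- JOB 311 -/
theorem bk_bup : S_BK ∧ S_BUP := ⟨bk, fun C θ hθ hE => bup1 C θ hθ hE, bup2⟩

end Pool.Agent.TH73.J311
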