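import Pool.Agent.TH614.HS.Base

/-!
# Project HS, piece SPM: multiplicities at a special point
-/

set_option autoImplicit false

namespace Pool.Agent.TH73.J3909

open Polynomial Pool.Agent.TH614.HS

variable {L : Type} [Field L]

theorem poly_ne (D : HD L) : (X ^ D.q - X : L[X]) ≠ 0 := by
  have h : 1 < D.q := by have := D.h5; omega
  exact FiniteField.X_pow_card_sub_X_ne_zero L h

theorem mem_kset (D : HD L) {l : L} (h : l ∈ kset D) : l ^ D.q = l := by
  classical
  unfold kset at h
  rw [Multiset.mem_toFinset, mem_roots (poly_ne D)] at h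
  have h2 : (X ^ D.q - X : L[X]).eval l = 0 := h
  simp only [eval_sub, eval_pow, eval_X] at h2
  exact sub_eq_zero.1 h2

theorem card_kset [IsAlgClosed L] (D : HD L) : (kset D).card = D.q := by
  classical
  have h1 : 1 < D.q := by have := D.h5; omega
  have hsep : (X ^ D.q - X : L[X]).Separable := by
    rw [separable_def]
    have : derivative (X ^ D.q - X : L[X]) = -1 := by
      rw [derivative_sub, derivative_X_pow, derivative_X, D.qz]
      simp
    rw [this]
    exact isCoprime_one_right.neg_right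
  unfold kset
  rw [Multiset.toFinset_card_of_nodup (nodup_roots hsep)]
  have h2 := (splits_iff_card_roots.1 (IsAlgClosed.splits (X ^ D.q - X : L[X])))
  rw [h2, FiniteField.X_pow_card_sub_X_natDegree_eq L h1]

/-- A generator through a special point is ramified there. -/
theorem ram (D : HD L) [IsAlgClosed L] (hDICH : S_DICH) (hSP3 : S_SP3) {P Y s x : L}
    (hs : s ≠ 0) (hP : P ≠ 0) (hx : D.isL x) (hm : D.mem x P Y) (hsp : D.Spc s P Y) :
    (D.Phi x).eval s = 0 ∧ (D.Phi x).rootMultiplicity s = 3 := by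
  obtain ⟨h0, h1⟩ := hSP3 L D s P Y x hs hP hx hm hsp
  obtain ⟨d1, -, d3⟩ := hDICH L D x s hx
  rcases d1 h0 with ⟨mu, eta, e, be, g, rho, h⟩ | ⟨mu, eta, be, g, ep, h⟩
  · exact absurd (h1 mu eta h.1) h.2.1
  · exact (d3 mu eta be g ep h).2

theorem sgS_eq (D : HD L) {s x : L} (h : (D.Phi x).eval s = 0 ∧ (D.Phi x).rootMultiplicity s = 3) :
    sgS D x s = sgL D x := by
  unfold sgS
  rw [if_neg (by simpa using h.1), if_neg (by rw [h.2]; norm_num)]

/-- The other generators of the pencil. -/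
theorem gen (D : HD L) [IsAlgClosed L] (hPEN : S_PEN) {P Y a b : L} (hI : D.Iso P Y) (hP : P ≠ 0)
    (ha : D.isL a) (hb : D.isL b) (hma : D.mem a P Y) (hmb : D.mem b P Y)
    (hind : ∀ u v, u ^ D.q = u → v ^ D.q = v → u * a + v * b = 0 → u = 0 ∧ v = 0)
    {l : L} (hl : l ^ D.q = l) : D.isL (a + l * b) ∧ D.mem (a + l * b) P Y := by
  obtain ⟨-, a1, b1, -, -, -, -, -, h1, h2⟩ := hPEN L D P Y hI (Or.inl hP)
  obtain ⟨u, v, hu, hv, e1⟩ := h1 a ha hma
  obtain ⟨u', v', hu', hv', e2⟩ := h1 b hb hmb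
  have hne : a + l * b ≠ 0 := by
    intro h0
    have := hind 1 l (one_pow _) hl (by rw [one_mul]; exact h0)
    exact one_ne_zero this.1
  have e3 : a + l * b = (u + l * u') * a1 + (v + l * v') * b1 := by
    rw [e1, e2]; ring
  have hU : (u + l * u') ^ D.q = u + l * u' := by
    rw [D.add, mul_pow, hu, hl, hu']
  have hV : (v + l * v') ^ D.q = v + l * v' := by
    rw [D.add, mul_pow, hv, hl, hv']
  rw [e3]
  apply h2 _ _ hU hV
  rw [← e3]
  exact hne

theorem ne_of_mult {f : L[X]} {s : L} (h : f.rootMultiplicity s = 3) : f ≠ 0 := by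
  rintro rfl
  simp at h

theorem prod_mult {ι : Type} (t : Finset ι) (f : ι → L[X]) (s : L)
    (h : ∀ i ∈ t, (f i).rootMultiplicity s = 3) :
    (∏ i ∈ t, f i) ≠ 0 ∧ (∏ i ∈ t, f i).rootMultiplicity s = 3 * t.card := by
  classical
  induction t using Finset.induction_on with
  | empty => simp
  | insert i t hi ih =>
    obtain ⟨ih1, ih2⟩ := ih (fun j hj => h j (Finset.mem_insert_of_mem hj))
    have h3 := h i (Finset.mem_insert_self _ _)
    have hne : f i * ∏ i ∈ t, f i ≠ 0 := mul_ne_zero (ne_of_mult h3) ih1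
    rw [Finset.prod_insert hi]
    refine ⟨hne, ?_⟩
    rw [rootMultiplicity_mul hne, h3, ih2, Finset.card_insert_of_notMem hi]
    ring

theorem SPM : S_PROD → S_PEN → S_DICH → S_RT → S_SP2 → S_SP3 → S_DEG → S_SPM := by
  intro hPROD hPEN hDICH _ hSP2 hSP3 hDEG L _ _ D P Y a b s hI hP ha hb hma hmb hind hs hsp
  have hgen : ∀ l ∈ kset D, D.isL (a + l * b) ∧ D.mem (a + l * b) P Y := fun l hl =>
    gen D hPEN hI hP ha hb hma hmb hind (mem_kset D hl)
  have hrb := ram D hDICH hSP3 hs hP hb hmb hsp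
  have hrl : ∀ l ∈ kset D, (D.Phi (a + l * b)).eval s = 0 ∧
      (D.Phi (a + l * b)).rootMultiplicity s = 3 := fun l hl =>
    ram D hDICH hSP3 hs hP (hgen l hl).1 (hgen l hl).2 hsp
  obtain ⟨-, -, huniq, U, hU, hUe⟩ := hSP2 L D s P Y hs hP hI.1 hsp
  refine ⟨?_, sgS_eq D hrb, fun l hl => sgS_eq D (hrl l hl), ?_⟩
  · obtain ⟨κ, hκ, hprod⟩ := hPROD L D P Y a b hI hP ha hb hma hmb hind
    have hG1 : D.G 1 P Y ≠ 0 := by
      intro h0
      have := (hDEG L D 1 P Y (Or.inl rfl) hP).2
      rw [h0] at this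
      simp at this
    have hG2 : D.G (-1) P Y ≠ 0 := by
      intro h0
      have := (hDEG L D (-1) P Y (Or.inr rfl) hP).2
      rw [h0] at this
      simp at this
    obtain ⟨hp1, hp2⟩ := prod_mult (kset D) (fun l => D.Phi (a + l * b)) s
      (fun l hl => (hrl l hl).2)
    have hsum : (D.G 1 P Y).rootMultiplicity s + (D.G (-1) P Y).rootMultiplicity s =
        3 * (D.q + 1) := by
      rw [← rootMultiplicity_mul (mul_ne_zero hG1 hG2), hprod]
      have hne2 : D.Phi b * ∏ l ∈ kset D, D.Phi (a + l * b) ≠ 0 :=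
        mul_ne_zero (ne_of_mult hrb.2) hp1
      rw [rootMultiplicity_mul (mul_ne_zero (C_ne_zero.2 hκ) hne2), rootMultiplicity_C,
        rootMultiplicity_mul hne2, hrb.2, hp2, card_kset D]
      ring
    have hdiff : D.G 1 P Y - D.G (-1) P Y =
        (X - C s) ^ (3 * ((D.q + 1) / 2)) * (-C 4 * U) := by
      have e1 : D.G 1 P Y - D.G (-1) P Y =
          -C 4 * (X ^ ((D.q + 1) / 2) * D.CC P Y ^ ((D.q + 1) / 2)
            - D.CD P Y ^ ((D.q + 1) / 2)) := by
        unfold HD.G
        have e2 : (C (2 * (1 : L)) : L[X]) = C 2 := by rw [mul_one]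
        have e3 : (C (2 * (-1 : L)) : L[X]) = -C 2 := by rw [mul_neg, mul_one, C_neg]
        have e4 : (C (4 : L) : L[X]) = C 2 + C 2 := by rw [← C_add]; norm_num
        rw [e2, e3, e4]
        ring
      rw [e1, hUe]
      ring
    have hm : 2 * ((D.q + 1) / 2) = D.q + 1 := by
      have := D.h4
      omega
    set m := (D.q + 1) / 2 with hmdef
    have hdvd : (X - C s) ^ (3 * m) ∣ D.G 1 P Y - D.G (-1) P Y := ⟨_, hdiff⟩
    have h1 : 3 * m ≤ (D.G 1 P Y).rootMultiplicity s := by
      by_contra hlt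
      have h2 : 3 * m ≤ (D.G (-1) P Y).rootMultiplicity s := by omega
      rw [le_rootMultiplicity_iff hG2] at h2
      apply hlt
      rw [le_rootMultiplicity_iff hG1]
      have := dvd_add hdvd h2
      rwa [sub_add_cancel] at this
    have h2 : 3 * m ≤ (D.G (-1) P Y).rootMultiplicity s := by
      by_contra hlt
      rw [le_rootMultiplicity_iff hG1] at h1
      apply hlt
      rw [le_rootMultiplicity_iff hG2]
      have := dvd_sub h1 hdvd
      rwa [sub_sub_cancel] at this
    omega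
  · intro s' hs' hne hsp'
    exact hne (huniq s' hs' hsp')

end Pool.Agent.TH73.J3909
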