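import Pool.Agent.TH927.CM.Defs
import Pool.Agent.W280.MO.ES

set_option autoImplicit false

/-!
# CM-ES: the Euler product sum is small, completely multiplicative version
-/

namespace Pool.Agent.TH73.J783

open Finset Filter Topology
open scoped Classical
open Pool.Agent.W76.MO
open Pool.Agent.TH927.CM

lemma mprod_mul_fun (v w : ℕ → ℝ) (n : ℕ) :
    mprod (fun p => v p * w p) n = mprod v n * mprod w n := by
  unfold mprod
  induction n.primeFactorsList with
  | nil => simp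
  | cons a l ih => simp only [List.map_cons, List.prod_cons, ih]; ring

lemma mprod_congr {v w : ℕ → ℝ} {n : ℕ} (h : ∀ p ∈ n.primeFactorsList, v p = w p) :
    mprod v n = mprod w n := by
  unfold mprod
  rw [List.map_congr_left h]

lemma mprod_rpow (s : ℝ) {n : ℕ} (hn : n ≠ 0) : mprod (fun p => (p : ℝ) ^ s) n = (n : ℝ) ^ s := by
  have h : ∀ l : List ℕ, (l.map (fun p : ℕ => (p : ℝ) ^ s)).prod = ((l.prod : ℕ) : ℝ) ^ s := by
    intro l
    induction l with
    | nil => simp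
    | cons a l ih =>
      rw [List.map_cons, List.prod_cons, List.prod_cons, ih, Nat.cast_mul,
        Real.mul_rpow (by positivity) (by positivity)]
  unfold mprod
  rw [h, Nat.prod_primeFactorsList hn]

/-- the Euler product bound -/
lemma euler_le (a : ℕ → ℝ) (ha : ∀ p, 0 ≤ a p) (P : Finset ℕ) (hP : ∀ p ∈ P, p.Prime)
    (ha1 : ∀ p ∈ P, a p < 1) (F : Finset ℕ) (hF : ∀ t ∈ F, 2 ≤ t ∧ ∀ p ∈ t.primeFactorsList, p ∈ P) :
    ∑ t ∈ F, mprod a t ≤ (∏ p ∈ P, (1 - a p)⁻¹) - 1 := by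
  let a' : ℕ → ℝ := fun p => if p ∈ P then a p else 0
  have ha'0 : ∀ p, 0 ≤ a' p := by
    intro p
    show 0 ≤ (if p ∈ P then a p else 0)
    split_ifs
    · exact ha p
    · exact le_rfl
  let f : ℕ →* ℝ :=
    { toFun := fun n => if n = 0 then 0 else mprod a' n
      map_one' := by simp [mprod_one]
      map_mul' := by
        intro m n
        by_cases hm : m = 0
        · simp [hm]
        by_cases hn : n = 0
        · simp [hn]
        rw [if_neg (mul_ne_zero hm hn), if_neg hm, if_neg hn, mprod_mul a' hm hn] }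
  have hf0 : ∀ n, 0 ≤ f n := by
    intro n
    show 0 ≤ (if n = 0 then 0 else mprod a' n)
    split_ifs
    · exact le_rfl
    · exact mprod_nonneg _ ha'0 _
  have hfp : ∀ p : ℕ, p.Prime → f p = a' p := by
    intro p hp
    show (if p = 0 then 0 else mprod a' p) = a' p
    rw [if_neg hp.ne_zero, mprod_prime a' hp]
  have h1 : ∀ {p : ℕ}, p.Prime → ‖f p‖ < 1 := by
    intro p hp
    rw [hfp p hp, Real.norm_of_nonneg (ha'0 p)]
    show (if p ∈ P then a p else 0) < 1
    split_ifs with h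
    · exact ha1 p h
    · exact one_pos
  obtain ⟨-, h2⟩ := EulerProduct.summable_and_hasSum_factoredNumbers_prod_filter_prime_geometric
    (f := f) h1 P
  have h3 : ∏ p ∈ P with Nat.Prime p, (1 - f p)⁻¹ = ∏ p ∈ P, (1 - a p)⁻¹ := by
    rw [Finset.filter_true_of_mem hP]
    refine Finset.prod_congr rfl fun p hp => ?_
    rw [hfp p (hP p hp)]
    show (1 - (if p ∈ P then a p else 0))⁻¹ = _
    rw [if_pos hp]
  rw [h3] at h2
  have hFm : ∀ t ∈ insert 1 F, t ∈ Nat.factoredNumbers P := by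
    intro t ht
    rw [Nat.mem_factoredNumbers]
    rcases Finset.mem_insert.1 ht with rfl | ht
    · simp
    · exact ⟨by have := (hF t ht).1; omega, (hF t ht).2⟩
  have h4 := sum_le_hasSum ((insert 1 F).subtype (· ∈ Nat.factoredNumbers P))
    (fun i _ => hf0 _) h2
  rw [Finset.sum_subtype_of_mem (fun t => f t) hFm] at h4
  have h1F : 1 ∉ F := fun h => by have := (hF 1 h).1; omega
  rw [Finset.sum_insert h1F, map_one] at h4
  have h5 : ∑ t ∈ F, mprod a t = ∑ t ∈ F, f t := by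
    refine Finset.sum_congr rfl fun t ht => ?_
    show _ = (if t = 0 then 0 else mprod a' t)
    rw [if_neg (by have := (hF t ht).1; omega)]
    refine mprod_congr fun p hp => ?_
    show a p = (if p ∈ P then a p else 0)
    rw [if_pos ((hF t ht).2 p hp)]
  rw [h5]
  linarith

lemma inv_le_exp {a : ℝ} (h0 : 0 ≤ a) (h1 : a ≤ 1 / 2) : (1 - a)⁻¹ ≤ Real.exp (2 * a) := by
  have h2 : 0 < 1 - a := by linarith
  rw [inv_le_iff_one_le_mul₀ h2]
  have h3 := Real.add_one_le_exp (2 * a)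
  nlinarith

theorem ES_c : Pool.Agent.TH927.CM.T_ESc := by
  intro E hGB η hη
  obtain ⟨J, hJ1, hJ⟩ := hGB
  set ε := min 1 η / 8 with hε
  have hm : 0 < min 1 η := lt_min one_pos hη
  have hε0 : 0 < ε := by positivity
  obtain ⟨R₀, hR₀⟩ := Pool.Agent.W280.MO.tail_small E.hδ hε0
  refine ⟨R₀, fun R hR => ?_⟩
  obtain ⟨J', hJ'⟩ := exists_nat_gt (4 / ε)
  refine ⟨max J J', fun j hj M => ?_⟩
  obtain ⟨-, hgu, hgh, -, -, -, -, hsh, hsu⟩ := hJ j ((le_max_left _ _).trans hj)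
  have hj0 : (0 : ℝ) < j := by
    have : 1 ≤ j := hJ1.trans ((le_max_left _ _).trans hj)
    exact_mod_cast this
  have hjε : 4 / (j : ℝ) ≤ ε := by
    have h1 : (J' : ℝ) ≤ j := by exact_mod_cast (le_max_right _ _).trans hj
    have h2 : 4 / ε < j := hJ'.trans_le h1
    rw [div_lt_iff₀ hε0] at h2
    rw [div_le_iff₀ hj0]
    linarith
  set a : ℕ → ℝ := fun p => (1 + 2 * (p * E.g j p)) * (p : ℝ) ^ (-1 - E.δ / 2) with ha
  have hg0 : ∀ p, 0 ≤ E.g j p := fun p => add_nonneg (hgu p) (hgh p)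
  have ha0 : ∀ p, 0 ≤ a p := fun p =>
    mul_nonneg (by have := hg0 p; positivity) (Real.rpow_nonneg (by positivity) _)
  set P : Finset ℕ := (Icc R M).filter Nat.Prime with hP
  -- the sum of the `a p`
  have hsum : ∑ p ∈ P, a p ≤ 2 * ε := by
    have h1 : ∑ p ∈ P, (p : ℝ) ^ (-1 - E.δ / 2) ≤ ε := hR₀ P (fun p hp => by
      rw [hP, mem_filter, mem_Icc] at hp
      exact hR.trans hp.1.1)
    have h2 : ∀ p ∈ P, a p ≤ (p : ℝ) ^ (-1 - E.δ / 2) + 2 * (E.gu j p * (p : ℝ) ^ (-E.δ / 2)) +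
        2 * ((p * E.gh j p) * (p : ℝ) ^ (-1 + E.τ / 4)) := by
      intro p hp
      rw [hP, mem_filter] at hp
      have hp1 : (1 : ℝ) ≤ p := by exact_mod_cast hp.2.one_lt.le
      have hp0 : (0 : ℝ) < p := by linarith
      have e1 : (p : ℝ) * (p : ℝ) ^ (-1 - E.δ / 2) = (p : ℝ) ^ (-E.δ / 2) := by
        nth_rewrite 1 [← Real.rpow_one (p : ℝ)]
        rw [← Real.rpow_add hp0]
        congr 1; ring
      have e2 : (p : ℝ) ^ (-1 - E.δ / 2) ≤ (p : ℝ) ^ (-1 + E.τ / 4) :=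
        Real.rpow_le_rpow_of_exponent_le hp1 (by have := E.hδ; have := E.hτ; linarith)
      have e3 : a p = (p : ℝ) ^ (-1 - E.δ / 2) +
          2 * (E.gu j p * ((p : ℝ) * (p : ℝ) ^ (-1 - E.δ / 2))) +
          2 * ((p * E.gh j p) * (p : ℝ) ^ (-1 - E.δ / 2)) := by
        simp only [ha, Env.g]; ring
      rw [e3, e1]
      have e4 : (p * E.gh j p) * (p : ℝ) ^ (-1 - E.δ / 2) ≤
          (p * E.gh j p) * (p : ℝ) ^ (-1 + E.τ / 4) :=
        mul_le_mul_of_nonneg_left e2 (mul_nonneg hp0.le (hgh p))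
      linarith
    refine (Finset.sum_le_sum h2).trans ?_
    rw [Finset.sum_add_distrib, Finset.sum_add_distrib, ← Finset.mul_sum, ← Finset.mul_sum]
    have h3 := hsu P
    have h4 := hsh P
    have h5 : 4 / (j : ℝ) = 4 * (1 / j) := by ring
    linarith
  -- the terms
  have hterm : ∀ t ∈ (Icc 2 M).filter (fun t => Rough R t),
      Ec E j t / t * (t : ℝ) ^ (-E.δ / 2) = mprod a t := by
    intro t ht
    rw [mem_filter, mem_Icc] at ht
    obtain ⟨⟨ht2, htM⟩, hro⟩ := ht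
    have htn : t ≠ 0 := by omega
    have ht0 : (0 : ℝ) < t := by
      have : 0 < t := by omega
      exact_mod_cast this
    have e2 : Ec E j t / t * (t : ℝ) ^ (-E.δ / 2) = Ec E j t * (t : ℝ) ^ (-1 - E.δ / 2) := by
      have e3 : (t : ℝ) ^ (-1 - E.δ / 2) = (t : ℝ)⁻¹ * (t : ℝ) ^ (-E.δ / 2) := by
        rw [← Real.rpow_neg_one, ← Real.rpow_add ht0]
        congr 1; ring
      rw [e3]; ring
    rw [e2, ← mprod_rpow _ htn, Ec, ← mprod_mul_fun]
  rw [Finset.sum_congr rfl hterm]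
  have hmin1 : min 1 η ≤ 1 := min_le_left _ _
  have hmin2 : min 1 η ≤ η := min_le_right _ _
  have hs0 : 0 ≤ ∑ p ∈ P, a p := Finset.sum_nonneg fun p _ => ha0 p
  have hs1 : 2 * ∑ p ∈ P, a p ≤ 1 := by
    have : 2 * (2 * ε) ≤ 1 := by rw [hε]; linarith
    linarith
  have hap : ∀ p ∈ P, a p ≤ 1 / 2 := by
    intro p hp
    have := Finset.single_le_sum (f := a) (fun q _ => ha0 q) hp
    linarith
  have hPp : ∀ p ∈ P, p.Prime := fun p hp => by
    rw [hP, mem_filter] at hp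
    exact hp.2
  have hF : ∀ t ∈ (Icc 2 M).filter (fun t => Rough R t),
      2 ≤ t ∧ ∀ p ∈ t.primeFactorsList, p ∈ P := by
    intro t ht
    rw [mem_filter, mem_Icc] at ht
    obtain ⟨⟨ht2, htM⟩, hro⟩ := ht
    refine ⟨ht2, fun p hp => ?_⟩
    have hpp := Nat.prime_of_mem_primeFactorsList hp
    have hpd := Nat.dvd_of_mem_primeFactorsList hp
    rw [hP, mem_filter, mem_Icc]
    refine ⟨⟨?_, ?_⟩, hpp⟩
    · have := hro p hpp hpd
      exact_mod_cast this
    · exact (Nat.le_of_dvd (by omega) hpd).trans htM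
  refine (euler_le a ha0 P hPp (fun p hp => by linarith [hap p hp]) _ hF).trans ?_
  have h4 : ∏ p ∈ P, (1 - a p)⁻¹ ≤ Real.exp (2 * ∑ p ∈ P, a p) := by
    rw [Finset.mul_sum, Real.exp_sum]
    refine Finset.prod_le_prod (fun p hp => ?_) (fun p hp => inv_le_exp (ha0 p) (hap p hp))
    exact inv_nonneg.2 (by linarith [hap p hp])
  have h5 := Real.abs_exp_sub_one_le (x := 2 * ∑ p ∈ P, a p)
    (by rw [abs_of_nonneg (by positivity)]; exact hs1)
  rw [abs_of_nonneg (by positivity : 0 ≤ 2 * ∑ p ∈ P, a p)] at h5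
  have h6 := (le_abs_self _).trans h5
  have h7 : 2 * (2 * (2 * ε)) ≤ η := by rw [hε]; linarith
  linarith

end Pool.Agent.TH73.J783
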