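import Pool.Agent.TH123.Log.Kummer
import Pool.Agent.TH73.K438.Alg

/-!
# Exactness of the Kummer sequence over `ℚ`
-/

open CategoryTheory Limits Opposite Abelian AlgebraicGeometry

set_option autoImplicit false
set_option backward.isDefEq.respectTransparency false

noncomputable section

namespace Pool.Agent.TH123

open Pool.Agent.W487 Pool.Agent.TH73.K438

lemma mulGm_app (m : ℕ) {T : Over SQ} (a : (Gm SQ).obj.obj (op T)) :
    (mulGm m).hom.app (op T) a = m • a := by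
  induction m with
  | zero =>
    have h : mulGm 0 = 0 := zero_smul _ _
    rw [h, zero_smul]
    rfl
  | succ k ih =>
    have h : mulGm (k + 1) = mulGm k + 𝟙 (Gm SQ) := succ_nsmul _ _
    rw [h, succ_nsmul, ← ih]
    rfl

/-- the section of the multiplicative group given by an invertible function -/
def uS {T : Over SQ} (u : Γ(T.left, ⊤)ˣ) : (Gm SQ).obj.obj (op T) :=
  ULift.up (Additive.ofMul u)

lemma uS_surj {T : Over SQ} (b : (Gm SQ).obj.obj (op T)) : ∃ u : Γ(T.left, ⊤)ˣ, uS u = b :=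
  ⟨Additive.toMul (ULift.down (b : ULift.{1} (Additive Γ(T.left, ⊤)ˣ))), rfl⟩

lemma uS_map {T T' : Over SQ} (g : T' ⟶ T) (u : Γ(T.left, ⊤)ˣ) :
    (Gm SQ).obj.map g.op (uS u) =
      uS (Units.map (g.left.appTop.hom : Γ(T.left, ⊤) →* Γ(T'.left, ⊤)) u) := rfl

lemma uS_pow {T : Over SQ} (m : ℕ) (u : Γ(T.left, ⊤)ˣ) : uS (u ^ m) = m • uS u := by
  induction m with
  | zero =>
    rw [zero_smul, pow_zero]
    rfl
  | succ k ih =>
    rw [succ_nsmul, ← ih, pow_succ]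
    rfl

/-- the integer `m` is invertible in a ring whose spectrum maps to `Spec ℚ` -/
lemma isUnit_of_toSQ {R : CommRingCat.{0}} (f : Spec R ⟶ SQ) {m : ℕ} (hm : m ≠ 0) :
    IsUnit (m : R) := by
  have h : IsUnit (m : ℚ) := IsUnit.mk0 _ (by exact_mod_cast hm)
  have h2 := h.map (Spec.preimage f).hom
  simpa using h2

/-- the unit on a chart -/
def chU {T : Over SQ} (u : Γ(T.left, ⊤)ˣ) {R : CommRingCat.{0}} (j : Spec R ⟶ T.left) : Rˣ :=
  Units.map (ofG R : Γ(Spec (.of R), ⊤) →* R)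
    (Units.map (j.appTop.hom : Γ(T.left, ⊤) →* Γ(Spec R, ⊤)) u)

/-- the root cover of a chart -/
def chX {T : Over SQ} (m : ℕ) (u : Γ(T.left, ⊤)ˣ) {R : CommRingCat.{0}} (j : Spec R ⟶ T.left) :
    Over SQ :=
  Over.mk ((Spec.map (CommRingCat.ofHom (algebraMap R (KB m (chU u j)))) ≫ j) ≫ T.hom)

/-- the root cover of a chart -/
def chf {T : Over SQ} (m : ℕ) (u : Γ(T.left, ⊤)ˣ) {R : CommRingCat.{0}} (j : Spec R ⟶ T.left) :
    chX m u j ⟶ T :=
  Over.homMk (Spec.map (CommRingCat.ofHom (algebraMap R (KB m (chU u j)))) ≫ j) rfl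

/-- the root on the root cover -/
def chr {T : Over SQ} {m : ℕ} (hm : m ≠ 0) (u : Γ(T.left, ⊤)ˣ) {R : CommRingCat.{0}}
    (j : Spec R ⟶ T.left) : Γ((chX m u j).left, ⊤)ˣ :=
  Units.map (toG (KB m (chU u j)) : KB m (chU u j) →* Γ(Spec (.of (KB m (chU u j))), ⊤))
    (kr hm (chU u j))

lemma chr_pow {T : Over SQ} {m : ℕ} (hm : m ≠ 0) (u : Γ(T.left, ⊤)ˣ) {R : CommRingCat.{0}}
    (j : Spec R ⟶ T.left) : chr hm u j ^ m =
      Units.map ((chf m u j).left.appTop.hom : Γ(T.left, ⊤) →* Γ((chX m u j).left, ⊤)) u := by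
  have h0 : chr hm u j ^ m = Units.map
      (toG (KB m (chU u j)) : KB m (chU u j) →* Γ(Spec (.of (KB m (chU u j))), ⊤))
      (kr hm (chU u j) ^ m) := (map_pow (Units.map _) (kr hm (chU u j)) m).symm
  rw [h0, kr_pow]
  apply Units.ext
  change toG _ (algebraMap R (KB m (chU u j)) (ofG R (j.appTop.hom u))) =
    (Spec.map (CommRingCat.ofHom (algebraMap R (KB m (chU u j)))) ≫ j).appTop.hom u
  have h1 := toG_map (algebraMap R (KB m (chU u j))) (ofG R (j.appTop.hom u))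
  rw [← h1, toG_ofG, Scheme.Hom.comp_appTop]
  rfl

lemma mulGm_epi (m : ℕ) (hm : m ≠ 0) : Epi (mulGm m) := by
  apply epi_of_loc
  intro T b
  obtain ⟨u, rfl⟩ := uS_surj b
  let 𝒰 := T.left.affineOpenCover
  refine ⟨Sieve.ofArrows (fun i => chX m u (𝒰.f i)) (fun i => chf m u (𝒰.f i)), ?_, ?_⟩
  · apply ofArrows_mem_over
    · intro i
      have h1 : Algebra.Etale (𝒰.X i) (KB m (chU u (𝒰.f i))) :=
        etale_KB hm _ (isUnit_of_toSQ (𝒰.f i ≫ T.hom) hm)
      have h2 : Etale (Spec.map (CommRingCat.ofHom (algebraMap (𝒰.X i) (KB m (chU u (𝒰.f i)))))) :=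
        etale_spec (𝒰.X i) (KB m (chU u (𝒰.f i)))
      have h3 : IsOpenImmersion (𝒰.f i) := 𝒰.map_prop i
      change Etale (Spec.map (CommRingCat.ofHom (algebraMap (𝒰.X i)
        (KB m (chU u (𝒰.f i))))) ≫ 𝒰.f i)
      infer_instance
    · intro x
      refine ⟨𝒰.idx x, ?_⟩
      obtain ⟨y, hy⟩ := 𝒰.covers x
      obtain ⟨z, hz⟩ := surj_KB hm (chU u (𝒰.f (𝒰.idx x))) y
      refine ⟨z, ?_⟩
      change (Spec.map (CommRingCat.ofHom (algebraMap (𝒰.X _)
        (KB m (chU u (𝒰.f (𝒰.idx x)))))) ≫ 𝒰.f (𝒰.idx x)) z = x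
      rw [Scheme.Hom.comp_apply]
      exact (congrArg (𝒰.f (𝒰.idx x)) hz).trans hy
  · rintro T' f ⟨Y, g, h, ⟨i⟩, rfl⟩
    refine ⟨(Gm SQ).obj.map g.op (uS (chr hm u (𝒰.f i))), ?_⟩
    rw [mulGm_app, ← map_nsmul, ← uS_pow, chr_pow, ← uS_map, op_comp, Functor.map_comp]
    rfl

/-- the Kummer sequence is exact -/
theorem kum_exact (m : ℕ) (hm : m ≠ 0) : (kum m).ShortExact where
  exact := ShortComplex.exact_kernel (mulGm m)
  mono_f := inferInstanceAs (Mono (muI m))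
  epi_g := mulGm_epi m hm

end Pool.Agent.TH123
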