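import Pool.Agent.TH73.N4_FINb
set_option autoImplicit false

/-!
N4-FIN, part 3: from the windows to `[x, T + x]`.
-/

namespace Pool.Agent.TH73.N4_FIN
open Finset Filter Topology MeasureTheory Complex MonoidAlgebra
open Pool.Agent.W184.NZ Pool.Agent.TH806 Pool.Agent.TH806.N4
open Pool.Agent.H306R2.SM (om cl Yf)
open Pool.Agent.H262R4.TM (Rng Ck)
open Pool.Agent.H448R2.GC (cu cs ker XX)
open Pool.Agent.H965R2.SMT1 (Ph Ph_nonneg Ph_le_one Ph_chernoff om_nonneg gam gam_pos tail_bound)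

noncomputable section

lemma half_rpow (m : ℝ) : (1 / 2 : ℝ) ^ m = 2 ^ (-m) := by
  rw [one_div, Real.inv_rpow (by norm_num), Real.rpow_neg (by norm_num)]

lemma twoU {κ m : ℝ} (h0 : 0 ≤ m) (hκ : 0 < κ) (hm : m ≤ κ / 2) (hκ1 : κ ≤ 1) : (2:ℝ) ^ m ≤ 1 + κ := by
  have h1 : Real.log 2 * m ≤ Real.log (1 + κ) := by
    have h2 := Real.one_sub_inv_le_log_of_pos (show 0 < 1 + κ by linarith)
    have h3 : κ / 2 ≤ 1 - (1 + κ)⁻¹ := by
      have : 1 - (1 + κ)⁻¹ = κ / (1 + κ) := by field_simp; ring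
      rw [this]
      gcongr
      linarith
    have h4 := Real.log_two_lt_d9
    have h5 : Real.log 2 * m ≤ 1 * m := mul_le_mul_of_nonneg_right (by linarith) h0
    linarith
  rw [Real.rpow_def_of_pos (by norm_num)]
  calc Real.exp (Real.log 2 * m) ≤ Real.exp (Real.log (1 + κ)) := Real.exp_le_exp.mpr h1
    _ = 1 + κ := Real.exp_log (by linarith)

lemma twoL {κ m : ℝ} (h0 : 0 ≤ m) (hm : m ≤ κ) : 1 - κ ≤ (2:ℝ) ^ (-m) := by
  rw [Real.rpow_def_of_pos (by norm_num)]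
  have h1 := Real.add_one_le_exp (Real.log 2 * -m)
  have h4 := Real.log_two_lt_d9
  have h5 : Real.log 2 * m ≤ 1 * m := mul_le_mul_of_nonneg_right (by linarith) h0
  linarith

theorem stepU (hw : P_WIN) {κ : ℝ} (hκ : 0 < κ) (hκ1 : κ ≤ 1 / 10) : ∃ δ : ℝ, 0 < δ ∧ δ ≤ 1 / 40 ∧
    ∀ᶠ T : ℝ in atTop, ∀ β : ℝ, 4 - δ ≤ β → β ≤ 4 →
      (1 - κ) * (I0 β ((1 + κ) * T) - I0 β (T ^ ((9:ℝ)/10))) ≤
        (1 + κ) ^ 2 * Real.log T ^ (β ^ 2 / 4 - 4) * (I0 4 ((1 + 4 * κ) * T) + 1) := by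
  obtain ⟨δ1, hδ1, hδ2, hW⟩ := hw κ hκ
  obtain ⟨T0, hT0⟩ := eventually_atTop.1 hW
  obtain ⟨K, hK⟩ := PhC hκ
  have hκp : 0 < 1 + κ := by linarith
  refine ⟨min δ1 (κ / 8), lt_min hδ1 (by positivity), (min_le_left _ _).trans hδ2, ?_⟩
  filter_upwards [kk_ev, kk_top K, e9_top T0, e9 (show (0:ℝ) < 1 by norm_num),
    tailk (σ := 1 / (1 + κ)) (c := (1 + κ) ^ 3) (by positivity)
      (by rw [div_lt_one hκp]; linarith) (by positivity),
    eventually_ge_atTop (1:ℝ), Real.tendsto_log_atTop.eventually_ge_atTop 1] with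
    T hk hkK hT0' h9 htl hT1 hL1 β hβ1 hβ2
  have hδ' := min_le_left δ1 (κ / 8)
  have hδ'' := min_le_right δ1 (κ / 8)
  have hT : 0 < T := by linarith
  have hβ3 : 3 ≤ β := by linarith
  set m := β ^ 2 / 4 - 4 with hm
  have hm0 : m ≤ 0 := by rw [hm]; nlinarith
  have hm1 : -m ≤ κ / 2 := by rw [hm]; nlinarith
  have hL0 : 0 < Real.log T := by linarith
  set P := Real.log T ^ m with hP
  have hP0 : 0 < P := Real.rpow_pos_of_pos hL0 _
  have hwin : ∀ x ∈ Set.Ioc (T ^ ((9:ℝ)/10) / 2) ((1 + κ) ^ 2 * T),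
      W β (kk T) x ≤ ((1 + κ) ^ 2 * P) * W 4 (kk T) x := by
    intro x hx
    have hx8 : x ≤ 8 * T := by
      refine hx.2.trans (mul_le_mul_of_nonneg_right ?_ hT.le)
      nlinarith
    have hx0 : 0 < x := lt_of_le_of_lt (by positivity) hx.1
    obtain ⟨hr, l1, l2⟩ := hk.2.2 x ⟨hx.1.le, hx8⟩
    have h1 := (hT0 x (hT0'.trans hx.1.le) (kk T) hr).1 β (by linarith) hβ2
    have h2 : Real.log x ^ m ≤ (1 + κ) * P := by
      calc Real.log x ^ m ≤ (1 / 2 * Real.log T) ^ m :=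
            Real.rpow_le_rpow_of_nonpos (by positivity) l1 hm0
        _ = (1 / 2) ^ m * Real.log T ^ m := Real.mul_rpow (by norm_num) hL0.le
        _ ≤ (1 + κ) * P := by
            rw [half_rpow]
            exact mul_le_mul_of_nonneg_right (twoU (by linarith) hκ hm1 (by linarith)) hP0.le
    have hW0 : 0 ≤ W 4 (kk T) x := W_nonneg hx0
    calc W β (kk T) x ≤ (1 + κ) * Real.log x ^ m * W 4 (kk T) x := h1
      _ ≤ (1 + κ) * ((1 + κ) * P) * W 4 (kk T) x :=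
          mul_le_mul_of_nonneg_right (mul_le_mul_of_nonneg_left h2 hκp.le) hW0
      _ = _ := by ring
  have hc4 : Continuous fun t => Xz t ^ (4:ℝ) := Xz_pow_cont (by norm_num)
  have hcβ : Continuous fun t => Xz t ^ β := Xz_pow_cont (by linarith)
  have hA0 : 0 < T ^ ((9:ℝ)/10) := by positivity
  have hTb : T ≤ (1 + κ) ^ 2 * T := by nlinarith [mul_pos hκ hT]
  have hTB : T ≤ (1 + κ) * T := by nlinarith [mul_pos hκ hT]
  have h1 := ss_low hcβ (fun t => Real.rpow_nonneg (Xz_nonneg t) _) hk.1 (a := T ^ ((9:ℝ)/10) / 2)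
    (b := (1 + κ) ^ 2 * T) (A := T ^ ((9:ℝ)/10)) (B := (1 + κ) * T) (κ := κ) (by positivity)
    (by linarith) hA0 (by linarith) (by linarith)
    (fun t ht => hK _ hkK t _ _ (by positivity) (by nlinarith [ht.1]) (by
      calc (1 + κ) * t ≤ (1 + κ) * ((1 + κ) * T) := mul_le_mul_of_nonneg_left ht.2 hκp.le
        _ = _ := by ring))
  have h2 := ss_cmp hk.1 (β := β) (γ := 4) (a := T ^ ((9:ℝ)/10) / 2) (b := (1 + κ) ^ 2 * T)
    (c := (1 + κ) ^ 2 * P) (by positivity) (by linarith) (by linarith) (by norm_num) (by norm_num)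
    (by positivity) hwin
  have h3 := ss_high hc4 (fun t => Real.rpow_nonneg (Xz_nonneg t) _) hk.1 (a := T ^ ((9:ℝ)/10) / 2)
    (b := (1 + κ) ^ 2 * T) (T := (1 + κ) ^ 3 * T) (by positivity) (by linarith) (by
      refine mul_le_mul_of_nonneg_right ?_ hT.le
      nlinarith [pow_pos hκp 2]) (by
      intro t ht
      have := htl 4 (by norm_num) (by norm_num) t ht
      rwa [show 1 / (1 + κ) * ((1 + κ) ^ 3 * T) = (1 + κ) ^ 2 * T by field_simp] at this)
  have hT3 : (1 + κ) ^ 3 * T ≤ (1 + 4 * κ) * T := by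
    refine mul_le_mul_of_nonneg_right ?_ hT.le
    have : κ ^ 2 ≤ 1 / 10 * κ := by nlinarith
    have : κ ^ 3 ≤ 1 / 100 * κ := by nlinarith
    nlinarith
  have h4 : I0 4 ((1 + κ) ^ 3 * T) + 1 / ((1 + κ) ^ 3 * T) ≤ I0 4 ((1 + 4 * κ) * T) + 1 := by
    refine add_le_add (I0_mono (by norm_num) hT3) ?_
    rw [div_le_one (by positivity)]
    have : 1 ≤ (1 + κ) ^ 3 := one_le_pow₀ (by linarith)
    nlinarith
  have h5 := h1.trans (h2.trans (mul_le_mul' le_rfl (h3.trans (ENNReal.ofReal_le_ofReal h4))))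
  rw [← ENNReal.ofReal_mul (by positivity), ENNReal.ofReal_le_ofReal_iff
    (mul_nonneg (by positivity) (add_nonneg (I0_nonneg (by positivity)) zero_le_one)),
    I0_sub (by linarith)] at h5
  exact h5

theorem stepL (hw : P_WIN) {κ : ℝ} (hκ : 0 < κ) (hκ1 : κ ≤ 1 / 10) : ∃ δ : ℝ, 0 < δ ∧ δ ≤ 1 / 40 ∧
    ∀ᶠ T : ℝ in atTop, ∀ β : ℝ, 4 ≤ β → β ≤ 4 + δ →
      (1 - κ) ^ 3 * Real.log T ^ (β ^ 2 / 4 - 4) * (I0 4 ((1 - 3 * κ) * T) - I0 4 (T ^ ((9:ℝ)/10))) ≤
        I0 β ((1 - κ) * T) + 1 := by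
  obtain ⟨δ1, hδ1, hδ2, hW⟩ := hw κ hκ
  obtain ⟨T0, hT0⟩ := eventually_atTop.1 hW
  obtain ⟨K, hK⟩ := PhC hκ
  have hκp : 0 < 1 + κ := by linarith
  have hκm : 0 < 1 - κ := by linarith
  refine ⟨min δ1 (κ / 8), lt_min hδ1 (by positivity), (min_le_left _ _).trans hδ2, ?_⟩
  filter_upwards [kk_ev, kk_top K, e9_top T0, e9 (show (0:ℝ) < 1 / 2 by norm_num),
    tailk (σ := 1 / (1 + κ)) (c := 1 - κ) (by positivity)
      (by rw [div_lt_one hκp]; linarith) hκm,
    eventually_ge_atTop (2:ℝ), Real.tendsto_log_atTop.eventually_ge_atTop 1] with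
    T hk hkK hT0' h9 htl hT1 hL1 β hβ1 hβ2
  have hδ' := min_le_left δ1 (κ / 8)
  have hδ'' := min_le_right δ1 (κ / 8)
  have hT : 0 < T := by linarith
  have hβ5 : β ≤ 5 := by linarith
  set m := β ^ 2 / 4 - 4 with hm
  have hm0 : 0 ≤ m := by rw [hm]; nlinarith
  have hm1 : m ≤ κ := by rw [hm]; nlinarith
  have hL0 : 0 < Real.log T := by linarith
  set P := Real.log T ^ m with hP
  have hP0 : 0 < P := Real.rpow_pos_of_pos hL0 _
  set b := (1 - κ) * T / (1 + κ) with hbd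
  have hbT : b ≤ (1 - κ) * T := div_le_self (by positivity) (by linarith)
  have hb8 : b ≤ 8 * T := by nlinarith [mul_pos hκ hT]
  have hbB : (1 + κ) * ((1 - 3 * κ) * T) ≤ b := by
    rw [hbd, le_div_iff₀ hκp]
    have : (1 + κ) * (1 - 3 * κ) * (1 + κ) ≤ 1 - κ := by nlinarith [mul_pos hκ hκ, mul_pos hκ (mul_pos hκ hκ)]
    calc (1 + κ) * ((1 - 3 * κ) * T) * (1 + κ) = ((1 + κ) * (1 - 3 * κ) * (1 + κ)) * T := by ring
      _ ≤ _ := mul_le_mul_of_nonneg_right this hT.le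
  have hwin : ∀ x ∈ Set.Ioc (T ^ ((9:ℝ)/10) / 2) b,
      W 4 (kk T) x ≤ ((1 - κ) ^ 2 * P)⁻¹ * W β (kk T) x := by
    intro x hx
    have hx0 : 0 < x := lt_of_le_of_lt (by positivity) hx.1
    obtain ⟨hr, l1, l2⟩ := hk.2.2 x ⟨hx.1.le, hx.2.trans hb8⟩
    have h1 := (hT0 x (hT0'.trans hx.1.le) (kk T) hr).2 β hβ1 (by linarith)
    have h2 : (1 - κ) * P ≤ Real.log x ^ m := by
      calc (1 - κ) * P ≤ (1 / 2) ^ m * Real.log T ^ m := by
            rw [half_rpow]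
            exact mul_le_mul_of_nonneg_right (twoL hm0 hm1) hP0.le
        _ = (1 / 2 * Real.log T) ^ m := (Real.mul_rpow (by norm_num) hL0.le).symm
        _ ≤ _ := Real.rpow_le_rpow (by positivity) l1 hm0
    have hW0 : 0 ≤ W 4 (kk T) x := W_nonneg hx0
    rw [le_inv_mul_iff₀ (by positivity)]
    calc (1 - κ) ^ 2 * P * W 4 (kk T) x = (1 - κ) * ((1 - κ) * P) * W 4 (kk T) x := by ring
      _ ≤ (1 - κ) * Real.log x ^ m * W 4 (kk T) x :=
          mul_le_mul_of_nonneg_right (mul_le_mul_of_nonneg_left h2 hκm.le) hW0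
      _ ≤ _ := h1
  have hc4 : Continuous fun t => Xz t ^ (4:ℝ) := Xz_pow_cont (by norm_num)
  have hcβ : Continuous fun t => Xz t ^ β := Xz_pow_cont (by linarith)
  have hA0 : 0 < T ^ ((9:ℝ)/10) := by positivity
  have hAB : T ^ ((9:ℝ)/10) ≤ (1 - 3 * κ) * T := by
    refine h9.trans (mul_le_mul_of_nonneg_right ?_ hT.le)
    linarith
  have hab : T ^ ((9:ℝ)/10) / 2 ≤ b := by
    have : (1 - 3 * κ) * T ≤ (1 + κ) * ((1 - 3 * κ) * T) := by
      have : 0 ≤ κ * ((1 - 3 * κ) * T) := mul_nonneg hκ.le (mul_nonneg (by linarith) hT.le)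
      linarith
    linarith
  have h1 := ss_low hc4 (fun t => Real.rpow_nonneg (Xz_nonneg t) _) hk.1 (a := T ^ ((9:ℝ)/10) / 2)
    (b := b) (A := T ^ ((9:ℝ)/10)) (B := (1 - 3 * κ) * T) (κ := κ) (by positivity)
    hab hA0 hAB (by linarith)
    (fun t ht => hK _ hkK t _ _ (by positivity) (by nlinarith [ht.1]) (by
      calc (1 + κ) * t ≤ (1 + κ) * ((1 - 3 * κ) * T) := mul_le_mul_of_nonneg_left ht.2 hκp.le
        _ ≤ _ := hbB))
  have h2 := ss_cmp hk.1 (β := 4) (γ := β) (a := T ^ ((9:ℝ)/10) / 2) (b := b)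
    (c := ((1 - κ) ^ 2 * P)⁻¹) (by positivity) (by norm_num) (by norm_num) (by linarith) hβ5
    (by positivity) hwin
  have h3 := ss_high hcβ (fun t => Real.rpow_nonneg (Xz_nonneg t) _) hk.1 (a := T ^ ((9:ℝ)/10) / 2)
    (b := b) (T := (1 - κ) * T) (by positivity) hab hbT (by
      intro t ht
      have := htl β (by linarith) hβ5 t ht
      rwa [show 1 / (1 + κ) * ((1 - κ) * T) = b by rw [hbd]; ring] at this)
  have h4 : I0 β ((1 - κ) * T) + 1 / ((1 - κ) * T) ≤ I0 β ((1 - κ) * T) + 1 := by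
    refine add_le_add le_rfl ?_
    rw [div_le_one (by positivity)]
    nlinarith
  have h5 := h1.trans (h2.trans (mul_le_mul' le_rfl (h3.trans (ENNReal.ofReal_le_ofReal h4))))
  rw [← ENNReal.ofReal_mul (by positivity), ENNReal.ofReal_le_ofReal_iff
    (mul_nonneg (by positivity) (add_nonneg (I0_nonneg (by positivity)) zero_le_one)),
    I0_sub (by norm_num), le_inv_mul_iff₀ (by positivity)] at h5
  calc _ = (1 - κ) ^ 2 * P * ((1 - κ) * (I0 4 ((1 - 3 * κ) * T) - I0 4 (T ^ ((9:ℝ)/10)))) := by ring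
    _ ≤ _ := h5

lemma aM_eq {β x T : ℝ} (hT : 0 < T) : aM β x T = T⁻¹ * ∫ t in x..(T + x), Xz t ^ β := by
  unfold aM
  have h5 := intervalIntegral.integral_comp_mul_add (a := (0:ℝ)) (b := 1)
    (fun t => Xz t ^ β) hT.ne' x
  rw [mul_zero, zero_add, mul_one, smul_eq_mul] at h5
  rw [← h5]
  refine intervalIntegral.integral_congr fun u _ => ?_
  unfold Xz cl
  congr 3
  push_cast
  ring

lemma I0_le_four {β U : ℝ} (hβ : 0 ≤ β) (hβ4 : β ≤ 4) (hU : 0 ≤ U) : I0 β U ≤ U + I0 4 U := by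
  have hc4 : Continuous fun t => Xz t ^ (4:ℝ) := Xz_pow_cont (by norm_num)
  have hcβ : Continuous fun t => Xz t ^ β := Xz_pow_cont hβ
  have h1 : I0 β U ≤ ∫ t in (0:ℝ)..U, (1 + Xz t ^ (4:ℝ)) := by
    refine intervalIntegral.integral_mono_on hU (hcβ.intervalIntegrable _ _)
      ((continuous_const.add hc4).intervalIntegrable _ _) fun t _ => ?_
    rcases le_total (Xz t) 1 with h | h
    · have h2 : Xz t ^ β ≤ 1 := Real.rpow_le_one (Xz_nonneg t) h hβ
      have h3 : 0 ≤ Xz t ^ (4:ℝ) := Real.rpow_nonneg (Xz_nonneg t) _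
      linarith
    · have h2 : Xz t ^ β ≤ Xz t ^ (4:ℝ) := Real.rpow_le_rpow_of_exponent_le h hβ4
      linarith
  rw [intervalIntegral.integral_add (continuous_const.intervalIntegrable _ _)
    (hc4.intervalIntegrable _ _), intervalIntegral.integral_const, smul_eq_mul, mul_one, sub_zero] at h1
  exact h1

theorem t_FIN (h4 : P_W4) (hw : P_WIN) : P_FIN := by
  intro ε hε
  obtain ⟨C, hC, hshort⟩ := short h4
  obtain ⟨c, hc, hbelow⟩ := below h4
  set D : ℝ := 2 / c * (4 + 8 * C) with hD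
  have hD0 : 0 < D := by positivity
  obtain ⟨κ, hκ, hκ1, hκ2, hκ3, hκ4, hκ5⟩ : ∃ κ : ℝ, 0 < κ ∧ κ ≤ 1 / 10 ∧ (5 + 3 * D) * κ ≤ ε ∧
      C * κ ≤ c / 4 ∧ κ ≤ c / 4 ∧ D * κ ≤ 1 := by
    refine ⟨min (1 / 10) (min (ε / (5 + 3 * D)) (min (c / (4 * C)) (min (c / 4) (1 / D)))), ?_, ?_, ?_,
      ?_, ?_, ?_⟩
    · positivity
    · exact min_le_left _ _
    · have : min (1 / 10) (min (ε / (5 + 3 * D)) (min (c / (4 * C)) (min (c / 4) (1 / D)))) ≤
        ε / (5 + 3 * D) := (min_le_right _ _).trans (min_le_left _ _)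
      rw [le_div_iff₀ (by positivity)] at this
      linarith
    · have : min (1 / 10) (min (ε / (5 + 3 * D)) (min (c / (4 * C)) (min (c / 4) (1 / D)))) ≤
        c / (4 * C) := (min_le_right _ _).trans ((min_le_right _ _).trans (min_le_left _ _))
      rw [le_div_iff₀ (by positivity)] at this
      linarith
    · exact (min_le_right _ _).trans ((min_le_right _ _).trans ((min_le_right _ _).trans (min_le_left _ _)))
    · have : min (1 / 10) (min (ε / (5 + 3 * D)) (min (c / (4 * C)) (min (c / 4) (1 / D)))) ≤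
        1 / D := (min_le_right _ _).trans ((min_le_right _ _).trans ((min_le_right _ _).trans
          (min_le_right _ _)))
      rw [le_div_iff₀ hD0] at this
      linarith
  obtain ⟨δU, hδU, hδU1, hU⟩ := stepU hw hκ hκ1
  obtain ⟨δL, hδL, hδL1, hLw⟩ := stepL hw hκ hκ1
  refine ⟨min δU δL, lt_min hδU hδL, fun x => ?_⟩
  have hs1 := hshort κ hκ (by linarith)
  have hs3 := hshort (3 * κ) (by positivity) (by linarith)
  have hs4 := hshort (4 * κ) (by positivity) (by linarith)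
  filter_upwards [hU, hLw, hs1, hs3, hs4, hbelow, small h4 hκ, e9 hκ,
    eventually_ge_atTop ((|x| + 24 ^ 5 * (1 + |x|) ^ 10 * |x| + 1) / κ),
    eventually_ge_atTop (1:ℝ), Real.tendsto_log_atTop.eventually_ge_atTop 1] with
    T hU hLw hs1 hs3 hs4 hbel hsm h9 hTx hT1 hL1
  have hT : 0 < T := by linarith
  rw [div_le_iff₀ hκ] at hTx
  set cx := 24 ^ 5 * (1 + |x|) ^ 10 * |x| with hcx
  have hx0 := abs_nonneg x
  have hcx0 : 0 ≤ cx := by positivity
  have hxx := abs_le.mp (show |x| ≤ κ * T by linarith)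
  have hcxT : cx + 1 ≤ κ * T := by linarith
  have hseg : ∀ β : ℝ, 0 ≤ β → β ≤ 5 → -cx ≤ I0 β x ∧ I0 β x ≤ cx := fun β h0 h5 =>
    abs_le.mp (seg5 h0 h5 x)
  have hκT : 0 < κ * T := by positivity
  set L4 := Real.log T ^ 4 with hL4d
  have hL4 : 1 ≤ L4 := one_le_pow₀ hL1
  set TL := T * L4 with hTL
  have hTTL : T ≤ TL := le_mul_of_one_le_right hT.le hL4
  have hTL0 : 0 < TL := by linarith
  have hκTL : κ * T ≤ κ * TL := mul_le_mul_of_nonneg_left hTTL hκ.le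
  -- the fourth moment
  set Q := ∫ t in x..(T + x), Xz t ^ (4:ℝ) with hQ
  have hQe : Q = I0 4 (T + x) - I0 4 x := I0_sub (by norm_num) _ _
  obtain ⟨s41, s42⟩ := hseg 4 (by norm_num) (by norm_num)
  have hQlow : c / 2 * TL ≤ Q := by
    have h1 : I0 4 ((1 - κ) * T) ≤ I0 4 (T + x) := I0_mono (by norm_num) (by linarith [hxx.1])
    have h2 : I0 4 T ≤ I0 4 ((1 + κ) * T) := I0_mono (by norm_num) (by linarith)
    have h3 : C * κ * TL ≤ c / 4 * TL := mul_le_mul_of_nonneg_right hκ3 hTL0.le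
    have h5 : κ * TL ≤ c / 4 * TL := mul_le_mul_of_nonneg_right hκ4 hTL0.le
    linarith
  have hQ0 : 0 < Q := lt_of_lt_of_le (by positivity) hQlow
  have hTLQ : TL ≤ 2 / c * Q := by
    rw [div_mul_eq_mul_div, le_div_iff₀ hc]
    linarith
  have hPQ : ∀ β : ℝ, T ≤ 2 / c * (Real.log T ^ (β ^ 2 / 4 - 4) * Q) := by
    intro β
    have hP : Real.log T ^ (-4 : ℝ) ≤ Real.log T ^ (β ^ 2 / 4 - 4) :=
      Real.rpow_le_rpow_of_exponent_le hL1 (by nlinarith [sq_nonneg β])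
    have h1 : Real.log T ^ (-4 : ℝ) * L4 = 1 := by
      rw [hL4d, Real.rpow_neg (by linarith)]
      have : Real.log T ^ (4:ℝ) = Real.log T ^ 4 := by
        rw [← Real.rpow_natCast]; norm_num
      rw [this]
      exact inv_mul_cancel₀ (by positivity)
    calc T = (Real.log T ^ (-4 : ℝ) * L4) * T := by rw [h1, one_mul]
      _ = Real.log T ^ (-4 : ℝ) * TL := by rw [hTL]; ring
      _ ≤ Real.log T ^ (β ^ 2 / 4 - 4) * TL := mul_le_mul_of_nonneg_right hP hTL0.le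
      _ ≤ Real.log T ^ (β ^ 2 / 4 - 4) * (2 / c * Q) :=
          mul_le_mul_of_nonneg_left hTLQ (Real.rpow_nonneg (by linarith) _)
      _ = _ := by ring
  have hTinv : 0 < T⁻¹ := by positivity
  constructor
  · intro β hβ1 hβ2
    have hδ := min_le_left δU δL
    have hβ3 : 3 ≤ β := by linarith
    rw [aM_eq hT, aM_eq hT]
    set P := Real.log T ^ (β ^ 2 / 4 - 4) with hPd
    have hP0 : 0 < P := Real.rpow_pos_of_pos (by linarith) _
    have hPQ0 : 0 < P * Q := by positivity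
    have h1 := hU β (by linarith) hβ2
    obtain ⟨sb1, sb2⟩ := hseg β (by linarith) (by linarith)
    have h2 : ∫ t in x..(T + x), Xz t ^ β ≤ I0 β ((1 + κ) * T) + cx := by
      rw [I0_sub (by linarith)]
      have : I0 β (T + x) ≤ I0 β ((1 + κ) * T) := I0_mono (by linarith) (by linarith [hxx.2])
      linarith
    have h3 : I0 β (T ^ ((9:ℝ)/10)) ≤ 2 * (κ * T) := by
      have := I0_le_four (β := β) (U := T ^ ((9:ℝ)/10)) (by linarith) hβ2 (by positivity)
      linarith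
    have h4' : I0 4 ((1 + 4 * κ) * T) + 1 ≤ (1 + D * κ) * Q := by
      have a1 : I0 4 ((1 - 4 * κ) * T) ≤ I0 4 (T + x) := I0_mono (by norm_num) (by linarith [hxx.1])
      have a2 : (1 + 4 * C) * κ * TL ≤ (1 + 4 * C) * κ * (2 / c * Q) :=
        mul_le_mul_of_nonneg_left hTLQ (by positivity)
      have a3 : (1 + 4 * C) * κ * (2 / c * Q) ≤ D * κ * Q := by
        rw [hD]
        have : 0 ≤ 2 / c * κ * Q := by positivity
        have e : 2 / c * (4 + 8 * C) * κ * Q - (1 + 4 * C) * κ * (2 / c * Q) =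
            (3 + 4 * C) * (2 / c * κ * Q) := by ring
        have : 0 ≤ (3 + 4 * C) * (2 / c * κ * Q) := by positivity
        linarith
      linarith
    have h5 : (1 + κ) ^ 2 ≤ (1 - κ) * (1 + 5 * κ) := by nlinarith
    have h6 : (1 - κ) * (I0 β ((1 + κ) * T) - I0 β (T ^ ((9:ℝ)/10))) ≤
        (1 - κ) * ((1 + 5 * κ) * (1 + D * κ) * (P * Q)) := by
      calc _ ≤ (1 + κ) ^ 2 * P * (I0 4 ((1 + 4 * κ) * T) + 1) := h1
        _ ≤ (1 + κ) ^ 2 * P * ((1 + D * κ) * Q) := mul_le_mul_of_nonneg_left h4' (by positivity)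
        _ ≤ ((1 - κ) * (1 + 5 * κ)) * P * ((1 + D * κ) * Q) := by gcongr
        _ = _ := by ring
    have h7 := le_of_mul_le_mul_left h6 (by linarith)
    have h8 : 3 * (κ * T) ≤ D * κ * (P * Q) := by
      have a1 := mul_le_mul_of_nonneg_left (hPQ β) (show 0 ≤ 3 * κ by positivity)
      have a2 : 3 * κ * (2 / c * (P * Q)) ≤ D * κ * (P * Q) := by
        rw [hD]
        have e : 2 / c * (4 + 8 * C) * κ * (P * Q) - 3 * κ * (2 / c * (P * Q)) =
            (1 + 8 * C) * (2 / c * κ * (P * Q)) := by ring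
        have : 0 ≤ (1 + 8 * C) * (2 / c * κ * (P * Q)) := by positivity
        linarith
      linarith
    have h9' : (1 + 5 * κ) * (1 + D * κ) + D * κ ≤ 1 + ε := by
      have : 5 * κ * (D * κ) ≤ D * κ := by nlinarith [mul_pos hD0 hκ]
      nlinarith
    have h10 : ∫ t in x..(T + x), Xz t ^ β ≤ (1 + ε) * (P * Q) := by
      calc _ ≤ ((1 + 5 * κ) * (1 + D * κ) + D * κ) * (P * Q) := by linarith
        _ ≤ _ := mul_le_mul_of_nonneg_right h9' hPQ0.le
    calc T⁻¹ * ∫ t in x..(T + x), Xz t ^ β ≤ T⁻¹ * ((1 + ε) * (P * Q)) :=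
          mul_le_mul_of_nonneg_left h10 hTinv.le
      _ = _ := by ring
  · intro β hβ1 hβ2
    have hδ := min_le_right δU δL
    have hβ5 : β ≤ 5 := by linarith
    rw [aM_eq hT, aM_eq hT]
    set P := Real.log T ^ (β ^ 2 / 4 - 4) with hPd
    have hP0 : 0 < P := Real.rpow_pos_of_pos (by linarith) _
    have hPQ0 : 0 < P * Q := by positivity
    have h1 := hLw β hβ1 (by linarith)
    obtain ⟨sb1, sb2⟩ := hseg β (by linarith) hβ5
    have h2 : I0 β ((1 - κ) * T) - cx ≤ ∫ t in x..(T + x), Xz t ^ β := by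
      rw [I0_sub (by linarith)]
      have : I0 β ((1 - κ) * T) ≤ I0 β (T + x) := I0_mono (by linarith) (by linarith [hxx.1])
      linarith
    have h4' : (1 - D * κ) * Q ≤ I0 4 ((1 - 3 * κ) * T) - I0 4 (T ^ ((9:ℝ)/10)) := by
      have a1 : I0 4 (T + x) ≤ I0 4 ((1 + 3 * κ) * T) := I0_mono (by norm_num) (by linarith [hxx.2])
      have a2 : (2 + 3 * C) * κ * TL ≤ (2 + 3 * C) * κ * (2 / c * Q) :=
        mul_le_mul_of_nonneg_left hTLQ (by positivity)
      have a3 : (2 + 3 * C) * κ * (2 / c * Q) ≤ D * κ * Q := by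
        rw [hD]
        have e : 2 / c * (4 + 8 * C) * κ * Q - (2 + 3 * C) * κ * (2 / c * Q) =
            (2 + 5 * C) * (2 / c * κ * Q) := by ring
        have : 0 ≤ (2 + 5 * C) * (2 / c * κ * Q) := by positivity
        linarith
      linarith
    have h3' : 1 - 3 * κ ≤ (1 - κ) ^ 3 := by nlinarith [mul_pos hκ hκ]
    have h6 : (1 - 3 * κ) * (1 - D * κ) * (P * Q) ≤ I0 β ((1 - κ) * T) + 1 := by
      calc (1 - 3 * κ) * (1 - D * κ) * (P * Q) ≤ (1 - κ) ^ 3 * (1 - D * κ) * (P * Q) :=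
            mul_le_mul_of_nonneg_right (mul_le_mul_of_nonneg_right h3' (by linarith)) hPQ0.le
        _ = (1 - κ) ^ 3 * P * ((1 - D * κ) * Q) := by ring
        _ ≤ (1 - κ) ^ 3 * P * (I0 4 ((1 - 3 * κ) * T) - I0 4 (T ^ ((9:ℝ)/10))) :=
            mul_le_mul_of_nonneg_left h4' (mul_nonneg (pow_nonneg (by linarith) _) hP0.le)
        _ ≤ _ := h1
    have h8 : κ * T ≤ D * κ * (P * Q) := by
      have a1 := mul_le_mul_of_nonneg_left (hPQ β) hκ.le
      have a2 : κ * (2 / c * (P * Q)) ≤ D * κ * (P * Q) := by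
        rw [hD]
        have e : 2 / c * (4 + 8 * C) * κ * (P * Q) - κ * (2 / c * (P * Q)) =
            (3 + 8 * C) * (2 / c * κ * (P * Q)) := by ring
        have : 0 ≤ (3 + 8 * C) * (2 / c * κ * (P * Q)) := by positivity
        linarith
      linarith
    have h9' : 1 - ε ≤ (1 - 3 * κ) * (1 - D * κ) - D * κ := by
      have : 0 ≤ 3 * κ * (D * κ) := by positivity
      nlinarith
    have h10 : (1 - ε) * (P * Q) ≤ ∫ t in x..(T + x), Xz t ^ β := by
      calc (1 - ε) * (P * Q) ≤ ((1 - 3 * κ) * (1 - D * κ) - D * κ) * (P * Q) :=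
            mul_le_mul_of_nonneg_right h9' hPQ0.le
        _ ≤ _ := by linarith
    calc (1 - ε) * P * (T⁻¹ * Q) = T⁻¹ * ((1 - ε) * (P * Q)) := by ring
      _ ≤ _ := mul_le_mul_of_nonneg_left h10 hTinv.le

end

end Pool.Agent.TH73.N4_FIN
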