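import Pool.Agent.TH806.N4.Defs
set_option autoImplicit false

/-!
N4-FIN, part 1: averaged Gamma windows.
-/

namespace Pool.Agent.TH73.N4_FIN
open Finset Filter Topology MeasureTheory Complex MonoidAlgebra
open Pool.Agent.W184.NZ Pool.Agent.TH806 Pool.Agent.TH806.N4
open Pool.Agent.H306R2.SM (om cl Yf)
open Pool.Agent.H262R4.TM (Rng Ck)
open Pool.Agent.H965R2.SMT1 (Ph Ph_nonneg Ph_le_one Ph_chernoff om_nonneg gam gam_pos tail_bound)

noncomputable section

/-- averaged windows -/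
def SS (k : ℕ) (a b : ℝ) (f : ℝ → ℝ) : ENNReal :=
  ∫⁻ x in Set.Ioc a b, ∫⁻ t in Set.Ioi (0:ℝ), ENNReal.ofReal (om k (k / x) t * f t)

lemma ss_swap {f : ℝ → ℝ} (hf : Continuous f) (hf0 : ∀ t, 0 ≤ f t) {k : ℕ} (hk : 1 ≤ k) {a b : ℝ}
    (ha : 0 < a) (hab : a ≤ b) :
    SS k a b f = ∫⁻ t in Set.Ioi (0:ℝ), ENNReal.ofReal (f t) *
      ENNReal.ofReal (Ph k (k * t / b) - Ph k (k * t / a)) := by
  have hmeas : Measurable (Function.uncurry fun (x t : ℝ) =>
      ENNReal.ofReal (om k (k / x) t * f t)) := by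
    unfold om Function.uncurry
    have := hf.measurable
    fun_prop
  unfold SS
  rw [lintegral_lintegral_swap hmeas.aemeasurable]
  refine setLIntegral_congr_fun measurableSet_Ioi fun t ht => ?_
  have h2 : ∀ x, ENNReal.ofReal (om k (k / x) t * f t) =
        ENNReal.ofReal (f t) * ENNReal.ofReal (om k (k / x) t) := by
    intro x
    rw [mul_comm, ENNReal.ofReal_mul (hf0 t)]
  simp_rw [h2]
  rw [lintegral_const_mul' _ _ ENNReal.ofReal_ne_top, om_int hk ht ha hab]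

lemma ss_low {f : ℝ → ℝ} (hf : Continuous f) (hf0 : ∀ t, 0 ≤ f t) {k : ℕ} (hk : 1 ≤ k) {a b A B κ : ℝ}
    (ha : 0 < a) (hab : a ≤ b) (hA : 0 < A) (hAB : A ≤ B) (hκ1 : κ ≤ 1)
    (hPh : ∀ t ∈ Set.Ioc A B, 1 - κ ≤ Ph k (k * t / b) - Ph k (k * t / a)) :
    ENNReal.ofReal ((1 - κ) * ∫ t in A..B, f t) ≤ SS k a b f := by
  rw [ss_swap hf hf0 hk ha hab]
  have e1 : ENNReal.ofReal ((1 - κ) * ∫ t in A..B, f t) =
      ∫⁻ t in Set.Ioc A B, ENNReal.ofReal ((1 - κ) * f t) := by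
    rw [← intervalIntegral.integral_const_mul, intervalIntegral.integral_of_le hAB,
      ofReal_integral_eq_lintegral_ofReal]
    · exact ((continuous_const.mul hf).intervalIntegrable A B).1
    · exact Eventually.of_forall fun t => mul_nonneg (by linarith) (hf0 t)
  rw [e1]
  have hsub : Set.Ioc A B ⊆ Set.Ioi (0:ℝ) := fun t ht => hA.trans ht.1
  refine le_trans ?_ (lintegral_mono_set hsub)
  apply setLIntegral_mono' measurableSet_Ioc
  intro t ht
  rw [mul_comm (1 - κ) (f t), ENNReal.ofReal_mul (hf0 t)]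
  exact mul_le_mul' le_rfl (ENNReal.ofReal_le_ofReal (hPh t ht))

lemma ss_high {f : ℝ → ℝ} (hf : Continuous f) (hf0 : ∀ t, 0 ≤ f t) {k : ℕ} (hk : 1 ≤ k) {a b T : ℝ}
    (ha : 0 < a) (hab : a ≤ b) (hbT : b ≤ T)
    (htail : ∀ t, T < t → f t * Ph k (k * t / b) ≤ t ^ (-2 : ℝ)) :
    SS k a b f ≤ ENNReal.ofReal ((∫ t in (0 : ℝ)..T, f t) + 1 / T) := by
  have hb : 0 < b := ha.trans_le hab
  have hT : 0 < T := hb.trans_le hbT
  rw [ss_swap hf hf0 hk ha hab]
  have h0 : ∀ t ∈ Set.Ioi (0:ℝ), ENNReal.ofReal (f t) * ENNReal.ofReal (Ph k (k * t / b) - Ph k (k * t / a)) ≤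
      ENNReal.ofReal (f t) * ENNReal.ofReal (Ph k (k * t / b)) := by
    intro t ht
    have ht0 : 0 < t := ht
    have := Ph_nonneg k (u := k * t / a) (by positivity)
    exact mul_le_mul' le_rfl (ENNReal.ofReal_le_ofReal (by linarith))
  refine (setLIntegral_mono' measurableSet_Ioi h0).trans ?_
  have hsplit : Set.Ioi (0 : ℝ) = Set.Ioc 0 T ∪ Set.Ioi T := (Set.Ioc_union_Ioi_eq_Ioi hT.le).symm
  rw [hsplit, lintegral_union measurableSet_Ioi (Set.Ioc_disjoint_Ioi le_rfl),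
      ENNReal.ofReal_add (intervalIntegral.integral_nonneg hT.le fun t _ => hf0 t)
        (by positivity)]
  apply add_le_add
  · rw [intervalIntegral.integral_of_le hT.le, ofReal_integral_eq_lintegral_ofReal
        ((hf.intervalIntegrable 0 T).1) (Filter.Eventually.of_forall fun t => hf0 t)]
    apply setLIntegral_mono' measurableSet_Ioc
    intro t ht
    have h1 : Ph k (k * t / b) ≤ 1 := Ph_le_one k (by have := ht.1; positivity)
    calc ENNReal.ofReal (f t) * ENNReal.ofReal (Ph k (k * t / b))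
        ≤ ENNReal.ofReal (f t) * 1 := by
          gcongr
          exact ENNReal.ofReal_le_one.2 h1
      _ = ENNReal.ofReal (f t) := mul_one _
  · have h1 : ENNReal.ofReal (1 / T) = ∫⁻ t in Set.Ioi T, ENNReal.ofReal (t ^ (-2 : ℝ)) := by
      rw [← ofReal_integral_eq_lintegral_ofReal
        (integrableOn_Ioi_rpow_of_lt (by norm_num) hT), integral_Ioi_rpow_of_lt (by norm_num) hT]
      · congr 1
        norm_num
        rw [Real.rpow_neg_one]
      · filter_upwards [ae_restrict_mem measurableSet_Ioi] with t ht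
        exact Real.rpow_nonneg (hT.trans ht).le _
    rw [h1]
    apply setLIntegral_mono' measurableSet_Ioi
    intro t ht
    rw [← ENNReal.ofReal_mul (hf0 t)]
    exact ENNReal.ofReal_le_ofReal (htail t ht)

lemma X5_le {β t : ℝ} (hβ : 0 ≤ β) (hβ5 : β ≤ 5) (ht : 0 ≤ t) : Xz t ^ β ≤ 24 ^ 5 * (1 + t) ^ 10 := by
  have h1 : (1:ℝ) ≤ 24 * (1 + t) ^ 2 := by nlinarith
  calc Xz t ^ β ≤ (24 * (1 + t) ^ 2) ^ β := Real.rpow_le_rpow (Xz_nonneg t) (Xz_le ht) hβ
    _ ≤ (24 * (1 + t) ^ 2) ^ (5:ℝ) := Real.rpow_le_rpow_of_exponent_le h1 hβ5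
    _ = (24 * (1 + t) ^ 2) ^ 5 := by rw [← Real.rpow_natCast]; norm_num
    _ = _ := by ring

lemma iX5 {k : ℕ} {δ β : ℝ} (hδ : 0 < δ) (h0 : 0 ≤ β) (h5 : β ≤ 5) :
    IntegrableOn (fun t => om k δ t * Xz t ^ β) (Set.Ioi 0) := by
  refine om_poly_int hδ (Xz_pow_cont h0) (C := 24 ^ 5) 10 fun t ht => ?_
  rw [abs_of_nonneg (Real.rpow_nonneg (Xz_nonneg t) _)]
  exact X5_le h0 h5 ht

lemma inner_eq {k : ℕ} (hk : 1 ≤ k) {β x : ℝ} (hx : 0 < x) (h0 : 0 ≤ β) (h5 : β ≤ 5) :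
    ∫⁻ t in Set.Ioi (0:ℝ), ENNReal.ofReal (om k (k / x) t * Xz t ^ β) = ENNReal.ofReal (W β k x) := by
  have hk0 : (0:ℝ) < k := by exact_mod_cast hk
  unfold W
  rw [← ofReal_integral_eq_lintegral_ofReal (iX5 (by positivity) h0 h5)]
  filter_upwards [ae_restrict_mem measurableSet_Ioi] with t ht
  exact mul_nonneg (om_nonneg (by positivity) (le_of_lt ht)) (Real.rpow_nonneg (Xz_nonneg t) _)

lemma W_nonneg {k : ℕ} {β x : ℝ} (hx : 0 < x) : 0 ≤ W β k x := by
  unfold W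
  refine setIntegral_nonneg measurableSet_Ioi fun t ht => ?_
  exact mul_nonneg (om_nonneg (by positivity) (le_of_lt ht)) (Real.rpow_nonneg (Xz_nonneg t) _)

lemma ss_cmp {k : ℕ} (hk : 1 ≤ k) {β γ a b c : ℝ} (ha : 0 < a) (hβ0 : 0 ≤ β) (hβ5 : β ≤ 5)
    (hγ0 : 0 ≤ γ) (hγ5 : γ ≤ 5) (hc : 0 ≤ c) (h : ∀ x ∈ Set.Ioc a b, W β k x ≤ c * W γ k x) :
    SS k a b (fun t => Xz t ^ β) ≤ ENNReal.ofReal c * SS k a b (fun t => Xz t ^ γ) := by
  unfold SS
  rw [← lintegral_const_mul' _ _ ENNReal.ofReal_ne_top]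
  apply setLIntegral_mono' measurableSet_Ioc
  intro x hx
  have hx0 : 0 < x := ha.trans hx.1
  rw [inner_eq hk hx0 hβ0 hβ5, inner_eq hk hx0 hγ0 hγ5, ← ENNReal.ofReal_mul hc]
  exact ENNReal.ofReal_le_ofReal (h x hx)

lemma ss_bd {k : ℕ} (hk : 1 ≤ k) {β a b c : ℝ} (ha : 0 < a) (hβ0 : 0 ≤ β) (hβ5 : β ≤ 5)
    (hc : 0 ≤ c) (h : ∀ x ∈ Set.Ioc a b, W β k x ≤ c) :
    SS k a b (fun t => Xz t ^ β) ≤ ENNReal.ofReal (c * (b - a)) := by
  unfold SS
  have e2 : ∫⁻ _ in Set.Ioc a b, ENNReal.ofReal c = ENNReal.ofReal (c * (b - a)) := by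
    rw [setLIntegral_const, Real.volume_Ioc, ← ENNReal.ofReal_mul hc]
  rw [← e2]
  apply setLIntegral_mono' measurableSet_Ioc
  intro x hx
  have hx0 : 0 < x := ha.trans hx.1
  rw [inner_eq hk hx0 hβ0 hβ5]
  exact ENNReal.ofReal_le_ofReal (h x hx)

lemma ss_bd_low {k : ℕ} (hk : 1 ≤ k) {β a b c : ℝ} (ha : 0 < a) (hβ0 : 0 ≤ β) (hβ5 : β ≤ 5)
    (hc : 0 ≤ c) (h : ∀ x ∈ Set.Ioc a b, c ≤ W β k x) :
    ENNReal.ofReal (c * (b - a)) ≤ SS k a b (fun t => Xz t ^ β) := by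
  unfold SS
  have e2 : ∫⁻ _ in Set.Ioc a b, ENNReal.ofReal c = ENNReal.ofReal (c * (b - a)) := by
    rw [setLIntegral_const, Real.volume_Ioc, ← ENNReal.ofReal_mul hc]
  rw [← e2]
  apply setLIntegral_mono' measurableSet_Ioc
  intro x hx
  have hx0 : 0 < x := ha.trans hx.1
  rw [inner_eq hk hx0 hβ0 hβ5]
  exact ENNReal.ofReal_le_ofReal (h x hx)

/-- Poisson probabilities in the interior -/
lemma PhC {κ : ℝ} (hκ : 0 < κ) : ∃ K : ℝ, ∀ k : ℕ, K ≤ k → ∀ t a b : ℝ, 0 < a →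
    (1 + κ) * a ≤ t → (1 + κ) * t ≤ b → 1 - κ ≤ Ph k (k * t / b) - Ph k (k * t / a) := by
  set v1 : ℝ := 1 / (1 + κ) with hv1
  have hv1_0 : 0 < v1 := by positivity
  have hv1_1 : v1 < 1 := by rw [hv1, div_lt_one (by linarith)]; linarith
  set g1 : ℝ := -(Real.log v1 + (1 - v1)) with hg1
  have hg1_0 : 0 < g1 := by
    have := Real.log_lt_sub_one_of_pos hv1_0 hv1_1.ne
    rw [hg1]; linarith
  set g2 : ℝ := ((1 + κ) - 1 - Real.log (1 + κ)) / (1 + κ) with hg2
  have hg2_0 : 0 < g2 := gam_pos (by linarith : (1:ℝ) < 1 + κ)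
  refine ⟨max (Real.log (2 / κ) / g1) (Real.log (2 / κ) / g2), ?_⟩
  intro k hK t a b ha hat htb
  have ht0 : 0 < t := lt_of_lt_of_le (by positivity) hat
  have hb0 : 0 < b := lt_of_lt_of_le (by positivity) htb
  have hex : ∀ g : ℝ, 0 < g → Real.log (2 / κ) / g ≤ k → Real.exp (-(g * k)) ≤ κ / 2 := by
    intro g hg h
    rw [div_le_iff₀ hg] at h
    have e : κ / 2 = Real.exp (-(Real.log (2 / κ))) := by
      rw [Real.exp_neg, Real.exp_log (by positivity), inv_div]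
    rw [e]
    exact Real.exp_le_exp.mpr (by linarith)
  have hx1 := hex g1 hg1_0 ((le_max_left _ _).trans hK)
  have hx2 := hex g2 hg2_0 ((le_max_right _ _).trans hK)
  have a1 : 1 - κ / 2 ≤ Ph k (k * t / b) := by
    set v := t / b with hv
    have hv0 : 0 < v := by positivity
    have hvv : v ≤ v1 := by
      rw [hv, hv1, div_le_div_iff₀ hb0 (by linarith)]
      linarith
    have h2 : v * Real.exp (1 - v) ≤ Real.exp (-g1) := by
      have h3 : v * Real.exp (1 - v) = Real.exp (Real.log v + (1 - v)) := by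
        rw [Real.exp_add, Real.exp_log hv0]
      rw [h3, hg1, neg_neg]
      apply Real.exp_le_exp.mpr
      have h4 : Real.log v ≤ Real.log v1 + (v / v1 - 1) := by
        have := Real.log_le_sub_one_of_pos (div_pos hv0 hv1_0)
        rw [Real.log_div hv0.ne' hv1_0.ne'] at this
        linarith
      have h5 : v / v1 - v ≤ 1 - v1 := by
        have e : v / v1 - v = v * ((1 - v1) / v1) := by field_simp
        have e' : 1 - v1 = v1 * ((1 - v1) / v1) := by field_simp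
        rw [e]
        conv_rhs => rw [e']
        refine mul_le_mul_of_nonneg_right hvv ?_
        have : 0 < 1 - v1 := by linarith
        positivity
      linarith
    have h3 := Ph_low k hv0.le (hvv.trans hv1_1.le)
    have h4 : (v * Real.exp (1 - v)) ^ k ≤ κ / 2 := by
      calc (v * Real.exp (1 - v)) ^ k ≤ Real.exp (-g1) ^ k := pow_le_pow_left₀ (by positivity) h2 k
        _ = Real.exp (-(g1 * k)) := by rw [← Real.exp_nat_mul]; congr 1; ring
        _ ≤ _ := hx1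
    rw [mul_div_assoc, ← hv]
    linarith
  have a2 : Ph k (k * t / a) ≤ κ / 2 := by
    set v := t / a with hv
    have hv2 : 1 + κ ≤ v := by
      rw [hv, le_div_iff₀ ha]; exact hat
    have h2 := gam (by linarith : (1:ℝ) < 1 + κ) hv2
    have h3 := Ph_chernoff k (show 1 ≤ v by linarith)
    rw [mul_div_assoc, ← hv]
    calc Ph k (k * v) ≤ (v * Real.exp (1 - v)) ^ k := h3
      _ ≤ Real.exp (-(g2 * v)) ^ k := pow_le_pow_left₀ (by positivity) h2 k
      _ = Real.exp (-(g2 * v * k)) := by rw [← Real.exp_nat_mul]; congr 1; ring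
      _ ≤ Real.exp (-(g2 * k)) := by
          apply Real.exp_le_exp.mpr
          have h5 : g2 * k * 1 ≤ g2 * k * v := mul_le_mul_of_nonneg_left (by linarith) (by positivity)
          linarith
      _ ≤ _ := hx2
  linarith

/-- the common exponent of the windows -/
def kk (T : ℝ) : ℕ := ⌈3 * Real.log T ^ 2⌉₊

lemma kk_ev : ∀ᶠ T : ℝ in atTop, 1 ≤ kk T ∧ 3 * Real.log T ^ 2 ≤ kk T ∧
    ∀ x ∈ Set.Icc (T ^ ((9:ℝ)/10) / 2) (8 * T), Rng x (kk T) ∧
      1 / 2 * Real.log T ≤ Real.log x ∧ Real.log x ≤ 2 * Real.log T := by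
  filter_upwards [Real.tendsto_log_atTop.eventually_ge_atTop 100, eventually_gt_atTop 0] with T hL hT0
  set L := Real.log T with hLd
  have hl8 : Real.log (8 * T) = Real.log 8 + L := Real.log_mul (by norm_num) hT0.ne'
  have hlog2 := Real.log_two_lt_d9
  have hlog2' := Real.log_two_gt_d9
  have h8 : Real.log 8 = 3 * Real.log 2 := by
    rw [show (8:ℝ) = 2 ^ 3 by norm_num, Real.log_pow]; norm_num
  have k1 : 3 * L ^ 2 ≤ (kk T : ℝ) := Nat.le_ceil _
  have k2 : (kk T : ℝ) < 3 * L ^ 2 + 1 := Nat.ceil_lt_add_one (by positivity)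
  refine ⟨?_, k1, ?_⟩
  · have : (1:ℝ) ≤ kk T := by nlinarith
    exact_mod_cast this
  · intro x hx
    have hT9 : 0 < T ^ ((9:ℝ)/10) := by positivity
    have hx0 : 0 < x := lt_of_lt_of_le (by positivity) hx.1
    have h1 : 9 / 10 * L - Real.log 2 ≤ Real.log x := by
      have := Real.log_le_log (by positivity) hx.1
      rwa [Real.log_div (by positivity) (by norm_num), Real.log_rpow hT0] at this
    have h2 : Real.log x ≤ Real.log 8 + L := by
      rw [← hl8]; exact Real.log_le_log hx0 hx.2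
    refine ⟨⟨?_, ?_⟩, by linarith, by rw [h8] at h2; linarith⟩
    · refine le_trans ?_ k1
      have h3 : Real.log x ^ 2 ≤ (Real.log 8 + L) ^ 2 := pow_le_pow_left₀ (by linarith) h2 2
      refine h3.trans ?_
      rw [h8]
      nlinarith
    · refine k2.le.trans ?_
      have h3 : (9 / 10 * L - Real.log 2) ^ 2 ≤ Real.log x ^ 2 := pow_le_pow_left₀ (by linarith) h1 2
      nlinarith

end

end Pool.Agent.TH73.N4_FIN
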