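import Pool.Agent.TH73.N4_FINa
set_option autoImplicit false

/-!
N4-FIN, part 2: short segments, lower bound, initial segment.
-/

namespace Pool.Agent.TH73.N4_FIN
open Finset Filter Topology MeasureTheory Complex MonoidAlgebra
open Pool.Agent.W184.NZ Pool.Agent.TH806 Pool.Agent.TH806.N4
open Pool.Agent.H306R2.SM (om cl Yf)
open Pool.Agent.H262R4.TM (Rng Ck)
open Pool.Agent.H965R2.SMT1 (Ph Ph_nonneg Ph_le_one Ph_chernoff om_nonneg gam gam_pos tail_bound)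

noncomputable section

/-- integrals from 0 -/
def I0 (β T : ℝ) : ℝ := ∫ t in (0:ℝ)..T, Xz t ^ β

lemma I0_sub {β : ℝ} (hβ : 0 ≤ β) (a b : ℝ) : ∫ t in a..b, Xz t ^ β = I0 β b - I0 β a := by
  have hc : Continuous fun t => Xz t ^ β := Xz_pow_cont hβ
  have e := intervalIntegral.integral_add_adjacent_intervals (hc.intervalIntegrable 0 a)
    (hc.intervalIntegrable a b) (μ := volume)
  unfold I0
  linarith

lemma I0_mono {β : ℝ} (hβ : 0 ≤ β) {a b : ℝ} (hab : a ≤ b) : I0 β a ≤ I0 β b := by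
  have h1 : 0 ≤ ∫ t in a..b, Xz t ^ β := intervalIntegral.integral_nonneg hab fun t _ =>
    Real.rpow_nonneg (Xz_nonneg _) _
  rw [I0_sub hβ] at h1
  linarith

lemma I0_nonneg {β : ℝ} {a : ℝ} (ha : 0 ≤ a) : 0 ≤ I0 β a :=
  intervalIntegral.integral_nonneg ha fun t _ => Real.rpow_nonneg (Xz_nonneg _) _

lemma seg5 {β : ℝ} (h0 : 0 ≤ β) (h5 : β ≤ 5) (x : ℝ) :
    |I0 β x| ≤ 24 ^ 5 * (1 + |x|) ^ 10 * |x| := by
  have := intervalIntegral.norm_integral_le_of_norm_le_const (a := (0:ℝ)) (b := x)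
    (C := 24 ^ 5 * (1 + |x|) ^ 10) (f := fun t => Xz t ^ β) (fun y hy => by
      rw [Real.norm_of_nonneg (Real.rpow_nonneg (Xz_nonneg _) _), Xz_abs]
      refine (X5_le h0 h5 (abs_nonneg y)).trans ?_
      have : |y| ≤ |x| := by
        rcases Set.mem_uIoc.mp hy with h | h
        · rw [abs_of_nonneg h.1.le, abs_of_nonneg (by linarith [h.1, h.2])]; exact h.2
        · rw [abs_of_nonpos h.2, abs_of_neg (by linarith [h.1, h.2])]; linarith [h.1]
      gcongr)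
  rwa [Real.norm_eq_abs, sub_zero] at this

lemma e9 {κ : ℝ} (hκ : 0 < κ) : ∀ᶠ T : ℝ in atTop, T ^ ((9:ℝ)/10) ≤ κ * T := by
  have h1 : Tendsto (fun T : ℝ => T ^ (-(1 / 10) : ℝ)) atTop (𝓝 0) :=
    tendsto_rpow_neg_atTop (by norm_num)
  filter_upwards [h1.eventually_le_const hκ, eventually_gt_atTop (0:ℝ)] with T h hT
  have e : T ^ ((9:ℝ)/10) = T ^ (-(1 / 10) : ℝ) * T := by
    have : T ^ (-(1 / 10) : ℝ) * T = T ^ (-(1 / 10) : ℝ) * T ^ (1:ℝ) := by rw [Real.rpow_one]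
    rw [this, ← Real.rpow_add hT]; norm_num
  rw [e]
  exact mul_le_mul_of_nonneg_right h hT.le

lemma e9_top (c : ℝ) : ∀ᶠ T : ℝ in atTop, c ≤ T ^ ((9:ℝ)/10) / 2 :=
  ((tendsto_rpow_atTop (by norm_num : (0:ℝ) < 9 / 10)).atTop_div_const (by norm_num)).eventually_ge_atTop c

lemma kk_top (K : ℝ) : ∀ᶠ T : ℝ in atTop, K ≤ kk T := by
  have h1 : Tendsto (fun T : ℝ => 3 * Real.log T ^ 2) atTop atTop :=
    ((tendsto_pow_atTop (by norm_num)).comp Real.tendsto_log_atTop).const_mul_atTop (by norm_num)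
  filter_upwards [h1.eventually_ge_atTop K, kk_ev] with T h h2
  exact h.trans h2.2.1

lemma base (h4 : P_W4) : ∃ c C : ℝ, 0 < c ∧ 0 < C ∧ ∀ᶠ T : ℝ in atTop,
    ∀ x ∈ Set.Icc (T ^ ((9:ℝ)/10) / 2) (8 * T), c * Real.log T ^ 4 ≤ W 4 (kk T) x ∧
      W 4 (kk T) x ≤ C * Real.log T ^ 4 := by
  obtain ⟨c, C, hc, hC, h⟩ := h4
  obtain ⟨T0, hT0⟩ := eventually_atTop.1 h
  refine ⟨c / 16, C * 16, by positivity, by positivity, ?_⟩
  filter_upwards [kk_ev, e9_top T0, Real.tendsto_log_atTop.eventually_ge_atTop 1] with T hk h0 hL x hx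
  obtain ⟨-, -, hk⟩ := hk
  obtain ⟨hr, h1, h2⟩ := hk x hx
  obtain ⟨a1, a2⟩ := hT0 x (h0.trans hx.1) (kk T) hr
  constructor
  · have h3 : (1 / 2 * Real.log T) ^ 4 ≤ Real.log x ^ 4 := pow_le_pow_left₀ (by linarith) h1 4
    calc c / 16 * Real.log T ^ 4 = c * (1 / 2 * Real.log T) ^ 4 := by ring
      _ ≤ c * Real.log x ^ 4 := by gcongr
      _ ≤ _ := a1
  · have h3 : Real.log x ^ 4 ≤ (2 * Real.log T) ^ 4 := pow_le_pow_left₀ (by linarith) h2 4
    calc W 4 (kk T) x ≤ C * Real.log x ^ 4 := a2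
      _ ≤ C * (2 * Real.log T) ^ 4 := by gcongr
      _ = _ := by ring

/-- the tails of the windows -/
lemma tailk {σ c : ℝ} (hσ0 : 0 < σ) (hσ1 : σ < 1) (hc0 : 0 < c) : ∀ᶠ T : ℝ in atTop,
    ∀ β : ℝ, 0 ≤ β → β ≤ 5 → ∀ t : ℝ, c * T < t →
      Xz t ^ β * Ph (kk T) ((kk T : ℕ) * t / (σ * (c * T))) ≤ t ^ (-2 : ℝ) := by
  have hv0 : 1 < 1 / σ := by rw [lt_div_iff₀ hσ0]; linarith
  set γ := (1 / σ - 1 - Real.log (1 / σ)) / (1 / σ) with hγ
  have hγ0 : 0 < γ := gam_pos hv0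
  have hcT : Tendsto (fun T : ℝ => c * T) atTop atTop := tendsto_id.const_mul_atTop hc0
  have hlcT := Real.tendsto_log_atTop.comp hcT
  filter_upwards [hcT.eventually_ge_atTop (max 1 (24 ^ 5 * 2 ^ 10)), kk_ev,
    hlcT.eventually_ge_atTop (max 1 ((2 * ((10:ℕ):ℝ) + 5) / (2 * γ))),
    Real.tendsto_log_atTop.eventually_ge_atTop (10 * |Real.log c|), eventually_gt_atTop (0:ℝ),
    Real.tendsto_log_atTop.eventually_ge_atTop 1] with
    T t1 hk t2 t3 hT0 hL1 β hβ0 hβ5 t ht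
  simp only [Function.comp] at t2
  refine tail_bound (f := fun t => Xz t ^ β) (C := 24 ^ 5) (A := 10)
    (fun t => Real.rpow_nonneg (Xz_nonneg t) _) (by norm_num) (fun t ht => X5_le hβ0 hβ5 ht) hσ0 hσ1
    ((le_max_left _ _).trans t1) ((le_max_right _ _).trans t1) ((le_max_left _ _).trans t2) ?_ ?_ ht
  · rw [← hγ]
    have := (le_max_right _ _).trans t2
    rw [div_le_iff₀ (by positivity)] at this
    linarith
  · refine le_trans ?_ hk.2.1
    rw [Real.log_mul hc0.ne' hT0.ne']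
    have h1 := le_abs_self (Real.log c)
    have h2 : 0 ≤ Real.log c + Real.log T := by
      have := neg_abs_le (Real.log c)
      have := abs_nonneg (Real.log c)
      linarith
    have h3 : (Real.log c + Real.log T) ^ 2 ≤ (11 / 10 * Real.log T) ^ 2 :=
      pow_le_pow_left₀ h2 (by linarith) 2
    nlinarith

/-- short segments -/
theorem short (h4 : P_W4) : ∃ C : ℝ, 0 < C ∧ ∀ κ : ℝ, 0 < κ → κ ≤ 1 / 2 → ∀ᶠ T : ℝ in atTop,
    I0 4 ((1 + κ) * T) - I0 4 ((1 - κ) * T) ≤ C * κ * (T * Real.log T ^ 4) := by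
  obtain ⟨c, C, hc, hC, hb⟩ := base h4
  refine ⟨12 * C, by positivity, fun κ hκ hκ1 => ?_⟩
  obtain ⟨K, hK⟩ := PhC hκ
  filter_upwards [hb, kk_ev, kk_top K, e9 (show (0:ℝ) < 1 / 2 by norm_num), eventually_gt_atTop (0:ℝ)] with
    T hb hk hkK h9 hT
  have hκp : 0 < 1 + κ := by linarith
  have hκm : 0 < 1 - κ := by linarith
  set a := (1 - κ) * T / (1 + κ) with ha
  set b := (1 + κ) ^ 2 * T with hbd
  have ha0 : 0 < a := by positivity
  have haT : T / 3 ≤ a := by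
    rw [ha, div_le_div_iff₀ (by norm_num) hκp]
    nlinarith
  have hbT : b ≤ 8 * T := by
    rw [hbd]
    have : (1 + κ) ^ 2 ≤ 8 := by nlinarith
    exact mul_le_mul_of_nonneg_right this hT.le
  have hba : b - a ≤ 6 * κ * T := by
    have h1 : a * (1 + κ) = (1 - κ) * T := by rw [ha]; field_simp
    have h2 : (1 - 2 * κ) * T ≤ a := by
      rw [ha, le_div_iff₀ hκp]
      have : (1 - 2 * κ) * (1 + κ) ≤ 1 - κ := by nlinarith
      calc (1 - 2 * κ) * T * (1 + κ) = ((1 - 2 * κ) * (1 + κ)) * T := by ring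
        _ ≤ _ := mul_le_mul_of_nonneg_right this hT.le
    have h3 : b ≤ (1 + 5 / 2 * κ) * T := by
      rw [hbd]
      refine mul_le_mul_of_nonneg_right ?_ hT.le
      nlinarith
    nlinarith [mul_pos hκ hT]
  have hab : a ≤ b := by
    have h1 : a ≤ T := by
      rw [ha, div_le_iff₀ hκp]
      nlinarith
    have h2 : T ≤ b := by
      rw [hbd]
      nlinarith
    linarith
  have hc4 : Continuous fun t => Xz t ^ (4:ℝ) := Xz_pow_cont (by norm_num)
  have h1 := ss_low hc4 (fun t => Real.rpow_nonneg (Xz_nonneg t) _) hk.1 (a := a) (b := b)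
    (A := (1 - κ) * T) (B := (1 + κ) * T) (κ := κ) ha0 hab (by positivity) (by nlinarith) (by linarith)
    (fun t ht => hK _ hkK t a b ha0 (by
      rw [ha]
      have : (1 + κ) * ((1 - κ) * T / (1 + κ)) = (1 - κ) * T := by field_simp
      rw [this]; exact ht.1.le) (by
      rw [hbd]
      calc (1 + κ) * t ≤ (1 + κ) * ((1 + κ) * T) := mul_le_mul_of_nonneg_left ht.2 hκp.le
        _ = _ := by ring))
  have hL4 : 0 ≤ Real.log T ^ 4 := by positivity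
  have h2 := ss_bd hk.1 (β := 4) (a := a) (b := b) (c := C * Real.log T ^ 4) ha0 (by norm_num)
    (by norm_num) (by positivity) (fun x hx => (hb x ⟨by linarith [hx.1], hx.2.trans hbT⟩).2)
  have h3 := h1.trans h2
  rw [ENNReal.ofReal_le_ofReal_iff (mul_nonneg (by positivity) (by linarith)), I0_sub (by norm_num)] at h3
  have h5 : 0 ≤ I0 4 ((1 + κ) * T) - I0 4 ((1 - κ) * T) :=
    sub_nonneg.2 (I0_mono (by norm_num) (by nlinarith))
  have h6 : C * Real.log T ^ 4 * (b - a) ≤ C * Real.log T ^ 4 * (6 * κ * T) :=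
    mul_le_mul_of_nonneg_left hba (by positivity)
  have h7 : 1 / 2 * (I0 4 ((1 + κ) * T) - I0 4 ((1 - κ) * T)) ≤
      (1 - κ) * (I0 4 ((1 + κ) * T) - I0 4 ((1 - κ) * T)) :=
    mul_le_mul_of_nonneg_right (by linarith) h5
  nlinarith

/-- lower bound -/
theorem below (h4 : P_W4) : ∃ c : ℝ, 0 < c ∧ ∀ᶠ T : ℝ in atTop,
    c * (T * Real.log T ^ 4) ≤ I0 4 T := by
  obtain ⟨c, C, hc, hC, hb⟩ := base h4
  refine ⟨c / 8, by positivity, ?_⟩
  filter_upwards [hb, kk_ev, tailk (show (0:ℝ) < 1 / 2 by norm_num) (show (1:ℝ) / 2 < 1 by norm_num)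
    (show (0:ℝ) < 1 by norm_num), e9 (show (0:ℝ) < 1 / 2 by norm_num), eventually_gt_atTop (0:ℝ),
    eventually_ge_atTop (max 1 (8 / c)), Real.tendsto_log_atTop.eventually_ge_atTop 1] with
    T hb hk htl h9 hT hT1 hL1
  have hc4 : Continuous fun t => Xz t ^ (4:ℝ) := Xz_pow_cont (by norm_num)
  have h1 := ss_high hc4 (fun t => Real.rpow_nonneg (Xz_nonneg t) _) hk.1 (a := T / 4) (b := T / 2)
    (T := T) (by positivity) (by linarith) (by linarith) (by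
      intro t ht
      have := htl 4 (by norm_num) (by norm_num) t (by linarith)
      rwa [show (1 / 2 : ℝ) * (1 * T) = T / 2 by ring] at this)
  have hL4 : 1 ≤ Real.log T ^ 4 := one_le_pow₀ hL1
  have h2 := ss_bd_low hk.1 (β := 4) (a := T / 4) (b := T / 2) (c := c * Real.log T ^ 4)
    (by positivity) (by norm_num) (by norm_num) (by positivity)
    (fun x hx => (hb x ⟨by linarith [hx.1], by linarith [hx.2]⟩).1)
  have h3 : ENNReal.ofReal (c * Real.log T ^ 4 * (T / 2 - T / 4)) ≤ ENNReal.ofReal (I0 4 T + 1 / T) :=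
    h2.trans h1
  rw [ENNReal.ofReal_le_ofReal_iff (add_nonneg (I0_nonneg hT.le) (by positivity))] at h3
  have h4 : 1 / T ≤ 1 := by
    rw [div_le_one hT]; exact (le_max_left _ _).trans hT1
  have h5 : 8 ≤ c * T := by
    have := (le_max_right _ _).trans hT1
    rw [div_le_iff₀ hc] at this
    linarith
  have h6 : c * T * 1 ≤ c * T * Real.log T ^ 4 := mul_le_mul_of_nonneg_left hL4 (by positivity)
  nlinarith

/-- one step towards zero -/
theorem iter1 (h4 : P_W4) : ∃ C : ℝ, 0 < C ∧ ∀ᶠ T : ℝ in atTop,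
    I0 4 T ≤ I0 4 (T ^ ((9:ℝ)/10)) + C * (T * Real.log T ^ 4) := by
  obtain ⟨c, C, hc, hC, hb⟩ := base h4
  refine ⟨3 * C, by positivity, ?_⟩
  obtain ⟨K, hK⟩ := PhC (show (0:ℝ) < 1 / 2 by norm_num)
  filter_upwards [hb, kk_ev, kk_top K, e9 (show (0:ℝ) < 1 by norm_num), eventually_gt_atTop (0:ℝ)] with
    T hb hk hkK h9 hT
  have hc4 : Continuous fun t => Xz t ^ (4:ℝ) := Xz_pow_cont (by norm_num)
  have hA0 : 0 < T ^ ((9:ℝ)/10) := by positivity
  have h1 := ss_low hc4 (fun t => Real.rpow_nonneg (Xz_nonneg t) _) hk.1 (a := T ^ ((9:ℝ)/10) / 2)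
    (b := 3 / 2 * T) (A := T ^ ((9:ℝ)/10)) (B := T) (κ := 1 / 2) (by positivity) (by linarith) hA0
    (by linarith) (by norm_num)
    (fun t ht => hK _ hkK t _ _ (by positivity) (by linarith [ht.1]) (by linarith [ht.2]))
  have hL4 : 0 ≤ Real.log T ^ 4 := by positivity
  have h2 := ss_bd hk.1 (β := 4) (a := T ^ ((9:ℝ)/10) / 2) (b := 3 / 2 * T) (c := C * Real.log T ^ 4)
    (by positivity) (by norm_num)
    (by norm_num) (by positivity) (fun x hx => (hb x ⟨hx.1.le, by linarith [hx.2]⟩).2)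
  have h3 := h1.trans h2
  rw [ENNReal.ofReal_le_ofReal_iff (mul_nonneg (by positivity) (by linarith)), I0_sub (by norm_num)] at h3
  have h6 : C * Real.log T ^ 4 * (3 / 2 * T - T ^ ((9:ℝ)/10) / 2) ≤ C * Real.log T ^ 4 * (3 / 2 * T) :=
    mul_le_mul_of_nonneg_left (by linarith) (by positivity)
  nlinarith

theorem iter (h4 : P_W4) : ∃ C : ℝ, 0 < C ∧ ∀ n : ℕ, ∀ᶠ T : ℝ in atTop,
    I0 4 T ≤ I0 4 (T ^ (((9:ℝ)/10) ^ n)) + n * C * (T * Real.log T ^ 4) := by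
  obtain ⟨C, hC, h1⟩ := iter1 h4
  refine ⟨C, hC, fun n => ?_⟩
  induction n with
  | zero =>
    refine Eventually.of_forall fun T => ?_
    simp
  | succ n ih =>
    have ht : Tendsto (fun T : ℝ => T ^ ((9:ℝ) / 10)) atTop atTop := tendsto_rpow_atTop (by norm_num)
    filter_upwards [h1, ht.eventually ih, eventually_ge_atTop (1:ℝ),
      Real.tendsto_log_atTop.eventually_ge_atTop 1] with T h1 h2 hT1 hL1
    have hT0 : 0 < T := by linarith
    have e1 : (T ^ ((9:ℝ) / 10)) ^ (((9:ℝ) / 10) ^ n) = T ^ (((9:ℝ) / 10) ^ (n + 1)) := by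
      rw [← Real.rpow_mul hT0.le]; congr 1; ring
    rw [e1] at h2
    have h5 : T ^ ((9:ℝ) / 10) * Real.log (T ^ ((9:ℝ) / 10)) ^ 4 ≤ T * Real.log T ^ 4 := by
      have a1 : T ^ ((9:ℝ) / 10) ≤ T := by
        calc T ^ ((9:ℝ) / 10) ≤ T ^ (1:ℝ) := Real.rpow_le_rpow_of_exponent_le hT1 (by norm_num)
          _ = T := Real.rpow_one T
      have a2 : Real.log (T ^ ((9:ℝ) / 10)) ^ 4 ≤ Real.log T ^ 4 := by
        rw [Real.log_rpow hT0]
        refine pow_le_pow_left₀ (by positivity) (by linarith) 4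
      gcongr
    have h6 : n * C * (T ^ ((9:ℝ) / 10) * Real.log (T ^ ((9:ℝ) / 10)) ^ 4) ≤
        n * C * (T * Real.log T ^ 4) := mul_le_mul_of_nonneg_left h5 (by positivity)
    push_cast
    linarith

/-- the initial segment is negligible -/
theorem small (h4 : P_W4) {κ : ℝ} (hκ : 0 < κ) : ∀ᶠ T : ℝ in atTop, I0 4 (T ^ ((9:ℝ)/10)) ≤ κ * T := by
  obtain ⟨C, hC, hit⟩ := iter h4
  have ht : Tendsto (fun T : ℝ => T ^ ((9:ℝ) / 10)) atTop atTop := tendsto_rpow_atTop (by norm_num)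
  have hsm : ∀ᶠ T : ℝ in atTop, 24 ^ 5 * 2 ^ 10 * T ^ (-(1 / 10) : ℝ) +
      24 * C * (T ^ (-(1 / 10) : ℝ) * Real.log T ^ 4) ≤ κ := by
    have h1 : Tendsto (fun T : ℝ => 24 ^ 5 * 2 ^ 10 * T ^ (-(1 / 10) : ℝ) +
        24 * C * (T ^ (-(1 / 10) : ℝ) * Real.log T ^ 4)) atTop
        (𝓝 (24 ^ 5 * 2 ^ 10 * 0 + 24 * C * 0)) := by
      refine ((tendsto_rpow_neg_atTop (by norm_num)).const_mul _).add (Tendsto.const_mul _ ?_)
      have h2 := isLittleO_log_rpow_atTop (r := 1 / 40) (by norm_num)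
      have h3 := (h2.tendsto_div_nhds_zero).pow 4
      rw [zero_pow (by norm_num)] at h3
      refine h3.congr' ?_
      filter_upwards [eventually_gt_atTop (0:ℝ)] with T hT
      rw [div_pow, ← Real.rpow_natCast (T ^ (1 / 40 : ℝ)) 4, ← Real.rpow_mul hT.le, Real.rpow_neg hT.le]
      norm_num
      rw [div_eq_mul_inv, mul_comm]
    rw [mul_zero, mul_zero, add_zero] at h1
    exact h1.eventually_le_const hκ
  filter_upwards [ht.eventually (hit 24), hsm, eventually_ge_atTop (1:ℝ),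
    Real.tendsto_log_atTop.eventually_ge_atTop 1] with T h1 hsm hT1 hL1
  have hT0 : 0 < T := by linarith
  have hc : Continuous fun t => Xz t ^ (4:ℝ) := Xz_pow_cont (by norm_num)
  set U := (T ^ ((9:ℝ) / 10)) ^ (((9:ℝ) / 10) ^ 24) with hU
  have hT34 : 1 ≤ T ^ ((9:ℝ) / 10) := Real.one_le_rpow hT1 (by norm_num)
  have hU1 : 1 ≤ U := Real.one_le_rpow hT34 (by positivity)
  have hU11 : U ^ 11 ≤ T ^ (9 / 10 : ℝ) := by
    rw [hU, ← Real.rpow_natCast, ← Real.rpow_mul (by positivity)]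
    calc (T ^ ((9:ℝ) / 10)) ^ (((9:ℝ) / 10) ^ 24 * ((11:ℕ):ℝ)) ≤ (T ^ ((9:ℝ) / 10)) ^ (1:ℝ) :=
          Real.rpow_le_rpow_of_exponent_le hT34 (by norm_num)
      _ = _ := Real.rpow_one _
  have h2 : I0 4 U ≤ 24 ^ 5 * 2 ^ 10 * T ^ (9 / 10 : ℝ) := by
    have hm : ∫ t in (0:ℝ)..U, Xz t ^ (4:ℝ) ≤ ∫ t in (0:ℝ)..U, (24:ℝ) ^ 5 * 2 ^ 10 * U ^ 10 := by
      refine intervalIntegral.integral_mono_on (by linarith) (hc.intervalIntegrable _ _)
        (continuous_const.intervalIntegrable _ _) fun t ht => ?_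
      refine (X5_le (by norm_num) (by norm_num) ht.1).trans ?_
      have : (1 + t) ^ 10 ≤ (2 * U) ^ 10 := pow_le_pow_left₀ (by linarith [ht.1]) (by linarith [ht.2]) 10
      calc (24:ℝ) ^ 5 * (1 + t) ^ 10 ≤ 24 ^ 5 * (2 * U) ^ 10 := by gcongr
        _ = _ := by ring
    rw [intervalIntegral.integral_const, smul_eq_mul, sub_zero] at hm
    calc _ ≤ U * ((24:ℝ) ^ 5 * 2 ^ 10 * U ^ 10) := hm
      _ = 24 ^ 5 * 2 ^ 10 * U ^ 11 := by ring
      _ ≤ _ := by gcongr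
  have h3 : Real.log (T ^ ((9:ℝ) / 10)) ^ 4 ≤ Real.log T ^ 4 := by
    rw [Real.log_rpow hT0]
    refine pow_le_pow_left₀ (by positivity) (by linarith) 4
  have e1 : T ^ (9 / 10 : ℝ) = T * T ^ (-(1 / 10) : ℝ) := by
    have : T * T ^ (-(1 / 10) : ℝ) = T ^ (1:ℝ) * T ^ (-(1 / 10) : ℝ) := by rw [Real.rpow_one]
    rw [this, ← Real.rpow_add hT0]; norm_num
  calc I0 4 (T ^ ((9:ℝ) / 10)) ≤ 24 ^ 5 * 2 ^ 10 * T ^ (9 / 10 : ℝ) +
        ((24:ℕ):ℝ) * C * (T ^ ((9:ℝ) / 10) * Real.log (T ^ ((9:ℝ) / 10)) ^ 4) := by linarith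
    _ ≤ 24 ^ 5 * 2 ^ 10 * T ^ (9 / 10 : ℝ) + ((24:ℕ):ℝ) * C * (T ^ ((9:ℝ) / 10) * Real.log T ^ 4) := by
        gcongr
    _ = (24 ^ 5 * 2 ^ 10 * T ^ (-(1 / 10) : ℝ) + 24 * C * (T ^ (-(1 / 10) : ℝ) * Real.log T ^ 4)) * T := by
        rw [e1]; push_cast; ring
    _ ≤ κ * T := mul_le_mul_of_nonneg_right hsm hT0.le

end

end Pool.Agent.TH73.N4_FIN
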