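import Pool.Agent.TH806.N4.Defs3
import Pool.Agent.TH73.N4_FIN
set_option autoImplicit false

/-!
N4-SHT: sharp bounds near the exponent four in the intervals `[T, T + H]`.
-/

namespace Pool.Agent.TH73.N4_SHT
open Finset Filter Topology MeasureTheory Complex MonoidAlgebra
open Pool.Agent.W184.NZ Pool.Agent.TH806 Pool.Agent.TH806.N4
open Pool.Agent.H306R2.SM (om cl Yf)
open Pool.Agent.H262R4.TM (Rng Ck)
open Pool.Agent.H448R2.GC (cu cs ker XX)
open Pool.Agent.H965R2.SMT1 (Ph Ph_nonneg Ph_le_one Ph_chernoff om_nonneg gam gam_pos tail_bound)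
open Pool.Agent.TH73.N4_FIN

noncomputable section

lemma log_up {ρ : ℝ} (h0 : 0 ≤ ρ) (h1 : ρ ≤ 1) : Real.log (1 + ρ) ≤ ρ - ρ ^ 2 / 4 := by
  rw [Real.log_le_iff_le_exp (by linarith)]
  have h2 := Real.quadratic_le_exp_of_nonneg (show 0 ≤ ρ - ρ ^ 2 / 4 by nlinarith)
  refine le_trans ?_ h2
  have h3 : 0 ≤ ρ ^ 2 * (1 - ρ) := mul_nonneg (sq_nonneg _) (by linarith)
  have h4 : 0 ≤ ρ ^ 4 := by positivity
  nlinarith

lemma log_low {ρ : ℝ} (h0 : 0 ≤ ρ) (h1 : ρ ≤ 1) : ρ / (1 + ρ) + ρ ^ 2 / 8 ≤ Real.log (1 + ρ) := by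
  have h2 := Real.le_log_one_add_of_nonneg h0
  refine le_trans ?_ h2
  rw [div_add_div _ _ (by positivity) (by norm_num), div_le_div_iff₀ (by positivity) (by positivity)]
  have h3 : 0 ≤ ρ ^ 2 * (1 - ρ) := mul_nonneg (sq_nonneg _) (by linarith)
  have h4 : 0 ≤ ρ ^ 3 * (1 - ρ) := mul_nonneg (by positivity) (by linarith)
  nlinarith [pow_nonneg h0 3]

lemma phR {ρ : ℝ} (h0 : 0 < ρ) (h1 : ρ ≤ 1) (k : ℕ) {t b : ℝ} (ht : 0 < t) (hb : (1 + ρ) * t ≤ b) :
    1 - Ph k (k * t / b) ≤ Real.exp (-(ρ ^ 2 / 8 * k)) := by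
  have hb0 : 0 < b := lt_of_lt_of_le (by positivity) hb
  set v := t / b with hv
  have hv0 : 0 < v := by positivity
  set v1 : ℝ := 1 / (1 + ρ) with hv1
  have hv1_0 : 0 < v1 := by positivity
  have hvv : v ≤ v1 := by
    rw [hv, hv1, div_le_div_iff₀ hb0 (by linarith)]
    linarith
  have hv1_1 : v1 ≤ 1 := by rw [hv1, div_le_one (by linarith)]; linarith
  have h2 : v * Real.exp (1 - v) ≤ Real.exp (-(ρ ^ 2 / 8)) := by
    have h3 : v * Real.exp (1 - v) = Real.exp (Real.log v + (1 - v)) := by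
      rw [Real.exp_add, Real.exp_log hv0]
    rw [h3]
    apply Real.exp_le_exp.mpr
    have h4 : Real.log v ≤ Real.log v1 + (v / v1 - 1) := by
      have := Real.log_le_sub_one_of_pos (div_pos hv0 hv1_0)
      rw [Real.log_div hv0.ne' hv1_0.ne'] at this
      linarith
    have h5 : v / v1 - v ≤ 1 - v1 := by
      have e : v / v1 - v = v * ((1 - v1) / v1) := by field_simp
      have e' : 1 - v1 = v1 * ((1 - v1) / v1) := by field_simp
      rw [e]
      conv_rhs => rw [e']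
      refine mul_le_mul_of_nonneg_right hvv ?_
      have : 0 ≤ 1 - v1 := by linarith
      positivity
    have h6 : Real.log v1 = -Real.log (1 + ρ) := by
      rw [hv1, one_div, Real.log_inv]
    have h7 := log_low h0.le h1
    have h8 : 1 - v1 = ρ / (1 + ρ) := by rw [hv1]; field_simp; ring
    linarith
  have h3 := Ph_low k hv0.le (hvv.trans hv1_1)
  have h4 : (v * Real.exp (1 - v)) ^ k ≤ Real.exp (-(ρ ^ 2 / 8 * k)) := by
    calc (v * Real.exp (1 - v)) ^ k ≤ Real.exp (-(ρ ^ 2 / 8)) ^ k := pow_le_pow_left₀ (by positivity) h2 k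
      _ = Real.exp (-(ρ ^ 2 / 8 * k)) := by rw [← Real.exp_nat_mul]; congr 1; ring
  rw [mul_div_assoc, ← hv]
  linarith

lemma phL {ρ : ℝ} (h0 : 0 < ρ) (h1 : ρ ≤ 1) (k : ℕ) {t a : ℝ} (ha : 0 < a) (hat : (1 + ρ) * a ≤ t) :
    Ph k (k * t / a) ≤ Real.exp (-(ρ ^ 2 / 8 * (t / a) * k)) := by
  set v := t / a with hv
  have hv2 : 1 + ρ ≤ v := by
    rw [hv, le_div_iff₀ ha]; exact hat
  have h2 := gam (by linarith : (1:ℝ) < 1 + ρ) hv2
  have h3 := Ph_chernoff k (show 1 ≤ v by linarith)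
  have hg : ρ ^ 2 / 8 ≤ ((1 + ρ) - 1 - Real.log (1 + ρ)) / (1 + ρ) := by
    rw [le_div_iff₀ (by linarith)]
    have := log_up h0.le h1
    nlinarith [sq_nonneg ρ, mul_nonneg (sq_nonneg ρ) (show 0 ≤ 1 - ρ by linarith)]
  rw [mul_div_assoc, ← hv]
  calc Ph k (k * v) ≤ (v * Real.exp (1 - v)) ^ k := h3
    _ ≤ Real.exp (-(ρ ^ 2 / 8 * v)) ^ k := by
        refine pow_le_pow_left₀ (mul_nonneg (by linarith) (Real.exp_nonneg _))
          (h2.trans (Real.exp_le_exp.mpr ?_)) k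
        have := mul_le_mul_of_nonneg_right hg (show 0 ≤ v by linarith)
        linarith
    _ = Real.exp (-(ρ ^ 2 / 8 * v * k)) := by rw [← Real.exp_nat_mul]; congr 1; ring

lemma ss_high2 {f : ℝ → ℝ} (hf : Continuous f) (hf0 : ∀ t, 0 ≤ f t) {k : ℕ} (hk : 1 ≤ k) {a b A B : ℝ}
    (ha : 0 < a) (hab : a ≤ b) (hA : 0 < A) (hAB : A ≤ B)
    (hl : ∀ t, 0 < t → t ≤ A → f t * (1 - Ph k (k * t / a)) ≤ 1 / A)
    (htail : ∀ t, B < t → f t * Ph k (k * t / b) ≤ t ^ (-2 : ℝ)) :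
    SS k a b f ≤ ENNReal.ofReal ((∫ t in A..B, f t) + 1 + 1 / B) := by
  have hb : 0 < b := ha.trans_le hab
  have hB : 0 < B := hA.trans_le hAB
  rw [ss_swap hf hf0 hk ha hab]
  have hsplit : Set.Ioi (0 : ℝ) = Set.Ioc 0 A ∪ (Set.Ioc A B ∪ Set.Ioi B) := by
    rw [Set.Ioc_union_Ioi_eq_Ioi hAB, Set.Ioc_union_Ioi_eq_Ioi hA.le]
  have hd1 : Disjoint (Set.Ioc 0 A) (Set.Ioc A B ∪ Set.Ioi B) := by
    rw [Set.Ioc_union_Ioi_eq_Ioi hAB]
    exact Set.Ioc_disjoint_Ioi le_rfl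
  rw [hsplit, lintegral_union (measurableSet_Ioc.union measurableSet_Ioi) hd1,
    lintegral_union measurableSet_Ioi (Set.Ioc_disjoint_Ioi le_rfl)]
  have hi0 : 0 ≤ ∫ t in A..B, f t := intervalIntegral.integral_nonneg hAB fun t _ => hf0 t
  rw [show (∫ t in A..B, f t) + 1 + 1 / B = 1 + ((∫ t in A..B, f t) + 1 / B) by ring,
    ENNReal.ofReal_add (by norm_num) (by positivity), ENNReal.ofReal_add hi0 (by positivity)]
  refine add_le_add ?_ (add_le_add ?_ ?_)
  · have h1 : ENNReal.ofReal 1 = ∫⁻ _ in Set.Ioc 0 A, ENNReal.ofReal (1 / A) := by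
      rw [setLIntegral_const, Real.volume_Ioc, ← ENNReal.ofReal_mul (by positivity)]
      congr 1
      rw [sub_zero]; field_simp
    rw [h1]
    apply setLIntegral_mono' measurableSet_Ioc
    intro t ht
    rw [← ENNReal.ofReal_mul (hf0 t)]
    refine ENNReal.ofReal_le_ofReal (le_trans (mul_le_mul_of_nonneg_left ?_ (hf0 t)) (hl t ht.1 ht.2))
    have := Ph_le_one k (u := k * t / b) (by have := ht.1; positivity)
    linarith
  · rw [intervalIntegral.integral_of_le hAB, ofReal_integral_eq_lintegral_ofReal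
        ((hf.intervalIntegrable A B).1) (Filter.Eventually.of_forall fun t => hf0 t)]
    apply setLIntegral_mono' measurableSet_Ioc
    intro t ht
    have ht0 : 0 < t := hA.trans ht.1
    have h1 : Ph k (k * t / b) ≤ 1 := Ph_le_one k (by positivity)
    have h2 := Ph_nonneg k (u := k * t / a) (by positivity)
    calc ENNReal.ofReal (f t) * ENNReal.ofReal (Ph k (k * t / b) - Ph k (k * t / a))
        ≤ ENNReal.ofReal (f t) * 1 := by
          gcongr
          exact ENNReal.ofReal_le_one.2 (by linarith)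
      _ = ENNReal.ofReal (f t) := mul_one _
  · have h1 : ENNReal.ofReal (1 / B) = ∫⁻ t in Set.Ioi B, ENNReal.ofReal (t ^ (-2 : ℝ)) := by
      rw [← ofReal_integral_eq_lintegral_ofReal
        (integrableOn_Ioi_rpow_of_lt (by norm_num) hB), integral_Ioi_rpow_of_lt (by norm_num) hB]
      · congr 1
        norm_num
        rw [Real.rpow_neg_one]
      · filter_upwards [ae_restrict_mem measurableSet_Ioi] with t ht
        exact Real.rpow_nonneg (hB.trans ht).le _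
    rw [h1]
    apply setLIntegral_mono' measurableSet_Ioi
    intro t ht
    have ht0 : 0 < t := hB.trans ht
    rw [← ENNReal.ofReal_mul (hf0 t)]
    refine ENNReal.ofReal_le_ofReal (le_trans (mul_le_mul_of_nonneg_left ?_ (hf0 t)) (htail t ht))
    have := Ph_nonneg k (u := k * t / a) (by positivity)
    linarith

/-- the constant -/
def c4 : ℝ := 1 / (2 * Real.pi ^ 2)

lemma c4_pos : 0 < c4 := by unfold c4; positivity

lemma c4_le : c4 ≤ 1 / 2 := by
  unfold c4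
  rw [div_le_div_iff₀ (by positivity) (by norm_num)]
  have := Real.pi_gt_three
  nlinarith

lemma W4_of (hI : P_ING) : P_W4 := by
  refine ⟨c4 / 2, c4 + c4 / 2, by have := c4_pos; linarith, by have := c4_pos; linarith, ?_⟩
  filter_upwards [hI (c4 / 2) (by have := c4_pos; linarith)] with T h κ hr
  have h1 := abs_le.mp (h κ hr)
  change -(c4 / 2 * Real.log T ^ 4) ≤ W 4 κ T - c4 * Real.log T ^ 4 ∧
    W 4 κ T - c4 * Real.log T ^ 4 ≤ c4 / 2 * Real.log T ^ 4 at h1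
  constructor
  · nlinarith [h1.1]
  · nlinarith [h1.2]

lemma rpow4 {x : ℝ} (β : ℝ) (hx : 0 < x) : x ^ (β ^ 2 / 4 - 4) * x ^ 4 = x ^ (β ^ 2 / 4) := by
  have : x ^ 4 = x ^ (4:ℝ) := by rw [← Real.rpow_natCast]; norm_num
  rw [this, ← Real.rpow_add hx]; congr 1; ring

/-- the windows -/
theorem win (hI : P_ING) (hw : P_WIN) {κ : ℝ} (hκ : 0 < κ) (hκ1 : κ ≤ 1 / 10) : ∃ δ : ℝ, 0 < δ ∧ δ ≤ 1 / 40 ∧
    ∀ᶠ T : ℝ in atTop,
      (∀ x ∈ Set.Icc (T ^ ((9:ℝ)/10) / 2) (8 * T), ∀ β : ℝ, 4 - δ ≤ β → β ≤ 4 →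
        W β (kk T) x ≤ (c4 + κ) * Real.log T ^ (β ^ 2 / 4)) ∧
      (∀ x ∈ Set.Icc (κ * T) (8 * T), ∀ β : ℝ, 4 ≤ β → β ≤ 4 + δ →
        (c4 - κ) * Real.log T ^ (β ^ 2 / 4) ≤ W β (kk T) x) := by
  set e := κ / 20 with he
  have he0 : 0 < e := by positivity
  have he1 : e ≤ 1 / 200 := by rw [he]; linarith
  obtain ⟨δ1, hδ1, hδ2, hW⟩ := hw e he0
  have hI' := hI (e * c4) (mul_pos he0 c4_pos)
  obtain ⟨T0, hT0⟩ := eventually_atTop.1 (hW.and hI')
  refine ⟨δ1, hδ1, hδ2, ?_⟩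
  have hc := c4_pos
  have hc2 := c4_le
  filter_upwards [kk_ev, e9_top T0, e9 hκ, eventually_ge_atTop (1:ℝ),
    Real.tendsto_log_atTop.eventually_ge_atTop 1,
    Real.tendsto_log_atTop.eventually_ge_atTop (Real.log 8 / e),
    Real.tendsto_log_atTop.eventually_ge_atTop (-Real.log κ / e)] with T hk hT0' h9 hT1 hL1 hL8 hLκ
  have hT : 0 < T := by linarith
  have hL0 : 0 < Real.log T := by linarith
  rw [div_le_iff₀ he0] at hL8 hLκ
  constructor
  · intro x hx β hβ1 hβ2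
    obtain ⟨hr, l1, l2⟩ := hk.2.2 x hx
    have hx0 : 0 < x := lt_of_lt_of_le (by positivity) hx.1
    obtain ⟨a1, a2⟩ := hT0 x (hT0'.trans hx.1)
    have b1 := (a1 (kk T) hr).1 β hβ1 hβ2
    have b2 := (abs_le.mp (a2 (kk T) hr)).2
    have b3 : W 4 (kk T) x ≤ (1 + e) * c4 * Real.log x ^ 4 := by
      change W 4 (kk T) x - c4 * Real.log x ^ 4 ≤ e * c4 * Real.log x ^ 4 at b2
      linarith
    have hlx : 0 < Real.log x := by linarith
    have hl : Real.log x ≤ (1 + e) * Real.log T := by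
      have := Real.log_le_log hx0 hx.2
      rw [Real.log_mul (by norm_num) hT.ne'] at this
      linarith
    have hp : Real.log x ^ (β ^ 2 / 4) ≤ (1 + e) ^ 4 * Real.log T ^ (β ^ 2 / 4) := by
      calc Real.log x ^ (β ^ 2 / 4) ≤ ((1 + e) * Real.log T) ^ (β ^ 2 / 4) :=
            Real.rpow_le_rpow hlx.le hl (by positivity)
        _ = (1 + e) ^ (β ^ 2 / 4) * Real.log T ^ (β ^ 2 / 4) := Real.mul_rpow (by positivity) hL0.le
        _ ≤ (1 + e) ^ 4 * Real.log T ^ (β ^ 2 / 4) := by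
            refine mul_le_mul_of_nonneg_right ?_ (Real.rpow_nonneg hL0.le _)
            have : (1 + e) ^ 4 = (1 + e) ^ (4:ℝ) := by rw [← Real.rpow_natCast]; norm_num
            rw [this]
            exact Real.rpow_le_rpow_of_exponent_le (by linarith) (by nlinarith)
    calc W β (kk T) x ≤ (1 + e) * Real.log x ^ (β ^ 2 / 4 - 4) * W 4 (kk T) x := b1
      _ ≤ (1 + e) * Real.log x ^ (β ^ 2 / 4 - 4) * ((1 + e) * c4 * Real.log x ^ 4) :=
          mul_le_mul_of_nonneg_left b3 (by positivity)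
      _ = (1 + e) ^ 2 * c4 * (Real.log x ^ (β ^ 2 / 4 - 4) * Real.log x ^ 4) := by ring
      _ = (1 + e) ^ 2 * c4 * Real.log x ^ (β ^ 2 / 4) := by rw [rpow4 β hlx]
      _ ≤ (1 + e) ^ 2 * c4 * ((1 + e) ^ 4 * Real.log T ^ (β ^ 2 / 4)) :=
          mul_le_mul_of_nonneg_left hp (by positivity)
      _ = ((1 + e) ^ 6 * c4) * Real.log T ^ (β ^ 2 / 4) := by ring
      _ ≤ _ := by
          refine mul_le_mul_of_nonneg_right ?_ (Real.rpow_nonneg hL0.le _)
          have h6 : (1 + e) ^ 6 ≤ 1 + 7 * e := by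
            have p2 : (1 + e) ^ 2 ≤ 1 + 2.005 * e := by nlinarith
            have p4 : (1 + e) ^ 4 ≤ 1 + 4.1 * e := by
              calc (1 + e) ^ 4 = (1 + e) ^ 2 * (1 + e) ^ 2 := by ring
                _ ≤ (1 + 2.005 * e) * (1 + 2.005 * e) := by gcongr
                _ ≤ _ := by nlinarith
            calc (1 + e) ^ 6 = (1 + e) ^ 4 * (1 + e) ^ 2 := by ring
              _ ≤ (1 + 4.1 * e) * (1 + 2.005 * e) := by gcongr
              _ ≤ _ := by nlinarith
          have : (1 + e) ^ 6 * c4 ≤ (1 + 7 * e) * c4 := mul_le_mul_of_nonneg_right h6 hc.le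
          nlinarith
  · intro x hx β hβ1 hβ2
    have hx0 : 0 < x := lt_of_lt_of_le (by positivity) hx.1
    have hx9 : T ^ ((9:ℝ)/10) / 2 ≤ x := by
      have : 0 < T ^ ((9:ℝ)/10) := by positivity
      linarith [hx.1]
    obtain ⟨hr, l1, l2⟩ := hk.2.2 x ⟨hx9, hx.2⟩
    obtain ⟨a1, a2⟩ := hT0 x (hT0'.trans hx9)
    have b1 := (a1 (kk T) hr).2 β hβ1 hβ2
    have b2 := (abs_le.mp (a2 (kk T) hr)).1
    have b3 : (1 - e) * c4 * Real.log x ^ 4 ≤ W 4 (kk T) x := by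
      change -(e * c4 * Real.log x ^ 4) ≤ W 4 (kk T) x - c4 * Real.log x ^ 4 at b2
      linarith
    have hlx : 0 < Real.log x := by linarith
    have hl : (1 - e) * Real.log T ≤ Real.log x := by
      have := Real.log_le_log (by positivity) hx.1
      rw [Real.log_mul hκ.ne' hT.ne'] at this
      linarith
    have hp : (1 - e) ^ 5 * Real.log T ^ (β ^ 2 / 4) ≤ Real.log x ^ (β ^ 2 / 4) := by
      calc (1 - e) ^ 5 * Real.log T ^ (β ^ 2 / 4) ≤ (1 - e) ^ (β ^ 2 / 4) * Real.log T ^ (β ^ 2 / 4) := by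
            refine mul_le_mul_of_nonneg_right ?_ (Real.rpow_nonneg hL0.le _)
            have : (1 - e) ^ 5 = (1 - e) ^ (5:ℝ) := by rw [← Real.rpow_natCast]; norm_num
            rw [this]
            exact Real.rpow_le_rpow_of_exponent_ge (by linarith) (by linarith) (by nlinarith)
        _ = ((1 - e) * Real.log T) ^ (β ^ 2 / 4) := (Real.mul_rpow (by linarith) hL0.le).symm
        _ ≤ _ := Real.rpow_le_rpow (mul_nonneg (by linarith) hL0.le) hl (by positivity)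
    have he2 : 0 ≤ 1 - e := by linarith
    have hLp : 0 ≤ Real.log T ^ (β ^ 2 / 4) := Real.rpow_nonneg hL0.le _
    calc (c4 - κ) * Real.log T ^ (β ^ 2 / 4) ≤ ((1 - e) ^ 7 * c4) * Real.log T ^ (β ^ 2 / 4) := by
          refine mul_le_mul_of_nonneg_right ?_ hLp
          have h7 : 1 - 7 * e ≤ (1 - e) ^ 7 := by
            have := one_add_mul_le_pow (show -2 ≤ -e by linarith) 7
            calc 1 - 7 * e = 1 + ((7:ℕ):ℝ) * (-e) := by push_cast; ring
              _ ≤ (1 + -e) ^ 7 := this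
              _ = _ := by ring
          have : (1 - 7 * e) * c4 ≤ (1 - e) ^ 7 * c4 := mul_le_mul_of_nonneg_right h7 hc.le
          nlinarith
      _ = (1 - e) ^ 2 * c4 * ((1 - e) ^ 5 * Real.log T ^ (β ^ 2 / 4)) := by ring
      _ ≤ (1 - e) ^ 2 * c4 * Real.log x ^ (β ^ 2 / 4) := mul_le_mul_of_nonneg_left hp (by positivity)
      _ = (1 - e) ^ 2 * c4 * (Real.log x ^ (β ^ 2 / 4 - 4) * Real.log x ^ 4) := by rw [rpow4 β hlx]
      _ = (1 - e) * Real.log x ^ (β ^ 2 / 4 - 4) * ((1 - e) * c4 * Real.log x ^ 4) := by ring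
      _ ≤ (1 - e) * Real.log x ^ (β ^ 2 / 4 - 4) * W 4 (kk T) x :=
          mul_le_mul_of_nonneg_left b3 (mul_nonneg he2 (Real.rpow_nonneg hlx.le _))
      _ ≤ W β (kk T) x := b1

lemma c4_ge : 1 / 20 ≤ c4 := by
  unfold c4
  rw [div_le_div_iff₀ (by norm_num) (by positivity)]
  have h1 := Real.pi_lt_d2
  have h2 := Real.pi_pos
  nlinarith

/-- the relative width of the transition -/
lemma rho_ev {κ α : ℝ} (hκ : 0 < κ) (hα : α < 1 / 2) : ∀ᶠ T : ℝ in atTop,
    20 * Real.log T ≤ (κ / Real.log T ^ α) ^ 2 / 8 * kk T := by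
  have h1 : Tendsto (fun T : ℝ => Real.log T ^ (1 - 2 * α)) atTop atTop :=
    (tendsto_rpow_atTop (by linarith)).comp Real.tendsto_log_atTop
  filter_upwards [h1.eventually_ge_atTop (160 / (3 * κ ^ 2)), kk_ev,
    Real.tendsto_log_atTop.eventually_ge_atTop 1] with T h hk hL
  set L := Real.log T with hLd
  have hL0 : 0 < L := by linarith
  have hLa : 0 < L ^ α := Real.rpow_pos_of_pos hL0 _
  have e1 : L ^ 2 = (L ^ α) ^ 2 * (L ^ (1 - 2 * α) * L) := by
    have a1 : (L ^ α) ^ 2 = L ^ (2 * α) := by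
      rw [← Real.rpow_natCast, ← Real.rpow_mul hL0.le]; congr 1; push_cast; ring
    have a2 : L ^ (2 * α) * (L ^ (1 - 2 * α) * L) = L ^ (2 * α) * (L ^ (1 - 2 * α) * L ^ (1:ℝ)) := by
      rw [Real.rpow_one]
    rw [a1, a2, ← Real.rpow_add hL0, ← Real.rpow_add hL0, ← Real.rpow_natCast]
    congr 1; push_cast; ring
  have h2 : (κ / L ^ α) ^ 2 / 8 * (3 * L ^ 2) ≤ (κ / L ^ α) ^ 2 / 8 * kk T :=
    mul_le_mul_of_nonneg_left hk.2.1 (by positivity)
  refine le_trans ?_ h2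
  rw [e1, div_pow]
  have e2 : κ ^ 2 / (L ^ α) ^ 2 / 8 * (3 * ((L ^ α) ^ 2 * (L ^ (1 - 2 * α) * L))) =
      (3 * κ ^ 2 / 8 * L ^ (1 - 2 * α)) * L := by
    field_simp
  rw [e2]
  refine mul_le_mul_of_nonneg_right ?_ hL0.le
  rw [div_le_iff₀ (by positivity)] at h
  linarith

theorem shtU (hI : P_ING) (hw : P_WIN) {κ : ℝ} (hκ : 0 < κ) (hκ1 : κ ≤ 1 / 10) : ∃ δ : ℝ, 0 < δ ∧ δ ≤ 1 / 40 ∧
    ∀ α : ℝ, 0 ≤ α → α < 1 / 2 → ∀ᶠ T : ℝ in atTop, ∀ H : ℝ, T / Real.log T ^ α ≤ H → H ≤ T →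
      ∀ β : ℝ, 4 - δ ≤ β → β ≤ 4 →
        (1 - κ) * ∫ t in T..(T + H), Xz t ^ β ≤ ((c4 + κ) * Real.log T ^ (β ^ 2 / 4)) * ((1 + 3 * κ) * H) := by
  obtain ⟨δ, hδ, hδ1, hW⟩ := win hI hw hκ hκ1
  refine ⟨δ, hδ, hδ1, fun α hα0 hα => ?_⟩
  filter_upwards [hW, kk_ev, rho_ev hκ hα, e9 (show (0:ℝ) < 1 by norm_num), eventually_ge_atTop (max 1 (2 / κ)),
    Real.tendsto_log_atTop.eventually_ge_atTop 1] with T hW hk hρ h9 hT1 hL H hH1 hH2 β hβ1 hβ2
  have hT1' := (le_max_left _ _).trans hT1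
  have hT2 := (le_max_right _ _).trans hT1
  have hT : 0 < T := by linarith
  have hL0 : 0 < Real.log T := by linarith
  set La := Real.log T ^ α with hLa
  have hLa1 : 1 ≤ La := Real.one_le_rpow hL hα0
  set ρ := κ / La with hρd
  have hρ0 : 0 < ρ := by positivity
  have hρ1 : ρ ≤ κ := div_le_self hκ.le hLa1
  have hH0 : 0 < H := lt_of_lt_of_le (by positivity) hH1
  have hρT : ρ * T ≤ κ * H := by
    have : ρ * T = κ * (T / La) := by rw [hρd]; ring
    rw [this]; exact mul_le_mul_of_nonneg_left hH1 hκ.le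
  have hc := c4_pos
  have hex : Real.exp (-(ρ ^ 2 / 8 * (kk T : ℝ))) ≤ κ / 2 := by
    calc Real.exp (-(ρ ^ 2 / 8 * (kk T : ℝ))) ≤ Real.exp (-Real.log T) :=
          Real.exp_le_exp.mpr (by linarith)
      _ = T⁻¹ := by rw [Real.exp_neg, Real.exp_log hT]
      _ ≤ κ / 2 := by
          rw [inv_le_comm₀ hT (by positivity), inv_div]; exact hT2
  set a := T / (1 + ρ) with had
  set b := (1 + ρ) * (T + H) with hbd
  have ha0 : 0 < a := by positivity
  have haT : (1 - ρ) * T ≤ a := by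
    rw [had, le_div_iff₀ (by positivity)]
    nlinarith [mul_pos (mul_pos hρ0 hρ0) hT]
  have haT2 : a ≤ T := div_le_self hT.le (by linarith)
  have haa : (1 + ρ) * a = T := by rw [had]; field_simp
  have hbT : T ≤ b := by nlinarith [mul_pos hρ0 (add_pos hT hH0)]
  have h1 := ss_low (Xz_pow_cont (show 0 ≤ β by linarith)) (fun t => Real.rpow_nonneg (Xz_nonneg t) _) hk.1
    (a := a) (b := b) (A := T) (B := T + H) (κ := κ) ha0 (by linarith) hT (by linarith) (by linarith)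
    (fun t ht => by
      have ht0 : 0 < t := hT.trans ht.1
      have p1 := phR hρ0 (by linarith) (kk T) ht0 (b := b) (by
        rw [hbd]; exact mul_le_mul_of_nonneg_left ht.2 (by positivity))
      have p2 := phL hρ0 (by linarith) (kk T) ha0 (t := t) (by rw [haa]; exact ht.1.le)
      have p3 : Real.exp (-(ρ ^ 2 / 8 * (t / a) * (kk T : ℝ))) ≤ Real.exp (-(ρ ^ 2 / 8 * (kk T : ℝ))) := by
        apply Real.exp_le_exp.mpr
        have q1 : 1 ≤ t / a := by rw [le_div_iff₀ ha0]; linarith [ht.1]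
        have q2 : 0 ≤ ρ ^ 2 / 8 * (kk T : ℝ) := by positivity
        nlinarith
      linarith)
  have hc' : 0 ≤ (c4 + κ) * Real.log T ^ (β ^ 2 / 4) := by positivity
  have h9' : T ^ ((9:ℝ)/10) / 2 ≤ a := by
    have : (1 - ρ) * T ≥ T / 2 := by nlinarith
    linarith
  have hb8 : b ≤ 8 * T := by
    rw [hbd]
    have : (1 + ρ) * (T + H) ≤ (1 + ρ) * (2 * T) := mul_le_mul_of_nonneg_left (by linarith) (by positivity)
    nlinarith
  have h2 := ss_bd hk.1 (β := β) (a := a) (b := b) (c := (c4 + κ) * Real.log T ^ (β ^ 2 / 4)) ha0 (by linarith)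
    (by linarith) hc' (fun x hx => hW.1 x ⟨by linarith [hx.1], by linarith [hx.2]⟩ β hβ1 hβ2)
  have h3 := h1.trans h2
  have hba : b - a ≤ (1 + 3 * κ) * H := by
    have : ρ * H ≤ ρ * T := mul_le_mul_of_nonneg_left hH2 hρ0.le
    rw [hbd]
    nlinarith
  rw [ENNReal.ofReal_le_ofReal_iff (mul_nonneg hc' (by linarith))] at h3
  exact h3.trans (mul_le_mul_of_nonneg_left hba hc')

theorem shtL (hI : P_ING) (hw : P_WIN) {κ : ℝ} (hκ : 0 < κ) (hκ1 : κ ≤ 1 / 100) : ∃ δ : ℝ, 0 < δ ∧ δ ≤ 1 / 40 ∧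
    ∀ α : ℝ, 0 ≤ α → α < 1 / 2 → ∀ᶠ T : ℝ in atTop, ∀ H : ℝ, T / Real.log T ^ α ≤ H → H ≤ T →
      ∀ β : ℝ, 4 ≤ β → β ≤ 4 + δ →
        ((c4 - κ) * Real.log T ^ (β ^ 2 / 4)) * ((1 - 3 * κ) * H) ≤ (∫ t in T..(T + H), Xz t ^ β) + 2 := by
  obtain ⟨δ, hδ, hδ1, hW⟩ := win hI hw hκ (by linarith)
  refine ⟨δ, hδ, hδ1, fun α hα0 hα => ?_⟩
  filter_upwards [hW, kk_ev, rho_ev hκ hα, e9 (show (0:ℝ) < 1 by norm_num), eventually_ge_atTop (24 ^ 5 * 2 ^ 22),
    Real.tendsto_log_atTop.eventually_ge_atTop 1] with T hW hk hρ h9 hT1 hL H hH1 hH2 β hβ1 hβ2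
  have hT : 0 < T := by linarith
  have hT1' : 1 ≤ T := by linarith
  have hL0 : 0 < Real.log T := by linarith
  set La := Real.log T ^ α with hLa
  have hLa1 : 1 ≤ La := Real.one_le_rpow hL hα0
  set ρ := κ / La with hρd
  have hρ0 : 0 < ρ := by positivity
  have hρ1 : ρ ≤ κ := div_le_self hκ.le hLa1
  have hH0 : 0 < H := lt_of_lt_of_le (by positivity) hH1
  have hρT : ρ * T ≤ κ * H := by
    have : ρ * T = κ * (T / La) := by rw [hρd]; ring
    rw [this]; exact mul_le_mul_of_nonneg_left hH1 hκ.le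
  have hc := c4_ge
  have hex : Real.exp (-(ρ ^ 2 / 8 * (kk T : ℝ))) ≤ (T ^ 20)⁻¹ := by
    calc Real.exp (-(ρ ^ 2 / 8 * (kk T : ℝ))) ≤ Real.exp (-(((20:ℕ):ℝ) * Real.log T)) :=
          Real.exp_le_exp.mpr (by push_cast; linarith)
      _ = (T ^ 20)⁻¹ := by rw [Real.exp_neg, Real.exp_nat_mul, Real.exp_log hT]
  set a := (1 + ρ) * T with had
  set b := (T + H) / (1 + ρ) with hbd
  have ha0 : 0 < a := by positivity
  have hb0 : 0 < b := by positivity
  have haT2 : T ≤ a := by nlinarith [mul_pos hρ0 hT]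
  have hbb : (1 + ρ) * b = T + H := by rw [hbd]; field_simp
  have hbT : b ≤ T + H := div_le_self (by linarith) (by linarith)
  have hblow : (1 - ρ) * (T + H) ≤ b := by
    rw [hbd, le_div_iff₀ (by positivity)]
    nlinarith [mul_pos (mul_pos hρ0 hρ0) (add_pos hT hH0)]
  have hba : (1 - 3 * κ) * H ≤ b - a := by
    have : ρ * H ≤ ρ * T := mul_le_mul_of_nonneg_left hH2 hρ0.le
    rw [had]
    nlinarith
  have hba0 : 0 ≤ (1 - 3 * κ) * H := mul_nonneg (by linarith) hH0.le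
  have hc' : 0 ≤ (c4 - κ) * Real.log T ^ (β ^ 2 / 4) :=
    mul_nonneg (by linarith) (Real.rpow_nonneg hL0.le _)
  have h2 := ss_bd_low hk.1 (β := β) (a := a) (b := b) (c := (c4 - κ) * Real.log T ^ (β ^ 2 / 4)) ha0
    (by linarith) (by linarith) hc' (fun x hx => hW.2 x ⟨by nlinarith [hx.1], by linarith [hx.2]⟩ β hβ1 hβ2)
  have h1 := ss_high2 (Xz_pow_cont (show 0 ≤ β by linarith)) (fun t => Real.rpow_nonneg (Xz_nonneg t) _) hk.1
    (a := a) (b := b) (A := T) (B := T + H) ha0 (by linarith) hT (by linarith)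
    (fun t ht0 htT => by
      have p1 := phR hρ0 (by linarith) (kk T) ht0 (b := a) (by
        rw [had]; exact mul_le_mul_of_nonneg_left htT (by positivity))
      have p2 := X5_le (β := β) (by linarith) (by linarith) ht0.le
      have p3 : 24 ^ 5 * (1 + t) ^ 10 ≤ 24 ^ 5 * (2 * T) ^ 10 := by
        have : (1 + t) ^ 10 ≤ (2 * T) ^ 10 := pow_le_pow_left₀ (by linarith) (by linarith) 10
        linarith
      calc Xz t ^ β * (1 - Ph (kk T) ((kk T : ℕ) * t / a)) ≤ Xz t ^ β * (T ^ 20)⁻¹ :=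
            mul_le_mul_of_nonneg_left (p1.trans hex) (Real.rpow_nonneg (Xz_nonneg t) _)
        _ ≤ (24 ^ 5 * (2 * T) ^ 10) * (T ^ 20)⁻¹ :=
            mul_le_mul_of_nonneg_right (p2.trans p3) (by positivity)
        _ = (24 ^ 5 * 2 ^ 10) * (T ^ 10)⁻¹ := by
            rw [mul_pow]; field_simp
        _ ≤ 1 / T := by
            rw [← div_eq_mul_inv, div_le_div_iff₀ (by positivity) hT]
            have : T * T ≤ T ^ 10 := by
              calc T * T = T ^ 2 := by ring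
                _ ≤ T ^ 10 := pow_le_pow_right₀ hT1' (by norm_num)
            nlinarith)
    (fun t ht => by
      have ht0 : 0 < t := by linarith
      have p1 := phL hρ0 (by linarith) (kk T) hb0 (t := t) (by rw [hbb]; exact ht.le)
      have p2 := X5_le (β := β) (by linarith) (by linarith) ht0.le
      set v := t / b with hv
      have hv1 : 1 ≤ v := by rw [hv, le_div_iff₀ hb0]; linarith
      have htv : t = v * b := by rw [hv]; field_simp
      have p4 : Real.exp (-(ρ ^ 2 / 8 * v * (kk T : ℝ))) ≤ (T ^ 20 * v ^ 12)⁻¹ := by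
        rw [Real.exp_neg]
        apply inv_anti₀ (by positivity)
        calc T ^ 20 * v ^ 12 ≤ Real.exp (((20:ℕ):ℝ) * Real.log T) * Real.exp (((12:ℕ):ℝ) * (v - 1)) := by
              rw [Real.exp_nat_mul, Real.exp_log hT, Real.exp_nat_mul]
              refine mul_le_mul_of_nonneg_left (pow_le_pow_left₀ (by linarith) ?_ 12) (by positivity)
              have := Real.add_one_le_exp (v - 1)
              linarith
          _ = Real.exp (((20:ℕ):ℝ) * Real.log T + ((12:ℕ):ℝ) * (v - 1)) := (Real.exp_add _ _).symm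
          _ ≤ Real.exp (ρ ^ 2 / 8 * v * (kk T : ℝ)) := by
              apply Real.exp_le_exp.mpr
              push_cast
              have q1 : 20 * Real.log T * v ≤ (ρ ^ 2 / 8 * (kk T : ℝ)) * v :=
                mul_le_mul_of_nonneg_right hρ (by linarith)
              nlinarith [mul_nonneg hL0.le (show 0 ≤ v - 1 by linarith)]
      have hb2 : b ≤ 2 * T := by linarith
      have p5 : (1 + t) ^ 10 ≤ (2 * t) ^ 10 := pow_le_pow_left₀ (by linarith) (by linarith) 10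
      have p6 : t ^ 12 ≤ v ^ 12 * (2 * T) ^ 12 := by
        rw [htv, mul_pow]
        refine mul_le_mul_of_nonneg_left (pow_le_pow_left₀ hb0.le hb2 12) (by positivity)
      have e2 : t ^ (-2 : ℝ) = (t ^ 2)⁻¹ := by
        rw [Real.rpow_neg ht0.le]; congr 1
        rw [← Real.rpow_natCast]; norm_num
      rw [e2]
      calc Xz t ^ β * Ph (kk T) ((kk T : ℕ) * t / b) ≤ Xz t ^ β * (T ^ 20 * v ^ 12)⁻¹ :=
            mul_le_mul_of_nonneg_left (p1.trans p4) (Real.rpow_nonneg (Xz_nonneg t) _)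
        _ ≤ (24 ^ 5 * (2 * t) ^ 10) * (T ^ 20 * v ^ 12)⁻¹ :=
            mul_le_mul_of_nonneg_right (by linarith) (by positivity)
        _ ≤ (t ^ 2)⁻¹ := by
            rw [← div_eq_mul_inv, div_le_iff₀ (by positivity), ← div_eq_inv_mul, le_div_iff₀ (by positivity)]
            have q1 : 24 ^ 5 * 2 ^ 22 * T ^ 12 ≤ T ^ 20 := by
              have : T * T ^ 12 ≤ T ^ 20 := by
                calc T * T ^ 12 = T ^ 13 := by ring
                  _ ≤ T ^ 20 := pow_le_pow_right₀ hT1' (by norm_num)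
              have q2 : 24 ^ 5 * 2 ^ 22 * T ^ 12 ≤ T * T ^ 12 := mul_le_mul_of_nonneg_right hT1 (by positivity)
              linarith
            calc 24 ^ 5 * (2 * t) ^ 10 * t ^ 2 = 24 ^ 5 * 2 ^ 10 * t ^ 12 := by ring
              _ ≤ 24 ^ 5 * 2 ^ 10 * (v ^ 12 * (2 * T) ^ 12) := by gcongr
              _ = (24 ^ 5 * 2 ^ 22 * T ^ 12) * v ^ 12 := by ring
              _ ≤ T ^ 20 * v ^ 12 := mul_le_mul_of_nonneg_right q1 (by positivity))
  have h3 := h2.trans h1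
  have hi0 : 0 ≤ ∫ t in T..(T + H), Xz t ^ β := intervalIntegral.integral_nonneg (by linarith)
    fun t _ => Real.rpow_nonneg (Xz_nonneg t) _
  rw [ENNReal.ofReal_le_ofReal_iff (by positivity)] at h3
  have h4 : 1 / (T + H) ≤ 1 := by rw [div_le_one (by linarith)]; linarith
  have h5 := mul_le_mul_of_nonneg_left hba hc'
  linarith

theorem absU (hI : P_ING) (hw : P_WIN) {κ : ℝ} (hκ : 0 < κ) (hκ1 : κ ≤ 1 / 10) : ∃ δ : ℝ, 0 < δ ∧ δ ≤ 1 / 40 ∧
    ∀ᶠ T : ℝ in atTop, ∀ β : ℝ, 4 - δ ≤ β → β ≤ 4 →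
      (1 - κ) * (I0 β ((1 + κ) * T) - I0 β (T ^ ((9:ℝ)/10))) ≤
        ((c4 + κ) * Real.log T ^ (β ^ 2 / 4)) * ((1 + κ) ^ 2 * T) := by
  obtain ⟨δ, hδ, hδ1, hW⟩ := win hI hw hκ hκ1
  obtain ⟨K, hK⟩ := PhC hκ
  refine ⟨δ, hδ, hδ1, ?_⟩
  filter_upwards [hW, kk_ev, kk_top K, e9 (show (0:ℝ) < 1 by norm_num), eventually_ge_atTop 1,
    Real.tendsto_log_atTop.eventually_ge_atTop 1] with T hW hk hkK h9 hT1 hL β hβ1 hβ2
  have hT : 0 < T := by linarith
  have hL0 : 0 < Real.log T := by linarith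
  have hκp : 0 < 1 + κ := by linarith
  have hc := c4_pos
  have hA0 : 0 < T ^ ((9:ℝ)/10) := by positivity
  have hTb : T ≤ (1 + κ) ^ 2 * T := by nlinarith [mul_pos hκ hT]
  have hTB : T ≤ (1 + κ) * T := by nlinarith [mul_pos hκ hT]
  have h1 := ss_low (Xz_pow_cont (show 0 ≤ β by linarith)) (fun t => Real.rpow_nonneg (Xz_nonneg t) _) hk.1
    (a := T ^ ((9:ℝ)/10) / 2)
    (b := (1 + κ) ^ 2 * T) (A := T ^ ((9:ℝ)/10)) (B := (1 + κ) * T) (κ := κ) (by positivity)
    (by linarith) hA0 (by linarith) (by linarith)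
    (fun t ht => hK _ hkK t _ _ (by positivity) (by nlinarith [ht.1]) (by
      calc (1 + κ) * t ≤ (1 + κ) * ((1 + κ) * T) := mul_le_mul_of_nonneg_left ht.2 hκp.le
        _ = _ := by ring))
  have hc' : 0 ≤ (c4 + κ) * Real.log T ^ (β ^ 2 / 4) := by positivity
  have hb8 : (1 + κ) ^ 2 * T ≤ 8 * T := mul_le_mul_of_nonneg_right (by nlinarith) hT.le
  have h2 := ss_bd hk.1 (β := β) (a := T ^ ((9:ℝ)/10) / 2) (b := (1 + κ) ^ 2 * T)
    (c := (c4 + κ) * Real.log T ^ (β ^ 2 / 4)) (by positivity) (by linarith)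
    (by linarith) hc' (fun x hx => hW.1 x ⟨by linarith [hx.1], by linarith [hx.2]⟩ β hβ1 hβ2)
  have h3 := h1.trans h2
  rw [ENNReal.ofReal_le_ofReal_iff (mul_nonneg hc' (by linarith)), I0_sub (by linarith)] at h3
  exact h3.trans (mul_le_mul_of_nonneg_left (by linarith) hc')

theorem absL (hI : P_ING) (hw : P_WIN) {κ : ℝ} (hκ : 0 < κ) (hκ1 : κ ≤ 1 / 100) : ∃ δ : ℝ, 0 < δ ∧ δ ≤ 1 / 40 ∧
    ∀ᶠ T : ℝ in atTop, ∀ β : ℝ, 4 ≤ β → β ≤ 4 + δ →
      ((c4 - κ) * Real.log T ^ (β ^ 2 / 4)) * ((1 - 3 * κ) * T) ≤ I0 β ((1 - κ) * T) + 1 := by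
  obtain ⟨δ, hδ, hδ1, hW⟩ := win hI hw hκ (by linarith)
  refine ⟨δ, hδ, hδ1, ?_⟩
  have hκp : 0 < 1 + κ := by linarith
  have hκm : 0 < 1 - κ := by linarith
  filter_upwards [hW, kk_ev, tailk (σ := 1 / (1 + κ)) (c := 1 - κ) (by positivity)
      (by rw [div_lt_one hκp]; linarith) hκm, eventually_ge_atTop 2,
    Real.tendsto_log_atTop.eventually_ge_atTop 1] with T hW hk htl hT2 hL β hβ1 hβ2
  have hT : 0 < T := by linarith
  have hL0 : 0 < Real.log T := by linarith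
  have hc := c4_ge
  set b := (1 - κ) * T / (1 + κ) with hbd
  have hbT : b ≤ (1 - κ) * T := div_le_self (by positivity) (by linarith)
  have hblow : (1 - 2 * κ) * T ≤ b := by
    rw [hbd, le_div_iff₀ hκp]
    nlinarith [mul_pos (mul_pos hκ hκ) hT]
  have hab : κ * T ≤ b := by nlinarith
  have hc' : 0 ≤ (c4 - κ) * Real.log T ^ (β ^ 2 / 4) :=
    mul_nonneg (by linarith) (Real.rpow_nonneg hL0.le _)
  have h2 := ss_bd_low hk.1 (β := β) (a := κ * T) (b := b) (c := (c4 - κ) * Real.log T ^ (β ^ 2 / 4))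
    (by positivity) (by linarith) (by linarith) hc'
    (fun x hx => hW.2 x ⟨hx.1.le, by nlinarith [hx.2, mul_pos hκ hT]⟩ β hβ1 hβ2)
  have h3 := ss_high (Xz_pow_cont (show 0 ≤ β by linarith)) (fun t => Real.rpow_nonneg (Xz_nonneg t) _) hk.1
    (a := κ * T) (b := b) (T := (1 - κ) * T) (by positivity) hab hbT (by
      intro t ht
      have := htl β (by linarith) (by linarith) t ht
      rwa [show 1 / (1 + κ) * ((1 - κ) * T) = b by rw [hbd]; ring] at this)
  have h5 := h2.trans h3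
  have hi0 : 0 ≤ I0 β ((1 - κ) * T) := I0_nonneg (by positivity)
  have h5' : (c4 - κ) * Real.log T ^ (β ^ 2 / 4) * (b - κ * T) ≤ I0 β ((1 - κ) * T) + 1 / ((1 - κ) * T) :=
    (ENNReal.ofReal_le_ofReal_iff (add_nonneg hi0 (by positivity))).1 h5
  have h4 : 1 / ((1 - κ) * T) ≤ 1 := by
    rw [div_le_one (by positivity)]
    nlinarith
  have h6 : (1 - 3 * κ) * T ≤ b - κ * T := by linarith
  have h7 := mul_le_mul_of_nonneg_left h6 hc'
  linarith

theorem t_SHT (hI : P_ING) (hw : P_WIN) : P_SHT ∧ P_ABS := by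
  have hc1 := c4_ge
  have hc2 := c4_le
  constructor
  · intro ε hε
    obtain ⟨κ, hκ, hκ1, hκ2⟩ : ∃ κ : ℝ, 0 < κ ∧ κ ≤ 1 / 100 ∧ κ ≤ ε / 10 :=
      ⟨min (1 / 100) (ε / 10), by positivity, min_le_left _ _, min_le_right _ _⟩
    obtain ⟨δU, hδU, hδU1, hU⟩ := shtU hI hw hκ (by linarith)
    obtain ⟨δL, hδL, hδL1, hLw⟩ := shtL hI hw hκ hκ1
    refine ⟨min δU δL, lt_min hδU hδL, fun α hα0 hα => ?_⟩
    have hdiv : ∀ᶠ T : ℝ in atTop, 2 / κ ≤ T / Real.log T := by
      have h1 := Real.isLittleO_log_id_atTop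
      have h2 := h1.def (show 0 < κ / 2 by positivity)
      filter_upwards [h2, Real.tendsto_log_atTop.eventually_ge_atTop 1, eventually_ge_atTop 1] with T h hL hT
      rw [Real.norm_of_nonneg (by linarith), id, Real.norm_of_nonneg (by linarith)] at h
      rw [div_le_div_iff₀ hκ (by linarith)]
      linarith
    filter_upwards [hU α hα0 hα, hLw α hα0 hα, hdiv, eventually_ge_atTop (1:ℝ),
      Real.tendsto_log_atTop.eventually_ge_atTop 1] with T hU hLw hdiv hT1 hL H hH1 hH2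
    have hT : 0 < T := by linarith
    have hL0 : 0 < Real.log T := by linarith
    have hLa0 : 0 < Real.log T ^ α := Real.rpow_pos_of_pos hL0 _
    have hH0 : 0 < H := lt_of_lt_of_le (by positivity) hH1
    have hH2' : 2 / κ ≤ H := by
      refine hdiv.trans (le_trans ?_ hH1)
      refine div_le_div_of_nonneg_left hT.le hLa0 ?_
      calc Real.log T ^ α ≤ Real.log T ^ (1:ℝ) := Real.rpow_le_rpow_of_exponent_le hL (by linarith)
        _ = _ := Real.rpow_one _
    rw [div_le_iff₀ hκ] at hH2'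
    constructor
    · intro β hβ1 hβ2
      have hδ := min_le_left δU δL
      have h1 := hU H hH1 hH2 β (by linarith) hβ2
      have hP0 : 0 ≤ Real.log T ^ (β ^ 2 / 4) := Real.rpow_nonneg hL0.le _
      have h2 : (1 - κ) * ∫ t in T..(T + H), Xz t ^ β ≤
          (1 - κ) * ((c4 + ε) * (H * Real.log T ^ (β ^ 2 / 4))) := by
        refine h1.trans ?_
        have h3 : (c4 + κ) * (1 + 3 * κ) ≤ (1 - κ) * (c4 + ε) := by nlinarith [c4_pos, mul_pos hκ c4_pos]
        calc (c4 + κ) * Real.log T ^ (β ^ 2 / 4) * ((1 + 3 * κ) * H) =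
            ((c4 + κ) * (1 + 3 * κ)) * (H * Real.log T ^ (β ^ 2 / 4)) := by ring
          _ ≤ ((1 - κ) * (c4 + ε)) * (H * Real.log T ^ (β ^ 2 / 4)) :=
              mul_le_mul_of_nonneg_right h3 (by positivity)
          _ = _ := by ring
      exact le_of_mul_le_mul_left h2 (by linarith)
    · intro β hβ1 hβ2
      have hδ := min_le_right δU δL
      have h1 := hLw H hH1 hH2 β hβ1 (by linarith)
      have hP1 : 1 ≤ Real.log T ^ (β ^ 2 / 4) := Real.one_le_rpow hL (by positivity)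
      have h3 : c4 - ε ≤ (c4 - κ) * (1 - 3 * κ) - κ := by nlinarith [c4_pos, mul_pos hκ c4_pos]
      have h4 : 2 ≤ κ * (H * Real.log T ^ (β ^ 2 / 4)) := by
        have : H * 1 ≤ H * Real.log T ^ (β ^ 2 / 4) := mul_le_mul_of_nonneg_left hP1 hH0.le
        nlinarith
      have h5 : (c4 - ε) * (H * Real.log T ^ (β ^ 2 / 4)) ≤
          ((c4 - κ) * (1 - 3 * κ) - κ) * (H * Real.log T ^ (β ^ 2 / 4)) :=
        mul_le_mul_of_nonneg_right h3 (by positivity)
      calc (c4 - ε) * (H * Real.log T ^ (β ^ 2 / 4)) ≤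
            ((c4 - κ) * (1 - 3 * κ) - κ) * (H * Real.log T ^ (β ^ 2 / 4)) := h5
        _ = ((c4 - κ) * Real.log T ^ (β ^ 2 / 4)) * ((1 - 3 * κ) * H) -
            κ * (H * Real.log T ^ (β ^ 2 / 4)) := by ring
        _ ≤ _ := by linarith
  · intro ε hε
    obtain ⟨κ, hκ, hκ1, hκ2⟩ : ∃ κ : ℝ, 0 < κ ∧ κ ≤ 1 / 100 ∧ κ ≤ ε / 10 :=
      ⟨min (1 / 100) (ε / 10), by positivity, min_le_left _ _, min_le_right _ _⟩
    obtain ⟨δU, hδU, hδU1, hU⟩ := absU hI hw hκ (by linarith)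
    obtain ⟨δL, hδL, hδL1, hLw⟩ := absL hI hw hκ hκ1
    refine ⟨min δU δL, lt_min hδU hδL, fun x => ?_⟩
    filter_upwards [hU, hLw, small (W4_of hI) hκ, e9 hκ,
      eventually_ge_atTop ((|x| + 24 ^ 5 * (1 + |x|) ^ 10 * |x| + 1) / κ),
      eventually_ge_atTop (1:ℝ), Real.tendsto_log_atTop.eventually_ge_atTop 1] with
      T hU hLw hsm h9 hTx hT1 hL1
    have hT : 0 < T := by linarith
    rw [div_le_iff₀ hκ] at hTx
    set cx := 24 ^ 5 * (1 + |x|) ^ 10 * |x| with hcx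
    have hx0 := abs_nonneg x
    have hcx0 : 0 ≤ cx := by positivity
    have hxx := abs_le.mp (show |x| ≤ κ * T by linarith)
    have hcxT : cx + 1 ≤ κ * T := by linarith
    have hseg : ∀ β : ℝ, 0 ≤ β → β ≤ 5 → -cx ≤ I0 β x ∧ I0 β x ≤ cx := fun β h0 h5 =>
      abs_le.mp (seg5 h0 h5 x)
    have hκT : 0 < κ * T := by positivity
    have hTinv : 0 < T⁻¹ := by positivity
    constructor
    · intro β hβ1 hβ2
      have hδ := min_le_left δU δL
      rw [aM_eq hT]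
      set P := Real.log T ^ (β ^ 2 / 4) with hPd
      have hP1 : 1 ≤ P := Real.one_le_rpow hL1 (by positivity)
      have h1 := hU β (by linarith) hβ2
      obtain ⟨sb1, sb2⟩ := hseg β (by linarith) (by linarith)
      have h2 : ∫ t in x..(T + x), Xz t ^ β ≤ I0 β ((1 + κ) * T) + cx := by
        rw [I0_sub (by linarith)]
        have : I0 β (T + x) ≤ I0 β ((1 + κ) * T) := I0_mono (by linarith) (by linarith [hxx.2])
        linarith
      have h3 : I0 β (T ^ ((9:ℝ)/10)) ≤ 2 * (κ * T) := by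
        have := I0_le_four (β := β) (U := T ^ ((9:ℝ)/10)) (by linarith) hβ2 (by positivity)
        linarith
      have h6 : (1 - κ) * (I0 β ((1 + κ) * T) - I0 β (T ^ ((9:ℝ)/10))) ≤
          (1 - κ) * ((c4 + 4 * κ) * (P * T)) := by
        refine h1.trans ?_
        have h7 : (c4 + κ) * (1 + κ) ^ 2 ≤ (1 - κ) * (c4 + 4 * κ) := by
          have : (1 + κ) ^ 2 ≤ 1 + 2.01 * κ := by nlinarith
          have := mul_le_mul_of_nonneg_left this (show 0 ≤ c4 + κ by linarith)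
          nlinarith [mul_pos hκ c4_pos]
        calc (c4 + κ) * P * ((1 + κ) ^ 2 * T) = ((c4 + κ) * (1 + κ) ^ 2) * (P * T) := by ring
          _ ≤ ((1 - κ) * (c4 + 4 * κ)) * (P * T) := mul_le_mul_of_nonneg_right h7 (by positivity)
          _ = _ := by ring
      have h7 := le_of_mul_le_mul_left h6 (by linarith)
      have h8 : κ * T ≤ κ * (P * T) := by
        have : 1 * T ≤ P * T := mul_le_mul_of_nonneg_right hP1 hT.le
        nlinarith
      have h10 : ∫ t in x..(T + x), Xz t ^ β ≤ (c4 + ε) * (P * T) := by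
        have h11 : (c4 + 7 * κ) * (P * T) ≤ (c4 + ε) * (P * T) :=
          mul_le_mul_of_nonneg_right (by linarith) (by positivity)
        linarith
      calc T⁻¹ * ∫ t in x..(T + x), Xz t ^ β ≤ T⁻¹ * ((c4 + ε) * (P * T)) :=
            mul_le_mul_of_nonneg_left h10 hTinv.le
        _ = (c4 + ε) * P := by field_simp
        _ = _ := rfl
    · intro β hβ1 hβ2
      have hδ := min_le_right δU δL
      rw [aM_eq hT]
      set P := Real.log T ^ (β ^ 2 / 4) with hPd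
      have hP1 : 1 ≤ P := Real.one_le_rpow hL1 (by positivity)
      have h1 := hLw β hβ1 (by linarith)
      obtain ⟨sb1, sb2⟩ := hseg β (by linarith) (by linarith)
      have h2 : I0 β ((1 - κ) * T) - cx ≤ ∫ t in x..(T + x), Xz t ^ β := by
        rw [I0_sub (by linarith)]
        have : I0 β ((1 - κ) * T) ≤ I0 β (T + x) := I0_mono (by linarith) (by linarith [hxx.1])
        linarith
      have h8 : κ * T ≤ κ * (P * T) := by
        have : 1 * T ≤ P * T := mul_le_mul_of_nonneg_right hP1 hT.le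
        nlinarith
      have h9 : c4 - ε ≤ (c4 - κ) * (1 - 3 * κ) - κ := by nlinarith [c4_pos, mul_pos hκ c4_pos]
      have h10 : (c4 - ε) * (P * T) ≤ ∫ t in x..(T + x), Xz t ^ β := by
        calc (c4 - ε) * (P * T) ≤ ((c4 - κ) * (1 - 3 * κ) - κ) * (P * T) :=
              mul_le_mul_of_nonneg_right h9 (by positivity)
          _ = (c4 - κ) * P * ((1 - 3 * κ) * T) - κ * (P * T) := by ring
          _ ≤ _ := by linarith
      calc (1 / (2 * Real.pi ^ 2) - ε) * P = (c4 - ε) * P := rfl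
        _ = T⁻¹ * ((c4 - ε) * (P * T)) := by field_simp
        _ ≤ _ := mul_le_mul_of_nonneg_left h10 hTinv.le

end

end Pool.Agent.TH73.N4_SHT
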